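import Pool.Agent.Helper40.TV.St1

/-! Project TV, piece `Am`: monotonicity of the outer roots. -/

set_option autoImplicit false

namespace Pool.Agent.Helper40.TV

open Polynomial Set Real
open Pool.Agent.Helper40.AS (Bdd)

theorem am_om_pos {n : ℕ} {x : ℕ → ℝ} {y : ℝ} (h : ∀ i < n, x i < y) :
    0 < (om n x).eval y := by
  unfold om
  rw [eval_prod]
  apply Finset.prod_pos
  intro i hi
  have := h i (Finset.mem_range.1 hi)
  simp only [eval_sub, eval_X, eval_C]
  linarith

theorem am_inc {n : ℕ} {κ α β γ : ℝ} {Z : ℝ[X]} {x : ℕ → ℝ} (hn : 3 ≤ n) (hκ : 0 < κ)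
    (hM : Mem n κ Z x) (hA : Aux n κ Z x α β γ) {y : ℝ} (hy : γ < y) :
    0 < Z.derivative.eval y := by
  have hy1 : 1 < y := lt_of_le_of_lt hA.g1 hy
  have h := congrArg (eval y) hA.id2
  simp only [eval_mul, eval_sub, eval_one, eval_pow, eval_X, eval_C] at h
  have hom : 0 < (om n x).eval y :=
    am_om_pos fun i hi => lt_of_le_of_lt (hM.mem i hi).2 hy1
  have hn' : (0 : ℝ) < n := by
    have : 0 < n := by omega
    exact_mod_cast this
  have h1 : (n * κ * 2 ^ (n - 1)) * (om n x).eval y * (γ - y) < 0 := by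
    apply mul_neg_of_pos_of_neg
    · positivity
    · linarith
  rw [← h] at h1
  have h2 : 1 - y ^ 2 < 0 := by nlinarith
  by_contra h3
  push Not at h3
  have := mul_nonneg_of_nonpos_of_nonpos h2.le h3
  linarith

theorem am_dec {n : ℕ} {κ α β γ : ℝ} {Z : ℝ[X]} {x : ℕ → ℝ} (hn : 3 ≤ n) (hκ : 0 < κ)
    (hM : Mem n κ Z x) (hA : Aux n κ Z x α β γ) {y : ℝ} (hy1 : 1 < y) (hy : y < γ) :
    Z.derivative.eval y < 0 := by
  have h := congrArg (eval y) hA.id2
  simp only [eval_mul, eval_sub, eval_one, eval_pow, eval_X, eval_C] at h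
  have hom : 0 < (om n x).eval y :=
    am_om_pos fun i hi => lt_of_le_of_lt (hM.mem i hi).2 hy1
  have hn' : (0 : ℝ) < n := by
    have : 0 < n := by omega
    exact_mod_cast this
  have h1 : 0 < (n * κ * 2 ^ (n - 1)) * (om n x).eval y * (γ - y) := by
    apply mul_pos
    · positivity
    · linarith
  rw [← h] at h1
  have h2 : 1 - y ^ 2 < 0 := by nlinarith
  by_contra h3
  push Not at h3
  have := mul_nonpos_of_nonpos_of_nonneg h2.le h3
  linarith

theorem am_mono {n : ℕ} {κ α β γ : ℝ} {Z : ℝ[X]} {x : ℕ → ℝ} (hn : 3 ≤ n) (hκ : 0 < κ)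
    (hM : Mem n κ Z x) (hA : Aux n κ Z x α β γ) :
    MonotoneOn (fun y => Z.eval y) (Ici γ) := by
  apply monotoneOn_of_deriv_nonneg (convex_Ici γ) Z.continuous.continuousOn
    Z.differentiable.differentiableOn
  intro y hy
  rw [interior_Ici] at hy
  rw [Polynomial.deriv]
  exact (am_inc hn hκ hM hA hy).le

theorem am_anti {n : ℕ} {κ α β γ : ℝ} {Z : ℝ[X]} {x : ℕ → ℝ} (hn : 3 ≤ n) (hκ : 0 < κ)
    (hM : Mem n κ Z x) (hA : Aux n κ Z x α β γ) :
    AntitoneOn (fun y => Z.eval y) (Icc 1 γ) := by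
  apply antitoneOn_of_deriv_nonpos (convex_Icc 1 γ) Z.continuous.continuousOn
    Z.differentiable.differentiableOn
  intro y hy
  rw [interior_Icc] at hy
  rw [Polynomial.deriv]
  exact (am_dec hn hκ hM hA hy.1 hy.2).le

theorem am_le_one {n : ℕ} {κ α β γ : ℝ} {Z : ℝ[X]} {x : ℕ → ℝ} (hn : 3 ≤ n) (hκ : 0 < κ)
    (hM : Mem n κ Z x) (hA : Aux n κ Z x α β γ) {y : ℝ} (hy : 1 ≤ y) (hyb : y ≤ β) :
    Z.eval y ≤ 1 := by
  rcases le_total γ y with h | h
  · have h1 := am_mono hn hκ hM hA (show y ∈ Ici γ from h)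
      (show β ∈ Ici γ from hA.ga.trans hA.ab) hyb
    simp only [hA.vb] at h1
    exact h1
  · have h1 := am_anti hn hκ hM hA (show (1 : ℝ) ∈ Icc 1 γ from ⟨le_rfl, hA.g1⟩)
      (show y ∈ Icc 1 γ from ⟨hy, h⟩) hy
    have h2 := hM.bdd 1 (by constructor <;> norm_num)
    exact h1.trans (abs_le.1 h2).2

/-- comparison to the right of the nodes -/
theorem am_lt (hCp : Cp) {n : ℕ} {κ κ' : ℝ} {Z Z' : ℝ[X]} {x x' : ℕ → ℝ} (hn : 3 ≤ n)
    (hκ : κ' < κ) (hM : Mem n κ Z x) (hM' : Mem n κ' Z' x') {y : ℝ}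
    (hy : ∀ i < n, x' i < y) : Z'.eval y < Z.eval y := by
  obtain ⟨⟨ζ, hζ, hZ⟩, -⟩ := hCp n κ κ' Z Z' x x' hn hκ hM hM'
  have h := congrArg (eval y) hZ
  simp only [eval_mul, eval_sub, eval_C] at h
  have hom : 0 < (om n ζ).eval y :=
    am_om_pos fun i hi => lt_of_le_of_lt (hζ i hi).2 (hy i hi)
  have h1 : 0 < (κ - κ') * 2 ^ (n - 1) * (om n ζ).eval y := by
    have : 0 < κ - κ' := by linarith
    positivity
  linarith

theorem am (hCp : Cp) : Am := by
  intro n κ κ' α β γ α' β' γ' Z Z' x x' hn hκ' hκ hM hM' hA hA'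
  have hκ0 : 0 < κ := hκ'.trans hκ
  constructor
  · rcases hA.ne with h1 | h1
    · rw [h1]
      exact hA'.g1.trans hA'.ga
    · by_contra hlt
      push Not at hlt
      have hα1 : 1 < α := lt_of_le_of_lt hA.g1 h1
      have hva : Z.eval α = -1 := by
        rcases hA.va with h | h
        · exact absurd h hα1.ne'
        · exact h
      have hx' : ∀ i < n, x' i < α := fun i hi => lt_of_le_of_lt (hM'.mem i hi).2 hα1
      have h2 := am_lt hCp hn hκ hM hM' hx'
      rw [hva] at h2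
      have h3 := congrArg (eval α) hA'.id1
      simp only [eval_mul, eval_sub, eval_one, eval_pow, eval_X, eval_C] at h3
      have hom : 0 < (om n x').eval α := am_om_pos hx'
      have h4 : 0 < (1 - α ^ 2) * (1 - Z'.eval α ^ 2) := by
        apply mul_pos_of_neg_of_neg
        · nlinarith
        · nlinarith
      rw [h3] at h4
      have h5 : 0 < (α' - α) * (β' - α) := by
        by_contra h6
        push Not at h6
        have h7 : 0 ≤ (4 ^ (n - 1) * κ' ^ 2) * (om n x').eval α ^ 2 := by positivity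
        have := mul_nonpos_of_nonneg_of_nonpos h7 h6
        linarith
      have h6 : β' < α := by
        by_contra h7
        push Not at h7
        have : (α' - α) * (β' - α) ≤ 0 :=
          mul_nonpos_of_nonpos_of_nonneg (by linarith) (by linarith)
        linarith
      have h7 := am_mono hn hκ' hM' hA' (show β' ∈ Ici γ' from hA'.ga.trans hA'.ab)
        (show α ∈ Ici γ' from (hA'.ga.trans hA'.ab).trans h6.le) h6.le
      simp only [hA'.vb] at h7
      linarith
  · by_contra hle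
    push Not at hle
    have hβ1 : 1 ≤ β' := hA'.g1.trans (hA'.ga.trans hA'.ab)
    have hx' : ∀ i < n, x' i < β' := by
      intro i hi
      refine lt_of_le_of_ne ((hM'.mem i hi).2.trans hβ1) ?_
      intro heq
      have h1 := hM'.val i hi
      rw [heq, hA'.vb] at h1
      rcases Nat.lt_or_ge (i + 1) n with h2 | h2
      · have h3 := hM'.lt i h2
        have h4 := (hM'.mem (i + 1) h2).2
        linarith
      · have h3 : n - i = 1 := by omega
        rw [h3] at h1
        norm_num at h1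
    have h1 := am_lt hCp hn hκ hM hM' hx'
    rw [hA'.vb] at h1
    have h2 := am_le_one hn hκ0 hM hA hβ1 hle
    linarith

end Pool.Agent.Helper40.TV
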