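import Pool.Agent.Helper40.TV.St1

set_option autoImplicit false

namespace Pool.Agent.Helper40.TV

open Polynomial Set Real
open Pool.Agent.Helper40.AS (Bdd)

noncomputable section

lemma ar_lt {n : ℕ} {κ : ℝ} {Z : ℝ[X]} {x : ℕ → ℝ} (h : Mem n κ Z x) {i k : ℕ} (hik : i < k)
    (hk : k < n) : x i < x k := by
  induction k with
  | zero => omega
  | succ k ih =>
    rcases Nat.lt_succ_iff_lt_or_eq.mp hik with h1 | h1
    · exact (ih h1 (by omega)).trans (h.lt k hk)
    · rw [h1]; exact h.lt k hk

lemma ar_split {n : ℕ} {κ : ℝ} {Z : ℝ[X]} {x : ℕ → ℝ} (h : Mem n κ Z x) (y : ℝ) :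
    ∃ j ≤ n, (∀ i < n, y < x i ↔ j ≤ i) ∧ cnt n x y = n - j := by
  classical
  have hex : ∃ j, j = n ∨ (j < n ∧ y < x j) := ⟨n, Or.inl rfl⟩
  refine ⟨Nat.find hex, ?_, ?_, ?_⟩
  · exact Nat.find_min' hex (Or.inl rfl)
  · intro i hi
    constructor
    · intro hy
      exact Nat.find_min' hex (Or.inr ⟨hi, hy⟩)
    · intro hj
      have hspec := Nat.find_spec hex
      rcases hspec with h1 | h1
      · omega
      · rcases hj.eq_or_lt with h2 | h2
        · rw [← h2]; exact h1.2
        · exact h1.2.trans (ar_lt h h2 hi)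
  · set j := Nat.find hex with hj
    have hjn : j ≤ n := Nat.find_min' hex (Or.inl rfl)
    have hiff : ∀ i < n, y < x i ↔ j ≤ i := by
      intro i hi
      constructor
      · intro hy
        exact Nat.find_min' hex (Or.inr ⟨hi, hy⟩)
      · intro hji
        have hspec := Nat.find_spec hex
        rw [← hj] at hspec
        rcases hspec with h1 | h1
        · omega
        · rcases hji.eq_or_lt with h2 | h2
          · rw [← h2]; exact h1.2
          · exact h1.2.trans (ar_lt h h2 hi)
    unfold cnt
    have : ((Finset.range n).filter fun i => y < x i) = Finset.Ico j n := by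
      ext i
      simp only [Finset.mem_filter, Finset.mem_range, Finset.mem_Ico]
      constructor
      · rintro ⟨h1, h2⟩; exact ⟨(hiff i h1).mp h2, h1⟩
      · rintro ⟨h1, h2⟩; exact ⟨h2, (hiff i h2).mpr h1⟩
    rw [this, Nat.card_Ico]

/-- the derivative does not vanish off the nodes -/
lemma ar_ne {n : ℕ} {κ : ℝ} {Z : ℝ[X]} {x : ℕ → ℝ} {y : ℝ} (hn : 3 ≤ n) (h : Mem n κ Z x)
    (hy : y ∈ Ioo (-1 : ℝ) 1) (hne : ∀ i < n, y ≠ x i) : Z.derivative.eval y ≠ 0 := by
  classical
  intro h0
  -- the derivative is not zero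
  have hD : Z.derivative ≠ 0 := by
    intro hz
    have hc := natDegree_eq_zero_of_derivative_eq_zero hz
    rw [natDegree_eq_zero] at hc
    obtain ⟨c, hc⟩ := hc
    have e0 := h.val 0 (by omega)
    have e1 := h.val 1 (by omega)
    rw [← hc, eval_C] at e0 e1
    have hpow : (-1 : ℝ) ^ (n - 0) = -(-1) ^ (n - 1) := by
      have : n - 0 = (n - 1) + 1 := by omega
      rw [this, pow_succ]; ring
    rw [hpow, ← e1] at e0
    have : ((-1 : ℝ) ^ (n - 1)) = 0 := by rw [← e1]; linarith
    exact absurd this (pow_ne_zero _ (by norm_num))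
  have hdeg : Z.derivative.natDegree ≤ n - 1 :=
    (natDegree_derivative_le Z).trans (Nat.sub_le_sub_right h.deg 1)
  have hroots : Z.derivative.roots.card ≤ n - 1 := (card_roots' _).trans hdeg
  -- interior nodes are roots
  have hint : ∀ i < n, x i ∈ Ioo (-1 : ℝ) 1 → x i ∈ Z.derivative.roots := by
    intro i hi hxi
    rw [mem_roots hD, IsRoot.def]
    apply Pool.Agent.Helper40.AS.contact_int h.bdd hxi
    rw [h.val i hi, abs_pow]; simp
  -- general counting
  have hcount : ∀ T : Finset ℕ, (∀ i ∈ T, i < n ∧ x i ∈ Ioo (-1 : ℝ) 1) →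
      (insert y (T.image x)).card = T.card + 1 ∧ (insert y (T.image x)).val ≤ Z.derivative.roots := by
    intro T hT
    constructor
    · rw [Finset.card_insert_of_notMem, Finset.card_image_of_injOn]
      · intro i hi k hk hik
        rcases lt_trichotomy i k with h1 | h1 | h1
        · exact absurd hik (ar_lt h h1 (hT k hk).1).ne
        · exact h1
        · exact absurd hik (ar_lt h h1 (hT i hi).1).ne'
      · intro hmem
        rw [Finset.mem_image] at hmem
        obtain ⟨i, hi, hiy⟩ := hmem
        exact hne i (hT i hi).1 hiy.symm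
    · rw [Finset.val_le_iff_val_subset]
      intro a ha
      rw [Finset.mem_val, Finset.mem_insert, Finset.mem_image] at ha
      rcases ha with rfl | ⟨i, hi, rfl⟩
      · rw [mem_roots hD]; exact h0
      · exact hint i (hT i hi).1 (hT i hi).2
  have hle : ∀ i < n, -1 ≤ x i ∧ x i ≤ 1 := fun i hi => h.mem i hi
  have hin : ∀ i, 1 ≤ i → i < n - 1 → x i ∈ Ioo (-1 : ℝ) 1 := by
    intro i h1 h2
    constructor
    · exact lt_of_le_of_lt (hle 0 (by omega)).1 (ar_lt h (by omega) (by omega))
    · exact lt_of_lt_of_le (ar_lt h (by omega : i < n - 1) (by omega)) (hle (n - 1) (by omega)).2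
  -- the end points are nodes
  have hx0 : x 0 = -1 := by
    by_contra hcon
    have h00 : x 0 ∈ Ioo (-1 : ℝ) 1 :=
      ⟨lt_of_le_of_ne (hle 0 (by omega)).1 (Ne.symm hcon),
        lt_of_lt_of_le (ar_lt h (by omega : 0 < n - 1) (by omega)) (hle (n - 1) (by omega)).2⟩
    obtain ⟨c1, c2⟩ := hcount (Finset.range (n - 1)) (by
      intro i hi
      rw [Finset.mem_range] at hi
      refine ⟨by omega, ?_⟩
      rcases Nat.eq_zero_or_pos i with rfl | hpos
      · exact h00
      · exact hin i hpos hi)
    have := Multiset.card_le_card c2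
    rw [Finset.card_val, c1, Finset.card_range] at this
    omega
  have hx1 : x (n - 1) = 1 := by
    by_contra hcon
    have h11 : x (n - 1) ∈ Ioo (-1 : ℝ) 1 :=
      ⟨lt_of_le_of_lt (hle 0 (by omega)).1 (ar_lt h (by omega : 0 < n - 1) (by omega)),
        lt_of_le_of_ne (hle (n - 1) (by omega)).2 hcon⟩
    obtain ⟨c1, c2⟩ := hcount (Finset.Ico 1 n) (by
      intro i hi
      rw [Finset.mem_Ico] at hi
      refine ⟨hi.2, ?_⟩
      rcases Nat.lt_or_ge i (n - 1) with h2 | h2
      · exact hin i hi.1 h2
      · have : i = n - 1 := by omega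
        rw [this]; exact h11)
    have := Multiset.card_le_card c2
    rw [Finset.card_val, c1, Nat.card_Ico] at this
    omega
  obtain ⟨c1, c2⟩ := hcount (Finset.Ico 1 (n - 1)) (by
    intro i hi
    rw [Finset.mem_Ico] at hi
    exact ⟨by omega, hin i hi.1 hi.2⟩)
  set S : Finset ℝ := insert y ((Finset.Ico 1 (n - 1)).image x) with hS
  have hcardS : S.card = n - 1 := by rw [c1, Nat.card_Ico]; omega
  have hSroots : S.val = Z.derivative.roots := by
    apply Multiset.eq_of_le_of_card_le c2
    rw [Finset.card_val, hcardS]; exact hroots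
  have hfact : Z.derivative = C Z.derivative.leadingCoeff * ∏ a ∈ S, (X - C a) := by
    have h1 : Z.derivative.roots.card = Z.derivative.natDegree := by
      apply le_antisymm (card_roots' _)
      rw [← hSroots, Finset.card_val, hcardS]; exact hdeg
    have h2 := C_leadingCoeff_mul_prod_multiset_X_sub_C h1
    rw [← hSroots] at h2
    exact h2.symm
  set lc := Z.derivative.leadingCoeff with hlc
  have hlc0 : lc ≠ 0 := leadingCoeff_ne_zero.mpr hD
  -- the gap containing y
  obtain ⟨j, hj, hiff, -⟩ := ar_split h y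
  have hj1 : 1 ≤ j := by
    by_contra hcon
    have : j = 0 := by omega
    have := (hiff 0 (by omega)).mpr (by omega)
    rw [hx0] at this
    linarith [hy.1]
  have hj2 : j ≤ n - 1 := by
    have : y < x (n - 1) := by rw [hx1]; exact hy.2
    exact (hiff (n - 1) (by omega)).mp this
  have hjn : j < n := by omega
  have hyr : y < x j := (hiff j hjn).mpr le_rfl
  have hyl : x (j - 1) < y := by
    rcases lt_trichotomy y (x (j - 1)) with h1 | h1 | h1
    · have := (hiff (j - 1) (by omega)).mp h1; omega
    · exact absurd h1 (hne (j - 1) (by omega))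
    · exact h1
  -- mean values on both sides
  obtain ⟨ξ, hξ, hξe⟩ := exists_hasDerivAt_eq_slope (fun t => Z.eval t) (fun t => Z.derivative.eval t)
    hyl Z.continuous.continuousOn (fun t _ => Z.hasDerivAt t)
  obtain ⟨η, hη, hηe⟩ := exists_hasDerivAt_eq_slope (fun t => Z.eval t) (fun t => Z.derivative.eval t)
    hyr Z.continuous.continuousOn (fun t _ => Z.hasDerivAt t)
  have hby : |Z.eval y| ≤ 1 := h.bdd y ⟨hy.1.le, hy.2.le⟩
  rw [abs_le] at hby
  have v1 := h.val j hjn
  have v0 := h.val (j - 1) (by omega)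
  have hpow : (-1 : ℝ) ^ (n - (j - 1)) = -(-1) ^ (n - j) := by
    have : n - (j - 1) = (n - j) + 1 := by omega
    rw [this, pow_succ]; ring
  rw [hpow] at v0
  have hprod : 0 ≤ Z.derivative.eval ξ * Z.derivative.eval η := by
    have e1 : Z.derivative.eval ξ = (Z.eval y - Z.eval (x (j - 1))) / (y - x (j - 1)) := hξe
    have e2 : Z.derivative.eval η = (Z.eval (x j) - Z.eval y) / (x j - y) := hηe
    rw [e1, e2, v0, v1, div_mul_div_comm]
    apply div_nonneg _ (mul_nonneg (by linarith) (by linarith))
    rcases neg_one_pow_eq_or ℝ (n - j) with hp | hp <;> rw [hp] <;> nlinarith [hby.1, hby.2]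
  -- product formula
  have hev : ∀ t, Z.derivative.eval t = lc * ∏ a ∈ S, (t - a) := by
    intro t
    conv_lhs => rw [hfact]
    rw [eval_mul, eval_C, eval_prod]
    simp
  have hyS : y ∈ S := Finset.mem_insert_self _ _
  have hneg : Z.derivative.eval ξ * Z.derivative.eval η < 0 := by
    rw [hev, hev, ← Finset.mul_prod_erase S _ hyS, ← Finset.mul_prod_erase S _ hyS]
    have hpos : 0 < (∏ a ∈ S.erase y, (ξ - a)) * ∏ a ∈ S.erase y, (η - a) := by
      rw [← Finset.prod_mul_distrib]
      apply Finset.prod_pos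
      intro a ha
      rw [Finset.mem_erase, hS, Finset.mem_insert, Finset.mem_image] at ha
      obtain ⟨hay, ha | ⟨i, hi, rfl⟩⟩ := ha
      · exact absurd ha hay
      · rw [Finset.mem_Ico] at hi
        rcases Nat.lt_or_ge i j with hij | hij
        · have : x i ≤ x (j - 1) := by
            rcases Nat.lt_or_ge i (j - 1) with h3 | h3
            · exact (ar_lt h h3 (by omega)).le
            · have : i = j - 1 := by omega
              rw [this]
          have a1 : 0 < ξ - x i := by linarith [hξ.1]
          have a2 : 0 < η - x i := by linarith [hη.1]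
          positivity
        · have : x j ≤ x i := by
            rcases hij.eq_or_lt with h3 | h3
            · rw [h3]
            · exact (ar_lt h h3 (by omega)).le
          have a1 : ξ - x i < 0 := by linarith [hξ.2]
          have a2 : η - x i < 0 := by linarith [hη.2]
          exact mul_pos_of_neg_of_neg a1 a2
    have b1 : ξ - y < 0 := by linarith [hξ.2]
    have b2 : 0 < η - y := by linarith [hη.1]
    have b3 : 0 < lc * lc := mul_self_pos.mpr hlc0
    have e : lc * ((ξ - y) * ∏ a ∈ S.erase y, (ξ - a)) * (lc * ((η - y) * ∏ a ∈ S.erase y, (η - a)))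
        = (lc * lc) * ((ξ - y) * (η - y)) *
          ((∏ a ∈ S.erase y, (ξ - a)) * ∏ a ∈ S.erase y, (η - a)) := by ring
    rw [e]
    have b4 : (ξ - y) * (η - y) < 0 := mul_neg_of_neg_of_pos b1 b2
    exact mul_neg_of_neg_of_pos (mul_neg_of_pos_of_neg b3 b4) hpos
  linarith

theorem ar (hCt : Ct) : Ar := by
  intro n κ Z x y hn h hy hne
  have hlt : |Z.eval y| < 1 := by
    have h1 : |Z.eval y| ≤ 1 := h.bdd y ⟨hy.1.le, hy.2.le⟩
    refine lt_of_le_of_ne h1 ?_
    intro h2
    rcases hCt n κ Z x y hn h ⟨hy.1.le, hy.2.le⟩ h2 with ⟨i, hi, he⟩ | ⟨he, -⟩ | ⟨he, -⟩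
    · exact hne i hi he
    · linarith [hy.2]
    · linarith [hy.1]
  refine ⟨?_, hlt⟩
  obtain ⟨j, hj, hiff, hcnt⟩ := ar_split h y
  rw [hcnt]
  rw [abs_lt] at hlt
  -- constant sign on an interval without zeros
  have hsign : ∀ (σ : ℝ) (u v : ℝ), u ≤ v → (∀ t ∈ Icc u v, σ * Z.derivative.eval t ≠ 0) →
      (0 < σ * Z.derivative.eval u ↔ 0 < σ * Z.derivative.eval v) := by
    intro σ u v huv hne0
    have hcont : ContinuousOn (fun t => σ * Z.derivative.eval t) (Icc u v) :=
      (continuous_const.mul Z.derivative.continuous).continuousOn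
    constructor
    · intro hu
      by_contra hv
      push Not at hv
      obtain ⟨t, ht, ht0⟩ := intermediate_value_Icc' huv hcont ⟨hv, hu.le⟩
      exact hne0 t ht ht0
    · intro hv
      by_contra hu
      push Not at hu
      obtain ⟨t, ht, ht0⟩ := intermediate_value_Icc huv hcont ⟨hu, hv.le⟩
      exact hne0 t ht ht0
  rcases hj.lt_or_eq with hjn | hjn
  · -- there is a node to the right
    have hyr : y < x j := (hiff j hjn).mpr le_rfl
    obtain ⟨η, hη, hηe⟩ := exists_hasDerivAt_eq_slope (fun t => Z.eval t)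
      (fun t => Z.derivative.eval t) hyr Z.continuous.continuousOn (fun t _ => Z.hasDerivAt t)
    have hηe' : Z.derivative.eval η = (Z.eval (x j) - Z.eval y) / (x j - y) := hηe
    have hxj1 : x j ≤ 1 := (h.mem j hjn).2
    have hnz : ∀ t ∈ Icc y η, (-1 : ℝ) ^ (n - j) * Z.derivative.eval t ≠ 0 := by
      intro t ht
      apply mul_ne_zero (pow_ne_zero _ (by norm_num))
      apply ar_ne hn h ⟨by linarith [hy.1, ht.1], by linarith [ht.2, hη.2]⟩
      intro i hi hti
      rcases Nat.lt_or_ge i j with h3 | h3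
      · have : ¬ y < x i := fun h4 => by have := (hiff i hi).mp h4; omega
        have h5 : x i ≠ y := fun h6 => hne i hi h6.symm
        have h6 : x i < y := lt_of_le_of_ne (not_lt.mp this) h5
        linarith [ht.1]
      · have : x j ≤ x i := by
          rcases h3.eq_or_lt with h4 | h4
          · rw [h4]
          · exact (ar_lt h h4 hi).le
        linarith [ht.2, hη.2]
    rw [hsign _ y η hη.1.le hnz, hηe', h.val j hjn, ← mul_div_assoc]
    apply div_pos _ (by linarith)
    rcases neg_one_pow_eq_or ℝ (n - j) with hp | hp <;> rw [hp] <;> nlinarith [hlt.1, hlt.2]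
  · -- all nodes are to the left
    rw [hjn, Nat.sub_self, pow_zero]
    have hlast : x (n - 1) < y := by
      have h4 : ¬ y < x (n - 1) := fun h4 => by have := (hiff (n - 1) (by omega)).mp h4; omega
      exact lt_of_le_of_ne (not_lt.mp h4) (fun h6 => hne (n - 1) (by omega) h6.symm)
    obtain ⟨ξ, hξ, hξe⟩ := exists_hasDerivAt_eq_slope (fun t => Z.eval t)
      (fun t => Z.derivative.eval t) hlast Z.continuous.continuousOn (fun t _ => Z.hasDerivAt t)
    have hξe' : Z.derivative.eval ξ = (Z.eval y - Z.eval (x (n - 1))) / (y - x (n - 1)) := hξe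
    have hx1 : -1 ≤ x (n - 1) := (h.mem (n - 1) (by omega)).1
    have hnz : ∀ t ∈ Icc ξ y, (1 : ℝ) * Z.derivative.eval t ≠ 0 := by
      intro t ht
      apply mul_ne_zero one_ne_zero
      apply ar_ne hn h ⟨by linarith [ht.1, hξ.1], by linarith [ht.2, hy.2]⟩
      intro i hi hti
      have : x i ≤ x (n - 1) := by
        rcases Nat.lt_or_ge i (n - 1) with h3 | h3
        · exact (ar_lt h h3 (by omega)).le
        · have : i = n - 1 := by omega
          rw [this]
      linarith [ht.1, hξ.1]
    rw [← hsign 1 ξ y hξ.2.le hnz, one_mul, hξe', h.val (n - 1) (by omega)]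
    have : n - (n - 1) = 1 := by omega
    rw [this]
    apply div_pos _ (by linarith)
    nlinarith [hlt.1]

end

end Pool.Agent.Helper40.TV
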