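import Pool.Agent.Helper40.TV.St1

/-!
Project TV, piece Ax: the identities for members with positive parameter.
-/

set_option autoImplicit false

namespace Pool.Agent.Helper40.TV

open Polynomial Set Real
open Pool.Agent.Helper40.AS (Bdd)

noncomputable section

theorem ax_lt {n : ℕ} {x : ℕ → ℝ} (h : ∀ i, i + 1 < n → x i < x (i + 1)) {i j : ℕ} (hij : i < j)
    (hj : j < n) : x i < x j := by
  induction j with
  | zero => omega
  | succ j ih =>
    rcases Nat.lt_succ_iff_lt_or_eq.1 hij with h1 | h1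
    · exact (ih h1 (by omega)).trans (h j hj)
    · rw [h1]; exact h j hj

/-- division by a monic divisor -/
theorem ax_div {D W : ℝ[X]} {m k : ℕ} (hD : D.Monic) (hm : D.natDegree = m) (hd : D ∣ W)
    (hW : W.natDegree ≤ m + k) :
    ∃ R : ℝ[X], W = D * R ∧ R.natDegree ≤ k ∧ R.coeff k = W.coeff (m + k) := by
  obtain ⟨R, hR⟩ := hd
  have h1 : R.natDegree ≤ k := by
    by_cases h0 : R = 0
    · rw [h0]; simp
    · have := hD.natDegree_mul' h0
      rw [← hR, hm] at this
      omega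
  refine ⟨R, hR, h1, ?_⟩
  rw [hR, coeff_mul_add_eq_of_natDegree_le hm.le h1]
  have : D.coeff m = 1 := by rw [← hm]; exact hD.coeff_natDegree
  rw [this, one_mul]

theorem ax_quad {Q : ℝ[X]} {c a : ℝ} (hc : c ≠ 0) (hQ : Q.natDegree ≤ 2) (h2 : Q.coeff 2 = c)
    (ha : Q.eval a = 0) : ∃ b, Q = C c * ((C a - X) * (C b - X)) := by
  have hq : Q = C (Q.coeff 2) * X ^ 2 + C (Q.coeff 1) * X + C (Q.coeff 0) := by
    conv_lhs => rw [Q.as_sum_range' 3 (by omega)]
    simp [Finset.sum_range_succ, ← C_mul_X_pow_eq_monomial]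
    ring
  have he : c * a ^ 2 + Q.coeff 1 * a + Q.coeff 0 = 0 := by
    rw [hq] at ha
    simp only [eval_add, eval_mul, eval_C, eval_pow, eval_X] at ha
    rw [h2] at ha
    exact ha
  refine ⟨-(Q.coeff 1) / c - a, ?_⟩
  have e1 : Q.coeff 0 = c * a * (-(Q.coeff 1) / c - a) := by
    field_simp
    linarith
  have e2 : Q.coeff 1 = -(c * (a + (-(Q.coeff 1) / c - a))) := by
    field_simp
    ring
  generalize hb : -(Q.coeff 1) / c - a = b at e1 e2
  rw [hq, h2, e1, e2]
  simp only [C_mul, C_neg, C_add]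
  ring

theorem ax_quad2 {Q : ℝ[X]} {c a b : ℝ} (hc : c ≠ 0) (hQ : Q.natDegree ≤ 2) (h2 : Q.coeff 2 = c)
    (ha : Q.eval a = 0) (hb : Q.eval b = 0) (hab : a ≠ b) :
    Q = C c * ((C a - X) * (C b - X)) := by
  obtain ⟨b', h⟩ := ax_quad hc hQ h2 ha
  have h1 : c * ((a - b) * (b' - b)) = 0 := by
    rw [h] at hb
    simpa using hb
  have h3 : b' = b := by
    rcases mul_eq_zero.1 h1 with h4 | h4
    · exact absurd h4 hc
    · rcases mul_eq_zero.1 h4 with h5 | h5
      · exact absurd (sub_eq_zero.1 h5) hab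
      · exact sub_eq_zero.1 h5
  rw [← h3]; exact h

theorem ax_monic (n : ℕ) (x : ℕ → ℝ) : (om n x).Monic :=
  monic_prod_of_monic _ _ fun i _ => monic_X_sub_C _

theorem ax_deg (n : ℕ) (x : ℕ → ℝ) : (om n x).natDegree = n := by
  unfold om
  rw [natDegree_prod_of_monic _ _ fun i _ => monic_X_sub_C _]
  simp

theorem ax_eval (n : ℕ) (x : ℕ → ℝ) (y : ℝ) :
    (om n x).eval y = ∏ i ∈ Finset.range n, (y - x i) := by
  unfold om
  rw [eval_prod]
  simp

theorem ax_cop {n : ℕ} {x : ℕ → ℝ} (h : ∀ i, i + 1 < n → x i < x (i + 1)) {i j : ℕ}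
    (hi : i < n) (hj : j < n) (hij : i ≠ j) : IsCoprime (X - C (x i) : ℝ[X]) (X - C (x j)) := by
  apply isCoprime_X_sub_C_of_isUnit_sub
  apply IsUnit.mk0
  rcases lt_or_gt_of_ne hij with h1 | h1
  · have := ax_lt h h1 hj
    intro h0; linarith
  · have := ax_lt h h1 hi
    intro h0; linarith

theorem ax_dvd1 {n : ℕ} {x : ℕ → ℝ} (h : ∀ i, i + 1 < n → x i < x (i + 1)) {W : ℝ[X]}
    (hW : ∀ i < n, W.eval (x i) = 0) : om n x ∣ W := by
  unfold om
  apply Finset.prod_dvd_of_coprime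
  · intro _ hi _ hj hij
    exact ax_cop h (by simpa using hi) (by simpa using hj) hij
  · intro i hi
    exact dvd_iff_isRoot.2 (hW i (by simpa using hi))

theorem ax_dvd2 {n : ℕ} {x : ℕ → ℝ} (h : ∀ i, i + 1 < n → x i < x (i + 1)) {W : ℝ[X]}
    (hW : ∀ i < n, (X - C (x i)) ^ 2 ∣ W) : om n x ^ 2 ∣ W := by
  unfold om
  rw [← Finset.prod_pow]
  apply Finset.prod_dvd_of_coprime
  · intro _ hi _ hj hij
    exact (ax_cop h (by simpa using hi) (by simpa using hj) hij).pow
  · intro i hi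
    exact hW i (by simpa using hi)

theorem ax_sq {Z : ℝ[X]} {a : ℝ} (hd : Z.derivative.eval a = 0) (h1 : Z.eval a ^ 2 = 1) :
    (X - C a) ^ 2 ∣ 1 - Z ^ 2 := by
  obtain ⟨R, hR⟩ : (X - C a) ∣ Z - C (Z.eval a) := by
    apply dvd_iff_isRoot.2
    simp
  have h2 : Z.derivative = R + (X - C a) * derivative R := by
    have := congrArg derivative hR
    simp only [derivative_sub, derivative_C, sub_zero, derivative_mul, derivative_X, one_mul]
      at this
    exact this
  have h3 : R.eval a = 0 := by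
    have := congrArg (eval a) h2
    simp only [eval_add, eval_mul, eval_sub, eval_X, eval_C, sub_self, zero_mul, add_zero] at this
    rw [← this]; exact hd
  obtain ⟨S, hS⟩ : (X - C a) ∣ R := dvd_iff_isRoot.2 h3
  refine ⟨-S * (Z + C (Z.eval a)), ?_⟩
  have h4 : (1 : ℝ[X]) = C (Z.eval a) ^ 2 := by
    rw [← C_pow, h1, C_1]
  have h5 : 1 - Z ^ 2 = -((Z - C (Z.eval a)) * (Z + C (Z.eval a))) := by
    rw [h4]; ring
  rw [h5, hR, hS]
  ring

theorem ax_sq_end {Z : ℝ[X]} {a : ℝ} (ha : a ^ 2 = 1) (h1 : Z.eval a ^ 2 = 1) :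
    (X - C a) ^ 2 ∣ (1 - X ^ 2) * (1 - Z ^ 2) := by
  rw [sq]
  apply mul_dvd_mul
  · apply dvd_iff_isRoot.2
    simp [ha]
  · apply dvd_iff_isRoot.2
    simp [h1]

/-- all the information on a member -/
structure AxD (m : ℕ) (κ : ℝ) (Z : ℝ[X]) (x : ℕ → ℝ) (γ : ℝ) (Q : ℝ[X]) : Prop where
  x0 : x 0 = -1
  id2 : (1 - X ^ 2) * derivative Z = om (m + 2) x * (C ((m + 2 : ℕ) * κ * 2 ^ (m + 1)) * (C γ - X))
  id1 : (1 - X ^ 2) * (1 - Z ^ 2) = om (m + 2) x ^ 2 * Q
  dQ : Q.natDegree ≤ 2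
  cQ : Q.coeff 2 = 4 ^ (m + 1) * κ ^ 2

theorem ax_val_sq {n : ℕ} {κ : ℝ} {Z : ℝ[X]} {x : ℕ → ℝ} (hM : Mem n κ Z x) {i : ℕ} (hi : i < n) :
    Z.eval (x i) ^ 2 = 1 := by
  rw [hM.val i hi, ← pow_mul, mul_comm, pow_mul]
  simp

theorem ax_crit {n : ℕ} {κ : ℝ} {Z : ℝ[X]} {x : ℕ → ℝ} (hM : Mem n κ Z x) {i : ℕ} (hi : i < n)
    (h1 : -1 < x i) (h2 : x i < 1) : Z.derivative.eval (x i) = 0 := by
  apply AS.contact_int hM.bdd ⟨h1, h2⟩
  rw [hM.val i hi, abs_pow]
  simp

theorem ax_cases {n : ℕ} {κ : ℝ} {Z : ℝ[X]} {x : ℕ → ℝ} (hM : Mem n κ Z x) {i : ℕ} (hi : i < n) :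
    x i ^ 2 = 1 ∨ Z.derivative.eval (x i) = 0 := by
  rcases (hM.mem i hi).1.lt_or_eq with h1 | h1
  · rcases (hM.mem i hi).2.lt_or_eq with h2 | h2
    · right; exact ax_crit hM hi h1 h2
    · left; rw [h2]; norm_num
  · left; rw [← h1]; norm_num

theorem ax_der_coeff {m : ℕ} {κ : ℝ} {Z : ℝ[X]} {x : ℕ → ℝ} (hM : Mem (m + 2) κ Z x) :
    Z.derivative.coeff (m + 1) = (m + 2 : ℕ) * κ * 2 ^ (m + 1) := by
  rw [coeff_derivative]
  have := hM.lead
  rw [show m + 2 - 1 = m + 1 by omega] at this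
  rw [show m + 1 + 1 = m + 2 by omega, this]
  push_cast
  ring

theorem ax_der_deg {m : ℕ} {κ : ℝ} {Z : ℝ[X]} {x : ℕ → ℝ} (hM : Mem (m + 2) κ Z x) :
    Z.derivative.natDegree ≤ m + 1 := by
  have h1 := natDegree_derivative_le Z
  have h2 := hM.deg
  omega

/-- the left end is a node -/
theorem ax_x0 {m : ℕ} {κ : ℝ} {Z : ℝ[X]} {x : ℕ → ℝ} (hκ : 0 < κ) (hM : Mem (m + 2) κ Z x) :
    x 0 = -1 := by
  by_contra hne
  have h0 : -1 < x 0 := lt_of_le_of_ne (hM.mem 0 (by omega)).1 (Ne.symm hne)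
  have hlast : x (m + 1) ≤ 1 := (hM.mem (m + 1) (by omega)).2
  have hcr : ∀ i < m + 1, Z.derivative.eval (x i) = 0 := by
    intro i hi
    apply ax_crit hM (by omega)
    · rcases Nat.eq_zero_or_pos i with h1 | h1
      · rw [h1]; exact h0
      · exact h0.trans (ax_lt hM.lt h1 (by omega))
    · exact lt_of_lt_of_le (ax_lt hM.lt hi (by omega)) hlast
  have hdvd : om (m + 1) x ∣ Z.derivative := by
    apply ax_dvd1 _ hcr
    intro i hi
    exact hM.lt i (by omega)
  obtain ⟨R, hR, hR0, hRc⟩ := ax_div (k := 0) (ax_monic _ _) (ax_deg _ _) hdvd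
    (by simpa using ax_der_deg hM)
  rw [add_zero, ax_der_coeff hM] at hRc
  have hR1 : R = C ((m + 2 : ℕ) * κ * 2 ^ (m + 1)) := by
    rw [← hRc]
    exact eq_C_of_natDegree_le_zero hR0
  have hpos : ∀ y, x m < y → 0 < Z.derivative.eval y := by
    intro y hy
    rw [hR, hR1, eval_mul, eval_C, ax_eval]
    apply mul_pos
    · apply Finset.prod_pos
      intro i hi
      rw [Finset.mem_range] at hi
      rcases Nat.lt_succ_iff_lt_or_eq.1 hi with h1 | h1
      · have := ax_lt hM.lt h1 (by omega)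
        linarith
      · rw [h1]; linarith
    · positivity
  have hmono : StrictMonoOn (fun y => Z.eval y) (Icc (x m) (x (m + 1))) := by
    apply strictMonoOn_of_deriv_pos (convex_Icc _ _)
    · fun_prop
    · intro y hy
      rw [interior_Icc] at hy
      rw [Polynomial.deriv]
      exact hpos y hy.1
  have hlt := hM.lt m (by omega)
  have h1 := hmono (left_mem_Icc.2 hlt.le) (right_mem_Icc.2 hlt.le) hlt
  simp only at h1
  rw [hM.val m (by omega), hM.val (m + 1) (by omega)] at h1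
  rw [show m + 2 - m = 2 by omega, show m + 2 - (m + 1) = 1 by omega] at h1
  norm_num at h1

theorem ax_D {m : ℕ} {κ : ℝ} {Z : ℝ[X]} {x : ℕ → ℝ} (hκ : 0 < κ) (hM : Mem (m + 2) κ Z x) :
    ∃ γ Q, AxD m κ Z x γ Q := by
  have hd2 : (1 - X ^ 2 : ℝ[X]).natDegree ≤ 2 := by
    refine (natDegree_sub_le _ _).trans ?_
    simp
  have hc2 : (1 - X ^ 2 : ℝ[X]).coeff 2 = -1 := by
    rw [coeff_sub, coeff_X_pow, coeff_one]
    norm_num
  have hcpos : (0 : ℝ) < (m + 2 : ℕ) * κ * 2 ^ (m + 1) := by positivity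
  obtain ⟨R, hR, hRd, hRc⟩ := ax_div (k := 1) (W := (1 - X ^ 2) * derivative Z) (ax_monic (m + 2) x)
    (ax_deg _ _) (by
      apply ax_dvd1 hM.lt
      intro i hi
      rw [eval_mul]
      rcases ax_cases hM hi with h | h
      · simp [h]
      · rw [h, mul_zero]) (by
      refine natDegree_mul_le.trans ?_
      have := ax_der_deg hM
      omega)
  rw [show m + 2 + 1 = 2 + (m + 1) by omega, coeff_mul_add_eq_of_natDegree_le hd2 (ax_der_deg hM), hc2,
    ax_der_coeff hM] at hRc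
  obtain ⟨Q, hQ, hQd, hQc⟩ := ax_div (k := 2) (W := (1 - X ^ 2) * (1 - Z ^ 2))
    ((ax_monic (m + 2) x).pow 2) (by rw [(ax_monic (m + 2) x).natDegree_pow, ax_deg]) (by
      apply ax_dvd2 hM.lt
      intro i hi
      rcases ax_cases hM hi with h | h
      · exact ax_sq_end h (ax_val_sq hM hi)
      · exact Dvd.dvd.mul_left (ax_sq h (ax_val_sq hM hi)) _) (by
      refine natDegree_mul_le.trans ?_
      have h1 : (1 - Z ^ 2 : ℝ[X]).natDegree ≤ 2 * (m + 2) := by
        refine (natDegree_sub_le _ _).trans ?_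
        rw [natDegree_one, max_le_iff]
        refine ⟨by omega, natDegree_pow_le.trans ?_⟩
        exact Nat.mul_le_mul_left _ hM.deg
      omega)
  have h1Z : (1 - Z ^ 2 : ℝ[X]).natDegree ≤ 2 * (m + 2) := by
    refine (natDegree_sub_le _ _).trans ?_
    rw [natDegree_one, max_le_iff]
    refine ⟨by omega, natDegree_pow_le.trans ?_⟩
    exact Nat.mul_le_mul_left _ hM.deg
  have hcZ : (1 - Z ^ 2 : ℝ[X]).coeff (2 * (m + 2)) = -(4 ^ (m + 1) * κ ^ 2) := by
    rw [coeff_sub, coeff_one, if_neg (by omega), sq, show 2 * (m + 2) = (m + 2) + (m + 2) by ring,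
      coeff_mul_add_eq_of_natDegree_le hM.deg hM.deg, hM.lead, show m + 2 - 1 = m + 1 by omega]
    have : (4 : ℝ) ^ (m + 1) = 2 ^ (m + 1) * 2 ^ (m + 1) := by
      rw [← mul_pow]; norm_num
    rw [this]
    ring
  rw [show 2 * (m + 2) + 2 = 2 + 2 * (m + 2) by omega, coeff_mul_add_eq_of_natDegree_le hd2 h1Z, hc2,
    hcZ] at hQc
  set c : ℝ := (m + 2 : ℕ) * κ * 2 ^ (m + 1) with hc
  refine ⟨R.coeff 0 / c, Q, ax_x0 hκ hM, ?_, hQ, hQd, by rw [hQc]; ring⟩
  rw [hR, ← hc]
  congr 1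
  have h3 := eq_X_add_C_of_natDegree_le_one hRd
  rw [hRc] at h3
  conv_lhs => rw [h3]
  have h4 : R.coeff 0 = c * (R.coeff 0 / c) := by field_simp
  rw [mul_sub, ← C_mul, ← h4, neg_one_mul, C_neg]
  ring

/-- Case 1: the right end is not a node -/
theorem ax_case1 {m : ℕ} {κ : ℝ} {Z : ℝ[X]} {x : ℕ → ℝ} {γ : ℝ} {Q : ℝ[X]} (hκ : 0 < κ)
    (hM : Mem (m + 2) κ Z x) (hD : AxD m κ Z x γ Q) (h1 : x (m + 1) < 1) :
    ∃ α β γ, Aux (m + 2) κ Z x α β γ := by
  set c : ℝ := (m + 2 : ℕ) * κ * 2 ^ (m + 1) with hc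
  have hcpos : 0 < c := by positivity
  set d : ℝ := 4 ^ (m + 1) * κ ^ 2 with hd
  have hdpos : 0 < d := by positivity
  have hle : ∀ i < m + 2, x i ≤ x (m + 1) := by
    intro i hi
    rcases Nat.lt_succ_iff_lt_or_eq.1 hi with h2 | h2
    · exact (ax_lt hM.lt h2 (by omega)).le
    · rw [h2]
  have hom : ∀ y, x (m + 1) < y → 0 < (om (m + 2) x).eval y := by
    intro y hy
    rw [ax_eval]
    apply Finset.prod_pos
    intro i hi
    have := hle i (by simpa using hi)
    linarith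
  have hom1 := hom 1 h1
  have hγ : γ = 1 := by
    have h2 := congrArg (eval 1) hD.id2
    simp only [eval_mul, eval_sub, eval_one, eval_pow, eval_X, eval_C, one_pow, sub_self,
      zero_mul] at h2
    rcases mul_eq_zero.1 h2.symm with h3 | h3
    · exact absurd h3 hom1.ne'
    · rcases mul_eq_zero.1 h3 with h4 | h4
      · exact absurd h4 hcpos.ne'
      · linarith
  have hQ1 : Q.eval 1 = 0 := by
    have h2 := congrArg (eval 1) hD.id1
    simp only [eval_mul, eval_sub, eval_one, eval_pow, eval_X, one_pow, sub_self,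
      zero_mul] at h2
    rcases mul_eq_zero.1 h2.symm with h3 | h3
    · exact absurd h3 (pow_pos hom1 2).ne'
    · exact h3
  obtain ⟨β, hβ⟩ := ax_quad hdpos.ne' hD.dQ hD.cQ hQ1
  have hne : (1 - X : ℝ[X]) ≠ 0 := by
    intro h
    have := congrArg (eval 0) h
    simp at this
  have e1 : (1 + X) * (1 - Z ^ 2) = om (m + 2) x ^ 2 * (C d * (C β - X)) := by
    apply mul_left_cancel₀ hne
    have := hD.id1
    rw [hβ] at this
    rw [C_1] at this
    linear_combination this
  have e2 : (1 + X) * derivative Z = om (m + 2) x * C c := by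
    apply mul_left_cancel₀ hne
    have := hD.id2
    rw [hγ, C_1] at this
    linear_combination this
  have hder : ∀ y, x (m + 1) < y → 0 < Z.derivative.eval y := by
    intro y hy
    have h2 := congrArg (eval y) e2
    simp only [eval_mul, eval_add, eval_one, eval_X, eval_C] at h2
    have h3 : 0 < (1 + y) * Z.derivative.eval y := by
      rw [h2]; exact mul_pos (hom y hy) hcpos
    have h4 : 0 < 1 + y := by
      have := (hM.mem (m + 1) (by omega)).1
      linarith
    exact (mul_pos_iff_of_pos_left h4).1 h3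
  have hβ1 : 1 ≤ β := by
    by_contra hcon
    push Not at hcon
    obtain ⟨y, hy1, hy2⟩ := exists_between (max_lt h1 hcon)
    have hy3 : x (m + 1) < y := lt_of_le_of_lt (le_max_left _ _) hy1
    have hy4 : β < y := lt_of_le_of_lt (le_max_right _ _) hy1
    have h2 := congrArg (eval y) e1
    simp only [eval_mul, eval_add, eval_sub, eval_one, eval_X, eval_C, eval_pow] at h2
    have hy0 : -1 ≤ y := ((hM.mem (m + 1) (by omega)).1).trans hy3.le
    have h3 : Z.eval y ^ 2 ≤ 1 := by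
      rw [sq_le_one_iff_abs_le_one]
      exact hM.bdd y ⟨hy0, hy2.le⟩
    have h4 : 0 ≤ (1 + y) * (1 - Z.eval y ^ 2) := mul_nonneg (by linarith) (by linarith)
    rw [h2] at h4
    have h5 : (om (m + 2) x).eval y ^ 2 * (d * (β - y)) < 0 :=
      mul_neg_of_pos_of_neg (pow_pos (hom y hy3) 2) (mul_neg_of_pos_of_neg hdpos (by linarith))
    linarith
  have hZβ : Z.eval β = 1 := by
    have h2 := congrArg (eval β) e1
    simp only [eval_mul, eval_add, eval_sub, eval_one, eval_X, eval_C, eval_pow, sub_self,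
      mul_zero] at h2
    have h3 : Z.eval β ^ 2 = 1 := by
      rcases mul_eq_zero.1 h2 with h4 | h4
      · linarith
      · linarith
    have hmono : StrictMonoOn (fun y => Z.eval y) (Icc (x (m + 1)) β) := by
      apply strictMonoOn_of_deriv_pos (convex_Icc _ _)
      · fun_prop
      · intro y hy
        rw [interior_Icc] at hy
        rw [Polynomial.deriv]
        exact hder y hy.1
    have hlt : x (m + 1) < β := by linarith
    have h5 := hmono (left_mem_Icc.2 hlt.le) (right_mem_Icc.2 hlt.le) hlt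
    simp only at h5
    rw [hM.val (m + 1) (by omega), show m + 2 - (m + 1) = 1 by omega, pow_one] at h5
    have h7 : (Z.eval β - 1) * (Z.eval β + 1) = 0 := by linear_combination h3
    rcases mul_eq_zero.1 h7 with h6 | h6
    · linarith
    · linarith
  refine ⟨1, β, 1, le_rfl, le_rfl, hβ1, Or.inl rfl, ?_, ?_, Or.inl rfl, hZβ⟩
  · rw [hD.id1, hβ, show m + 2 - 1 = m + 1 by omega]
    ring
  · rw [hD.id2, hγ, show m + 2 - 1 = m + 1 by omega]
    ring

/-- Case 2: the right end is a node -/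
theorem ax_case2 {m : ℕ} {κ : ℝ} {Z : ℝ[X]} {x : ℕ → ℝ} {γ : ℝ} {Q : ℝ[X]} (hκ : 0 < κ)
    (hM : Mem (m + 2) κ Z x) (hD : AxD m κ Z x γ Q) (h1 : x (m + 1) = 1) :
    ∃ α β γ, Aux (m + 2) κ Z x α β γ := by
  set c : ℝ := (m + 2 : ℕ) * κ * 2 ^ (m + 1) with hc
  have hcpos : 0 < c := by positivity
  set d : ℝ := 4 ^ (m + 1) * κ ^ 2 with hd
  have hdpos : 0 < d := by positivity
  set M : ℝ[X] := ∏ i ∈ Finset.range m, (X - C (x (i + 1))) with hMdef
  have hom : om (m + 2) x = (X ^ 2 - 1) * M := by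
    unfold om
    rw [Finset.prod_range_succ, Finset.prod_range_succ', ← hMdef, h1, hD.x0]
    simp only [C_neg, C_1]
    ring
  have hxm : x m < 1 := by
    rw [← h1]; exact hM.lt m (by omega)
  have hxm0 : -1 ≤ x m := (hM.mem m (by omega)).1
  have hMpos : ∀ y, x m < y → 0 < M.eval y := by
    intro y hy
    rw [hMdef, eval_prod]
    apply Finset.prod_pos
    intro i hi
    rw [Finset.mem_range] at hi
    simp only [eval_sub, eval_X, eval_C]
    rcases Nat.lt_or_eq_of_le (Nat.succ_le_of_lt hi) with h2 | h2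
    · have := ax_lt hM.lt h2 (by omega)
      have h3 : x (i + 1) < x m := this
      linarith
    · have h3 : x (i + 1) = x m := by rw [← h2]
      linarith
  have hne : (1 - X ^ 2 : ℝ[X]) ≠ 0 := by
    intro h
    have := congrArg (eval 0) h
    simp at this
  have e2 : derivative Z = M * (C c * (X - C γ)) := by
    apply mul_left_cancel₀ hne
    have := hD.id2
    rw [hom] at this
    linear_combination this
  have e1 : 1 - Z ^ 2 = (1 - X ^ 2) * (M ^ 2 * Q) := by
    apply mul_left_cancel₀ hne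
    have := hD.id1
    rw [hom] at this
    linear_combination this
  have hZ1 : Z.eval 1 = -1 := by
    have := hM.val (m + 1) (by omega)
    rw [h1, show m + 2 - (m + 1) = 1 by omega, pow_one] at this
    exact this
  have hder : ∀ y, Z.derivative.eval y = M.eval y * (c * (y - γ)) := by
    intro y
    rw [e2]
    simp
  have hγ : 1 ≤ γ := by
    by_contra hcon
    push Not at hcon
    set a := max γ (x m) with ha
    have ha1 : a < 1 := max_lt hcon hxm
    have hmono : StrictMonoOn (fun y => Z.eval y) (Icc a 1) := by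
      apply strictMonoOn_of_deriv_pos (convex_Icc _ _)
      · fun_prop
      · intro y hy
        rw [interior_Icc] at hy
        rw [Polynomial.deriv, hder]
        have h2 : x m < y := lt_of_le_of_lt (le_max_right _ _) hy.1
        have h3 : γ < y := lt_of_le_of_lt (le_max_left _ _) hy.1
        exact mul_pos (hMpos y h2) (mul_pos hcpos (by linarith))
    have h5 := hmono (left_mem_Icc.2 ha1.le) (right_mem_Icc.2 ha1.le) ha1
    simp only at h5
    rw [hZ1] at h5
    have h6 := hM.bdd a ⟨hxm0.trans (le_max_right _ _), ha1.le⟩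
    have h7 := (abs_le.1 h6).1
    linarith
  have hroot : ∀ y, 1 < y → Z.eval y ^ 2 = 1 → Q.eval y = 0 := by
    intro y hy hy2
    have h2 := congrArg (eval y) e1
    simp only [eval_mul, eval_sub, eval_one, eval_X, eval_pow] at h2
    rw [hy2, sub_self] at h2
    rcases mul_eq_zero.1 h2.symm with h3 | h3
    · nlinarith
    · rcases mul_eq_zero.1 h3 with h4 | h4
      · exact absurd h4 (pow_pos (hMpos y (hxm.trans hy)) 2).ne'
      · exact h4
  have hnd : Z.natDegree = m + 2 := by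
    apply natDegree_eq_of_le_of_coeff_ne_zero hM.deg
    rw [hM.lead]
    positivity
  have htend : Filter.Tendsto (fun y => Z.eval y) Filter.atTop Filter.atTop := by
    apply Polynomial.tendsto_atTop_of_leadingCoeff_nonneg
    · rw [← natDegree_pos_iff_degree_pos]
      omega
    · rw [leadingCoeff, hnd, hM.lead]
      positivity
  obtain ⟨y0, hy0, hy0'⟩ := ((htend.eventually_ge_atTop 1).and
    (Filter.eventually_ge_atTop γ)).exists
  rcases hγ.eq_or_lt with h2 | h2
  · have hQ1 : Q.eval 1 = 0 := by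
      have h3 := congrArg (fun p => (derivative p).eval 1) e1
      simp only [derivative_mul, derivative_sub, derivative_one, derivative_pow, derivative_X,
        eval_mul, eval_sub, eval_one, eval_X, eval_pow, eval_add, eval_C, eval_zero] at h3
      rw [hder 1, ← h2] at h3
      norm_num at h3
      rcases h3 with h4 | h4
      · exact absurd h4 (hMpos 1 hxm).ne'
      · exact h4
    have hIVT := intermediate_value_Icc (f := fun y => Z.eval y) (a := 1) (b := y0)
      (by rw [h2]; exact hy0') (by fun_prop)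
    obtain ⟨β, hβ, hβ2⟩ := hIVT ⟨by rw [hZ1]; norm_num, hy0⟩
    simp only at hβ2
    have hβ1 : 1 < β := by
      rcases hβ.1.lt_or_eq with h3 | h3
      · exact h3
      · rw [← h3, hZ1] at hβ2
        norm_num at hβ2
    have hQβ := hroot β hβ1 (by rw [hβ2]; norm_num)
    have hQ := ax_quad2 hdpos.ne' hD.dQ hD.cQ hQ1 hQβ hβ1.ne
    refine ⟨1, β, 1, le_rfl, le_rfl, hβ1.le, Or.inl rfl, ?_, ?_, Or.inl rfl, hβ2⟩
    · rw [hD.id1, hQ, show m + 2 - 1 = m + 1 by omega]
      ring
    · rw [hD.id2, ← h2, show m + 2 - 1 = m + 1 by omega]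
      ring
  · have hanti : StrictAntiOn (fun y => Z.eval y) (Icc 1 γ) := by
      apply strictAntiOn_of_deriv_neg (convex_Icc _ _)
      · fun_prop
      · intro y hy
        rw [interior_Icc] at hy
        rw [Polynomial.deriv, hder]
        exact mul_neg_of_pos_of_neg (hMpos y (hxm.trans hy.1))
          (mul_neg_of_pos_of_neg hcpos (by linarith [hy.2]))
    have h5 := hanti (left_mem_Icc.2 h2.le) (right_mem_Icc.2 h2.le) h2
    simp only at h5
    rw [hZ1] at h5
    have hIVT := intermediate_value_Icc (f := fun y => Z.eval y) (a := γ) (b := y0)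
      hy0' (by fun_prop)
    obtain ⟨α, hα, hα2⟩ := hIVT (show (-1 : ℝ) ∈ Icc (Z.eval γ) (Z.eval y0) from
      ⟨h5.le, by linarith⟩)
    simp only at hα2
    have hα1 : γ < α := by
      rcases hα.1.lt_or_eq with h3 | h3
      · exact h3
      · rw [← h3] at hα2
        linarith
    have hIVT2 := intermediate_value_Icc (f := fun y => Z.eval y) (a := α) (b := y0)
      hα.2 (by fun_prop)
    obtain ⟨β, hβ, hβ2⟩ := hIVT2 (show (1 : ℝ) ∈ Icc (Z.eval α) (Z.eval y0) from
      ⟨by rw [hα2]; norm_num, hy0⟩)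
    simp only at hβ2
    have hβ1 : α < β := by
      rcases hβ.1.lt_or_eq with h3 | h3
      · exact h3
      · rw [← h3, hα2] at hβ2
        norm_num at hβ2
    have hQα := hroot α (h2.trans hα1) (by rw [hα2]; norm_num)
    have hQβ := hroot β (h2.trans (hα1.trans hβ1)) (by rw [hβ2]; norm_num)
    have hQ := ax_quad2 hdpos.ne' hD.dQ hD.cQ hQα hQβ hβ1.ne
    refine ⟨α, β, γ, hγ, hα1.le, hβ1.le, Or.inr hα1, ?_, ?_, Or.inr hα2, hβ2⟩
    · rw [hD.id1, hQ, show m + 2 - 1 = m + 1 by omega]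
      ring
    · rw [hD.id2, show m + 2 - 1 = m + 1 by omega]
      ring

theorem ax (_hCt : Ct) (_hAr : Ar) : Ax := by
  intro n κ Z x hn hκ hM
  obtain ⟨m, rfl⟩ : ∃ m, n = m + 2 := ⟨n - 2, by omega⟩
  obtain ⟨γ, Q, hD⟩ := ax_D hκ hM
  rcases (hM.mem (m + 1) (by omega)).2.lt_or_eq with h | h
  · exact ax_case1 hκ hM hD h
  · exact ax_case2 hκ hM hD h

end

end Pool.Agent.Helper40.TV
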