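import Pool.Agent.Helper40.TV.St3

/-!
Project TV, piece B1: making one point critical.
-/

set_option autoImplicit false

namespace Pool.Agent.Helper40.TV

open Polynomial Set Real
open Pool.Agent.Helper40.AS (Bdd)

/-- bounds for the difference of a value and a corrected value -/
theorem b1_est {p q η B : ℝ} (hη : 0 < η) (hp : |p| ≤ B) (hq : |q| ≤ B * η) :
    |(1 + η)⁻¹ * (p - q) - p| ≤ 2 * B * η := by
  have h1 : (1 + η)⁻¹ * (p - q) - p = -((η * p + q) / (1 + η)) := by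
    field_simp
    ring
  have hB : 0 ≤ B := (abs_nonneg p).trans hp
  rw [h1, abs_neg, abs_div, abs_of_pos (by linarith : 0 < 1 + η), div_le_iff₀ (by linarith)]
  have h2 : |η * p + q| ≤ η * B + B * η := by
    refine (abs_add_le _ _).trans (add_le_add ?_ hq)
    rw [abs_mul, abs_of_pos hη]
    exact mul_le_mul_of_nonneg_left hp hη.le
  refine h2.trans ?_
  nlinarith [mul_nonneg (mul_nonneg hB hη.le) hη.le]

theorem b1 (hBp : Bp) (hTy : Ty) : B1 := by
  intro K hK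
  obtain ⟨M, hM, n0, h⟩ := hBp (K + 1) 1 (by linarith) one_pos
  refine ⟨8 * M, by linarith, max n0 (⌈K + 1⌉₊ + 1), ?_⟩
  intro n hn u e P hu hKu hdeg hP he hPu
  have hn1 : n0 ≤ n := (le_max_left _ _).trans hn
  have hn2 : ⌈K + 1⌉₊ + 1 ≤ n := (le_max_right _ _).trans hn
  have hn3 : K + 1 ≤ n := by
    have h1 : K + 1 ≤ (⌈K + 1⌉₊ : ℝ) := Nat.le_ceil _
    have h2 : ((⌈K + 1⌉₊ + 1 : ℕ) : ℝ) ≤ n := by exact_mod_cast hn2
    push_cast at h2
    linarith
  have hn4 : 1 ≤ n := by omega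
  have hn5 : (1 : ℝ) ≤ n := by exact_mod_cast hn4
  have hsq : (0 : ℝ) < (n : ℝ) ^ 2 := by positivity
  have hsq2 : (n : ℝ) ≤ (n : ℝ) ^ 2 := by nlinarith
  by_cases hd : P.derivative.eval u = 0
  · refine ⟨P, hdeg, hP, hd, fun x _ => ?_⟩
    simp only [sub_self, abs_zero]
    exact ⟨by positivity, by positivity, by positivity⟩
  set d : ℝ := P.derivative.eval u / (n : ℝ) ^ 2 with hdd
  have hd1 : d * (n : ℝ) ^ 2 = P.derivative.eval u := by
    rw [hdd]
    exact div_mul_cancel₀ _ hsq.ne'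
  have hd2 : |d| ≤ e := by
    rw [hdd, abs_div, abs_of_pos hsq, div_le_iff₀ hsq]
    exact hPu
  have hd3 : 0 < |d| := abs_pos.2 (div_ne_zero hd hsq.ne')
  set v : ℝ := u - 1 / (n : ℝ) ^ 2 with hv
  have hv1 : (n : ℝ) ^ 2 * (1 - v) = (n : ℝ) ^ 2 * (1 - u) + 1 := by
    rw [hv]
    field_simp
    ring
  have hv2 : v ∈ Icc (-1 : ℝ) 1 := by
    constructor
    · by_contra hcon
      rw [not_le] at hcon
      have h1 : (n : ℝ) ^ 2 * 2 < (n : ℝ) ^ 2 * (1 - v) :=
        mul_lt_mul_of_pos_left (by linarith) hsq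
      rw [hv1] at h1
      linarith
    · have : 0 < 1 / (n : ℝ) ^ 2 := by positivity
      rw [hv]
      linarith [hu.2]
  have hv3 : 1 ≤ (n : ℝ) ^ 2 * |u - v| := by
    rw [hv, sub_sub_cancel, abs_of_pos (by positivity)]
    rw [mul_one_div, div_self hsq.ne']
  obtain ⟨q, q1, q2, q3, -⟩ := h n hn1 u v hu hv2 (by linarith) (by rw [hv1]; linarith) hv3 d 0
  rw [abs_zero, add_zero] at q2
  set η : ℝ := M * |d| with hη
  have hη0 : 0 < η := mul_pos hM hd3
  have hηe : η ≤ M * e := mul_le_mul_of_nonneg_left hd2 hM.le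
  -- the corrected polynomial
  set R : ℝ[X] := C η⁻¹ * q with hR
  have hRdeg : R.natDegree ≤ n := (natDegree_C_mul_le _ _).trans q1
  have hRB : Bdd R := by
    intro x hx
    rw [hR, eval_mul, eval_C, abs_mul, abs_of_pos (inv_pos.2 hη0), inv_mul_le_iff₀ hη0, mul_one]
    exact q2 x hx
  obtain ⟨a1, a2, -⟩ := hTy n P hn4 hdeg hP
  obtain ⟨b1, b2, -⟩ := hTy n R hn4 hRdeg hRB
  have c1 : ∀ x ∈ Icc (-1 : ℝ) 1, |q.derivative.eval x| ≤ 2 * (n : ℝ) ^ 2 * η := by
    intro x hx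
    have := b1 x hx
    rw [hR, derivative_C_mul, eval_mul, eval_C, abs_mul, abs_of_pos (inv_pos.2 hη0),
      inv_mul_le_iff₀ hη0] at this
    linarith
  have c2 : ∀ x ∈ Icc (-1 : ℝ) 1, |q.derivative.derivative.eval x| ≤ 4 * (n : ℝ) ^ 4 * η := by
    intro x hx
    have := b2 x hx
    rw [hR, derivative_C_mul, derivative_C_mul, eval_mul, eval_C, abs_mul,
      abs_of_pos (inv_pos.2 hη0), inv_mul_le_iff₀ hη0] at this
    linarith
  refine ⟨C (1 + η)⁻¹ * (P - q), ?_, ?_, ?_, ?_⟩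
  · exact (natDegree_C_mul_le _ _).trans ((natDegree_sub_le _ _).trans (max_le hdeg q1))
  · intro x hx
    rw [eval_mul, eval_C, eval_sub, abs_mul, abs_of_pos (inv_pos.2 (by linarith : 0 < 1 + η)),
      inv_mul_le_iff₀ (by linarith), mul_one]
    refine (abs_sub _ _).trans ?_
    linarith [hP x hx, q2 x hx]
  · rw [derivative_C_mul, derivative_sub, eval_mul, eval_sub, q3, hd1, sub_self, mul_zero]
  · intro x hx
    refine ⟨?_, ?_, ?_⟩
    · rw [eval_mul, eval_C, eval_sub]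
      refine (b1_est hη0 (hP x hx) (by rw [one_mul]; exact q2 x hx)).trans ?_
      nlinarith [mul_nonneg hM.le he]
    · rw [derivative_C_mul, derivative_sub, eval_mul, eval_C, eval_sub]
      refine (b1_est hη0 (a1 x hx) (c1 x hx)).trans ?_
      have h1 : η * (n : ℝ) ^ 2 ≤ M * e * (n : ℝ) ^ 2 := mul_le_mul_of_nonneg_right hηe hsq.le
      nlinarith [mul_nonneg (mul_nonneg hM.le he) hsq.le]
    · rw [derivative_C_mul, derivative_sub, derivative_C_mul, derivative_sub, eval_mul, eval_C,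
        eval_sub]
      refine (b1_est hη0 (a2 x hx) (c2 x hx)).trans ?_
      have h4 : (0 : ℝ) ≤ (n : ℝ) ^ 4 := by positivity
      have h1 : η * (n : ℝ) ^ 4 ≤ M * e * (n : ℝ) ^ 4 := mul_le_mul_of_nonneg_right hηe h4
      nlinarith [mul_nonneg (mul_nonneg hM.le he) h4]

end Pool.Agent.Helper40.TV
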