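import Pool.Agent.Helper40.TV.St3

/-! Project TV, piece B2: making two points critical -/

set_option autoImplicit false

namespace Pool.Agent.Helper40.TV

open Polynomial Set Real
open Pool.Agent.Helper40.AS (Bdd)

/-- derivative bounds for small polynomials -/
theorem b2_small (hTy : Ty) {n : ℕ} {R : ℝ[X]} {η : ℝ} (hn : 1 ≤ n) (hR : R.natDegree ≤ n)
    (hη : 0 < η) (hb : ∀ x ∈ Icc (-1 : ℝ) 1, |R.eval x| ≤ η) :
    ∀ x ∈ Icc (-1 : ℝ) 1, |R.derivative.eval x| ≤ η * (2 * (n : ℝ) ^ 2) ∧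
      |R.derivative.derivative.eval x| ≤ η * (4 * (n : ℝ) ^ 4) := by
  set S : ℝ[X] := C (η⁻¹) * R with hS
  have hSd : S.natDegree ≤ n := (natDegree_C_mul_le _ _).trans hR
  have hSb : Bdd S := by
    intro x hx
    rw [hS, eval_mul, eval_C, abs_mul, abs_of_pos (inv_pos.2 hη), inv_mul_le_iff₀ hη, mul_one]
    exact hb x hx
  obtain ⟨h1, h2, _⟩ := hTy n S hn hSd hSb
  intro x hx
  have e1 := h1 x hx
  have e2 := h2 x hx
  rw [hS, derivative_C_mul, eval_mul, eval_C, abs_mul, abs_of_pos (inv_pos.2 hη),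
    inv_mul_le_iff₀ hη] at e1
  rw [hS, derivative_C_mul, derivative_C_mul, eval_mul, eval_C, abs_mul,
    abs_of_pos (inv_pos.2 hη), inv_mul_le_iff₀ hη] at e2
  exact ⟨e1, e2⟩

/-- the correction -/
theorem b2_core (hTy : Ty) {n : ℕ} {P q : ℝ[X]} {M e : ℝ} (hM : 0 < M) (he : 0 < e) (hn : 1 ≤ n)
    (hP : P.natDegree ≤ n) (hb : Bdd P) (hq : q.natDegree ≤ n)
    (hqb : ∀ x ∈ Icc (-1 : ℝ) 1, |q.eval x| ≤ 2 * M * e) :
    ∃ Q : ℝ[X], Q.natDegree ≤ n ∧ Bdd Q ∧
      (∀ x, q.derivative.eval x = P.derivative.eval x → Q.derivative.eval x = 0) ∧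
      ∀ x ∈ Icc (-1 : ℝ) 1, |Q.eval x - P.eval x| ≤ 16 * M * e ∧
        |Q.derivative.eval x - P.derivative.eval x| ≤ 16 * M * e * (n : ℝ) ^ 2 ∧
        |Q.derivative.derivative.eval x - P.derivative.derivative.eval x| ≤
          16 * M * e * (n : ℝ) ^ 4 := by
  set η := 2 * M * e with hη
  have hη0 : 0 < η := by positivity
  have h1η : 0 < 1 + η := by linarith
  have hinv : 0 < (1 + η)⁻¹ := inv_pos.2 h1η
  set Q : ℝ[X] := C ((1 + η)⁻¹) * (P - q) with hQ
  have hPq : (P - q).natDegree ≤ n := (natDegree_sub_le _ _).trans (max_le hP hq)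
  have hQd : Q.natDegree ≤ n := (natDegree_C_mul_le _ _).trans hPq
  have hdiff : ∀ x ∈ Icc (-1 : ℝ) 1, |(Q - P).eval x| ≤ 2 * η := by
    intro x hx
    have h1 := hb x hx
    have h2 := hqb x hx
    rw [abs_le] at h1 h2 ⊢
    have h3 : (Q - P).eval x * (1 + η) = - q.eval x - η * P.eval x := by
      rw [hQ]
      simp only [eval_sub, eval_mul, eval_C]
      field_simp
      ring
    constructor
    · by_contra hlt
      push Not at hlt
      nlinarith
    · by_contra hlt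
      push Not at hlt
      nlinarith
  have hs := b2_small hTy hn ((natDegree_sub_le _ _).trans (max_le hQd hP))
    (by positivity : 0 < 2 * η) hdiff
  refine ⟨Q, hQd, ?_, ?_, ?_⟩
  · intro x hx
    have h1 := hb x hx
    have h2 := hqb x hx
    rw [hQ, eval_mul, eval_C, abs_mul, abs_of_pos hinv, inv_mul_le_iff₀ h1η, mul_one, eval_sub]
    exact (abs_sub _ _).trans (by linarith)
  · intro x hx
    rw [hQ, derivative_C_mul, eval_mul, derivative_sub, eval_sub, hx]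
    simp
  · intro x hx
    obtain ⟨h1, h2⟩ := hs x hx
    have h0 := hdiff x hx
    rw [eval_sub] at h0
    rw [derivative_sub, eval_sub] at h1
    rw [derivative_sub, derivative_sub, eval_sub] at h2
    have hn0 : (0 : ℝ) ≤ (n : ℝ) ^ 2 := by positivity
    have hn4 : (0 : ℝ) ≤ (n : ℝ) ^ 4 := by positivity
    have hMe : 0 ≤ M * e := by positivity
    refine ⟨h0.trans ?_, h1.trans ?_, h2.trans ?_⟩
    · rw [hη]; nlinarith
    · rw [hη]; nlinarith [mul_nonneg hMe hn0]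
    · rw [hη]; nlinarith [mul_nonneg hMe hn4]

theorem b2 (hBp : Bp) (hTy : Ty) : B2 := by
  intro K δ hK hδ
  obtain ⟨M, hM, n0, h⟩ := hBp K δ hK hδ
  refine ⟨16 * M, by positivity, max n0 1, ?_⟩
  intro n hn u v e P hu hv hKu hKv hδn hP hb he hPu hPv
  have hn0 : n0 ≤ n := (le_max_left _ _).trans hn
  have hn1 : 1 ≤ n := (le_max_right _ _).trans hn
  have hnR : (0 : ℝ) < (n : ℝ) ^ 2 := by
    have : (0 : ℝ) < n := by exact_mod_cast hn1
    positivity
  rcases he.eq_or_lt with he0 | hepos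
  · rw [← he0, zero_mul] at hPu hPv
    refine ⟨P, hP, hb, abs_eq_zero.1 (le_antisymm hPu (abs_nonneg _)),
      abs_eq_zero.1 (le_antisymm hPv (abs_nonneg _)), ?_⟩
    intro x _
    rw [← he0]
    simp
  · obtain ⟨q, hq, hqb, hqu, hqv⟩ := h n hn0 u v hu hv hKu hKv hδn
      (P.derivative.eval u / (n : ℝ) ^ 2) (P.derivative.eval v / (n : ℝ) ^ 2)
    rw [div_mul_cancel₀ _ hnR.ne'] at hqu hqv
    have hq2 : ∀ x ∈ Icc (-1 : ℝ) 1, |q.eval x| ≤ 2 * M * e := by
      intro x hx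
      refine (hqb x hx).trans ?_
      have e1 : |P.derivative.eval u / (n : ℝ) ^ 2| ≤ e := by
        rw [abs_div, abs_of_pos hnR, div_le_iff₀ hnR]
        exact hPu
      have e2 : |P.derivative.eval v / (n : ℝ) ^ 2| ≤ e := by
        rw [abs_div, abs_of_pos hnR, div_le_iff₀ hnR]
        exact hPv
      nlinarith
    obtain ⟨Q, hQ, hQb, hQc, hQd⟩ := b2_core hTy hM hepos hn1 hP hb hq hq2
    exact ⟨Q, hQ, hQb, hQc u hqu, hQc v hqv, hQd⟩

end Pool.Agent.Helper40.TV
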