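import Pool.Agent.Helper40.TV.St3

/-!
Polynomials with prescribed derivatives at two points.
-/

set_option autoImplicit false

namespace Pool.Agent.Helper40.TV

open Polynomial Set Real
open Pool.Agent.Helper40.AS (Bdd)

theorem bp_der {m : ℕ} {x : ℝ} (hx : x ∈ Icc (-1 : ℝ) 1) (hm : 1 ≤ m)
    (h : m * arccos x ≤ π / 2) :
    (m : ℝ) ^ 2 / 2 ≤ (Chebyshev.T ℝ m).derivative.eval x := by
  have hm1 : (1 : ℝ) ≤ m := by exact_mod_cast hm
  rcases (arccos_nonneg x).eq_or_lt with h0 | h0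
  · have hx1 : x = 1 := by
      have := cos_arccos hx.1 hx.2
      rw [← h0, cos_zero] at this
      exact this.symm
    rw [hx1, Chebyshev.derivative_T_eval_one]
    push_cast
    nlinarith
  · have h1 : arccos x ≤ π / 2 := by nlinarith
    have hs : 0 < sin (arccos x) := sin_pos_of_pos_of_lt_pi h0 (by linarith [pi_pos])
    have h2 : sin (arccos x) ≤ arccos x := sin_le h0.le
    have h3 := mul_le_sin (x := m * arccos x) (by positivity) h
    have h4 : (1 : ℝ) / 2 ≤ 2 / π := by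
      rw [div_le_div_iff₀ (by norm_num) pi_pos]
      linarith [pi_le_four]
    have h5 : m * arccos x / 2 ≤ sin (m * arccos x) := by
      have : 0 ≤ m * arccos x := by positivity
      nlinarith
    have h6 := Chebyshev.U_real_cos (arccos x) ((m : ℤ) - 1)
    rw [cos_arccos hx.1 hx.2] at h6
    have h7 : ((((m : ℤ) - 1 : ℤ) : ℝ) + 1) * arccos x = m * arccos x := by
      push_cast
      ring
    rw [h7] at h6
    have h8 : (m : ℝ) / 2 ≤ (Chebyshev.U ℝ ((m : ℤ) - 1)).eval x := by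
      have h9 : (m : ℝ) / 2 * sin (arccos x) ≤
          (Chebyshev.U ℝ ((m : ℤ) - 1)).eval x * sin (arccos x) := by
        rw [h6]
        nlinarith
      exact le_of_mul_le_mul_right h9 hs
    rw [Chebyshev.T_derivative_eq_U, eval_mul]
    have h10 : (((m : ℤ) : ℝ[X])).eval x = (m : ℝ) := by simp
    rw [h10]
    nlinarith

theorem bp_zone {n m M : ℕ} {K x : ℝ} (hx : x ∈ Icc (-1 : ℝ) 1) (hM : m * M ≤ n)
    (hM2 : 1 ≤ M) (hMK : 2 * K ≤ (M : ℝ) ^ 2) (hK : (n : ℝ) ^ 2 * (1 - x) ≤ K) :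
    m * arccos x ≤ π / 2 := by
  have h0 := arccos_nonneg x
  have h1 : cos (arccos x) ≤ 1 - 2 / π ^ 2 * arccos x ^ 2 :=
    cos_le_one_sub_mul_cos_sq (by rw [abs_of_nonneg h0]; exact arccos_le_pi x)
  rw [cos_arccos hx.1 hx.2] at h1
  have hMn : (m : ℝ) * M ≤ n := by exact_mod_cast hM
  have hMp : (1 : ℝ) ≤ M := by exact_mod_cast hM2
  have hp := pi_pos
  have h2 : 2 / π ^ 2 * arccos x ^ 2 * π ^ 2 = 2 * arccos x ^ 2 := by
    field_simp
  have h3 : 2 * arccos x ^ 2 ≤ (1 - x) * π ^ 2 := by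
    rw [← h2]
    exact mul_le_mul_of_nonneg_right (by linarith) (by positivity)
  have h4 : ((m : ℝ) * M) ^ 2 * (2 * arccos x ^ 2) ≤ K * π ^ 2 := by
    have h5 : ((m : ℝ) * M) ^ 2 ≤ (n : ℝ) ^ 2 := pow_le_pow_left₀ (by positivity) hMn 2
    calc ((m : ℝ) * M) ^ 2 * (2 * arccos x ^ 2) ≤ (n : ℝ) ^ 2 * ((1 - x) * π ^ 2) := by
          apply mul_le_mul h5 h3 (by positivity) (by positivity)
      _ = (n : ℝ) ^ 2 * (1 - x) * π ^ 2 := by ring
      _ ≤ K * π ^ 2 := mul_le_mul_of_nonneg_right hK (by positivity)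
  have h6 : (m * arccos x) ^ 2 ≤ (π / 2) ^ 2 := by
    have h7 : (M : ℝ) ^ 2 * ((m * arccos x) ^ 2 * 4) ≤ (M : ℝ) ^ 2 * π ^ 2 := by
      nlinarith
    have h8 := le_of_mul_le_mul_left h7 (by positivity)
    nlinarith
  exact abs_le_of_sq_le_sq' h6 (by positivity) |>.2

theorem bp_diff {m : ℕ} {u v : ℝ} (hu : u ∈ Icc (-1 : ℝ) 1) (hv : v ∈ Icc (-1 : ℝ) 1)
    (hm : 1 ≤ m) (h : m * arccos u ≤ π / 2) (huv : u ≤ v) :
    (m : ℝ) ^ 2 / 2 * (v - u) ≤ (Chebyshev.T ℝ m).eval v - (Chebyshev.T ℝ m).eval u := by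
  refine Convex.mul_sub_le_image_sub_of_le_deriv (convex_Icc u v)
    (f := fun x => (Chebyshev.T ℝ m).eval x) (Polynomial.continuous _).continuousOn
    (Polynomial.differentiable _).differentiableOn (fun x hx => ?_) u (left_mem_Icc.2 huv) v
    (right_mem_Icc.2 huv) huv
  rw [interior_Icc] at hx
  rw [Polynomial.deriv]
  refine bp_der ⟨by linarith [hu.1, hx.1], by linarith [hv.2, hx.2]⟩ hm ?_
  refine le_trans (mul_le_mul_of_nonneg_left ?_ (by positivity)) h
  exact arccos_le_arccos hx.1.le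

theorem bp : Bp := by
  intro K δ hK hδ
  set M : ℕ := ⌈2 * K⌉₊ + 2 with hMdef
  have hM2 : 2 ≤ M := by omega
  have hMr : (2 : ℝ) ≤ M := by exact_mod_cast hM2
  have hMK1 : 2 * K ≤ M := by
    have := Nat.le_ceil (2 * K)
    rw [hMdef]
    push_cast
    linarith
  have hMK : 2 * K ≤ (M : ℝ) ^ 2 := by nlinarith
  set A : ℝ := 8 * (M : ℝ) ^ 2 with hA
  have hA0 : 0 < A := by positivity
  refine ⟨A + 2 * A ^ 2 / δ, by positivity, M, fun n hn u v hu hv hKu hKv hδuv d e => ?_⟩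
  set m : ℕ := n / M with hm
  have hMpos : 0 < M := by omega
  have hm1 : 1 ≤ m := (Nat.one_le_div_iff hMpos).mpr hn
  have hmM : m * M ≤ n := Nat.div_mul_le_self n M
  have h2m : 2 * m ≤ n := by nlinarith
  have hn2 : n ≤ 2 * m * M := by
    have h1 := Nat.lt_div_mul_add (a := n) hMpos
    rw [← hm] at h1
    nlinarith
  have hn2r : (n : ℝ) ≤ 2 * m * M := by exact_mod_cast hn2
  have hm1r : (1 : ℝ) ≤ m := by exact_mod_cast hm1
  have hnr : (2 : ℝ) ≤ n := hMr.trans (by exact_mod_cast hn)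
  have hc : (n : ℝ) ^ 2 ≤ A * ((m : ℝ) ^ 2 / 2) := by
    have := pow_le_pow_left₀ (by positivity) hn2r 2
    rw [hA]
    nlinarith
  have zu := bp_zone hu hmM (by omega) hMK hKu
  have zv := bp_zone hv hmM (by omega) hMK hKv
  set T : ℝ[X] := Chebyshev.T ℝ m with hT
  have du := bp_der hu hm1 zu
  have dv := bp_der hv hm1 zv
  rw [← hT] at du dv
  have hm2 : 0 < (m : ℝ) ^ 2 / 2 := by positivity
  have du0 : 0 < T.derivative.eval u := lt_of_lt_of_le hm2 du
  have dv0 : 0 < T.derivative.eval v := lt_of_lt_of_le hm2 dv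
  set Δ : ℝ := T.eval v - T.eval u with hΔ
  have hΔ1 : (m : ℝ) ^ 2 / 2 * |u - v| ≤ |Δ| := by
    rcases le_total u v with h | h
    · have := bp_diff hu hv hm1 zu h
      rw [abs_sub_comm, abs_of_nonneg (sub_nonneg.mpr h)]
      exact this.trans (le_abs_self _)
    · have := bp_diff hv hu hm1 zv h
      rw [abs_of_nonneg (sub_nonneg.mpr h), hΔ, abs_sub_comm]
      exact this.trans (le_abs_self _)
  have hΔ2 : δ ≤ A * |Δ| := by
    calc δ ≤ (n : ℝ) ^ 2 * |u - v| := hδuv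
      _ ≤ A * ((m : ℝ) ^ 2 / 2) * |u - v| := mul_le_mul_of_nonneg_right hc (abs_nonneg _)
      _ = A * ((m : ℝ) ^ 2 / 2 * |u - v|) := by ring
      _ ≤ A * |Δ| := mul_le_mul_of_nonneg_left hΔ1 hA0.le
  have hΔ0 : 0 < |Δ| := by
    by_contra hcon
    have : |Δ| = 0 := le_antisymm (not_lt.mp hcon) (abs_nonneg _)
    rw [this, mul_zero] at hΔ2
    linarith
  have hΔne : Δ ≠ 0 := abs_pos.mp hΔ0
  set D : ℝ := d * (n : ℝ) ^ 2 / T.derivative.eval u with hD
  set E : ℝ := e * (n : ℝ) ^ 2 / T.derivative.eval v with hE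
  have hDb : |D| ≤ A * |d| := by
    rw [hD, abs_div, abs_of_pos du0, div_le_iff₀ du0, abs_mul,
      abs_of_nonneg (sq_nonneg (n : ℝ))]
    calc |d| * (n : ℝ) ^ 2 ≤ |d| * (A * ((m : ℝ) ^ 2 / 2)) :=
          mul_le_mul_of_nonneg_left hc (abs_nonneg _)
      _ ≤ |d| * (A * T.derivative.eval u) := by
          apply mul_le_mul_of_nonneg_left _ (abs_nonneg _)
          exact mul_le_mul_of_nonneg_left du hA0.le
      _ = A * |d| * T.derivative.eval u := by ring
  have hEb : |E| ≤ A * |e| := by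
    rw [hE, abs_div, abs_of_pos dv0, div_le_iff₀ dv0, abs_mul,
      abs_of_nonneg (sq_nonneg (n : ℝ))]
    calc |e| * (n : ℝ) ^ 2 ≤ |e| * (A * ((m : ℝ) ^ 2 / 2)) :=
          mul_le_mul_of_nonneg_left hc (abs_nonneg _)
      _ ≤ |e| * (A * T.derivative.eval v) := by
          apply mul_le_mul_of_nonneg_left _ (abs_nonneg _)
          exact mul_le_mul_of_nonneg_left dv hA0.le
      _ = A * |e| * T.derivative.eval v := by ring
  set F : ℝ := (E - D) / Δ with hF
  have hFb : |F| ≤ A ^ 2 / δ * (|d| + |e|) := by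
    rw [hF, abs_div, div_le_iff₀ hΔ0]
    have h1 : |E - D| ≤ A * (|d| + |e|) := by
      have := abs_sub E D
      nlinarith
    have h2 : A * (|d| + |e|) * δ ≤ A * (|d| + |e|) * (A * |Δ|) :=
      mul_le_mul_of_nonneg_left hΔ2 (by positivity)
    have h3 : A ^ 2 / δ * (|d| + |e|) * |Δ| = A * (|d| + |e|) * (A * |Δ|) / δ := by ring
    rw [h3, le_div_iff₀ hδ]
    exact (mul_le_mul_of_nonneg_right h1 hδ.le).trans h2
  have hTb : ∀ x ∈ Icc (-1 : ℝ) 1, |T.eval x| ≤ 1 := by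
    intro x hx
    rw [hT, ← cos_arccos hx.1 hx.2, Chebyshev.T_real_cos]
    exact abs_cos_le_one _
  refine ⟨(C D * X + C F * (C (1 / 2) * X ^ 2 - C (T.eval u) * X)).comp T, ?_, ?_, ?_, ?_⟩
  · rw [natDegree_comp, hT, Chebyshev.natDegree_T]
    have h1 : (C D * X + C F * (C (1 / 2) * X ^ 2 - C ((Chebyshev.T ℝ m).eval u) * X) :
        ℝ[X]).natDegree ≤ 2 := by
      compute_degree
    calc _ ≤ 2 * m := Nat.mul_le_mul h1 (by simp)
      _ ≤ n := h2m
  · intro x hx
    rw [eval_comp]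
    simp only [eval_add, eval_mul, eval_C, eval_X, eval_sub, eval_pow]
    have hy := hTb x hx
    have hw := hTb u hu
    set y := T.eval x
    set w := T.eval u
    have h1 : |D * y| ≤ A * (|d| + |e|) := by
      rw [abs_mul]
      calc |D| * |y| ≤ |D| * 1 := mul_le_mul_of_nonneg_left hy (abs_nonneg _)
        _ ≤ A * (|d| + |e|) := by nlinarith [abs_nonneg e]
    have h2 : |1 / 2 * y ^ 2 - w * y| ≤ 2 := by
      have a1 := abs_le.mp hy
      have a2 := abs_le.mp hw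
      rw [abs_le]
      constructor <;> nlinarith
    have h3 : |F * (1 / 2 * y ^ 2 - w * y)| ≤ A ^ 2 / δ * (|d| + |e|) * 2 := by
      rw [abs_mul]
      exact mul_le_mul hFb h2 (abs_nonneg _) (by positivity)
    calc |D * y + F * (1 / 2 * y ^ 2 - w * y)| ≤ |D * y| + |F * (1 / 2 * y ^ 2 - w * y)| :=
          abs_add_le _ _
      _ ≤ A * (|d| + |e|) + A ^ 2 / δ * (|d| + |e|) * 2 := add_le_add h1 h3
      _ = (A + 2 * A ^ 2 / δ) * (|d| + |e|) := by ring
  · rw [derivative_comp, eval_mul, eval_comp]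
    simp
    rw [hD]
    field_simp
    ring
  · rw [derivative_comp, eval_mul, eval_comp]
    simp
    have h1 : F * (T.eval v - T.eval u) = E - D := by
      rw [hF, ← hΔ]
      field_simp
    have h2 : E * T.derivative.eval v = e * (n : ℝ) ^ 2 := by
      rw [hE]
      field_simp
    linear_combination (T.derivative.eval v) * h1 + h2

end Pool.Agent.Helper40.TV
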