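import Pool.Agent.Helper40.TV.St3

/-!
Piece Cd: labels of a chain of critical points.
-/

set_option autoImplicit false

namespace Pool.Agent.Helper40.TV

open Polynomial Set Real
open Pool.Agent.Helper40.AS (Bdd)

noncomputable section

theorem cd_int {n : ℕ} {Th : ℝ → ℝ → ℝ} {Z : ℝ → ℝ[X]} (F : Fam n Th Z) (k : ℕ) (L θ : ℝ) :
    Th (L + k) θ = Th L θ + k * π := by
  induction k with
  | zero => simp
  | succ k ih =>
    push_cast
    rw [← add_assoc, F.unit, ih]
    ring

/-- every value of the phase is attained -/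
theorem cd_label {n : ℕ} {Th : ℝ → ℝ → ℝ} {Z : ℝ → ℝ[X]} (F : Fam n Th Z) {θ : ℝ}
    (hθ : θ ∈ Ioo 0 π) (y : ℝ) : ∃ L, Th L θ = y := by
  have hpi := Real.pi_pos
  obtain ⟨k1, hk1⟩ := exists_nat_ge ((Th 0 θ - y) / π)
  obtain ⟨k2, hk2⟩ := exists_nat_ge ((y - Th 0 θ) / π)
  have h1 : Th (-(k1 : ℝ)) θ ≤ y := by
    have := cd_int F k1 (-(k1 : ℝ)) θ
    rw [neg_add_cancel] at this
    rw [div_le_iff₀ hpi] at hk1
    linarith
  have h2 : y ≤ Th (k2 : ℝ) θ := by
    have := cd_int F k2 0 θ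
    rw [zero_add] at this
    rw [div_le_iff₀ hpi] at hk2
    linarith
  exact mem_range_of_exists_le_of_exists_ge (F.cont θ hθ) ⟨_, h1⟩ ⟨_, h2⟩

theorem cd_nu_le (K : ℝ) (n : ℕ) (s t : ℝ) : nu K n s t ≤ 1 := by
  unfold nu
  have := Real.exp_pos (-(2 * ((n : ℝ) ^ 2 * (cos s - cos t)) ^ 2 / (K + 7) ^ 4))
  linarith

/-- the trivial bound -/
theorem cd_triv {P : ℝ[X]} (hP : Bdd P) (K : ℝ) (n : ℕ) (s t : ℝ) :
    |P.eval (cos s) - P.eval (cos t)| + nu K n s t * (1 - |P.eval (cos t)|) ≤ 2 := by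
  have h1 : |P.eval (cos s)| ≤ 1 := hP _ (Real.cos_mem_Icc s)
  have h2 : |P.eval (cos t)| ≤ 1 := hP _ (Real.cos_mem_Icc t)
  have h3 : |P.eval (cos s) - P.eval (cos t)| ≤ |P.eval (cos s)| + |P.eval (cos t)| := abs_sub _ _
  have h4 : nu K n s t * (1 - |P.eval (cos t)|) ≤ 1 * (1 - |P.eval (cos t)|) :=
    mul_le_mul_of_nonneg_right (cd_nu_le K n s t) (by linarith)
  linarith

/-- **Piece Cd.** -/
theorem cd (hV1 : V1) (hW1 : W1) (hPr : Pr) (hPa : Pa) : Cd := by
  intro n Th Z F K τ τ' P m θ hK hKn hτ hττ' hτK hdeg hP hθ hlt hcr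
  obtain ⟨-, hVm, -, -, hV5, hVneg, -⟩ := hV1
  have hpi := Real.pi_pos
  have hn : (0 : ℝ) < n := by linarith
  have hτ1 : τ' < 1 := by
    by_contra hcon
    push Not at hcon
    nlinarith
  have hτpi : τ' < π := by linarith [Real.pi_gt_three]
  have hIcc : ∀ i ≤ m, θ i ∈ Ioo 0 π := fun i hi =>
    ⟨by linarith [(hθ i hi).1], by linarith [(hθ i hi).2]⟩
  have hnθ : ∀ i ≤ m, n * θ i ≤ K := by
    intro i hi
    have := mul_le_mul_of_nonneg_left (hθ i hi).2 hn.le
    linarith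
  -- the labels
  have hL : ∀ i, ∃ L, i ≤ m → Th L (θ i) = i * π := by
    intro i
    by_cases hi : i ≤ m
    · obtain ⟨L, hL⟩ := cd_label F (hIcc i hi) (i * π)
      exact ⟨L, fun _ => hL⟩
    · exact ⟨0, fun h => absurd h hi⟩
  choose L hL using hL
  -- the jump points
  have hs : ∀ i, ∃ s, i < m → s ∈ Icc (θ i) (θ (i + 1)) ∧
      (L i < L (i + 1) → Th (L i) s + Th (L (i + 1)) s = (2 * i + 1) * π ∧
      |P.eval (cos (θ (i + 1))) - P.eval (cos (θ i))| +
      nu K n s (θ i) * (1 - |P.eval (cos (θ i))|) +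
      nu K n s (θ (i + 1)) * (1 - |P.eval (cos (θ (i + 1)))|) ≤
      2 - cW (Th (L (i + 1)) s - Th (L i) s)) := by
    intro i
    by_cases hi : i < m
    · by_cases hLi : L i < L (i + 1)
      · obtain ⟨s, hs1, hs2, -, -, hs3⟩ := hPr n Th Z F K (L i) (L (i + 1)) (θ i) (θ (i + 1)) i P
          hK hKn (hIcc i hi.le).1 (hlt i hi) (hnθ (i + 1) hi) (by
            rw [hL i hi.le]
            push_cast
            rfl) (by
            rw [hL (i + 1) hi]
            push_cast
            rfl) hLi hdeg hP (hcr i hi.le) (hcr (i + 1) hi)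
        refine ⟨s, fun _ => ⟨⟨hs1.1.le, hs1.2.le⟩, fun _ => ⟨?_, hs3⟩⟩⟩
        rw [hs2]
        push_cast
        rfl
      · exact ⟨θ i, fun _ => ⟨⟨le_rfl, (hlt i hi).le⟩, fun h => absurd h hLi⟩⟩
    · exact ⟨0, fun h => absurd h hi⟩
  choose s hs using hs
  refine ⟨L, s, hL, fun i hi => (hs i hi).1, fun i hi h => ((hs i hi).2 h).1,
    fun i hi h => ((hs i hi).2 h).2, ?_, ?_, ?_⟩
  · -- the last point
    have hm := hIcc m le_rfl
    have h0 : (m : ℝ) * π ≤ Th (L m) τ' := by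
      rw [← hL m le_rfl]
      exact (F.inc (L m)).monotoneOn ⟨hm.1.le, hm.2.le⟩ ⟨by linarith, hτpi.le⟩ (hθ m le_rfl).2
    rcases le_or_gt (Th (L m) τ') ((m + 1) * π) with h1 | h1
    · have h2 := F.lemA K (L m) (θ m) τ' m P hK hKn hm (hnθ m le_rfl)
        (by rw [hL m le_rfl]; push_cast; rfl) ⟨by linarith, hτpi.le⟩
        (by
          push_cast
          rw [abs_le]
          constructor <;> linarith) hdeg hP (hcr m le_rfl)
      have h3 := hV5 m (Th (L m) τ') (by push_cast; exact h0) (by push_cast; exact h1)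
      rw [h3]
      push_cast at h2 ⊢
      linarith
    · have h2 := cd_triv hP K n τ' (θ m)
      have h3 := hV5 (m + 1) ((m + 1) * π) (by push_cast; exact le_rfl)
        (by push_cast; nlinarith)
      have h4 := hVm h1
      push_cast at h3
      rw [sub_self, Real.cos_zero] at h3
      linarith
  · -- the first point
    have hm := hIcc 0 (Nat.zero_le m)
    have hL0 : Th (L 0) (θ 0) = 0 := by
      rw [hL 0 (Nat.zero_le m)]
      simp
    have h0 : Th (L 0) τ ≤ 0 := by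
      rw [← hL0]
      exact (F.inc (L 0)).monotoneOn ⟨hτ.le, by linarith⟩ ⟨hm.1.le, hm.2.le⟩
        (hθ 0 (Nat.zero_le m)).1
    rcases le_or_gt (-π) (Th (L 0) τ) with h1 | h1
    · have h2 := F.lemA K (L 0) (θ 0) τ 0 P hK hKn hm (hnθ 0 (Nat.zero_le m))
        (by rw [hL0]; simp) ⟨hτ.le, by linarith⟩
        (by
          push_cast
          rw [abs_le]
          constructor <;> linarith) hdeg hP (hcr 0 (Nat.zero_le m))
      have h3 := hV5 0 (-Th (L 0) τ) (by push_cast; linarith) (by push_cast; linarith)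
      rw [← hVneg, h3]
      push_cast at h2 ⊢
      rw [zero_mul, sub_zero] at h2
      rw [zero_mul, sub_zero, Real.cos_neg]
      linarith
    · have h2 := cd_triv hP K n τ (θ 0)
      have h3 := hV5 1 π (by push_cast; linarith) (by push_cast; linarith)
      have h4 := hVm (show π < -Th (L 0) τ by linarith)
      push_cast at h3
      rw [one_mul, sub_self, Real.cos_zero] at h3
      rw [← hVneg]
      linarith
  · -- the path
    have hsub : ∀ x ∈ Icc τ τ', x ∈ Ioo 0 π := fun x hx =>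
      ⟨by linarith [hx.1], by linarith [hx.2]⟩
    have hPF : PF Th τ τ' :=
      { ab := hττ'
        unit := fun L x _ => F.unit L x
        mono := fun x hx => F.mono x (hsub x hx)
        cont := fun x hx => F.cont x (hsub x hx)
        tp := fun k A B C h1 h2 h3 h4 x hx y hy hxy =>
          F.tp k A B C h1 h2 h3 h4 x (hsub x hx) y (hsub y hy) hxy
        hill := fun k A B h1 h2 h3 x hx y hy z hz hxy hyz =>
          F.hill k A B h1 h2 h3 x (hsub x hx) y (hsub y hy) z (hsub z hz) hxy hyz }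
    apply hPa Th τ τ' hPF m L s
    · intro j hj
      exact ⟨(hθ j hj.le).1.trans (hs j hj).1.1, (hs j hj).1.2.trans (hθ (j + 1) hj).2⟩
    · intro j hj
      exact (hs j (by omega)).1.2.trans (hs (j + 1) hj).1.1

end

end Pool.Agent.Helper40.TV
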