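import Pool.Agent.Helper40.TV.St3

/-!
Piece Ch: chains of separated critical points.
-/

set_option autoImplicit false

namespace Pool.Agent.Helper40.TV

open Polynomial Set Real
open Pool.Agent.Helper40.AS (Bdd)

noncomputable section

/-- iterated Markov inequality -/
theorem ch_iter (hTy : Ty) {n : ℕ} (hn : 1 ≤ n) (k : ℕ) : ∀ P : ℝ[X], P.natDegree ≤ n → Bdd P →
    ∀ x ∈ Icc (-1 : ℝ) 1, |(derivative^[k] P).eval x| ≤ (2 * (n : ℝ) ^ 2) ^ k := by
  have hn' : (1 : ℝ) ≤ n := by exact_mod_cast hn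
  have hpos : (0 : ℝ) < 2 * (n : ℝ) ^ 2 := by positivity
  induction k with
  | zero =>
    intro P _ hB x hx
    simpa using hB x hx
  | succ k ih =>
    intro P hd hB x hx
    set Q : ℝ[X] := C (2 * (n : ℝ) ^ 2)⁻¹ * derivative P with hQ
    have hQd : Q.natDegree ≤ n := (natDegree_C_mul_le _ _).trans
      ((natDegree_derivative_le P).trans (by omega))
    have hQB : Bdd Q := by
      intro y hy
      rw [hQ, eval_mul, eval_C, abs_mul, abs_of_pos (inv_pos.2 hpos), inv_mul_le_iff₀ hpos,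
        mul_one]
      exact (hTy n P hn hd hB).1 y hy
    have h1 := ih Q hQd hQB x hx
    rw [hQ, iterate_derivative_C_mul, eval_mul, eval_C, abs_mul, abs_of_pos (inv_pos.2 hpos),
      inv_mul_le_iff₀ hpos] at h1
    rw [Function.iterate_succ_apply, pow_succ']
    exact h1

theorem ch_rolle_step (g : ℝ[X]) (a b : ℝ) (hg : derivative g ≠ 0) (S : Finset ℝ)
    (hS : ∀ x ∈ S, x ∈ Icc a b ∧ g.eval x = 0) :
    ∃ T : Finset ℝ, (∀ x ∈ T, x ∈ Icc a b ∧ (derivative g).eval x = 0) ∧ S.card ≤ T.card + 1 := by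
  classical
  refine ⟨(derivative g).roots.toFinset.filter (fun x => x ∈ Icc a b), ?_, ?_⟩
  · intro x hx
    rw [Finset.mem_filter, Multiset.mem_toFinset, mem_roots hg] at hx
    exact ⟨hx.2, hx.1⟩
  · refine Finset.card_le_of_interleaved fun x hx y hy hxy _ => ?_
    obtain ⟨c, hc, hc0⟩ := exists_deriv_eq_zero hxy (g.continuous.continuousOn)
      ((hS x hx).2.trans (hS y hy).2.symm)
    rw [Polynomial.deriv] at hc0
    refine ⟨c, ?_, hc.1, hc.2⟩
    rw [Finset.mem_filter, Multiset.mem_toFinset, mem_roots hg]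
    exact ⟨hc0, (hS x hx).1.1.trans hc.1.le, hc.2.le.trans (hS y hy).1.2⟩

theorem ch_rolle (a b : ℝ) (k : ℕ) : ∀ (g : ℝ[X]) (S : Finset ℝ),
    (∀ x ∈ S, x ∈ Icc a b ∧ g.eval x = 0) → k + 1 ≤ S.card →
    ∃ ξ ∈ Icc a b, (derivative^[k] g).eval ξ = 0 := by
  induction k with
  | zero =>
    intro g S hS hc
    obtain ⟨x, hx⟩ := Finset.card_pos.1 (show 0 < S.card by omega)
    exact ⟨x, (hS x hx).1, (hS x hx).2⟩
  | succ k ih =>
    intro g S hS hc
    by_cases hg : derivative g = 0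
    · obtain ⟨x, hx⟩ := Finset.card_pos.1 (show 0 < S.card by omega)
      refine ⟨x, (hS x hx).1, ?_⟩
      rw [Function.iterate_succ_apply, hg, iterate_derivative_zero, eval_zero]
    · obtain ⟨T, hT, hTc⟩ := ch_rolle_step g a b hg S hS
      obtain ⟨ξ, h1, h2⟩ := ih (derivative g) T hT (by omega)
      exact ⟨ξ, h1, by rw [Function.iterate_succ_apply]; exact h2⟩

/-- the derivative of order `card S` of the node polynomial -/
theorem ch_node (S : Finset ℝ) (x : ℝ) :
    (derivative^[S.card] (∏ z ∈ S, (X - C z))).eval x = (S.card.factorial : ℝ) := by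
  have hm : (∏ z ∈ S, (X - C z) : ℝ[X]).Monic := monic_prod_of_monic _ _ fun z _ => monic_X_sub_C z
  have hd : (∏ z ∈ S, (X - C z) : ℝ[X]).natDegree = S.card := by
    rw [natDegree_prod_of_monic _ _ fun z _ => monic_X_sub_C z]
    simp
  have h1 : (derivative^[S.card] (∏ z ∈ S, (X - C z) : ℝ[X])).natDegree ≤ 0 := by
    refine (natDegree_iterate_derivative _ _).trans ?_
    rw [hd, Nat.sub_self]
  rw [eq_C_of_natDegree_le_zero h1, eval_C, coeff_iterate_derivative, zero_add,
    Nat.descFactorial_self]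
  have h2 : (∏ z ∈ S, (X - C z) : ℝ[X]).coeff S.card = 1 := by
    have := hm.coeff_natDegree
    rwa [hd] at this
  rw [h2, nsmul_eq_mul, mul_one]

/-- the error of interpolation -/
theorem ch_interp (q : ℝ[X]) (a b M : ℝ) (S : Finset ℝ)
    (hS : ∀ x ∈ S, x ∈ Icc a b ∧ q.eval x = 0)
    (hM : ∀ x ∈ Icc a b, |(derivative^[S.card] q).eval x| ≤ M) (x : ℝ) (hx : x ∈ Icc a b) :
    |q.eval x| ≤ M * (b - a) ^ S.card / S.card.factorial := by
  classical
  have hM0 : 0 ≤ M := (abs_nonneg _).trans (hM x hx)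
  have hab : 0 ≤ b - a := by linarith [hx.1, hx.2]
  have hf : (0 : ℝ) < S.card.factorial := by exact_mod_cast Nat.factorial_pos _
  by_cases hxS : x ∈ S
  · rw [(hS x hxS).2, abs_zero]
    positivity
  set W : ℝ[X] := ∏ z ∈ S, (X - C z) with hW
  obtain ⟨ξ, hξ, h0⟩ := ch_rolle a b S.card (C (W.eval x) * q - C (q.eval x) * W) (insert x S) (by
    intro y hy
    rw [Finset.mem_insert] at hy
    rcases hy with rfl | hy
    · refine ⟨hx, ?_⟩
      rw [eval_sub, eval_mul, eval_mul, eval_C, eval_C]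
      ring
    · refine ⟨(hS y hy).1, ?_⟩
      have hWy : W.eval y = 0 := by
        rw [hW, eval_prod]
        refine Finset.prod_eq_zero hy ?_
        rw [eval_sub, eval_X, eval_C, sub_self]
      rw [eval_sub, eval_mul, eval_mul, (hS y hy).2, hWy]
      ring) (by rw [Finset.card_insert_of_notMem hxS])
  rw [iterate_derivative_sub, iterate_derivative_C_mul, iterate_derivative_C_mul, eval_sub,
    eval_mul, eval_mul, eval_C, eval_C, hW, ch_node, ← hW] at h0
  have hWx : |W.eval x| ≤ (b - a) ^ S.card := by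
    rw [hW, eval_prod, Finset.abs_prod, ← Finset.prod_const]
    refine Finset.prod_le_prod (fun z _ => abs_nonneg _) fun z hz => ?_
    rw [eval_sub, eval_X, eval_C, abs_le]
    have := (hS z hz).1
    constructor <;> linarith [hx.1, hx.2, this.1, this.2]
  have h1 : |q.eval x| * S.card.factorial = |W.eval x| * |(derivative^[S.card] q).eval ξ| := by
    rw [← abs_mul, sub_eq_zero.1 h0, abs_mul, abs_of_pos hf]
  rw [le_div_iff₀ hf, h1, mul_comm M]
  exact mul_le_mul hWx (hM ξ hξ) (abs_nonneg _) (by positivity)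

/-- variation over an interval without critical points -/
theorem ch_mono (P : ℝ[X]) (u v : ℝ) (huv : v ≤ u)
    (h : ∀ z ∈ Ioo v u, P.derivative.eval z ≠ 0) : Vp P v u = |P.eval u - P.eval v| := by
  have hFTC : ∫ z in v..u, P.derivative.eval z = P.eval u - P.eval v :=
    intervalIntegral.integral_eq_sub_of_hasDerivAt (fun z _ => P.hasDerivAt z)
      (P.derivative.continuous.intervalIntegrable _ _)
  have hsign : (∀ z ∈ Ioo v u, 0 < P.derivative.eval z) ∨
      ∀ z ∈ Ioo v u, P.derivative.eval z < 0 := by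
    by_contra hcon
    push Not at hcon
    obtain ⟨⟨z₁, hz₁, h1⟩, z₂, hz₂, h2⟩ := hcon
    have hc : ContinuousOn (fun z => P.derivative.eval z) (Ioo v u) :=
      P.derivative.continuous.continuousOn
    obtain ⟨z, hz, hz0⟩ := (isPreconnected_Ioo (a := v) (b := u)).intermediate_value hz₁ hz₂ hc
      ⟨h1, h2⟩
    exact h z hz hz0
  rw [Vp, ← hFTC]
  rcases hsign with hs | hs
  · have h1 : ∫ z in v..u, |P.derivative.eval z| = ∫ z in v..u, P.derivative.eval z := by
      rw [intervalIntegral.integral_of_le huv, intervalIntegral.integral_of_le huv,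
        MeasureTheory.integral_Ioc_eq_integral_Ioo, MeasureTheory.integral_Ioc_eq_integral_Ioo]
      exact MeasureTheory.setIntegral_congr_fun measurableSet_Ioo fun z hz => abs_of_pos (hs z hz)
    rw [h1, abs_of_nonneg]
    rw [← h1]
    exact intervalIntegral.integral_nonneg huv fun z _ => abs_nonneg _
  · have h1 : ∫ z in v..u, |P.derivative.eval z| = - ∫ z in v..u, P.derivative.eval z := by
      rw [← intervalIntegral.integral_neg, intervalIntegral.integral_of_le huv,
        intervalIntegral.integral_of_le huv,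
        MeasureTheory.integral_Ioc_eq_integral_Ioo, MeasureTheory.integral_Ioc_eq_integral_Ioo]
      exact MeasureTheory.setIntegral_congr_fun measurableSet_Ioo fun z hz => abs_of_neg (hs z hz)
    have h2 : 0 ≤ ∫ z in v..u, |P.derivative.eval z| :=
      intervalIntegral.integral_nonneg huv fun z _ => abs_nonneg _
    rw [h1, abs_of_nonpos]
    linarith

/-- the sum over a chain -/
def ch_vs (P : ℝ[X]) : ℝ → List ℝ → ℝ → ℝ
  | u, [], v => |P.eval u - P.eval v|
  | u, x :: l, v => |P.eval u - P.eval x| + ch_vs P x l v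

theorem ch_vs_append (P : ℝ[X]) (l₁ : List ℝ) : ∀ (u x v : ℝ) (l₂ : List ℝ),
    ch_vs P u (l₁ ++ x :: l₂) v = ch_vs P u l₁ x + ch_vs P x l₂ v := by
  induction l₁ with
  | nil =>
    intro u x v l₂
    rfl
  | cons y l ih =>
    intro u x v l₂
    rw [List.cons_append, ch_vs, ih, ch_vs]
    ring

theorem ch_vs_left (P : ℝ[X]) (l : List ℝ) (u u' v : ℝ) :
    ch_vs P u l v ≤ |P.eval u - P.eval u'| + ch_vs P u' l v := by
  cases l with
  | nil => exact abs_sub_le _ _ _
  | cons x l =>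
    rw [ch_vs, ch_vs]
    have := abs_sub_le (P.eval u) (P.eval u') (P.eval x)
    linarith

theorem ch_vs_right (P : ℝ[X]) (l : List ℝ) : ∀ (u v v' : ℝ),
    ch_vs P u l v ≤ ch_vs P u l v' + |P.eval v - P.eval v'| := by
  induction l with
  | nil =>
    intro u v v'
    rw [ch_vs, ch_vs, abs_sub_comm (P.eval v)]
    exact abs_sub_le _ _ _
  | cons x l ih =>
    intro u v v'
    rw [ch_vs, ch_vs]
    have := ih x v v'
    linarith

/-- the full chain -/
theorem ch_full (P : ℝ[X]) (v : ℝ) (l : List ℝ) : ∀ u : ℝ, v ≤ u → (∀ x ∈ l, x ∈ Icc v u) →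
    l.Pairwise (· > ·) → (∀ z ∈ Ioo v u, P.derivative.eval z = 0 → z ∈ l) →
    Vp P v u = ch_vs P u l v := by
  induction l with
  | nil =>
    intro u huv _ _ hz
    rw [ch_vs]
    exact ch_mono P u v huv fun z hz1 hz2 => List.not_mem_nil (hz z hz1 hz2)
  | cons x l ih =>
    intro u huv hl hp hz
    have hx := hl x List.mem_cons_self
    rw [List.pairwise_cons] at hp
    have h1 : Vp P x u = |P.eval u - P.eval x| := by
      refine ch_mono P u x hx.2 fun z hz1 hz2 => ?_
      have h2 := hz z ⟨lt_of_le_of_lt hx.1 hz1.1, hz1.2⟩ hz2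
      rcases List.mem_cons.1 h2 with rfl | h3
      · exact lt_irrefl _ hz1.1
      · exact lt_asymm hz1.1 (hp.1 z h3)
    have h2 : Vp P v x = ch_vs P x l v := by
      refine ih x hx.1 (fun y hy => ⟨(hl y (List.mem_cons_of_mem x hy)).1, (hp.1 y hy).le⟩) hp.2
        fun z hz1 hz2 => ?_
      have h3 := hz z ⟨hz1.1, lt_of_lt_of_le hz1.2 hx.2⟩ hz2
      rcases List.mem_cons.1 h3 with rfl | h4
      · exact absurd hz1.2 (lt_irrefl _)
      · exact h4
    rw [ch_vs, ← h1, ← h2]
    unfold Vp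
    rw [add_comm]
    exact (intervalIntegral.integral_add_adjacent_intervals
      (P.derivative.continuous.abs.intervalIntegrable _ _)
      (P.derivative.continuous.abs.intervalIntegrable _ _)).symm

/-- the values at close critical points -/
theorem ch_close (hTy : Ty) {n : ℕ} (hn : 1 ≤ n) (P : ℝ[X]) (hd : P.natDegree ≤ n) (hB : Bdd P)
    {x y : ℝ} (hx : x ∈ Icc (-1 : ℝ) 1) (hy : y ∈ Icc (-1 : ℝ) 1) (hyx : y ≤ x)
    (h0 : P.derivative.eval x = 0) :
    |P.eval x - P.eval y| ≤ 4 * ((n : ℝ) ^ 2 * (x - y)) ^ 2 := by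
  have hsub : Icc y x ⊆ Icc (-1 : ℝ) 1 := Icc_subset_Icc hy.1 hx.2
  have h2 := (hTy n P hn hd hB).2.1
  have h1 : ∀ z ∈ Icc y x, |P.derivative.eval z| ≤ 4 * (n : ℝ) ^ 4 * (x - y) := by
    intro z hz
    have h3 := Convex.norm_image_sub_le_of_norm_hasDerivWithin_le (𝕜 := ℝ)
      (f := fun y => P.derivative.eval y) (f' := fun y => P.derivative.derivative.eval y)
      (C := 4 * (n : ℝ) ^ 4) (s := Icc (-1 : ℝ) 1) (x := x) (y := z)
      (fun y _ => (P.derivative.hasDerivAt y).hasDerivWithinAt)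
      (fun y hy => by simpa [Real.norm_eq_abs] using h2 y hy)
      (convex_Icc _ _) hx (hsub hz)
    simp only [h0, sub_zero, Real.norm_eq_abs] at h3
    refine h3.trans (mul_le_mul_of_nonneg_left ?_ (by positivity))
    rw [abs_le]
    constructor <;> linarith [hz.1, hz.2]
  have h3 := Convex.norm_image_sub_le_of_norm_hasDerivWithin_le (𝕜 := ℝ)
    (f := fun y => P.eval y) (f' := fun y => P.derivative.eval y)
    (C := 4 * (n : ℝ) ^ 4 * (x - y)) (s := Icc y x) (x := y) (y := x)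
    (fun y _ => (P.hasDerivAt y).hasDerivWithinAt)
    (fun z hz => by simpa [Real.norm_eq_abs] using h1 z hz)
    (convex_Icc _ _) (left_mem_Icc.2 hyx) (right_mem_Icc.2 hyx)
  simp only [Real.norm_eq_abs] at h3
  rw [abs_of_nonneg (show 0 ≤ x - y by linarith)] at h3
  refine h3.trans (le_of_eq ?_)
  ring

/-- removing points from a chain -/
theorem ch_ind (hTy : Ty) (ε : ℕ → ℝ) (hε : ∀ j, 0 < ε j) (k : ℕ) :
    ∃ (J : ℕ) (lam : ℝ), 0 < lam ∧ ∀ (n : ℕ) (a b t : ℝ) (P : ℝ[X]) (V : ℝ) (l : List ℝ),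
      1 ≤ n → -1 ≤ a → b ≤ 1 → P.natDegree ≤ n → Bdd P → l.length ≤ k + 1 → t ∈ l →
      (∀ x ∈ l, x ∈ Icc a b ∧ P.derivative.eval x = 0) → l.Pairwise (· > ·) →
      V ≤ ch_vs P b l a + lam →
      ∃ j ≤ J, ∃ l' : List ℝ, t ∈ l' ∧ (∀ x ∈ l', x ∈ Icc a b ∧ P.derivative.eval x = 0) ∧
        l'.IsChain (fun x y => 1 / ((j : ℝ) + 1) ≤ (n : ℝ) ^ 2 * (x - y)) ∧
        V ≤ ch_vs P b l' a + ε j := by
  induction k with
  | zero =>
    refine ⟨0, ε 0, hε 0, fun n a b t P V l hn ha hb hd hB hlen ht hl hp hV => ?_⟩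
    refine ⟨0, le_rfl, l, ht, hl, ?_, hV⟩
    rcases l with _ | ⟨x, _ | ⟨y, l⟩⟩
    · exact absurd ht List.not_mem_nil
    · exact List.isChain_singleton x
    · simp only [List.length_cons] at hlen
      omega
  | succ k ih =>
    obtain ⟨J, lam, hlam, hJ⟩ := ih
    obtain ⟨j₀, hj₀⟩ := exists_nat_gt (16 / lam)
    have hj₀' : 8 / ((j₀ : ℝ) + 1) ^ 2 ≤ lam / 2 := by
      have h1 : (0 : ℝ) < (j₀ : ℝ) + 1 := by positivity
      rw [div_le_iff₀ (by positivity)]
      rw [div_lt_iff₀ hlam] at hj₀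
      have h2 : (j₀ : ℝ) + 1 ≤ ((j₀ : ℝ) + 1) ^ 2 := by nlinarith [Nat.cast_nonneg (α := ℝ) j₀]
      nlinarith
    refine ⟨max J j₀, min (lam / 2) (ε j₀), lt_min (by linarith) (hε j₀), ?_⟩
    intro n a b t P V l hn ha hb hd hB hlen ht hl hp hV
    by_cases hch : l.IsChain (fun x y => 1 / ((j₀ : ℝ) + 1) ≤ (n : ℝ) ^ 2 * (x - y))
    · exact ⟨j₀, le_max_right _ _, l, ht, hl, hch,
        hV.trans (by linarith [min_le_right (lam / 2) (ε j₀)])⟩
    rw [List.isChain_iff_forall_rel_of_append_cons_cons] at hch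
    push Not at hch
    obtain ⟨x, y, l₁, l₂, hsplit, hgap⟩ := hch
    have hxl : x ∈ l := by rw [hsplit]; simp
    have hyl : y ∈ l := by rw [hsplit]; simp
    have hyx : y < x := by
      rw [hsplit, List.pairwise_append] at hp
      exact (List.pairwise_cons.1 hp.2.1).1 y List.mem_cons_self
    have hsub : Icc a b ⊆ Icc (-1 : ℝ) 1 := Icc_subset_Icc ha hb
    have hcl := ch_close hTy hn P hd hB (hsub (hl x hxl).1) (hsub (hl y hyl).1) hyx.le (hl x hxl).2
    have hcl' : |P.eval x - P.eval y| ≤ 4 / ((j₀ : ℝ) + 1) ^ 2 := by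
      refine hcl.trans ?_
      have h1 : 0 ≤ (n : ℝ) ^ 2 * (x - y) := mul_nonneg (by positivity) (by linarith)
      have h2 : ((n : ℝ) ^ 2 * (x - y)) ^ 2 ≤ (1 / ((j₀ : ℝ) + 1)) ^ 2 :=
        pow_le_pow_left₀ h1 hgap.le 2
      calc 4 * ((n : ℝ) ^ 2 * (x - y)) ^ 2 ≤ 4 * (1 / ((j₀ : ℝ) + 1)) ^ 2 := by linarith
        _ = 4 / ((j₀ : ℝ) + 1) ^ 2 := by rw [one_div, inv_pow]; ring
    have hV' : V ≤ ch_vs P b l a + lam / 2 := hV.trans (by linarith [min_le_left (lam / 2) (ε j₀)])
    have h8 : 2 * (4 / ((j₀ : ℝ) + 1) ^ 2) = 8 / ((j₀ : ℝ) + 1) ^ 2 := by ring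
    -- it is enough to remove one of the two points
    have key : ∀ l' : List ℝ, l'.Sublist l → l'.length + 1 = l.length → t ∈ l' →
        ch_vs P b l a ≤ ch_vs P b l' a + 2 * |P.eval x - P.eval y| →
        ∃ j ≤ max J j₀, ∃ l' : List ℝ, t ∈ l' ∧
          (∀ x ∈ l', x ∈ Icc a b ∧ P.derivative.eval x = 0) ∧
          l'.IsChain (fun x y => 1 / ((j : ℝ) + 1) ≤ (n : ℝ) ^ 2 * (x - y)) ∧
          V ≤ ch_vs P b l' a + ε j := by
      intro l' hs hlen' ht' hle
      obtain ⟨j, hj, l'', h1, h2, h3, h4⟩ := hJ n a b t P V l' hn ha hb hd hB (by omega) ht'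
        (fun z hz => hl z (hs.subset hz)) (hp.sublist hs) (by linarith)
      exact ⟨j, hj.trans (le_max_left _ _), l'', h1, h2, h3, h4⟩
    by_cases htx : t = x
    · refine key (l₁ ++ x :: l₂) ?_ ?_ ?_ ?_
      · rw [hsplit]
        exact (List.Sublist.cons_cons x (List.sublist_cons_self y l₂)).append_left l₁
      · rw [hsplit]
        simp
        omega
      · rw [htx]
        simp
      · rw [hsplit, ch_vs_append, ch_vs_append, ch_vs]
        have := ch_vs_left P l₂ y x a
        rw [abs_sub_comm] at this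
        linarith
    · refine key (l₁ ++ y :: l₂) ?_ ?_ ?_ ?_
      · rw [hsplit]
        exact (List.sublist_cons_self x (y :: l₂)).append_left l₁
      · rw [hsplit]
        simp
        omega
      · rw [hsplit] at ht
        simp only [List.mem_append, List.mem_cons] at ht ⊢
        tauto
      · rw [hsplit, ch_vs_append, ch_vs_append, ch_vs]
        have := ch_vs_right P l₁ b x y
        linarith

/-- the sum over a chain as a sum over an initial segment -/
theorem ch_vs_sum (P : ℝ[X]) (l : List ℝ) : ∀ (x v : ℝ), ch_vs P x l v =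
    ∑ i ∈ Finset.range l.length, |P.eval ((x :: l).getD (i + 1) 0) - P.eval ((x :: l).getD i 0)| +
      |P.eval v - P.eval ((x :: l).getD l.length 0)| := by
  induction l with
  | nil =>
    intro x v
    simp [ch_vs, abs_sub_comm]
  | cons y l ih =>
    intro x v
    rw [ch_vs, ih, List.length_cons, Finset.sum_range_succ']
    simp only [List.getD_cons_succ, List.getD_cons_zero]
    rw [abs_sub_comm (P.eval x)]
    ring

/-- chains of separated critical points -/
theorem ch (hTy : Ty) : Ch := by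
  classical
  intro K c0 ε hK hc0 hε
  -- the number of critical points
  obtain ⟨N, hN⟩ : ∃ N : ℕ, (2 * K) * ((2 * K) ^ N / N.factorial) < c0 := by
    have h1 := (FloorSemiring.tendsto_pow_div_factorial_atTop (2 * K)).const_mul (2 * K)
    rw [mul_zero] at h1
    exact (h1.eventually (gt_mem_nhds hc0)).exists
  obtain ⟨J, lam, hlam, hJ⟩ := ch_ind hTy ε hε N
  refine ⟨J, 1, fun n hn a b t P ha hab hb hKa hd hB hV ht ht0 => ?_⟩
  have hn' : (1 : ℝ) ≤ n := by exact_mod_cast hn
  have hn2 : (0 : ℝ) < (n : ℝ) ^ 2 := by positivity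
  have hP' : P.derivative ≠ 0 := by
    intro h
    unfold Vp at hV
    simp only [h, eval_zero, abs_zero, intervalIntegral.integral_zero] at hV
    linarith
  have hsub : Icc a b ⊆ Icc (-1 : ℝ) 1 := Icc_subset_Icc ha hb
  set Z : Finset ℝ := P.derivative.roots.toFinset.filter (fun x => x ∈ Icc a b) with hZ
  have hZm : ∀ x, x ∈ Z ↔ x ∈ Icc a b ∧ P.derivative.eval x = 0 := by
    intro x
    rw [hZ, Finset.mem_filter, Multiset.mem_toFinset, mem_roots hP', and_comm, IsRoot.def]
  have hZc : Z.card ≤ N + 1 := by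
    by_contra hlt
    rw [not_le] at hlt
    obtain ⟨S, hSZ, hSc⟩ := Finset.exists_subset_card_eq (show N ≤ Z.card by omega)
    have hKb : (n : ℝ) ^ 2 * (b - a) ≤ K := by nlinarith
    have hba : 0 ≤ b - a := by linarith
    have h1 : ∀ x ∈ Icc a b, |P.derivative.eval x| ≤
        (2 * (n : ℝ) ^ 2) ^ (N + 1) * (b - a) ^ N / N.factorial := by
      intro x hx
      have h2 := ch_interp P.derivative a b ((2 * (n : ℝ) ^ 2) ^ (N + 1)) S
        (fun y hy => (hZm y).1 (hSZ hy)) (fun y hy => by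
          rw [hSc]
          have h3 := ch_iter hTy hn (N + 1) P hd hB y (hsub hy)
          rwa [Function.iterate_succ_apply] at h3) x hx
      rwa [hSc] at h2
    have h2 : Vp P a b ≤ ((2 * (n : ℝ) ^ 2) ^ (N + 1) * (b - a) ^ N / N.factorial) * (b - a) := by
      unfold Vp
      have h3 := intervalIntegral.norm_integral_le_of_norm_le_const (a := a) (b := b)
        (C := (2 * (n : ℝ) ^ 2) ^ (N + 1) * (b - a) ^ N / N.factorial)
        (f := fun x => |P.derivative.eval x|) (fun x hx => by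
          rw [uIoc_of_le hab.le] at hx
          rw [Real.norm_eq_abs, abs_abs]
          exact h1 x ⟨hx.1.le, hx.2⟩)
      rw [abs_of_nonneg hba] at h3
      exact (le_abs_self _).trans h3
    have h3 : ((2 * (n : ℝ) ^ 2) ^ (N + 1) * (b - a) ^ N / N.factorial) * (b - a) =
        (2 * ((n : ℝ) ^ 2 * (b - a))) ^ (N + 1) / N.factorial := by
      rw [show 2 * ((n : ℝ) ^ 2 * (b - a)) = (2 * (n : ℝ) ^ 2) * (b - a) by ring, mul_pow _ (b - a)]
      ring
    have h4 : (2 * ((n : ℝ) ^ 2 * (b - a))) ^ (N + 1) ≤ (2 * K) ^ (N + 1) :=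
      pow_le_pow_left₀ (by positivity) (by linarith) _
    have h5 : (2 * ((n : ℝ) ^ 2 * (b - a))) ^ (N + 1) / N.factorial ≤
        (2 * K) * ((2 * K) ^ N / N.factorial) := by
      have h6 : (2 * K) * ((2 * K) ^ N / N.factorial) = (2 * K) ^ (N + 1) / N.factorial := by
        rw [pow_succ]
        ring
      rw [h6]
      exact div_le_div_of_nonneg_right h4 (Nat.cast_nonneg _)
    linarith
  set l : List ℝ := Z.sort (· ≥ ·) with hl
  have hlm : ∀ x, x ∈ l ↔ x ∈ Icc a b ∧ P.derivative.eval x = 0 := by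
    intro x
    rw [hl, Finset.mem_sort, hZm]
  have hlp : l.Pairwise (· > ·) := (Finset.sortedGT_sort Z).pairwise
  have hlen : l.length ≤ N + 1 := by
    rw [hl, Finset.length_sort]
    exact hZc
  have hfull := ch_full P a l b hab.le (fun x hx => ((hlm x).1 hx).1) hlp
    (fun z hz h0 => (hlm z).2 ⟨Ioo_subset_Icc_self hz, h0⟩)
  obtain ⟨j, hj, l', htl', hl', hch, hV'⟩ := hJ n a b t P (Vp P a b) l hn ha hb hd hB hlen
    ((hlm t).2 ⟨ht, ht0⟩) (fun x hx => (hlm x).1 hx) hlp (by rw [hfull]; linarith)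
  rcases l' with _ | ⟨x₀, l''⟩
  · exact absurd htl' List.not_mem_nil
  refine ⟨j, hj, l''.length, fun i => (x₀ :: l'').getD i 0, ?_, ?_, ?_, ?_⟩
  · intro i hi
    apply hl'
    show (x₀ :: l'').getD i 0 ∈ _
    rw [List.getD_eq_getElem _ _ (by simp; omega)]
    exact List.getElem_mem _
  · intro i hi
    rw [List.isChain_iff_getElem] at hch
    have h1 := hch i (by simp; omega)
    show 1 / ((j : ℝ) + 1) ≤ (n : ℝ) ^ 2 * ((x₀ :: l'').getD i 0 - (x₀ :: l'').getD (i + 1) 0)
    rw [List.getD_eq_getElem _ _ (by simp; omega), List.getD_eq_getElem _ _ (by simp; omega)]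
    exact h1
  · obtain ⟨i, hi, hit⟩ := List.mem_iff_getElem.1 htl'
    refine ⟨i, by simp at hi; omega, ?_⟩
    show (x₀ :: l'').getD i 0 = t
    rw [List.getD_eq_getElem _ _ hi]
    exact hit
  · rw [ch_vs, ch_vs_sum] at hV'
    beta_reduce
    have h1 : (x₀ :: l'').getD 0 0 = x₀ := rfl
    rw [h1]
    linarith

end

end Pool.Agent.Helper40.TV
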