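import Pool.Agent.Helper40.TV.St3

/-! Project TV, piece Cn -/

set_option autoImplicit false

namespace Pool.Agent.Helper40.TV

open Polynomial Set Real MeasureTheory
open Pool.Agent.Helper40.AS (Bdd)

theorem cn_ftc (P : ℝ[X]) (c d : ℝ) :
    ∫ x in c..d, P.derivative.eval x = P.eval d - P.eval c := by
  apply intervalIntegral.integral_eq_sub_of_hasDerivAt
  · intro x _
    exact P.hasDerivAt x
  · exact P.derivative.continuous.intervalIntegrable _ _

theorem cn_piece (P : ℝ[X]) {c d : ℝ} (hcd : c ≤ d)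
    (h : ∀ z ∈ Ioo c d, P.derivative.eval z ≠ 0) :
    ∫ x in c..d, |P.derivative.eval x| = |P.eval d - P.eval c| := by
  rcases eq_or_lt_of_le hcd with rfl | hlt
  · simp
  have hcont : ContinuousOn (fun z => P.derivative.eval z) (Ioo c d) :=
    P.derivative.continuous.continuousOn
  have hsub : Icc c d ⊆ closure (Ioo c d) := by
    rw [closure_Ioo hlt.ne]
  by_cases hpos : ∃ z ∈ Ioo c d, 0 < P.derivative.eval z
  · obtain ⟨z1, hz1, hz1'⟩ := hpos
    have hnn : ∀ z ∈ Icc c d, 0 ≤ P.derivative.eval z := by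
      have h1 : ∀ z ∈ Ioo c d, 0 ≤ P.derivative.eval z := by
        intro z hz
        by_contra hneg
        push Not at hneg
        obtain ⟨w, hw, hw0⟩ := isPreconnected_Ioo.intermediate_value hz hz1 hcont
          ⟨hneg.le, hz1'.le⟩
        exact h w hw hw0
      have hcl : IsClosed {z : ℝ | 0 ≤ P.derivative.eval z} :=
        isClosed_le continuous_const P.derivative.continuous
      intro z hz
      exact closure_minimal (s := Ioo c d) h1 hcl (hsub hz)
    have h2 : ∫ x in c..d, |P.derivative.eval x| = ∫ x in c..d, P.derivative.eval x := by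
      apply intervalIntegral.integral_congr
      intro z hz
      rw [uIcc_of_le hcd] at hz
      exact abs_of_nonneg (hnn z hz)
    have h3 : 0 ≤ ∫ x in c..d, P.derivative.eval x :=
      intervalIntegral.integral_nonneg hcd hnn
    rw [h2]
    rw [cn_ftc] at h3 ⊢
    rw [abs_of_nonneg h3]
  · push Not at hpos
    have hnn : ∀ z ∈ Icc c d, P.derivative.eval z ≤ 0 := by
      have hcl : IsClosed {z : ℝ | P.derivative.eval z ≤ 0} :=
        isClosed_le P.derivative.continuous continuous_const
      intro z hz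
      exact closure_minimal (s := Ioo c d) hpos hcl (hsub hz)
    have h2 : ∫ x in c..d, |P.derivative.eval x| = ∫ x in c..d, -P.derivative.eval x := by
      apply intervalIntegral.integral_congr
      intro z hz
      rw [uIcc_of_le hcd] at hz
      exact abs_of_nonpos (hnn z hz)
    have h3 : 0 ≤ ∫ x in c..d, -P.derivative.eval x :=
      intervalIntegral.integral_nonneg hcd fun z hz => neg_nonneg.mpr (hnn z hz)
    rw [h2]
    rw [intervalIntegral.integral_neg, cn_ftc] at h3 ⊢
    rw [abs_of_nonpos (by linarith)]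

theorem cn (hTy : Ty) : Cn := by
  intro h c hh hc
  refine ⟨c / 4, by positivity, ?_⟩
  intro n a b t P hn ha hab hb hdeg hbd hnd ht ht0
  have hn' : (0 : ℝ) < n := by exact_mod_cast hn
  obtain ⟨-, -, -, hT, -⟩ := hTy n P hn hdeg hbd
  have hin : ∀ z ∈ Icc a b, z ∈ Icc (-1 : ℝ) 1 := fun z hz =>
    ⟨ha.trans hz.1, hz.2.trans hb⟩
  have hz2 : ∀ z ∈ Icc a b, P.derivative.eval z = 0 →
      c * (n : ℝ) ^ 4 ≤ |P.derivative.derivative.eval z| := by
    intro z hz h0
    apply hnd z hz
    rw [h0, abs_zero]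
    positivity
  have hsep : ∀ z ∈ Icc a b, ∀ w ∈ Icc a b, P.derivative.eval z = 0 → P.derivative.eval w = 0 →
      z < w → c / 4 ≤ (n : ℝ) ^ 2 * (w - z) := by
    intro z hz w hw hz0 hw0 hzw
    have h1 := hT z (hin z hz) w (hin w hw)
    rw [hz0, hw0] at h1
    have h2 : |(0 : ℝ) - 0 - P.derivative.derivative.eval z * (w - z)| =
        |P.derivative.derivative.eval z| * (w - z) := by
      rw [sub_self, zero_sub, abs_neg, abs_mul, abs_of_pos (sub_pos.mpr hzw)]
    rw [h2] at h1
    have h3 := hz2 z hz hz0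
    have hwz : 0 < w - z := sub_pos.mpr hzw
    have h4 : c * (n : ℝ) ^ 4 * (w - z) ≤ 4 * (n : ℝ) ^ 6 * (w - z) ^ 2 :=
      (mul_le_mul_of_nonneg_right h3 hwz.le).trans h1
    have h5 : (0 : ℝ) < 4 * (n : ℝ) ^ 4 * (w - z) := by positivity
    have h6 : (4 * (n : ℝ) ^ 4 * (w - z)) * (c / 4) ≤
        (4 * (n : ℝ) ^ 4 * (w - z)) * ((n : ℝ) ^ 2 * (w - z)) := by
      calc _ = c * (n : ℝ) ^ 4 * (w - z) := by ring
        _ ≤ 4 * (n : ℝ) ^ 6 * (w - z) ^ 2 := h4
        _ = _ := by ring
    exact le_of_mul_le_mul_left h6 h5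
  have hP0 : P.derivative ≠ 0 := by
    intro h0
    have h1 := hz2 t ht ht0
    rw [h0] at h1
    simp at h1
    have : 0 < c * (n : ℝ) ^ 4 := by positivity
    linarith
  classical
  set S : Finset ℝ := P.derivative.roots.toFinset.filter (fun z => z ∈ Icc a b) with hS
  have memS : ∀ z, z ∈ S ↔ P.derivative.eval z = 0 ∧ z ∈ Icc a b := by
    intro z
    rw [hS, Finset.mem_filter, Multiset.mem_toFinset, mem_roots hP0, IsRoot.def]
  have htS : t ∈ S := (memS t).mpr ⟨ht0, ht⟩
  obtain ⟨m, hm⟩ : ∃ m, S.card = m + 1 :=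
    ⟨S.card - 1, by have := Finset.card_pos.mpr ⟨t, htS⟩; omega⟩
  set e := S.orderEmbOfFin hm with he
  have heS : ∀ j, e j ∈ S := fun j => Finset.orderEmbOfFin_mem S hm j
  have hsurj : ∀ z ∈ S, ∃ j, e j = z := by
    intro z hz
    have : z ∈ Set.range e := by
      rw [he, Finset.range_orderEmbOfFin]
      exact hz
    exact this
  set x : ℕ → ℝ := fun i => e ⟨m - i, by omega⟩ with hx
  have hxS : ∀ i, x i ∈ S := fun i => heS _
  have hxlt : ∀ i < m, x (i + 1) < x i := by
    intro i hi
    apply e.strictMono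
    rw [Fin.lt_def]
    simp only
    omega
  refine ⟨m, x, ?_, ?_, ?_, ?_⟩
  · intro i _
    have := (memS _).mp (hxS i)
    exact ⟨this.2, this.1⟩
  · intro i hi
    have h1 := (memS _).mp (hxS i)
    have h2 := (memS _).mp (hxS (i + 1))
    exact hsep _ h2.2 _ h1.2 h2.1 h1.1 (hxlt i hi)
  · obtain ⟨j, hj⟩ := hsurj t htS
    refine ⟨m - j, by omega, ?_⟩
    simp only [hx]
    rw [← hj]
    congr 1
    ext
    simp only
    have := j.2
    omega
  · have hint : ∀ c d : ℝ, IntervalIntegrable (fun z => |P.derivative.eval z|) volume c d :=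
      fun c d => (P.derivative.continuous.abs).intervalIntegrable c d
    have hxm := (memS _).mp (hxS m)
    have hx0 := (memS _).mp (hxS 0)
    -- the three kinds of pieces
    have p1 : ∫ z in a..x m, |P.derivative.eval z| = |P.eval a - P.eval (x m)| := by
      rw [abs_sub_comm]
      apply cn_piece P hxm.2.1
      intro z hz h0
      obtain ⟨j, hj⟩ := hsurj z ((memS z).mpr ⟨h0, hz.1.le, hz.2.le.trans hxm.2.2⟩)
      have h1 : x m ≤ e j := by
        apply e.monotone
        rw [Fin.le_def]
        simp only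
        omega
      rw [hj] at h1
      exact absurd hz.2 (not_lt.mpr h1)
    have p2 : ∫ z in x 0..b, |P.derivative.eval z| = |P.eval b - P.eval (x 0)| := by
      apply cn_piece P hx0.2.2
      intro z hz h0
      obtain ⟨j, hj⟩ := hsurj z ((memS z).mpr ⟨h0, hx0.2.1.trans hz.1.le, hz.2.le⟩)
      have h1 : e j ≤ x 0 := by
        apply e.monotone
        rw [Fin.le_def]
        simp only
        have := j.2
        omega
      rw [hj] at h1
      exact absurd hz.1 (not_lt.mpr h1)
    have p3 : ∀ i < m, ∫ z in x i..x (i + 1), |P.derivative.eval z| =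
        -|P.eval (x (i + 1)) - P.eval (x i)| := by
      intro i hi
      rw [intervalIntegral.integral_symm, abs_sub_comm]
      congr 1
      apply cn_piece P (hxlt i hi).le
      intro z hz h0
      have g1 := (memS _).mp (hxS i)
      have g2 := (memS _).mp (hxS (i + 1))
      obtain ⟨j, hj⟩ := hsurj z ((memS z).mpr ⟨h0, g2.2.1.trans hz.1.le, hz.2.le.trans g1.2.2⟩)
      rw [← hj] at hz
      have h1 := e.lt_iff_lt.mp hz.1
      have h2 := e.lt_iff_lt.mp hz.2
      rw [Fin.lt_def] at h1 h2
      simp only at h1 h2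
      omega
    have p4 : ∫ z in x 0..x m, |P.derivative.eval z| =
        -∑ i ∈ Finset.range m, |P.eval (x (i + 1)) - P.eval (x i)| := by
      rw [← intervalIntegral.sum_integral_adjacent_intervals (fun k _ => hint _ _),
        ← Finset.sum_neg_distrib]
      apply Finset.sum_congr rfl
      intro i hi
      exact p3 i (Finset.mem_range.mp hi)
    have p5 : Vp P a b = (∫ z in a..x m, |P.derivative.eval z|) +
        (∫ z in x m..x 0, |P.derivative.eval z|) + ∫ z in x 0..b, |P.derivative.eval z| := by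
      unfold Vp
      rw [intervalIntegral.integral_add_adjacent_intervals (hint _ _) (hint _ _),
        intervalIntegral.integral_add_adjacent_intervals (hint _ _) (hint _ _)]
    rw [p5, p1, p2, intervalIntegral.integral_symm, p4]
    ring

end Pool.Agent.Helper40.TV
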