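import Pool.Agent.Helper40.TV.St1

/-!
Comparison of two members of the family of polynomials with `n` alternation points.
-/

set_option autoImplicit false

namespace Pool.Agent.Helper40.TV

open Polynomial Set Real
open Pool.Agent.Helper40.AS (Bdd)

theorem cp_lt {n : ℕ} {x : ℕ → ℝ} (h : ∀ i, i + 1 < n → x i < x (i + 1)) {i j : ℕ} (hij : i < j)
    (hj : j < n) : x i < x j := by
  induction j, hij using Nat.le_induction with
  | base => exact h i hj
  | succ j hij ih => exact (ih (by omega)).trans (h j hj)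

theorem cp_sq (m : ℕ) : ((-1 : ℝ) ^ m) * (-1) ^ m = 1 := by
  rw [← mul_pow]
  norm_num

theorem cp_abs (m : ℕ) : |(-1 : ℝ) ^ m| = 1 := by
  rw [abs_pow, abs_neg, abs_one, one_pow]

theorem cp_le {m : ℕ} {t : ℝ} (h : |t| ≤ 1) : (-1 : ℝ) ^ m * t ≤ 1 := by
  calc (-1 : ℝ) ^ m * t ≤ |(-1 : ℝ) ^ m * t| := le_abs_self _
    _ = |t| := by rw [abs_mul, cp_abs, one_mul]
    _ ≤ 1 := h

theorem cp (hRc : Rc) : Cp := by
  intro n κ κ' Z Z' x x' hn hκ hM hM'
  have hc : 0 < (κ - κ') * 2 ^ (n - 1) := mul_pos (sub_pos.2 hκ) (by positivity)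
  obtain ⟨ζ, hζ, hE⟩ := hRc n (Z - Z') ((κ - κ') * 2 ^ (n - 1)) x x'
    ((natDegree_sub_le_of_le hM.deg hM'.deg).trans (max_self n).le)
    (by rw [coeff_sub, hM.lead, hM'.lead]; ring) hc hM.lt hM'.lt
    (fun i hi => by
      have h1 := cp_le (m := n - i) (hM'.bdd _ (hM.mem i hi))
      rw [eval_sub, mul_sub, hM.val i hi, cp_sq]
      linarith)
    (fun i hi => by
      have h1 := cp_le (m := n - i) (hM.bdd _ (hM'.mem i hi))
      rw [eval_sub, mul_sub, hM'.val i hi, cp_sq]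
      linarith)
  refine ⟨⟨ζ, hζ, hE⟩, fun i hi => ⟨(hζ i hi).1.trans (hζ i hi).2, fun hx => ?_⟩⟩
  refine lt_of_le_of_ne ((hζ i hi).1.trans (hζ i hi).2) fun heq => ?_
  have hζi : ζ i = x i := le_antisymm ((hζ i hi).2.trans heq.ge) (hζ i hi).1
  have hd : Z.derivative.eval (x i) = 0 :=
    Pool.Agent.Helper40.AS.contact_int hM.bdd hx (by rw [hM.val i hi, cp_abs])
  have hd' : Z'.derivative.eval (x i) = 0 :=
    Pool.Agent.Helper40.AS.contact_int hM'.bdd hx (by rw [heq, hM'.val i hi, cp_abs])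
  have h1 : (Z - Z').derivative.eval (x i) = 0 := by
    rw [derivative_sub, eval_sub, hd, hd', sub_zero]
  have h2 : om n ζ = (X - C (ζ i)) * ∏ j ∈ (Finset.range n).erase i, (X - C (ζ j)) := by
    exact (Finset.mul_prod_erase (Finset.range n) (fun j => X - C (ζ j))
      (Finset.mem_range.2 hi)).symm
  rw [hE, derivative_C_mul, h2, derivative_mul, derivative_sub, derivative_X, derivative_C,
    sub_zero, one_mul, eval_mul, eval_add, eval_mul, eval_sub, eval_X, eval_C, eval_C, hζi,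
    sub_self, zero_mul, add_zero, eval_prod] at h1
  rcases mul_eq_zero.1 h1 with h3 | h3
  · exact hc.ne' h3
  · rw [Finset.prod_eq_zero_iff] at h3
    obtain ⟨j, hj, h4⟩ := h3
    rw [eval_sub, eval_X, eval_C, sub_eq_zero] at h4
    obtain ⟨hji, hjn⟩ := Finset.mem_erase.1 hj
    rw [Finset.mem_range] at hjn
    rcases lt_or_gt_of_ne hji with h5 | h5
    · have h6 := cp_lt hM'.lt h5 hi
      have h7 := (hζ j hjn).2
      linarith
    · have h6 := cp_lt hM.lt h5 hjn
      have h7 := (hζ j hjn).1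
      linarith

end Pool.Agent.Helper40.TV
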