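import Pool.Agent.Helper40.TV.St1

set_option autoImplicit false

namespace Pool.Agent.Helper40.TV

open Polynomial Set Real
open Pool.Agent.Helper40.AS (Bdd contact_int)

noncomputable section

lemma ct_lt {n : ℕ} {κ : ℝ} {Z : ℝ[X]} {x : ℕ → ℝ} (h : Mem n κ Z x) {i j : ℕ} (hij : i < j)
    (hj : j < n) : x i < x j := by
  induction j with
  | zero => omega
  | succ j ih =>
    rcases Nat.lt_or_ge i j with h1 | h1
    · exact (ih h1 (by omega)).trans (h.lt j hj)
    · have : i = j := by omega
      rw [this]
      exact h.lt j hj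

/-- too many zeros of the derivative -/
lemma ct_count {n : ℕ} {κ : ℝ} {Z : ℝ[X]} {x : ℕ → ℝ} (hn : 3 ≤ n) (h : Mem n κ Z x)
    (S : Finset ℝ) (hS : ∀ s ∈ S, Z.derivative.eval s = 0) (hc : n ≤ S.card) : False := by
  have hne : Z.derivative ≠ 0 := by
    intro h0
    have h1 := natDegree_eq_zero_of_derivative_eq_zero h0
    obtain ⟨c, hc⟩ := natDegree_eq_zero.1 h1
    have e0 := h.val 0 (by omega)
    have e1 := h.val 1 (by omega)
    rw [← hc, eval_C] at e0 e1
    have : n - 0 = (n - 1) + 1 := by omega
    rw [this, pow_succ] at e0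
    rw [e1] at e0
    have h2 : ((-1 : ℝ)) ^ (n - 1) ≠ 0 := pow_ne_zero _ (by norm_num)
    have h3 : ((-1 : ℝ)) ^ (n - 1) = 0 := by linarith
    exact h2 h3
  have h1 : S ⊆ Z.derivative.roots.toFinset := by
    intro s hs
    rw [Multiset.mem_toFinset, mem_roots hne]
    exact hS s hs
  have h2 := Finset.card_le_card h1
  have h3 := Multiset.toFinset_card_le Z.derivative.roots
  have h4 := card_roots' Z.derivative
  have h5 := natDegree_derivative_le Z
  have h6 := h.deg
  omega

theorem ct : Ct := by
  classical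
  intro n κ Z x y hn h hy hZy
  by_contra hcon
  push Not at hcon
  obtain ⟨hnode, h1, h2⟩ := hcon
  set A := (Finset.range n).image x with hA
  have hinj : Set.InjOn x (Finset.range n : Finset ℕ) := by
    intro i hi j hj hij
    have hi' := Finset.mem_range.1 (Finset.mem_coe.1 hi)
    have hj' := Finset.mem_range.1 (Finset.mem_coe.1 hj)
    rcases lt_trichotomy i j with h3 | h3 | h3
    · exact absurd hij (ct_lt h h3 hj').ne
    · exact h3
    · exact absurd hij (ct_lt h h3 hi').ne'
  have hAc : A.card = n := by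
    rw [hA, Finset.card_image_of_injOn hinj, Finset.card_range]
  have hAm : ∀ s ∈ A, ∃ i < n, s = x i := by
    intro s hs
    obtain ⟨i, hi, rfl⟩ := Finset.mem_image.1 hs
    exact ⟨i, Finset.mem_range.1 hi, rfl⟩
  have hval : ∀ i < n, |Z.eval (x i)| = 1 := by
    intro i hi
    rw [h.val i hi, abs_pow, abs_neg, abs_one, one_pow]
  have hcrit : ∀ s ∈ A, s ≠ -1 → s ≠ 1 → Z.derivative.eval s = 0 := by
    intro s hs hs1 hs2
    obtain ⟨i, hi, rfl⟩ := hAm s hs
    have := h.mem i hi
    exact contact_int h.bdd ⟨lt_of_le_of_ne this.1 (Ne.symm hs1), lt_of_le_of_ne this.2 hs2⟩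
      (hval i hi)
  have hyA : y ∉ A := by
    intro hyA
    obtain ⟨i, hi, hyi⟩ := hAm y hyA
    exact hnode i hi hyi
  have rolle : ∀ a b : ℝ, a < b → Z.eval a = Z.eval b → ∃ c ∈ Ioo a b, Z.derivative.eval c = 0 := by
    intro a b hab heq
    obtain ⟨c, hc, hc'⟩ := exists_hasDerivAt_eq_zero (f := fun t => Z.eval t)
      (f' := fun t => Z.derivative.eval t) hab Z.continuous.continuousOn heq
      (fun t _ => Z.hasDerivAt t)
    exact ⟨c, hc, hc'⟩
  have hx0 : ∀ i < n, x 0 ≤ x i := by
    intro i hi
    rcases Nat.eq_zero_or_pos i with h3 | h3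
    · rw [h3]
    · exact (ct_lt h h3 hi).le
  have hxn : ∀ i < n, x i ≤ x (n - 1) := by
    intro i hi
    rcases Nat.lt_or_ge i (n - 1) with h3 | h3
    · exact (ct_lt h h3 (by omega)).le
    · have : i = n - 1 := by omega
      rw [this]
  rcases eq_or_ne y 1 with hy1 | hy1
  · -- y = 1
    subst hy1
    have hlt : x (n - 1) < 1 := lt_of_le_of_ne (h.mem _ (by omega)).2
      (fun h3 => hnode (n - 1) (by omega) h3.symm)
    have hZ1 : Z.eval 1 = -1 := by
      rcases eq_or_eq_neg_of_abs_eq hZy with h3 | h3
      · exact absurd h3 (h1 rfl)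
      · exact h3
    have hZn : Z.eval (x (n - 1)) = -1 := by
      rw [h.val _ (by omega)]
      have : n - (n - 1) = 1 := by omega
      rw [this, pow_one]
    obtain ⟨c, hc, hc0⟩ := rolle _ _ hlt (by rw [hZ1, hZn])
    refine ct_count hn h (insert c (A.erase (-1))) ?_ ?_
    · intro s hs
      rcases Finset.mem_insert.1 hs with rfl | hs
      · exact hc0
      · have h3 := Finset.mem_erase.1 hs
        obtain ⟨i, hi, hsi⟩ := hAm s h3.2
        exact hcrit s h3.2 h3.1 (by
          rw [hsi]
          exact ((hxn i hi).trans_lt hlt).ne)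
    · have hcA : c ∉ A.erase (-1) := by
        intro h3
        obtain ⟨i, hi, hci⟩ := hAm c (Finset.mem_of_mem_erase h3)
        have := hxn i hi
        rw [← hci] at this
        linarith [hc.1]
      rw [Finset.card_insert_of_notMem hcA]
      have := Finset.pred_card_le_card_erase (s := A) (a := (-1 : ℝ))
      omega
  rcases eq_or_ne y (-1) with hym | hym
  · subst hym
    have hlt : -1 < x 0 := lt_of_le_of_ne (h.mem _ (by omega)).1
      (fun h3 => hnode 0 (by omega) h3)
    have hZ1 : Z.eval (-1) = Z.eval (x 0) := by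
      rw [h.val 0 (by omega)]
      have h3 := h2 rfl
      have h4 : |Z.eval (-1)| = 1 := hZy
      rw [pow_succ] at h3
      rcases neg_one_pow_eq_or ℝ n with h5 | h5
      · rw [Nat.sub_zero, h5]
        rw [h5] at h3
        rcases eq_or_eq_neg_of_abs_eq h4 with h6 | h6
        · exact h6
        · exact absurd h6 (by simpa using h3)
      · rw [Nat.sub_zero, h5]
        rw [h5] at h3
        rcases eq_or_eq_neg_of_abs_eq h4 with h6 | h6
        · exact absurd h6 (by simpa using h3)
        · exact h6
    obtain ⟨c, hc, hc0⟩ := rolle _ _ hlt hZ1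
    refine ct_count hn h (insert c (A.erase 1)) ?_ ?_
    · intro s hs
      rcases Finset.mem_insert.1 hs with rfl | hs
      · exact hc0
      · have h3 := Finset.mem_erase.1 hs
        obtain ⟨i, hi, hsi⟩ := hAm s h3.2
        exact hcrit s h3.2 (by
          rw [hsi]
          exact (hlt.trans_le (hx0 i hi)).ne') h3.1
    · have hcA : c ∉ A.erase 1 := by
        intro h3
        obtain ⟨i, hi, hci⟩ := hAm c (Finset.mem_of_mem_erase h3)
        have := hx0 i hi
        rw [← hci] at this
        linarith [hc.2]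
      rw [Finset.card_insert_of_notMem hcA]
      have := Finset.pred_card_le_card_erase (s := A) (a := (1 : ℝ))
      omega
  have hyI : y ∈ Ioo (-1 : ℝ) 1 := ⟨lt_of_le_of_ne hy.1 (Ne.symm hym), lt_of_le_of_ne hy.2 hy1⟩
  have hy0 := contact_int h.bdd hyI hZy
  rcases lt_or_ge y (x 0) with hyx | hyx
  · refine ct_count hn h (insert y (A.erase 1)) ?_ ?_
    · intro s hs
      rcases Finset.mem_insert.1 hs with rfl | hs
      · exact hy0
      · have h3 := Finset.mem_erase.1 hs
        obtain ⟨i, hi, hsi⟩ := hAm s h3.2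
        exact hcrit s h3.2 (by
          rw [hsi]
          have := hx0 i hi
          have := hyI.1
          linarith) h3.1
    · have hcA : y ∉ A.erase 1 := fun h3 => hyA (Finset.mem_of_mem_erase h3)
      rw [Finset.card_insert_of_notMem hcA]
      have := Finset.pred_card_le_card_erase (s := A) (a := (1 : ℝ))
      omega
  rcases lt_or_ge (x (n - 1)) y with hyn | hyn
  · refine ct_count hn h (insert y (A.erase (-1))) ?_ ?_
    · intro s hs
      rcases Finset.mem_insert.1 hs with rfl | hs
      · exact hy0
      · have h3 := Finset.mem_erase.1 hs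
        obtain ⟨i, hi, hsi⟩ := hAm s h3.2
        exact hcrit s h3.2 h3.1 (by
          rw [hsi]
          have := hxn i hi
          have := hyI.2
          linarith)
    · have hcA : y ∉ A.erase (-1) := fun h3 => hyA (Finset.mem_of_mem_erase h3)
      rw [Finset.card_insert_of_notMem hcA]
      have := Finset.pred_card_le_card_erase (s := A) (a := (-1 : ℝ))
      omega
  -- y between two nodes
  obtain ⟨i, hi, hi1, hi2⟩ : ∃ i, i + 1 < n ∧ x i < y ∧ y < x (i + 1) := by
    by_contra hcon
    push Not at hcon
    have : ∀ i, i < n → x i < y := by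
      intro i
      induction i with
      | zero => intro hi; exact lt_of_le_of_ne hyx (fun h3 => hnode 0 hi h3.symm)
      | succ i ih =>
        intro hi
        have h3 := hcon i hi (ih (by omega))
        exact lt_of_le_of_ne h3 (fun h4 => hnode (i + 1) hi h4.symm)
    exact absurd (this (n - 1) (by omega)) (not_lt.2 hyn)
  have hZi : Z.eval (x i) = -Z.eval (x (i + 1)) := by
    rw [h.val i (by omega), h.val (i + 1) hi]
    have : n - i = (n - (i + 1)) + 1 := by omega
    rw [this, pow_succ]
    ring
  obtain ⟨c, hc1, hc2, hcy, hc0⟩ : ∃ c, x i < c ∧ c < x (i + 1) ∧ c ≠ y ∧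
      Z.derivative.eval c = 0 := by
    have hval1 := hval (i + 1) hi
    by_cases heq : Z.eval y = Z.eval (x (i + 1))
    · obtain ⟨c, hc, hc0⟩ := rolle _ _ hi2 heq
      exact ⟨c, hi1.trans hc.1, hc.2, hc.1.ne', hc0⟩
    · have heq2 : Z.eval (x i) = Z.eval y := by
        rw [hZi]
        rcases eq_or_eq_neg_of_abs_eq hval1 with h3 | h3 <;>
        rcases eq_or_eq_neg_of_abs_eq hZy with h4 | h4
        · exact absurd (by rw [h3, h4]) heq
        · rw [h3, h4]
        · rw [h3, h4]; norm_num
        · exact absurd (by rw [h3, h4]) heq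
      obtain ⟨c, hc, hc0⟩ := rolle _ _ hi1 heq2
      exact ⟨c, hc.1, hc.2.trans hi2, hc.2.ne, hc0⟩
  have hcA : c ∉ A := by
    intro h3
    obtain ⟨j, hj, hcj⟩ := hAm c h3
    rcases Nat.lt_or_ge i j with h4 | h4
    · rcases Nat.lt_or_ge (i + 1) j with h5 | h5
      · have := ct_lt h h5 hj
        linarith
      · have : j = i + 1 := by omega
        rw [this] at hcj
        linarith
    · rcases Nat.lt_or_ge j i with h5 | h5
      · have := ct_lt h h5 (by omega)
        linarith
      · have : j = i := by omega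
        rw [this] at hcj
        linarith
  refine ct_count hn h (insert c (insert y ((A.erase 1).erase (-1)))) ?_ ?_
  · intro s hs
    rcases Finset.mem_insert.1 hs with rfl | hs
    · exact hc0
    rcases Finset.mem_insert.1 hs with rfl | hs
    · exact hy0
    · have h3 := Finset.mem_erase.1 hs
      have h4 := Finset.mem_erase.1 h3.2
      exact hcrit s h4.2 h3.1 h4.1
  · have h5 : y ∉ (A.erase 1).erase (-1) :=
      fun h3 => hyA (Finset.mem_of_mem_erase (Finset.mem_of_mem_erase h3))
    have h6 : c ∉ insert y ((A.erase 1).erase (-1)) := by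
      intro h3
      rcases Finset.mem_insert.1 h3 with h7 | h7
      · exact hcy h7
      · exact hcA (Finset.mem_of_mem_erase (Finset.mem_of_mem_erase h7))
    rw [Finset.card_insert_of_notMem h6, Finset.card_insert_of_notMem h5]
    have e1 := Finset.pred_card_le_card_erase (s := A) (a := (1 : ℝ))
    have e2 := Finset.pred_card_le_card_erase (s := A.erase 1) (a := (-1 : ℝ))
    omega

end

end Pool.Agent.Helper40.TV
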