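import Pool.Agent.Helper40.TV.St1

/-!
Derivative of the members of the family in the parameter.
-/

set_option autoImplicit false

namespace Pool.Agent.Helper40.TV

open Polynomial Set Real Filter Topology
open Pool.Agent.Helper40.AS (Bdd)

/-- the difference quotient is a node polynomial with intermediate nodes -/
theorem dkk_node (hEx : Ex) (hCp : Cp) {n : ℕ} (hn : 3 ≤ n) {κ k : ℝ}
    (hκ : κ ∈ Icc (-1 : ℝ) 1) (hk : k ∈ Icc (-1 : ℝ) 1) (hne : k ≠ κ) :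
    ∃ ζ : ℕ → ℝ, (∀ i < n, |ζ i - xc n κ i| ≤ |xc n k i - xc n κ i|) ∧
      Zc n k - Zc n κ = C ((k - κ) * 2 ^ (n - 1)) * om n ζ := by
  have hM : Mem n κ (Zc n κ) (xc n κ) := mem_c (hEx n κ hn hκ)
  have hM' : Mem n k (Zc n k) (xc n k) := mem_c (hEx n k hn hk)
  rcases lt_or_gt_of_ne hne with h | h
  · obtain ⟨⟨ζ, hζ, hE⟩, -⟩ := hCp n κ k _ _ _ _ hn h hM hM'
    refine ⟨ζ, fun i hi => ?_, ?_⟩
    · obtain ⟨h1, h2⟩ := hζ i hi
      rw [abs_of_nonneg (by linarith), abs_of_nonneg (by linarith)]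
      linarith
    · have e1 : C ((k - κ) * 2 ^ (n - 1)) = -C ((κ - k) * 2 ^ (n - 1)) := by
        rw [← C_neg]
        congr 1
        ring
      rw [e1, neg_mul, ← hE]
      ring
  · obtain ⟨⟨ζ, hζ, hE⟩, -⟩ := hCp n k κ _ _ _ _ hn h hM' hM
    refine ⟨ζ, fun i hi => ?_, hE⟩
    obtain ⟨h1, h2⟩ := hζ i hi
    rw [abs_of_nonpos (by linarith), abs_of_nonpos (by linarith)]
    linarith

theorem dkk (hEx : Ex) (_hUn : Un) (hCp : Cp) (hNk : Nk) : Dk := by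
  intro n κ y hn hκ
  have hκ' : κ ∈ Icc (-1 : ℝ) 1 := ⟨hκ.1.le, hκ.2.le⟩
  have hex : ∀ k : ℝ, ∃ ζ : ℕ → ℝ, (k ∈ Icc (-1 : ℝ) 1 → k ≠ κ →
      (∀ i < n, |ζ i - xc n κ i| ≤ |xc n k i - xc n κ i|) ∧
      Zc n k - Zc n κ = C ((k - κ) * 2 ^ (n - 1)) * om n ζ) := by
    intro k
    by_cases h : k ∈ Icc (-1 : ℝ) 1 ∧ k ≠ κ
    · obtain ⟨ζ, hζ⟩ := dkk_node hEx hCp hn hκ' h.1 h.2
      exact ⟨ζ, fun _ _ => hζ⟩
    · exact ⟨0, fun h1 h2 => absurd ⟨h1, h2⟩ h⟩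
  choose ζ hζ using hex
  have hnb : Ioo (-1 : ℝ) 1 ∈ 𝓝 κ := Ioo_mem_nhds hκ.1 hκ.2
  have hev : ∀ᶠ k in 𝓝[≠] κ, k ∈ Icc (-1 : ℝ) 1 ∧ k ≠ κ := by
    have h1 : ∀ᶠ k in 𝓝[≠] κ, k ∈ Ioo (-1 : ℝ) 1 :=
      (nhdsWithin_le_nhds : 𝓝[≠] κ ≤ 𝓝 κ) hnb
    have h2 : ∀ᶠ k in 𝓝[≠] κ, k ≠ κ := self_mem_nhdsWithin
    filter_upwards [h1, h2] with k hk1 hk2
    exact ⟨⟨hk1.1.le, hk1.2.le⟩, hk2⟩
  have hlim : ∀ i < n, Tendsto (fun k => ζ k i) (𝓝[≠] κ) (𝓝 (xc n κ i)) := by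
    intro i hi
    have hc : ContinuousAt (fun k => xc n k i) κ :=
      (hNk n hn i hi).continuousAt (mem_of_superset hnb Ioo_subset_Icc_self)
    have hc1 : Tendsto (fun k => |xc n k i - xc n κ i|) (𝓝[≠] κ) (𝓝 0) := by
      have h1 : Tendsto (fun k => xc n k i - xc n κ i) (𝓝[≠] κ) (𝓝 (xc n κ i - xc n κ i)) :=
        (hc.tendsto.mono_left nhdsWithin_le_nhds).sub_const _
      rw [sub_self] at h1
      have h2 := h1.abs
      rwa [abs_zero] at h2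
    have hc2 : Tendsto (fun k => ζ k i - xc n κ i) (𝓝[≠] κ) (𝓝 0) := by
      refine squeeze_zero_norm' ?_ hc1
      filter_upwards [hev] with k hk
      rw [Real.norm_eq_abs]
      exact (hζ k hk.1 hk.2).1 i hi
    have hc3 := hc2.add_const (xc n κ i)
    simpa using hc3
  rw [hasDerivAt_iff_tendsto_slope]
  have hmain : Tendsto (fun k => 2 ^ (n - 1) * (om n (ζ k)).eval y) (𝓝[≠] κ)
      (𝓝 (2 ^ (n - 1) * (om n (xc n κ)).eval y)) := by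
    refine Tendsto.const_mul _ ?_
    unfold om
    simp only [eval_prod, eval_sub, eval_X, eval_C]
    exact tendsto_finsetProd _ fun i hi =>
      tendsto_const_nhds.sub (hlim i (Finset.mem_range.1 hi))
  refine hmain.congr' ?_
  filter_upwards [hev] with k hk
  have hE := (hζ k hk.1 hk.2).2
  have h1 : (Zc n k).eval y - (Zc n κ).eval y = (k - κ) * 2 ^ (n - 1) * (om n (ζ k)).eval y := by
    rw [← eval_sub, hE, eval_mul, eval_C]
  rw [slope_def_field, h1]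
  have h2 : k - κ ≠ 0 := sub_ne_zero.2 hk.2
  field_simp

end Pool.Agent.Helper40.TV
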