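import Pool.Agent.Helper40.TV.St1
import Pool.Agent.Helper40.TV.St3

set_option autoImplicit false

namespace Pool.Agent.Helper40.TV

open Polynomial Set Real
open Pool.Agent.Helper40.AS (Bdd)

noncomputable section

lemma ed_sin {x a b : ℝ} (ha : 0 ≤ a) (hb : 0 ≤ b) (hx : a ≤ x) (hx' : x ≤ π - b) :
    2 / π * min a b ≤ sin x := by
  have hp : 0 ≤ 2 / π := by positivity
  rcases le_total x (π / 2) with h | h
  · have h1 := mul_le_sin (ha.trans hx) h
    exact (mul_le_mul_of_nonneg_left ((min_le_left a b).trans hx) hp).trans h1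
  · have h1 := mul_le_sin (x := π - x) (by linarith) (by linarith)
    rw [sin_pi_sub] at h1
    exact (mul_le_mul_of_nonneg_left ((min_le_right a b).trans (by linarith)) hp).trans h1

/-- comparison with a stretched Chebyshev polynomial -/
lemma ed_tool (hLa : La) (hSs : Ss) {n : ℕ} (hn : 4 ≤ n) {Q : ℝ[X]} {t s y : ℝ}
    (hd : Q.natDegree ≤ n) (hb : Bdd Q) (ht : 0 < t) (hnt : n * t ≤ π) (hs : 0 ≤ s) (hst : s ≤ t)
    (hQ : Q.derivative.eval (cos t) = 0) (hy : 0 ≤ y)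
    (hy2 : y ^ 2 ≤ π ^ 2 - (n * t) ^ 2 - 11 / (n : ℝ) ^ 2) :
    |Q.eval (cos s) - Q.eval (cos t)| ≤ 1 + cos y := by
  have hn4 : (4 : ℝ) ≤ n := by exact_mod_cast hn
  have hn0 : (0 : ℝ) < n := by linarith
  have hpi := pi_pos
  have hpi4 : π < 3.15 := pi_lt_d2
  have htn : t ≤ π / n := by rw [le_div_iff₀ hn0]; linarith
  have hpn : π / n ≤ π / 4 := by
    apply div_le_div_of_nonneg_left hpi.le (by norm_num) hn4
  have hpn0 : 0 < π / n := by positivity
  have hcc : cos (π / n) ≤ cos t := cos_le_cos_of_nonneg_of_le_pi ht.le (by linarith) htn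
  have hcp : 0 < cos (π / n) := cos_pos_of_mem_Ioo ⟨by linarith, by linarith⟩
  have hct : 0 < cos t := hcp.trans_le hcc
  have hct1 : cos t < 1 := by
    rw [← cos_zero]
    exact cos_lt_cos_of_nonneg_of_le_pi le_rfl (by linarith) ht
  obtain ⟨l, hl⟩ : ∃ l, l = (1 + cos (π / n)) / (1 + cos t) := ⟨_, rfl⟩
  have hlm : l * (1 + cos t) = 1 + cos (π / n) := by
    rw [hl]; field_simp
  have hl0 : 0 < l := by rw [hl]; positivity
  have hl1 : l ≤ 1 := by
    rw [hl, div_le_one (by linarith)]; linarith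
  have hl2 : (1 + cos (π / n)) / 2 ≤ l := by
    rw [hl]
    apply div_le_div_of_nonneg_left (by linarith) (by linarith) (by linarith)
  have hM := hSs n l (by omega) hl2 hl1
  have hcast : ((n : ℝ) - ((n - 1 : ℕ) : ℝ)) = 1 := by
    rw [Nat.cast_sub (by omega)]; simp
  have hx : (fun i : ℕ => (1 + cos (((n : ℝ) - (i : ℝ)) * π / n)) / l - 1) (n - 1) = cos t := by
    change (1 + cos (((n : ℝ) - ((n - 1 : ℕ) : ℝ)) * π / n)) / l - 1 = cos t
    rw [hcast, one_mul, ← hlm]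
    field_simp
    ring
  obtain ⟨x, hxdef⟩ : ∃ x : ℕ → ℝ, x = fun i : ℕ =>
    (1 + cos (((n : ℝ) - (i : ℝ)) * π / n)) / l - 1 := ⟨_, rfl⟩
  rw [← hxdef] at hM hx
  have hlast : x (n - 1 - 1) < x (n - 1) := by
    have := hM.lt (n - 1 - 1) (by omega)
    have e : n - 1 - 1 + 1 = n - 1 := by omega
    rwa [e] at this
  have hm1 := hM.mem (n - 1) (by omega)
  have hm2 := hM.mem (n - 1 - 1) (by omega)
  have hcs : cos t ≤ cos s := cos_le_cos_of_nonneg_of_le_pi hs (by linarith) hst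
  have hL := hLa n (n - 1) (l ^ n) (cos s) 2 _ Q x (by omega) hM (by omega) (by omega)
    (by rw [hx]; exact ⟨by linarith, hct1⟩) hd hb (by rw [hx]; exact hQ)
    (by rw [hx] at hlast; linarith) (by omega) (cos_le_one s) (by norm_num)
    (by linarith [hm1.2, hm2.1]) (by linarith [cos_le_one s, hm2.1])
  rw [hM.val (n - 1) (by omega), hx] at hL
  have hloss : 0 ≤ (1 - rexp (-((cos s - cos t) ^ 2 / (2 * 2 ^ 2)))) * (1 - |Q.eval (cos t)|) := by
    apply mul_nonneg
    · have : rexp (-((cos s - cos t) ^ 2 / (2 * 2 ^ 2))) ≤ 1 := by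
        rw [exp_le_one_iff]
        have : 0 ≤ (cos s - cos t) ^ 2 / (2 * 2 ^ 2) := by positivity
        linarith
      linarith
    · have := hb (cos t) ⟨by linarith, hct1.le⟩
      linarith
  have hL2 : |Q.eval (cos s) - Q.eval (cos t)| ≤
      |((Polynomial.Chebyshev.T ℝ n).comp (C l * (X + 1) - 1)).eval (cos s) -
        (-1) ^ (n - (n - 1))| := by linarith
  have hev : ((Polynomial.Chebyshev.T ℝ n).comp (C l * (X + 1) - 1)).eval (cos s) =
      (Polynomial.Chebyshev.T ℝ n).eval (l * (cos s + 1) - 1) := by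
    simp [eval_comp]
  have hone : ((-1 : ℝ)) ^ (n - (n - 1)) = -1 := by
    have e : n - (n - 1) = 1 := by omega
    rw [e]; norm_num
  have hcs1 := cos_le_one s
  have hcs0 := neg_one_le_cos s
  obtain ⟨u, hu⟩ : ∃ u, u = l * (cos s + 1) - 1 := ⟨_, rfl⟩
  have hu0 : -1 ≤ u := by
    rw [hu]
    have : 0 ≤ l * (cos s + 1) := mul_nonneg hl0.le (by linarith)
    linarith
  have hu2 : 1 - l ≤ (1 - u) / 2 := by
    rw [hu]
    nlinarith only [mul_le_mul_of_nonneg_left hcs1 hl0.le]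
  have hu1 : u ≤ 1 := by linarith
  have hu3 : cos (π / n) ≤ u := by
    have h1 : l * (1 + cos t) ≤ l * (1 + cos s) :=
      mul_le_mul_of_nonneg_left (by linarith) hl0.le
    rw [hu]
    linarith
  obtain ⟨ψ, hψ⟩ : ∃ ψ, ψ = arccos u := ⟨_, rfl⟩
  have hcψ : cos ψ = u := by rw [hψ]; exact cos_arccos hu0 hu1
  have hψ0 : 0 ≤ ψ := by rw [hψ]; exact arccos_nonneg _
  have hψ1 : ψ ≤ π / n := by
    rw [hψ, ← arccos_cos hpn0.le (by linarith : π / (n : ℝ) ≤ π)]
    exact arccos_le_arccos hu3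
  have hnψ : n * ψ ≤ π := by
    rw [le_div_iff₀ hn0] at hψ1; linarith
  have hT : (Polynomial.Chebyshev.T ℝ n).eval (l * (cos s + 1) - 1) = cos (n * ψ) := by
    rw [← hu, ← hcψ]
    simp
  have hab : |cos (n * ψ) + 1| = cos (n * ψ) + 1 :=
    abs_of_nonneg (by linarith [neg_one_le_cos (n * ψ)])
  rw [hev, hT, hone, sub_neg_eq_add, hab] at hL2
  -- lower bound for the phase
  have h1l : (cos t - cos (π / n)) / 2 ≤ 1 - l := by
    have e : 1 - l = (cos t - cos (π / n)) / (1 + cos t) := by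
      rw [hl]; field_simp; ring
    rw [e]
    exact div_le_div_of_nonneg_left (by linarith) (by linarith) (by linarith)
  have hq1 := one_sub_sq_div_two_le_cos (x := ψ)
  have hq2 := one_sub_sq_div_two_le_cos (x := t)
  have hq3 : cos (π / n) ≤ 1 - (π / n) ^ 2 / 2 + (π / n) ^ 4 * (5 / 96) := by
    have habs : |π / (n : ℝ)| ≤ 1 := by
      rw [abs_of_pos hpn0]; linarith
    have := abs_le.1 (cos_bound habs)
    rw [abs_of_pos hpn0] at this
    linarith [this.2]
  have hψ2 : (π / n) ^ 2 - t ^ 2 - (π / n) ^ 4 * (5 / 48) ≤ ψ ^ 2 := by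
    rw [hcψ] at hq1
    linarith
  have hnψ2 : y ^ 2 ≤ (n * ψ) ^ 2 := by
    refine hy2.trans ?_
    have e1 : (n * ψ) ^ 2 = (n : ℝ) ^ 2 * ψ ^ 2 := by ring
    have e2 : (n : ℝ) ^ 2 * ((π / n) ^ 2 - t ^ 2 - (π / n) ^ 4 * (5 / 48)) =
        π ^ 2 - (n * t) ^ 2 - π ^ 4 * (5 / 48) / (n : ℝ) ^ 2 := by
      field_simp
    have e3 : π ^ 4 * (5 / 48) / (n : ℝ) ^ 2 ≤ 11 / (n : ℝ) ^ 2 := by
      apply div_le_div_of_nonneg_right _ (by positivity)
      have : π ^ 4 ≤ 3.15 ^ 4 := pow_le_pow_left₀ hpi.le hpi4.le 4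
      norm_num at this ⊢
      linarith
    rw [e1]
    refine le_trans ?_ (mul_le_mul_of_nonneg_left hψ2 (by positivity))
    rw [e2]
    linarith
  have hyψ : y ≤ n * ψ :=
    (pow_le_pow_iff_left₀ hy (by positivity) two_ne_zero).1 hnψ2
  have := cos_le_cos_of_nonneg_of_le_pi hy hnψ hyψ
  linarith

theorem ed (hV1 : V1) (hTy : Ty) (hB1 : B1) (hLa : La) (hSs : Ss) : Ed := by
  intro K d hK hd
  obtain ⟨hvc, hvm, hv0, hvp, hvk, -, -, -, -⟩ := hV1
  obtain ⟨M, hM, nB, hB⟩ := hB1 8 (by norm_num)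
  have hpi := pi_pos
  have hpi3 : 3.14 < π := pi_gt_d2
  have hpi4 : π < 3.15 := pi_lt_d2
  -- the constants
  obtain ⟨δ, hδdef⟩ : ∃ δ : ℝ, δ = min (1 / 16) (1 / (512 * M)) := ⟨_, rfl⟩
  have hδ : 0 < δ := by rw [hδdef]; positivity
  have hδ1 : δ ≤ 1 / 16 := by rw [hδdef]; exact min_le_left _ _
  have hδM : M * δ ≤ 1 / 512 := by
    have : δ ≤ 1 / (512 * M) := by rw [hδdef]; exact min_le_right _ _
    calc M * δ ≤ M * (1 / (512 * M)) := mul_le_mul_of_nonneg_left this hM.le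
      _ = 1 / 512 := by field_simp
  obtain ⟨ε, hεdef⟩ : ∃ ε : ℝ, ε = min 1 (1 / (128 * M)) := ⟨_, rfl⟩
  have hε : 0 < ε := by rw [hεdef]; positivity
  have hε1 : ε ≤ 1 := by rw [hεdef]; exact min_le_left _ _
  have hεM : M * ε ≤ 1 / 128 := by
    have : ε ≤ 1 / (128 * M) := by rw [hεdef]; exact min_le_right _ _
    calc M * ε ≤ M * (1 / (128 * M)) := mul_le_mul_of_nonneg_left this hM.le
      _ = 1 / 128 := by field_simp
  obtain ⟨c1, hc1def⟩ : ∃ c1 : ℝ, c1 = δ / 64 := ⟨_, rfl⟩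
  have hc1 : 0 < c1 := by rw [hc1def]; positivity
  obtain ⟨c2, hc2def⟩ : ∃ c2 : ℝ, c2 = min 1 (d * c1 / 8) := ⟨_, rfl⟩
  have hc2 : 0 < c2 := by rw [hc2def]; positivity
  have hc21 : c2 ≤ 1 := by rw [hc2def]; exact min_le_left _ _
  have hc2d : c2 ≤ d * c1 / 8 := by rw [hc2def]; exact min_le_right _ _
  have hvc1 : 0 < vv c1 := by rw [← hv0]; exact hvm hc1
  obtain ⟨cA, hcAdef⟩ : ∃ cA : ℝ, cA = 2 * ((2 / π * min c1 (d / 2)) * (2 / π * (c2 / 2))) :=
    ⟨_, rfl⟩
  have hcA : 0 < cA := by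
    rw [hcAdef]
    have : 0 < min c1 (d / 2) := lt_min hc1 (by positivity)
    positivity
  obtain ⟨q, hqdef⟩ : ∃ q : ℝ, q = min (d * c1 / 11) (δ / 200) := ⟨_, rfl⟩
  have hq : 0 < q := by rw [hqdef]; positivity
  have hq1 : q ≤ d * c1 / 11 := by rw [hqdef]; exact min_le_left _ _
  have hq2 : q ≤ δ / 200 := by rw [hqdef]; exact min_le_right _ _
  obtain ⟨n1, hn1⟩ := exists_nat_gt (1 / q)
  refine ⟨ε, min (vv c1) (min (δ / 16) cA), d / 2, hε, lt_min hvc1 (lt_min (by positivity) hcA),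
    by positivity, max nB (max n1 4), ?_⟩
  intro n hn P t s hdeg hbd hdt htK hP1 hP2 hs hse
  have hnB : nB ≤ n := (le_max_left _ _).trans hn
  have hnn1 : n1 ≤ n := ((le_max_left _ _).trans (le_max_right _ _)).trans hn
  have hn4 : 4 ≤ n := ((le_max_right _ _).trans (le_max_right _ _)).trans hn
  have hn4r : (4 : ℝ) ≤ n := by exact_mod_cast hn4
  have hn0 : (0 : ℝ) < n := by linarith
  have hnq : 1 / (n : ℝ) ^ 2 ≤ q := by
    have h1 : 1 / q < n := hn1.trans_le (by exact_mod_cast hnn1)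
    have h2 : (n : ℝ) ≤ (n : ℝ) ^ 2 := by nlinarith only [hn4r]
    have h3 : 1 < q * n := by
      rw [div_lt_iff₀ hq] at h1; linarith
    rw [div_le_iff₀ (by positivity)]
    nlinarith only [h3, h2, hq, mul_le_mul_of_nonneg_left h2 hq.le]
  have ht0 : 0 < t := by
    by_contra hcon
    have : (n : ℝ) * t ≤ 0 := mul_nonpos_of_nonneg_of_nonpos hn0.le (not_lt.1 hcon)
    linarith
  have hst : s ≤ t := by
    have : (n : ℝ) * s ≤ n * t := by linarith
    exact le_of_mul_le_mul_left this hn0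
  have hbP : ∀ z : ℝ, |P.eval (cos z)| ≤ 1 := fun z =>
    hbd (cos z) ⟨neg_one_le_cos z, cos_le_one z⟩
  by_cases hC : π + c1 ≤ n * t
  · -- case C
    have h1 : vv (c1 + π) ≤ vv (n * t) := hvm.monotone (by linarith)
    rw [hvp] at h1
    have h2 : |P.eval (cos s) - P.eval (cos t)| ≤ 2 := by
      have := abs_sub (P.eval (cos s)) (P.eval (cos t))
      linarith [hbP s, hbP t]
    have h3 : min (vv c1) (min (δ / 16) cA) ≤ vv c1 := min_le_left _ _
    linarith
  have hc1δ : c1 ≤ 1 / 1000 := by rw [hc1def]; linarith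
  by_cases hA : n * t ≤ π - c1
  · -- case A
    have hYk : vv (n * t) = 1 - cos (n * t) := by
      have := hvk 0 (n * t) (by simp; positivity) (by simp; linarith)
      simpa using this
    have hprod : d * c1 ≤ (n * t) * (π - n * t) :=
      mul_le_mul hdt (by linarith) hc1.le (by positivity)
    have h11 : 11 / (n : ℝ) ^ 2 ≤ d * c1 := by
      have : 11 / (n : ℝ) ^ 2 = 11 * (1 / (n : ℝ) ^ 2) := by ring
      rw [this]; linarith
    have hy2 : (π - n * t + c2) ^ 2 ≤ π ^ 2 - (n * t) ^ 2 - 11 / (n : ℝ) ^ 2 := by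
      have e1 : (π - n * t + c2) ^ 2 = π ^ 2 - (n * t) ^ 2 - 2 * ((n * t) * (π - n * t)) +
          2 * (π - n * t) * c2 + c2 * c2 := by ring
      have e2 : (π - n * t) * c2 ≤ π * c2 :=
        mul_le_mul_of_nonneg_right (by linarith) hc2.le
      have e3 : c2 * c2 ≤ 1 * c2 := mul_le_mul_of_nonneg_right hc21 hc2.le
      have e4 : π * c2 ≤ 3.15 * c2 := mul_le_mul_of_nonneg_right hpi4.le hc2.le
      rw [e1]
      nlinarith only [e2, e3, e4, hprod, h11, hc2d, hc2]
    have hT := ed_tool hLa hSs hn4 hdeg hbd ht0 (by linarith) hs hst hP1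
      (y := π - n * t + c2) (by linarith) hy2
    have hcos : cos (π - n * t + c2) ≤ cos (π - n * t) - cA := by
      have h1 := cos_sub_cos (π - n * t) (π - n * t + c2)
      have e1 : (π - n * t + (π - n * t + c2)) / 2 = π - n * t + c2 / 2 := by ring
      have e2 : (π - n * t - (π - n * t + c2)) / 2 = -(c2 / 2) := by ring
      rw [e1, e2, sin_neg] at h1
      have hdd : d ≤ 4 := by linarith
      have hc2d' : c2 ≤ d := by
        have : d * c1 ≤ d * 1 := mul_le_mul_of_nonneg_left (by linarith) hd.le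
        linarith
      have s1 : 2 / π * min c1 (d / 2) ≤ sin (π - n * t + c2 / 2) :=
        ed_sin hc1.le (by positivity) (by linarith) (by linarith)
      have s2 : 2 / π * (c2 / 2) ≤ sin (c2 / 2) := mul_le_sin (by positivity) (by linarith)
      have s3 : (2 / π * min c1 (d / 2)) * (2 / π * (c2 / 2)) ≤
          sin (π - n * t + c2 / 2) * sin (c2 / 2) :=
        mul_le_mul s1 s2 (by positivity) (le_trans (by
          have : 0 ≤ min c1 (d / 2) := le_min hc1.le (by positivity)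
          positivity) s1)
      rw [hcAdef]
      linarith
    rw [cos_pi_sub] at hcos
    rw [hYk]
    have h3 : min (vv c1) (min (δ / 16) cA) ≤ cA := (min_le_right _ _).trans (min_le_right _ _)
    linarith
  · -- case B
    rw [not_le] at hC hA
    have hd4 : d ≤ 4 := by linarith
    have hnt4 : (n : ℝ) * t ≤ 4 := by linarith
    have hnt3 : 3 ≤ (n : ℝ) * t := by linarith
    have ht1 : t ≤ 1 := by
      have : (n : ℝ) * t ≤ n * 1 := by linarith
      exact le_of_mul_le_mul_left this hn0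
    have hn2 : (0 : ℝ) < (n : ℝ) ^ 2 := by positivity
    have hqn : 200 / (n : ℝ) ^ 2 ≤ δ := by
      have : 200 / (n : ℝ) ^ 2 = 200 * (1 / (n : ℝ) ^ 2) := by ring
      rw [this]; linarith
    have ct_lo : 1 - t ^ 2 / 2 ≤ cos t := one_sub_sq_div_two_le_cos
    have ct_hi : ∀ z : ℝ, 0 ≤ z → z ≤ 1 → cos z ≤ 1 - z ^ 2 / 2 + z ^ 4 * (5 / 96) := by
      intro z h0 h1
      have habs : |z| ≤ 1 := by rw [abs_of_nonneg h0]; exact h1
      have := abs_le.1 (cos_bound habs)
      rw [abs_of_nonneg h0] at this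
      linarith [this.2]
    -- fourth powers are small
    have h4 : ∀ z : ℝ, 0 ≤ z → n * z ≤ 4 → (n : ℝ) ^ 2 * (z ^ 4 * (5 / 96)) ≤ δ / 14 := by
      intro z h0 h1
      have e1 : (n : ℝ) ^ 2 * (z ^ 4 * (5 / 96)) = (n * z) ^ 4 * (5 / 96) / (n : ℝ) ^ 2 := by
        field_simp
      have e2 : (n * z) ^ 4 ≤ 4 ^ 4 := pow_le_pow_left₀ (by positivity) h1 4
      have e3 : (n * z) ^ 4 * (5 / 96) / (n : ℝ) ^ 2 ≤ (14 : ℝ) / (n : ℝ) ^ 2 := by
        apply div_le_div_of_nonneg_right _ hn2.le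
        norm_num at e2 ⊢
        linarith
      have e4 : (14 : ℝ) / (n : ℝ) ^ 2 = (14 / 200) * (200 / (n : ℝ) ^ 2) := by ring
      rw [e1]
      refine e3.trans ?_
      rw [e4]
      have := mul_le_mul_of_nonneg_left hqn (by norm_num : (0 : ℝ) ≤ 14 / 200)
      linarith
    have hct := ct_hi t ht0.le ht1
    have hct4 := h4 t ht0.le hnt4
    -- the point u
    obtain ⟨u, hu⟩ : ∃ u, u = cos t + δ / (n : ℝ) ^ 2 := ⟨_, rfl⟩
    have hun : (n : ℝ) ^ 2 * u = (n : ℝ) ^ 2 * cos t + δ := by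
      rw [hu]; field_simp
    have hnct_lo : (n : ℝ) ^ 2 * (1 - cos t) ≤ (n * t) ^ 2 / 2 := by
      have := mul_le_mul_of_nonneg_left ct_lo hn2.le
      nlinarith only [this]
    have hnct_hi : (n * t) ^ 2 / 2 - δ / 14 ≤ (n : ℝ) ^ 2 * (1 - cos t) := by
      have := mul_le_mul_of_nonneg_left hct hn2.le
      nlinarith only [this, hct4]
    have hsq9 : 9 ≤ (n * t) ^ 2 := by nlinarith only [hnt3]
    have hu1 : (n : ℝ) ^ 2 * (1 - u) ≤ 8 := by
      have : (n * t) ^ 2 ≤ 16 := by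
        have := pow_le_pow_left₀ (by positivity) hnt4 2
        norm_num at this ⊢
        exact this
      nlinarith only [this, hun, hnct_lo, hδ]
    have hu2 : 4 ≤ (n : ℝ) ^ 2 * (1 - u) := by
      nlinarith only [hsq9, hun, hnct_hi, hδ1, hδ]
    have hul1 : u < 1 := by
      by_contra hcon
      have : (n : ℝ) ^ 2 * (1 - u) ≤ 0 :=
        mul_nonpos_of_nonneg_of_nonpos hn2.le (by linarith [not_lt.1 hcon])
      linarith
    have hutc : cos t < u := by
      rw [hu]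
      have : 0 < δ / (n : ℝ) ^ 2 := by positivity
      linarith
    have hul0 : -1 ≤ u := (neg_one_le_cos t).trans hutc.le
    have hux : u - cos t = δ / (n : ℝ) ^ 2 := by rw [hu]; ring
    obtain ⟨T1, T2, T3, T4, T5⟩ := hTy n P (by omega) hdeg hbd
    have hmt : cos t ∈ Icc (-1 : ℝ) 1 := ⟨neg_one_le_cos t, cos_le_one t⟩
    have hmu : u ∈ Icc (-1 : ℝ) 1 := ⟨hul0, hul1.le⟩
    -- derivative at u
    have hP1u : |P.derivative.eval u| ≤ (ε * δ + 4 * δ ^ 2) * (n : ℝ) ^ 2 := by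
      have h1 := T4 (cos t) hmt u hmu
      rw [hP1, sub_zero, hux] at h1
      have h2 : |P.derivative.derivative.eval (cos t) * (δ / (n : ℝ) ^ 2)| ≤
          ε * (n : ℝ) ^ 4 * (δ / (n : ℝ) ^ 2) := by
        rw [abs_mul, abs_of_pos (by positivity : 0 < δ / (n : ℝ) ^ 2)]
        exact mul_le_mul_of_nonneg_right hP2 (by positivity)
      have h3 : ε * (n : ℝ) ^ 4 * (δ / (n : ℝ) ^ 2) + 4 * (n : ℝ) ^ 6 * (δ / (n : ℝ) ^ 2) ^ 2 =
          (ε * δ + 4 * δ ^ 2) * (n : ℝ) ^ 2 := by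
        field_simp
      have h4' := abs_sub_abs_le_abs_sub (P.derivative.eval u)
        (P.derivative.derivative.eval (cos t) * (δ / (n : ℝ) ^ 2))
      linarith
    obtain ⟨Q, hQd, hQb, hQu, hQP⟩ := hB n hnB u (ε * δ + 4 * δ ^ 2) P hmu hu1 hdeg hbd
      (by positivity) hP1u
    -- the angle of u
    obtain ⟨t1, ht1def⟩ : ∃ t1, t1 = arccos u := ⟨_, rfl⟩
    have hct1 : cos t1 = u := by rw [ht1def]; exact cos_arccos hul0 hul1.le
    have ht10 : 0 < t1 := by rw [ht1def]; exact arccos_pos.2 hul1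
    have ht1t : t1 ≤ t := by
      rw [ht1def, ← arccos_cos ht0.le (by linarith : t ≤ π)]
      exact arccos_le_arccos hutc.le
    have hnt1 : (n : ℝ) * t1 ≤ 4 := le_trans (mul_le_mul_of_nonneg_left ht1t hn0.le) hnt4
    have h5 := ct_hi t1 ht10.le (by linarith)
    have h6 := h4 t1 ht10.le hnt1
    have h7 : (n * t1) ^ 2 ≤ π ^ 2 - 3 / 2 * δ := by
      rw [hct1] at h5
      have h8 := mul_le_mul_of_nonneg_left h5 hn2.le
      have h9 : (n * t) ^ 2 ≤ (π + c1) ^ 2 := pow_le_pow_left₀ (by positivity) hC.le 2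
      have h10 : (π + c1) ^ 2 ≤ π ^ 2 + 8 * c1 := by
        nlinarith only [hc1, hc1δ, hpi4, mul_le_mul_of_nonneg_right hpi4.le hc1.le,
          mul_le_mul_of_nonneg_right hc1δ hc1.le]
      have h11 : 8 * c1 = δ / 8 := by rw [hc1def]; ring
      nlinarith only [h8, h9, h10, h11, hun, hnct_lo, h6, hδ]
    have hnt1π : (n : ℝ) * t1 ≤ π := by
      have : (n * t1) ^ 2 ≤ π ^ 2 := by linarith
      exact (pow_le_pow_iff_left₀ (by positivity) hpi.le two_ne_zero).1 this
    have hst1 : s ≤ t1 := by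
      by_contra hcon
      rw [not_le] at hcon
      have hns : n * s ≤ 2 := by linarith
      have h8 : (n : ℝ) ^ 2 * (1 - cos t1) ≤ (n * t1) ^ 2 / 2 := by
        have := mul_le_mul_of_nonneg_left (one_sub_sq_div_two_le_cos (x := t1)) hn2.le
        nlinarith only [this]
      rw [hct1] at h8
      have h9 : n * t1 ≤ 2 := (mul_le_mul_of_nonneg_left hcon.le hn0.le).trans hns
      have h10 : (n * t1) ^ 2 ≤ 2 ^ 2 := pow_le_pow_left₀ (by positivity) h9 2
      linarith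
    have hsq : (√δ) ^ 2 = δ := sq_sqrt hδ.le
    have hTo := ed_tool hLa hSs hn4 hQd hQb ht10 hnt1π hs hst1 (by rw [hct1]; exact hQu)
      (sqrt_nonneg δ) (by
        rw [hsq]
        have : 11 / (n : ℝ) ^ 2 = (11 / 200) * (200 / (n : ℝ) ^ 2) := by ring
        rw [this]
        linarith)
    have hsq1 : √δ ≤ 1 := sqrt_le_iff.mpr ⟨zero_le_one, by linarith⟩
    have hcδ : cos (√δ) ≤ 1 - δ / 4 := by
      have h8 := ct_hi (√δ) (sqrt_nonneg _) hsq1
      have h9 : (√δ) ^ 4 = δ ^ 2 := by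
        calc (√δ) ^ 4 = ((√δ) ^ 2) ^ 2 := by ring
          _ = δ ^ 2 := by rw [hsq]
      rw [hsq, h9] at h8
      nlinarith only [h8, hδ, hδ1]
    rw [hct1] at hTo
    have hd1 := (hQP (cos s) ⟨neg_one_le_cos s, cos_le_one s⟩).1
    have hd2 := (hQP u hmu).1
    have hd3 : |P.eval u - P.eval (cos t)| ≤ ε * δ ^ 2 / 2 + 2 * δ ^ 3 := by
      have h1 := T5 (cos t) hmt u hmu
      rw [hP1, zero_mul, sub_zero, hux, abs_of_pos (by positivity : 0 < δ / (n : ℝ) ^ 2)] at h1
      have h2 : |P.derivative.derivative.eval (cos t) * (δ / (n : ℝ) ^ 2) ^ 2 / 2| ≤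
          ε * (n : ℝ) ^ 4 * (δ / (n : ℝ) ^ 2) ^ 2 / 2 := by
        rw [abs_div, abs_mul, abs_of_pos (by positivity : 0 < (δ / (n : ℝ) ^ 2) ^ 2),
          abs_of_pos (by norm_num : (0 : ℝ) < 2)]
        exact div_le_div_of_nonneg_right (mul_le_mul_of_nonneg_right hP2 (by positivity))
          (by norm_num)
      have h3 : ε * (n : ℝ) ^ 4 * (δ / (n : ℝ) ^ 2) ^ 2 / 2 +
          2 * (n : ℝ) ^ 6 * (δ / (n : ℝ) ^ 2) ^ 3 = ε * δ ^ 2 / 2 + 2 * δ ^ 3 := by
        field_simp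
      have h4' := abs_sub_abs_le_abs_sub (P.eval u - P.eval (cos t))
        (P.derivative.derivative.eval (cos t) * (δ / (n : ℝ) ^ 2) ^ 2 / 2)
      linarith
    have htri : |P.eval (cos s) - P.eval (cos t)| ≤ |Q.eval (cos s) - P.eval (cos s)| +
        |Q.eval (cos s) - Q.eval u| + |Q.eval u - P.eval u| + |P.eval u - P.eval (cos t)| := by
      have e : P.eval (cos s) - P.eval (cos t) = -(Q.eval (cos s) - P.eval (cos s)) +
          (Q.eval (cos s) - Q.eval u) + (Q.eval u - P.eval u) + (P.eval u - P.eval (cos t)) := by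
        ring
      rw [e]
      refine (abs_add_le _ _).trans (add_le_add ((abs_add_le _ _).trans (add_le_add
        ((abs_add_le _ _).trans (add_le_add ?_ le_rfl)) le_rfl)) le_rfl)
      rw [abs_neg]
    have hvlo : 2 - δ / 64 ≤ vv (n * t) := by
      rcases le_total (n * t) π with h | h
      · have hYk : vv (n * t) = 1 - cos (n * t) := by
          have := hvk 0 (n * t) (by simp; positivity) (by simp; linarith)
          simpa using this
        have h8 := one_sub_sq_div_two_le_cos (x := π - n * t)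
        rw [cos_pi_sub] at h8
        have h9 : (π - n * t) ^ 2 ≤ c1 ^ 2 := pow_le_pow_left₀ (by linarith) (by linarith) 2
        have h10 : c1 ^ 2 ≤ c1 * 1 := by
          rw [sq]
          exact mul_le_mul_of_nonneg_left (by linarith) hc1.le
        rw [hYk]
        linarith
      · have h8 : vv (0 + π) ≤ vv (n * t) := hvm.monotone (by linarith)
        rw [hvp, hv0] at h8
        linarith
    have h3 : min (vv c1) (min (δ / 16) cA) ≤ δ / 16 := (min_le_right _ _).trans (min_le_left _ _)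
    -- the final numbers
    have f1 : M * (ε * δ + 4 * δ ^ 2) ≤ δ / 128 + δ / 128 := by
      have e1 : M * (ε * δ) ≤ 1 / 128 * δ := by
        rw [← mul_assoc]
        exact mul_le_mul_of_nonneg_right hεM hδ.le
      have e2 : M * (4 * δ ^ 2) ≤ 4 * (1 / 512 * δ) := by
        have := mul_le_mul_of_nonneg_right hδM hδ.le
        nlinarith only [this]
      rw [mul_add]
      linarith
    have f2 : ε * δ ^ 2 / 2 ≤ δ / 32 := by
      have e1 : ε * δ ^ 2 ≤ 1 * δ ^ 2 := mul_le_mul_of_nonneg_right hε1 (by positivity)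
      nlinarith only [e1, hδ, hδ1]
    have f3 : 2 * δ ^ 3 ≤ δ / 128 := by
      have e1 : δ * δ ≤ 1 / 16 * (1 / 16) := mul_le_mul hδ1 hδ1 hδ.le (by norm_num)
      have e2 : δ ^ 3 = (δ * δ) * δ := by ring
      rw [e2]
      nlinarith only [mul_le_mul_of_nonneg_right e1 hδ.le]
    linarith

end

end Pool.Agent.Helper40.TV
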