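import Pool.Agent.Helper40.TV.St1

/-!
Existence of a polynomial with smallest second coefficient, by compactness.
-/

set_option autoImplicit false

namespace Pool.Agent.Helper40.TV

open Polynomial Set Real
open Pool.Agent.Helper40.AS (Bdd)

theorem ex1 : Ex1 := by
  intro n κ hn hκ
  have hn0 : (0 : ℝ) < n := by
    have : 0 < n := by omega
    exact_mod_cast this
  obtain ⟨v, hvd⟩ : ∃ v : Fin (n + 1) → ℝ, v = fun i : Fin (n + 1) => ((i : ℕ) : ℝ) / n := ⟨_, rfl⟩
  have hv : Set.InjOn v (Finset.univ : Finset (Fin (n + 1))) := by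
    intro i _ j _ hij
    rw [hvd] at hij
    have h1 : ((i : ℕ) : ℝ) / n = ((j : ℕ) : ℝ) / n := hij
    have h2 : ((i : ℕ) : ℝ) = ((j : ℕ) : ℝ) := by
      field_simp at h1
      exact h1
    exact Fin.ext (by exact_mod_cast h2)
  have hvm : ∀ i, v i ∈ Icc (-1 : ℝ) 1 := by
    intro i
    rw [hvd]
    have h1 : (0 : ℝ) ≤ ((i : ℕ) : ℝ) / n := by positivity
    have h2 : ((i : ℕ) : ℝ) / n ≤ 1 := by
      rw [div_le_one hn0]
      have : (i : ℕ) ≤ n := by omega
      exact_mod_cast this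
    exact ⟨by show (-1 : ℝ) ≤ ((i : ℕ) : ℝ) / n; linarith, h2⟩
  obtain ⟨L, hLd⟩ : ∃ L, L = Lagrange.interpolate (Finset.univ : Finset (Fin (n + 1))) v :=
    ⟨_, rfl⟩
  have hev : ∀ x : ℝ, Continuous fun w => (L w).eval x := fun x =>
    ((Polynomial.leval x).comp L).continuous_of_finiteDimensional
  have hco : ∀ k : ℕ, Continuous fun w => (L w).coeff k := fun k =>
    ((Polynomial.lcoeff ℝ k).comp L).continuous_of_finiteDimensional
  have hrep : ∀ P : ℝ[X], P.natDegree ≤ n → P = L fun i => P.eval (v i) := by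
    intro P hP
    rw [hLd]
    apply Lagrange.eq_interpolate hv
    rw [Finset.card_univ, Fintype.card_fin]
    calc P.degree ≤ (n : ℕ) := natDegree_le_iff_degree_le.1 hP
      _ < ((n + 1 : ℕ) : WithBot ℕ) := by exact_mod_cast Nat.lt_succ_self n
  have hdeg : ∀ w, (L w).natDegree ≤ n := by
    intro w
    have h := Lagrange.degree_interpolate_lt w hv
    rw [← hLd, Finset.card_univ, Fintype.card_fin] at h
    by_cases h0 : L w = 0
    · rw [h0]; simp
    · exact Nat.lt_succ_iff.1 ((natDegree_lt_iff_degree_lt h0).2 h)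
  obtain ⟨K, hKd⟩ : ∃ K : Set (Fin (n + 1) → ℝ), K = (Set.pi univ fun _ => Icc (-1 : ℝ) 1) ∩
      ((⋂ x ∈ Icc (-1 : ℝ) 1, {w | |(L w).eval x| ≤ 1}) ∩
        {w | (L w).coeff n = κ * 2 ^ (n - 1)}) := ⟨_, rfl⟩
  have hK : IsCompact K := by
    rw [hKd]
    apply (isCompact_univ_pi fun _ => isCompact_Icc).inter_right
    apply IsClosed.inter
    · exact isClosed_biInter fun x _ => isClosed_le (hev x).abs continuous_const
    · exact isClosed_eq (hco n) continuous_const
  have hmem : ∀ P : ℝ[X], P.natDegree ≤ n → Bdd P → P.coeff n = κ * 2 ^ (n - 1) →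
      (fun i => P.eval (v i)) ∈ K := by
    intro P hP hb hc
    rw [hKd]
    refine ⟨?_, ?_, ?_⟩
    · intro i _
      exact abs_le.1 (hb _ (hvm i))
    · rw [mem_iInter₂]
      intro x hx
      show |(L fun i => P.eval (v i)).eval x| ≤ 1
      rw [← hrep P hP]
      exact hb x hx
    · show (L fun i => P.eval (v i)).coeff n = κ * 2 ^ (n - 1)
      rw [← hrep P hP]
      exact hc
  have hne : K.Nonempty := by
    refine ⟨_, hmem (C κ * Chebyshev.T ℝ n) ?_ ?_ ?_⟩
    · refine (natDegree_C_mul_le _ _).trans ?_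
      rw [Chebyshev.natDegree_T]
      simp
    · intro x hx
      rw [eval_mul, eval_C, abs_mul]
      have h1 : |κ| ≤ 1 := abs_le.2 hκ
      have h2 := Chebyshev.abs_eval_T_real_le_one (n : ℤ) (abs_le.2 hx)
      exact mul_le_one₀ h1 (abs_nonneg _) h2
    · rw [coeff_C_mul]
      have h := Chebyshev.leadingCoeff_T ℝ (n : ℤ)
      rw [leadingCoeff, Chebyshev.natDegree_T] at h
      simp only [Int.natAbs_natCast] at h
      rw [h]
  obtain ⟨w, hw, hmin⟩ := hK.exists_isMinOn hne (hco (n - 1)).continuousOn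
  have hw' := hw
  rw [hKd] at hw'
  refine ⟨L w, hdeg w, ?_, hw'.2.2, ?_⟩
  · intro x hx
    have h := hw'.2.1
    rw [mem_iInter₂] at h
    exact h x hx
  · intro P hP hb hc
    have h := hmin (hmem P hP hb hc)
    have h' : (L w).coeff (n - 1) ≤ (L fun i => P.eval (v i)).coeff (n - 1) := h
    rw [← hrep P hP] at h'
    exact h'

end Pool.Agent.Helper40.TV
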