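import Pool.Agent.Helper40.TV.St1

/-! Project TV, piece Ex2: the polynomial with smallest coefficient of `X ^ (n - 1)` has `n`
alternation points. -/

set_option autoImplicit false

namespace Pool.Agent.Helper40.TV

open Polynomial Set Real
open Pool.Agent.Helper40.AS (Bdd)

/-- small perturbations -/
theorem ex2_pert {Z q : ℝ[X]} (hZ : Bdd Z)
    (h : ∀ y ∈ Icc (-1 : ℝ) 1, |Z.eval y| = 1 → Z.eval y * q.eval y < 0) :
    ∃ ε : ℝ, 0 < ε ∧ Bdd (Z + C ε * q) := by
  have hne : (Icc (-1 : ℝ) 1).Nonempty := ⟨0, by norm_num, by norm_num⟩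
  obtain ⟨y0, hy0, hmin⟩ := isCompact_Icc.exists_isMinOn hne
    (f := fun y => max (1 - |Z.eval y|) (-(Z.eval y * q.eval y))) (by fun_prop)
  obtain ⟨y1, hy1, hmax⟩ := isCompact_Icc.exists_isMaxOn hne
    (f := fun y => |q.eval y|) (by fun_prop)
  set m := max (1 - |Z.eval y0|) (-(Z.eval y0 * q.eval y0)) with hm
  set M := |q.eval y1| + 1 with hM
  have hM1 : 1 ≤ M := by
    have := abs_nonneg (q.eval y1)
    linarith
  have hm0 : 0 < m := by
    rcases lt_or_eq_of_le (hZ y0 hy0) with e | e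
    · exact lt_max_of_lt_left (by linarith)
    · exact lt_max_of_lt_right (by linarith [h y0 hy0 e])
  refine ⟨min (m / M) (m / M ^ 2), by positivity, fun y hy => ?_⟩
  set ε := min (m / M) (m / M ^ 2) with hε
  have hε0 : 0 < ε := by positivity
  have h1 : ε * M ≤ m := by
    have := min_le_left (m / M) (m / M ^ 2)
    rw [← hε, le_div_iff₀ (by linarith)] at this
    exact this
  have h2 : ε * M ^ 2 ≤ m := by
    have := min_le_right (m / M) (m / M ^ 2)
    rw [← hε, le_div_iff₀ (by positivity)] at this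
    exact this
  have hq : |q.eval y| ≤ M := by
    have : |q.eval y| ≤ |q.eval y1| := hmax hy
    linarith
  have hmy : m ≤ max (1 - |Z.eval y|) (-(Z.eval y * q.eval y)) := hmin hy
  have hZy := hZ y hy
  rw [eval_add, eval_mul, eval_C]
  rcases le_max_iff.1 hmy with e | e
  · calc |Z.eval y + ε * q.eval y| ≤ |Z.eval y| + |ε * q.eval y| := abs_add_le _ _
      _ = |Z.eval y| + ε * |q.eval y| := by rw [abs_mul, abs_of_pos hε0]
      _ ≤ (1 - m) + ε * M := by gcongr; linarith
      _ ≤ 1 := by linarith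
  · rw [abs_le_one_iff_mul_self_le_one]
    have h3 : q.eval y * q.eval y ≤ M ^ 2 := by
      rw [← abs_mul_abs_self]
      nlinarith [abs_nonneg (q.eval y)]
    have h4 : Z.eval y * Z.eval y ≤ 1 := abs_le_one_iff_mul_self_le_one.1 hZy
    have h5 : (Z.eval y + ε * q.eval y) * (Z.eval y + ε * q.eval y) =
        Z.eval y * Z.eval y + 2 * ε * (Z.eval y * q.eval y) +
          ε * (ε * (q.eval y * q.eval y)) := by ring
    have h6 : ε * (ε * (q.eval y * q.eval y)) ≤ ε * (ε * M ^ 2) := by gcongr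
    have h7 : ε * (ε * M ^ 2) ≤ ε * m := by gcongr
    nlinarith

/-- the polynomials with prescribed signs at the contact points -/
theorem ex2_no {n : ℕ} {κ : ℝ} {Z q : ℝ[X]} (hn : 3 ≤ n) (hdeg : Z.natDegree ≤ n) (hZ : Bdd Z)
    (hc : Z.coeff n = κ * 2 ^ (n - 1))
    (hmin : ∀ P : ℝ[X], P.natDegree ≤ n → Bdd P → P.coeff n = κ * 2 ^ (n - 1) →
      Z.coeff (n - 1) ≤ P.coeff (n - 1)) {k : ℕ} (hk : k < n) (hq : q.Monic)
    (hqd : q.natDegree = k) : ∃ y ∈ Icc (-1 : ℝ) 1, |Z.eval y| = 1 ∧ Z.eval y * q.eval y ≤ 0 := by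
  by_contra hcon
  push Not at hcon
  set r : ℝ[X] := q * (X + C 2) ^ (n - 1 - k) with hr
  have hrm : r.Monic := hq.mul ((monic_X_add_C 2).pow _)
  have hrd : r.natDegree = n - 1 := by
    rw [hr, Monic.natDegree_mul hq ((monic_X_add_C 2).pow _), hqd,
      Monic.natDegree_pow (monic_X_add_C 2), natDegree_X_add_C]
    omega
  obtain ⟨ε, hε, hb⟩ := ex2_pert (q := -r) hZ (by
    intro y hy hy1
    have h1 := hcon y hy hy1
    have h2 : (0 : ℝ) < (y + 2) ^ (n - 1 - k) := by
      have : 0 < y + 2 := by linarith [hy.1]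
      positivity
    rw [eval_neg, hr, eval_mul, eval_pow, eval_add, eval_X, eval_C]
    nlinarith [mul_pos h1 h2])
  have h1 : (Z + C ε * -r).natDegree ≤ n := by
    refine (natDegree_add_le _ _).trans (max_le hdeg ?_)
    refine (natDegree_C_mul_le _ _).trans ?_
    rw [natDegree_neg, hrd]
    omega
  have h2 : (Z + C ε * -r).coeff n = κ * 2 ^ (n - 1) := by
    rw [coeff_add, coeff_C_mul, coeff_neg, coeff_eq_zero_of_natDegree_lt (p := r) (by omega), hc]
    ring
  have h3 := hmin _ h1 hb h2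
  have h4 : r.coeff (n - 1) = 1 := by
    rw [← hrd]
    exact hrm
  rw [coeff_add, coeff_C_mul, coeff_neg, h4] at h3
  linarith

theorem ex2_ind {n : ℕ} {κ : ℝ} {Z : ℝ[X]} (hn : 3 ≤ n) (hdeg : Z.natDegree ≤ n) (hZ : Bdd Z)
    (hc : Z.coeff n = κ * 2 ^ (n - 1))
    (hmin : ∀ P : ℝ[X], P.natDegree ≤ n → Bdd P → P.coeff n = κ * 2 ^ (n - 1) →
      Z.coeff (n - 1) ≤ P.coeff (n - 1)) (k : ℕ) (hk : k ≤ n) :
    ∃ (c : ℕ → ℝ) (q : ℝ[X]), c 0 = 1 ∧ q.Monic ∧ q.natDegree = k ∧
      (∀ j, 1 ≤ j → j ≤ k → c j ∈ Icc (-1 : ℝ) 1 ∧ Z.eval (c j) = (-1) ^ j) ∧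
      (∀ j, 1 ≤ j → j + 1 ≤ k → c (j + 1) < c j) ∧
      (∀ y ∈ Icc (-1 : ℝ) 1, |Z.eval y| = 1 → c k < y → 0 < Z.eval y * q.eval y) ∧
      (∀ y ≤ c k, 0 < (-1) ^ k * q.eval y) := by
  induction k with
  | zero =>
    refine ⟨fun _ => 1, 1, rfl, monic_one, natDegree_one, fun j h1 h2 => by omega,
      fun j h1 h2 => by omega, fun y hy _ h => ?_, fun y _ => by simp⟩
    exact absurd hy.2 (not_le.2 h)
  | succ k ih =>
    obtain ⟨c, q, hc0, hqm, hqd, hcv, hcl, hi, hii⟩ := ih (by omega)
    -- contacts to the left with the other sign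
    set S : Set ℝ := Icc (-1 : ℝ) 1 ∩ {y | y ≤ c k ∧ Z.eval y = (-1) ^ (k + 1)} with hS
    have hSc : IsCompact S := by
      apply isCompact_Icc.inter_right
      exact (isClosed_le continuous_id continuous_const).inter
        (isClosed_eq (by fun_prop) continuous_const)
    have hpow : ((-1 : ℝ) ^ k = 1 ∧ (-1 : ℝ) ^ (k + 1) = -1) ∨
        ((-1 : ℝ) ^ k = -1 ∧ (-1 : ℝ) ^ (k + 1) = 1) := by
      rcases neg_one_pow_eq_or ℝ k with e | e
      · left; exact ⟨e, by rw [pow_succ, e]; norm_num⟩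
      · right; exact ⟨e, by rw [pow_succ, e]; norm_num⟩
    have hSne : S.Nonempty := by
      obtain ⟨y, hy, hy1, hy2⟩ := ex2_no hn hdeg hZ hc hmin (k := k) (by omega) hqm hqd
      have hyk : y ≤ c k := by
        by_contra hcon
        push Not at hcon
        have := hi y hy hy1 hcon
        linarith
      refine ⟨y, hy, hyk, ?_⟩
      have h1 := hii y hyk
      rcases hpow with ⟨e1, e2⟩ | ⟨e1, e2⟩
      · rw [e1, one_mul] at h1
        rw [e2]
        rcases eq_or_eq_neg_of_abs_eq hy1 with e | e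
        · rw [e] at hy2; linarith
        · exact e
      · rw [e1] at h1
        rw [e2]
        rcases eq_or_eq_neg_of_abs_eq hy1 with e | e
        · exact e
        · rw [e] at hy2; linarith
    obtain ⟨d, hdS, hdmax⟩ := hSc.exists_isGreatest hSne
    obtain ⟨δ, hδ, hδc⟩ : ∃ δ > 0, ∀ y, |y - d| < δ → |Z.eval y - (-1) ^ (k + 1)| < 1 := by
      have hcont : Continuous fun y => Z.eval y := by fun_prop
      obtain ⟨δ, hδ, h⟩ := Metric.continuous_iff.1 hcont d 1 one_pos
      refine ⟨δ, hδ, fun y hy => ?_⟩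
      have := h y hy
      rw [Real.dist_eq, hdS.2.2] at this
      exact this
    have hfree : ∀ y ∈ Icc (-1 : ℝ) 1, |Z.eval y| = 1 → d < y → d + δ / 2 < y ∧
        (y ≤ c k → Z.eval y = (-1) ^ k) := by
      intro y hy hy1 hdy
      have hv : y ≤ c k → Z.eval y = (-1) ^ k := by
        intro hyk
        have hnot : Z.eval y ≠ (-1) ^ (k + 1) := fun h => by
          have : y ≤ d := hdmax ⟨hy, hyk, h⟩
          linarith
        rcases eq_or_eq_neg_of_abs_eq hy1 with e | e <;> rcases hpow with ⟨e1, e2⟩ | ⟨e1, e2⟩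
        · rw [e, e1]
        · rw [e2] at hnot; exact absurd e hnot
        · rw [e2] at hnot; exact absurd e hnot
        · rw [e, e1]
      refine ⟨?_, hv⟩
      by_contra hcon
      push Not at hcon
      have h1 := hδc y (by rw [abs_of_pos (by linarith)]; linarith)
      rcases le_or_gt y (c k) with h2 | h2
      · rw [hv h2] at h1
        rcases hpow with ⟨e1, e2⟩ | ⟨e1, e2⟩ <;> rw [e1, e2] at h1 <;> norm_num at h1
      · -- `y` is to the right of `c k`; then `c k` lies in `[d, y]`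
        have hk1 : 1 ≤ k := by
          by_contra h0
          have : k = 0 := by omega
          subst this
          rw [hc0] at h2
          linarith [hy.2]
        have h3 := hcv k hk1 le_rfl
        have h4 := hδc (c k) (by rw [abs_of_nonneg (by linarith [hdS.2.1])]; linarith)
        rw [h3.2] at h4
        rcases hpow with ⟨e1, e2⟩ | ⟨e1, e2⟩ <;> rw [e1, e2] at h4 <;> norm_num at h4
    refine ⟨fun j => if j ≤ k then c j else d, q * (X - C (d + δ / 2)), ?_,
      hqm.mul (monic_X_sub_C _), ?_, ?_, ?_, ?_, ?_⟩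
    · simp [hc0]
    · rw [Monic.natDegree_mul hqm (monic_X_sub_C _), hqd, natDegree_X_sub_C]
    · intro j h1 h2
      rcases Nat.lt_or_ge k j with h3 | h3
      · have : j = k + 1 := by omega
        subst this
        simp only [if_neg (show ¬ k + 1 ≤ k by omega)]
        exact ⟨hdS.1, hdS.2.2⟩
      · simp only [if_pos h3]
        exact hcv j h1 h3
    · intro j h1 h2
      rcases Nat.lt_or_ge k (j + 1) with h3 | h3
      · have : j = k := by omega
        subst this
        simp only [if_neg (show ¬ j + 1 ≤ j by omega), if_pos le_rfl]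
        refine lt_of_le_of_ne hdS.2.1 fun h => ?_
        have h4 := (hcv j h1 le_rfl).2
        rw [← h, hdS.2.2] at h4
        rcases hpow with ⟨e1, e2⟩ | ⟨e1, e2⟩ <;> rw [e1, e2] at h4 <;> norm_num at h4
      · simp only [if_pos h3, if_pos (show j ≤ k by omega)]
        exact hcl j h1 h3
    · intro y hy hy1 hdy
      simp only [if_neg (show ¬ k + 1 ≤ k by omega)] at hdy
      obtain ⟨h1, h2⟩ := hfree y hy hy1 hdy
      rw [eval_mul, eval_sub, eval_X, eval_C, ← mul_assoc]
      apply mul_pos _ (by linarith)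
      rcases le_or_gt y (c k) with h3 | h3
      · rw [h2 h3]
        exact hii y h3
      · exact hi y hy hy1 h3
    · intro y hy
      simp only [if_neg (show ¬ k + 1 ≤ k by omega)] at hy
      have h1 := hii y (hy.trans hdS.2.1)
      rw [eval_mul, eval_sub, eval_X, eval_C]
      have h2 : (-1 : ℝ) ^ (k + 1) * (q.eval y * (y - (d + δ / 2))) =
          ((-1) ^ k * q.eval y) * (d + δ / 2 - y) := by
        rw [pow_succ]; ring
      rw [h2]
      exact mul_pos h1 (by linarith)

theorem ex2 : Ex2 := by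
  intro n κ Z hn hdeg hZ hc hmin
  obtain ⟨c, q, -, -, -, hcv, hcl, -, -⟩ := ex2_ind hn hdeg hZ hc hmin n le_rfl
  refine ⟨fun i => c (n - i), hdeg, hZ, hc, ?_, ?_, ?_⟩
  · intro i hi
    have h1 := hcl (n - (i + 1)) (by omega) (by omega)
    have e : n - (i + 1) + 1 = n - i := by omega
    rw [e] at h1
    exact h1
  · intro i hi
    exact (hcv (n - i) (by omega) (by omega)).1
  · intro i hi
    exact (hcv (n - i) (by omega) (by omega)).2

end Pool.Agent.Helper40.TV
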