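import Pool.Agent.Helper40.TV.St3

set_option autoImplicit false

namespace Pool.Agent.Helper40.TV

open Polynomial Set Real
open Pool.Agent.Helper40.AS (Bdd)

noncomputable section

/-! ### general facts on families -/

lemma fam_int {n : ℕ} {Th : ℝ → ℝ → ℝ} {Z : ℝ → ℝ[X]} (F : Fam n Th Z) (L θ : ℝ) (m : ℤ) :
    Th (L + m) θ = Th L θ + m * π := by
  induction m using Int.induction_on with
  | zero => simp
  | succ i ih =>
    have := F.unit (L + i) θ
    push_cast at ih ⊢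
    rw [← add_assoc, this, ih]
    ring
  | pred i ih =>
    have := F.unit (L + (-(i : ℝ) - 1)) θ
    push_cast at ih ⊢
    have h2 : L + (-(i : ℝ) - 1) + 1 = L + -(i : ℝ) := by ring
    rw [h2, ih] at this
    linarith

lemma fam_label {n : ℕ} {Th : ℝ → ℝ → ℝ} {Z : ℝ → ℝ[X]} (F : Fam n Th Z) {θ : ℝ}
    (hθ : θ ∈ Ioo 0 π) (y : ℝ) : ∃ L, Th L θ = y := by
  have hc := F.cont θ hθ
  have h := mem_range_of_exists_le_of_exists_ge (c := y) hc ?_ ?_
  · obtain ⟨L, hL⟩ := h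
    exact ⟨L, hL⟩
  · refine ⟨0 + (⌊(y - Th 0 θ) / π⌋ : ℤ), ?_⟩
    rw [fam_int F]
    have h1 := Int.floor_le ((y - Th 0 θ) / π)
    have h2 : (⌊(y - Th 0 θ) / π⌋ : ℝ) * π ≤ y - Th 0 θ := by
      rwa [le_div_iff₀ pi_pos] at h1
    linarith
  · refine ⟨0 + (⌈(y - Th 0 θ) / π⌉ : ℤ), ?_⟩
    rw [fam_int F]
    have h1 := Int.le_ceil ((y - Th 0 θ) / π)
    have h2 : y - Th 0 θ ≤ (⌈(y - Th 0 θ) / π⌉ : ℝ) * π := by
      rwa [div_le_iff₀ pi_pos] at h1
    linarith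

lemma nu_nonneg {K : ℝ} (n : ℕ) (s t : ℝ) : 0 ≤ nu K n s t := by
  unfold nu
  have : exp (-(2 * ((n : ℝ) ^ 2 * (cos s - cos t)) ^ 2 / (K + 7) ^ 4)) ≤ 1 := by
    apply exp_le_one_iff.2
    have : 0 ≤ 2 * ((n : ℝ) ^ 2 * (cos s - cos t)) ^ 2 / (K + 7) ^ 4 := by
      apply div_nonneg (by positivity)
      exact Even.pow_nonneg (by decide) _
    linarith
  linarith

lemma tan_half_le {x : ℝ} (h0 : 0 ≤ x) (h1 : x ≤ 1) : tan (x / 2) ≤ x := by
  have hpi := pi_gt_three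
  have hc : 1 / 2 ≤ cos (x / 2) := by
    have h2 : cos (π / 3) ≤ cos (x / 2) :=
      cos_le_cos_of_nonneg_of_le_pi (by linarith) (by linarith) (by linarith)
    rwa [cos_pi_div_three] at h2
  rw [tan_eq_sin_div_cos, div_le_iff₀ (by linarith)]
  have := sin_le (show 0 ≤ x / 2 by linarith)
  nlinarith

lemma le_tan_half {x : ℝ} (h0 : 0 ≤ x) (h1 : x ≤ 1) : x / 2 ≤ tan (x / 2) := by
  have hpi := pi_gt_three
  rcases h0.eq_or_lt with h | h
  · rw [← h]; simp
  · exact (lt_tan (by linarith) (by linarith)).le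

lemma sqrt_le_mul_of_le {N s α : ℝ} (hN : 0 < N) (hs : 0 ≤ s) (hα : 0 < α)
    (h : α ≤ N ^ 2 * (1 - cos s)) : √α ≤ N * s := by
  have h1 := one_sub_sq_div_two_le_cos (x := s)
  apply Real.sqrt_le_iff.2
  constructor
  · positivity
  · nlinarith [mul_le_mul_of_nonneg_left (show 1 - cos s ≤ s ^ 2 / 2 by linarith) (sq_nonneg N)]

/-- comparison through tangents: `x tan (s/2) ≤ y tan (t/2)`, `α ≤ N s`, `N t ≤ K` -/
lemma le_of_tan {x y s t N K α : ℝ} (hN : 0 < N) (hα : 0 < α) (hs : α ≤ N * s) (ht : N * t ≤ K)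
    (hst : s ≤ t) (ht1 : t ≤ 1) (hx : 0 ≤ x) (hy : 0 ≤ y)
    (h : x * tan (s / 2) ≤ y * tan (t / 2)) : x * α ≤ 2 * K * y := by
  have hs0 : 0 < s := by
    by_contra hcon
    push Not at hcon
    nlinarith [mul_nonneg hN.le (neg_nonneg.2 hcon)]
  have h1 : s / 2 ≤ tan (s / 2) := le_tan_half hs0.le (by linarith)
  have h2 : tan (t / 2) ≤ t := tan_half_le (by linarith) (by linarith)
  have h3 : x * (s / 2) ≤ y * t := by nlinarith
  have h4 : x * (N * s) ≤ 2 * (y * (N * t)) := by nlinarith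
  nlinarith [mul_le_mul_of_nonneg_left hs hx, mul_le_mul_of_nonneg_left ht hy]

/-- the cosine distance is at least quadratic -/
lemma cos_quad {s t : ℝ} (hs : 0 ≤ s) (hst : s ≤ t) (ht : t ≤ 1) :
    2 / π ^ 2 * (t - s) ^ 2 ≤ cos s - cos t := by
  have hpi := pi_gt_three
  have h1 : cos s - cos t = 2 * sin ((s + t) / 2) * sin ((t - s) / 2) := by
    rw [cos_sub_cos]
    have : (s - t) / 2 = -((t - s) / 2) := by ring
    rw [this, sin_neg]
    ring
  have h2 := mul_le_sin (x := (s + t) / 2) (by linarith) (by linarith)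
  have h3 := mul_le_sin (x := (t - s) / 2) (by linarith) (by linarith)
  rw [h1]
  have h4 : 2 / π * ((t - s) / 2) ≤ 2 / π * ((s + t) / 2) := by
    apply mul_le_mul_of_nonneg_left _ (by positivity)
    linarith
  have h5 : 0 ≤ 2 / π * ((t - s) / 2) := mul_nonneg (by positivity) (by linarith)
  have h6 : 2 / π ^ 2 * (t - s) ^ 2 = 2 * (2 / π * ((t - s) / 2)) * (2 / π * ((t - s) / 2)) := by
    field_simp
  rw [h6]
  nlinarith [mul_le_mul (h4.trans h2) h3 h5 (h5.trans (h4.trans h2))]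

/-- from values of `vv` to phases -/
lemma vv_phase (hV1 : V1) {x y h : ℝ} (hh : 0 ≤ h) (h1 : h < 1) (hxy : x ≤ y)
    (hv : vv y ≤ vv x + h) : y - x ≤ π * √h := by
  obtain ⟨-, vm, -, vp, -, -, -, -, vlow⟩ := hV1
  have hpi := pi_pos
  rcases le_or_gt y (x + π) with hy | hy
  · have h2 := vlow x y hxy hy
    have h3 := cos_le_one_sub_mul_cos_sq (x := (y - x) / 2) (by
      rw [abs_of_nonneg (by linarith)]; linarith)
    have h4 : (y - x) ^ 2 / π ^ 2 ≤ h := by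
      have : 2 * (2 / π ^ 2 * ((y - x) / 2) ^ 2) = (y - x) ^ 2 / π ^ 2 := by
        field_simp
      rw [← this]
      linarith
    rw [div_le_iff₀ (by positivity)] at h4
    have h5 : (y - x) ^ 2 ≤ (π * √h) ^ 2 := by
      rw [mul_pow, sq_sqrt hh]
      linarith
    exact (abs_le_of_sq_le_sq' h5 (by positivity)).2
  · have h2 := (vm hy).le
    rw [vp] at h2
    linarith

lemma small_of_cont (f : ℝ → ℝ) (hf : Continuous f) (h0 : f 0 = 0) {μ : ℝ} (hμ : 0 < μ) :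
    ∃ h : ℝ, 0 < h ∧ f h < μ ∧ h < μ := by
  have h1 : ∀ᶠ h in nhds (0 : ℝ), f h < μ := by
    have := hf.tendsto 0
    rw [h0] at this
    exact this.eventually (gt_mem_nhds hμ)
  have h2 : ∀ᶠ h in nhds (0 : ℝ), h < μ := gt_mem_nhds hμ
  obtain ⟨ε, hε, hb⟩ := Metric.eventually_nhds_iff.1 (h1.and h2)
  have h3 := hb (y := ε / 2) (by rw [Real.dist_eq, sub_zero, abs_of_pos (by linarith)]; linarith)
  exact ⟨ε / 2, by linarith, h3.1, h3.2⟩

end

end Pool.Agent.Helper40.TV
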