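import Pool.Agent.Helper40.TV.St3
import Pool.Agent.Helper40.TV.P.Fac

set_option autoImplicit false

namespace Pool.Agent.Helper40.TV

open Polynomial Set Real
open Pool.Agent.Helper40.AS (Bdd)

noncomputable section

lemma g1_slide (hTy : Ty) {n : ℕ} {P : ℝ[X]} {z u d : ℝ} (hn : 1 ≤ n) (hdeg : P.natDegree ≤ n)
    (hb : Bdd P) (hz : z ∈ Icc (-1 : ℝ) 1) (hu : u ∈ Icc (-1 : ℝ) 1)
    (hd : |u - z| = d / (n : ℝ) ^ 2) (hd0 : 0 < d) (hd1 : d ≤ 1) (hP1 : P.derivative.eval z = 0)
    (hP2 : |P.derivative.derivative.eval z| ≤ d * (n : ℝ) ^ 4) :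
    |P.derivative.eval u| ≤ 5 * d ^ 2 * (n : ℝ) ^ 2 ∧ |P.eval u - P.eval z| ≤ 3 * d ^ 2 := by
  obtain ⟨-, -, -, t4, t5⟩ := hTy n P hn hdeg hb
  have hn0 : (0 : ℝ) < n := by exact_mod_cast hn
  have h1 := t4 z hz u hu
  have h2 := t5 z hz u hu
  rw [hP1] at h1 h2
  set D := P.derivative.derivative.eval z with hD
  have hsq : (u - z) ^ 2 = d ^ 2 / (n : ℝ) ^ 4 := by
    rw [← sq_abs, hd, div_pow]
    congr 1
    ring
  have e1 : |D * (u - z)| ≤ d ^ 2 * (n : ℝ) ^ 2 := by
    rw [abs_mul, hd]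
    have : |D| * (d / (n : ℝ) ^ 2) ≤ d * (n : ℝ) ^ 4 * (d / (n : ℝ) ^ 2) :=
      mul_le_mul_of_nonneg_right hP2 (by positivity)
    refine this.trans (le_of_eq ?_)
    field_simp
  have e2 : 4 * (n : ℝ) ^ 6 * (u - z) ^ 2 = 4 * d ^ 2 * (n : ℝ) ^ 2 := by
    rw [hsq]
    field_simp
  have e3 : 2 * (n : ℝ) ^ 6 * |u - z| ^ 3 = 2 * d ^ 3 := by
    rw [hd]
    field_simp
  have e4 : |D * (u - z) ^ 2 / 2| ≤ d ^ 3 / 2 := by
    rw [hsq, abs_div, abs_mul, abs_of_pos (show (0 : ℝ) < d ^ 2 / (n : ℝ) ^ 4 by positivity),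
      abs_of_pos (show (0 : ℝ) < 2 by norm_num)]
    have : |D| * (d ^ 2 / (n : ℝ) ^ 4) ≤ d * (n : ℝ) ^ 4 * (d ^ 2 / (n : ℝ) ^ 4) :=
      mul_le_mul_of_nonneg_right hP2 (by positivity)
    have h3 : d * (n : ℝ) ^ 4 * (d ^ 2 / (n : ℝ) ^ 4) = d ^ 3 := by
      field_simp
    rw [h3] at this
    linarith
  rw [e2] at h1
  rw [e3] at h2
  have hd3 : d ^ 3 ≤ d ^ 2 := by
    have := mul_le_mul_of_nonneg_left hd1 (sq_nonneg d)
    nlinarith
  constructor
  · have : P.derivative.eval u = (P.derivative.eval u - 0 - D * (u - z)) + D * (u - z) := by ring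
    rw [this]
    refine (abs_add_le _ _).trans ?_
    nlinarith
  · have : P.eval u - P.eval z = (P.eval u - P.eval z - 0 * (u - z) - D * (u - z) ^ 2 / 2) +
        D * (u - z) ^ 2 / 2 := by ring
    rw [this]
    refine (abs_add_le _ _).trans ?_
    nlinarith

lemma g1_core (hW1 : W1) (hPr : Pr) {n : ℕ} {Th : ℝ → ℝ → ℝ} {Z : ℝ → ℝ[X]} (F : Fam n Th Z)
    {K η : ℝ} (hK : 1 ≤ K) (hn : K + 7 ≤ n) {P : ℝ[X]} {t t' A B : ℝ} {k : ℤ} (h0 : 0 < t)
    (h12 : t < t') (hKt : n * t' ≤ K) (hdeg : P.natDegree ≤ n) (hb : Bdd P)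
    (hc1 : P.derivative.eval (cos t) = 0) (hc2 : P.derivative.eval (cos t') = 0)
    (hA : Th A t = k * π) (hB : Th B t' = (k + 1) * π) (hAB : A < B) (hη : 0 ≤ η) (hη1 : η ≤ 1)
    (hD : η ≤ Th B t' - Th A t') : |P.eval (cos t') - P.eval (cos t)| ≤ 2 - η / (8 * K) := by
  obtain ⟨s, hs, hsum, hD0, hDπ, hineq⟩ :=
    hPr n Th Z F K A B t t' k P (by linarith) hn h0 h12 hKt hA hB hAB hdeg hb hc1 hc2
  set D := Th B s - Th A s with hDd
  have hpi3 := pi_gt_three
  have hpi4 := pi_lt_four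
  have hn0 : (0 : ℝ) < n := by linarith
  have ht'1 : t' ≤ 1 := by
    by_contra hcon
    push Not at hcon
    nlinarith
  have hx : cos t ∈ Icc (-1 : ℝ) 1 := ⟨neg_one_le_cos _, cos_le_one _⟩
  have hx' : cos t' ∈ Icc (-1 : ℝ) 1 := ⟨neg_one_le_cos _, cos_le_one _⟩
  have h1 : 0 ≤ nu K n s t * (1 - |P.eval (cos t)|) :=
    mul_nonneg (nu_nonneg n s t) (by linarith [hb _ hx])
  have h2 : 0 ≤ nu K n s t' * (1 - |P.eval (cos t')|) :=
    mul_nonneg (nu_nonneg n s t') (by linarith [hb _ hx'])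
  obtain ⟨wm, -, -, wf, -, -, -⟩ := hW1
  have h8 : η / (8 * K) ≤ 1 / 8 := by
    rw [div_le_div_iff₀ (by positivity) (by norm_num)]
    nlinarith
  have hgoal : η / (8 * K) ≤ cW D := by
    rcases le_or_gt (π / 2) D with hD2 | hD2
    · have h3 := wm hD2
      rw [wf (π / 2) (by positivity) (by linarith)] at h3
      have h4 : 1 / 2 ≤ sin (π / 2 / 2) := by
        have h5 := mul_le_sin (x := π / 2 / 2) (by positivity) (by linarith)
        have h6 : 2 / π * (π / 2 / 2) = 1 / 2 := by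
          field_simp
        rwa [h6] at h5
      linarith
    · rw [wf D hD0.le hDπ.le]
      have h3 := mul_le_sin (x := D / 2) (by linarith) (by linarith)
      have h4 : 2 * (2 / π * (D / 2)) ≤ 2 * sin (D / 2) := by linarith
      have h5 : D / 2 ≤ 2 * (2 / π * (D / 2)) := by
        have h6 : 2 * (2 / π * (D / 2)) = D * (2 / π) := by ring
        rw [h6]
        have h7 : 1 / 2 ≤ 2 / π := by
          rw [div_le_div_iff₀ (by norm_num) pi_pos]
          linarith
        nlinarith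
      -- s is far from the edge
      have hA1 : Th A s - k * π = (π - D) / 2 := by
        have : Th B s = D + Th A s := by rw [hDd]; ring
        rw [this] at hsum
        linarith
      have hsI : s ∈ Icc 0 π := ⟨by linarith [hs.1], by linarith [hs.2]⟩
      have htI : t ∈ Icc 0 π := ⟨h0.le, by linarith [hs.1, hs.2]⟩
      have hlip := F.lip A t htI s hsI hs.1.le
      rw [hA] at hlip
      have h6 : π / 4 ≤ n * s := by
        have : 0 ≤ n * t := by positivity
        nlinarith
      have hcm := F.cm2 A B hAB.le s ⟨by linarith [hs.1], by linarith [hs.2]⟩ t'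
        ⟨by linarith, by linarith⟩ hs.2.le
      have h7 := le_of_tan (N := n) (K := K) (α := π / 4) hn0 (by positivity) h6 hKt hs.2.le ht'1
        (by linarith) hD0.le hcm
      have h9 : η * (π / 4) ≤ 2 * K * D := by
        have := mul_le_mul_of_nonneg_right hD (show (0 : ℝ) ≤ π / 4 by positivity)
        linarith
      rw [div_le_iff₀ (by positivity)]
      nlinarith
  linarith

lemma arccos_between {t t' u : ℝ} (ht : t ∈ Icc 0 π) (ht' : t' ∈ Icc 0 π) (h1 : cos t' < u)
    (h2 : u < cos t) : t < arccos u ∧ arccos u < t' := by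
  have hu1 : -1 ≤ u := (neg_one_le_cos t').trans h1.le
  have hu2 : u ≤ 1 := h2.le.trans (cos_le_one t)
  constructor
  · have := arccos_lt_arccos hu1 h2 (cos_le_one t)
    rwa [arccos_cos ht.1 ht.2] at this
  · have := arccos_lt_arccos (neg_one_le_cos t') h1 hu2
    rwa [arccos_cos ht'.1 ht'.2] at this

theorem g1 (hW1 : W1) (hTy : Ty) (hB2 : B2) (hGr : Gr) (hPr : Pr) : G1 := by
  intro K0 δ hK0 hδ
  set K := max K0 1 with hKdef
  have hK1 : 1 ≤ K := le_max_right _ _
  have hK : 0 < K := by linarith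
  obtain ⟨cg0, hcg0, ng, hGr⟩ := hGr K hK
  set cg := min cg0 1 with hcg
  have hcg1 : cg ≤ 1 := min_le_right _ _
  have hcgp : 0 < cg := lt_min hcg0 one_pos
  obtain ⟨M, hM, nb, hB2⟩ := hB2 (K ^ 2 / 2 + 1) (δ / 2) (by positivity) (by positivity)
  set r := cg / (64 * K ^ 2 * (10 * M + 3)) with hr
  have hrp : 0 < r := by positivity
  set d := min (min 1 (δ / 2)) (r ^ 2) with hd
  have hd1 : d ≤ 1 := (min_le_left _ _).trans (min_le_left _ _)
  have hd2 : d ≤ δ / 2 := (min_le_left _ _).trans (min_le_right _ _)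
  have hdp : 0 < d := lt_min (lt_min one_pos (by positivity)) (by positivity)
  have hsd : √d ≤ r := by
    rw [Real.sqrt_le_left hrp.le]
    exact min_le_right _ _
  have hsd1 : √d ≤ 1 := by
    rw [Real.sqrt_le_left (by norm_num)]
    simpa using hd1
  have hsdp : 0 < √d := Real.sqrt_pos.2 hdp
  have hdd : √d * √d = d := Real.mul_self_sqrt hdp.le
  set η := cg * d * √d / (4 * K) with hη
  have hηp : 0 < η := by positivity
  have hη1 : η ≤ 1 := by
    rw [hη, div_le_one (by positivity)]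
    have h1 : cg * d ≤ 1 := by nlinarith
    have h2 : cg * d * √d ≤ 1 := by nlinarith [mul_pos hcgp hdp]
    linarith
  have hE : (10 * M + 3) * d ^ 2 ≤ η / (8 * K) / 2 := by
    have h1 : η / (8 * K) / 2 = cg * d * √d / (64 * K ^ 2) := by
      rw [hη]
      field_simp
      ring
    rw [h1, le_div_iff₀ (by positivity)]
    have h2 : √d * (64 * K ^ 2 * (10 * M + 3)) ≤ cg := by
      rw [hr, le_div_iff₀ (by positivity)] at hsd
      exact hsd
    have h3 : (10 * M + 3) * d ^ 2 * (64 * K ^ 2) = d * √d * (√d * (64 * K ^ 2 * (10 * M + 3))) := by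
      have : d ^ 2 = d * (√d * √d) := by rw [hdd]; ring
      rw [this]
      ring
    rw [h3]
    have := mul_le_mul_of_nonneg_left h2 (by positivity : 0 ≤ d * √d)
    nlinarith
  set c := min (η / (8 * K) / 2) (cg * d * √(δ / 2) / (4 * K)) with hc
  have hcp : 0 < c := lt_min (by positivity) (by positivity)
  have hc1 : c ≤ η / (8 * K) / 2 := min_le_left _ _
  have hc2 : c ≤ cg * d * √(δ / 2) / (4 * K) := min_le_right _ _
  have hcη : c ≤ η := by
    refine hc1.trans ?_
    rw [div_div, div_le_iff₀ (by positivity)]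
    nlinarith
  refine ⟨d, c, hdp, hcp, max (max ng nb) (⌈K⌉₊ + 8), ?_⟩
  intro n hn Th Z F P t t' L k hdeg hb h0 h12 hKt0 hsep hP1 hP1' hL hL' hor
  have hng : ng ≤ n := (le_max_left _ _).trans ((le_max_left _ _).trans hn)
  have hnb : nb ≤ n := (le_max_right _ _).trans ((le_max_left _ _).trans hn)
  have hnK : ⌈K⌉₊ + 8 ≤ n := (le_max_right _ _).trans hn
  have hn1 : 1 ≤ n := by omega
  have hn0 : (0 : ℝ) < n := by exact_mod_cast (show 0 < n by omega)
  have hn7 : K + 7 ≤ n := by
    have h1 : ((⌈K⌉₊ + 8 : ℕ) : ℝ) ≤ n := by exact_mod_cast hnK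
    push_cast at h1
    have := Nat.le_ceil K
    linarith
  have hKt : n * t' ≤ K := hKt0.trans (le_max_left _ _)
  have hpi3 := pi_gt_three
  have ht'1 : t' ≤ 1 := by
    by_contra hcon
    push Not at hcon
    nlinarith
  have htI : t ∈ Icc 0 π := ⟨h0.le, by linarith⟩
  have ht'I : t' ∈ Icc 0 π := ⟨by linarith, by linarith⟩
  have hn2 : (0 : ℝ) < (n : ℝ) ^ 2 := by positivity
  have hdn : 0 < d / (n : ℝ) ^ 2 := by positivity
  have hdn' : (n : ℝ) ^ 2 * (d / (n : ℝ) ^ 2) = d := by field_simp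
  have hz : cos t ∈ Icc (-1 : ℝ) 1 := ⟨neg_one_le_cos _, cos_le_one _⟩
  have hz' : cos t' ∈ Icc (-1 : ℝ) 1 := ⟨neg_one_le_cos _, cos_le_one _⟩
  have hzone : ∀ s : ℝ, 0 ≤ s → n * s ≤ K → (n : ℝ) ^ 2 * (1 - cos s) ≤ K ^ 2 / 2 + 1 := by
    intro s hs0 hs
    have h1 := one_sub_sq_div_two_le_cos (x := s)
    have h2 : (n * s) ^ 2 ≤ K ^ 2 := pow_le_pow_left₀ (by positivity) hs 2
    nlinarith [mul_le_mul_of_nonneg_left (show 1 - cos s ≤ s ^ 2 / 2 by linarith) hn2.le]
  rcases hor with hdg | hdg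
  · -- the first point is degenerate
    set u := cos t - d / (n : ℝ) ^ 2 with hu
    have hu1 : cos t' < u := by
      have : (n : ℝ) ^ 2 * cos t' < (n : ℝ) ^ 2 * u := by
        rw [hu, mul_sub, hdn']
        nlinarith
      exact lt_of_mul_lt_mul_left this hn2.le
    have hu2 : u < cos t := by rw [hu]; linarith
    obtain ⟨ha, hb'⟩ := arccos_between htI ht'I hu1 hu2
    have huI : u ∈ Icc (-1 : ℝ) 1 := ⟨hz'.1.trans hu1.le, hu2.le.trans hz.2⟩
    set t1 := arccos u with ht1
    have hct1 : cos t1 = u := cos_arccos huI.1 huI.2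
    have ht1I : t1 ∈ Ioo 0 π := ⟨by linarith, by linarith⟩
    have hnt1 : n * t1 ≤ K := by nlinarith
    obtain ⟨hs1, hs2⟩ := g1_slide hTy hn1 hdeg hb hz huI (d := d)
      (by rw [hu, sub_sub_cancel_left, abs_neg, abs_of_pos hdn]) hdp hd1 hP1 hdg
    obtain ⟨Q, hQd, hQb, hQ1, hQ2, hQ3⟩ := hB2 n hnb u (cos t') (5 * d ^ 2) P huI hz'
      (by rw [← hct1]; exact hzone t1 ht1I.1.le hnt1) (hzone t' ht'I.1 hKt)
      (by
        rw [abs_of_pos (by linarith)]
        rw [hu]
        nlinarith) hdeg hb (by positivity) hs1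
      (by rw [hP1', abs_zero]; positivity)
    obtain ⟨L1, hL1⟩ := fam_label F ht1I (k * π)
    obtain ⟨L2, hL2⟩ := fam_label F (θ := t') ⟨by linarith, by linarith⟩ ((k + 1) * π)
    have hgr := hGr n hng Th Z F L t t1 k h0 (by nlinarith) hL ⟨ht1I.1.le, ht1I.2.le⟩
    have hdist : (n : ℝ) ^ 2 * |cos t1 - cos t| = d := by
      rw [hct1, hu, sub_sub_cancel_left, abs_neg, abs_of_pos hdn, hdn']
    rw [hdist, min_eq_left hd1] at hgr
    have hinc : k * π < Th L t1 := by
      rw [← hL]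
      exact F.inc L htI ⟨ht1I.1.le, ht1I.2.le⟩ ha
    rw [abs_of_pos (by linarith)] at hgr
    have hΔ : cg * d ≤ Th L t1 - k * π :=
      (mul_le_mul_of_nonneg_right (min_le_left _ _) hdp.le).trans hgr
    have hL1L : L1 ≤ L := by
      by_contra hcon
      push Not at hcon
      have := F.mono t1 ht1I hcon
      simp only at this
      rw [hL1] at this
      linarith
    have hcm := F.cm1 L1 L hL1L t1 ht1I t' ⟨by linarith, by linarith⟩ hb'.le
    rw [hL1] at hcm
    have hnt1' : √d ≤ n * t1 := by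
      apply sqrt_le_mul_of_le hn0 ht1I.1.le hdp
      rw [hct1, hu]
      have := cos_le_one t
      nlinarith
    have hD' := le_of_tan (N := n) (K := K) (α := √d) hn0 hsdp hnt1' hKt hb'.le ht'1
      (by linarith) (by
        have := (F.mono t' ⟨by linarith, by linarith⟩).monotone hL1L
        linarith) hcm
    have hA : 2 * η ≤ Th L t' - Th L1 t' := by
      have h1 : cg * d * √d ≤ 2 * K * (Th L t' - Th L1 t') :=
        (mul_le_mul_of_nonneg_right hΔ hsdp.le).trans hD'
      have h2 : 2 * η = cg * d * √d / (2 * K) := by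
        rw [hη]
        field_simp
        ring
      rw [h2, div_le_iff₀ (by positivity)]
      linarith
    have hDη : η ≤ Th L2 t' - Th L1 t' := by
      rw [hL2]
      linarith
    have h12L : L1 < L2 := by
      by_contra hcon
      push Not at hcon
      have := (F.mono t' ⟨by linarith, by linarith⟩).monotone hcon
      linarith
    have hcore := g1_core hW1 hPr F hK1 hn7 ht1I.1 hb' hKt hQd hQb (by rw [hct1]; exact hQ1) hQ2
      hL1 hL2 h12L hηp.le hη1 hDη
    rw [hct1] at hcore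
    have e1 := (hQ3 _ hz').1
    have e2 := (hQ3 _ huI).1
    have : P.eval (cos t') - P.eval (cos t) = (Q.eval (cos t') - Q.eval u) -
        (Q.eval (cos t') - P.eval (cos t')) + (Q.eval u - P.eval u) +
        (P.eval u - P.eval (cos t)) := by ring
    rw [this]
    refine (abs_add_le _ _).trans ?_
    have e3 := abs_add_le (Q.eval (cos t') - Q.eval u - (Q.eval (cos t') - P.eval (cos t')))
      (Q.eval u - P.eval u)
    have e4 := abs_sub (Q.eval (cos t') - Q.eval u) (Q.eval (cos t') - P.eval (cos t'))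
    linarith
  · -- the second point is degenerate
    set u := cos t' + d / (n : ℝ) ^ 2 with hu
    have hu2 : u < cos t := by
      have : (n : ℝ) ^ 2 * u < (n : ℝ) ^ 2 * cos t := by
        rw [hu, mul_add, hdn']
        nlinarith
      exact lt_of_mul_lt_mul_left this hn2.le
    have hu1 : cos t' < u := by rw [hu]; linarith
    obtain ⟨ha, hb'⟩ := arccos_between htI ht'I hu1 hu2
    have huI : u ∈ Icc (-1 : ℝ) 1 := ⟨hz'.1.trans hu1.le, hu2.le.trans hz.2⟩
    set t1 := arccos u with ht1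
    have hct1 : cos t1 = u := cos_arccos huI.1 huI.2
    have ht1I : t1 ∈ Ioo 0 π := ⟨by linarith, by linarith⟩
    have ht'J : t' ∈ Ioo 0 π := ⟨by linarith, by linarith⟩
    have hnt1 : n * t1 ≤ K := by nlinarith
    obtain ⟨hs1, hs2⟩ := g1_slide hTy hn1 hdeg hb hz' huI (d := d)
      (by rw [hu, add_sub_cancel_left, abs_of_pos hdn]) hdp hd1 hP1' hdg
    obtain ⟨Q, hQd, hQb, hQ1, hQ2, hQ3⟩ := hB2 n hnb u (cos t) (5 * d ^ 2) P huI hz
      (by rw [← hct1]; exact hzone t1 ht1I.1.le hnt1) (hzone t htI.1 (by nlinarith))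
      (by
        rw [abs_of_neg (by linarith)]
        rw [hu]
        nlinarith) hdeg hb (by positivity) hs1
      (by rw [hP1, abs_zero]; positivity)
    obtain ⟨L2, hL2⟩ := fam_label F ht'J ((k + 1) * π)
    obtain ⟨L3, hL3⟩ := fam_label F ht1I ((k + 1) * π)
    have hgr := hGr n hng Th Z F L2 t' t1 (k + 1) ht'J.1 hKt (by rw [hL2]; push_cast; ring)
      ⟨ht1I.1.le, ht1I.2.le⟩
    have hdist : (n : ℝ) ^ 2 * |cos t1 - cos t'| = d := by
      rw [hct1, hu, add_sub_cancel_left, abs_of_pos hdn, hdn']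
    rw [hdist, min_eq_left hd1] at hgr
    have hinc : Th L2 t1 < (k + 1) * π := by
      rw [← hL2]
      exact F.inc L2 ⟨ht1I.1.le, ht1I.2.le⟩ ht'I hb'
    push_cast at hgr
    rw [abs_of_neg (by linarith)] at hgr
    have hΔ : cg * d ≤ (k + 1) * π - Th L2 t1 := by
      have := (mul_le_mul_of_nonneg_right (min_le_left cg0 1) hdp.le).trans hgr
      linarith
    have hsδ : 0 < √(δ / 2) := Real.sqrt_pos.2 (by positivity)
    have hkey : Th L t1 ≤ (k + 1) * π - cg * d / 2 := by
      rcases le_or_gt L L2 with hLL | hLL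
      · have := (F.mono t1 ht1I).monotone hLL
        have : 0 ≤ cg * d := by positivity
        linarith
      · have hcm := F.cm1 L2 L hLL.le t1 ht1I t' ht'J hb'.le
        have hnt1' : √(δ / 2) ≤ n * t1 := by
          apply sqrt_le_mul_of_le hn0 ht1I.1.le (by positivity)
          rw [hct1, hu]
          have := cos_le_one t
          nlinarith
        have hD' := le_of_tan (N := n) (K := K) (α := √(δ / 2)) hn0 hsδ hnt1' hKt hb'.le ht'1
          (by
            have := (F.mono t1 ht1I).monotone hLL.le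
            linarith) (by
            have := (F.mono t' ht'J).monotone hLL.le
            linarith) hcm
        rw [hL2] at hD'
        have h1 : (Th L t1 - Th L2 t1) * √(δ / 2) ≤ 2 * K * c := by
          refine hD'.trans ?_
          apply mul_le_mul_of_nonneg_left _ (by positivity)
          linarith
        have h2 : 2 * K * c ≤ cg * d / 2 * √(δ / 2) := by
          have h3 : 2 * K * (cg * d * √(δ / 2) / (4 * K)) = cg * d / 2 * √(δ / 2) := by
            field_simp
            ring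
          rw [← h3]
          exact mul_le_mul_of_nonneg_left hc2 (by positivity)
        have h4 : Th L t1 - Th L2 t1 ≤ cg * d / 2 := le_of_mul_le_mul_right (h1.trans h2) hsδ
        linarith
    have hDη : η ≤ Th L3 t1 - Th L t1 := by
      rw [hL3]
      have h1 : η ≤ cg * d / 2 := by
        rw [hη, div_le_iff₀ (by positivity)]
        have h2 : cg * d * √d ≤ cg * d := by nlinarith [mul_pos hcgp hdp]
        nlinarith [mul_pos hcgp hdp]
      linarith
    have h12L : L < L3 := by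
      by_contra hcon
      push Not at hcon
      have := (F.mono t1 ht1I).monotone hcon
      linarith
    have hcore := g1_core hW1 hPr F hK1 hn7 h0 ha hnt1 hQd hQb hQ2 (by rw [hct1]; exact hQ1)
      hL hL3 h12L hηp.le hη1 hDη
    rw [hct1] at hcore
    have e1 := (hQ3 _ hz).1
    have e2 := (hQ3 _ huI).1
    have : P.eval (cos t') - P.eval (cos t) = (Q.eval u - Q.eval (cos t)) +
        (Q.eval (cos t) - P.eval (cos t)) - (Q.eval u - P.eval u) -
        (P.eval u - P.eval (cos t')) := by ring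
    rw [this]
    refine (abs_sub _ _).trans ?_
    have e3 := abs_sub (Q.eval u - Q.eval (cos t) + (Q.eval (cos t) - P.eval (cos t)))
      (Q.eval u - P.eval u)
    have e4 := abs_add_le (Q.eval u - Q.eval (cos t)) (Q.eval (cos t) - P.eval (cos t))
    linarith

end

end Pool.Agent.Helper40.TV
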