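import Pool.Agent.Helper40.TV.St1
import Pool.Agent.Helper40.TV.St3

set_option autoImplicit false

namespace Pool.Agent.Helper40.TV

open Polynomial Set Real
open Pool.Agent.Helper40.AS (Bdd)

noncomputable section

lemma g2_surj {n : ℕ} {Th : ℝ → ℝ → ℝ} {Z : ℝ → ℝ[X]} (F : Fam n Th Z) {θ : ℝ}
    (hθ : θ ∈ Ioo 0 π) (y : ℝ) : ∃ L, Th L θ = y := by
  have hint : ∀ m : ℕ, Th m θ = Th 0 θ + m * π ∧ Th (-(m : ℝ)) θ = Th 0 θ - m * π := by
    intro m
    induction m with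
    | zero => simp
    | succ m ih =>
      constructor
      · push_cast
        rw [F.unit, ih.1]; ring
      · have h := F.unit (-((m : ℝ) + 1)) θ
        have e : -((m : ℝ) + 1) + 1 = -(m : ℝ) := by ring
        rw [e, ih.2] at h
        push_cast
        linarith
  obtain ⟨m, hm⟩ := exists_nat_ge (|y - Th 0 θ| / π)
  rw [div_le_iff₀ pi_pos] at hm
  have hm' := abs_le.mp hm
  have hcont : ContinuousOn (fun L => Th L θ) (Icc (-(m : ℝ)) m) := (F.cont θ hθ).continuousOn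
  have hle : -(m : ℝ) ≤ m := by have : (0 : ℝ) ≤ m := Nat.cast_nonneg m; linarith
  have := intermediate_value_Icc hle hcont
  have hy : y ∈ Icc (Th (-(m : ℝ)) θ) (Th m θ) := by
    rw [(hint m).1, (hint m).2]
    exact ⟨by linarith [hm'.1], by linarith [hm'.2]⟩
  obtain ⟨L, -, hL⟩ := this hy
  exact ⟨L, hL⟩

lemma g2_tan {x : ℝ} (h0 : 0 ≤ x) (h1 : x ≤ 1) : tan (x / 2) ≤ x := by
  rw [tan_eq_sin_div_cos]
  have hc : 1 - (x / 2) ^ 2 / 2 ≤ cos (x / 2) := one_sub_sq_div_two_le_cos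
  have hc' : 1 / 2 ≤ cos (x / 2) := by nlinarith
  rw [div_le_iff₀ (by linarith)]
  have hs : sin (x / 2) ≤ x / 2 := sin_le (by linarith)
  nlinarith

/-- lower bound for the difference of cosines -/
lemma g2_cos {μ a D : ℝ} (hμ : 0 < μ) (ha : μ ≤ a) (hD : 0 ≤ D) (hb : a + D ≤ π - μ) :
    μ * D / 3 ≤ cos a - cos (a + D) := by
  have h1 : cos a - cos (a + D) = 2 * sin (a + D / 2) * sin (D / 2) := by
    rw [cos_sub_cos]
    have e1 : (a + (a + D)) / 2 = a + D / 2 := by ring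
    have e2 : (a - (a + D)) / 2 = -(D / 2) := by ring
    rw [e1, e2, sin_neg]; ring
  have hpi := pi_pos
  have hpi4 := pi_lt_d2
  have hsin : ∀ x, μ ≤ x → x ≤ π - μ → 2 / π * μ ≤ sin x := by
    intro x hx1 hx2
    rcases le_total x (π / 2) with h | h
    · have := mul_le_sin (by linarith : 0 ≤ x) h
      have h2 : 2 / π * μ ≤ 2 / π * x := mul_le_mul_of_nonneg_left hx1 (by positivity)
      linarith
    · have := mul_le_sin (by linarith : 0 ≤ π - x) (by linarith)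
      rw [sin_pi_sub] at this
      have h2 : 2 / π * μ ≤ 2 / π * (π - x) := mul_le_mul_of_nonneg_left (by linarith) (by positivity)
      linarith
  have h2 := hsin (a + D / 2) (by linarith) (by linarith)
  have h3 : 2 / π * (D / 2) ≤ sin (D / 2) := mul_le_sin (by linarith) (by linarith)
  rw [h1]
  have h4 : 2 * (2 / π * μ) * (2 / π * (D / 2)) ≤ 2 * sin (a + D / 2) * sin (D / 2) := by
    have p1 : 0 ≤ 2 / π * μ := by positivity
    have p2 : 0 ≤ 2 / π * (D / 2) := by positivity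
    have := mul_le_mul (mul_le_mul_of_nonneg_left h2 (by norm_num : (0:ℝ) ≤ 2)) h3 p2
      (by linarith)
    exact this
  refine le_trans ?_ h4
  have e : 2 * (2 / π * μ) * (2 / π * (D / 2)) = μ * D * (4 / π ^ 2) := by
    field_simp; ring
  rw [e, mul_div_assoc, mul_assoc]
  apply mul_le_mul_of_nonneg_left _ hμ.le
  have h5 : 1 / 3 ≤ 4 / π ^ 2 := by
    rw [div_le_div_iff₀ (by norm_num) (by positivity)]
    nlinarith
  calc D / 3 = D * (1 / 3) := by ring
    _ ≤ D * (4 / π ^ 2) := mul_le_mul_of_nonneg_left h5 hD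

/-- the member with node at `t1`, between `t` and `s` -/
lemma g2_slide {n : ℕ} {Th : ℝ → ℝ → ℝ} {Z : ℝ → ℝ[X]} (F : Fam n Th Z) {K δ η cg : ℝ}
    (hK : 0 < K) (hKn : K ≤ n) (hη : 0 < η) (hη1 : η ≤ 1) (hηδ : η ≤ δ / 2)
    (hcg : 0 < cg) {t s L : ℝ} {k : ℤ} (ht : 0 < t) (htK : n * t ≤ K) (hsδ : δ ≤ n * s)
    (hsK : n * s ≤ K) (hdist : δ ≤ (n : ℝ) ^ 2 * |cos s - cos t|) (hTh : Th L t = k * π)
    (hGr : ∀ (L t s : ℝ), 0 < t → n * t ≤ K → Th L t = k * π →
      s ∈ Icc 0 π → cg * min ((n : ℝ) ^ 2 * |cos s - cos t|) 1 ≤ |Th L s - k * π|) :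
    ∃ t1 L1 D : ℝ, 0 < t1 ∧ t1 ≤ 1 ∧ n * t1 ≤ K ∧ |cos t1 - cos t| = η ^ 2 / (n : ℝ) ^ 2 ∧
      Th L1 t1 = k * π ∧ |Th L s - k * π| = |Th L1 s - k * π| + D ∧ cg * η ^ 3 / (2 * K) ≤ D ∧
      cg * min (δ / 2) 1 ≤ |Th L1 s - k * π| := by
  have hn0 : (0 : ℝ) < n := hK.trans_le hKn
  have hδ : 0 < δ := by linarith
  have hs0 : 0 < s := by
    by_contra hcon
    push Not at hcon
    have : (n : ℝ) * s ≤ 0 := mul_nonpos_of_nonneg_of_nonpos hn0.le hcon
    linarith
  have ht1' : t ≤ 1 := by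
    by_contra hcon
    push Not at hcon
    nlinarith
  have hs1' : s ≤ 1 := by
    by_contra hcon
    push Not at hcon
    nlinarith
  have hpi := pi_gt_three
  have hn2 : (0 : ℝ) < (n : ℝ) ^ 2 := by positivity
  have hη2 : η ^ 2 ≤ δ / 2 := by nlinarith
  have hη21 : η ^ 2 ≤ 1 := by nlinarith
  set w := η ^ 2 / (n : ℝ) ^ 2 with hw
  have hw0 : 0 < w := by positivity
  have hnw : (n : ℝ) ^ 2 * w = η ^ 2 := by rw [hw]; field_simp
  rcases lt_trichotomy t s with hts | hts | hts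
  · -- t < s
    have hcos : cos s < cos t := strictAntiOn_cos ⟨ht.le, by linarith⟩ ⟨hs0.le, by linarith⟩ hts
    rw [abs_of_neg (by linarith)] at hdist
    have hu1 : cos s < cos t - w := by
      have : (n : ℝ) ^ 2 * (cos t - w - cos s) > 0 := by nlinarith
      have := (mul_pos_iff_of_pos_left hn2).mp this
      linarith
    have hu2 : cos t - w < cos t := by linarith
    have hm1 : -1 ≤ cos s := neg_one_le_cos s
    have hm2 : cos t ≤ 1 := cos_le_one t
    set t1 := arccos (cos t - w) with ht1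
    have hct1 : cos t1 = cos t - w := cos_arccos (by linarith) (by linarith)
    have htt1 : t < t1 := by
      have := strictAntiOn_arccos (a := cos t - w) (b := cos t) ⟨by linarith, by linarith⟩
        ⟨by linarith, by linarith⟩ hu2
      rwa [arccos_cos ht.le (by linarith)] at this
    have ht1s : t1 < s := by
      have := strictAntiOn_arccos (a := cos s) (b := cos t - w) ⟨by linarith, by linarith⟩
        ⟨by linarith, by linarith⟩ hu1
      rwa [arccos_cos hs0.le (by linarith)] at this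
    have ht10 : 0 < t1 := ht.trans htt1
    have ht11 : t1 ≤ 1 := ht1s.le.trans hs1'
    have ht1K : n * t1 ≤ K := le_trans (mul_le_mul_of_nonneg_left ht1s.le hn0.le) hsK
    have hdt : |cos t1 - cos t| = w := by
      rw [hct1]
      have : cos t - w - cos t = -w := by ring
      rw [this, abs_neg, abs_of_pos hw0]
    have hinc : Th L t < Th L t1 := F.inc L ⟨ht.le, by linarith⟩ ⟨ht10.le, by linarith⟩ htt1
    have hΔ := hGr L t t1 ht htK hTh ⟨ht10.le, by linarith⟩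
    rw [hdt, hnw, min_eq_left hη21, abs_of_pos (by linarith)] at hΔ
    obtain ⟨L1, hL1⟩ := g2_surj F (θ := t1) ⟨ht10, by linarith⟩ (k * π)
    have hLL : L1 < L := by
      rw [← (F.mono t1 ⟨ht10, by linarith⟩).lt_iff_lt]
      show Th L1 t1 < Th L t1
      rw [hL1]; linarith
    have hcm := F.cm1 L1 L hLL.le t1 ⟨ht10, by linarith⟩ s ⟨hs0, by linarith⟩ ht1s.le
    rw [hL1] at hcm
    have hDs : Th L1 t1 < Th L1 s := F.inc L1 ⟨ht10.le, by linarith⟩ ⟨hs0.le, by linarith⟩ ht1s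
    have hLs : Th L1 s < Th L s := F.mono s ⟨hs0, by linarith⟩ hLL
    have hΦ1 := hGr L1 t1 s ht10 ht1K hL1 ⟨hs0.le, by linarith⟩
    have hdist1 : δ / 2 ≤ (n : ℝ) ^ 2 * |cos s - cos t1| := by
      rw [hct1, abs_of_neg (by linarith)]
      nlinarith
    refine ⟨t1, L1, Th L s - Th L1 s, ht10, ht11, ht1K, hdt, hL1, ?_, ?_, ?_⟩
    · rw [abs_of_pos (by linarith), abs_of_pos (by linarith)]; ring
    · -- bound of D
      have h1 : η ≤ n * t1 := by
        have hc : 1 - t1 ^ 2 / 2 ≤ cos t1 := one_sub_sq_div_two_le_cos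
        have hc2 : w ≤ t1 ^ 2 / 2 := by rw [hct1] at hc; linarith
        have hc3 : η ^ 2 ≤ (n * t1) ^ 2 / 2 := by
          rw [← hnw]
          calc (n : ℝ) ^ 2 * w ≤ (n : ℝ) ^ 2 * (t1 ^ 2 / 2) := mul_le_mul_of_nonneg_left hc2 hn2.le
            _ = (n * t1) ^ 2 / 2 := by ring
        have hc4 : 0 < (n : ℝ) * t1 := by positivity
        nlinarith
      have h2 : t1 / 2 ≤ tan (t1 / 2) := le_tan (by linarith) (by linarith)
      have h3 : tan (s / 2) ≤ s := g2_tan hs0.le hs1'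
      have h4 : cg * η ^ 2 * (t1 / 2) ≤ (Th L s - Th L1 s) * s := by
        calc cg * η ^ 2 * (t1 / 2) ≤ (Th L t1 - k * π) * tan (t1 / 2) :=
              mul_le_mul (by linarith) h2 (by linarith) (by linarith)
          _ ≤ (Th L s - Th L1 s) * tan (s / 2) := hcm
          _ ≤ (Th L s - Th L1 s) * s := mul_le_mul_of_nonneg_left h3 (by linarith)
      have h5 : cg * η ^ 2 * (n * t1 / 2) ≤ (Th L s - Th L1 s) * K := by
        calc cg * η ^ 2 * (n * t1 / 2) = n * (cg * η ^ 2 * (t1 / 2)) := by ring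
          _ ≤ n * ((Th L s - Th L1 s) * s) := mul_le_mul_of_nonneg_left h4 hn0.le
          _ = (Th L s - Th L1 s) * (n * s) := by ring
          _ ≤ (Th L s - Th L1 s) * K := mul_le_mul_of_nonneg_left hsK (by linarith)
      rw [div_le_iff₀ (by positivity)]
      have h6 : cg * η ^ 2 * η ≤ cg * η ^ 2 * (n * t1) :=
        mul_le_mul_of_nonneg_left h1 (by positivity)
      nlinarith
    · refine le_trans (mul_le_mul_of_nonneg_left ?_ hcg.le) hΦ1
      exact min_le_min_right 1 hdist1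
  · exfalso
    rw [hts, sub_self, abs_zero, mul_zero] at hdist
    linarith
  · -- s < t
    have hcos : cos t < cos s := strictAntiOn_cos ⟨hs0.le, by linarith⟩ ⟨ht.le, by linarith⟩ hts
    rw [abs_of_pos (by linarith)] at hdist
    have hu1 : cos t + w < cos s := by
      have : (n : ℝ) ^ 2 * (cos s - (cos t + w)) > 0 := by nlinarith
      have := (mul_pos_iff_of_pos_left hn2).mp this
      linarith
    have hu2 : cos t < cos t + w := by linarith
    have hm1 : -1 ≤ cos t := neg_one_le_cos t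
    have hm2 : cos s ≤ 1 := cos_le_one s
    set t1 := arccos (cos t + w) with ht1
    have hct1 : cos t1 = cos t + w := cos_arccos (by linarith) (by linarith)
    have htt1 : t1 < t := by
      have := strictAntiOn_arccos (a := cos t) (b := cos t + w) ⟨by linarith, by linarith⟩
        ⟨by linarith, by linarith⟩ hu2
      rwa [arccos_cos ht.le (by linarith)] at this
    have ht1s : s < t1 := by
      have := strictAntiOn_arccos (a := cos t + w) (b := cos s) ⟨by linarith, by linarith⟩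
        ⟨by linarith, by linarith⟩ hu1
      rwa [arccos_cos hs0.le (by linarith)] at this
    have ht10 : 0 < t1 := hs0.trans ht1s
    have ht11 : t1 ≤ 1 := htt1.le.trans ht1'
    have ht1K : n * t1 ≤ K := le_trans (mul_le_mul_of_nonneg_left htt1.le hn0.le) htK
    have hdt : |cos t1 - cos t| = w := by
      rw [hct1]
      have : cos t + w - cos t = w := by ring
      rw [this, abs_of_pos hw0]
    have hinc : Th L t1 < Th L t := F.inc L ⟨ht10.le, by linarith⟩ ⟨ht.le, by linarith⟩ htt1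
    have hΔ := hGr L t t1 ht htK hTh ⟨ht10.le, by linarith⟩
    rw [hdt, hnw, min_eq_left hη21, abs_of_neg (by linarith)] at hΔ
    obtain ⟨L1, hL1⟩ := g2_surj F (θ := t1) ⟨ht10, by linarith⟩ (k * π)
    have hLL : L < L1 := by
      rw [← (F.mono t1 ⟨ht10, by linarith⟩).lt_iff_lt]
      show Th L t1 < Th L1 t1
      rw [hL1]; linarith
    have hcm := F.cm2 L L1 hLL.le s ⟨hs0, by linarith⟩ t1 ⟨ht10, by linarith⟩ ht1s.le
    rw [hL1] at hcm
    have hDs : Th L1 s < Th L1 t1 := F.inc L1 ⟨hs0.le, by linarith⟩ ⟨ht10.le, by linarith⟩ ht1s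
    have hLs : Th L s < Th L1 s := F.mono s ⟨hs0, by linarith⟩ hLL
    have hΦ1 := hGr L1 t1 s ht10 ht1K hL1 ⟨hs0.le, by linarith⟩
    have hdist1 : δ / 2 ≤ (n : ℝ) ^ 2 * |cos s - cos t1| := by
      rw [hct1, abs_of_pos (by linarith)]
      nlinarith
    refine ⟨t1, L1, Th L1 s - Th L s, ht10, ht11, ht1K, hdt, hL1, ?_, ?_, ?_⟩
    · rw [abs_of_neg (by linarith), abs_of_neg (by linarith)]; ring
    · -- bound of D
      have h2 : s / 2 ≤ tan (s / 2) := le_tan (by linarith) (by linarith)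
      have h3 : tan (t1 / 2) ≤ t1 := g2_tan ht10.le ht11
      have h4 : cg * η ^ 2 * (s / 2) ≤ (Th L1 s - Th L s) * t1 := by
        calc cg * η ^ 2 * (s / 2) ≤ (k * π - Th L t1) * tan (s / 2) :=
              mul_le_mul (by linarith) h2 (by linarith) (by linarith)
          _ ≤ (Th L1 s - Th L s) * tan (t1 / 2) := hcm
          _ ≤ (Th L1 s - Th L s) * t1 := mul_le_mul_of_nonneg_left h3 (by linarith)
      have h5 : cg * η ^ 2 * (n * s / 2) ≤ (Th L1 s - Th L s) * K := by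
        calc cg * η ^ 2 * (n * s / 2) = n * (cg * η ^ 2 * (s / 2)) := by ring
          _ ≤ n * ((Th L1 s - Th L s) * t1) := mul_le_mul_of_nonneg_left h4 hn0.le
          _ = (Th L1 s - Th L s) * (n * t1) := by ring
          _ ≤ (Th L1 s - Th L s) * K := mul_le_mul_of_nonneg_left ht1K (by linarith)
      rw [div_le_iff₀ (by positivity)]
      have h6 : cg * η ^ 2 * η ≤ cg * η ^ 2 * (n * s) :=
        mul_le_mul_of_nonneg_left (by linarith) (by positivity)
      nlinarith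
    · refine le_trans (mul_le_mul_of_nonneg_left ?_ hcg.le) hΦ1
      exact min_le_min_right 1 hdist1

/-- near the full phase -/
lemma g2_ii {n : ℕ} {Th : ℝ → ℝ → ℝ} {Z : ℝ → ℝ[X]} (F : Fam n Th Z) {K δ M ε1 c1 r c ε : ℝ}
    (hK : 0 < K) (hKn : K ≤ n) (hδ : 0 < δ) (hM : 0 < M) (hc1 : 0 < c1) (hr : 0 < r)
    (hr1 : r ≤ 1) (hrδ : r ≤ δ ^ 2 / 5) (hrM : 6 * M * r ≤ c1 / 4) (hrε : 3 * M * r ≤ ε1 / 2)
    (hrc : r ≤ c1 / 4) (hε : ε ≤ ε1 / 2) (hc0 : 0 < c) (hc : c ≤ c1) (hcK : c * (2 * K / δ) ≤ c1)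
    (hNd : Nd)
    (hB2 : ∀ (u v e : ℝ) (P : ℝ[X]), u ∈ Icc (-1 : ℝ) 1 → v ∈ Icc (-1 : ℝ) 1 →
      (n : ℝ) ^ 2 * (1 - u) ≤ K ^ 2 →
      (n : ℝ) ^ 2 * (1 - v) ≤ K ^ 2 → δ ≤ (n : ℝ) ^ 2 * |u - v| → P.natDegree ≤ n → Bdd P → 0 ≤ e →
      |P.derivative.eval u| ≤ e * (n : ℝ) ^ 2 → |P.derivative.eval v| ≤ e * (n : ℝ) ^ 2 →
      ∃ Q : ℝ[X], Q.natDegree ≤ n ∧ Bdd Q ∧ Q.derivative.eval u = 0 ∧ Q.derivative.eval v = 0 ∧
      ∀ x ∈ Icc (-1 : ℝ) 1, |Q.eval x - P.eval x| ≤ M * e ∧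
        |Q.derivative.eval x - P.derivative.eval x| ≤ M * e * (n : ℝ) ^ 2 ∧
        |Q.derivative.derivative.eval x - P.derivative.derivative.eval x| ≤ M * e * (n : ℝ) ^ 4)
    (hG1 : ∀ (P : ℝ[X]) (t t' L : ℝ) (k : ℤ),
      P.natDegree ≤ n → Bdd P → 0 < t → t < t' → n * t' ≤ K → δ ≤ (n : ℝ) ^ 2 * (cos t - cos t') →
      P.derivative.eval (cos t) = 0 → P.derivative.eval (cos t') = 0 → Th L t = k * π →
      Th L t' ≤ (k + 1) * π + c1 →
      (|P.derivative.derivative.eval (cos t)| ≤ ε1 * (n : ℝ) ^ 4 ∨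
        |P.derivative.derivative.eval (cos t')| ≤ ε1 * (n : ℝ) ^ 4) →
      |P.eval (cos t') - P.eval (cos t)| ≤ 2 - c1)
    {P : ℝ[X]} (hdeg : P.natDegree ≤ n) (hP : Bdd P)
    {t s L : ℝ} {k : ℤ} (ht : 0 < t) (htK : n * t ≤ K) (hsδ : δ ≤ n * s)
    (hsK : n * s ≤ K) (hdist : δ ≤ (n : ℝ) ^ 2 * |cos s - cos t|)
    (hP' : P.derivative.eval (cos t) = 0)
    (hP'' : |P.derivative.derivative.eval (cos t)| ≤ ε * (n : ℝ) ^ 4) (hTh : Th L t = k * π)
    (hΦ : |Th L s - k * π| ≤ π + c) :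
    |P.eval (cos s) - P.eval (cos t)| ≤ 2 - r ^ 2 := by
  have hn0 : (0 : ℝ) < n := hK.trans_le hKn
  have hn1 : 1 ≤ n := by
    have : n ≠ 0 := by rintro rfl; simp at hn0
    omega
  have hs0 : 0 < s := by
    by_contra hcon
    push Not at hcon
    have : (n : ℝ) * s ≤ 0 := mul_nonpos_of_nonneg_of_nonpos hn0.le hcon
    linarith
  have ht1' : t ≤ 1 := by
    by_contra hcon
    push Not at hcon
    nlinarith
  have hs1' : s ≤ 1 := by
    by_contra hcon
    push Not at hcon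
    nlinarith
  have hpi := pi_gt_three
  have hn2 : (0 : ℝ) < (n : ℝ) ^ 2 := by positivity
  have hmem : ∀ x : ℝ, cos x ∈ Icc (-1 : ℝ) 1 := fun x => ⟨neg_one_le_cos x, cos_le_one x⟩
  by_contra hcon
  push Not at hcon
  have hPt : |P.eval (cos t)| ≤ 1 := hP _ (hmem t)
  have hPs : 1 - r ^ 2 ≤ |P.eval (cos s)| := by
    have := abs_sub (P.eval (cos s)) (P.eval (cos t))
    linarith
  have hcq : cos s ≤ 1 - 2 / π ^ 2 * s ^ 2 := cos_le_one_sub_mul_cos_sq (by
    rw [abs_of_pos hs0]; linarith)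
  have hpi2 : π ^ 2 < 10 := by have := pi_lt_d2; nlinarith
  have hcq2 : s ^ 2 / 5 ≤ 1 - cos s := by
    have h1 : (1 : ℝ) / 5 ≤ 2 / π ^ 2 := by
      rw [div_le_div_iff₀ (by norm_num) (by positivity)]; linarith
    nlinarith [sq_nonneg s]
  have hcq3 : r / (n : ℝ) ^ 2 ≤ 1 - cos s := by
    rw [div_le_iff₀ hn2]
    have h2 : δ ^ 2 ≤ (n * s) ^ 2 := by nlinarith
    nlinarith
  have hcos0 : 0 ≤ cos s := by
    have : 1 - s ^ 2 / 2 ≤ cos s := one_sub_sq_div_two_le_cos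
    nlinarith
  have hrn : r / (n : ℝ) ^ 2 ≤ 1 := by
    rw [div_le_one hn2]
    have : (1 : ℝ) ≤ n := by exact_mod_cast hn1
    nlinarith
  have hnd := hNd n P (cos s) (r ^ 2) hn1 hdeg hP (by positivity) (by
    rw [sqrt_sq hr.le]; linarith) (by rw [sqrt_sq hr.le]; linarith) hPs
  rw [sqrt_sq hr.le] at hnd
  have hk2 : ∀ x : ℝ, 0 < x → n * x ≤ K → (n : ℝ) ^ 2 * (1 - cos x) ≤ K ^ 2 := by
    intro x hx hxK
    have h1 : 1 - x ^ 2 / 2 ≤ cos x := one_sub_sq_div_two_le_cos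
    have h2 : 0 < (n : ℝ) * x := by positivity
    have h3 : (n * x) ^ 2 ≤ K ^ 2 := pow_le_pow_left₀ h2.le hxK 2
    calc (n : ℝ) ^ 2 * (1 - cos x) ≤ (n : ℝ) ^ 2 * (x ^ 2 / 2) :=
          mul_le_mul_of_nonneg_left (by linarith) hn2.le
      _ = (n * x) ^ 2 / 2 := by ring
      _ ≤ K ^ 2 := by nlinarith
  obtain ⟨Q, hQdeg, hQ, hQs, hQt, hQP⟩ := hB2 (cos s) (cos t) (3 * r) P (hmem s) (hmem t)
    (hk2 s hs0 hsK) (hk2 t ht htK) hdist hdeg hP (by positivity) hnd (by
      rw [hP', abs_zero]; positivity)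
  have hQ'' : |Q.derivative.derivative.eval (cos t)| ≤ ε1 * (n : ℝ) ^ 4 := by
    have h1 := (hQP (cos t) (hmem t)).2.2
    have h2 : |Q.derivative.derivative.eval (cos t)| ≤
        |Q.derivative.derivative.eval (cos t) - P.derivative.derivative.eval (cos t)| +
          |P.derivative.derivative.eval (cos t)| := by
      have := abs_add_le (Q.derivative.derivative.eval (cos t) - P.derivative.derivative.eval (cos t))
        (P.derivative.derivative.eval (cos t))
      simpa using this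
    have hn4 : (0 : ℝ) < (n : ℝ) ^ 4 := by positivity
    calc _ ≤ M * (3 * r) * (n : ℝ) ^ 4 + ε * (n : ℝ) ^ 4 := by linarith
      _ = (3 * M * r + ε) * (n : ℝ) ^ 4 := by ring
      _ ≤ ε1 * (n : ℝ) ^ 4 := mul_le_mul_of_nonneg_right (by linarith) hn4.le
  have hmain : |Q.eval (cos s) - Q.eval (cos t)| ≤ 2 - c1 := by
    have hΦ' := abs_le.mp hΦ
    rcases lt_trichotomy t s with hts | hts | hts
    · have hcos : cos s < cos t := strictAntiOn_cos ⟨ht.le, by linarith⟩ ⟨hs0.le, by linarith⟩ hts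
      rw [abs_of_neg (by linarith)] at hdist
      exact hG1 Q t s L k hQdeg hQ ht hts hsK (by linarith) hQt hQs hTh
        (by linarith [hΦ'.2]) (Or.inl hQ'')
    · exfalso
      rw [hts, sub_self, abs_zero, mul_zero] at hdist
      linarith
    · have hcos : cos t < cos s := strictAntiOn_cos ⟨hs0.le, by linarith⟩ ⟨ht.le, by linarith⟩ hts
      rw [abs_of_pos (by linarith)] at hdist
      obtain ⟨L1, hL1⟩ := g2_surj F (θ := s) ⟨hs0, by linarith⟩ ((k - 1) * π)
      rw [abs_sub_comm]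
      apply hG1 Q s t L1 (k - 1) hQdeg hQ hs0 hts htK hdist hQs hQt (by push_cast; exact hL1) _
        (Or.inr hQ'')
      push_cast
      rcases le_total L1 L with hLL | hLL
      · have h1 : Th L1 t ≤ Th L t := (F.mono t ⟨ht, by linarith⟩).monotone hLL
        rw [hTh] at h1
        linarith
      · have hcm := F.cm2 L L1 hLL s ⟨hs0, by linarith⟩ t ⟨ht, by linarith⟩ hts.le
        rw [hTh, hL1] at hcm
        have h2 : s / 2 ≤ tan (s / 2) := le_tan (by linarith) (by linarith)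
        have h3 : tan (t / 2) ≤ t := g2_tan ht.le ht1'
        have h3' : 0 ≤ tan (t / 2) := le_trans (by linarith) (le_tan (by linarith : 0 ≤ t / 2)
          (by linarith))
        have h4 : 0 ≤ Th L1 t - k * π := by
          have h1 : Th L t ≤ Th L1 t := (F.mono t ⟨ht, by linarith⟩).monotone hLL
          rw [hTh] at h1; linarith
        have h5 : (Th L1 t - k * π) * (s / 2) ≤ c * t := by
          calc (Th L1 t - k * π) * (s / 2) ≤ (Th L1 t - k * π) * tan (s / 2) :=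
                mul_le_mul_of_nonneg_left h2 h4
            _ ≤ ((k - 1) * π - Th L s) * tan (t / 2) := hcm
            _ ≤ c * tan (t / 2) := mul_le_mul_of_nonneg_right (by linarith [hΦ'.1]) h3'
            _ ≤ c * t := mul_le_mul_of_nonneg_left h3 hc0.le
        have h6 : (Th L1 t - k * π) * (δ / 2) ≤ c * K := by
          calc (Th L1 t - k * π) * (δ / 2) ≤ (Th L1 t - k * π) * (n * s / 2) :=
                mul_le_mul_of_nonneg_left (by linarith) h4
            _ = n * ((Th L1 t - k * π) * (s / 2)) := by ring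
            _ ≤ n * (c * t) := mul_le_mul_of_nonneg_left h5 hn0.le
            _ = c * (n * t) := by ring
            _ ≤ c * K := mul_le_mul_of_nonneg_left htK hc0.le
        have h7 : Th L1 t - k * π ≤ c * (2 * K / δ) := by
          have e : c * (2 * K / δ) = c * K / (δ / 2) := by field_simp
          rw [e, le_div_iff₀ (by positivity)]
          exact h6
        linarith
  have h1 := (hQP (cos s) (hmem s)).1
  have h2 := (hQP (cos t) (hmem t)).1
  rw [abs_le] at h1 h2 hmain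
  have h3 : r ^ 2 ≤ r := by nlinarith
  have h4 : |P.eval (cos s) - P.eval (cos t)| ≤ 2 - c1 + 6 * M * r := by
    rw [abs_le]
    constructor <;> linarith [h1.1, h1.2, h2.1, h2.2, hmain.1, hmain.2]
  linarith

theorem g2 (hV1 : V1) (hTy : Ty) (hB1 : B1) (hB2 : B2) (hNd : Nd) (hGr : Gr) (hG1 : G1) : G2 := by
  intro K δ hK hδ
  obtain ⟨cg, hcg, ng, hGr'⟩ := hGr K hK
  obtain ⟨M1, hM1, nb1, hB1'⟩ := hB1 (K ^ 2) (by positivity)
  obtain ⟨M2, hM2, nb2, hB2'⟩ := hB2 (K ^ 2) δ (by positivity) hδ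
  obtain ⟨ε1, c1, hε1, hc1, ng1, hG1'⟩ := hG1 K δ hK hδ
  obtain ⟨r, hr, hr1, hrδ, hrM, hrε, hrc⟩ : ∃ r : ℝ, 0 < r ∧ r ≤ 1 ∧ r ≤ δ ^ 2 / 5 ∧
      6 * M2 * r ≤ c1 / 4 ∧ 3 * M2 * r ≤ ε1 / 2 ∧ r ≤ c1 / 4 := by
    refine ⟨min (min 1 (δ ^ 2 / 5)) (min (min (c1 / (24 * M2)) (ε1 / (6 * M2))) (c1 / 4)),
      ?_, ?_, ?_, ?_, ?_, ?_⟩
    · apply lt_min (lt_min one_pos (by positivity))
      apply lt_min (lt_min (by positivity) (by positivity)) (by positivity)
    · exact (min_le_left _ _).trans (min_le_left _ _)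
    · exact (min_le_left _ _).trans (min_le_right _ _)
    · have h : min (min 1 (δ ^ 2 / 5)) (min (min (c1 / (24 * M2)) (ε1 / (6 * M2))) (c1 / 4)) ≤
        c1 / (24 * M2) := (min_le_right _ _).trans ((min_le_left _ _).trans (min_le_left _ _))
      calc _ ≤ 6 * M2 * (c1 / (24 * M2)) := mul_le_mul_of_nonneg_left h (by positivity)
        _ = c1 / 4 := by field_simp; norm_num
    · have h : min (min 1 (δ ^ 2 / 5)) (min (min (c1 / (24 * M2)) (ε1 / (6 * M2))) (c1 / 4)) ≤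
        ε1 / (6 * M2) := (min_le_right _ _).trans ((min_le_left _ _).trans (min_le_right _ _))
      calc _ ≤ 3 * M2 * (ε1 / (6 * M2)) := mul_le_mul_of_nonneg_left h (by positivity)
        _ = ε1 / 2 := by field_simp; norm_num
    · exact (min_le_right _ _).trans (min_le_right _ _)
  set μ := min (cg * min (δ / 2) 1) r with hμ
  have hμ0 : 0 < μ := lt_min (mul_pos hcg (lt_min (by positivity) one_pos)) hr
  have hμ1 : μ ≤ cg * min (δ / 2) 1 := min_le_left _ _
  have hμ2 : μ ≤ r := min_le_right _ _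
  obtain ⟨η, hη, hη1, hηδ, hηM⟩ : ∃ η : ℝ, 0 < η ∧ η ≤ 1 ∧ η ≤ δ / 2 ∧
      (8 * M1 + 2) * η ≤ μ * cg / (24 * K) := by
    refine ⟨min (min 1 (δ / 2)) (μ * cg / (24 * K) / (8 * M1 + 2)), ?_, ?_, ?_, ?_⟩
    · exact lt_min (lt_min one_pos (by positivity)) (by positivity)
    · exact (min_le_left _ _).trans (min_le_left _ _)
    · exact (min_le_left _ _).trans (min_le_right _ _)
    · calc _ ≤ (8 * M1 + 2) * (μ * cg / (24 * K) / (8 * M1 + 2)) :=
          mul_le_mul_of_nonneg_left (min_le_right _ _) (by positivity)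
        _ = μ * cg / (24 * K) := by field_simp
  set G := μ * cg * η ^ 3 / (24 * K) with hG
  have hG0 : 0 < G := by positivity
  set ε := min (ε1 / 2) (G / (2 * M1 + 1)) with hεdef
  have hε0 : 0 < ε := lt_min (by positivity) (by positivity)
  have hεa : ε ≤ ε1 / 2 := min_le_left _ _
  have hεb : ε * (2 * M1 + 1) ≤ G := by
    calc _ ≤ G / (2 * M1 + 1) * (2 * M1 + 1) :=
        mul_le_mul_of_nonneg_right (min_le_right _ _) (by positivity)
      _ = G := by field_simp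
  set c := min (min (r ^ 2 / 2) G) (min c1 (c1 * δ / (2 * K))) with hcdef
  have hc0 : 0 < c := lt_min (lt_min (by positivity) hG0) (lt_min hc1 (by positivity))
  have hca : c ≤ r ^ 2 / 2 := (min_le_left _ _).trans (min_le_left _ _)
  have hcb : c ≤ G := (min_le_left _ _).trans (min_le_right _ _)
  have hcc : c ≤ c1 := (min_le_right _ _).trans (min_le_left _ _)
  have hcd : c * (2 * K / δ) ≤ c1 := by
    calc _ ≤ (c1 * δ / (2 * K)) * (2 * K / δ) :=
        mul_le_mul_of_nonneg_right ((min_le_right _ _).trans (min_le_right _ _)) (by positivity)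
      _ = c1 := by field_simp
  refine ⟨ε, c, hε0, hc0, max (max ng nb1) (max (max nb2 ng1) (⌈K⌉₊ + 8)), ?_⟩
  intro n hn Th Z F P t s L k hdeg hP ht htK hsδ hsK hdist hP' hP'' hTh hΦ
  have hn_g : n ≥ ng := le_trans ((le_max_left _ _).trans (le_max_left _ _)) hn
  have hn_b1 : n ≥ nb1 := le_trans ((le_max_right _ _).trans (le_max_left _ _)) hn
  have hn_b2 : n ≥ nb2 :=
    le_trans ((le_max_left _ _).trans ((le_max_left _ _).trans (le_max_right _ _))) hn
  have hn_g1 : n ≥ ng1 :=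
    le_trans ((le_max_right _ _).trans ((le_max_left _ _).trans (le_max_right _ _))) hn
  have hn_K : ⌈K⌉₊ + 8 ≤ n := le_trans ((le_max_right _ _).trans (le_max_right _ _)) hn
  have hKn8 : K + 8 ≤ n := by
    have h1 : K ≤ ⌈K⌉₊ := Nat.le_ceil K
    have h2 : ((⌈K⌉₊ + 8 : ℕ) : ℝ) ≤ n := by exact_mod_cast hn_K
    push_cast at h2
    linarith
  have hn0 : (0 : ℝ) < n := by linarith
  have hn1 : 1 ≤ n := by omega
  have hn2 : (0 : ℝ) < (n : ℝ) ^ 2 := by positivity
  have hpi := pi_gt_three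
  have hmem : ∀ x : ℝ, cos x ∈ Icc (-1 : ℝ) 1 := fun x => ⟨neg_one_le_cos x, cos_le_one x⟩
  obtain ⟨-, hvmono, -, -, hvform, -⟩ := hV1
  have hv : ∀ y, 0 ≤ y → y ≤ π → vv y = 1 - cos y := by
    intro y h0 h1
    have := hvform 0 y (by simpa using h0) (by simpa using h1)
    simpa using this
  rcases le_total (π - r) |Th L s - k * π| with hcase | hcase
  · -- near the full phase
    have h1 := g2_ii F hK (by linarith) hδ hM2 hc1 hr hr1 hrδ hrM hrε hrc hεa hc0 hcc hcd hNd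
      (hB2' n hn_b2) (hG1' n hn_g1 Th Z F) hdeg hP ht htK hsδ hsK hdist hP' hP'' hTh hΦ
    have h2 : vv (π - r) ≤ vv |Th L s - k * π| := hvmono.monotone hcase
    rw [hv (π - r) (by linarith) (by linarith), cos_pi_sub] at h2
    have h3 : 1 - r ^ 2 / 2 ≤ cos r := one_sub_sq_div_two_le_cos
    linarith
  · -- sliding
    obtain ⟨t1, L1, D, ht10, ht11, ht1K, hdt, hL1, hΦD, hD, hΦ1⟩ := g2_slide F hK (by linarith) hη hη1
      hηδ hcg ht htK hsδ hsK hdist hTh
      (fun L t s h1 h2 h3 h4 => hGr' n hn_g Th Z F L t s k h1 h2 h3 h4)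
    set Φ1 := |Th L1 s - k * π| with hΦ1def
    have hD0 : 0 < D := lt_of_lt_of_le (by positivity) hD
    have hs0 : 0 < s := by
      by_contra hcon
      push Not at hcon
      have : (n : ℝ) * s ≤ 0 := mul_nonpos_of_nonneg_of_nonpos hn0.le hcon
      linarith
    have hs1 : s ≤ 1 := by
      by_contra hcon
      push Not at hcon
      nlinarith
    have hTy' := hTy n P hn1 hdeg hP
    have hw : (cos t1 - cos t) ^ 2 = (η ^ 2 / (n : ℝ) ^ 2) ^ 2 := by rw [← hdt, sq_abs]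
    -- derivative at the new point
    have hder : |P.derivative.eval (cos t1)| ≤ (ε * η ^ 2 + 4 * η ^ 4) * (n : ℝ) ^ 2 := by
      have h1 := hTy'.2.2.2.1 (cos t) (hmem t) (cos t1) (hmem t1)
      rw [hP', sub_zero, hw] at h1
      have h2 : |P.derivative.derivative.eval (cos t) * (cos t1 - cos t)| ≤ ε * η ^ 2 * (n : ℝ) ^ 2 := by
        rw [abs_mul, hdt]
        calc _ ≤ ε * (n : ℝ) ^ 4 * (η ^ 2 / (n : ℝ) ^ 2) :=
              mul_le_mul_of_nonneg_right hP'' (by positivity)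
          _ = ε * η ^ 2 * (n : ℝ) ^ 2 := by field_simp
      have h3 : 4 * (n : ℝ) ^ 6 * (η ^ 2 / (n : ℝ) ^ 2) ^ 2 = 4 * η ^ 4 * (n : ℝ) ^ 2 := by
        field_simp
      rw [h3] at h1
      rw [abs_le] at h1 h2 ⊢
      constructor <;> nlinarith [h1.1, h1.2, h2.1, h2.2]
    have hval : |P.eval (cos t1) - P.eval (cos t)| ≤ ε * η ^ 4 / 2 + 2 * η ^ 6 := by
      have h1 := hTy'.2.2.2.2 (cos t) (hmem t) (cos t1) (hmem t1)
      rw [hP', zero_mul, sub_zero, hw, hdt] at h1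
      have h2 : |P.derivative.derivative.eval (cos t) * (η ^ 2 / (n : ℝ) ^ 2) ^ 2 / 2| ≤
          ε * η ^ 4 / 2 := by
        rw [abs_div, abs_mul, abs_of_nonneg (by positivity : (0:ℝ) ≤ (η ^ 2 / (n : ℝ) ^ 2) ^ 2),
          abs_of_pos (by norm_num : (0:ℝ) < 2)]
        calc _ ≤ ε * (n : ℝ) ^ 4 * (η ^ 2 / (n : ℝ) ^ 2) ^ 2 / 2 := by
              apply div_le_div_of_nonneg_right _ (by norm_num)
              exact mul_le_mul_of_nonneg_right hP'' (by positivity)
          _ = ε * η ^ 4 / 2 := by field_simp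
      have h3 : 2 * (n : ℝ) ^ 6 * (η ^ 2 / (n : ℝ) ^ 2) ^ 3 = 2 * η ^ 6 := by
        field_simp
      rw [h3] at h1
      rw [abs_le] at h1 h2 ⊢
      constructor <;> linarith [h1.1, h1.2, h2.1, h2.2]
    have hk1 : (n : ℝ) ^ 2 * (1 - cos t1) ≤ K ^ 2 := by
      have h1 : 1 - t1 ^ 2 / 2 ≤ cos t1 := one_sub_sq_div_two_le_cos
      have h2 : 0 < (n : ℝ) * t1 := by positivity
      have h3 : (n * t1) ^ 2 ≤ K ^ 2 := pow_le_pow_left₀ h2.le ht1K 2
      calc (n : ℝ) ^ 2 * (1 - cos t1) ≤ (n : ℝ) ^ 2 * (t1 ^ 2 / 2) :=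
            mul_le_mul_of_nonneg_left (by linarith) hn2.le
        _ = (n * t1) ^ 2 / 2 := by ring
        _ ≤ K ^ 2 := by nlinarith
    obtain ⟨Q, hQdeg, hQ, hQ', hQP⟩ := hB1' n hn_b1 (cos t1) (ε * η ^ 2 + 4 * η ^ 4) P (hmem t1) hk1
      hdeg hP (by positivity) hder
    have hΦ1le : Φ1 ≤ π := by linarith
    have hlem := F.lemA K L1 t1 s k Q hK.le (by linarith) ⟨ht10, by linarith⟩ ht1K hL1
      ⟨hs0.le, by linarith⟩ hΦ1le hQdeg hQ hQ'
    have hnu : 0 ≤ nu K n s t1 := by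
      unfold nu
      have : exp (-(2 * ((n : ℝ) ^ 2 * (cos s - cos t1)) ^ 2 / (K + 7) ^ 4)) ≤ 1 := by
        apply exp_le_one_iff.mpr
        have : 0 ≤ 2 * ((n : ℝ) ^ 2 * (cos s - cos t1)) ^ 2 / (K + 7) ^ 4 := by positivity
        linarith
      linarith
    have hQt1 : |Q.eval (cos t1)| ≤ 1 := hQ _ (hmem t1)
    have hQd : |Q.eval (cos s) - Q.eval (cos t1)| ≤ 1 - cos Φ1 := by
      rw [hΦ1def, cos_abs]
      have := mul_nonneg hnu (by linarith : 0 ≤ 1 - |Q.eval (cos t1)|)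
      linarith
    have hgain : μ * D / 3 ≤ cos Φ1 - cos (Φ1 + D) :=
      g2_cos hμ0 (hμ1.trans hΦ1) hD0.le (by linarith)
    have hgain2 : 4 * G ≤ μ * D / 3 := by
      have h1 : μ * (cg * η ^ 3 / (2 * K)) / 3 ≤ μ * D / 3 :=
        div_le_div_of_nonneg_right (mul_le_mul_of_nonneg_left hD hμ0.le) (by norm_num)
      have h2 : μ * (cg * η ^ 3 / (2 * K)) / 3 = 4 * G := by
        rw [hG]; field_simp; norm_num
      linarith
    have hvv : vv |Th L s - k * π| = 1 - cos (Φ1 + D) := by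
      rw [hv _ (abs_nonneg _) (by linarith), hΦD]
    have hη4 : η ^ 4 ≤ 1 := pow_le_one₀ hη.le hη1
    have hη2 : η ^ 2 ≤ 1 := pow_le_one₀ hη.le hη1
    have hη64 : η ^ 6 ≤ η ^ 4 := pow_le_pow_of_le_one hη.le hη1 (by norm_num)
    have hloss1 : 2 * M1 * (ε * η ^ 2) + ε * η ^ 4 / 2 ≤ G := by
      calc 2 * M1 * (ε * η ^ 2) + ε * η ^ 4 / 2 ≤ 2 * M1 * (ε * 1) + ε * 1 := by
            have a1 : ε * η ^ 2 ≤ ε * 1 := mul_le_mul_of_nonneg_left hη2 hε0.le
            have a2 : ε * η ^ 4 ≤ ε * 1 := mul_le_mul_of_nonneg_left hη4 hε0.le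
            have a3 : 2 * M1 * (ε * η ^ 2) ≤ 2 * M1 * (ε * 1) :=
              mul_le_mul_of_nonneg_left a1 (by positivity)
            have a4 : 0 ≤ ε * η ^ 4 := by positivity
            linarith
        _ = ε * (2 * M1 + 1) := by ring
        _ ≤ G := hεb
    have hloss2 : 2 * M1 * (4 * η ^ 4) + 2 * η ^ 6 ≤ G := by
      calc 2 * M1 * (4 * η ^ 4) + 2 * η ^ 6 ≤ 2 * M1 * (4 * η ^ 4) + 2 * η ^ 4 := by linarith
        _ = ((8 * M1 + 2) * η) * η ^ 3 := by ring
        _ ≤ (μ * cg / (24 * K)) * η ^ 3 := mul_le_mul_of_nonneg_right hηM (by positivity)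
        _ = G := by rw [hG]; ring
    have h1 := (hQP (cos s) (hmem s)).1
    have h2 := (hQP (cos t1) (hmem t1)).1
    have htot : |P.eval (cos s) - P.eval (cos t)| ≤
        2 * (M1 * (ε * η ^ 2 + 4 * η ^ 4)) + (1 - cos Φ1) + (ε * η ^ 4 / 2 + 2 * η ^ 6) := by
      rw [abs_le] at h1 h2 hQd hval ⊢
      constructor <;> linarith [h1.1, h1.2, h2.1, h2.2, hQd.1, hQd.2, hval.1, hval.2]
    rw [hvv]
    have h5 : 2 * (M1 * (ε * η ^ 2 + 4 * η ^ 4)) = 2 * M1 * (ε * η ^ 2) + 2 * M1 * (4 * η ^ 4) := by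
      ring
    linarith

end

end Pool.Agent.Helper40.TV
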