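import Pool.Agent.Helper40.TV.St3

/-!
Growth of the phases near a node.
-/

set_option autoImplicit false

namespace Pool.Agent.Helper40.TV

open Polynomial Set Real
open Pool.Agent.Helper40.AS (Bdd)

noncomputable section

theorem gr_abs_cos (k : ℤ) : |cos (k * π)| = 1 := by
  rw [Real.cos_int_mul_pi]
  rcases Int.even_or_odd k with h | h
  · rw [h.neg_one_zpow]
    simp
  · rw [h.neg_one_zpow]
    simp

theorem gr_diff (k : ℤ) (y : ℝ) : |cos y - cos (k * π)| ≤ (y - k * π) ^ 2 / 2 := by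
  have h1 : cos y = cos (k * π) * cos (y - k * π) := by
    have h2 : cos (k * π + (y - k * π)) = cos y := by
      congr 1
      ring
    rw [← h2, cos_add, Real.sin_int_mul_pi, zero_mul, sub_zero]
  have h3 : cos y - cos (k * π) = cos (k * π) * (cos (y - k * π) - 1) := by
    rw [h1]
    ring_nf
  have h4 := Real.one_sub_sq_div_two_le_cos (x := y - k * π)
  have h5 := Real.cos_le_one (y - k * π)
  rw [h3, abs_mul, gr_abs_cos, one_mul, abs_of_nonpos (by linarith)]
  linarith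

theorem gr_small (hTy : Ty) {n : ℕ} {Th : ℝ → ℝ → ℝ} {Z : ℝ → ℝ[X]} (F : Fam n Th Z)
    {L t s c2 : ℝ} {k : ℤ} (hc2 : 0 < c2) (ht : t ∈ Ioo 0 π) (hk : Th L t = k * π)
    (hZ : c2 * (n : ℝ) ^ 4 ≤ |(Z L).derivative.derivative.eval (cos t)|) (hs : s ∈ Icc 0 π)
    (hy : (n : ℝ) ^ 2 * |cos s - cos t| ≤ c2 / 8) :
    √(c2 / 2) * ((n : ℝ) ^ 2 * |cos s - cos t|) ≤ |Th L s - k * π| := by
  have hn : 1 ≤ n := by
    have := F.n3
    omega
  have htI : t ∈ Icc 0 π := Ioo_subset_Icc_self ht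
  have hct : cos t ∈ Ioo (-1 : ℝ) 1 := by
    constructor
    · have := cos_lt_cos_of_nonneg_of_le_pi ht.1.le le_rfl ht.2
      rwa [cos_pi] at this
    · have := cos_lt_cos_of_nonneg_of_le_pi le_rfl ht.2.le ht.1
      rwa [cos_zero] at this
  have hev : (Z L).eval (cos t) = cos (k * π) := by
    rw [F.ev L t htI, hk]
  have hd : (Z L).derivative.eval (cos t) = 0 := by
    apply AS.contact_int (F.bdd L) hct
    rw [hev]
    exact gr_abs_cos k
  have h1 := (hTy n (Z L) hn (F.deg L) (F.bdd L)).2.2.2.2 (cos t) (Ioo_subset_Icc_self hct) (cos s)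
    ⟨neg_one_le_cos s, cos_le_one s⟩
  rw [hd, zero_mul, sub_zero] at h1
  have h2 : |(Z L).eval (cos s) - (Z L).eval (cos t)| ≤ (Th L s - k * π) ^ 2 / 2 := by
    rw [F.ev L s hs, hev]
    exact gr_diff k (Th L s)
  set w : ℝ := |cos s - cos t| with hw
  have hw0 : 0 ≤ w := abs_nonneg _
  have h3 : |(Z L).derivative.derivative.eval (cos t) * (cos s - cos t) ^ 2 / 2| =
      |(Z L).derivative.derivative.eval (cos t)| * w ^ 2 / 2 := by
    rw [abs_div, abs_mul, abs_pow, abs_of_pos (by norm_num : (0 : ℝ) < 2)]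
  have h4 : c2 * (n : ℝ) ^ 4 * w ^ 2 / 2 ≤
      |(Z L).derivative.derivative.eval (cos t) * (cos s - cos t) ^ 2 / 2| := by
    rw [h3]
    have := mul_le_mul_of_nonneg_right hZ (sq_nonneg w)
    linarith
  have h5 : |(Z L).derivative.derivative.eval (cos t) * (cos s - cos t) ^ 2 / 2| ≤
      |(Z L).eval (cos s) - (Z L).eval (cos t)| + 2 * (n : ℝ) ^ 6 * w ^ 3 := by
    have h6 := abs_sub_abs_le_abs_sub
      ((Z L).derivative.derivative.eval (cos t) * (cos s - cos t) ^ 2 / 2)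
      ((Z L).eval (cos s) - (Z L).eval (cos t))
    rw [abs_sub_comm ((Z L).derivative.derivative.eval (cos t) * (cos s - cos t) ^ 2 / 2)] at h6
    linarith
  set Y : ℝ := (n : ℝ) ^ 2 * w with hY
  have hY0 : 0 ≤ Y := by positivity
  have h7 : c2 * (n : ℝ) ^ 4 * w ^ 2 / 2 = c2 / 2 * Y ^ 2 := by
    rw [hY]
    ring
  have h8 : 2 * (n : ℝ) ^ 6 * w ^ 3 = 2 * Y ^ 3 := by
    rw [hY]
    ring
  rw [h7] at h4
  rw [h8] at h5
  have h9 : 2 * Y ^ 3 ≤ c2 / 4 * Y ^ 2 := by
    have : Y ^ 2 * Y ≤ Y ^ 2 * (c2 / 8) := mul_le_mul_of_nonneg_left hy (sq_nonneg Y)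
    nlinarith [this]
  have h10 : c2 / 2 * Y ^ 2 ≤ (Th L s - k * π) ^ 2 := by linarith
  apply abs_le_of_sq_le_sq' _ (abs_nonneg _) |>.2
  rw [mul_pow, Real.sq_sqrt (by positivity), sq_abs]
  exact h10

theorem gr_aux (hTy : Ty) {n : ℕ} {Th : ℝ → ℝ → ℝ} {Z : ℝ → ℝ[X]} (F : Fam n Th Z)
    {L t s c2 : ℝ} {k : ℤ} (hc2 : 0 < c2) (ht : t ∈ Ioo 0 π) (hk : Th L t = k * π)
    (hZ : c2 * (n : ℝ) ^ 4 ≤ |(Z L).derivative.derivative.eval (cos t)|) (hs : s ∈ Icc 0 π)
    (hy : c2 / 8 < (n : ℝ) ^ 2 * |cos s - cos t|) :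
    √(c2 / 2) * (c2 / 8) ≤ |Th L s - k * π| := by
  have hn : (0 : ℝ) < (n : ℝ) ^ 2 := by
    have h3 := F.n3
    have : (0 : ℝ) < n := by
      exact_mod_cast (by omega : 0 < n)
    positivity
  have htI : t ∈ Icc 0 π := Ioo_subset_Icc_self ht
  set e : ℝ := c2 / 8 / (n : ℝ) ^ 2 with he
  have he0 : 0 < e := by positivity
  have hne : (n : ℝ) ^ 2 * e = c2 / 8 := by
    rw [he]
    exact mul_div_cancel₀ _ hn.ne'
  have hee : e < |cos s - cos t| := by
    rw [← hne] at hy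
    exact lt_of_mul_lt_mul_left hy hn.le
  have key : ∀ s' ∈ Icc 0 π, |cos s' - cos t| = e →
      √(c2 / 2) * (c2 / 8) ≤ |Th L s' - k * π| := by
    intro s' hs' h1
    have h2 := gr_small hTy F hc2 ht hk hZ hs' (by rw [h1, hne])
    rwa [h1, hne] at h2
  have hinc := F.inc L
  rcases le_or_gt s t with hst | hst
  · have hcos : cos t ≤ cos s := cos_le_cos_of_nonneg_of_le_pi hs.1 ht.2.le hst
    rw [abs_of_nonneg (by linarith)] at hee
    have hb1 : cos t + e ≤ 1 := by linarith [cos_le_one s]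
    have hb2 : -1 ≤ cos t + e := by linarith [neg_one_le_cos t]
    have hs' : arccos (cos t + e) ∈ Icc 0 π := ⟨arccos_nonneg _, arccos_le_pi _⟩
    have h1 := key _ hs' (by
      rw [cos_arccos hb2 hb1, add_sub_cancel_left, abs_of_pos he0])
    have h2 : s ≤ arccos (cos t + e) := by
      have := arccos_le_arccos (by linarith : cos t + e ≤ cos s)
      rwa [arccos_cos hs.1 hs.2] at this
    have h3 : arccos (cos t + e) ≤ t := by
      have := arccos_le_arccos (by linarith : cos t ≤ cos t + e)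
      rwa [arccos_cos ht.1.le ht.2.le] at this
    have h4 : Th L s ≤ Th L (arccos (cos t + e)) := hinc.monotoneOn hs hs' h2
    have h5 : Th L (arccos (cos t + e)) ≤ Th L t := hinc.monotoneOn hs' htI h3
    rw [hk] at h5
    rw [abs_of_nonpos (by linarith)] at h1
    rw [abs_of_nonpos (by linarith)]
    linarith
  · have hcos : cos s ≤ cos t := cos_le_cos_of_nonneg_of_le_pi ht.1.le hs.2 hst.le
    rw [abs_of_nonpos (by linarith)] at hee
    have hb1 : cos t - e ≤ 1 := by linarith [cos_le_one t]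
    have hb2 : -1 ≤ cos t - e := by linarith [neg_one_le_cos s]
    have hs' : arccos (cos t - e) ∈ Icc 0 π := ⟨arccos_nonneg _, arccos_le_pi _⟩
    have h1 := key _ hs' (by
      rw [cos_arccos hb2 hb1, sub_sub_cancel_left, abs_neg, abs_of_pos he0])
    have h2 : arccos (cos t - e) ≤ s := by
      have := arccos_le_arccos (by linarith : cos s ≤ cos t - e)
      rwa [arccos_cos hs.1 hs.2] at this
    have h3 : t ≤ arccos (cos t - e) := by
      have := arccos_le_arccos (by linarith : cos t - e ≤ cos t)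
      rwa [arccos_cos ht.1.le ht.2.le] at this
    have h4 : Th L (arccos (cos t - e)) ≤ Th L s := hinc.monotoneOn hs' hs h2
    have h5 : Th L t ≤ Th L (arccos (cos t - e)) := hinc.monotoneOn htI hs' h3
    rw [hk] at h5
    rw [abs_of_nonneg (by linarith)] at h1
    rw [abs_of_nonneg (by linarith)]
    linarith

theorem gr (hZ2 : Z2) (hTy : Ty) : Gr := by
  intro K hK
  obtain ⟨c2, hc2, n0, h0⟩ := hZ2 K hK
  have hr : 0 < √(c2 / 2) := Real.sqrt_pos.2 (by positivity)
  refine ⟨√(c2 / 2) * min 1 (c2 / 8), mul_pos hr (lt_min one_pos (by positivity)),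
    max n0 ⌈K⌉₊, ?_⟩
  intro n hn Th Z F L t s k ht hKt hk hs
  have hnK : K ≤ n := (Nat.le_ceil K).trans (by exact_mod_cast (le_max_right _ _).trans hn)
  have hn0 : (0 : ℝ) < n := by
    have h3 := F.n3
    exact_mod_cast (by omega : 0 < n)
  have ht1 : t ≤ 1 := by
    by_contra hcon
    rw [not_le] at hcon
    nlinarith
  have htI : t ∈ Ioo 0 π := ⟨ht, by linarith [pi_gt_three]⟩
  have hZ := h0 n ((le_max_left _ _).trans hn) Th Z F L t k ht hKt hk
  set Y : ℝ := (n : ℝ) ^ 2 * |cos s - cos t| with hY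
  have hY0 : 0 ≤ Y := by positivity
  have hm0 : 0 ≤ min Y 1 := le_min hY0 zero_le_one
  rcases le_or_gt Y (c2 / 8) with hy | hy
  · refine le_trans ?_ (gr_small hTy F hc2 htI hk hZ hs hy)
    rw [← hY, mul_assoc]
    apply mul_le_mul_of_nonneg_left _ hr.le
    calc min 1 (c2 / 8) * min Y 1 ≤ 1 * Y :=
          mul_le_mul (min_le_left _ _) (min_le_left _ _) hm0 zero_le_one
      _ = Y := one_mul Y
  · refine le_trans ?_ (gr_aux hTy F hc2 htI hk hZ hs hy)
    rw [mul_assoc]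
    apply mul_le_mul_of_nonneg_left _ hr.le
    calc min 1 (c2 / 8) * min Y 1 ≤ (c2 / 8) * 1 :=
          mul_le_mul (min_le_right _ _) (min_le_right _ _) hm0 (by positivity)
      _ = c2 / 8 := mul_one _

end

end Pool.Agent.Helper40.TV
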