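import Pool.Agent.Helper40.TV.St1

/-!
The algebraic form, parameters of the same sign: divided differences of a cubic and of a
quadratic polynomial.
-/

set_option autoImplicit false

namespace Pool.Agent.Helper40.TV

/-- the fourth divided difference of a cubic vanishes, denominators cleared -/
theorem ha_dd4 (c0 c1 c2 c3 a b c d e : ℝ) :
    (c0 + c1 * a + c2 * a ^ 2 + c3 * a ^ 3) *
        ((c - b) * (d - b) * (e - b) * (d - c) * (e - c) * (e - d)) -
      (c0 + c1 * b + c2 * b ^ 2 + c3 * b ^ 3) *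
        ((c - a) * (d - a) * (e - a) * (d - c) * (e - c) * (e - d)) +
      (c0 + c1 * c + c2 * c ^ 2 + c3 * c ^ 3) *
        ((b - a) * (d - a) * (e - a) * (d - b) * (e - b) * (e - d)) -
      (c0 + c1 * d + c2 * d ^ 2 + c3 * d ^ 3) *
        ((b - a) * (c - a) * (e - a) * (c - b) * (e - b) * (e - c)) +
      (c0 + c1 * e + c2 * e ^ 2 + c3 * e ^ 3) *
        ((b - a) * (c - a) * (d - a) * (c - b) * (d - b) * (d - c)) = 0 := by
  ring

/-- the third divided difference of a quadratic vanishes, denominators cleared -/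
theorem ha_dd3 (c0 c1 c2 a b c d : ℝ) :
    (c0 + c1 * a + c2 * a ^ 2) * ((c - b) * (d - b) * (d - c)) -
      (c0 + c1 * b + c2 * b ^ 2) * ((c - a) * (d - a) * (d - c)) +
      (c0 + c1 * c + c2 * c ^ 2) * ((b - a) * (d - a) * (d - b)) -
      (c0 + c1 * d + c2 * d ^ 2) * ((b - a) * (c - a) * (c - b)) = 0 := by
  ring

theorem ha_no4 (c0 c1 c2 c3 a b c d e : ℝ) (hab : a < b) (hbc : b < c) (hcd : c < d)
    (hde : d < e) (h1 : c0 + c1 * a + c2 * a ^ 2 + c3 * a ^ 3 < 0)
    (h2 : 0 < c0 + c1 * b + c2 * b ^ 2 + c3 * b ^ 3)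
    (h3 : c0 + c1 * c + c2 * c ^ 2 + c3 * c ^ 3 ≤ 0)
    (h4 : 0 ≤ c0 + c1 * d + c2 * d ^ 2 + c3 * d ^ 3)
    (h5 : c0 + c1 * e + c2 * e ^ 2 + c3 * e ^ 3 ≤ 0) : False := by
  have e0 := ha_dd4 c0 c1 c2 c3 a b c d e
  have pab : 0 < b - a := by linarith
  have pac : 0 < c - a := by linarith
  have pad : 0 < d - a := by linarith
  have pae : 0 < e - a := by linarith
  have pbc : 0 < c - b := by linarith
  have pbd : 0 < d - b := by linarith
  have pbe : 0 < e - b := by linarith
  have pcd : 0 < d - c := by linarith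
  have pce : 0 < e - c := by linarith
  have pde : 0 < e - d := by linarith
  have t1 := mul_neg_of_neg_of_pos h1
    (show 0 < (c - b) * (d - b) * (e - b) * (d - c) * (e - c) * (e - d) by positivity)
  have t2 := mul_pos h2
    (show 0 < (c - a) * (d - a) * (e - a) * (d - c) * (e - c) * (e - d) by positivity)
  have t3 := mul_nonpos_of_nonpos_of_nonneg h3
    (show 0 ≤ (b - a) * (d - a) * (e - a) * (d - b) * (e - b) * (e - d) by positivity)
  have t4 := mul_nonneg h4
    (show 0 ≤ (b - a) * (c - a) * (e - a) * (c - b) * (e - b) * (e - c) by positivity)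
  have t5 := mul_nonpos_of_nonpos_of_nonneg h5
    (show 0 ≤ (b - a) * (c - a) * (d - a) * (c - b) * (d - b) * (d - c) by positivity)
  linarith

theorem ha_no3 (c0 c1 c2 a b c d : ℝ) (hab : a < b) (hbc : b < c) (hcd : c < d)
    (h1 : c0 + c1 * a + c2 * a ^ 2 < 0)
    (h2 : 0 < c0 + c1 * b + c2 * b ^ 2)
    (h3 : c0 + c1 * c + c2 * c ^ 2 ≤ 0)
    (h4 : 0 ≤ c0 + c1 * d + c2 * d ^ 2) : False := by
  have e0 := ha_dd3 c0 c1 c2 a b c d
  have pab : 0 < b - a := by linarith
  have pac : 0 < c - a := by linarith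
  have pad : 0 < d - a := by linarith
  have pbc : 0 < c - b := by linarith
  have pbd : 0 < d - b := by linarith
  have pcd : 0 < d - c := by linarith
  have t1 := mul_neg_of_neg_of_pos h1
    (show 0 < (c - b) * (d - b) * (d - c) by positivity)
  have t2 := mul_pos h2 (show 0 < (c - a) * (d - a) * (d - c) by positivity)
  have t3 := mul_nonpos_of_nonpos_of_nonneg h3
    (show 0 ≤ (b - a) * (d - a) * (d - b) by positivity)
  have t4 := mul_nonneg h4 (show 0 ≤ (b - a) * (c - a) * (c - b) by positivity)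
  linarith

theorem ha : Ha := by
  intro α β γ α' β' γ' x y hγ hγα hαβ hor hγ' hγα' hαβ' hα hβ hyx hx H1 H2
  rcases hor with h1 | h1
  · -- α = 1
    subst h1
    have hg : γ = 1 := le_antisymm hγα hγ
    subst hg
    have hx1 : 0 < 1 - x := by linarith
    have hy1 : 0 < 1 - y := by linarith
    -- coefficients of G(u) = (1-u)(α'-u)(β'-u) - (γ'-u)²(β-u)
    have key : ∀ u : ℝ, (α' * β' - γ' ^ 2 * β) +
        (-(α' * β') - α' - β' + 2 * γ' * β + γ' ^ 2) * u +
        (1 + α' + β' - β - 2 * γ') * u ^ 2 =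
        (1 - u) * ((α' - u) * (β' - u)) - (γ' - u) ^ 2 * (β - u) := by
      intro u; ring
    refine ha_no3 (α' * β' - γ' ^ 2 * β)
      (-(α' * β') - α' - β' + 2 * γ' * β + γ' ^ 2) (1 + α' + β' - β - 2 * γ')
      y x 1 β' hyx hx (by linarith) ?_ ?_ ?_ ?_
    · rw [key]
      have : (1 - y) * ((1 - y) * ((α' - y) * (β' - y)) - (γ' - y) ^ 2 * (β - y)) < 0 := by
        nlinarith [H2]
      by_contra hc
      push Not at hc
      have := mul_nonneg hy1.le hc
      linarith
    · rw [key]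
      have : 0 < (1 - x) * ((1 - x) * ((α' - x) * (β' - x)) - (γ' - x) ^ 2 * (β - x)) := by
        nlinarith [H1]
      by_contra hc
      push Not at hc
      have := mul_nonpos_of_nonneg_of_nonpos hx1.le hc
      linarith
    · rw [key]
      have := mul_nonneg (sq_nonneg (γ' - 1)) (show 0 ≤ β - 1 by linarith)
      linarith
    · rw [key]
      have := mul_nonneg (sq_nonneg (γ' - β')) (show 0 ≤ β' - β by linarith)
      nlinarith
  · -- γ < α
    have key : ∀ u : ℝ, (γ ^ 2 * α' * β' - γ' ^ 2 * α * β) +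
        (-(γ ^ 2) * (α' + β') - 2 * γ * α' * β' + γ' ^ 2 * (α + β) + 2 * γ' * α * β) * u +
        (γ ^ 2 + 2 * γ * (α' + β') + α' * β' - γ' ^ 2 - 2 * γ' * (α + β) - α * β) * u ^ 2 +
        (-(2 * γ) - α' - β' + 2 * γ' + α + β) * u ^ 3 =
        (γ - u) ^ 2 * ((α' - u) * (β' - u)) - (γ' - u) ^ 2 * ((α - u) * (β - u)) := by
      intro u; ring
    refine ha_no4 (γ ^ 2 * α' * β' - γ' ^ 2 * α * β)
      (-(γ ^ 2) * (α' + β') - 2 * γ * α' * β' + γ' ^ 2 * (α + β) + 2 * γ' * α * β)
      (γ ^ 2 + 2 * γ * (α' + β') + α' * β' - γ' ^ 2 - 2 * γ' * (α + β) - α * β)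
      (-(2 * γ) - α' - β' + 2 * γ' + α + β)
      y x γ α β' hyx (by linarith) h1 (by linarith) ?_ ?_ ?_ ?_ ?_
    · rw [key]; linarith
    · rw [key]; linarith
    · rw [key]
      have := mul_nonneg (sq_nonneg (γ' - γ))
        (mul_nonneg (show 0 ≤ α - γ by linarith) (show 0 ≤ β - γ by linarith))
      nlinarith
    · rw [key]
      have := mul_nonneg (sq_nonneg (γ - α))
        (mul_nonneg (show 0 ≤ α' - α by linarith) (show 0 ≤ β' - α by linarith))
      nlinarith
    · rw [key]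
      have := mul_nonneg (sq_nonneg (γ' - β'))
        (mul_nonneg (show 0 ≤ β' - α by linarith) (show 0 ≤ β' - β by linarith))
      nlinarith

end Pool.Agent.Helper40.TV
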