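import Pool.Agent.Helper40.TV.St1

/-! Project TV, piece Hb: algebraic form of the crossing lemma, parameters of different signs -/

set_option autoImplicit false

namespace Pool.Agent.Helper40.TV

/-- a cubic polynomial does not have four sign changes -/
theorem hb_cubic {a b c d x0 x1 x2 x3 x4 : ℝ} (h01 : x0 < x1) (h12 : x1 < x2) (h23 : x2 < x3)
    (h34 : x3 < x4) (h0 : a * x0 ^ 3 + b * x0 ^ 2 + c * x0 + d ≤ 0)
    (h1 : 0 ≤ a * x1 ^ 3 + b * x1 ^ 2 + c * x1 + d)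
    (h2 : a * x2 ^ 3 + b * x2 ^ 2 + c * x2 + d < 0)
    (h3 : 0 < a * x3 ^ 3 + b * x3 ^ 2 + c * x3 + d)
    (h4 : a * x4 ^ 3 + b * x4 ^ 2 + c * x4 + d ≤ 0) : False := by
  have p01 : 0 < x1 - x0 := by linarith
  have p02 : 0 < x2 - x0 := by linarith
  have p03 : 0 < x3 - x0 := by linarith
  have p04 : 0 < x4 - x0 := by linarith
  have p12 : 0 < x2 - x1 := by linarith
  have p13 : 0 < x3 - x1 := by linarith
  have p14 : 0 < x4 - x1 := by linarith
  have p23 : 0 < x3 - x2 := by linarith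
  have p24 : 0 < x4 - x2 := by linarith
  have p34 : 0 < x4 - x3 := by linarith
  have v0 : 0 < (x2 - x1) * (x3 - x1) * (x4 - x1) * (x3 - x2) * (x4 - x2) * (x4 - x3) := by
    positivity
  have v1 : 0 < (x2 - x0) * (x3 - x0) * (x4 - x0) * (x3 - x2) * (x4 - x2) * (x4 - x3) := by
    positivity
  have v2 : 0 < (x1 - x0) * (x3 - x0) * (x4 - x0) * (x3 - x1) * (x4 - x1) * (x4 - x3) := by
    positivity
  have v3 : 0 < (x1 - x0) * (x2 - x0) * (x4 - x0) * (x2 - x1) * (x4 - x1) * (x4 - x2) := by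
    positivity
  have v4 : 0 < (x1 - x0) * (x2 - x0) * (x3 - x0) * (x2 - x1) * (x3 - x1) * (x3 - x2) := by
    positivity
  have id : (a * x0 ^ 3 + b * x0 ^ 2 + c * x0 + d) *
      ((x2 - x1) * (x3 - x1) * (x4 - x1) * (x3 - x2) * (x4 - x2) * (x4 - x3)) -
      (a * x1 ^ 3 + b * x1 ^ 2 + c * x1 + d) *
      ((x2 - x0) * (x3 - x0) * (x4 - x0) * (x3 - x2) * (x4 - x2) * (x4 - x3)) +
      (a * x2 ^ 3 + b * x2 ^ 2 + c * x2 + d) *
      ((x1 - x0) * (x3 - x0) * (x4 - x0) * (x3 - x1) * (x4 - x1) * (x4 - x3)) -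
      (a * x3 ^ 3 + b * x3 ^ 2 + c * x3 + d) *
      ((x1 - x0) * (x2 - x0) * (x4 - x0) * (x2 - x1) * (x4 - x1) * (x4 - x2)) +
      (a * x4 ^ 3 + b * x4 ^ 2 + c * x4 + d) *
      ((x1 - x0) * (x2 - x0) * (x3 - x0) * (x2 - x1) * (x3 - x1) * (x3 - x2)) = 0 := by
    ring
  have s0 := mul_nonpos_of_nonpos_of_nonneg h0 v0.le
  have s1 := mul_nonneg h1 v1.le
  have s2 := mul_neg_of_neg_of_pos h2 v2
  have s3 := mul_pos h3 v3
  have s4 := mul_nonpos_of_nonpos_of_nonneg h4 v4.le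
  linarith

/-- a quadratic polynomial does not have three sign changes -/
theorem hb_quad {a b c x0 x1 x2 x3 : ℝ} (h01 : x0 < x1) (h12 : x1 < x2) (h23 : x2 < x3)
    (h0 : 0 ≤ a * x0 ^ 2 + b * x0 + c) (h1 : a * x1 ^ 2 + b * x1 + c < 0)
    (h2 : 0 < a * x2 ^ 2 + b * x2 + c) (h3 : a * x3 ^ 2 + b * x3 + c ≤ 0) : False := by
  have p01 : 0 < x1 - x0 := by linarith
  have p02 : 0 < x2 - x0 := by linarith
  have p03 : 0 < x3 - x0 := by linarith
  have p12 : 0 < x2 - x1 := by linarith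
  have p13 : 0 < x3 - x1 := by linarith
  have p23 : 0 < x3 - x2 := by linarith
  have v0 : 0 < (x2 - x1) * (x3 - x1) * (x3 - x2) := by positivity
  have v1 : 0 < (x2 - x0) * (x3 - x0) * (x3 - x2) := by positivity
  have v2 : 0 < (x1 - x0) * (x3 - x0) * (x3 - x1) := by positivity
  have v3 : 0 < (x1 - x0) * (x2 - x0) * (x2 - x1) := by positivity
  have id : (a * x0 ^ 2 + b * x0 + c) * ((x2 - x1) * (x3 - x1) * (x3 - x2)) -
      (a * x1 ^ 2 + b * x1 + c) * ((x2 - x0) * (x3 - x0) * (x3 - x2)) +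
      (a * x2 ^ 2 + b * x2 + c) * ((x1 - x0) * (x3 - x0) * (x3 - x1)) -
      (a * x3 ^ 2 + b * x3 + c) * ((x1 - x0) * (x2 - x0) * (x2 - x1)) = 0 := by
    ring
  have s0 := mul_nonneg h0 v0.le
  have s1 := mul_neg_of_neg_of_pos h1 v1
  have s2 := mul_pos h2 v2
  have s3 := mul_nonpos_of_nonpos_of_nonneg h3 v3.le
  linarith

theorem hb : Hb := by
  intro α β γ α' β' γ' x y hγ hγα hαβ hγ' hγα' hαβ' hne hy hyx hx hX hY
  rcases hne with hα' | hlt
  · -- the case `α' = 1`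
    have hγ1 : γ' = 1 := le_antisymm (hα' ▸ hγα') hγ'
    subst hα'
    subst hγ1
    have gX : 0 < (γ - x) ^ 2 * (β' + x) - (1 + x) * ((α - x) * (β - x)) := by
      have h1 : 0 < (1 + x) * ((γ - x) ^ 2 * (β' + x) - (1 + x) * ((α - x) * (β - x))) := by
        nlinarith
      exact (mul_pos_iff_of_pos_left (by linarith)).1 h1
    have gY : (γ - y) ^ 2 * (β' + y) - (1 + y) * ((α - y) * (β - y)) < 0 := by
      have h1 : 0 < (1 + y) * (-((γ - y) ^ 2 * (β' + y) - (1 + y) * ((α - y) * (β - y)))) := by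
        nlinarith
      have h2 := (mul_pos_iff_of_pos_left (by linarith)).1 h1
      linarith
    have g0 : 0 ≤ (γ + 1) ^ 2 * (β' - 1) := mul_nonneg (sq_nonneg _) (by linarith)
    have g1 : 0 ≤ (1 + γ) * ((α - γ) * (β - γ)) :=
      mul_nonneg (by linarith) (mul_nonneg (by linarith) (by linarith))
    refine hb_quad (a := β' - 2 * γ - 1 + α + β)
      (b := γ ^ 2 - 2 * γ * β' - α * β + α + β) (c := γ ^ 2 * β' - α * β)
      (x0 := -1) (x1 := y) (x2 := x) (x3 := γ) hy hyx (by linarith) ?_ ?_ ?_ ?_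
    · nlinarith
    · nlinarith
    · nlinarith
    · nlinarith
  · have f0 : 0 ≤ (γ' - α') ^ 2 * ((α + α') * (β + α')) :=
      mul_nonneg (sq_nonneg _) (mul_nonneg (by linarith) (by linarith))
    have f1 : 0 ≤ (γ + γ') ^ 2 * ((α' - γ') * (β' - γ')) :=
      mul_nonneg (sq_nonneg _) (mul_nonneg (by linarith) (by linarith))
    have f4 : 0 ≤ (γ' + γ) ^ 2 * ((α - γ) * (β - γ)) :=
      mul_nonneg (sq_nonneg _) (mul_nonneg (by linarith) (by linarith))
    refine hb_cubic (a := α' + β' - 2 * γ + α + β - 2 * γ')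
      (b := γ ^ 2 - 2 * γ * (α' + β') + α' * β' - γ' ^ 2 + 2 * γ' * (α + β) - α * β)
      (c := γ ^ 2 * (α' + β') - 2 * γ * α' * β' + γ' ^ 2 * (α + β) - 2 * γ' * α * β)
      (d := γ ^ 2 * α' * β' - γ' ^ 2 * α * β)
      (x0 := -α') (x1 := -γ') (x2 := y) (x3 := x) (x4 := γ)
      (by linarith) (by linarith) hyx (by linarith) ?_ ?_ ?_ ?_ ?_
    · nlinarith
    · nlinarith
    · nlinarith
    · nlinarith
    · nlinarith

end Pool.Agent.Helper40.TV
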