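import Pool.Agent.Helper40.TV.St1

/-! Project TV, piece Hc -/

set_option autoImplicit false

namespace Pool.Agent.Helper40.TV

theorem hc : Hc := by
  intro N α β γ x y hN hγ hγα hαβ hyx hx h1 h2
  have e : (γ - y) * (N ^ 2 * (γ - x) ^ 2 - (N - 1) ^ 2 * ((α - x) * (β - x))) =
      (γ - x) * (N ^ 2 * (γ - y) ^ 2 - (N - 1) ^ 2 * ((α - y) * (β - y))) -
        (x - y) * ((N - 1) ^ 2 * ((α - γ) * (β - γ))) -
        (2 * N - 1) * ((x - y) * ((γ - x) * (γ - y))) := by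
    ring
  have a1 : 0 < γ - y := by linarith
  have a2 : 0 < γ - x := by linarith
  have a3 : 0 < x - y := by linarith
  have b1 : 0 < (γ - y) * (N ^ 2 * (γ - x) ^ 2 - (N - 1) ^ 2 * ((α - x) * (β - x))) :=
    mul_pos a1 (by linarith)
  have b2 : (γ - x) * (N ^ 2 * (γ - y) ^ 2 - (N - 1) ^ 2 * ((α - y) * (β - y))) < 0 :=
    mul_neg_of_pos_of_neg a2 (by linarith)
  have b3 : 0 ≤ (x - y) * ((N - 1) ^ 2 * ((α - γ) * (β - γ))) :=
    mul_nonneg a3.le (mul_nonneg (sq_nonneg _) (mul_nonneg (by linarith) (by linarith)))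
  have b4 : 0 ≤ (2 * N - 1) * ((x - y) * ((γ - x) * (γ - y))) :=
    mul_nonneg (by linarith) (mul_nonneg a3.le (mul_nonneg a2.le a1.le))
  linarith

end Pool.Agent.Helper40.TV
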