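import Pool.Agent.Helper40.TV.St1

/-!
Piece Hi: interpolation at the nodes, one of them double.
-/

set_option autoImplicit false

namespace Pool.Agent.Helper40.TV

open Polynomial Set Real
open Pool.Agent.Helper40.AS (Bdd)

noncomputable section

/-- strictly increasing nodes -/
theorem hi_lt {n : ℕ} {x : ℕ → ℝ} (h : ∀ j, j + 1 < n → x j < x (j + 1)) :
    ∀ j k, j < k → k < n → x j < x k := by
  intro j k hjk
  induction k, hjk using Nat.le_induction with
  | base => intro hk; exact h j hk
  | succ k hk ih =>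
    intro hkn
    exact (ih (by omega)).trans (h k hkn)

theorem hi_ne {n : ℕ} {x : ℕ → ℝ} (h : ∀ j, j + 1 < n → x j < x (j + 1)) {j k : ℕ} (hj : j < n)
    (hk : k < n) (hjk : j ≠ k) : x j ≠ x k := by
  rcases Nat.lt_or_gt_of_ne hjk with h1 | h1
  · exact (hi_lt h j k h1 hk).ne
  · exact (hi_lt h k j h1 hj).ne'

/-- the product of the linear factors -/
def hi_w (I : Finset ℕ) (x : ℕ → ℝ) (a : ℝ) : ℝ[X] := ∏ k ∈ I, ((X - C (x k)) * C (1 / (a - x k)))

theorem hi_w_eval (I : Finset ℕ) (x : ℕ → ℝ) (a s : ℝ) :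
    (hi_w I x a).eval s = ∏ k ∈ I, (s - x k) / (a - x k) := by
  unfold hi_w
  rw [eval_prod]
  refine Finset.prod_congr rfl (fun k _ => ?_)
  simp [div_eq_mul_inv]

theorem hi_w_self {I : Finset ℕ} {x : ℕ → ℝ} {a : ℝ} (h : ∀ k ∈ I, a - x k ≠ 0) :
    (hi_w I x a).eval a = 1 := by
  rw [hi_w_eval]
  exact Finset.prod_eq_one (fun k hk => div_self (h k hk))

theorem hi_w_deriv {I : Finset ℕ} {x : ℕ → ℝ} {a : ℝ} (h : ∀ k ∈ I, a - x k ≠ 0) :
    (derivative (hi_w I x a)).eval a = ∑ k ∈ I, 1 / (a - x k) := by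
  unfold hi_w
  rw [derivative_prod_finset, eval_finsetSum]
  refine Finset.sum_congr rfl (fun k hk => ?_)
  rw [eval_mul]
  have h1 := hi_w_self (I := I.erase k) (x := x) (a := a) (fun l hl => h l (Finset.mem_of_mem_erase hl))
  unfold hi_w at h1
  rw [h1]
  simp

theorem hi_w_deg (I : Finset ℕ) (x : ℕ → ℝ) (a : ℝ) : (hi_w I x a).natDegree ≤ I.card := by
  unfold hi_w
  refine (natDegree_prod_le _ _).trans ?_
  rw [Finset.card_eq_sum_ones]
  refine Finset.sum_le_sum (fun k _ => ?_)
  refine (natDegree_mul_C_le _ _).trans ?_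
  rw [natDegree_X_sub_C]

theorem hi : Hi := by
  intro n i x P s hi hx hdeg hP
  classical
  set I := (Finset.range n).erase i with hI
  have hcard : I.card = n - 1 := by
    rw [hI, Finset.card_erase_of_mem (Finset.mem_range.mpr hi), Finset.card_range]
  have hmem : ∀ k ∈ I, k < n ∧ k ≠ i := by
    intro k hk
    rw [hI, Finset.mem_erase, Finset.mem_range] at hk
    exact ⟨hk.2, hk.1⟩
  set a := x i with ha
  have hne : ∀ k ∈ I, a - x k ≠ 0 := by
    intro k hk
    obtain ⟨h1, h2⟩ := hmem k hk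
    exact sub_ne_zero.mpr (hi_ne hx hi h1 (Ne.symm h2))
  set S := ∑ k ∈ I, 1 / (a - x k) with hS
  set H : ℝ[X] := hi_w I x a * (1 - (X - C a) * C S) with hH
  have hHe : ∀ y, H.eval y = (∏ k ∈ I, (y - x k) / (a - x k)) * (1 - (y - a) * S) := by
    intro y
    rw [hH, eval_mul, hi_w_eval]
    simp
  have hHdeg : H.natDegree ≤ n := by
    refine natDegree_mul_le.trans ?_
    have h1 := hi_w_deg I x a
    have h2 : (1 - (X - C a) * C S : ℝ[X]).natDegree ≤ 1 := by
      refine (natDegree_sub_le _ _).trans ?_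
      rw [natDegree_one]
      refine max_le (by norm_num) ((natDegree_mul_C_le _ _).trans ?_)
      rw [natDegree_X_sub_C]
    omega
  set D := P - C (P.eval a) * H with hD
  have hDdeg : D.natDegree ≤ n :=
    (natDegree_sub_le _ _).trans (max_le hdeg ((natDegree_C_mul_le _ _).trans hHdeg))
  have hDa : D.eval a = 0 := by
    rw [hD, eval_sub, eval_mul, eval_C, hHe, Finset.prod_eq_one (fun k hk => div_self (hne k hk))]
    ring
  have hD'a : (derivative D).eval a = 0 := by
    rw [hD, derivative_sub, derivative_C_mul, hH, derivative_mul]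
    simp only [eval_sub, eval_mul, eval_add, eval_C]
    rw [hi_w_deriv hne, hi_w_self hne, ← hS, hP]
    simp
  have hdvd : (X - C a) ^ 2 ∣ D := by
    rcases eq_or_ne D 0 with h0 | h0
    · rw [h0]; exact dvd_zero _
    · rw [← le_rootMultiplicity_iff h0]
      exact (one_lt_rootMultiplicity_iff_isRoot h0).mpr ⟨hDa, hD'a⟩
  obtain ⟨Q, hQ⟩ := hdvd
  have hQdeg : Q.degree < (I.card : ℕ) := by
    rcases eq_or_ne Q 0 with h0 | h0
    · rw [h0, degree_zero]
      exact WithBot.bot_lt_coe _
    · have h1 : D.natDegree = 2 + Q.natDegree := by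
        rw [hQ, natDegree_mul (pow_ne_zero _ (X_sub_C_ne_zero a)) h0, natDegree_pow,
          natDegree_X_sub_C]
      rw [degree_eq_natDegree h0, hcard]
      have : Q.natDegree < n - 1 := by omega
      exact_mod_cast this
  have hinj : Set.InjOn x (I : Set ℕ) := by
    intro j hj k hk hjk
    by_contra hne'
    exact hi_ne hx (hmem j hj).1 (hmem k hk).1 hne' hjk
  have hL := Lagrange.eq_interpolate hinj hQdeg
  have hQe : ∀ j ∈ I, Q.eval (x j) = P.eval (x j) / (x j - a) ^ 2 := by
    intro j hj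
    have h1 : D.eval (x j) = P.eval (x j) := by
      rw [hD, eval_sub, eval_mul, eval_C, hHe, Finset.prod_eq_zero hj (by simp)]
      ring
    rw [hQ, eval_mul, eval_pow, eval_sub, eval_X, eval_C] at h1
    have h2 : (x j - a) ^ 2 ≠ 0 := pow_ne_zero _ (by
      have := hne j hj
      intro h3
      apply this
      linarith)
    rw [← h1, mul_comm, mul_div_assoc, div_self h2, mul_one]
  have hQs : Q.eval s = ∑ j ∈ I, P.eval (x j) / (x j - a) ^ 2 *
      ∏ k ∈ I.erase j, (s - x k) / (x j - x k) := by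
    rw [hL, Lagrange.interpolate_apply, eval_finsetSum]
    refine Finset.sum_congr rfl (fun j hj => ?_)
    rw [eval_mul, eval_C, hQe j hj]
    congr 1
    unfold Lagrange.basis
    rw [eval_prod]
    refine Finset.prod_congr rfl (fun k _ => ?_)
    unfold Lagrange.basisDivisor
    rw [eval_mul, eval_C, eval_sub, eval_X, eval_C]
    field_simp
  have hPs : P.eval s = D.eval s + P.eval a * H.eval s := by
    rw [hD, eval_sub, eval_mul, eval_C]
    ring
  rw [hPs, hHe, hQ, eval_mul, eval_pow, eval_sub, eval_X, eval_C, hQs, Finset.mul_sum]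
  congr 1
  refine Finset.sum_congr rfl (fun j _ => ?_)
  ring

end

end Pool.Agent.Helper40.TV
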