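import Pool.Agent.Helper40.TV.St1

/-!
The differences of the phases of two members have one hill.
-/

set_option autoImplicit false

namespace Pool.Agent.Helper40.TV

open Polynomial Set Real
open Pool.Agent.Helper40.AS (Bdd)

noncomputable section

theorem hk_ne {n : ℕ} {κ : ℝ} {Z : ℝ[X]} {x : ℕ → ℝ} (hn : 3 ≤ n) (h : Mem n κ Z x) :
    Z ^ 2 - 1 ≠ 0 := by
  intro h0
  have h1 : (Z - 1) * (Z + 1) = 0 := by
    have : (Z - 1) * (Z + 1) = Z ^ 2 - 1 := by ring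
    rw [this, h0]
  have e0 := h.val 0 (by omega)
  have e1 := h.val 1 (by omega)
  have e2 : (-1 : ℝ) ^ (n - 0) = -(-1 : ℝ) ^ (n - 1) := by
    have : n - 0 = (n - 1) + 1 := by omega
    rw [this, pow_succ]
    ring
  have hne : (-1 : ℝ) ^ (n - 1) ≠ 0 := pow_ne_zero _ (by norm_num)
  rcases mul_eq_zero.1 h1 with h2 | h2
  · have h3 : Z = 1 := sub_eq_zero.1 h2
    rw [h3] at e0 e1
    simp only [eval_one] at e0 e1
    rw [e2, ← e1] at e0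
    norm_num at e0
  · have h3 : Z = -1 := eq_neg_of_add_eq_zero_left h2
    rw [h3] at e0 e1
    simp only [eval_neg, eval_one] at e0 e1
    rw [e2, ← e1] at e0
    norm_num at e0

theorem hk_fin {n : ℕ} {κ : ℝ} {Z : ℝ[X]} {x : ℕ → ℝ} (hn : 3 ≤ n) (h : Mem n κ Z x) :
    {t : ℝ | t ∈ Icc 0 π ∧ Z.eval (cos t) ^ 2 = 1}.Finite := by
  have h1 : {y : ℝ | (Z ^ 2 - 1).IsRoot y}.Finite := Polynomial.finite_setOfPred_isRoot (hk_ne hn h)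
  have h2 : InjOn cos {t : ℝ | t ∈ Icc 0 π ∧ Z.eval (cos t) ^ 2 = 1} := by
    intro a ha b hb hab
    exact injOn_cos ha.1 hb.1 hab
  refine Finite.of_finite_image (h1.subset ?_) h2
  rintro _ ⟨t, ht, rfl⟩
  simp only [mem_ofPred_eq, IsRoot.def, eval_sub, eval_pow, eval_one]
  rw [ht.2]
  ring

theorem hk (hMo : Mo) (hHs : Hs) (hPt : Pt) (hPd : Pd) (hEx : Ex) (hPk : Pk) : Hk := by
  intro n θ η ζ κ κ' hn hθ hη hζ hθη hηζ h1 h2 h3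
  rcases eq_or_lt_of_le h2 with h2 | h2
  · rw [h2]
    simp
  have hκ : κ ∈ Icc (-1 : ℝ) 1 := ⟨by linarith, h3⟩
  have hκ' : κ' ∈ Icc (-1 : ℝ) 1 := ⟨h1, by linarith⟩
  have m1 := mem_c (hEx n κ hn hκ)
  have m2 := mem_c (hEx n κ' hn hκ')
  set S : Set ℝ := {t : ℝ | t ∈ Icc 0 π ∧ (Zc n κ).eval (cos t) ^ 2 = 1} ∪
    {t : ℝ | t ∈ Icc 0 π ∧ (Zc n κ').eval (cos t) ^ 2 = 1} with hS
  have hSf : S.Finite := (hk_fin hn m1).union (hk_fin hn m2)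
  have hc1 : ContinuousOn (fun t => Ph n κ t) (Icc 0 π) := (hPt n κ _ _ hn m1).1
  have hc2 : ContinuousOn (fun t => Ph n κ' t) (Icc 0 π) := (hPt n κ' _ _ hn m2).1
  have hD : ∀ t ∈ Ioo 0 π, t ∉ S →
      (Zc n κ).eval (cos t) ^ 2 ≠ 1 ∧ (Zc n κ').eval (cos t) ^ 2 ≠ 1 ∧
      HasDerivAt (fun t => Ph n κ' t - Ph n κ t) (dk n κ' t - dk n κ t) t := by
    intro t ht htS
    have a1 : (Zc n κ).eval (cos t) ^ 2 ≠ 1 := fun h => htS (Or.inl ⟨Ioo_subset_Icc_self ht, h⟩)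
    have a2 : (Zc n κ').eval (cos t) ^ 2 ≠ 1 := fun h => htS (Or.inr ⟨Ioo_subset_Icc_self ht, h⟩)
    have b1 : HasDerivAt (fun t => Ph n κ t) (dk n κ t) t := hPd n κ _ _ t hn m1 ht a1
    have b2 : HasDerivAt (fun t => Ph n κ' t) (dk n κ' t) t := hPd n κ' _ _ t hn m2 ht a2
    exact ⟨a1, a2, b2.sub b1⟩
  by_contra hcon
  rw [not_le, lt_min_iff] at hcon
  obtain ⟨hc3, hc4⟩ := hcon
  have hs1 : Icc θ η ⊆ Icc 0 π := Icc_subset_Icc hθ.1.le hη.2.le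
  have hs2 : Icc η ζ ⊆ Icc 0 π := Icc_subset_Icc hη.1.le hζ.2.le
  have hs1' : Ioo θ η ⊆ Ioo 0 π := Ioo_subset_Ioo hθ.1.le hη.2.le
  have hs2' : Ioo η ζ ⊆ Ioo 0 π := Ioo_subset_Ioo hη.1.le hζ.2.le
  have c1 : ∃ t ∈ Ioo θ η, t ∉ S ∧ dk n κ' t < dk n κ t := by
    by_contra hno
    push Not at hno
    have h5 := hMo (fun t => Ph n κ' t - Ph n κ t) (fun t => dk n κ' t - dk n κ t) S θ η hθη hSf
      ((hc2.sub hc1).mono hs1)
      (fun t ht htS => ⟨(hD t (hs1' ht) htS).2.2, sub_nonneg.2 (hno t ht htS)⟩)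
    linarith
  have c2 : ∃ t ∈ Ioo η ζ, t ∉ S ∧ dk n κ t < dk n κ' t := by
    by_contra hno
    push Not at hno
    have h5 := hMo (fun t => -(Ph n κ' t - Ph n κ t)) (fun t => -(dk n κ' t - dk n κ t)) S η ζ hηζ
      hSf ((hc2.sub hc1).neg.mono hs2)
      (fun t ht htS => ⟨(hD t (hs2' ht) htS).2.2.neg, by
        have := hno t ht htS
        linarith⟩)
    linarith
  obtain ⟨t1, ht1, hS1, hd1⟩ := c1
  obtain ⟨t2, ht2, hS2, hd2⟩ := c2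
  have d1 := hD t1 (hs1' ht1) hS1
  have d2 := hD t2 (hs2' ht2) hS2
  exact hHs n t1 t2 κ κ' hn (hs1' ht1) (hs2' ht2) (ht1.2.trans ht2.1) h1 h2 h3 d1.1 d2.1 d1.2.1
    d2.2.1 hd1 hd2

end

end Pool.Agent.Helper40.TV
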