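import Pool.Agent.Helper40.TV.St1

set_option autoImplicit false

namespace Pool.Agent.Helper40.TV

open Polynomial Set Real
open Pool.Agent.Helper40.AS (Bdd)

noncomputable section

theorem hs_cos_mem {θ : ℝ} (hθ : θ ∈ Ioo 0 π) : -1 < cos θ ∧ cos θ < 1 := by
  constructor
  · have := Real.cos_lt_cos_of_nonneg_of_le_pi hθ.1.le le_rfl hθ.2
    rwa [cos_pi] at this
  · have := Real.cos_lt_cos_of_nonneg_of_le_pi le_rfl hθ.2.le hθ.1
    rwa [cos_zero] at this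

theorem hs_dk_nonneg {n : ℕ} {κ θ : ℝ} (hθ : θ ∈ Ioo 0 π) : 0 ≤ dk n κ θ := by
  unfold dk
  have := sin_pos_of_pos_of_lt_pi hθ.1 hθ.2
  positivity

theorem hs_lt_one {n : ℕ} {κ θ : ℝ} (hm : Mem n κ (Zc n κ) (xc n κ))
    (hc : (Zc n κ).eval (cos θ) ^ 2 ≠ 1) : 0 < 1 - (Zc n κ).eval (cos θ) ^ 2 := by
  have h1 : |(Zc n κ).eval (cos θ)| ≤ 1 := hm.bdd _ ⟨neg_one_le_cos θ, cos_le_one θ⟩
  have h2 : (Zc n κ).eval (cos θ) ^ 2 ≤ 1 := (sq_le_one_iff_abs_le_one _).2 h1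
  have h3 := lt_of_le_of_ne h2 hc
  linarith

theorem hs_dk_sq {n : ℕ} {κ θ : ℝ} (hm : Mem n κ (Zc n κ) (xc n κ))
    (hc : (Zc n κ).eval (cos θ) ^ 2 ≠ 1) :
    dk n κ θ ^ 2 * (1 - (Zc n κ).eval (cos θ) ^ 2) =
      (Zc n κ).derivative.eval (cos θ) ^ 2 * (1 - cos θ ^ 2) := by
  have h := hs_lt_one hm hc
  unfold dk
  rw [div_pow, sq_sqrt h.le, mul_pow, sq_abs, sin_sq, div_mul_cancel₀ _ h.ne']

theorem hs_pos (hEx : Ex) (hAx : Ax) {n : ℕ} {κ : ℝ} (hn : 3 ≤ n) (hκ : κ ∈ Icc (-1 : ℝ) 1)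
    (h0 : 0 < κ) : Mem n κ (Zc n κ) (xc n κ) ∧ ∃ α β γ, Aux n κ (Zc n κ) (xc n κ) α β γ ∧
      ∀ θ ∈ Ioo 0 π, (Zc n κ).eval (cos θ) ^ 2 ≠ 1 →
        dk n κ θ ^ 2 * ((α - cos θ) * (β - cos θ)) = (n : ℝ) ^ 2 * (γ - cos θ) ^ 2 := by
  have hm : Mem n κ (Zc n κ) (xc n κ) := mem_c (hEx n κ hn hκ)
  obtain ⟨α, β, γ, ha⟩ := hAx n κ _ _ hn h0 hm
  refine ⟨hm, α, β, γ, ha, ?_⟩
  intro θ hθ hc
  obtain ⟨hx1, hx2⟩ := hs_cos_mem hθ
  have hd := hs_dk_sq hm hc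
  have hl := hs_lt_one hm hc
  have e1 := congrArg (Polynomial.eval (cos θ)) ha.id1
  have e2 := congrArg (Polynomial.eval (cos θ)) ha.id2
  simp only [eval_mul, eval_sub, eval_pow, eval_one, eval_X, eval_C] at e1 e2
  set x := cos θ with hx
  set z := (Zc n κ).eval x with hz
  set z' := (Zc n κ).derivative.eval x with hz'
  set o := (om n (xc n κ)).eval x with ho
  have hs : 0 < 1 - x ^ 2 := by nlinarith
  have hp4 : (4 : ℝ) ^ (n - 1) = (2 ^ (n - 1)) ^ 2 := by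
    rw [← pow_mul, mul_comm, pow_mul]; norm_num
  have ho0 : o ≠ 0 := by
    intro h
    rw [h] at e1
    have : (1 - x ^ 2) * (1 - z ^ 2) = 0 := by rw [e1]; ring
    have h3 : 0 < (1 - x ^ 2) * (1 - z ^ 2) := mul_pos hs hl
    linarith
  have hk : (4 : ℝ) ^ (n - 1) * κ ^ 2 * o ^ 2 ≠ 0 := by positivity
  apply mul_left_cancel₀ hk
  have hleft : (4 : ℝ) ^ (n - 1) * κ ^ 2 * o ^ 2 * (dk n κ θ ^ 2 * ((α - x) * (β - x))) =
      dk n κ θ ^ 2 * ((1 - x ^ 2) * (1 - z ^ 2)) := by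
    rw [e1]; ring
  have hright : (4 : ℝ) ^ (n - 1) * κ ^ 2 * o ^ 2 * ((n : ℝ) ^ 2 * (γ - x) ^ 2) =
      ((1 - x ^ 2) * z') ^ 2 := by
    rw [e2, hp4]; ring
  rw [hleft, hright]
  calc dk n κ θ ^ 2 * ((1 - x ^ 2) * (1 - z ^ 2)) =
      (dk n κ θ ^ 2 * (1 - z ^ 2)) * (1 - x ^ 2) := by ring
    _ = z' ^ 2 * (1 - x ^ 2) * (1 - x ^ 2) := by rw [hd]
    _ = ((1 - x ^ 2) * z') ^ 2 := by ring

theorem hs_zero (hEx : Ex) (hUn : Un) (hSp : Sp) {n : ℕ} (hn : 3 ≤ n) {θ : ℝ}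
    (hθ : θ ∈ Ioo 0 π) (hc : (Zc n 0).eval (cos θ) ^ 2 ≠ 1) : dk n 0 θ = (n : ℝ) - 1 := by
  have hm : Mem n 0 (Zc n 0) (xc n 0) := mem_c (hEx n 0 hn ⟨by norm_num, by norm_num⟩)
  have hz := (hUn n 0 _ _ _ _ hn hm (hSp n hn).2.2).1
  have hcast : ((n - 1 : ℕ) : ℤ) = (n : ℤ) - 1 := by
    have : 1 ≤ n := by omega
    push_cast [this]
    ring
  have hd := hs_dk_sq hm hc
  have hl := hs_lt_one hm hc
  have hv : (Zc n 0).eval (cos θ) = -cos (((n : ℝ) - 1) * θ) := by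
    rw [hz, eval_neg, Polynomial.Chebyshev.T_real_cos, hcast]
    push_cast
    rfl
  have hv' : (Zc n 0).derivative.eval (cos θ) * sin θ =
      -(((n : ℝ) - 1) * sin (((n : ℝ) - 1) * θ)) := by
    rw [hz, derivative_neg, Polynomial.Chebyshev.T_derivative_eq_U, eval_neg, eval_mul, hcast]
    have h2 := Polynomial.Chebyshev.U_real_cos θ ((n : ℤ) - 1 - 1)
    have h3 : ((((n : ℤ) - 1 - 1 : ℤ) : ℝ) + 1) * θ = ((n : ℝ) - 1) * θ := by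
      push_cast; ring
    rw [h3] at h2
    rw [neg_mul, mul_assoc, h2]
    congr 2
    simp
  have hn1 : (0 : ℝ) ≤ (n : ℝ) - 1 := by
    have : (3 : ℝ) ≤ n := by exact_mod_cast hn
    linarith
  have h5 : dk n 0 θ ^ 2 * (1 - (Zc n 0).eval (cos θ) ^ 2) =
      ((n : ℝ) - 1) ^ 2 * (1 - (Zc n 0).eval (cos θ) ^ 2) := by
    rw [hd, ← sin_sq, ← mul_pow, hv', hv, neg_sq, neg_sq, mul_pow, sin_sq]
  have h6 : dk n 0 θ ^ 2 = ((n : ℝ) - 1) ^ 2 := mul_right_cancel₀ hl.ne' h5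
  exact (pow_left_inj₀ (hs_dk_nonneg hθ) hn1 two_ne_zero).1 h6

theorem hs_refl (hSc : Sc) {n : ℕ} {κ : ℝ} (hn : 3 ≤ n) (hκ : κ ∈ Icc (-1 : ℝ) 1) {θ : ℝ}
    (hθ : θ ∈ Ioo 0 π) (hc : (Zc n κ).eval (cos θ) ^ 2 ≠ 1) :
    dk n κ θ = dk n (-κ) (π - θ) ∧ (Zc n (-κ)).eval (cos (π - θ)) ^ 2 ≠ 1 ∧
      π - θ ∈ Ioo 0 π := by
  have h := hSc n (-κ) hn ⟨by linarith [hκ.2], by linarith [hκ.1]⟩
  rw [neg_neg] at h
  refine ⟨h.2.2.2.2 θ, ?_, ⟨by linarith [hθ.2], by linarith [hθ.1]⟩⟩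
  intro h1
  apply hc
  rw [h.1, eval_mul, eval_C, eval_comp, eval_neg, eval_X, mul_pow, ← pow_mul, mul_comm (n + 1) 2,
    pow_mul]
  rw [cos_pi_sub] at h1
  rw [h1]
  norm_num

/-- comparison of the squares -/
theorem hs_cmp {a b p q r s : ℝ} {N : ℝ} (hN : 0 < N) (ha : 0 ≤ a) (hp : 0 < p) (hr : 0 < r)
    (h1 : a ^ 2 * p = N ^ 2 * q ^ 2) (h2 : b ^ 2 * r = N ^ 2 * s ^ 2) (h : a < b) :
    q ^ 2 * r < s ^ 2 * p := by
  have h3 : a ^ 2 < b ^ 2 := by nlinarith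
  have h4 : a ^ 2 * (p * r) < b ^ 2 * (p * r) := mul_lt_mul_of_pos_right h3 (mul_pos hp hr)
  have h5 : N ^ 2 * (q ^ 2 * r) < N ^ 2 * (s ^ 2 * p) := by
    calc N ^ 2 * (q ^ 2 * r) = a ^ 2 * (p * r) := by
          rw [← mul_assoc, ← h1]; ring
      _ < b ^ 2 * (p * r) := h4
      _ = N ^ 2 * (s ^ 2 * p) := by
          rw [← mul_assoc (N ^ 2), ← h2]; ring
  exact lt_of_mul_lt_mul_left h5 (by positivity)

theorem hs (hEx : Ex) (hUn : Un) (hSp : Sp) (hAx : Ax) (hAm : Am) (hSc : Sc) (hHa : Ha)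
    (hHb : Hb) (hHc : Hc) : Hs := by
  intro n θ η κ κ' hn hθ hη hlt hk1 hk2 hk3 c1 c2 c3 c4 hd1 hd2
  have hκ : κ ∈ Icc (-1 : ℝ) 1 := ⟨by linarith, hk3⟩
  have hκ' : κ' ∈ Icc (-1 : ℝ) 1 := ⟨hk1, by linarith⟩
  have hnκ : -κ ∈ Icc (-1 : ℝ) 1 := ⟨by linarith [hκ.2], by linarith [hκ.1]⟩
  have hnκ' : -κ' ∈ Icc (-1 : ℝ) 1 := ⟨by linarith [hκ'.2], by linarith [hκ'.1]⟩
  have hxy : cos η < cos θ := Real.cos_lt_cos_of_nonneg_of_le_pi hθ.1.le hη.2.le hlt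
  obtain ⟨hx1, hx2⟩ := hs_cos_mem hθ
  obtain ⟨hy1, hy2⟩ := hs_cos_mem hη
  have hn3 : (3 : ℝ) ≤ n := by exact_mod_cast hn
  have hn0 : (0 : ℝ) < n := by linarith
  -- positivity of the quadratic factors
  have hpos : ∀ α β γ t : ℝ, 1 ≤ γ → γ ≤ α → α ≤ β → t < 1 → 0 < (α - t) * (β - t) := by
    intro α β γ t h1 h2 h3 h4
    exact mul_pos (by linarith) (by linarith)
  rcases lt_trichotomy κ' 0 with hneg | hzero | hposk'
  · -- `κ' < 0`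
    obtain ⟨r3, r3c, r3m⟩ := hs_refl hSc hn hκ' hθ c3
    obtain ⟨r4, r4c, r4m⟩ := hs_refl hSc hn hκ' hη c4
    obtain ⟨hm', α', β', γ', ha', hf'⟩ := hs_pos hEx hAx hn hnκ' (by linarith)
    have f3 := hf' _ r3m r3c
    have f4 := hf' _ r4m r4c
    rw [← r3, cos_pi_sub, sub_neg_eq_add, sub_neg_eq_add, sub_neg_eq_add] at f3
    rw [← r4, cos_pi_sub, sub_neg_eq_add, sub_neg_eq_add, sub_neg_eq_add] at f4
    have p3 : 0 < (α' + cos θ) * (β' + cos θ) := by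
      have := hpos α' β' γ' (-cos θ) ha'.g1 ha'.ga ha'.ab (by linarith)
      simpa using this
    have p4 : 0 < (α' + cos η) * (β' + cos η) := by
      have := hpos α' β' γ' (-cos η) ha'.g1 ha'.ga ha'.ab (by linarith)
      simpa using this
    rcases lt_trichotomy κ 0 with hneg2 | hzero2 | hpos2
    · -- `κ < 0`
      obtain ⟨r1, r1c, r1m⟩ := hs_refl hSc hn hκ hθ c1
      obtain ⟨r2, r2c, r2m⟩ := hs_refl hSc hn hκ hη c2
      obtain ⟨hm, α, β, γ, ha, hf⟩ := hs_pos hEx hAx hn hnκ (by linarith)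
      have f1 := hf _ r1m r1c
      have f2 := hf _ r2m r2c
      rw [← r1, cos_pi_sub, sub_neg_eq_add, sub_neg_eq_add, sub_neg_eq_add] at f1
      rw [← r2, cos_pi_sub, sub_neg_eq_add, sub_neg_eq_add, sub_neg_eq_add] at f2
      have p1 : 0 < (α + cos θ) * (β + cos θ) := by
        have := hpos α β γ (-cos θ) ha.g1 ha.ga ha.ab (by linarith)
        simpa using this
      have p2 : 0 < (α + cos η) * (β + cos η) := by
        have := hpos α β γ (-cos η) ha.g1 ha.ga ha.ab (by linarith)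
        simpa using this
      obtain ⟨hA, hB⟩ := hAm n (-κ') (-κ) α' β' γ' α β γ _ _ _ _ hn (by linarith) (by linarith)
        hm' hm ha' ha
      have g1 := hs_cmp hn0 (hs_dk_nonneg hη) p2 p4 f2 f4 hd2
      have g2 := hs_cmp hn0 (hs_dk_nonneg hθ) p3 p1 f3 f1 hd1
      refine hHa α' β' γ' α β γ (-cos η) (-cos θ) ha'.g1 ha'.ga ha'.ab ha'.ne ha.g1 ha.ga ha.ab
        hA hB (by linarith) (by linarith) ?_ ?_
      · simpa using g1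
      · simpa using g2
    · -- `κ = 0`
      subst hzero2
      have d1 := hs_zero hEx hUn hSp hn hθ c1
      have d2 := hs_zero hEx hUn hSp hn hη c2
      rw [d1] at hd1
      rw [d2] at hd2
      refine hHc n α' β' γ' (-cos η) (-cos θ) (by linarith) ha'.g1 ha'.ga ha'.ab (by linarith)
        (by linarith) ?_ ?_
      · simp only [sub_neg_eq_add]
        rw [← f4]
        refine mul_lt_mul_of_pos_right ?_ p4
        exact pow_lt_pow_left₀ hd2 (by linarith) two_ne_zero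
      · simp only [sub_neg_eq_add]
        rw [← f3]
        refine mul_lt_mul_of_pos_right ?_ p3
        exact pow_lt_pow_left₀ hd1 (hs_dk_nonneg hθ) two_ne_zero
    · -- `0 < κ`
      obtain ⟨hm, α, β, γ, ha, hf⟩ := hs_pos hEx hAx hn hκ hpos2
      have f1 := hf _ hθ c1
      have f2 := hf _ hη c2
      have p1 := hpos α β γ (cos θ) ha.g1 ha.ga ha.ab hx2
      have p2 := hpos α β γ (cos η) ha.g1 ha.ga ha.ab hy2
      have g1 := hs_cmp hn0 (hs_dk_nonneg hθ) p3 p1 f3 f1 hd1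
      have g2 := hs_cmp hn0 (hs_dk_nonneg hη) p2 p4 f2 f4 hd2
      exact hHb α β γ α' β' γ' (cos θ) (cos η) ha.g1 ha.ga ha.ab ha'.g1 ha'.ga ha'.ab ha'.ne
        hy1 hxy hx2 g1 g2
  · -- `κ' = 0`
    subst hzero
    obtain ⟨hm, α, β, γ, ha, hf⟩ := hs_pos hEx hAx hn hκ hk2
    have f1 := hf _ hθ c1
    have f2 := hf _ hη c2
    have p1 := hpos α β γ (cos θ) ha.g1 ha.ga ha.ab hx2
    have p2 := hpos α β γ (cos η) ha.g1 ha.ga ha.ab hy2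
    have d3 := hs_zero hEx hUn hSp hn hθ c3
    have d4 := hs_zero hEx hUn hSp hn hη c4
    rw [d3] at hd1
    rw [d4] at hd2
    refine hHc n α β γ (cos θ) (cos η) (by linarith) ha.g1 ha.ga ha.ab hxy hx2 ?_ ?_
    · rw [← f1]
      refine mul_lt_mul_of_pos_right ?_ p1
      exact pow_lt_pow_left₀ hd1 (by linarith) two_ne_zero
    · rw [← f2]
      refine mul_lt_mul_of_pos_right ?_ p2
      exact pow_lt_pow_left₀ hd2 (hs_dk_nonneg hη) two_ne_zero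
  · -- `0 < κ'`
    obtain ⟨hm', α', β', γ', ha', hf'⟩ := hs_pos hEx hAx hn hκ' hposk'
    obtain ⟨hm, α, β, γ, ha, hf⟩ := hs_pos hEx hAx hn hκ (by linarith)
    have f1 := hf _ hθ c1
    have f2 := hf _ hη c2
    have f3 := hf' _ hθ c3
    have f4 := hf' _ hη c4
    have p1 := hpos α β γ (cos θ) ha.g1 ha.ga ha.ab hx2
    have p2 := hpos α β γ (cos η) ha.g1 ha.ga ha.ab hy2
    have p3 := hpos α' β' γ' (cos θ) ha'.g1 ha'.ga ha'.ab hx2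
    have p4 := hpos α' β' γ' (cos η) ha'.g1 ha'.ga ha'.ab hy2
    obtain ⟨hA, hB⟩ := hAm n κ κ' α β γ α' β' γ' _ _ _ _ hn hposk' hk2 hm hm' ha ha'
    have g1 := hs_cmp hn0 (hs_dk_nonneg hθ) p3 p1 f3 f1 hd1
    have g2 := hs_cmp hn0 (hs_dk_nonneg hη) p2 p4 f2 f4 hd2
    exact hHa α β γ α' β' γ' (cos θ) (cos η) ha.g1 ha.ga ha.ab ha.ne ha'.g1 ha'.ga ha'.ab hA hB
      hxy hx2 g1 g2

end

end Pool.Agent.Helper40.TV
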