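import Pool.Agent.Helper40.TV.St1

/-!
Integration in the parameter.
-/

set_option autoImplicit false

namespace Pool.Agent.Helper40.TV

open Polynomial Set Real
open Pool.Agent.Helper40.AS (Bdd)

theorem inn (hMo : Mo) (hPk : Pk) (hPq : Pq) : In := by
  intro n θ η κ κ' p q hn hθ hη h1 h2 h3 h
  obtain ⟨-, cθ, -, -⟩ := hPk n θ hn hθ
  obtain ⟨-, cη, -, -⟩ := hPk n η hn hη
  obtain ⟨dθ, fθ⟩ := hPq n θ hn hθ
  obtain ⟨dη, fη⟩ := hPq n η hn hη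
  have hsub : Icc κ' κ ⊆ Icc (-1 : ℝ) 1 := Icc_subset_Icc h1 h3
  have key := hMo (fun k => p * Ph n k θ - q * Ph n k η)
    (fun k => p * (-wk n k θ) - q * (-wk n k η))
    ({0} ∪ ({k : ℝ | k ∈ Icc (-1 : ℝ) 1 ∧ (Zc n k).eval (cos θ) ^ 2 = 1} ∪
      {k : ℝ | k ∈ Icc (-1 : ℝ) 1 ∧ (Zc n k).eval (cos η) ^ 2 = 1})) κ' κ h2
    ((finite_singleton 0).union (fθ.union fη))
    ((continuousOn_const.mul (cθ.mono hsub)).sub (continuousOn_const.mul (cη.mono hsub)))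
    (fun k hk hS => by
      have hk1 : k ∈ Ioo (-1 : ℝ) 1 := ⟨lt_of_le_of_lt h1 hk.1, lt_of_lt_of_le hk.2 h3⟩
      have hk2 : k ∈ Icc (-1 : ℝ) 1 := Ioo_subset_Icc_self hk1
      have n0 : k ≠ 0 := fun h0 => hS (Or.inl h0)
      have n1 : (Zc n k).eval (cos θ) ^ 2 ≠ 1 := fun h0 => hS (Or.inr (Or.inl ⟨hk2, h0⟩))
      have n2 : (Zc n k).eval (cos η) ^ 2 ≠ 1 := fun h0 => hS (Or.inr (Or.inr ⟨hk2, h0⟩))
      refine ⟨((dθ k hk1 n1).const_mul p).sub ((dη k hk1 n2).const_mul q), ?_⟩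
      have := h k hk n0 n1 n2
      linarith)
  linarith

end Pool.Agent.Helper40.TV
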