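import Pool.Agent.Helper40.TV.St2

/-!
One jump, across an integer.
-/

set_option autoImplicit false

namespace Pool.Agent.Helper40.TV

open Set Real

/-- the trigonometric identity -/
theorem j1_id (p q r : ℝ) (hr : 0 < r) (hp : 0 < p) (hq : 0 < q) (h : p + q + 2 * r = π) :
    2 * sin (r / 2) * sin (p / 2) / cos ((r + p) / 2) +
      2 * sin (r / 2) * sin (q / 2) / cos ((r + q) / 2) =
    2 * cos r - 2 * (1 - sin r / sin (r + q)) := by
  have hA0 : 0 < (r + p) / 2 := by linarith
  have hA1 : (r + p) / 2 < π / 2 := by linarith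
  have hB0 : 0 < (r + q) / 2 := by linarith
  have hB1 : (r + q) / 2 < π / 2 := by linarith
  have hcA : 0 < cos ((r + p) / 2) := cos_pos_of_mem_Ioo ⟨by linarith, hA1⟩
  have hcB : 0 < cos ((r + q) / 2) := cos_pos_of_mem_Ioo ⟨by linarith, hB1⟩
  have e1 : cos ((r + p) / 2) = sin ((r + q) / 2) := by
    rw [← cos_pi_div_two_sub]
    congr 1
    linarith
  have e2 : sin ((r + p) / 2) = cos ((r + q) / 2) := by
    rw [← cos_pi_div_two_sub]
    congr 1
    linarith
  have hsB : 0 < sin ((r + q) / 2) := by rw [← e1]; exact hcA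
  have e3 : sin (p / 2) = sin ((r + p) / 2) * cos (r / 2) - cos ((r + p) / 2) * sin (r / 2) := by
    rw [← sin_sub]
    congr 1
    ring
  have e4 : sin (q / 2) = sin ((r + q) / 2) * cos (r / 2) - cos ((r + q) / 2) * sin (r / 2) := by
    rw [← sin_sub]
    congr 1
    ring
  have e5 : sin (r + q) = 2 * sin ((r + q) / 2) * cos ((r + q) / 2) := by
    rw [← sin_two_mul]
    congr 1
    ring
  have e6 : sin r = 2 * sin (r / 2) * cos (r / 2) := by
    rw [← sin_two_mul]
    congr 1
    ring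
  have e7 : cos r = 1 - 2 * sin (r / 2) ^ 2 := by
    have h1 : cos r = cos (2 * (r / 2)) := by
      congr 1
      ring
    rw [h1, cos_two_mul]
    have := sin_sq_add_cos_sq (r / 2)
    linarith
  have e8 := sin_sq_add_cos_sq ((r + q) / 2)
  rw [e3, e4, e5, e6, e7, e1, e2]
  obtain ⟨S, hS⟩ : ∃ S, S = sin ((r + q) / 2) := ⟨_, rfl⟩
  obtain ⟨K, hK⟩ : ∃ K, K = cos ((r + q) / 2) := ⟨_, rfl⟩
  rw [← hS] at hsB e8 ⊢
  rw [← hK] at hcB e8 ⊢
  field_simp
  linear_combination (sin (r / 2) * cos (r / 2)) * e8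

theorem j1 (hV1 : V1) (hW1 : W1) (hTb : Tb) : J1 := by
  intro Th a b h m X Y c hXm hmY hYX hc
  obtain ⟨_, hvm, _, hvp, _, hvneg, _⟩ := hV1
  obtain ⟨_, _, _, hcW, _⟩ := hW1
  have ha : a ∈ Icc a b := ⟨le_rfl, h.ab⟩
  have hb : b ∈ Icc a b := ⟨h.ab, le_rfl⟩
  have hmc := h.mono c hc
  obtain ⟨p, hp⟩ : ∃ p, p = Th m c - Th X c := ⟨_, rfl⟩
  obtain ⟨q, hq⟩ : ∃ q, q = Th Y c - Th m c := ⟨_, rfl⟩
  have hp0 : 0 < p := by
    have : Th X c < Th m c := hmc hXm
    linarith
  have hq0 : 0 < q := by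
    have : Th m c < Th Y c := hmc hmY
    linarith
  have hX1 : Th (X + 1) c = Th X c + π := h.unit X c hc
  have hY1 : Th Y c < Th (X + 1) c := hmc hYX
  obtain ⟨r, hr⟩ : ∃ r, r = (π - p - q) / 2 := ⟨_, rfl⟩
  have hr0 : 0 < r := by linarith
  have hsum : p + q + 2 * r = π := by linarith
  -- the label `L0`
  obtain ⟨L0, hL0, hL0c⟩ : ∃ L0 ∈ Icc Y (X + 1), Th L0 c = Th Y c + r := by
    have hIVT := intermediate_value_Icc hYX.le ((h.cont c hc).continuousOn (s := Icc Y (X + 1)))
    have hmem : Th Y c + r ∈ Icc (Th Y c) (Th (X + 1) c) := ⟨by linarith, by linarith⟩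
    obtain ⟨L, hL, hLe⟩ := hIVT hmem
    exact ⟨L, hL, hLe⟩
  -- the coefficient
  have hsq : 0 < sin (r + q) := sin_pos_of_pos_of_lt_pi (by linarith) (by linarith)
  have hsr : 0 < sin r := sin_pos_of_pos_of_lt_pi hr0 (by linarith)
  have hsrp : sin (r + p) = sin (r + q) := by
    have : r + p = π - (r + q) := by linarith
    rw [this, sin_pi_sub]
  obtain ⟨k, hk⟩ : ∃ k, k = sin r / sin (r + q) := ⟨_, rfl⟩
  have hk0 : 0 ≤ k := by rw [hk]; positivity
  have hk1 : k ≤ 1 := by
    rw [hk, div_le_one hsq]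
    have h1 : sin (r + q) - sin r = 2 * sin (q / 2) * cos (r + q / 2) := by
      have h2 := sin_sub_sin (r + q) r
      rw [h2]
      congr 1
      · congr 2
        ring
      · congr 1
        ring
    have h3 : 0 ≤ sin (q / 2) := sin_nonneg_of_nonneg_of_le_pi (by linarith) (by linarith)
    have h4 : 0 ≤ cos (r + q / 2) := cos_nonneg_of_mem_Icc ⟨by linarith, by linarith⟩
    have h5 : 0 ≤ 2 * sin (q / 2) * cos (r + q / 2) := by positivity
    linarith
  -- first brace
  have hbr1 : -(2 * sin (r / 2) * sin (q / 2) / cos ((r + q) / 2)) ≤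
      (1 - k) * (vv (Th L0 b) - vv (Th Y b)) - k * (vv (Th Y b) - vv (Th m b)) := by
    obtain ⟨d, hd⟩ : ∃ d, d = Th Y b - Th m b := ⟨_, rfl⟩
    have hd0 : 0 ≤ d := by
      have : Th m b < Th Y b := h.mono b hb hmY
      linarith
    have hm1 := h.unit m c hc
    have hm2 := h.unit m b hb
    have t1 := h.tp m m Y (m + 1) le_rfl hmY.le (by linarith) le_rfl c hc b hb hc.2
    rw [hm1, hm2] at t1
    have hdq : d ≤ q := by
      have e1 : Th m c + π - Th Y c = π - q := by rw [hq]; ring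
      have e2 : Th m b + π - Th Y b = π - d := by rw [hd]; ring
      rw [e1, e2, ← hd, ← hq] at t1
      have : π * d ≤ π * q := by linarith
      exact le_of_mul_le_mul_left this pi_pos
    have t2 := h.tp m m Y L0 le_rfl hmY.le hL0.1 (by linarith [hL0.2]) c hc b hb hc.2
    have e3 : Th L0 c - Th Y c = r := by rw [hL0c]; ring
    rw [e3, ← hd, ← hq] at t2
    obtain ⟨t, ht⟩ : ∃ t, t = d / q := ⟨_, rfl⟩
    have ht0 : 0 ≤ t := by rw [ht]; positivity
    have ht1 : t ≤ 1 := by rw [ht, div_le_one hq0]; exact hdq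
    have htq : t * q = d := by rw [ht]; field_simp
    have htr : t * r ≤ Th L0 b - Th Y b := by
      have : q * (t * r) ≤ q * (Th L0 b - Th Y b) := by
        calc q * (t * r) = r * (t * q) := by ring
          _ = r * d := by rw [htq]
          _ ≤ (Th L0 b - Th Y b) * q := t2
          _ = q * (Th L0 b - Th Y b) := by ring
      exact le_of_mul_le_mul_left this hq0
    have hB := hTb r q t (Th Y b) hr0 hq0 (by linarith) ht0 ht1
    rw [← hk, htq] at hB
    have e4 : Th Y b - d = Th m b := by rw [hd]; ring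
    rw [e4] at hB
    have e5 : vv (Th Y b + t * r) ≤ vv (Th L0 b) := hvm.monotone (by linarith)
    have e6 : (1 - k) * (vv (Th Y b + t * r) - vv (Th Y b)) ≤
        (1 - k) * (vv (Th L0 b) - vv (Th Y b)) :=
      mul_le_mul_of_nonneg_left (by linarith) (by linarith)
    linarith
  -- second brace
  have hbr2 : -(2 * sin (r / 2) * sin (p / 2) / cos ((r + p) / 2)) ≤
      (1 - k) * (vv (Th X a) - vv (Th (L0 - 1) a)) - k * (vv (Th m a) - vv (Th X a)) := by
    obtain ⟨d, hd⟩ : ∃ d, d = Th m a - Th X a := ⟨_, rfl⟩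
    have hd0 : 0 ≤ d := by
      have : Th X a < Th m a := h.mono a ha hXm
      linarith
    have hcast : (((m - 1 : ℤ) : ℤ) : ℝ) = (m : ℝ) - 1 := by push_cast; ring
    have hm1 := h.unit ((m : ℝ) - 1) c hc
    have hm2 := h.unit ((m : ℝ) - 1) a ha
    rw [sub_add_cancel] at hm1 hm2
    have t1 := h.tp (m - 1) ((m : ℝ) - 1) X m hcast.le (by linarith) hXm.le
      (by rw [hcast]; linarith) a ha c hc hc.1
    have hdp : d ≤ p := by
      have e1 : Th X c - Th ((m : ℝ) - 1) c = π - p := by rw [hp]; linarith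
      have e2 : Th X a - Th ((m : ℝ) - 1) a = π - d := by rw [hd]; linarith
      rw [e1, e2, ← hd, ← hp] at t1
      have : π * d ≤ π * p := by linarith
      exact le_of_mul_le_mul_left this pi_pos
    have t2 := h.tp (m - 1) (L0 - 1) X m (by rw [hcast]; linarith [hL0.1]) (by linarith [hL0.2])
      hXm.le (by rw [hcast]; linarith) a ha c hc hc.1
    have hL1 := h.unit (L0 - 1) c hc
    rw [sub_add_cancel] at hL1
    have e3 : Th X c - Th (L0 - 1) c = r := by linarith
    rw [e3, ← hd, ← hp] at t2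
    obtain ⟨t, ht⟩ : ∃ t, t = d / p := ⟨_, rfl⟩
    have ht0 : 0 ≤ t := by rw [ht]; positivity
    have ht1 : t ≤ 1 := by rw [ht, div_le_one hp0]; exact hdp
    have htq : t * p = d := by rw [ht]; field_simp
    have htr : t * r ≤ Th X a - Th (L0 - 1) a := by
      have : p * (t * r) ≤ p * (Th X a - Th (L0 - 1) a) := by
        calc p * (t * r) = (t * p) * r := by ring
          _ = d * r := by rw [htq]
          _ ≤ p * (Th X a - Th (L0 - 1) a) := t2
      exact le_of_mul_le_mul_left this hp0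
    have hB := hTb r p t (-Th X a) hr0 hp0 (by linarith) ht0 ht1
    rw [hsrp, ← hk, htq] at hB
    have e4 : -Th X a - d = -Th m a := by rw [hd]; ring
    have e5 : -Th X a + t * r = -(Th X a - t * r) := by ring
    rw [e4, e5, hvneg, hvneg, hvneg] at hB
    have e6 : vv (Th (L0 - 1) a) ≤ vv (Th X a - t * r) := hvm.monotone (by linarith)
    have e7 : (1 - k) * (-vv (Th X a - t * r) - -vv (Th X a)) ≤
        (1 - k) * (vv (Th X a) - vv (Th (L0 - 1) a)) :=
      mul_le_mul_of_nonneg_left (by linarith) (by linarith)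
    linarith
  -- the cost
  have hcost : cW (Th Y c - Th X c) = 2 * cos r := by
    have e1 : Th Y c - Th X c = p + q := by rw [hp, hq]; ring
    rw [e1, hcW (p + q) (by linarith) (by linarith)]
    have e2 : (p + q) / 2 = π / 2 - r := by linarith
    rw [e2, sin_pi_div_two_sub]
  have hid := j1_id p q r hr0 hp0 hq0 hsum
  rw [← hk] at hid
  have hLa : vv (Th L0 a) = vv (Th (L0 - 1) a) + 2 := by
    have := h.unit (L0 - 1) a ha
    rw [sub_add_cancel] at this
    rw [this, hvp]
  have hmain : vv (Th Y b) - vv (Th X a) - cW (Th Y c - Th X c) ≤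
      (1 - k) * (vv (Th L0 b) - vv (Th L0 a)) + k * (vv (Th m b) - vv (Th m a)) := by
    rw [hcost, hLa]
    linarith
  by_contra hcon
  push Not at hcon
  have h1 := hcon L0
  have h2 := hcon m
  have h3 : (1 - k) * (vv (Th L0 b) - vv (Th L0 a)) ≤
      (1 - k) * (vv (Th Y b) - vv (Th X a) - cW (Th Y c - Th X c)) :=
    mul_le_mul_of_nonneg_left h1.le (by linarith)
  have h4 : k * (vv (Th m b) - vv (Th m a)) ≤
      k * (vv (Th Y b) - vv (Th X a) - cW (Th Y c - Th X c)) :=
    mul_le_mul_of_nonneg_left h2.le hk0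
  rcases eq_or_lt_of_le hk0 with h0 | h0
  · rw [← h0] at hmain
    linarith
  · have h5 : k * (vv (Th m b) - vv (Th m a)) <
        k * (vv (Th Y b) - vv (Th X a) - cW (Th Y c - Th X c)) :=
      mul_lt_mul_of_pos_left h2 h0
    linarith

end Pool.Agent.Helper40.TV
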