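import Pool.Agent.Helper40.TV.St2

/-! Project TV, piece J2 -/

set_option autoImplicit false

namespace Pool.Agent.Helper40.TV

open Set Real

theorem j2 (hW1 : W1) : J2 := by
  intro Th a b hP X Y c c' c'' hXY hY hc' hc hc'' h1 h2
  have h := hP.hill ⌊X⌋ X Y (Int.floor_le X) hXY hY c' hc' c hc c'' hc'' h1 h2
  rcases min_le_iff.mp h with h3 | h3
  · exact Or.inl (hW1.1 h3)
  · exact Or.inr (hW1.1 h3)

end Pool.Agent.Helper40.TV
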