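import Pool.Agent.Helper40.TV.St2

/-!
Piece J3: two jumps across integers can be merged.
-/

set_option autoImplicit false

namespace Pool.Agent.Helper40.TV

open Set Real

theorem j3_cos {x y s : ℝ} (hx : 0 ≤ x) (hy : 0 ≤ y) (hs : x + y ≤ s) (hs2 : s ≤ π / 2) :
    1 + cos s ≤ cos x + cos y := by
  have h0 : cos s ≤ cos (x + y) :=
    cos_le_cos_of_nonneg_of_le_pi (by linarith) (by linarith [pi_pos]) hs
  have h1 : cos x + cos y = 2 * cos ((x + y) / 2) * cos ((x - y) / 2) := cos_add_cos x y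
  have h2 : cos (x + y) = 2 * cos ((x + y) / 2) ^ 2 - 1 := by
    rw [← cos_two_mul]
    congr 1
    ring
  have h3 : 0 ≤ cos ((x + y) / 2) :=
    cos_nonneg_of_mem_Icc ⟨by linarith [pi_pos], by linarith [pi_pos]⟩
  have h4 : cos ((x + y) / 2) ≤ cos ((x - y) / 2) := by
    rw [← cos_abs ((x - y) / 2)]
    refine cos_le_cos_of_nonneg_of_le_pi (abs_nonneg _) (by linarith [pi_pos]) ?_
    rw [abs_le]
    constructor <;> linarith
  nlinarith

theorem j3 (hW1 : W1) : J3 := by
  intro Th a b hP m X Y W c c' hXm hmY hYX hYm hmW hWY hc hc' hcc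
  obtain ⟨-, -, -, hs, hp, -, -⟩ := hW1
  -- the values
  have uX : ∀ θ ∈ Icc a b, Th (X + 1) θ = Th X θ + π := fun θ hθ => hP.unit X θ hθ
  have uW : ∀ θ ∈ Icc a b, Th W θ = Th (W - 1) θ + π := fun θ hθ => by
    have := hP.unit (W - 1) θ hθ
    rwa [sub_add_cancel] at this
  have um : ∀ θ ∈ Icc a b, Th ((m : ℝ) + 1) θ = Th m θ + π := fun θ hθ => hP.unit m θ hθ
  have m1 : ∀ θ ∈ Icc a b, Th (W - 1) θ < Th Y θ := fun θ hθ => hP.mono θ hθ (by linarith)
  have m2 : ∀ θ ∈ Icc a b, Th Y θ < Th (X + 1) θ := fun θ hθ => hP.mono θ hθ hYX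
  have m3 : ∀ θ ∈ Icc a b, Th (X + 1) θ < Th ((m : ℝ) + 1) θ := fun θ hθ =>
    hP.mono θ hθ (by linarith)
  have m4 : ∀ θ ∈ Icc a b, Th m θ < Th (W - 1) θ := fun θ hθ => hP.mono θ hθ (by linarith)
  have m5 : ∀ θ ∈ Icc a b, Th X θ < Th Y θ := fun θ hθ => hP.mono θ hθ (by linarith)
  have m6 : ∀ θ ∈ Icc a b, Th Y θ < Th W θ := fun θ hθ => hP.mono θ hθ (by linarith)
  -- the costs
  have c1 : ∀ θ ∈ Icc a b, cW (Th Y θ - Th X θ) = 2 * cos ((Th (X + 1) θ - Th Y θ) / 2) := by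
    intro θ hθ
    have h1 := m5 θ hθ
    have h2 := m2 θ hθ
    have h3 := uX θ hθ
    rw [hs _ (by linarith) (by linarith), ← cos_pi_div_two_sub]
    congr 2
    linarith
  have c2 : ∀ θ ∈ Icc a b, cW (Th W θ - Th Y θ) = 2 * cos ((Th Y θ - Th (W - 1) θ) / 2) := by
    intro θ hθ
    have h1 := m6 θ hθ
    have h2 := m1 θ hθ
    have h3 := uW θ hθ
    rw [hs _ (by linarith) (by linarith), ← cos_pi_div_two_sub]
    congr 2
    linarith
  have c3 : ∀ θ ∈ Icc a b, cW (Th W θ - Th X θ) =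
      2 * cos ((Th (X + 1) θ - Th (W - 1) θ) / 2) + 2 := by
    intro θ hθ
    have h1 := m1 θ hθ
    have h2 := m2 θ hθ
    have h3 := m3 θ hθ
    have h4 := m4 θ hθ
    have h5 := uX θ hθ
    have h6 := uW θ hθ
    have h7 := um θ hθ
    have e : Th W θ - Th X θ = (π - (Th (X + 1) θ - Th (W - 1) θ)) + π := by linarith
    rw [e, hp _ (by linarith), hs _ (by linarith) (by linarith), ← cos_pi_div_two_sub]
    congr 3
    ring
  have htp := hP.tp m (W - 1) Y (X + 1) (by linarith) (by linarith) hYX.le (by linarith)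
    c hc c' hc' hcc
  have a1 := m1 c hc
  have a2 := m2 c hc
  have a3 := m1 c' hc'
  have a4 := m2 c' hc'
  have b1 : Th (X + 1) c - Th (W - 1) c ≤ π := by
    linarith [m3 c hc, m4 c hc, um c hc]
  have b2 : Th (X + 1) c' - Th (W - 1) c' ≤ π := by
    linarith [m3 c' hc', m4 c' hc', um c' hc']
  rw [c1 c hc, c2 c' hc', c3 c hc, c3 c' hc']
  rcases le_total (Th (X + 1) c - Th Y c) (Th (X + 1) c' - Th Y c') with h | h
  · right
    have := j3_cos (x := (Th (X + 1) c - Th Y c) / 2) (y := (Th Y c' - Th (W - 1) c') / 2)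
      (s := (Th (X + 1) c' - Th (W - 1) c') / 2) (by linarith) (by linarith) (by linarith)
      (by linarith)
    linarith
  · left
    have h2 : Th Y c' - Th (W - 1) c' ≤ Th Y c - Th (W - 1) c := by
      by_contra hcon
      push Not at hcon
      have e1 : (Th (X + 1) c' - Th Y c') * (Th Y c - Th (W - 1) c) <
          (Th (X + 1) c' - Th Y c') * (Th Y c' - Th (W - 1) c') :=
        mul_lt_mul_of_pos_left hcon (by linarith)
      have e2 : (Th (X + 1) c' - Th Y c') * (Th Y c' - Th (W - 1) c') ≤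
          (Th (X + 1) c - Th Y c) * (Th Y c' - Th (W - 1) c') :=
        mul_le_mul_of_nonneg_right h (by linarith)
      linarith
    have := j3_cos (x := (Th (X + 1) c - Th Y c) / 2) (y := (Th Y c' - Th (W - 1) c') / 2)
      (s := (Th (X + 1) c - Th (W - 1) c) / 2) (by linarith) (by linarith) (by linarith)
      (by linarith)
    linarith

end Pool.Agent.Helper40.TV
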