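import Pool.Agent.Helper40.TV.St1

set_option autoImplicit false

namespace Pool.Agent.Helper40.TV

open Polynomial Set Real
open Pool.Agent.Helper40.AS (Bdd)

noncomputable section

lemma la_lt {n : ℕ} {x : ℕ → ℝ} (h : ∀ j, j + 1 < n → x j < x (j + 1)) {i k : ℕ} (hik : i < k)
    (hk : k < n) : x i < x k := by
  induction k with
  | zero => omega
  | succ k ih =>
    rcases Nat.lt_succ_iff_lt_or_eq.mp hik with h1 | h1
    · exact (ih h1 (by omega)).trans (h k hk)
    · rw [h1]; exact h k hk

lemma la_prod {ι : Type} (S : Finset ι) (p : ι → Prop) [DecidablePred p] (f : ι → ℝ)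
    (h1 : ∀ k ∈ S, p k → f k ≤ 0) (h2 : ∀ k ∈ S, ¬ p k → 0 ≤ f k) :
    ∏ k ∈ S, f k = (-1) ^ (S.filter p).card * ∏ k ∈ S, |f k| := by
  have : ∏ k ∈ S, f k = ∏ k ∈ S, (if p k then (-1 : ℝ) else 1) * |f k| := by
    apply Finset.prod_congr rfl
    intro k hk
    split_ifs with hp
    · rw [abs_of_nonpos (h1 k hk hp)]; ring
    · rw [abs_of_nonneg (h2 k hk hp)]; ring
  rw [this, Finset.prod_mul_distrib]
  congr 1
  rw [Finset.prod_ite]
  simp

/-- the sign of the coefficients -/
lemma la_sign {n i j : ℕ} {x : ℕ → ℝ} {s : ℝ} (hlt : ∀ j, j + 1 < n → x j < x (j + 1)) (hi : i < n)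
    (hj : j < n) (hji : j ≠ i) (hl : ∀ k < i, x k ≤ s) (hr : ∀ k < n, i < k → s ≤ x k) :
    (∏ k ∈ ((Finset.range n).erase i).erase j, (s - x k) / (x j - x k)) * (-1) ^ (n - j) *
      (-1) ^ (n - i) ≤ 0 := by
  classical
  rcases lt_or_gt_of_ne hji with h | h
  · rw [la_prod (((Finset.range n).erase i).erase j) (fun k => j < k ∧ k < i)
      (fun k => (s - x k) / (x j - x k))]
    · have hf : (((Finset.range n).erase i).erase j).filter (fun k => j < k ∧ k < i) =
          Finset.Ioo j i := by
        ext k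
        simp only [Finset.mem_filter, Finset.mem_erase, Finset.mem_range, Finset.mem_Ioo]
        constructor
        · rintro ⟨-, h2⟩; exact h2
        · intro h2; exact ⟨⟨by omega, by omega, by omega⟩, h2⟩
      rw [hf, Nat.card_Ioo]
      have e : (-1 : ℝ) ^ (i - j - 1) * (-1) ^ (n - j) * (-1) ^ (n - i) = -1 := by
        rw [← pow_add, ← pow_add]
        apply Odd.neg_one_pow
        exact ⟨n - j - 1, by omega⟩
      have hp : 0 ≤ ∏ k ∈ ((Finset.range n).erase i).erase j, |(s - x k) / (x j - x k)| :=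
        Finset.prod_nonneg fun k _ => abs_nonneg _
      calc _ = ((-1 : ℝ) ^ (i - j - 1) * (-1) ^ (n - j) * (-1) ^ (n - i)) *
            ∏ k ∈ ((Finset.range n).erase i).erase j, |(s - x k) / (x j - x k)| := by ring
        _ ≤ 0 := by rw [e]; linarith
    · intro k hk hjk
      simp only [Finset.mem_erase, Finset.mem_range] at hk
      apply div_nonpos_of_nonneg_of_nonpos
      · linarith [hl k hjk.2]
      · linarith [la_lt hlt hjk.1 hk.2.2]
    · intro k hk hjk
      simp only [Finset.mem_erase, Finset.mem_range] at hk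
      rcases lt_trichotomy k j with h1 | h1 | h1
      · apply div_nonneg
        · linarith [hl k (by omega)]
        · linarith [la_lt hlt h1 hj]
      · exact absurd h1 hk.1
      · have h2 : i < k := by
          rcases lt_trichotomy i k with h3 | h3 | h3
          · exact h3
          · exact absurd h3.symm hk.2.1
          · exact absurd ⟨h1, h3⟩ hjk
        apply div_nonneg_of_nonpos
        · linarith [hr k hk.2.2 h2]
        · linarith [la_lt hlt h1 hk.2.2]
  · rw [la_prod (((Finset.range n).erase i).erase j) (fun k => i < k ∧ k < j)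
      (fun k => (s - x k) / (x j - x k))]
    · have hf : (((Finset.range n).erase i).erase j).filter (fun k => i < k ∧ k < j) =
          Finset.Ioo i j := by
        ext k
        simp only [Finset.mem_filter, Finset.mem_erase, Finset.mem_range, Finset.mem_Ioo]
        constructor
        · rintro ⟨-, h2⟩; exact h2
        · intro h2; exact ⟨⟨by omega, by omega, by omega⟩, h2⟩
      rw [hf, Nat.card_Ioo]
      have e : (-1 : ℝ) ^ (j - i - 1) * (-1) ^ (n - j) * (-1) ^ (n - i) = -1 := by
        rw [← pow_add, ← pow_add]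
        apply Odd.neg_one_pow
        exact ⟨n - i - 1, by omega⟩
      have hp : 0 ≤ ∏ k ∈ ((Finset.range n).erase i).erase j, |(s - x k) / (x j - x k)| :=
        Finset.prod_nonneg fun k _ => abs_nonneg _
      calc _ = ((-1 : ℝ) ^ (j - i - 1) * (-1) ^ (n - j) * (-1) ^ (n - i)) *
            ∏ k ∈ ((Finset.range n).erase i).erase j, |(s - x k) / (x j - x k)| := by ring
        _ ≤ 0 := by rw [e]; linarith
    · intro k hk hjk
      simp only [Finset.mem_erase, Finset.mem_range] at hk
      apply div_nonpos_of_nonpos_of_nonneg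
      · linarith [hr k hk.2.2 hjk.1]
      · linarith [la_lt hlt hjk.2 hj]
    · intro k hk hjk
      simp only [Finset.mem_erase, Finset.mem_range] at hk
      rcases lt_trichotomy k j with h1 | h1 | h1
      · have h2 : k < i := by
          rcases lt_trichotomy i k with h3 | h3 | h3
          · exact absurd ⟨h3, h1⟩ hjk
          · exact absurd h3.symm hk.2.1
          · exact h3
        apply div_nonneg
        · linarith [hl k h2]
        · linarith [la_lt hlt h1 hj]
      · exact absurd h1 hk.1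
      · apply div_nonneg_of_nonpos
        · linarith [hr k hk.2.2 (by omega)]
        · linarith [la_lt hlt h1 hk.2.2]

theorem la (hHi : Hi) (hLc : Lc) : La := by
  intro n i κ s ρ Z P x hn h hi1 hi hxi hPdeg hP hP' hs1 hs2 hs3 hρ hρ1 hρ2
  classical
  have hZ' : Z.derivative.eval (x i) = 0 := by
    apply Pool.Agent.Helper40.AS.contact_int h.bdd hxi
    rw [h.val i hi, abs_pow]; simp
  have hl : ∀ k < i, x k ≤ s := by
    intro k hk
    have : x k ≤ x (i - 1) := by
      rcases Nat.lt_or_ge k (i - 1) with h1 | h1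
      · exact (la_lt h.lt h1 (by omega)).le
      · have : k = i - 1 := by omega
        rw [this]
    exact this.trans hs1
  have hr : ∀ k < n, i < k → s ≤ x k := by
    intro k hk hik
    have : x (i + 1) ≤ x k := by
      rcases Nat.lt_or_ge (i + 1) k with h1 | h1
      · exact (la_lt h.lt h1 hk).le
      · have : k = i + 1 := by omega
        rw [this]
    exact (hs2 (by omega)).trans this
  have eP := hHi n i x P s hi h.lt hPdeg hP'
  have eZ := hHi n i x Z s hi h.lt h.deg hZ'
  have e1 := hHi n i x 1 s hi h.lt (by simp) (by simp)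
  have hh := hLc n i x s ρ hi1 hi h.lt hs1 hs2 hρ hρ1 hρ2
  set hc := (∏ k ∈ (Finset.range n).erase i, (s - x k) / (x i - x k)) *
      (1 - (s - x i) * ∑ k ∈ (Finset.range n).erase i, 1 / (x i - x k)) with hhc
  set c : ℕ → ℝ := fun j => (s - x i) ^ 2 *
    (∏ k ∈ ((Finset.range n).erase i).erase j, (s - x k) / (x j - x k)) / (x j - x i) ^ 2 with hcdef
  set T := (Finset.range n).erase i with hT
  have eP' : P.eval s = ∑ j ∈ T, P.eval (x j) * c j + P.eval (x i) * hc := eP
  have eZ' : Z.eval s = ∑ j ∈ T, Z.eval (x j) * c j + Z.eval (x i) * hc := eZ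
  have e1' : 1 = ∑ j ∈ T, c j + hc := by
    have e2 : (1 : ℝ[X]).eval s = ∑ j ∈ T, (1 : ℝ[X]).eval (x j) * c j +
      (1 : ℝ[X]).eval (x i) * hc := e1
    simpa only [eval_one, one_mul] using e2
  set E := exp (-((s - x i) ^ 2 / (2 * ρ ^ 2))) with hE
  have hE1 : E ≤ 1 := by
    rw [hE]
    apply Real.exp_le_one_iff.mpr
    have : 0 ≤ (s - x i) ^ 2 / (2 * ρ ^ 2) := by positivity
    linarith
  have hPt : |P.eval (x i)| ≤ 1 := hP _ ⟨hxi.1.le, hxi.2.le⟩
  -- signs
  have hsg : ∀ j ∈ T, Z.eval (x j) * c j * Z.eval (x i) = -|c j| := by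
    intro j hj
    rw [hT, Finset.mem_erase, Finset.mem_range] at hj
    have hsj := la_sign h.lt hi hj.2 hj.1 hl hr
    rw [h.val j hj.2, h.val i hi]
    have hA : 0 ≤ (s - x i) ^ 2 / (x j - x i) ^ 2 := by positivity
    have h0 : (-1 : ℝ) ^ (n - j) * c j * (-1) ^ (n - i) ≤ 0 := by
      have : (-1 : ℝ) ^ (n - j) * c j * (-1) ^ (n - i) = (s - x i) ^ 2 / (x j - x i) ^ 2 *
          ((∏ k ∈ T.erase j, (s - x k) / (x j - x k)) * (-1) ^ (n - j) * (-1) ^ (n - i)) := by
        rw [hcdef]; ring
      rw [this]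
      exact mul_nonpos_of_nonneg_of_nonpos hA hsj
    have h1 : |(-1 : ℝ) ^ (n - j) * c j * (-1) ^ (n - i)| = |c j| := by
      rw [abs_mul, abs_mul, abs_pow, abs_pow]; simp
    rw [← h1, abs_of_nonpos h0]; ring
  have hZi : Z.eval (x i) * Z.eval (x i) = 1 := by
    rw [h.val i hi, ← pow_add]
    exact Even.neg_one_pow ⟨n - i, rfl⟩
  have hZabs : |Z.eval (x i)| = 1 := by
    rw [h.val i hi, abs_pow]; simp
  -- the value of the member
  have hZd : (Z.eval s - Z.eval (x i)) * Z.eval (x i) = -(∑ j ∈ T, |c j| + (1 - hc)) := by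
    rw [eZ', sub_mul, add_mul, Finset.sum_mul]
    rw [Finset.sum_congr rfl hsg, Finset.sum_neg_distrib]
    have : Z.eval (x i) * hc * Z.eval (x i) = hc := by
      calc _ = (Z.eval (x i) * Z.eval (x i)) * hc := by ring
        _ = hc := by rw [hZi, one_mul]
    rw [this, hZi]; ring
  have hZge : ∑ j ∈ T, |c j| + (1 - hc) ≤ |Z.eval s - Z.eval (x i)| := by
    have : |(Z.eval s - Z.eval (x i)) * Z.eval (x i)| = |Z.eval s - Z.eval (x i)| := by
      rw [abs_mul, hZabs, mul_one]
    rw [← this, hZd, abs_neg]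
    exact le_abs_self _
  -- the value of P
  have hPd : P.eval s - P.eval (x i) = ∑ j ∈ T, P.eval (x j) * c j - (1 - hc) * P.eval (x i) := by
    rw [eP']; ring
  have hPle : |P.eval s - P.eval (x i)| ≤ ∑ j ∈ T, |c j| + (1 - hc) * |P.eval (x i)| := by
    rw [hPd]
    refine (abs_sub _ _).trans (add_le_add ?_ ?_)
    · refine (Finset.abs_sum_le_sum_abs _ _).trans (Finset.sum_le_sum ?_)
      intro j hj
      rw [hT, Finset.mem_erase, Finset.mem_range] at hj
      rw [abs_mul]
      have := hP (x j) (h.mem j hj.2)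
      nlinarith [abs_nonneg (c j)]
    · rw [abs_mul, abs_of_nonneg (by linarith : 0 ≤ 1 - hc)]
  have hfin : (1 - E) * (1 - |P.eval (x i)|) ≤ (1 - hc) * (1 - |P.eval (x i)|) :=
    mul_le_mul_of_nonneg_right (by linarith) (by linarith)
  nlinarith [hfin, hPle, hZge]

end

end Pool.Agent.Helper40.TV
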