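import Pool.Agent.Helper40.TV.St1

/-!
Basic properties of the family in terms of labels.
-/

set_option autoImplicit false

namespace Pool.Agent.Helper40.TV

open Polynomial Set Real
open Pool.Agent.Helper40.AS (Bdd)

theorem lb_mem (L : ℝ) : 1 - 2 * Int.fract L ∈ Ioc (-1 : ℝ) 1 := by
  have h1 := Int.fract_nonneg L
  have h2 := Int.fract_lt_one L
  constructor <;> linarith

theorem lb_cos (m : ℤ) (x : ℝ) : cos (π * m + x) = cos (π * m) * cos x := by
  have h : sin (π * m) = 0 := by
    rw [mul_comm]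
    exact sin_int_mul_pi m
  rw [cos_add, h, zero_mul, sub_zero]

theorem lb_abs (m : ℤ) : |cos (π * m)| = 1 := by
  rw [mul_comm]
  exact abs_cos_int_mul_pi m

theorem lb (hEx : Ex) (hPt : Pt) (hPk : Pk) (hPl : Pl) : Lb := by
  intro n hn
  have hmem : ∀ L : ℝ, Mem n (1 - 2 * Int.fract L) (Zc n (1 - 2 * Int.fract L))
      (xc n (1 - 2 * Int.fract L)) := fun L =>
    mem_c (hEx n _ hn (Ioc_subset_Icc_self (lb_mem L)))
  have hfun : ∀ L, Th n L = fun θ => π * ⌊L⌋ + ph n (Zc n (1 - 2 * Int.fract L))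
      (xc n (1 - 2 * Int.fract L)) θ := fun L => rfl
  refine ⟨?_, ?_, ?_, ?_, ?_, ?_, ?_, ?_, ?_, ?_⟩
  · intro L
    unfold ZL
    exact (natDegree_C_mul_le _ _).trans (hmem L).deg
  · intro L y hy
    unfold ZL
    rw [eval_mul, eval_C, abs_mul, lb_abs, one_mul]
    exact (hmem L).bdd y hy
  · intro L θ hθ
    unfold ZL
    rw [hfun, eval_mul, eval_C, lb_cos, (hPt n _ _ _ hn (hmem L)).2.2.1 θ hθ]
  · intro L θ
    unfold Th
    rw [Int.fract_add_one, Int.floor_add_one]
    push_cast
    ring
  · intro θ hθ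
    unfold Th
    rw [Int.fract_zero, Int.floor_zero, mul_zero, sub_zero, (hPk n θ hn hθ).2.2.1]
    simp
  · intro θ hθ L L' hLL
    obtain ⟨anti, -, e1, e2⟩ := hPk n θ hn hθ
    have hL := lb_mem L
    have hL' := lb_mem L'
    simp only [Th]
    rcases lt_or_eq_of_le (Int.floor_le_floor hLL.le) with h | h
    · have h1 : Ph n (1 - 2 * Int.fract L) θ < n * θ + π := by
        rw [← e2]
        exact anti ⟨le_rfl, by norm_num⟩ (Ioc_subset_Icc_self hL) hL.1
      have h2 : n * θ ≤ Ph n (1 - 2 * Int.fract L') θ := by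
        rw [← e1]
        exact anti.antitoneOn (Ioc_subset_Icc_self hL') ⟨by norm_num, le_rfl⟩ hL'.2
      have h3 : ((⌊L⌋ : ℤ) : ℝ) + 1 ≤ ⌊L'⌋ := by exact_mod_cast h
      nlinarith [pi_pos]
    · have h1 : Int.fract L < Int.fract L' := by
        have a1 := Int.self_sub_floor L
        have a2 := Int.self_sub_floor L'
        rw [← a1, ← a2, h]
        linarith
      have h2 := anti (Ioc_subset_Icc_self hL') (Ioc_subset_Icc_self hL)
        (show 1 - 2 * Int.fract L' < 1 - 2 * Int.fract L by linarith)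
      simp only at h2
      rw [h]
      linarith
  · intro θ hθ
    obtain ⟨-, cont, e1, e2⟩ := hPk n θ hn hθ
    have c1 : ContinuousOn (fun x : ℝ => Ph n (1 - 2 * x) θ - π * x) (Icc 0 1) := by
      refine ContinuousOn.sub ?_ (by fun_prop)
      refine cont.comp (f := fun x : ℝ => 1 - 2 * x) (by fun_prop) ?_
      intro x hx
      constructor <;> linarith [hx.1, hx.2]
    have c2 := c1.comp_fract'' (by
      norm_num
      rw [e1, e2]
      ring)
    have c3 : (fun L => Th n L θ) =
        fun L => π * L + ((fun x : ℝ => Ph n (1 - 2 * x) θ - π * x) ∘ Int.fract) L := by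
      funext L
      simp only [Th, Function.comp]
      have a1 := Int.floor_add_fract L
      have a2 : π * L = π * ⌊L⌋ + π * Int.fract L := by
        rw [← mul_add, a1]
      rw [a2]
      ring
    rw [c3]
    exact (continuous_const.mul continuous_id).add c2
  · intro L θ hθ η hη h
    rw [hfun]
    have := (hPt n _ _ _ hn (hmem L)).2.1 hθ hη h
    simp only
    linarith
  · intro L
    rw [hfun]
    exact continuousOn_const.add (hPt n _ _ _ hn (hmem L)).1
  · intro L θ hθ η hη h
    rw [hfun]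
    have := hPl n _ _ _ hn (hmem L) θ hθ η hη h
    simp only
    linarith

end Pool.Agent.Helper40.TV
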