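import Pool.Agent.Helper40.TV.St1

/-! Piece Lc: the coefficient of the double node. -/

set_option autoImplicit false

namespace Pool.Agent.Helper40.TV

open Polynomial Set Real

theorem lc_neg {a : ℝ} (h1 : -1 < a) (h0 : a ≤ 0) : Real.log (1 + a) ≤ a - a ^ 2 / 2 := by
  have hd : ∀ y ∈ Ioc (-1 : ℝ) 0, HasDerivAt (fun y : ℝ => y - y ^ 2 / 2 - Real.log (1 + y))
      (1 - y - 1 / (1 + y)) y := by
    intro y hy
    have hy1 : (1 : ℝ) + y ≠ 0 := by
      have := hy.1
      intro h
      linarith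
    have e1 : HasDerivAt (fun y : ℝ => y ^ 2 / 2) y y := by
      have h1 := (hasDerivAt_pow 2 y).div_const 2
      have h2 : ((2 : ℕ) : ℝ) * y ^ (2 - 1) / 2 = y := by norm_num
      rwa [h2] at h1
    have e2 : HasDerivAt (fun y : ℝ => Real.log (1 + y)) (1 / (1 + y)) y :=
      ((hasDerivAt_id y).const_add 1).log hy1
    exact ((hasDerivAt_id y).sub e1).sub e2
  have hanti : AntitoneOn (fun y : ℝ => y - y ^ 2 / 2 - Real.log (1 + y)) (Ioc (-1 : ℝ) 0) := by
    refine antitoneOn_of_deriv_nonpos (convex_Ioc _ _)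
      (fun y hy => (hd y hy).continuousAt.continuousWithinAt) ?_ ?_
    · rw [interior_Ioc]
      exact fun y hy => (hd y ⟨hy.1, hy.2.le⟩).differentiableAt.differentiableWithinAt
    · rw [interior_Ioc]
      intro y hy
      rw [(hd y ⟨hy.1, hy.2.le⟩).deriv]
      have h2 : 0 < 1 + y := by linarith [hy.1]
      have h3 : 1 - y - 1 / (1 + y) = -(y ^ 2 / (1 + y)) := by
        field_simp
        ring
      rw [h3]
      have : 0 ≤ y ^ 2 / (1 + y) := by positivity
      linarith
  have h := hanti (a := a) ⟨h1, h0⟩ (b := 0) ⟨by norm_num, le_rfl⟩ h0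
  simp only [add_zero, Real.log_one, ne_eq, OfNat.ofNat_ne_zero, not_false_eq_true, zero_pow,
    zero_div, sub_zero] at h
  linarith

theorem lc_pos {a : ℝ} (h0 : 0 ≤ a) : Real.log (1 + a) ≤ a - a ^ 2 / (2 * (1 + a)) := by
  have hd : ∀ y ∈ Ici (0 : ℝ), HasDerivAt
      (fun y : ℝ => y - y ^ 2 / (2 * (1 + y)) - Real.log (1 + y))
      (y ^ 2 / (2 * (1 + y) ^ 2)) y := by
    intro y hy
    have hy0 : (0 : ℝ) < 1 + y := by
      have := mem_Ici.mp hy
      linarith
    have e1 : HasDerivAt (fun y : ℝ => y ^ 2 / (2 * (1 + y)))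
        ((2 * y * (2 * (1 + y)) - y ^ 2 * 2) / (2 * (1 + y)) ^ 2) y := by
      have h1 : HasDerivAt (fun y : ℝ => y ^ 2) (2 * y) y := by
        have := hasDerivAt_pow 2 y
        simpa using this
      have h2 : HasDerivAt (fun y : ℝ => 2 * (1 + y)) 2 y := by
        have := ((hasDerivAt_id y).const_add 1).const_mul 2
        simpa using this
      exact h1.div h2 (by positivity)
    have e2 : HasDerivAt (fun y : ℝ => Real.log (1 + y)) (1 / (1 + y)) y :=
      ((hasDerivAt_id y).const_add 1).log hy0.ne'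
    refine HasDerivAt.congr_deriv (((hasDerivAt_id y).sub e1).sub e2) ?_
    have hne := hy0.ne'
    field_simp
    ring
  have hmono : MonotoneOn (fun y : ℝ => y - y ^ 2 / (2 * (1 + y)) - Real.log (1 + y))
      (Ici (0 : ℝ)) := by
    refine monotoneOn_of_deriv_nonneg (convex_Ici _)
      (fun y hy => (hd y hy).continuousAt.continuousWithinAt) ?_ ?_
    · rw [interior_Ici]
      exact fun y hy => (hd y (mem_Ici.mpr (le_of_lt hy))).differentiableAt.differentiableWithinAt
    · rw [interior_Ici]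
      intro y hy
      rw [(hd y (mem_Ici.mpr (le_of_lt hy))).deriv]
      positivity
  have h := hmono (a := 0) (mem_Ici.mpr le_rfl) (b := a) (mem_Ici.mpr h0) h0
  simp only [add_zero, Real.log_one, ne_eq, OfNat.ofNat_ne_zero, not_false_eq_true, zero_pow,
    zero_div, sub_zero] at h
  linarith

theorem lc_factor {g u ρ : ℝ} (hg : 0 < g) (hs : 0 ≤ g + u) (hρ : 0 < ρ) (hgρ : g ≤ ρ)
    (hsρ : g + u ≤ ρ) :
    (1 + u / g) * exp (-(u / g)) ≤ exp (-(u ^ 2 / (2 * ρ ^ 2))) := by
  have h1 : 1 + u / g = (g + u) / g := by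
    field_simp
  rcases hs.eq_or_lt with h0 | h0
  · rw [h1, ← h0, zero_div, zero_mul]
    exact (exp_pos _).le
  have hpos : 0 < 1 + u / g := by
    rw [h1]
    positivity
  have key : Real.log (1 + u / g) ≤ u / g - u ^ 2 / (2 * ρ ^ 2) := by
    rcases le_total u 0 with hu | hu
    · have ha : u / g ≤ 0 := div_nonpos_of_nonpos_of_nonneg hu hg.le
      refine (lc_neg (by linarith) ha).trans ?_
      have h2 : u ^ 2 / (2 * ρ ^ 2) ≤ (u / g) ^ 2 / 2 := by
        rw [div_pow, div_div]
        refine div_le_div_of_nonneg_left (sq_nonneg u) (by positivity) ?_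
        nlinarith
      linarith
    · have ha : 0 ≤ u / g := div_nonneg hu hg.le
      refine (lc_pos ha).trans ?_
      have h2 : u ^ 2 / (2 * ρ ^ 2) ≤ (u / g) ^ 2 / (2 * (1 + u / g)) := by
        have h3 : (u / g) ^ 2 / (2 * (1 + u / g)) = u ^ 2 / (2 * ((g + u) * g)) := by
          rw [h1]
          field_simp
        rw [h3]
        refine div_le_div_of_nonneg_left (sq_nonneg u) (by positivity) ?_
        nlinarith [mul_le_mul hsρ hgρ hg.le hρ.le]
      linarith
  have h4 : 1 + u / g ≤ exp (u / g - u ^ 2 / (2 * ρ ^ 2)) := by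
    rw [← Real.log_le_iff_le_exp hpos]
    exact key
  calc (1 + u / g) * exp (-(u / g))
      ≤ exp (u / g - u ^ 2 / (2 * ρ ^ 2)) * exp (-(u / g)) :=
        mul_le_mul_of_nonneg_right h4 (exp_pos _).le
    _ = exp (-(u ^ 2 / (2 * ρ ^ 2))) := by
        rw [← exp_add]
        congr 1
        ring

theorem lc_lt {n : ℕ} {x : ℕ → ℝ} (h : ∀ j, j + 1 < n → x j < x (j + 1)) :
    ∀ j k, j < k → k < n → x j < x k := by
  intro j k hjk
  induction k with
  | zero => omega
  | succ k ih =>
    intro hk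
    rcases Nat.lt_succ_iff_lt_or_eq.mp hjk with h1 | h1
    · exact (ih h1 (by omega)).trans (h k hk)
    · rw [h1]
      exact h k hk

theorem lc : Lc := by
  intro n i x s ρ hi1 hin hlt hs1 hs2 hρ hgρ hsρ
  have hx := lc_lt hlt
  set S := (Finset.range n).erase i with hS
  set u := s - x i with hu
  have hmem : ∀ k ∈ S, k ≠ i ∧ k < n := by
    intro k hk
    rw [hS, Finset.mem_erase, Finset.mem_range] at hk
    exact hk
  have hne : ∀ k ∈ S, x i - x k ≠ 0 := by
    intro k hk
    obtain ⟨h1, h2⟩ := hmem k hk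
    rcases lt_or_gt_of_ne h1 with h | h
    · exact (sub_pos.mpr (hx k i h hin)).ne'
    · exact (sub_neg.mpr (hx i k h h2)).ne
  have heq : ∀ k ∈ S, (s - x k) / (x i - x k) = 1 + u / (x i - x k) := by
    intro k hk
    have := hne k hk
    rw [hu]
    field_simp
    ring
  have hnn : ∀ k ∈ S, 0 ≤ (s - x k) / (x i - x k) := by
    intro k hk
    obtain ⟨h1, h2⟩ := hmem k hk
    rcases lt_or_gt_of_ne h1 with h | h
    · have h3 : x k ≤ x (i - 1) := by
        rcases (Nat.le_sub_one_of_lt h).eq_or_lt with h4 | h4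
        · rw [h4]
        · exact (hx _ _ h4 (by omega)).le
      exact div_nonneg (by linarith) (sub_pos.mpr (hx k i h hin)).le
    · have h5 : i + 1 < n := by omega
      have h3 : x (i + 1) ≤ x k := by
        rcases (Nat.succ_le_of_lt h).eq_or_lt with h4 | h4
        · rw [← h4]
        · exact (hx _ _ h4 h2).le
      have h6 := hs2 h5
      exact div_nonneg_of_nonpos (by linarith) (sub_neg.mpr (hx i k h h2)).le
  have hprod0 : 0 ≤ ∏ k ∈ S, (s - x k) / (x i - x k) := Finset.prod_nonneg hnn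
  by_cases hcase : 1 - u * ∑ k ∈ S, 1 / (x i - x k) ≤ 0
  · exact (mul_nonpos_of_nonneg_of_nonpos hprod0 hcase).trans (exp_pos _).le
  · push Not at hcase
    have h1 : 1 - u * ∑ k ∈ S, 1 / (x i - x k) ≤ ∏ k ∈ S, exp (-(u / (x i - x k))) := by
      rw [← exp_sum, Finset.sum_neg_distrib]
      have h2 : ∑ k ∈ S, u / (x i - x k) = u * ∑ k ∈ S, 1 / (x i - x k) := by
        rw [Finset.mul_sum]
        refine Finset.sum_congr rfl fun k _ => ?_
        rw [mul_one_div]
      rw [h2]
      have := add_one_le_exp (-(u * ∑ k ∈ S, 1 / (x i - x k)))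
      linarith
    have h3 : (∏ k ∈ S, (s - x k) / (x i - x k)) * (1 - u * ∑ k ∈ S, 1 / (x i - x k)) ≤
        ∏ k ∈ S, ((1 + u / (x i - x k)) * exp (-(u / (x i - x k)))) := by
      refine (mul_le_mul_of_nonneg_left h1 hprod0).trans ?_
      rw [← Finset.prod_mul_distrib]
      refine le_of_eq (Finset.prod_congr rfl fun k hk => ?_)
      rw [heq k hk]
    refine h3.trans ?_
    have hi' : i - 1 ∈ S := by
      rw [hS, Finset.mem_erase, Finset.mem_range]
      omega
    rw [← Finset.mul_prod_erase S _ hi']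
    have hg : 0 < x i - x (i - 1) := sub_pos.mpr (hx _ _ (by omega) hin)
    have h4 : (1 + u / (x i - x (i - 1))) * exp (-(u / (x i - x (i - 1)))) ≤
        exp (-(u ^ 2 / (2 * ρ ^ 2))) :=
      lc_factor hg (by rw [hu]; linarith) hρ hgρ (by rw [hu]; linarith)
    have h5 : ∏ k ∈ S.erase (i - 1), ((1 + u / (x i - x k)) * exp (-(u / (x i - x k)))) ≤ 1 := by
      refine Finset.prod_le_one ?_ ?_
      · intro k hk
        have hk' := Finset.mem_of_mem_erase hk
        refine mul_nonneg ?_ (exp_pos _).le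
        rw [← heq k hk']
        exact hnn k hk'
      · intro k hk
        have h6 := add_one_le_exp (u / (x i - x k))
        calc (1 + u / (x i - x k)) * exp (-(u / (x i - x k)))
            ≤ exp (u / (x i - x k)) * exp (-(u / (x i - x k))) :=
              mul_le_mul_of_nonneg_right (by linarith) (exp_pos _).le
          _ = 1 := by rw [← exp_add, add_neg_cancel, exp_zero]
    have h7 : 0 ≤ ∏ k ∈ S.erase (i - 1), ((1 + u / (x i - x k)) * exp (-(u / (x i - x k)))) := by
      refine Finset.prod_nonneg fun k hk => ?_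
      have hk' := Finset.mem_of_mem_erase hk
      refine mul_nonneg ?_ (exp_pos _).le
      rw [← heq k hk']
      exact hnn k hk'
    calc _ ≤ exp (-(u ^ 2 / (2 * ρ ^ 2))) * 1 :=
          mul_le_mul h4 h5 h7 (exp_pos _).le
      _ = exp (-(u ^ 2 / (2 * ρ ^ 2))) := mul_one _

end Pool.Agent.Helper40.TV
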