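import Pool.Agent.Helper40.TV.St1

/-! Project TV, piece `Lh`: one hill, in terms of labels. -/

set_option autoImplicit false

namespace Pool.Agent.Helper40.TV

open Polynomial Set Real
open Pool.Agent.Helper40.AS (Bdd)

theorem lh_Th (hPk : Pk) {n : ℕ} (hn : 3 ≤ n) {m : ℤ} {L θ : ℝ} (h1 : (m : ℝ) ≤ L)
    (h2 : L ≤ m + 1) (hθ : θ ∈ Ioo 0 π) :
    Th n L θ = π * m + Ph n (1 - 2 * (L - m)) θ := by
  rcases lt_or_eq_of_le h2 with h | h
  · have h3 : ⌊L⌋ = m := Int.floor_eq_iff.2 ⟨h1, h⟩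
    unfold Th
    rw [Int.fract, h3]
  · obtain ⟨-, -, h3, h4⟩ := hPk n θ hn hθ
    have h5 : ⌊L⌋ = m + 1 := by
      rw [h]
      exact_mod_cast Int.floor_intCast (R := ℝ) (m + 1)
    have h6 : Int.fract L = 0 := by
      rw [Int.fract, h5, h]
      push_cast
      ring
    have h7 : 1 - 2 * (L - m) = -1 := by
      rw [h]
      ring
    unfold Th
    rw [h6, h5, h7, h4, mul_zero, sub_zero, h3]
    push_cast
    ring

theorem lh (hHk : Hk) (hPk : Pk) : Lh := by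
  intro n hn m A B h1 h2 h3 θ hθ η hη ζ hζ hθη hηζ
  have hA : A ≤ m + 1 := h2.trans h3
  have hB : (m : ℝ) ≤ B := h1.trans h2
  rw [lh_Th hPk hn hB h3 hθ, lh_Th hPk hn h1 hA hθ, lh_Th hPk hn hB h3 hη,
    lh_Th hPk hn h1 hA hη, lh_Th hPk hn hB h3 hζ, lh_Th hPk hn h1 hA hζ]
  have h := hHk n θ η ζ (1 - 2 * (A - m)) (1 - 2 * (B - m)) hn hθ hη hζ hθη hηζ (by linarith)
    (by linarith) (by linarith)
  simp only [add_sub_add_left_eq_sub]
  exact h

end Pool.Agent.Helper40.TV
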