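import Pool.Agent.Helper40.TV.St1

/-! Project TV, piece `Ll`: comparison at different points, in terms of labels. -/

set_option autoImplicit false

namespace Pool.Agent.Helper40.TV

open Polynomial Set Real
open Pool.Agent.Helper40.AS (Bdd)

/-- the phase with label in `[m, m + 1]` -/
theorem ll_Th (hPk : Pk) {n : ℕ} (hn : 3 ≤ n) {m : ℤ} {L θ : ℝ} (h1 : (m : ℝ) ≤ L)
    (h2 : L ≤ m + 1) (hθ : θ ∈ Ioo 0 π) :
    Th n L θ = π * m + Ph n (1 - 2 * (L - m)) θ := by
  rcases lt_or_eq_of_le h2 with h | h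
  · have h3 : ⌊L⌋ = m := Int.floor_eq_iff.2 ⟨h1, h⟩
    unfold Th
    rw [Int.fract, h3]
  · obtain ⟨-, -, h3, h4⟩ := hPk n θ hn hθ
    have h5 : ⌊L⌋ = m + 1 := by
      rw [h]
      exact_mod_cast Int.floor_intCast (R := ℝ) (m + 1)
    have h6 : Int.fract L = 0 := by
      rw [Int.fract, h5, h]
      push_cast
      ring
    have h7 : 1 - 2 * (L - m) = -1 := by
      rw [h]
      ring
    unfold Th
    rw [h6, h5, h7, h4, mul_zero, sub_zero, h3]
    push_cast
    ring

/-- a function which is nondecreasing on all intervals `[m, m + 1]` is nondecreasing -/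
theorem ll_mono {f : ℝ → ℝ}
    (h : ∀ (m : ℤ) (A B : ℝ), (m : ℝ) ≤ A → A ≤ B → B ≤ m + 1 → f A ≤ f B) {A B : ℝ}
    (hAB : A ≤ B) : f A ≤ f B := by
  have key : ∀ (k : ℕ) (B : ℝ), A ≤ B → B ≤ ⌊A⌋ + 1 + k → f A ≤ f B := by
    intro k
    induction k with
    | zero =>
      intro B h1 h2
      exact h ⌊A⌋ A B (Int.floor_le A) h1 (by simpa using h2)
    | succ k ih =>
      intro B h1 h2
      rcases le_total B (⌊A⌋ + 1 + k) with h3 | h3
      · exact ih B h1 h3
      · have h4 : A ≤ ⌊A⌋ + 1 + k := by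
          have := Int.lt_floor_add_one A
          have h5 : (0 : ℝ) ≤ k := Nat.cast_nonneg k
          linarith
        refine (ih _ h4 le_rfl).trans (h (⌊A⌋ + 1 + k) _ B ?_ h3 ?_)
        · push_cast
          exact le_rfl
        · push_cast at h2 ⊢
          linarith
  obtain ⟨k, hk⟩ := exists_nat_ge (B - ⌊A⌋ - 1)
  exact key k B hAB (by linarith)

theorem ll (hCm : Cm) (hPk : Pk) : Ll := by
  intro n hn A B hAB θ hθ η hη hle
  have hunit : ∀ (m : ℤ) (A B : ℝ), (m : ℝ) ≤ A → A ≤ B → B ≤ m + 1 →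
      (Th n B θ - Th n A θ) * tan (θ / 2) ≤ (Th n B η - Th n A η) * tan (η / 2) ∧
      (Th n B η - Th n A η) * tan (θ / 2) ≤ (Th n B θ - Th n A θ) * tan (η / 2) := by
    intro m A B h1 h2 h3
    have hA : A ≤ m + 1 := h2.trans h3
    have hB : (m : ℝ) ≤ B := h1.trans h2
    rw [ll_Th hPk hn hB h3 hθ, ll_Th hPk hn h1 hA hθ, ll_Th hPk hn hB h3 hη,
      ll_Th hPk hn h1 hA hη]
    have h := hCm n θ η (1 - 2 * (A - m)) (1 - 2 * (B - m)) hn hθ hη hle (by linarith)
      (by linarith) (by linarith)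
    simp only [add_sub_add_left_eq_sub]
    exact h
  constructor
  · have h := ll_mono (f := fun L => Th n L η * tan (η / 2) - Th n L θ * tan (θ / 2))
      (fun m A B h1 h2 h3 => by
        have := (hunit m A B h1 h2 h3).1
        show Th n A η * tan (η / 2) - Th n A θ * tan (θ / 2) ≤
          Th n B η * tan (η / 2) - Th n B θ * tan (θ / 2)
        linarith) hAB
    linarith
  · have h := ll_mono (f := fun L => Th n L θ * tan (η / 2) - Th n L η * tan (θ / 2))
      (fun m A B h1 h2 h3 => by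
        have := (hunit m A B h1 h2 h3).2
        show Th n A θ * tan (η / 2) - Th n A η * tan (θ / 2) ≤
          Th n B θ * tan (η / 2) - Th n B η * tan (θ / 2)
        linarith) hAB
    linarith

end Pool.Agent.Helper40.TV
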