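import Pool.Agent.Helper40.TV.St1

set_option autoImplicit false

namespace Pool.Agent.Helper40.TV

open Polynomial Set Real
open Pool.Agent.Helper40.AS (Bdd)

noncomputable section

theorem lm_cos {θ η : ℝ} (hθ : θ ∈ Icc 0 π) (hη : η ∈ Icc 0 π) (h : cos θ ≤ cos η) : η ≤ θ := by
  by_contra hlt
  push Not at hlt
  have := strictAntiOn_cos hθ hη hlt
  linarith

theorem lm_fract (L : ℝ) : 1 - 2 * Int.fract L ∈ Icc (-1 : ℝ) 1 := by
  constructor
  · linarith [(Int.fract_lt_one L)]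
  · linarith [(Int.fract_nonneg L)]

/-- the core: in terms of a member -/
theorem lm_core (hCt : Ct) (hLa : La) (hPt : Pt) {n : ℕ} (hn : 3 ≤ n) {κ : ℝ} {Z : ℝ[X]}
    {x : ℕ → ℝ} (hM : Mem n κ Z x)
    (hNl : ∀ i < n, cos ((n - i : ℝ) * π / n) ≤ x i ∧ x i ≤ cos ((n - 1 - i : ℝ) * π / n))
    {K t s : ℝ} {j : ℤ} {P : ℝ[X]} (hK : 0 ≤ K) (hKn : K + 7 ≤ n) (ht : t ∈ Ioo 0 π)
    (htK : n * t ≤ K) (hj : ph n Z x t = j * π) (hs : s ∈ Icc 0 π)
    (hsj : |ph n Z x s - j * π| ≤ π) (hdeg : P.natDegree ≤ n) (hP : Bdd P)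
    (hP' : P.derivative.eval (cos t) = 0) :
    |P.eval (cos s) - P.eval (cos t)| + nu K n s t * (1 - |P.eval (cos t)|) ≤
      1 - cos (ph n Z x s - j * π) := by
  obtain ⟨-, hmono, hcos, hval⟩ := hPt n κ Z x hn hM
  have hn0 : (0 : ℝ) < n := by
    have : 0 < n := by omega
    exact_mod_cast this
  have hpi := pi_pos
  have hpi3 := pi_gt_three
  have hpi4 : π < 3.15 := pi_lt_d2
  have htI : t ∈ Icc 0 π := ⟨ht.1.le, ht.2.le⟩
  have hct : cos t ∈ Ioo (-1 : ℝ) 1 := by
    constructor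
    · have := strictAntiOn_cos htI ⟨hpi.le, le_refl π⟩ ht.2
      rwa [cos_pi] at this
    · have := strictAntiOn_cos ⟨le_refl 0, hpi.le⟩ htI ht.1
      rwa [cos_zero] at this
  have hcj : |cos (j * π)| = 1 := by
    rw [abs_cos_int_mul_pi]
  have habs : |Z.eval (cos t)| = 1 := by
    rw [← hcos t htI, hj, hcj]
  obtain ⟨i, hi, hxi⟩ : ∃ i < n, cos t = x i := by
    rcases hCt n κ Z x (cos t) hn hM ⟨hct.1.le, hct.2.le⟩ habs with h | h | h
    · exact h
    · exact absurd h.1 hct.2.ne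
    · exact absurd h.1 hct.1.ne'
  have harc : arccos (x i) = t := by rw [← hxi, arccos_cos ht.1.le ht.2.le]
  -- the index
  have hji : (j : ℝ) = n - i := by
    have h1 := hval i hi
    rw [harc, hj] at h1
    exact mul_right_cancel₀ hpi.ne' h1
  have hin : (i : ℝ) ≤ n - 1 := by
    have : i + 1 ≤ n := hi
    have h1 : ((i + 1 : ℕ) : ℝ) ≤ n := by exact_mod_cast this
    push_cast at h1
    linarith
  have hi0 : (0 : ℝ) ≤ i := Nat.cast_nonneg i
  have hni : (n - 1 - i : ℝ) * π ≤ K := by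
    have h1 := (hNl i hi).2
    rw [← hxi] at h1
    have h2 : (n - 1 - i : ℝ) * π / n ∈ Icc 0 π := by
      constructor
      · apply div_nonneg _ hn0.le
        exact mul_nonneg (by linarith) hpi.le
      · rw [div_le_iff₀ hn0]
        nlinarith
    have h3 := lm_cos htI h2 h1
    rw [div_le_iff₀ hn0] at h3
    linarith
  have hi1 : 1 ≤ i := by
    by_contra h0
    have h1 : i = 0 := by omega
    rw [h1] at hni
    push_cast at hni
    nlinarith
  have him : ((i - 1 : ℕ) : ℝ) = i - 1 := by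
    rw [Nat.cast_sub hi1, Nat.cast_one]
  -- left neighbour
  set ρ : ℝ := (K + 7) ^ 2 / (2 * (n : ℝ) ^ 2) with hρ
  have hρ0 : 0 < ρ := by positivity
  have hleft : 1 - x (i - 1) ≤ ρ := by
    have h1 := (hNl (i - 1) (by omega)).1
    rw [him] at h1
    have h2 := one_sub_sq_div_two_le_cos (x := (n - (i - 1) : ℝ) * π / n)
    have h3 : 0 ≤ (n - (i - 1) : ℝ) * π := mul_nonneg (by linarith) hpi.le
    have h4 : (n - (i - 1) : ℝ) * π ≤ K + 7 := by nlinarith
    have h5 : ((n - (i - 1) : ℝ) * π / n) ^ 2 / 2 ≤ ρ := by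
      rw [hρ, div_pow, div_div, mul_comm ((n : ℝ) ^ 2) 2]
      apply div_le_div_of_nonneg_right _ (by positivity)
      exact pow_le_pow_left₀ h3 h4 2
    linarith
  -- position of `cos s`
  have hsj' := abs_le.1 hsj
  have hx1 : x (i - 1) ≤ cos s := by
    have hm := hM.mem (i - 1) (by omega)
    have h1 := hval (i - 1) (by omega)
    rw [him] at h1
    have h2 : s ≤ arccos (x (i - 1)) := by
      by_contra hlt
      push Not at hlt
      have h3 := hmono ⟨arccos_nonneg _, arccos_le_pi _⟩ hs hlt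
      rw [h1] at h3
      rw [hji] at hsj'
      nlinarith [hsj'.2]
    have h4 := cos_le_cos_of_nonneg_of_le_pi hs.1 (arccos_le_pi _) h2
    rwa [cos_arccos hm.1 hm.2] at h4
  have hx2 : i + 1 < n → cos s ≤ x (i + 1) := by
    intro hi2
    have hm := hM.mem (i + 1) hi2
    have h1 := hval (i + 1) hi2
    push_cast at h1
    have h2 : arccos (x (i + 1)) ≤ s := by
      by_contra hlt
      push Not at hlt
      have h3 := hmono hs ⟨arccos_nonneg _, arccos_le_pi _⟩ hlt
      rw [h1] at h3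
      rw [hji] at hsj'
      nlinarith [hsj'.1]
    have h4 := cos_le_cos_of_nonneg_of_le_pi (arccos_nonneg _) hs.2 h2
    rwa [cos_arccos hm.1 hm.2] at h4
  have hla := hLa n i κ (cos s) ρ Z P x hn hM hi1 hi (hxi ▸ hct) hdeg hP (hxi ▸ hP') hx1 hx2
    (cos_le_one s) hρ0 (by linarith [(hM.mem i hi).2]) (by linarith [cos_le_one s])
  rw [← hxi] at hla
  have hnu : nu K n s t = 1 - exp (-((cos s - cos t) ^ 2 / (2 * ρ ^ 2))) := by
    unfold nu
    congr 3
    rw [hρ]
    have : (K + 7) ≠ 0 := by positivity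
    field_simp
  rw [hnu]
  refine hla.trans (le_of_eq ?_)
  have h1 : Z.eval (cos s) = cos (j * π) * cos (ph n Z x s - j * π) := by
    rw [← hcos s hs]
    have h2 : ph n Z x s = j * π + (ph n Z x s - j * π) := by ring
    conv_lhs => rw [h2]
    rw [cos_add, sin_int_mul_pi, zero_mul, sub_zero]
  have h2 : Z.eval (cos t) = cos (j * π) := by rw [← hcos t htI, hj]
  rw [h1, h2]
  have h3 : cos (j * π) * cos (ph n Z x s - j * π) - cos (j * π) =
      cos (j * π) * (cos (ph n Z x s - j * π) - 1) := by ring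
  rw [h3, abs_mul, hcj, one_mul, abs_sub_comm, abs_of_nonneg]
  linarith [cos_le_one (ph n Z x s - j * π)]

theorem lm (hEx : Ex) (hCt : Ct) (hLa : La) (hPt : Pt) (hNl : Nl) (_hLb : Lb) : Lm := by
  intro n hn K L t s k P hK hKn ht htK hL hs hsL hdeg hP hP'
  have hκ := lm_fract L
  have hM := mem_c (hEx n _ hn hκ)
  have e1 : ∀ θ, Th n L θ - k * π =
      ph n (Zc n (1 - 2 * Int.fract L)) (xc n (1 - 2 * Int.fract L)) θ - ((k - ⌊L⌋ : ℤ) : ℝ) * π := by
    intro θ
    unfold Th Ph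
    push_cast
    ring
  have hj : ph n (Zc n (1 - 2 * Int.fract L)) (xc n (1 - 2 * Int.fract L)) t =
      ((k - ⌊L⌋ : ℤ) : ℝ) * π := by
    have := e1 t
    rw [hL, sub_self] at this
    linarith
  rw [e1 s]
  rw [e1 s] at hsL
  exact lm_core hCt hLa hPt hn hM (hNl n _ hn hκ).1 hK hKn ht htK hj hs hsL hdeg hP hP'

end

end Pool.Agent.Helper40.TV
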