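import Pool.Agent.Helper40.TV.St1

/-!
Total positivity of the phases in terms of labels.
-/

set_option autoImplicit false

namespace Pool.Agent.Helper40.TV

open Polynomial Set Real

/-- the phase with label in `[m, m + 1]` -/
theorem lt_Th (hPk : Pk) {n : ℕ} (hn : 3 ≤ n) {m : ℤ} {L θ : ℝ} (h1 : (m : ℝ) ≤ L)
    (h2 : L ≤ m + 1) (hθ : θ ∈ Ioo 0 π) :
    Th n L θ = π * m + Ph n (1 - 2 * (L - m)) θ := by
  rcases lt_or_eq_of_le h2 with h | h
  · have hf : ⌊L⌋ = m := by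
      rw [Int.floor_eq_iff]
      exact ⟨h1, h⟩
    unfold Th
    rw [← Int.self_sub_floor, hf]
  · obtain ⟨-, -, p1, p2⟩ := hPk n θ hn hθ
    have hf : ⌊L⌋ = m + 1 := by
      rw [Int.floor_eq_iff]
      push_cast
      constructor <;> linarith
    unfold Th
    rw [← Int.self_sub_floor, hf]
    have e1 : 1 - 2 * (L - ((m + 1 : ℤ) : ℝ)) = 1 := by
      push_cast
      rw [h]
      ring
    have e2 : 1 - 2 * (L - (m : ℝ)) = -1 := by
      rw [h]
      ring
    rw [e1, e2, p1, p2]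
    push_cast
    ring

theorem lt (hTp : Tp) (hPk : Pk) : Lt := by
  intro n hn m A B C hA hAB hBC hC θ hθ η hη hle
  have hB1 : (m : ℝ) ≤ B := hA.trans hAB
  have hB2 : B ≤ m + 1 := hBC.trans hC
  rw [lt_Th hPk hn (hB1.trans hBC) hC hθ, lt_Th hPk hn (hB1.trans hBC) hC hη,
    lt_Th hPk hn hB1 hB2 hθ, lt_Th hPk hn hB1 hB2 hη,
    lt_Th hPk hn hA (hAB.trans hB2) hθ, lt_Th hPk hn hA (hAB.trans hB2) hη]
  have h := hTp n θ η (1 - 2 * (A - m)) (1 - 2 * (B - m)) (1 - 2 * (C - m)) hn hθ hη hle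
    (by linarith) (by linarith) (by linarith) (by linarith)
  simpa only [add_sub_add_left_eq_sub] using h

end Pool.Agent.Helper40.TV
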