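import Pool.Agent.Helper40.TV.St1

/-!
Piece Mo: functions which are monotone off a finite set.
-/

set_option autoImplicit false

namespace Pool.Agent.Helper40.TV

open Set

theorem mo_base (f f' : ℝ → ℝ) (a b : ℝ) (hab : a ≤ b) (hf : ContinuousOn f (Icc a b))
    (h : ∀ x ∈ Ioo a b, HasDerivAt f (f' x) x ∧ 0 ≤ f' x) : f a ≤ f b := by
  refine monotoneOn_of_deriv_nonneg (convex_Icc a b) hf ?_ ?_ (left_mem_Icc.2 hab)
    (right_mem_Icc.2 hab) hab
  · rw [interior_Icc]
    exact fun x hx => (h x hx).1.differentiableAt.differentiableWithinAt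
  · rw [interior_Icc]
    intro x hx
    rw [(h x hx).1.deriv]
    exact (h x hx).2

theorem mo : Mo := by
  intro f f' S a b hab hS hf h
  induction S, hS using Set.Finite.induction_on generalizing a b with
  | empty => exact mo_base f f' a b hab hf fun x hx => h x hx (notMem_empty x)
  | @insert c S' _ _ ih =>
    by_cases hc : c ∈ Ioo a b
    · have h1 : f a ≤ f c := by
        refine ih a c hc.1.le (hf.mono (Icc_subset_Icc_right hc.2.le)) fun x hx hxS => ?_
        refine h x ⟨hx.1, hx.2.trans hc.2⟩ ?_
        rintro (rfl | hx')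
        · exact lt_irrefl _ hx.2
        · exact hxS hx'
      have h2 : f c ≤ f b := by
        refine ih c b hc.2.le (hf.mono (Icc_subset_Icc_left hc.1.le)) fun x hx hxS => ?_
        refine h x ⟨hc.1.trans hx.1, hx.2⟩ ?_
        rintro (rfl | hx')
        · exact lt_irrefl _ hx.1
        · exact hxS hx'
      exact h1.trans h2
    · refine ih a b hab hf fun x hx hxS => h x hx ?_
      rintro (rfl | hx')
      · exact hc hx
      · exact hxS hx'

end Pool.Agent.Helper40.TV
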