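import Pool.Agent.Helper40.TV.St3

/-!
Small derivative where a bounded polynomial is nearly `1` in absolute value.
-/

set_option autoImplicit false

namespace Pool.Agent.Helper40.TV

open Polynomial Set Real
open Pool.Agent.Helper40.AS (Bdd)

theorem nd_lip (Q : ℝ[X]) {M x y : ℝ} (hx : x ∈ Icc (-1 : ℝ) 1) (hy : y ∈ Icc (-1 : ℝ) 1)
    (hM : ∀ z ∈ Icc (-1 : ℝ) 1, |Q.derivative.eval z| ≤ M) :
    |Q.eval y - Q.eval x| ≤ M * |y - x| := by
  have := Convex.norm_image_sub_le_of_norm_hasDerivWithin_le (f := fun z => Q.eval z)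
    (f' := fun z => Q.derivative.eval z) (s := Icc (-1 : ℝ) 1) (C := M) (x := x) (y := y)
    (fun z _ => (Q.hasDerivAt z).hasDerivWithinAt)
    (fun z hz => by rw [Real.norm_eq_abs]; exact hM z hz) (convex_Icc _ _) hx hy
  simpa [Real.norm_eq_abs] using this

theorem nd_tay (Q : ℝ[X]) {M x y : ℝ} (hx : x ∈ Icc (-1 : ℝ) 1) (hy : y ∈ Icc (-1 : ℝ) 1)
    (hM : ∀ z ∈ Icc (-1 : ℝ) 1, |Q.derivative.derivative.eval z| ≤ M) :
    Q.derivative.eval x * (y - x) ≤ Q.eval y - Q.eval x + M / 2 * (y - x) ^ 2 := by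
  have hz : ∀ t ∈ Icc (0 : ℝ) 1, x + t * (y - x) ∈ Icc (-1 : ℝ) 1 := by
    intro t ht
    obtain ⟨h1, h2⟩ := ht
    obtain ⟨h3, h4⟩ := hx
    obtain ⟨h5, h6⟩ := hy
    constructor <;> nlinarith
  have hd : ∀ t : ℝ, HasDerivAt
      (fun t => Q.eval (x + t * (y - x)) - t * (Q.derivative.eval x * (y - x)) +
        M / 2 * (y - x) ^ 2 * t ^ 2)
      ((Q.derivative.eval (x + t * (y - x)) - Q.derivative.eval x) * (y - x) +
        M * (y - x) ^ 2 * t) t := by
    intro t
    have h1 : HasDerivAt (fun t : ℝ => x + t * (y - x)) (y - x) t := by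
      simpa using ((hasDerivAt_id t).mul_const (y - x)).const_add x
    have h2 := (Q.hasDerivAt (x + t * (y - x))).comp t h1
    have h3 : HasDerivAt (fun t : ℝ => t * (Q.derivative.eval x * (y - x)))
        (Q.derivative.eval x * (y - x)) t := by
      simpa using (hasDerivAt_id t).mul_const (Q.derivative.eval x * (y - x))
    have h4 : HasDerivAt (fun t : ℝ => M / 2 * (y - x) ^ 2 * t ^ 2)
        (M / 2 * (y - x) ^ 2 * (2 * t)) t := by
      simpa using (hasDerivAt_pow 2 t).const_mul (M / 2 * (y - x) ^ 2)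
    have h5 := (h2.sub h3).add h4
    refine h5.congr_deriv ?_
    ring
  have hmono : MonotoneOn (fun t => Q.eval (x + t * (y - x)) - t * (Q.derivative.eval x * (y - x)) +
        M / 2 * (y - x) ^ 2 * t ^ 2) (Icc 0 1) := by
    refine monotoneOn_of_deriv_nonneg (convex_Icc _ _)
      (fun t _ => (hd t).continuousAt.continuousWithinAt)
      (fun t _ => (hd t).differentiableAt.differentiableWithinAt) ?_
    intro t ht
    rw [interior_Icc] at ht
    rw [(hd t).deriv]
    have h1 := nd_lip Q.derivative hx (hz t ⟨ht.1.le, ht.2.le⟩) hM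
    have h2 : x + t * (y - x) - x = t * (y - x) := by ring
    rw [h2, abs_mul, abs_of_pos ht.1] at h1
    have h3 : |(Q.derivative.eval (x + t * (y - x)) - Q.derivative.eval x) * (y - x)| ≤
        M * (t * |y - x|) * |y - x| := by
      rw [abs_mul]
      exact mul_le_mul_of_nonneg_right h1 (abs_nonneg _)
    have h4 : M * (t * |y - x|) * |y - x| = M * (y - x) ^ 2 * t := by
      rw [← sq_abs (y - x)]; ring
    rw [h4] at h3
    have := neg_le_of_abs_le h3
    linarith
  have := hmono (left_mem_Icc.2 zero_le_one) (right_mem_Icc.2 zero_le_one) zero_le_one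
  simp only [zero_mul, add_zero, sub_zero, one_mul, one_pow, mul_one] at this
  have e : x + (y - x) = y := by ring
  rw [e] at this
  norm_num at this
  linarith

theorem nd_one (hTy : Ty) {n : ℕ} {Q : ℝ[X]} {x η : ℝ} (hn : 1 ≤ n) (hdeg : Q.natDegree ≤ n)
    (hb : Bdd Q) (hη : 0 < η) (h1 : -1 ≤ x - √η / (n : ℝ) ^ 2) (h2 : x + √η / (n : ℝ) ^ 2 ≤ 1)
    (h : 1 - η ≤ Q.eval x) : |Q.derivative.eval x| ≤ 3 * √η * (n : ℝ) ^ 2 := by
  obtain ⟨-, hM, -⟩ := hTy n Q hn hdeg hb
  have hn0 : (0 : ℝ) < n := by exact_mod_cast hn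
  have hs : 0 < √η := Real.sqrt_pos.2 hη
  have hss : √η ^ 2 = η := Real.sq_sqrt hη.le
  set h0 := √η / (n : ℝ) ^ 2 with hh0
  have hpos : 0 < h0 := by positivity
  have hx : x ∈ Icc (-1 : ℝ) 1 := ⟨by linarith, by linarith⟩
  have hr : x + h0 ∈ Icc (-1 : ℝ) 1 := ⟨by linarith, by linarith⟩
  have hl : x - h0 ∈ Icc (-1 : ℝ) 1 := ⟨by linarith, by linarith⟩
  have t1 := nd_tay Q hx hr hM
  have t2 := nd_tay Q hx hl hM
  have b1 : Q.eval (x + h0) ≤ 1 := (abs_le.1 (hb _ hr)).2
  have b2 : Q.eval (x - h0) ≤ 1 := (abs_le.1 (hb _ hl)).2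
  have e1 : x + h0 - x = h0 := by ring
  have e2 : x - h0 - x = -h0 := by ring
  have e3 : 4 * (n : ℝ) ^ 4 / 2 * h0 ^ 2 = 2 * η := by
    rw [hh0, div_pow, hss]
    field_simp
    ring
  rw [e1, e3] at t1
  rw [e2, neg_sq, e3] at t2
  have e4 : 3 * √η * (n : ℝ) ^ 2 * h0 = 3 * η := by
    rw [hh0]
    field_simp
    linarith
  rw [abs_le]
  constructor
  · refine le_of_mul_le_mul_right ?_ hpos
    nlinarith
  · refine le_of_mul_le_mul_right ?_ hpos
    nlinarith

theorem nd (hTy : Ty) : Nd := by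
  intro n P x η hn hdeg hb hη h1 h2 h
  rcases le_total 0 (P.eval x) with hp | hp
  · rw [abs_of_nonneg hp] at h
    exact nd_one hTy hn hdeg hb hη h1 h2 h
  · rw [abs_of_nonpos hp] at h
    have hb' : Bdd (-P) := by
      intro y hy
      rw [eval_neg, abs_neg]
      exact hb y hy
    have := nd_one hTy hn (Q := -P) (by rwa [natDegree_neg]) hb' hη h1 h2 (by rwa [eval_neg])
    rwa [derivative_neg, eval_neg, abs_neg] at this

end Pool.Agent.Helper40.TV
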