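import Pool.Agent.Helper40.TV.St1
import Pool.Agent.Helper40.TV.St3

/-!
Piece Nf: nearly maximal chains are non-degenerate.
-/

set_option autoImplicit false

namespace Pool.Agent.Helper40.TV

open Polynomial Set Real
open Pool.Agent.Helper40.AS (Bdd)

/-- from a small difference of `vv` to a small difference of the arguments -/
theorem nf_vv (hV1 : V1) {x y h : ℝ} (h0 : 0 ≤ h) (h2 : h < 2) (hxy : vv y ≤ vv x + h) :
    y ≤ x + π * √h := by
  obtain ⟨-, hmono, -, hper, -, -, -, -, hlow⟩ := hV1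
  by_contra hcon
  push Not at hcon
  have hs : 0 ≤ π * √h := mul_nonneg pi_pos.le (sqrt_nonneg _)
  have hxy' : x ≤ y := by linarith
  by_cases hy : y ≤ x + π
  · have h3 := hlow x y hxy' hy
    have h4 : cos ((y - x) / 2) ≤ 1 - 2 / π ^ 2 * ((y - x) / 2) ^ 2 := by
      apply cos_le_one_sub_mul_cos_sq
      rw [abs_of_nonneg (by linarith)]
      linarith [pi_pos]
    have h5 : (y - x) ^ 2 / π ^ 2 ≤ h := by
      have : 2 * (2 / π ^ 2 * ((y - x) / 2) ^ 2) = (y - x) ^ 2 / π ^ 2 := by ring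
      linarith
    have h6 : (y - x) ^ 2 ≤ h * π ^ 2 := (div_le_iff₀ (by positivity)).1 h5
    have h7 : (π * √h) ^ 2 < (y - x) ^ 2 := by
      apply pow_lt_pow_left₀ _ hs two_ne_zero
      linarith
    rw [mul_pow, sq_sqrt h0] at h7
    linarith
  · push Not at hy
    have h3 := hmono hy
    have := hper x
    linarith

theorem nf_chain {f : ℕ → ℝ} {a : ℝ} {m : ℕ} (h : ∀ j < m, f (j + 1) ≤ f j + a) (i : ℕ) :
    ∀ k, i ≤ k → k ≤ m → f k ≤ f i + ((k : ℝ) - i) * a := by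
  intro k hik
  induction k, hik using Nat.le_induction with
  | base => intro _; simp
  | succ k hk ih =>
    intro hkm
    have h1 := ih (by omega)
    have h2 := h k (by omega)
    push_cast
    nlinarith

theorem nf_tan {b : ℝ} (h0 : 0 ≤ b) (h1 : b ≤ 1) : tan (b / 2) ≤ b := by
  have hc : 1 / 2 ≤ cos (b / 2) := by
    have h2 := one_sub_sq_div_two_le_cos (x := b / 2)
    nlinarith
  rw [tan_eq_sin_div_cos, div_le_iff₀ (by linarith)]
  have hs : sin (b / 2) ≤ b / 2 := sin_le (by linarith)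
  nlinarith

theorem nf_tr {n : ℕ} {θ η U W K q : ℝ} (h0 : 0 < θ) (h1 : θ ≤ η) (h2 : η ≤ 1)
    (hK : n * η ≤ K) (hq : q ≤ n * θ) (hU : 0 ≤ U) (hW : 0 ≤ W)
    (h : U * tan (θ / 2) ≤ W * tan (η / 2)) : U * q ≤ 2 * W * K := by
  have h3 : θ / 2 ≤ tan (θ / 2) := le_tan (by linarith) (by linarith [pi_gt_three])
  have h4 : tan (η / 2) ≤ η := nf_tan (by linarith) h2
  have h5 : U * (θ / 2) ≤ W * η :=
    (mul_le_mul_of_nonneg_left h3 hU).trans (h.trans (mul_le_mul_of_nonneg_left h4 hW))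
  have hn : (0 : ℝ) ≤ n := Nat.cast_nonneg _
  have h6 : (n : ℝ) * (U * (θ / 2)) ≤ n * (W * η) := mul_le_mul_of_nonneg_left h5 hn
  have h7 : U * q ≤ U * (n * θ) := mul_le_mul_of_nonneg_left hq hU
  have h8 : W * (n * η) ≤ W * K := mul_le_mul_of_nonneg_left hK hW
  nlinarith

theorem nf_low {n : ℕ} {θ c : ℝ} (h0 : 0 ≤ θ) (hc : 0 < c)
    (h : c ≤ (n : ℝ) ^ 2 * (1 - cos θ)) : min c 1 ≤ n * θ := by
  have h1 : 1 - cos θ ≤ θ ^ 2 / 2 := by linarith [one_sub_sq_div_two_le_cos (x := θ)]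
  have h2 : (n : ℝ) ^ 2 * (1 - cos θ) ≤ (n : ℝ) ^ 2 * (θ ^ 2 / 2) :=
    mul_le_mul_of_nonneg_left h1 (sq_nonneg _)
  have h3 : 2 * c ≤ (n * θ) ^ 2 := by nlinarith
  have hq0 : 0 < min c 1 := lt_min hc one_pos
  have hq1 : min c 1 ≤ 1 := min_le_right _ _
  have hq2 : min c 1 ≤ c := min_le_left _ _
  apply le_of_sq_le_sq _ (mul_nonneg (Nat.cast_nonneg _) h0) |> fun h => h
  nlinarith

theorem nf_nu_nonneg (K : ℝ) (n : ℕ) (s t : ℝ) : 0 ≤ nu K n s t := by
  unfold nu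
  have h : exp (-(2 * ((n : ℝ) ^ 2 * (cos s - cos t)) ^ 2 / (K + 7) ^ 4)) ≤ 1 := by
    apply exp_le_one_iff.2
    have : 0 ≤ 2 * ((n : ℝ) ^ 2 * (cos s - cos t)) ^ 2 / (K + 7) ^ 4 := by positivity
    linarith
  linarith

/-- all pairs of neighbours are nearly alternating -/
theorem nf_pairs (hV1 : V1) (hW1 : W1) {n : ℕ} {Th : ℝ → ℝ → ℝ} {Z : ℝ → ℝ[X]}
    (F : Fam n Th Z) {K δ c c1 h : ℝ} (hK : 0 < K) (hδ : 0 < δ) (hc : 0 < c) (hc1 : c ≤ 1)
    (hh : 0 < h) (hh1 : h ≤ 1) (hhc : h ≤ c ^ 3 / 40)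
    (hhx : 2 * K * (π + K ^ 2 / (2 * δ) * (2 * π * K / c ^ 2)) * √h ≤ c1 * min δ 1)
    (hn : K + 7 ≤ n)
    (hNu : ∀ (L L' t t' s : ℝ) (k : ℤ), 0 < t → t < t' → n * t' ≤ K →
      δ ≤ (n : ℝ) ^ 2 * (cos t - cos t') → Th L t = k * π → Th L' t' = (k + 1) * π → L < L' →
      s ∈ Icc t t' → Th L s + Th L' s = (2 * k + 1) * π →
      c ≤ (n : ℝ) ^ 2 * (cos t - cos s) ∧ c ≤ nu K n s t ∧ c ≤ nu K n s t' ∧
      Th L' s - Th L s ≤ π - c)
    {τ τ' : ℝ} {P : ℝ[X]} {m : ℕ} {θ L s : ℕ → ℝ} (hτ : 0 < τ) (hτ' : n * τ' ≤ K) (hP : Bdd P)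
    (hθ : ∀ i ≤ m, θ i ∈ Icc τ τ')
    (hθδ : ∀ i < m, δ ≤ (n : ℝ) ^ 2 * (cos (θ i) - cos (θ (i + 1))))
    (hθl : ∀ i < m, θ i < θ (i + 1))
    (hmax : ∀ L, vv (Th L τ') - vv (Th L τ) ≤ |P.eval (cos τ) - P.eval (cos (θ 0))| +
      ∑ j ∈ Finset.range m, |P.eval (cos (θ (j + 1))) - P.eval (cos (θ j))| +
      |P.eval (cos τ') - P.eval (cos (θ m))| + h)
    (C1 : ∀ i ≤ m, Th (L i) (θ i) = i * π) (C2 : ∀ i < m, s i ∈ Icc (θ i) (θ (i + 1)))
    (C3 : ∀ i < m, L i < L (i + 1) →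
      Th (L i) (s i) + Th (L (i + 1)) (s i) = (2 * i + 1) * π)
    (C4 : ∀ i < m, L i < L (i + 1) → |P.eval (cos (θ (i + 1))) - P.eval (cos (θ i))| +
      nu K n (s i) (θ i) * (1 - |P.eval (cos (θ i))|) +
      nu K n (s i) (θ (i + 1)) * (1 - |P.eval (cos (θ (i + 1)))|) ≤
      2 - cW (Th (L (i + 1)) (s i) - Th (L i) (s i)))
    (C5 : |P.eval (cos τ') - P.eval (cos (θ m))| + nu K n τ' (θ m) *
      (1 - |P.eval (cos (θ m))|) ≤ vv (Th (L m) τ') - 2 * m)
    (C6 : |P.eval (cos τ) - P.eval (cos (θ 0))| + nu K n τ (θ 0) *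
      (1 - |P.eval (cos (θ 0))|) ≤ -vv (Th (L 0) τ))
    (C7 : ∃ L', pV Th τ τ' m L s ≤ vv (Th L' τ') - vv (Th L' τ)) :
    ∀ j < m, 2 - 2 * h / c ≤ |P.eval (cos (θ (j + 1))) - P.eval (cos (θ j))| ∧
      Th (L j) (θ (j + 1)) ≤ (j + 1) * π + c1 := by
  have hnR : (0 : ℝ) < n := by linarith
  have hπ := pi_gt_three
  have hπ4 := pi_le_four
  have hττ : τ ≤ τ' := (hθ 0 (Nat.zero_le _)).1.trans (hθ 0 (Nat.zero_le _)).2
  have hτ1 : τ' ≤ 1 := by
    by_contra hcon
    push Not at hcon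
    have : (n : ℝ) * 1 < n * τ' := mul_lt_mul_of_pos_left hcon hnR
    linarith
  have hIoo : ∀ x, τ ≤ x → x ≤ τ' → x ∈ Ioo 0 π := fun x h1 h2 => ⟨by linarith, by linarith⟩
  have hpt : ∀ x : ℝ, |P.eval (cos x)| ≤ 1 := fun x => hP _ ⟨neg_one_le_cos x, cos_le_one x⟩
  have hs : ∀ j < m, s j ∈ Icc τ τ' := fun j hj =>
    ⟨(hθ j hj.le).1.trans (C2 j hj).1, (C2 j hj).2.trans (hθ (j + 1) hj).2⟩
  obtain ⟨hWm, hW0, hWn, hWs, -, -, -⟩ := hW1
  set D : ℕ → ℝ := fun j => Th (L (j + 1)) (s j) - Th (L j) (s j) with hD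
  set df : ℕ → ℝ := fun j => |P.eval (cos (θ (j + 1))) - P.eval (cos (θ j))| with hdf
  set B : ℕ → ℝ := fun j => 2 - cW (D j) - df j with hB
  have hdf2 : ∀ j, df j ≤ |P.eval (cos (θ (j + 1)))| + |P.eval (cos (θ j))| := fun j =>
    abs_sub _ _
  -- up pairs
  have hup : ∀ j < m, L j < L (j + 1) → 0 ≤ D j ∧ D j ≤ π - c ∧
      c * (1 - |P.eval (cos (θ j))|) + c * (1 - |P.eval (cos (θ (j + 1)))|) ≤ B j ∧
      c ≤ (n : ℝ) ^ 2 * (cos (θ j) - cos (s j)) := by
    intro j hj hL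
    have h1 := hNu (L j) (L (j + 1)) (θ j) (θ (j + 1)) (s j) j
      (hτ.trans_le (hθ j hj.le).1) (hθl j hj)
      ((mul_le_mul_of_nonneg_left (hθ (j + 1) hj).2 hnR.le).trans hτ') (hθδ j hj)
      (by rw [C1 j hj.le]; push_cast; ring)
      (by rw [C1 (j + 1) hj]; push_cast; ring) hL (C2 j hj)
      (by rw [C3 j hj hL]; push_cast; ring)
    obtain ⟨h2, h3, h4, h5⟩ := h1
    have hm := F.mono (s j) (hIoo _ (hs j hj).1 (hs j hj).2) hL
    have h6 := C4 j hj hL
    refine ⟨by simp only [hD]; linarith [hm], h5, ?_, h2⟩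
    have h7 : c * (1 - |P.eval (cos (θ j))|) ≤
        nu K n (s j) (θ j) * (1 - |P.eval (cos (θ j))|) :=
      mul_le_mul_of_nonneg_right h3 (by linarith [hpt (θ j)])
    have h8 : c * (1 - |P.eval (cos (θ (j + 1)))|) ≤
        nu K n (s j) (θ (j + 1)) * (1 - |P.eval (cos (θ (j + 1)))|) :=
      mul_le_mul_of_nonneg_right h4 (by linarith [hpt (θ (j + 1))])
    simp only [hB, hD, hdf]
    linarith
  -- down pairs
  have hdn : ∀ j < m, L (j + 1) ≤ L j → D j ≤ 0 ∧ cW (D j) = 0 := by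
    intro j hj hL
    have hm := (F.mono (s j) (hIoo _ (hs j hj).1 (hs j hj).2)).monotone hL
    have h1 : D j ≤ 0 := by simp only [hD]; linarith [hm]
    exact ⟨h1, hWn _ h1⟩
  have hB0 : ∀ j < m, 0 ≤ B j := by
    intro j hj
    rcases lt_or_ge (L j) (L (j + 1)) with hL | hL
    · have h1 := (hup j hj hL).2.2.1
      have h2 : 0 ≤ c * (1 - |P.eval (cos (θ j))|) :=
        mul_nonneg hc.le (by linarith [hpt (θ j)])
      have h3 : 0 ≤ c * (1 - |P.eval (cos (θ (j + 1)))|) :=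
        mul_nonneg hc.le (by linarith [hpt (θ (j + 1))])
      linarith
    · have h1 := (hdn j hj hL).2
      simp only [hB]
      rw [h1]
      linarith [hdf2 j, hpt (θ j), hpt (θ (j + 1))]
  have hC5 : |P.eval (cos τ') - P.eval (cos (θ m))| ≤ vv (Th (L m) τ') - 2 * m := by
    have := mul_nonneg (nf_nu_nonneg K n τ' (θ m)) (by linarith [hpt (θ m)] :
      0 ≤ 1 - |P.eval (cos (θ m))|)
    linarith
  have hC6 : |P.eval (cos τ) - P.eval (cos (θ 0))| ≤ -vv (Th (L 0) τ) := by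
    have := mul_nonneg (nf_nu_nonneg K n τ (θ 0)) (by linarith [hpt (θ 0)] :
      0 ≤ 1 - |P.eval (cos (θ 0))|)
    linarith
  have hsum : ∑ j ∈ Finset.range m, B j =
      2 * m - ∑ j ∈ Finset.range m, cW (D j) - ∑ j ∈ Finset.range m, df j := by
    simp only [hB]
    rw [Finset.sum_sub_distrib, Finset.sum_sub_distrib, Finset.sum_const, Finset.card_range,
      nsmul_eq_mul]
    ring
  have hBh : ∀ j < m, B j ≤ h := by
    obtain ⟨L', hL'⟩ := C7
    have h1 := hmax L'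
    unfold pV at hL'
    have h2 : ∑ j ∈ Finset.range m, B j ≤ h := by
      rw [hsum]
      simp only [hD, hdf]
      linarith
    intro j hj
    exact (Finset.single_le_sum (fun i hi => hB0 i (Finset.mem_range.1 hi))
      (Finset.mem_range.2 hj)).trans h2
  have hBs : 0 ≤ ∑ j ∈ Finset.range m, B j :=
    Finset.sum_nonneg fun i hi => hB0 i (Finset.mem_range.1 hi)
  have hcs : 0 ≤ ∑ j ∈ Finset.range m, cW (D j) := Finset.sum_nonneg fun i _ => hW0 _
  have hc0 : Th (L 0) τ' ≤ Th (L m) τ' + π * √h := by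
    apply nf_vv hV1 hh.le (by linarith)
    have h1 := hmax (L 0)
    have h2 : ∑ j ∈ Finset.range m, df j ≤ 2 * m := by linarith
    simp only [hdf] at h2
    linarith
  -- differences
  have hhc2 : h / c ≤ c ^ 2 / 40 := by
    rw [div_le_iff₀ hc]
    linarith [pow_succ c 2]
  have hhc3 : h ≤ h / c := by
    rw [le_div_iff₀ hc]
    nlinarith
  have hdiff : ∀ j < m, 2 - 2 * h / c ≤ df j := by
    intro j hj
    have h2h : 2 * h / c = 2 * (h / c) := by ring
    rcases lt_or_ge (L j) (L (j + 1)) with hL | hL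
    · obtain ⟨h1, h2, h3, h4⟩ := hup j hj hL
      have h5 := hBh j hj
      have h6 : 0 ≤ c * (1 - |P.eval (cos (θ j))|) :=
        mul_nonneg hc.le (by linarith [hpt (θ j)])
      have h7 : 0 ≤ c * (1 - |P.eval (cos (θ (j + 1)))|) :=
        mul_nonneg hc.le (by linarith [hpt (θ (j + 1))])
      have h8 : 1 - |P.eval (cos (θ j))| ≤ h / c := by
        rw [le_div_iff₀ hc]; linarith
      have h9 : 1 - |P.eval (cos (θ (j + 1)))| ≤ h / c := by
        rw [le_div_iff₀ hc]; linarith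
      have h10 : cW (D j) ≤ 2 - c ^ 2 / 10 := by
        refine (hWm h2).trans ?_
        rw [hWs _ (by linarith) (by linarith)]
        have h11 : sin ((π - c) / 2) = cos (c / 2) := by
          rw [← sin_pi_div_two_sub]; congr 1; ring
        rw [h11]
        have h12 : cos (c / 2) ≤ 1 - 2 / π ^ 2 * (c / 2) ^ 2 := by
          apply cos_le_one_sub_mul_cos_sq
          rw [abs_of_pos (by linarith)]
          linarith
        have h13 : 1 / 10 ≤ 1 / π ^ 2 := by
          apply one_div_le_one_div_of_le (by positivity)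
          nlinarith [pi_lt_d2]
        have h14 : 2 / π ^ 2 * (c / 2) ^ 2 = 1 / π ^ 2 * (c ^ 2 / 2) := by ring
        have h15 : 1 / 10 * (c ^ 2 / 2) ≤ 1 / π ^ 2 * (c ^ 2 / 2) :=
          mul_le_mul_of_nonneg_right h13 (by positivity)
        linarith
      have h16 : c ^ 2 / 10 - h ≤ df j := by
        have : B j = 2 - cW (D j) - df j := rfl
        linarith
      have h17 : h / c < df j := by
        have : 0 < c ^ 2 := by positivity
        linarith
      have h18 := hpt (θ j)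
      have h19 := hpt (θ (j + 1))
      rw [h2h]
      simp only [hdf] at h17 ⊢
      rcases abs_cases (P.eval (cos (θ (j + 1)))) with ⟨a1, a2⟩ | ⟨a1, a2⟩ <;>
      rcases abs_cases (P.eval (cos (θ j))) with ⟨b1, b2⟩ | ⟨b1, b2⟩ <;>
      rcases abs_cases (P.eval (cos (θ (j + 1))) - P.eval (cos (θ j))) with ⟨d1, d2⟩ | ⟨d1, d2⟩ <;>
      linarith
    · have h1 := (hdn j hj hL).2
      have h2 := hBh j hj
      have h3 : B j = 2 - cW (D j) - df j := rfl
      have h4 : 0 ≤ h / c := by positivity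
      rw [h2h]
      linarith
  have hDs : ∀ j < m, L j < L (j + 1) → D j ≤ π * (h / c) := by
    intro j hj hL
    obtain ⟨h1, h2, -, -⟩ := hup j hj hL
    have h3 := hB0 j hj
    have h4 : B j = 2 - cW (D j) - df j := rfl
    have h5 := hdiff j hj
    have h6 : cW (D j) = 2 * sin (D j / 2) := hWs _ h1 (by linarith)
    have h7 : 2 / π * (D j / 2) ≤ sin (D j / 2) := mul_le_sin (by linarith) (by linarith)
    have h8 : 2 * (2 / π * (D j / 2)) = 2 * (D j / π) := by ring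
    have h9 : D j / π ≤ h / c := by
      have : 2 * h / c = 2 * (h / c) := by ring
      linarith
    rw [div_le_iff₀ pi_pos] at h9
    linarith
  -- transfer to the end point
  set C := 2 * π * K / c ^ 2 with hC
  have hC0 : 0 ≤ C := by positivity
  have htr : ∀ j < m, Th (L (j + 1)) τ' ≤ Th (L j) τ' + C * h := by
    intro j hj
    rcases lt_or_ge (L j) (L (j + 1)) with hL | hL
    · obtain ⟨h1, h2, -, h4⟩ := hup j hj hL
      have hsj := hs j hj
      have h5 := F.cm2 (L j) (L (j + 1)) hL.le (s j) (hIoo _ hsj.1 hsj.2) τ'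
        (hIoo _ hττ le_rfl) hsj.2
      have h6 : 0 ≤ Th (L (j + 1)) τ' - Th (L j) τ' := by
        have := (F.mono τ' (hIoo _ hττ le_rfl)).monotone hL.le
        linarith [this]
      have h7 : min c 1 ≤ n * s j := by
        apply nf_low (by linarith [hsj.1]) hc
        refine h4.trans (mul_le_mul_of_nonneg_left ?_ (sq_nonneg _))
        linarith [cos_le_one (θ j)]
      rw [min_eq_left hc1] at h7
      have h8 := nf_tr (n := n) (by linarith [hsj.1]) hsj.2 hτ1 hτ' h7 h6 h1 h5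
      have h9 : D j * K ≤ π * (h / c) * K := mul_le_mul_of_nonneg_right (hDs j hj hL) hK.le
      have h10 : (Th (L (j + 1)) τ' - Th (L j) τ') * c ≤ C * h * c := by
        have : C * h * c = 2 * (π * (h / c) * K) := by
          rw [hC]; field_simp
        rw [this]
        linarith
      have := le_of_mul_le_mul_right h10 hc
      linarith
    · have := (F.mono τ' (hIoo _ hττ le_rfl)).monotone hL
      have h2 : 0 ≤ C * h := by positivity
      linarith [this]
  have hmδ : (m : ℝ) * δ ≤ K ^ 2 / 2 := by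
    have h1 := nf_chain (f := fun j => (n : ℝ) ^ 2 * cos (θ j)) (a := -δ) (m := m)
      (fun j hj => by have := hθδ j hj; linarith) 0 m (Nat.zero_le _) le_rfl
    have h2 : (n : ℝ) ^ 2 * cos (θ 0) ≤ (n : ℝ) ^ 2 * 1 :=
      mul_le_mul_of_nonneg_left (cos_le_one _) (sq_nonneg _)
    have h3 : 1 - θ m ^ 2 / 2 ≤ cos (θ m) := one_sub_sq_div_two_le_cos
    have h4 : (n : ℝ) ^ 2 * (1 - θ m ^ 2 / 2) ≤ (n : ℝ) ^ 2 * cos (θ m) :=
      mul_le_mul_of_nonneg_left h3 (sq_nonneg _)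
    have h5 : 0 ≤ (n : ℝ) * θ m :=
      mul_nonneg hnR.le (by linarith [(hθ m le_rfl).1])
    have h6 : (n : ℝ) * θ m ≤ K :=
      (mul_le_mul_of_nonneg_left (hθ m le_rfl).2 hnR.le).trans hτ'
    have h7 : ((n : ℝ) * θ m) ^ 2 ≤ K ^ 2 := pow_le_pow_left₀ h5 h6 2
    push_cast at h1
    nlinarith
  have hmC : (m : ℝ) * (C * h) ≤ K ^ 2 / (2 * δ) * C * h := by
    have h1 : (m : ℝ) ≤ K ^ 2 / (2 * δ) := by
      rw [le_div_iff₀ (by positivity)]; linarith
    have h2 : 0 ≤ C * h := by positivity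
    nlinarith [mul_le_mul_of_nonneg_right h1 h2]
  intro j hj
  refine ⟨hdiff j hj, ?_⟩
  have hq0 : 0 < min δ 1 := lt_min hδ one_pos
  have hc1' : 0 ≤ c1 := by
    have h1 : 0 ≤ 2 * K * (π + K ^ 2 / (2 * δ) * C) * √h := by positivity
    have h2 : 0 ≤ c1 * min δ 1 := h1.trans hhx
    by_contra hcon
    push Not at hcon
    nlinarith
  have hend : Th (L (j + 1)) (θ (j + 1)) = (j + 1) * π := by
    rw [C1 (j + 1) hj]; push_cast; ring
  have hθj := hθ (j + 1) hj
  rcases lt_or_ge (L j) (L (j + 1)) with hL | hL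
  · have := F.mono (θ (j + 1)) (hIoo _ hθj.1 hθj.2) hL
    simp only at this
    linarith
  · have h1 := F.cm1 (L (j + 1)) (L j) hL (θ (j + 1)) (hIoo _ hθj.1 hθj.2) τ'
      (hIoo _ hττ le_rfl) hθj.2
    have h2 : 0 ≤ Th (L j) (θ (j + 1)) - Th (L (j + 1)) (θ (j + 1)) := by
      have := (F.mono (θ (j + 1)) (hIoo _ hθj.1 hθj.2)).monotone hL
      linarith [this]
    have h3 : 0 ≤ Th (L j) τ' - Th (L (j + 1)) τ' := by
      have := (F.mono τ' (hIoo _ hττ le_rfl)).monotone hL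
      linarith [this]
    have h4 : min δ 1 ≤ n * θ (j + 1) := by
      apply nf_low (by linarith [hθj.1]) hδ
      refine (hθδ j hj).trans (mul_le_mul_of_nonneg_left ?_ (sq_nonneg _))
      linarith [cos_le_one (θ j)]
    have h5 := nf_tr (n := n) (by linarith [hθj.1]) hθj.2 hτ1 hτ' h4 h2 h3 h1
    have h6 := nf_chain (f := fun j => Th (L j) τ') htr 0 j (Nat.zero_le _) hj.le
    have h7 := nf_chain (f := fun j => Th (L j) τ') htr (j + 1) m hj le_rfl
    have h8 : Th (L j) τ' - Th (L (j + 1)) τ' ≤ π * √h + m * (C * h) := by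
      push_cast at h6 h7
      have h9 : 0 ≤ C * h := by positivity
      nlinarith
    have h9 : h ≤ √h := by
      rw [le_sqrt hh.le hh.le]
      nlinarith
    have h10 : Th (L j) τ' - Th (L (j + 1)) τ' ≤ (π + K ^ 2 / (2 * δ) * C) * √h := by
      have h11 : K ^ 2 / (2 * δ) * C * h ≤ K ^ 2 / (2 * δ) * C * √h :=
        mul_le_mul_of_nonneg_left h9 (by positivity)
      linarith
    have h12 : 2 * (Th (L j) τ' - Th (L (j + 1)) τ') * K ≤ c1 * min δ 1 := by
      refine le_trans ?_ hhx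
      have := mul_le_mul_of_nonneg_right h10 hK.le
      linarith
    have h13 := le_of_mul_le_mul_right (h5.trans h12) hq0
    linarith

theorem nf_cosd {n : ℕ} {a b : ℝ} (ha : 0 ≤ a) (hab : a ≤ b) (hb : b ≤ 1) :
    (n * (b - a)) ^ 2 / 5 ≤ (n : ℝ) ^ 2 * (cos a - cos b) := by
  have hπ := pi_gt_three
  have h1 : cos a - cos b = 2 * (sin ((a + b) / 2) * sin ((b - a) / 2)) := by
    rw [cos_sub_cos]
    have : (a - b) / 2 = -((b - a) / 2) := by ring
    rw [this, sin_neg]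
    ring
  have h2 : sin ((b - a) / 2) ≤ sin ((a + b) / 2) :=
    sin_le_sin_of_le_of_le_pi_div_two (by linarith) (by linarith) (by linarith)
  have h3 : 2 / π * ((b - a) / 2) ≤ sin ((b - a) / 2) := mul_le_sin (by linarith) (by linarith)
  have h0 : 0 ≤ 2 / π * ((b - a) / 2) := by
    have : 0 ≤ (b - a) / 2 := by linarith
    positivity
  have h4 : (2 / π * ((b - a) / 2)) ^ 2 ≤ sin ((a + b) / 2) * sin ((b - a) / 2) := by
    rw [sq]
    exact mul_le_mul (h3.trans h2) h3 h0 (h0.trans (h3.trans h2))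
  have h5 : (2 / π * ((b - a) / 2)) ^ 2 = (b - a) ^ 2 * (1 / π ^ 2) := by ring
  have h6 : 1 / 10 ≤ 1 / π ^ 2 := by
    apply one_div_le_one_div_of_le (by positivity)
    nlinarith [pi_lt_d2]
  have h7 : (b - a) ^ 2 * (1 / 10) ≤ (b - a) ^ 2 * (1 / π ^ 2) :=
    mul_le_mul_of_nonneg_left h6 (sq_nonneg _)
  have h8 : (b - a) ^ 2 / 5 ≤ cos a - cos b := by
    rw [h1]; linarith
  have h9 := mul_le_mul_of_nonneg_left h8 (sq_nonneg (n : ℝ))
  calc (n * (b - a)) ^ 2 / 5 = (n : ℝ) ^ 2 * ((b - a) ^ 2 / 5) := by ring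
    _ ≤ _ := h9

theorem nf_lip {P : ℝ[X]} {B : ℝ} (h : ∀ x ∈ Icc (-1 : ℝ) 1, |P.derivative.eval x| ≤ B)
    {x y : ℝ} (hx : x ∈ Icc (-1 : ℝ) 1) (hy : y ∈ Icc (-1 : ℝ) 1) :
    |P.eval y - P.eval x| ≤ B * |y - x| := by
  have := Convex.norm_image_sub_le_of_norm_hasDerivWithin_le (f := fun z => P.eval z)
    (f' := fun z => P.derivative.eval z) (s := Icc (-1 : ℝ) 1) (C := B) (x := x) (y := y)
    (fun z _ => (P.hasDerivAt z).hasDerivWithinAt) (fun z hz => by
      rw [Real.norm_eq_abs]; exact h z hz) (convex_Icc _ _) hx hy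
  simpa [Real.norm_eq_abs] using this

theorem nf (hV1 : V1) (hW1 : W1) (hTy : Ty) (hCd : Cd) (hNu : Nu) (hG1 : G1) (hG2 : G2)
    (hEd : Ed) : Nf := by
  intro K d δ hK hd hδ
  obtain ⟨cν, hcν, nN, HN⟩ := hNu K δ hK hδ
  obtain ⟨ε1, c1, hε1, hc1, nG, HG⟩ := hG1 K δ hK hδ
  obtain ⟨ε2, c2, e, hε2, hc2, he, nE, HE⟩ := hEd K (d / 2) hK (by positivity)
  set e' := min e (c2 / 8) with he'
  set δ1 := min (d ^ 2 / 20) (c2 / 16) with hδ1
  set δ2 := min (min δ1 e') d with hδ2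
  have he'0 : 0 < e' := lt_min he (by positivity)
  have hδ10 : 0 < δ1 := lt_min (by positivity) (by positivity)
  have hδ20 : 0 < δ2 := lt_min (lt_min hδ10 he'0) hd
  obtain ⟨ε3, c3, hε3, hc3, nH, HH⟩ := hG2 K δ2 hK hδ20
  set c := min cν 1 with hc
  have hc0 : 0 < c := lt_min hcν one_pos
  have hcl : c ≤ 1 := min_le_right _ _
  have hcc : c ≤ cν := min_le_left _ _
  have hq0 : 0 < min δ 1 := lt_min hδ one_pos
  set X := 2 * K * (π + K ^ 2 / (2 * δ) * (2 * π * K / c ^ 2)) with hX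
  have hX0 : 0 < X := by positivity
  obtain ⟨h, hh0, hh1, hhc, hh2, hh3, hh4, hh5, hh6⟩ : ∃ h : ℝ, 0 < h ∧ h ≤ 1 ∧ h ≤ c ^ 3 / 40 ∧
      h ≤ c1 * c / 4 ∧ h ≤ (c1 * min δ 1 / X) ^ 2 ∧ h ≤ c3 / 2 ∧ h ≤ c2 / 8 ∧
      h ≤ (c3 / 4) ^ 2 := by
    refine ⟨min 1 (min (c ^ 3 / 40) (min (c1 * c / 4) (min ((c1 * min δ 1 / X) ^ 2)
      (min (c3 / 2) (min (c2 / 8) ((c3 / 4) ^ 2)))))), ?_, ?_⟩
    · positivity
    · simp
  refine ⟨h, min ε1 (min ε2 ε3), hh0, by positivity,
    max (max nN nG) (max (max nE nH) (⌈K⌉₊ + 7)), ?_⟩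
  intro n hn Th Z F τ τ' P m θ hτ hτ' hdτ hdeg hbdd hθ hθδ hcr hmax
  have hnN : nN ≤ n := (le_max_left _ _).trans ((le_max_left _ _).trans hn)
  have hnG : nG ≤ n := (le_max_right _ _).trans ((le_max_left _ _).trans hn)
  have hnE : nE ≤ n :=
    (le_max_left _ _).trans ((le_max_left _ _).trans ((le_max_right _ _).trans hn))
  have hnH : nH ≤ n :=
    (le_max_right _ _).trans ((le_max_left _ _).trans ((le_max_right _ _).trans hn))
  have hnK0 : ⌈K⌉₊ + 7 ≤ n := (le_max_right _ _).trans ((le_max_right _ _).trans hn)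
  have hnK : K + 7 ≤ n := by
    have h1 : ((⌈K⌉₊ + 7 : ℕ) : ℝ) ≤ n := by exact_mod_cast hnK0
    push_cast at h1
    linarith [Nat.le_ceil K]
  have hnR : (0 : ℝ) < n := by linarith
  have hπ := pi_gt_three
  have hπ4 := pi_le_four
  have hττ : τ ≤ τ' := (hθ 0 (Nat.zero_le _)).1.trans (hθ 0 (Nat.zero_le _)).2
  have hτ1 : τ' ≤ 1 := by
    by_contra hcon
    push Not at hcon
    have : (n : ℝ) * 1 < n * τ' := mul_lt_mul_of_pos_left hcon hnR
    linarith
  have hθl : ∀ i < m, θ i < θ (i + 1) := by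
    intro i hi
    by_contra hcon
    push Not at hcon
    have h1 : cos (θ i) ≤ cos (θ (i + 1)) := by
      apply cos_le_cos_of_nonneg_of_le_pi _ _ hcon
      · linarith [(hθ (i + 1) hi).1]
      · linarith [(hθ i hi.le).2]
    have h2 := hθδ i hi
    have h3 : (n : ℝ) ^ 2 * (cos (θ i) - cos (θ (i + 1))) ≤ 0 :=
      mul_nonpos_of_nonneg_of_nonpos (sq_nonneg _) (by linarith)
    linarith
  obtain ⟨L, s, C1, C2, C3, C4, C5, C6, C7⟩ := hCd n Th Z F K τ τ' P m θ hK.le hnK hτ hττ hτ'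
    hdeg hbdd hθ hθl hcr
  intro i hi
  by_contra hcon
  push Not at hcon
  have hn4 : (0 : ℝ) ≤ (n : ℝ) ^ 4 := by positivity
  have hl1 : min ε1 (min ε2 ε3) ≤ ε1 := min_le_left _ _
  have hl2 : min ε1 (min ε2 ε3) ≤ ε2 := (min_le_right _ _).trans (min_le_left _ _)
  have hl3 : min ε1 (min ε2 ε3) ≤ ε3 := (min_le_right _ _).trans (min_le_right _ _)
  have hP1 : |P.derivative.derivative.eval (cos (θ i))| ≤ ε1 * (n : ℝ) ^ 4 :=
    hcon.le.trans (mul_le_mul_of_nonneg_right hl1 hn4)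
  have hP2 : |P.derivative.derivative.eval (cos (θ i))| ≤ ε2 * (n : ℝ) ^ 4 :=
    hcon.le.trans (mul_le_mul_of_nonneg_right hl2 hn4)
  have hP3 : |P.derivative.derivative.eval (cos (θ i))| ≤ ε3 * (n : ℝ) ^ 4 :=
    hcon.le.trans (mul_le_mul_of_nonneg_right hl3 hn4)
  rcases Nat.eq_zero_or_pos m with hm | hm
  · subst hm
    obtain rfl : i = 0 := by omega
    have htI := hθ 0 le_rfl
    set t := θ 0 with ht
    have ht0 : 0 < t := hτ.trans_le htI.1
    have htK : n * t ≤ K := (mul_le_mul_of_nonneg_left htI.2 hnR.le).trans hτ'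
    have hpt : ∀ x : ℝ, |P.eval (cos x)| ≤ 1 := fun x =>
      hbdd _ ⟨neg_one_le_cos x, cos_le_one x⟩
    have hT0 : Th (L 0) t = 0 := by
      have := C1 0 le_rfl
      simpa using this
    have hinc := (F.inc (L 0)).monotoneOn
    have hπτ : τ' ≤ π := by linarith
    have hΦ1 : 0 ≤ Th (L 0) τ' := by
      rw [← hT0]
      exact hinc ⟨ht0.le, by linarith [htI.2]⟩ ⟨by linarith, hπτ⟩ htI.2
    have hΦ0 : Th (L 0) τ ≤ 0 := by
      rw [← hT0]
      exact hinc ⟨hτ.le, by linarith⟩ ⟨ht0.le, by linarith [htI.2]⟩ htI.1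
    have hm0 := hmax (L 0)
    simp only [Finset.range_zero, Finset.sum_empty, add_zero] at hm0 hmax
    have hC5 : |P.eval (cos τ') - P.eval (cos t)| ≤ vv (Th (L 0) τ') := by
      have h1 := mul_nonneg (nf_nu_nonneg K n τ' t) (by linarith [hpt t] :
        0 ≤ 1 - |P.eval (cos t)|)
      simp only [Nat.cast_zero, mul_zero, sub_zero] at C5
      linarith
    have hC6 : |P.eval (cos τ) - P.eval (cos t)| ≤ -vv (Th (L 0) τ) := by
      have h1 := mul_nonneg (nf_nu_nonneg K n τ t) (by linarith [hpt t] :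
        0 ≤ 1 - |P.eval (cos t)|)
      linarith
    have he1 : vv (Th (L 0) τ') - h ≤ |P.eval (cos τ') - P.eval (cos t)| := by linarith
    have he0 : -vv (Th (L 0) τ) - h ≤ |P.eval (cos τ) - P.eval (cos t)| := by linarith
    have hle2 : ∀ x : ℝ, |P.eval (cos x) - P.eval (cos t)| ≤ 2 := fun x => by
      have := abs_sub (P.eval (cos x)) (P.eval (cos t))
      linarith [hpt x, hpt t]
    have hV := hV1
    obtain ⟨-, hVm, hV0, hVp, -, hVo, hVl, -, -⟩ := hV
    have hvπ : vv π = 2 := by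
      have := hVp 0
      rw [zero_add, hV0, zero_add] at this
      exact this
    have hsq : π * √h ≤ c3 := by
      have h1 : √h ≤ c3 / 4 := by
        rw [sqrt_le_left (by positivity)]
        exact hh6
      nlinarith [sqrt_nonneg h]
    have hΦ1π : Th (L 0) τ' ≤ π + c3 := by
      have h1 := nf_vv hV1 (x := π) (y := Th (L 0) τ') hh0.le (by linarith) (by
        rw [hvπ]; linarith [hle2 τ'])
      linarith
    have hΦ0π : -Th (L 0) τ ≤ π + c3 := by
      have h1 := nf_vv hV1 (x := π) (y := -Th (L 0) τ) hh0.le (by linarith) (by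
        rw [hvπ, hVo]; linarith [hle2 τ])
      linarith
    have hδ21 : δ2 ≤ δ1 := (min_le_left _ _).trans (min_le_left _ _)
    have hδ2e : δ2 ≤ e' := (min_le_left _ _).trans (min_le_right _ _)
    have hδ2d : δ2 ≤ d := min_le_right _ _
    have hδ1d : δ1 ≤ d ^ 2 / 20 := min_le_left _ _
    have hδ1c : δ1 ≤ c2 / 16 := min_le_right _ _
    rcases le_or_gt δ1 ((n : ℝ) ^ 2 * (cos t - cos τ')) with hA | hB
    · have h1 := HH n hnH Th Z F P t τ' (L 0) 0 hdeg hbdd ht0 htK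
        (by nlinarith [mul_pos hnR hτ]) hτ' (by
          rw [abs_sub_comm]
          exact hδ21.trans (hA.trans (mul_le_mul_of_nonneg_left (le_abs_self _) (sq_nonneg _))))
        (hcr 0 le_rfl) hP3 (by rw [hT0]; simp) (by
          simp only [Int.cast_zero, zero_mul, sub_zero]
          rw [abs_of_nonneg hΦ1]; exact hΦ1π)
      simp only [Int.cast_zero, zero_mul, sub_zero] at h1
      rw [abs_of_nonneg hΦ1] at h1
      linarith
    · have he1s : |P.eval (cos τ') - P.eval (cos t)| ≤ 2 * δ1 := by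
        have h1 := nf_lip ((hTy n P (by omega) hdeg hbdd).1)
          (x := cos t) (y := cos τ') ⟨neg_one_le_cos _, cos_le_one _⟩
          ⟨neg_one_le_cos _, cos_le_one _⟩
        have h2 : cos τ' ≤ cos t :=
          cos_le_cos_of_nonneg_of_le_pi ht0.le hπτ htI.2
        rw [abs_of_nonpos (by linarith : cos τ' - cos t ≤ 0)] at h1
        linarith
      have hnt : n * (τ' - t) ≤ d / 2 := by
        have h1 := nf_cosd (n := n) ht0.le htI.2 hτ1
        apply le_of_sq_le_sq _ (by positivity) |> fun h => h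
        nlinarith
      have hntτ : d / 2 ≤ n * (t - τ) := by
        have : n * (τ' - τ) = n * (τ' - t) + n * (t - τ) := by ring
        linarith
      have hcosτ : d ^ 2 / 20 ≤ (n : ℝ) ^ 2 * (cos τ - cos t) := by
        have h1 := nf_cosd (n := n) hτ.le htI.1 (by linarith [htI.2])
        have h2 : (d / 2) ^ 2 ≤ (n * (t - τ)) ^ 2 := pow_le_pow_left₀ (by positivity) hntτ 2
        nlinarith
      rcases le_or_gt e' (n * τ) with hE1 | hE2
      · have h1 := HH n hnH Th Z F P t τ (L 0) 0 hdeg hbdd ht0 htK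
          (hδ2e.trans hE1) ((mul_le_mul_of_nonneg_left hττ hnR.le).trans hτ')
          (hδ21.trans (hδ1d.trans (hcosτ.trans
            (mul_le_mul_of_nonneg_left (le_abs_self _) (sq_nonneg _)))))
          (hcr 0 le_rfl) hP3 (by rw [hT0]; simp) (by
            simp only [Int.cast_zero, zero_mul, sub_zero]
            rw [abs_of_nonpos hΦ0]; exact hΦ0π)
        simp only [Int.cast_zero, zero_mul, sub_zero] at h1
        rw [abs_of_nonpos hΦ0, hVo] at h1
        linarith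
      · have h1 := HE n hnE P t τ hdeg hbdd (by nlinarith [mul_pos hnR hτ]) htK (hcr 0 le_rfl)
          hP2 hτ.le (hE2.le.trans (min_le_left _ _))
        have h2 := hmax 0
        rw [F.zero τ' ⟨by linarith, by linarith⟩, F.zero τ ⟨hτ, by linarith⟩] at h2
        have h3 : vv (n * t) ≤ vv (n * τ') :=
          hVm.monotone (mul_le_mul_of_nonneg_left htI.2 hnR.le)
        have h4 := hVl 0 (n * τ) (by positivity)
        have h5 : e' ≤ c2 / 8 := min_le_right _ _
        rw [hV0] at h4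
        linarith
  · have hp := nf_pairs hV1 hW1 F (c := c) (c1 := c1) (h := h) hK hδ hc0 hcl hh0 hh1 hhc (by
        have h1 : √h ≤ c1 * min δ 1 / X := by
          rw [sqrt_le_left (by positivity)]
          exact hh3
        rw [le_div_iff₀ hX0] at h1
        linarith) hnK (by
        intro L L' t t' s k h1 h2 h3 h4 h5 h6 h7 h8 h9
        obtain ⟨g1, g2, g3, g4, g5⟩ := HN n hnN Th Z F L L' t t' s k h1 h2 h3 h4 h5 h6 h7 h8 h9
        exact ⟨hcc.trans g1, hcc.trans g3, hcc.trans g4, by linarith⟩)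
      hτ hτ' hbdd hθ hθδ hθl hmax C1 C2 C3 C4 C5 C6 C7
    have hcase : ∀ j < m, (i = j ∨ i = j + 1) → False := by
      intro j hj hij
      obtain ⟨h1, h2⟩ := hp j hj
      have hdeg2 : |P.derivative.derivative.eval (cos (θ j))| ≤ ε1 * (n : ℝ) ^ 4 ∨
          |P.derivative.derivative.eval (cos (θ (j + 1)))| ≤ ε1 * (n : ℝ) ^ 4 := by
        rcases hij with rfl | rfl
        · exact Or.inl hP1
        · exact Or.inr hP1
      have h3 := HG n hnG Th Z F P (θ j) (θ (j + 1)) (L j) j hdeg hbdd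
        (hτ.trans_le (hθ j hj.le).1) (hθl j hj)
        ((mul_le_mul_of_nonneg_left (hθ (j + 1) hj).2 hnR.le).trans hτ') (hθδ j hj)
        (hcr j hj.le) (hcr (j + 1) hj) (by rw [C1 j hj.le]; push_cast; ring)
        (by push_cast; exact h2) hdeg2
      have h4 : 2 * h / c ≤ c1 / 2 := by
        rw [div_le_iff₀ hc0]
        linarith
      linarith
    rcases lt_or_ge i m with him | him
    · exact hcase i him (Or.inl rfl)
    · exact hcase (i - 1) (by omega) (Or.inr (by omega))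

end Pool.Agent.Helper40.TV
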