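import Pool.Agent.Helper40.TV.St1

/-!
Location of the nodes.
-/

set_option autoImplicit false

namespace Pool.Agent.Helper40.TV

open Polynomial Set Real
open Pool.Agent.Helper40.AS (Bdd)

theorem nl_zero (n : ℕ) (hn : 3 ≤ n) :
    cos ((n - 1 - (0 : ℕ) : ℝ) * π / (n - 1 : ℝ)) = -1 := by
  have h3 : (3 : ℝ) ≤ n := by exact_mod_cast hn
  have h : ((n : ℝ) - 1 - (0 : ℕ)) * π / ((n : ℝ) - 1) = π := by
    have h4 : (n : ℝ) - 1 ≠ 0 := by linarith
    push_cast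
    field_simp
    ring
  rw [h, cos_pi]

theorem nl_last (n : ℕ) (hn : 3 ≤ n) :
    cos ((n - 1 - (n - 1 : ℕ) : ℝ) * π / (n - 1 : ℝ)) = 1 := by
  have h : ((n : ℝ) - 1 - (n - 1 : ℕ)) * π / ((n : ℝ) - 1) = 0 := by
    rw [Nat.cast_sub (by omega : 1 ≤ n)]
    push_cast
    simp
  rw [h, cos_zero]

theorem nl (hEx : Ex) (hUn : Un) (hCp : Cp) (hSp : Sp) : Nl := by
  intro n κ hn hκ
  have M := mem_c (hEx n κ hn hκ)
  obtain ⟨M1, Mm, M0⟩ := hSp n hn
  refine ⟨fun i hi => ⟨?_, ?_⟩, fun h0 => ?_, fun h0 => ?_⟩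
  · rcases eq_or_lt_of_le hκ.2 with h | h
    · rw [h] at M ⊢
      exact ((hUn n 1 _ _ _ _ hn M1 M).2 i hi).le
    · exact ((hCp n 1 κ _ _ _ _ hn h M1 M).2 i hi).1
  · rcases eq_or_lt_of_le hκ.1 with h | h
    · rw [← h] at M ⊢
      exact ((hUn n (-1) _ _ _ _ hn M Mm).2 i hi).le
    · exact ((hCp n κ (-1) _ _ _ _ hn h M Mm).2 i hi).1
  · have hz := nl_zero n hn
    rcases eq_or_lt_of_le h0 with h | h
    · rw [← h] at M ⊢
      have := (hUn n 0 _ _ _ _ hn M M0).2 0 (by omega)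
      rw [this]
      exact hz
    · have h1 := ((hCp n κ 0 _ _ _ _ hn h M M0).2 0 (by omega)).1
      have h2 := (M.mem 0 (by omega)).1
      exact le_antisymm (h1.trans_eq hz) h2
  · have hz := nl_last n hn
    rcases eq_or_lt_of_le h0 with h | h
    · rw [h] at M ⊢
      have := (hUn n 0 _ _ _ _ hn M M0).2 (n - 1) (by omega)
      rw [this]
      exact hz
    · have h1 := ((hCp n 0 κ _ _ _ _ hn h M0 M).2 (n - 1) (by omega)).1
      have h2 := (M.mem (n - 1) (by omega)).2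
      exact le_antisymm h2 (hz.symm.trans_le h1)

end Pool.Agent.Helper40.TV
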