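import Pool.Agent.Helper40.TV.St3

set_option autoImplicit false

namespace Pool.Agent.Helper40.TV

open Polynomial Set Real
open Pool.Agent.Helper40.AS (Bdd)

noncomputable section

theorem nuu_cos {t s : ℝ} (h0 : 0 ≤ t) (hts : t ≤ s) (hs : s ≤ 1) :
    (s - t) ^ 2 / 5 ≤ cos t - cos s := by
  have hpi := Real.pi_gt_three
  have e : cos t - cos s = 2 * sin ((s + t) / 2) * sin ((s - t) / 2) := by
    rw [cos_sub_cos]
    have : (t - s) / 2 = -((s - t) / 2) := by ring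
    rw [this, sin_neg, add_comm t s]
    ring
  have h1 : 2 / π * ((s + t) / 2) ≤ sin ((s + t) / 2) :=
    Real.mul_le_sin (by linarith) (by linarith)
  have h2 : 2 / π * ((s - t) / 2) ≤ sin ((s - t) / 2) :=
    Real.mul_le_sin (by linarith) (by linarith)
  have h3 : 0 ≤ 2 / π * ((s - t) / 2) := by
    have : 0 ≤ s - t := by linarith
    positivity
  have h4 : 2 / π * ((s - t) / 2) ≤ sin ((s + t) / 2) := by
    refine le_trans ?_ h1
    exact mul_le_mul_of_nonneg_left (by linarith) (by positivity)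
  have h5 : (2 / π * ((s - t) / 2)) * (2 / π * ((s - t) / 2)) ≤
      sin ((s + t) / 2) * sin ((s - t) / 2) := mul_le_mul h4 h2 h3 (h3.trans h4)
  have h6 : (2 / π * ((s - t) / 2)) * (2 / π * ((s - t) / 2)) = (s - t) ^ 2 / π ^ 2 := by
    field_simp
  have hp10 : π ^ 2 ≤ 10 := by
    have := Real.pi_lt_d2
    nlinarith
  have h7 : (s - t) ^ 2 / 10 ≤ (s - t) ^ 2 / π ^ 2 :=
    div_le_div_of_nonneg_left (sq_nonneg _) (by positivity) hp10
  rw [e]
  rw [h6] at h5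
  linarith

theorem nuu_exp {K a b : ℝ} (hK : 0 < K) (ha : 0 ≤ a) (hab : a ≤ b) :
    1 - exp (-(2 * a ^ 2 / (K + 7) ^ 4)) ≤ 1 - exp (-(2 * b ^ 2 / (K + 7) ^ 4)) := by
  have h1 : a ^ 2 ≤ b ^ 2 := pow_le_pow_left₀ ha hab 2
  have h2 : 2 * a ^ 2 / (K + 7) ^ 4 ≤ 2 * b ^ 2 / (K + 7) ^ 4 :=
    div_le_div_of_nonneg_right (by linarith) (by positivity)
  have h3 : exp (-(2 * b ^ 2 / (K + 7) ^ 4)) ≤ exp (-(2 * a ^ 2 / (K + 7) ^ 4)) :=
    exp_le_exp.2 (by linarith)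
  linarith

theorem nuu (hGr : Gr) : Nu := by
  intro K δ hK hδ
  obtain ⟨cg, hcg, n0, hn0⟩ := hGr K hK
  set f : ℝ := cg * min (δ / 2) 1 with hf
  have hf0 : 0 < f := mul_pos hcg (lt_min (by linarith) one_pos)
  set c1 : ℝ := 1 - exp (-(2 * (f ^ 2 / 5) ^ 2 / (K + 7) ^ 4)) with hc1
  have hc10 : 0 < c1 := by
    have : exp (-(2 * (f ^ 2 / 5) ^ 2 / (K + 7) ^ 4)) < 1 := by
      rw [exp_lt_one_iff]
      have : 0 < 2 * (f ^ 2 / 5) ^ 2 / (K + 7) ^ 4 := by positivity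
      linarith
    linarith
  refine ⟨min (f ^ 2 / 5) (min c1 (2 * f)), lt_min (by positivity) (lt_min hc10 (by linarith)),
    max n0 (⌈K⌉₊ + 1), ?_⟩
  intro n hn Th Z F L L' t t' s k ht htt' hnt' hδ' hL hL' hLL' hs hsum
  have hn1 : n0 ≤ n := (le_max_left _ _).trans hn
  have hn2 : ⌈K⌉₊ + 1 ≤ n := (le_max_right _ _).trans hn
  have hnK : K ≤ n := (Nat.le_ceil K).trans (by exact_mod_cast (Nat.le_succ _).trans hn2)
  have hnpos : (0 : ℝ) < n := lt_of_lt_of_le hK hnK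
  have ht'1 : t' ≤ 1 := by
    by_contra h
    push Not at h
    have : (n : ℝ) * 1 < n * t' := mul_lt_mul_of_pos_left h hnpos
    linarith
  obtain ⟨hs1, hs2⟩ := hs
  have hpi := Real.pi_gt_three
  have hs0 : 0 < s := lt_of_lt_of_le ht hs1
  have hsI : s ∈ Icc 0 π := ⟨hs0.le, by linarith⟩
  have htI : t ∈ Icc 0 π := ⟨ht.le, by linarith⟩
  have ht'I : t' ∈ Icc 0 π := ⟨by linarith, by linarith⟩
  set φ : ℝ := Th L s - k * π with hφ
  have hφ' : Th L' s - ((k + 1 : ℤ) : ℝ) * π = -φ := by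
    rw [hφ]; push_cast; linarith
  have hφ0 : 0 ≤ φ := by
    have := (F.inc L).monotoneOn htI hsI hs1
    rw [hL] at this
    rw [hφ]; linarith
  have hnt : (n : ℝ) * t ≤ K := (mul_le_mul_of_nonneg_left htt'.le hnpos.le).trans hnt'
  have g1 := hn0 n hn1 Th Z F L t s k ht hnt hL hsI
  have g2 := hn0 n hn1 Th Z F L' t' s (k + 1) (ht.trans htt') hnt' (by push_cast; exact hL') hsI
  rw [hφ', abs_neg, abs_of_nonneg hφ0] at g2
  rw [← hφ, abs_of_nonneg hφ0] at g1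
  have cst : cos s ≤ cos t := Real.cos_le_cos_of_nonneg_of_le_pi ht.le hsI.2 hs1
  have cst' : cos t' ≤ cos s := Real.cos_le_cos_of_nonneg_of_le_pi hs0.le ht'I.2 hs2
  have hφf : f ≤ φ := by
    have hone : δ / 2 ≤ (n : ℝ) ^ 2 * |cos s - cos t| ∨ δ / 2 ≤ (n : ℝ) ^ 2 * |cos s - cos t'| := by
      rw [abs_sub_comm, abs_of_nonneg (by linarith : 0 ≤ cos t - cos s),
        abs_of_nonneg (by linarith : 0 ≤ cos s - cos t')]
      by_contra hcon
      push Not at hcon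
      have h3 : (n : ℝ) ^ 2 * (cos t - cos t') =
        (n : ℝ) ^ 2 * (cos t - cos s) + (n : ℝ) ^ 2 * (cos s - cos t') := by ring
      linarith [hcon.1, hcon.2]
    rcases hone with h | h
    · exact (mul_le_mul_of_nonneg_left (min_le_min_right 1 h) hcg.le).trans g1
    · exact (mul_le_mul_of_nonneg_left (min_le_min_right 1 h) hcg.le).trans g2
  have l1 : φ ≤ n * (s - t) := by
    have := F.lip L t htI s hsI hs1
    rw [hL] at this
    exact this
  have l2 : φ ≤ n * (t' - s) := by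
    have := F.lip L' s hsI t' ht'I hs2
    rw [hL'] at this
    push_cast at hφ'
    linarith
  have key : ∀ a b : ℝ, 0 ≤ a → a ≤ b → b ≤ 1 → φ ≤ n * (b - a) →
      f ^ 2 / 5 ≤ (n : ℝ) ^ 2 * (cos a - cos b) := by
    intro a b ha hab hb h
    have h1 := nuu_cos ha hab hb
    have h2 : f ^ 2 ≤ (n * (b - a)) ^ 2 := pow_le_pow_left₀ hf0.le (hφf.trans h) 2
    calc f ^ 2 / 5 ≤ (n * (b - a)) ^ 2 / 5 := by linarith
      _ = (n : ℝ) ^ 2 * ((b - a) ^ 2 / 5) := by ring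
      _ ≤ (n : ℝ) ^ 2 * (cos a - cos b) := mul_le_mul_of_nonneg_left h1 (by positivity)
  have k1 := key t s ht.le hs1 (hs2.trans ht'1) l1
  have k2 := key s t' hs0.le hs2 ht'1 l2
  refine ⟨(min_le_left _ _).trans k1, (min_le_left _ _).trans k2, ?_, ?_, ?_⟩
  · refine ((min_le_right _ _).trans (min_le_left _ _)).trans ?_
    have h := nuu_exp hK (by positivity) k1
    have e : ((n : ℝ) ^ 2 * (cos t - cos s)) ^ 2 = ((n : ℝ) ^ 2 * (cos s - cos t)) ^ 2 := by ring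
    rw [e] at h
    exact h
  · refine ((min_le_right _ _).trans (min_le_left _ _)).trans ?_
    exact nuu_exp hK (by positivity) k2
  · have h3 : min (f ^ 2 / 5) (min c1 (2 * f)) ≤ 2 * f := (min_le_right _ _).trans (min_le_right _ _)
    push_cast at hφ'
    linarith

end

end Pool.Agent.Helper40.TV
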