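import Pool.Agent.Helper40.TV.St2

/-!
All paths: the running minimum from the right.
-/

set_option autoImplicit false

namespace Pool.Agent.Helper40.TV

open Set Real

noncomputable section

/-- the running minimum, counted from the right -/
def pa_run (X : ℕ → ℝ) (r : ℕ) : ℕ → ℝ
  | 0 => X r
  | k + 1 => min (X (r - (k + 1))) (pa_run X r k)

theorem pa_min (X : ℕ → ℝ) (r : ℕ) : ∃ m : ℕ → ℝ, m r = X r ∧
    (∀ j < r, m j = min (X j) (m (j + 1))) ∧ ∀ j ≤ r, m j ≤ X j := by
  have h1 : ∀ j < r, pa_run X r (r - j) = min (X j) (pa_run X r (r - (j + 1))) := by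
    intro j hj
    have h : r - j = (r - (j + 1)) + 1 := by omega
    rw [h, pa_run]
    have h' : r - (r - (j + 1) + 1) = j := by omega
    rw [h']
  have h0 : pa_run X r (r - r) = X r := by
    rw [Nat.sub_self, pa_run]
  refine ⟨fun i => pa_run X r (r - i), h0, h1, ?_⟩
  intro j hj
  rcases hj.eq_or_lt with h | h
  · subst h
    exact h0.le
  · exact (h1 j h).le.trans (min_le_left _ _)

/-- All paths. -/
theorem pa (hV1 : V1) (hW1 : W1) (hPa1 : Pa1) : Pa := by
  intro Th a b h r X c hc hc'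
  obtain ⟨m, hr, hm, hX⟩ := pa_min X r
  have hle : ∀ j < r, m j ≤ m (j + 1) := fun j hj => (hm j hj).le.trans (min_le_right _ _)
  obtain ⟨L, hL⟩ := hPa1 Th a b h r m c hle hc hc'
  refine ⟨L, le_trans ?_ hL⟩
  unfold pV
  have ha : a ∈ Icc a b := ⟨le_rfl, h.ab⟩
  have h1 : vv (Th (m 0) a) ≤ vv (Th (X 0) a) :=
    hV1.2.1.monotone ((h.mono a ha).monotone (hX 0 (Nat.zero_le _)))
  have h2 : ∑ j ∈ Finset.range r, cW (Th (m (j + 1)) (c j) - Th (m j) (c j)) ≤
      ∑ j ∈ Finset.range r, cW (Th (X (j + 1)) (c j) - Th (X j) (c j)) := by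
    refine Finset.sum_le_sum fun j hj => ?_
    rw [Finset.mem_range] at hj
    rcases (hle j hj).eq_or_lt with h3 | h3
    · rw [h3, sub_self, hW1.2.2.1 0 le_rfl]
      exact hW1.2.1 _
    · have h4 : m j = X j := by
        have h5 := hm j hj
        rcases min_choice (X j) (m (j + 1)) with h6 | h6
        · rw [h5, h6]
        · rw [h6] at h5
          exact absurd h5 h3.ne
      refine hW1.1 ?_
      rw [h4]
      have h7 := (h.mono (c j) (hc j hj)).monotone (hX (j + 1) hj)
      exact sub_le_sub_right h7 _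
  rw [hr]
  linarith

end

end Pool.Agent.Helper40.TV
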