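import Pool.Agent.Helper40.TV.St2

/-!
Piece Pa1: increasing paths of labels.
-/

set_option autoImplicit false

namespace Pool.Agent.Helper40.TV

open Set Real

/-- value of a path given by the first label and the list of the jumps (position, new label) -/
noncomputable def pa1_F (Th : ℝ → ℝ → ℝ) (b : ℝ) : ℝ → List (ℝ × ℝ) → ℝ
  | X, [] => vv (Th X b)
  | X, q :: l => pa1_F Th b q.2 l - cW (Th q.2 q.1 - Th X q.1)

/-- increasing paths -/
def pa1_V (b : ℝ) : ℝ → ℝ → List (ℝ × ℝ) → Prop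
  | _, _, [] => True
  | lo, X, q :: l => lo ≤ q.1 ∧ q.1 ≤ b ∧ X ≤ q.2 ∧ pa1_V b q.1 q.2 l

/-- shift of the labels -/
noncomputable def pa1_sh (k : ℕ) (l : List (ℝ × ℝ)) : List (ℝ × ℝ) :=
  l.map fun q => (q.1, q.2 - k)

theorem pa1_V_lo {b lo lo' X : ℝ} (h : lo' ≤ lo) {l : List (ℝ × ℝ)} (hv : pa1_V b lo X l) :
    pa1_V b lo' X l := by
  cases l with
  | nil => trivial
  | cons q l => exact ⟨h.trans hv.1, hv.2⟩

theorem pa1_V_lab {b lo X X' : ℝ} (h : X' ≤ X) {l : List (ℝ × ℝ)} (hv : pa1_V b lo X l) :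
    pa1_V b lo X' l := by
  cases l with
  | nil => trivial
  | cons q l => exact ⟨hv.1, hv.2.1, h.trans hv.2.2.1, hv.2.2.2⟩

theorem pa1_V_sh {b lo X : ℝ} (k : ℕ) {l : List (ℝ × ℝ)} (hv : pa1_V b lo X l) :
    pa1_V b lo (X - k) (pa1_sh k l) := by
  induction l generalizing lo X with
  | nil => trivial
  | cons q l ih => exact ⟨hv.1, hv.2.1, by simpa using hv.2.2.1, ih hv.2.2.2⟩

theorem pa1_sh_length (k : ℕ) (l : List (ℝ × ℝ)) : (pa1_sh k l).length = l.length := by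
  simp [pa1_sh]

section

variable {Th : ℝ → ℝ → ℝ} {a b : ℝ}

theorem pa1_Th (hP : PF Th a b) {θ : ℝ} (hθ : θ ∈ Icc a b) (X : ℝ) (k : ℕ) :
    Th (X - k) θ = Th X θ - k * π := by
  induction k with
  | zero => simp
  | succ k ih =>
    have h := hP.unit (X - ((k + 1 : ℕ) : ℝ)) θ hθ
    have e : X - ((k + 1 : ℕ) : ℝ) + 1 = X - k := by push_cast; ring
    rw [e, ih] at h
    push_cast at h ⊢
    linarith

theorem pa1_vv (hV1 : V1) (y : ℝ) (k : ℕ) : vv (y - k * π) = vv y - 2 * k := by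
  obtain ⟨-, -, -, h, -⟩ := hV1
  induction k with
  | zero => simp
  | succ k ih =>
    have h1 := h (y - ((k + 1 : ℕ) : ℝ) * π)
    have e : y - ((k + 1 : ℕ) : ℝ) * π + π = y - k * π := by push_cast; ring
    rw [e, ih] at h1
    push_cast at h1 ⊢
    linarith

theorem pa1_cW (hW1 : W1) {d : ℝ} (hd : 0 ≤ d) (k : ℕ) : cW (d + k * π) = cW d + 2 * k := by
  obtain ⟨-, -, -, -, h, -⟩ := hW1
  induction k with
  | zero => simp
  | succ k ih =>
    have h1 := h (d + k * π) (by have := pi_pos; positivity)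
    have e : d + k * π + π = d + ((k + 1 : ℕ) : ℝ) * π := by push_cast; ring
    rw [e, ih] at h1
    push_cast at h1 ⊢
    linarith

theorem pa1_F_sh (hV1 : V1) (hP : PF Th a b) {lo : ℝ} (hlo : a ≤ lo) (X : ℝ) (k : ℕ)
    {l : List (ℝ × ℝ)} (hv : pa1_V b lo X l) :
    pa1_F Th b (X - k) (pa1_sh k l) = pa1_F Th b X l - 2 * k := by
  induction l generalizing lo X with
  | nil =>
    change vv (Th (X - k) b) = vv (Th X b) - 2 * k
    rw [pa1_Th hP ⟨hP.ab, le_rfl⟩, pa1_vv hV1]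
  | cons q l ih =>
    obtain ⟨h1, h2, h3, h4⟩ := hv
    have hq : q.1 ∈ Icc a b := ⟨hlo.trans h1, h2⟩
    change pa1_F Th b (q.2 - k) (pa1_sh k l) - cW (Th (q.2 - k) q.1 - Th (X - k) q.1) =
      pa1_F Th b q.2 l - cW (Th q.2 q.1 - Th X q.1) - 2 * k
    rw [ih (hlo.trans h1) q.2 h4, pa1_Th hP hq, pa1_Th hP hq]
    have e : Th q.2 q.1 - k * π - (Th X q.1 - k * π) = Th q.2 q.1 - Th X q.1 := by ring
    rw [e]
    ring

theorem pa1_mono (hP : PF Th a b) {θ : ℝ} (hθ : θ ∈ Icc a b) {X Y : ℝ} (h : X ≤ Y) :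
    0 ≤ Th Y θ - Th X θ := sub_nonneg.2 ((hP.mono θ hθ).monotone h)

/-- the first jump can be assumed to be shorter than one -/
theorem pa1_norm (hV1 : V1) (hW1 : W1) (hP : PF Th a b) {lo : ℝ} (hlo : a ≤ lo) {X : ℝ}
    {q : ℝ × ℝ} {l : List (ℝ × ℝ)} (hv : pa1_V b lo X (q :: l)) :
    ∃ (Y : ℝ) (l' : List (ℝ × ℝ)), l'.length = l.length ∧ Y < X + 1 ∧
      pa1_V b lo X ((q.1, Y) :: l') ∧ pa1_F Th b X ((q.1, Y) :: l') = pa1_F Th b X (q :: l) := by
  obtain ⟨h1, h2, h3, h4⟩ := hv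
  have hq : q.1 ∈ Icc a b := ⟨hlo.trans h1, h2⟩
  set k : ℕ := ⌊q.2 - X⌋₊ with hk
  have h0 : 0 ≤ q.2 - X := sub_nonneg.2 h3
  have hk1 : (k : ℝ) ≤ q.2 - X := Nat.floor_le h0
  have hk2 : q.2 - X < k + 1 := Nat.lt_floor_add_one _
  refine ⟨q.2 - k, pa1_sh k l, pa1_sh_length k l, by linarith, ⟨h1, h2, by simp only; linarith,
    pa1_V_sh k h4⟩, ?_⟩
  change pa1_F Th b (q.2 - k) (pa1_sh k l) - cW (Th (q.2 - k) q.1 - Th X q.1) =
    pa1_F Th b q.2 l - cW (Th q.2 q.1 - Th X q.1)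
  rw [pa1_F_sh hV1 hP (hlo.trans h1) q.2 k h4]
  have h5 : 0 ≤ Th (q.2 - k) q.1 - Th X q.1 := pa1_mono hP hq (by linarith)
  have h6 := pa1_cW hW1 h5 k
  have e : Th (q.2 - k) q.1 - Th X q.1 + k * π = Th q.2 q.1 - Th X q.1 := by
    rw [pa1_Th hP hq]; ring
  rw [e] at h6
  linarith

/-- a jump can be replaced by the variation -/
theorem pa1_vc (hW1 : W1) (hP : PF Th a b) {θ : ℝ} (hθ : θ ∈ Icc a b) {X Y : ℝ} (h : X ≤ Y) :
    vv (Th Y θ) - vv (Th X θ) ≤ cW (Th Y θ - Th X θ) := by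
  obtain ⟨-, -, -, -, -, -, h1⟩ := hW1
  exact h1 _ _ ((hP.mono θ hθ).monotone h)

/-- jumps at the same point -/
theorem pa1_sub (hW1 : W1) (hP : PF Th a b) {θ : ℝ} (hθ : θ ∈ Icc a b) {X Y W : ℝ} (h : X ≤ Y)
    (h' : Y ≤ W) :
    cW (Th W θ - Th X θ) ≤ cW (Th Y θ - Th X θ) + cW (Th W θ - Th Y θ) := by
  obtain ⟨-, -, -, -, -, h1, -⟩ := hW1
  have := h1 _ _ (pa1_mono hP hθ h) (pa1_mono hP hθ h')
  have e : Th Y θ - Th X θ + (Th W θ - Th Y θ) = Th W θ - Th X θ := by ring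
  rwa [e] at this

theorem pa1_list (hV1 : V1) (hW1 : W1) (hJ1 : J1) (hJ2 : J2) (hJ3 : J3) (hP : PF Th a b) (n : ℕ) :
    ∀ (l : List (ℝ × ℝ)), l.length = n → ∀ X, pa1_V b a X l →
      ∃ L, pa1_F Th b X l - vv (Th X a) ≤ vv (Th L b) - vv (Th L a) := by
  have hab := hP.ab
  have ha : a ∈ Icc a b := ⟨le_rfl, hab⟩
  have hb : b ∈ Icc a b := ⟨hab, le_rfl⟩
  induction n with
  | zero =>
    intro l hl X hv
    rw [List.length_eq_zero_iff] at hl
    subst hl
    exact ⟨X, le_rfl⟩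
  | succ n ih =>
    intro l hl X hv
    cases l with
    | nil => simp at hl
    | cons q l =>
    obtain ⟨Y, l1, hl1, hYX, hv1, hF⟩ := pa1_norm hV1 hW1 hP le_rfl hv
    rw [← hF]
    rw [List.length_cons] at hl
    have hn : l1.length = n := by omega
    clear hF hv hl hl1
    obtain ⟨p, q2⟩ := q
    simp only at hv1 ⊢
    obtain ⟨v1, v2, v3, v4⟩ := hv1
    simp only at v1 v2 v3 v4
    have hp : p ∈ Icc a b := ⟨v1, v2⟩
    cases l1 with
    | nil =>
      change ∃ L, vv (Th Y b) - cW (Th Y p - Th X p) - vv (Th X a) ≤ vv (Th L b) - vv (Th L a)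
      by_cases hcr : Y ≤ ⌊X⌋ + 1
      · rcases hJ2 Th a b hP X Y p a b v3 hcr ha hp hb v1 v2 with h | h
        · refine ⟨Y, ?_⟩
          have := pa1_vc hW1 hP ha v3
          linarith
        · refine ⟨X, ?_⟩
          have := pa1_vc hW1 hP hb v3
          linarith
      · push Not at hcr
        obtain ⟨L, hL⟩ := hJ1 Th a b hP (⌊X⌋ + 1) X Y p (by push_cast; exact Int.lt_floor_add_one X)
          (by push_cast; exact hcr) hYX hp
        exact ⟨L, by linarith⟩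
    | cons q3 l2 =>
    obtain ⟨W, l3, hl3, hWY, hv2, hF2⟩ := pa1_norm hV1 hW1 hP v1 v4
    have hF3 : pa1_F Th b X ((p, Y) :: q3 :: l2) = pa1_F Th b X ((p, Y) :: (q3.1, W) :: l3) := by
      change pa1_F Th b Y (q3 :: l2) - cW (Th Y p - Th X p) =
        pa1_F Th b Y ((q3.1, W) :: l3) - cW (Th Y p - Th X p)
      rw [hF2]
    rw [hF3]
    rw [List.length_cons] at hn
    have hn3 : l3.length + 1 = n := by omega
    clear hF3 hF2 hn hl3 v4
    obtain ⟨s, q4⟩ := q3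
    simp only at hv2 ⊢
    obtain ⟨w1, w2, w3, w4⟩ := hv2
    simp only at w1 w2 w3 w4
    have hs : s ∈ Icc a b := ⟨v1.trans w1, w2⟩
    change ∃ L, pa1_F Th b W l3 - cW (Th W s - Th Y s) - cW (Th Y p - Th X p) - vv (Th X a) ≤
      vv (Th L b) - vv (Th L a)
    by_cases hcr : Y ≤ ⌊X⌋ + 1
    · rcases hJ2 Th a b hP X Y p a s v3 hcr ha hp hs v1 w1 with h | h
      · obtain ⟨L, hL⟩ := ih ((s, W) :: l3) (by simpa using hn3) Y ⟨v1.trans w1, w2, w3, w4⟩
        change pa1_F Th b W l3 - cW (Th W s - Th Y s) - vv (Th Y a) ≤ _ at hL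
        refine ⟨L, ?_⟩
        have := pa1_vc hW1 hP ha v3
        linarith
      · obtain ⟨L, hL⟩ := ih ((s, W) :: l3) (by simpa using hn3) X
          ⟨v1.trans w1, w2, v3.trans w3, w4⟩
        change pa1_F Th b W l3 - cW (Th W s - Th X s) - vv (Th X a) ≤ _ at hL
        refine ⟨L, ?_⟩
        have := pa1_sub hW1 hP hs v3 w3
        linarith
    · push Not at hcr
      -- merging at `p` or at `s`
      have hmp : cW (Th W p - Th X p) ≤ cW (Th Y p - Th X p) + cW (Th W s - Th Y s) →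
          ∃ L, pa1_F Th b W l3 - cW (Th W s - Th Y s) - cW (Th Y p - Th X p) - vv (Th X a) ≤
            vv (Th L b) - vv (Th L a) := by
        intro h
        obtain ⟨L, hL⟩ := ih ((p, W) :: l3) (by simpa using hn3) X
          ⟨v1, v2, v3.trans w3, pa1_V_lo w1 w4⟩
        change pa1_F Th b W l3 - cW (Th W p - Th X p) - vv (Th X a) ≤ _ at hL
        exact ⟨L, by linarith⟩
      by_cases hcr2 : W ≤ ⌊Y⌋ + 1
      · cases l3 with
        | nil =>
          rcases hJ2 Th a b hP Y W s p b w3 hcr2 hp hs hb w1 w2 with h | h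
          · apply hmp
            have := pa1_sub hW1 hP hp v3 w3
            linarith
          · obtain ⟨L, hL⟩ := ih [(p, Y)] (by simpa using hn3) X ⟨v1, v2, v3, trivial⟩
            change vv (Th Y b) - cW (Th Y p - Th X p) - vv (Th X a) ≤ _ at hL
            refine ⟨L, ?_⟩
            change vv (Th W b) - cW (Th W s - Th Y s) - cW (Th Y p - Th X p) - vv (Th X a) ≤ _
            have := pa1_vc hW1 hP hb w3
            linarith
        | cons q5 l4 =>
          obtain ⟨x1, x2, x3, x4⟩ := w4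
          have hq5 : q5.1 ∈ Icc a b := ⟨hs.1.trans x1, x2⟩
          rcases hJ2 Th a b hP Y W s p q5.1 w3 hcr2 hp hs hq5 w1 x1 with h | h
          · apply hmp
            have := pa1_sub hW1 hP hp v3 w3
            linarith
          · obtain ⟨L, hL⟩ := ih ((p, Y) :: q5 :: l4) (by simpa using hn3) X
              ⟨v1, v2, v3, w1.trans x1, x2, w3.trans x3, x4⟩
            change pa1_F Th b q5.2 l4 - cW (Th q5.2 q5.1 - Th Y q5.1) - cW (Th Y p - Th X p) -
              vv (Th X a) ≤ _ at hL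
            refine ⟨L, ?_⟩
            change pa1_F Th b q5.2 l4 - cW (Th q5.2 q5.1 - Th W q5.1) - cW (Th W s - Th Y s) -
              cW (Th Y p - Th X p) - vv (Th X a) ≤ _
            have := pa1_sub hW1 hP hq5 w3 x3
            linarith
      · push Not at hcr2
        have e1 : ⌊Y⌋ = ⌊X⌋ + 1 := by
          rw [Int.floor_eq_iff]
          push_cast
          refine ⟨hcr.le, ?_⟩
          have := Int.lt_floor_add_one X
          linarith
        have h1 := Int.lt_floor_add_one X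
        have h2 := Int.lt_floor_add_one Y
        rw [e1] at hcr2 h2
        push_cast at hcr2 h2
        rcases hJ3 Th a b hP (⌊X⌋ + 1) X Y W p s (by push_cast; exact h1) (by push_cast; exact hcr)
          hYX (by push_cast; exact h2) (by push_cast; exact hcr2) hWY hp hs w1 with h | h
        · exact hmp h
        · obtain ⟨L, hL⟩ := ih ((s, W) :: l3) (by simpa using hn3) X
            ⟨v1.trans w1, w2, v3.trans w3, w4⟩
          change pa1_F Th b W l3 - cW (Th W s - Th X s) - vv (Th X a) ≤ _ at hL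
          exact ⟨L, by linarith⟩

end

/-- the list of the jumps -/
noncomputable def pa1_l : ℕ → (ℕ → ℝ) → (ℕ → ℝ) → List (ℝ × ℝ)
  | 0, _, _ => []
  | r + 1, X, c => (c 0, X 1) :: pa1_l r (fun i => X (i + 1)) (fun i => c (i + 1))

theorem pa1_F_l (Th : ℝ → ℝ → ℝ) (b : ℝ) (r : ℕ) (X c : ℕ → ℝ) :
    pa1_F Th b (X 0) (pa1_l r X c) = vv (Th (X r) b) -
      ∑ j ∈ Finset.range r, cW (Th (X (j + 1)) (c j) - Th (X j) (c j)) := by
  induction r generalizing X c with
  | zero => simp [pa1_l, pa1_F]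
  | succ r ih =>
    change pa1_F Th b (X 1) (pa1_l r (fun i => X (i + 1)) (fun i => c (i + 1))) -
      cW (Th (X 1) (c 0) - Th (X 0) (c 0)) = _
    rw [ih (fun i => X (i + 1)) (fun i => c (i + 1)), Finset.sum_range_succ']
    ring

theorem pa1_V_l {b : ℝ} (r : ℕ) (X c : ℕ → ℝ) (lo : ℝ) (hX : ∀ j < r, X j ≤ X (j + 1))
    (hc : ∀ j < r, c j ≤ b) (h0 : ∀ j < r, lo ≤ c j) (hm : ∀ j, j + 1 < r → c j ≤ c (j + 1)) :
    pa1_V b lo (X 0) (pa1_l r X c) := by
  induction r generalizing X c lo with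
  | zero => trivial
  | succ r ih =>
    refine ⟨h0 0 (by omega), hc 0 (by omega), hX 0 (by omega), ?_⟩
    refine ih (fun i => X (i + 1)) (fun i => c (i + 1)) (c 0) (fun j hj => hX (j + 1) (by omega))
      (fun j hj => hc (j + 1) (by omega)) (fun j hj => ?_) (fun j hj => hm (j + 1) (by omega))
    have h1 : ∀ k, k < r + 1 → c 0 ≤ c k := by
      intro k
      induction k with
      | zero => intro _; exact le_rfl
      | succ k ihk => intro hk; exact (ihk (by omega)).trans (hm k hk)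
    exact h1 (j + 1) (by omega)

theorem pa1 (hV1 : V1) (hW1 : W1) (hJ1 : J1) (hJ2 : J2) (hJ3 : J3) : Pa1 := by
  intro Th a b hP r X c hX hc hm
  have hv := pa1_V_l (b := b) r X c a hX (fun j hj => (hc j hj).2) (fun j hj => (hc j hj).1) hm
  obtain ⟨L, hL⟩ := pa1_list hV1 hW1 hJ1 hJ2 hJ3 hP (pa1_l r X c).length _ rfl (X 0) hv
  rw [pa1_F_l] at hL
  refine ⟨L, ?_⟩
  unfold pV
  linarith

end Pool.Agent.Helper40.TV
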