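import Pool.Agent.Helper40.TV.St1

/-!
Piece Pd: the derivative of the phase in `θ`.
-/

set_option autoImplicit false

namespace Pool.Agent.Helper40.TV

open Polynomial Set Real
open Pool.Agent.Helper40.AS (Bdd)

theorem pd_cnt (n : ℕ) (x : ℕ → ℝ) (y : ℝ) (h : ∀ i < n, y ≠ x i) :
    ∀ᶠ y' in nhds y, cnt n x y' = cnt n x y := by
  have h1 : ∀ᶠ y' in nhds y, ∀ i ∈ Finset.range n, (y' < x i ↔ y < x i) := by
    rw [Filter.eventually_all_finset]
    intro i hi
    rcases lt_or_gt_of_ne (h i (Finset.mem_range.mp hi)) with h2 | h2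
    · filter_upwards [Iio_mem_nhds h2] with y' hy'
      exact ⟨fun _ => h2, fun _ => hy'⟩
    · filter_upwards [Ioi_mem_nhds h2] with y' hy'
      exact ⟨fun h3 => absurd h3 (not_lt.mpr (le_of_lt hy')),
        fun h3 => absurd h3 (not_lt.mpr h2.le)⟩
  filter_upwards [h1] with y' hy'
  unfold cnt
  congr 1
  exact Finset.filter_congr hy'

theorem pd_cos {θ : ℝ} (hθ : θ ∈ Ioo 0 π) : cos θ ∈ Ioo (-1 : ℝ) 1 := by
  have h1 : 0 < sin θ := sin_pos_of_pos_of_lt_pi hθ.1 hθ.2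
  have h2 := sin_sq_add_cos_sq θ
  have h3 : cos θ ^ 2 < 1 := by nlinarith
  have h4 : |cos θ| < 1 := by
    rw [← sq_lt_one_iff_abs_lt_one]
    exact h3
  exact abs_lt.mp h4

theorem pd (hPt : Pt) (hAr : Ar) (hCt : Ct) : Pd := by
  intro n κ Z x θ hn hM hθ hne
  have hy := pd_cos hθ
  have hnode : ∀ i < n, cos θ ≠ x i := by
    intro i hi h
    apply hne
    rw [h, hM.val i hi, ← pow_mul, mul_comm, pow_mul]
    norm_num
  obtain ⟨hpos, _⟩ := hAr n κ Z x (cos θ) hn hM hy hnode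
  have hsgn : ((-1 : ℝ) ^ cnt n x (cos θ)) ^ 2 = 1 := by
    rw [← pow_mul, mul_comm, pow_mul]
    norm_num
  set N := cnt n x (cos θ) with hN
  have hev : ph n Z x =ᶠ[nhds θ] fun t => π * N + arccos ((-1) ^ N * Z.eval (cos t)) := by
    have h1 := (continuous_cos.tendsto θ).eventually (pd_cnt n x (cos θ) hnode)
    filter_upwards [h1] with t ht
    unfold ph
    rw [ht]
  have hu : ((-1 : ℝ) ^ N * Z.eval (cos θ)) ^ 2 = Z.eval (cos θ) ^ 2 := by
    rw [mul_pow, hsgn, one_mul]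
  have hu1 : (-1 : ℝ) ^ N * Z.eval (cos θ) ≠ -1 := by
    intro h
    apply hne
    rw [← hu, h]
    norm_num
  have hu2 : (-1 : ℝ) ^ N * Z.eval (cos θ) ≠ 1 := by
    intro h
    apply hne
    rw [← hu, h]
    norm_num
  have hZ : HasDerivAt (fun t => (-1 : ℝ) ^ N * Z.eval (cos t))
      ((-1) ^ N * (Z.derivative.eval (cos θ) * (-sin θ))) θ :=
    ((Z.hasDerivAt (cos θ)).comp θ (hasDerivAt_cos θ)).const_mul _
  have hA := (hasDerivAt_arccos hu1 hu2).comp θ hZ
  have hB := hA.const_add (π * N)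
  refine (hB.congr_of_eventuallyEq hev).congr_deriv ?_
  rw [hu]
  have habs : |Z.derivative.eval (cos θ)| = (-1) ^ N * Z.derivative.eval (cos θ) := by
    rw [← abs_of_pos hpos, abs_mul, abs_pow, abs_neg, abs_one, one_pow, one_mul]
  rw [habs]
  ring

end Pool.Agent.Helper40.TV
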