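import Pool.Agent.Helper40.TV.St1

/-!
The phase as a function of the parameter: strictly decreasing, continuous, and the values at the
end points.
-/

set_option autoImplicit false

namespace Pool.Agent.Helper40.TV

open Polynomial Set Real
open Pool.Agent.Helper40.AS (Bdd)

theorem pk_cos_le {k : ℕ} {a b : ℝ} (ha : k * π ≤ a) (hab : a ≤ b) (hb : b ≤ (k + 1) * π) :
    (-1) ^ k * cos b ≤ (-1) ^ k * cos a := by
  rw [← Real.cos_sub_nat_mul_pi, ← Real.cos_sub_nat_mul_pi]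
  exact cos_le_cos_of_nonneg_of_le_pi (by linarith) (by linarith) (by linarith)

theorem pk_inj {k : ℕ} {a b : ℝ} (ha : k * π ≤ a) (ha' : a ≤ (k + 1) * π) (hb : k * π ≤ b)
    (hb' : b ≤ (k + 1) * π) (h : cos a = cos b) : a = b := by
  have h1 : cos (a - k * π) = cos (b - k * π) := by
    rw [Real.cos_sub_nat_mul_pi, Real.cos_sub_nat_mul_pi, h]
  have h2 := injOn_cos (⟨by linarith, by linarith⟩ : a - k * π ∈ Icc 0 π)
    (⟨by linarith, by linarith⟩ : b - k * π ∈ Icc 0 π) h1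
  linarith

theorem pk_nonneg (n : ℕ) (Z : ℝ[X]) (x : ℕ → ℝ) (θ : ℝ) : 0 ≤ ph n Z x θ := by
  unfold ph
  have h1 := arccos_nonneg ((-1) ^ cnt n x (cos θ) * Z.eval (cos θ))
  have h2 : 0 ≤ π * cnt n x (cos θ) := mul_nonneg pi_pos.le (Nat.cast_nonneg _)
  linarith

theorem pk_le (n : ℕ) (Z : ℝ[X]) (x : ℕ → ℝ) (θ : ℝ) : ph n Z x θ ≤ (n + 1) * π := by
  unfold ph
  have h1 := arccos_le_pi ((-1) ^ cnt n x (cos θ) * Z.eval (cos θ))
  have h2 : cnt n x (cos θ) ≤ n := by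
    classical
    unfold cnt
    refine (Finset.card_filter_le _ _).trans ?_
    rw [Finset.card_range]
  have h3 : π * (cnt n x (cos θ) : ℝ) ≤ π * n :=
    mul_le_mul_of_nonneg_left (by exact_mod_cast h2) pi_pos.le
  linarith

theorem pk_lt (hPt : Pt) {n : ℕ} {κ : ℝ} {Z : ℝ[X]} {x : ℕ → ℝ} (hn : 3 ≤ n) (hM : Mem n κ Z x)
    {θ : ℝ} (hθ : θ ∈ Icc 0 π) {i : ℕ} (hi : i < n) :
    (n - i : ℝ) * π < ph n Z x θ ↔ cos θ < x i := by
  obtain ⟨-, h1, -, h2⟩ := hPt n κ Z x hn hM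
  have hx := hM.mem i hi
  rw [← h2 i hi, h1.lt_iff_lt ⟨arccos_nonneg _, arccos_le_pi _⟩ hθ]
  conv_rhs => rw [← cos_arccos hx.1 hx.2]
  exact (strictAntiOn_cos.lt_iff_gt hθ ⟨arccos_nonneg _, arccos_le_pi _⟩).symm

theorem pk_gt (hPt : Pt) {n : ℕ} {κ : ℝ} {Z : ℝ[X]} {x : ℕ → ℝ} (hn : 3 ≤ n) (hM : Mem n κ Z x)
    {θ : ℝ} (hθ : θ ∈ Icc 0 π) {i : ℕ} (hi : i < n) :
    ph n Z x θ < (n - i : ℝ) * π ↔ x i < cos θ := by
  obtain ⟨-, h1, -, h2⟩ := hPt n κ Z x hn hM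
  have hx := hM.mem i hi
  rw [← h2 i hi, h1.lt_iff_lt hθ ⟨arccos_nonneg _, arccos_le_pi _⟩]
  conv_rhs => rw [← cos_arccos hx.1 hx.2]
  exact (strictAntiOn_cos.lt_iff_gt ⟨arccos_nonneg _, arccos_le_pi _⟩ hθ).symm

theorem pk_mono (hCp : Cp) (hPt : Pt) {n : ℕ} {κ κ' : ℝ} {Z Z' : ℝ[X]} {x x' : ℕ → ℝ}
    (hn : 3 ≤ n) (hκ : κ' < κ) (hM : Mem n κ Z x) (hM' : Mem n κ' Z' x') {θ : ℝ}
    (hθ : θ ∈ Ioo 0 π) : ph n Z x θ < ph n Z' x' θ := by
  have hθ' : θ ∈ Icc 0 π := Ioo_subset_Icc_self hθ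
  obtain ⟨⟨ζ, hζ, hE⟩, hx⟩ := hCp n κ κ' Z Z' x x' hn hκ hM hM'
  set y := cos θ with hy
  have hy1 : y ∈ Ioo (-1 : ℝ) 1 := by
    constructor
    · rw [hy, ← cos_pi]
      exact cos_lt_cos_of_nonneg_of_le_pi hθ.1.le le_rfl hθ.2
    · rw [hy, ← cos_zero]
      exact cos_lt_cos_of_nonneg_of_le_pi le_rfl hθ.2.le hθ.1
  -- if the phase of `Z` is at least `(n - i) π`, the other one is larger than that
  have key : ∀ i < n, (n - i : ℝ) * π ≤ ph n Z x θ → (n - i : ℝ) * π < ph n Z' x' θ := by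
    intro i hi h
    rw [pk_lt hPt hn hM' hθ' hi]
    have h1 : y ≤ x i := by
      by_contra hc
      exact absurd ((pk_gt hPt hn hM hθ' hi).2 (not_le.1 hc)) (not_lt.2 h)
    rcases h1.lt_or_eq with h2 | h2
    · exact h2.trans_le (hx i hi).1
    · rw [← hy, h2]
      exact (hx i hi).2 (h2 ▸ hy1)
  by_contra hc
  push Not at hc
  set A := ph n Z x θ with hA
  set B := ph n Z' x' θ with hB
  -- both phases are in the same interval
  obtain ⟨k, hk, hk1, hk2⟩ : ∃ k : ℕ, k ≤ n ∧ k * π ≤ B ∧ A ≤ (k + 1) * π := by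
    rcases le_or_gt ((n : ℝ) * π) B with h | h
    · exact ⟨n, le_rfl, h, pk_le _ _ _ _⟩
    · have hB0 : 0 ≤ B / π := div_nonneg (pk_nonneg _ _ _ _) pi_pos.le
      have h1 := Nat.floor_le hB0
      have h2 := Nat.lt_floor_add_one (B / π)
      rw [le_div_iff₀ pi_pos] at h1
      rw [div_lt_iff₀ pi_pos] at h2
      have h3 : ⌊B / π⌋₊ < n := by
        have h4 : (⌊B / π⌋₊ : ℝ) * π < n * π := h1.trans_lt h
        exact_mod_cast lt_of_mul_lt_mul_right h4 pi_pos.le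
      refine ⟨⌊B / π⌋₊, h3.le, h1, ?_⟩
      by_contra h5
      push Not at h5
      have h6 : ((n : ℝ) - (n - (⌊B / π⌋₊ + 1) : ℕ)) = (⌊B / π⌋₊ : ℝ) + 1 := by
        rw [Nat.cast_sub (by omega)]
        push_cast
        ring
      have h7 := key (n - (⌊B / π⌋₊ + 1)) (by omega) (by rw [h6]; exact h5.le)
      rw [h6] at h7
      exact absurd h7 (not_lt.2 h2.le)
  have hc1 : (-1 : ℝ) ^ k * cos A ≤ (-1) ^ k * cos B := pk_cos_le hk1 hc hk2
  have hcA : cos A = Z.eval y := (hPt n κ Z x hn hM).2.2.1 θ hθ'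
  have hcB : cos B = Z'.eval y := (hPt n κ' Z' x' hn hM').2.2.1 θ hθ'
  have hc2 : (-1 : ℝ) ^ k * (Z - Z').eval y ≤ 0 := by
    rw [eval_sub, ← hcA, ← hcB, mul_sub]
    linarith
  -- the sign of each factor
  have hs1 : ∀ i < n, n - k ≤ i → 0 < ζ i - y := by
    intro i hi hik
    have h1 : (n - i : ℝ) ≤ k := by
      have : n ≤ k + i := by omega
      have : (n : ℝ) ≤ k + i := by exact_mod_cast this
      linarith
    have h2 : (n - i : ℝ) * π ≤ k * π := mul_le_mul_of_nonneg_right h1 pi_pos.le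
    have h3 : (n - i : ℝ) * π ≤ A := h2.trans (hk1.trans hc)
    have h4 : y ≤ x i := by
      by_contra hc
      exact absurd ((pk_gt hPt hn hM hθ' hi).2 (not_le.1 hc)) (not_lt.2 h3)
    refine sub_pos.2 (lt_of_le_of_ne (h4.trans (hζ i hi).1) fun h5 => ?_)
    have h6 : x i = y := le_antisymm (h5 ▸ (hζ i hi).1) h4
    have h7 : ¬ (n - i : ℝ) * π < A := by
      rw [pk_lt hPt hn hM hθ' hi, h6]
      exact lt_irrefl _
    have h8 := key i hi h3
    linarith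
  have hs2 : ∀ i < n, i < n - k → 0 < y - ζ i := by
    intro i hi hik
    have h1 : (k + 1 : ℝ) ≤ n - i := by
      have : k + 1 + i ≤ n := by omega
      have : ((k : ℝ) + 1 + i) ≤ n := by exact_mod_cast this
      linarith
    have h2 : (k + 1 : ℝ) * π ≤ (n - i : ℝ) * π := mul_le_mul_of_nonneg_right h1 pi_pos.le
    have h4 : x' i ≤ y := by
      by_contra hc'
      have := (pk_lt hPt hn hM' hθ' hi).2 (not_le.1 hc')
      linarith
    refine sub_pos.2 (lt_of_le_of_ne ((hζ i hi).2.trans h4) fun h5 => ?_)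
    have h6 : x' i = y := le_antisymm h4 (h5 ▸ (hζ i hi).2)
    have h7 : ¬ B < (n - i : ℝ) * π := by
      rw [pk_gt hPt hn hM' hθ' hi, h6]
      exact lt_irrefl _
    have h8 := key i hi (by linarith)
    linarith
  have hpos : 0 < (-1 : ℝ) ^ k * (Z - Z').eval y := by
    have h1 : (om n ζ).eval y = ∏ i ∈ Finset.range n, (y - ζ i) := by
      unfold om
      rw [eval_prod]
      exact Finset.prod_congr rfl fun i _ => by rw [eval_sub, eval_X, eval_C]
    have h2 : (-1 : ℝ) ^ k * ∏ i ∈ Finset.range n, (y - ζ i) =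
        (∏ i ∈ Finset.range (n - k), (y - ζ i)) * ∏ i ∈ Finset.Ico (n - k) n, (ζ i - y) := by
      have h3 : ∏ i ∈ Finset.Ico (n - k) n, (ζ i - y) =
          (-1 : ℝ) ^ k * ∏ i ∈ Finset.Ico (n - k) n, (y - ζ i) := by
        have h4 : ∀ i ∈ Finset.Ico (n - k) n, ζ i - y = (-1) * (y - ζ i) := fun i _ => by ring
        rw [Finset.prod_congr rfl h4, Finset.prod_mul_distrib, Finset.prod_const, Nat.card_Ico]
        congr 2
        omega
      rw [h3, ← Finset.prod_range_mul_prod_Ico (fun i => y - ζ i) (Nat.sub_le n k)]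
      ring
    rw [hE, eval_mul, eval_C, h1, mul_left_comm, h2]
    refine mul_pos (mul_pos (sub_pos.2 hκ) (by positivity)) (mul_pos ?_ ?_)
    · exact Finset.prod_pos fun i hi => by
        have := Finset.mem_range.1 hi
        exact hs2 i (by omega) this
    · exact Finset.prod_pos fun i hi => by
        have := Finset.mem_Ico.1 hi
        exact hs1 i this.2 this.1
  linarith

theorem pk_one (hUn : Un) (hPt : Pt) (hSp : Sp) {n : ℕ} (hn : 3 ≤ n) (hEx : Ex) {θ : ℝ}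
    (hθ : θ ∈ Ioo 0 π) : Ph n 1 θ = n * θ := by
  have hθ' : θ ∈ Icc 0 π := Ioo_subset_Icc_self hθ
  have hM := mem_c (hEx n 1 hn ⟨by norm_num, le_rfl⟩)
  obtain ⟨hZ, hX⟩ := hUn n 1 _ _ _ _ hn hM (hSp n hn).1
  have hn0 : (0 : ℝ) < n := by exact_mod_cast (by omega : 0 < n)
  have hc : cos (Ph n 1 θ) = cos (n * θ) := by
    have h1 := (hPt n 1 _ _ hn hM).2.2.1 θ hθ'
    rw [hZ] at h1
    unfold Ph
    rw [hZ, h1, Polynomial.Chebyshev.T_real_cos]
    push_cast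
    rfl
  -- the phase at the nodes
  have hnode : ∀ m : ℕ, 1 ≤ m → m ≤ n →
      (m * π < Ph n 1 θ ↔ cos θ < cos (m * π / n)) ∧
      (Ph n 1 θ < m * π ↔ cos (m * π / n) < cos θ) := by
    intro m hm hmn
    have h1 : ((n : ℝ) - (n - m : ℕ)) = m := by
      rw [Nat.cast_sub hmn]
      ring
    have h2 := pk_lt hPt hn hM hθ' (show n - m < n by omega)
    have h3 := pk_gt hPt hn hM hθ' (show n - m < n by omega)
    rw [hX (n - m) (by omega), h1] at h2 h3
    exact ⟨h2, h3⟩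
  have hfl0 : 0 ≤ n * θ / π := by have := hθ.1; positivity
  set m := ⌊n * θ / π⌋₊ with hm
  have h1 := Nat.floor_le hfl0
  have h2 := Nat.lt_floor_add_one (n * θ / π)
  rw [← hm] at h1 h2
  rw [le_div_iff₀ pi_pos] at h1
  rw [div_lt_iff₀ pi_pos] at h2
  have hmn : m < n := by
    have h3 : (m : ℝ) * π < n * π := h1.trans_lt (mul_lt_mul_of_pos_left hθ.2 hn0)
    exact_mod_cast lt_of_mul_lt_mul_right h3 pi_pos.le
  refine pk_inj (k := m) ?_ ?_ h1 h2.le hc
  · rcases Nat.eq_zero_or_pos m with h0 | h0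
    · rw [h0, Nat.cast_zero, zero_mul]
      exact pk_nonneg _ _ _ _
    · by_contra hcon
      have h3 := ((hnode m h0 hmn.le).2).1 (not_le.1 hcon)
      have h4 : (m : ℝ) * π / n ≤ θ := by
        rw [div_le_iff₀ hn0]
        linarith
      have h5 : cos θ ≤ cos (m * π / n) :=
        cos_le_cos_of_nonneg_of_le_pi (by positivity) hθ.2.le h4
      linarith
  · by_contra hcon
    have h3 := ((hnode (m + 1) (by omega) (by omega)).1).1 (by push_cast; exact not_le.1 hcon)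
    have h4 : θ ≤ ((m + 1 : ℕ) : ℝ) * π / n := by
      rw [le_div_iff₀ hn0]
      push_cast
      linarith
    have h5 : cos (((m + 1 : ℕ) : ℝ) * π / n) ≤ cos θ := by
      refine cos_le_cos_of_nonneg_of_le_pi hθ.1.le ?_ h4
      rw [div_le_iff₀ hn0]
      have h6 : ((m + 1 : ℕ) : ℝ) ≤ n := by exact_mod_cast hmn
      nlinarith [pi_pos]
    linarith

theorem pk_neg_one (hUn : Un) (hPt : Pt) (hSp : Sp) {n : ℕ} (hn : 3 ≤ n) (hEx : Ex) {θ : ℝ}
    (hθ : θ ∈ Ioo 0 π) : Ph n (-1) θ = n * θ + π := by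
  have hθ' : θ ∈ Icc 0 π := Ioo_subset_Icc_self hθ
  have hM := mem_c (hEx n (-1) hn ⟨le_rfl, by norm_num⟩)
  obtain ⟨hZ, hX⟩ := hUn n (-1) _ _ _ _ hn hM (hSp n hn).2.1
  have hn0 : (0 : ℝ) < n := by exact_mod_cast (by omega : 0 < n)
  have hc : cos (Ph n (-1) θ) = cos (n * θ + π) := by
    have h1 := (hPt n (-1) _ _ hn hM).2.2.1 θ hθ'
    rw [hZ] at h1
    unfold Ph
    rw [hZ, h1, eval_neg, Polynomial.Chebyshev.T_real_cos, cos_add_pi]
    push_cast
    rfl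
  -- the phase at the nodes
  have hnode : ∀ m : ℕ, m < n →
      ((m + 1) * π < Ph n (-1) θ ↔ cos θ < cos (m * π / n)) ∧
      (Ph n (-1) θ < (m + 1) * π ↔ cos (m * π / n) < cos θ) := by
    intro m hmn
    have h1 : ((n : ℝ) - (n - 1 - m : ℕ)) = m + 1 := by
      rw [Nat.cast_sub (by omega), Nat.cast_sub (by omega)]
      push_cast
      ring
    have h1' : ((n : ℝ) - 1 - (n - 1 - m : ℕ)) = m := by
      linarith
    have h2 := pk_lt hPt hn hM hθ' (show n - 1 - m < n by omega)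
    have h3 := pk_gt hPt hn hM hθ' (show n - 1 - m < n by omega)
    rw [hX (n - 1 - m) (by omega), h1, h1'] at h2 h3
    exact ⟨h2, h3⟩
  have hfl0 : 0 ≤ n * θ / π := by have := hθ.1; positivity
  set m := ⌊n * θ / π⌋₊ with hm
  have h1 := Nat.floor_le hfl0
  have h2 := Nat.lt_floor_add_one (n * θ / π)
  rw [← hm] at h1 h2
  rw [le_div_iff₀ pi_pos] at h1
  rw [div_lt_iff₀ pi_pos] at h2
  have hmn : m < n := by
    have h3 : (m : ℝ) * π < n * π := h1.trans_lt (mul_lt_mul_of_pos_left hθ.2 hn0)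
    exact_mod_cast lt_of_mul_lt_mul_right h3 pi_pos.le
  refine pk_inj (k := m + 1) ?_ ?_ (by push_cast; linarith) (by push_cast; linarith) hc
  · by_contra hcon
    have h3 := ((hnode m hmn).2).1 (by push_cast at hcon; exact not_le.1 hcon)
    have h4 : (m : ℝ) * π / n ≤ θ := by
      rw [div_le_iff₀ hn0]
      linarith
    have h5 : cos θ ≤ cos (m * π / n) :=
      cos_le_cos_of_nonneg_of_le_pi (by positivity) hθ.2.le h4
    linarith
  · rcases Nat.lt_or_ge (m + 1) n with h0 | h0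
    · by_contra hcon
      have h3 := ((hnode (m + 1) h0).1).1 (by exact not_le.1 hcon)
      have h4 : θ ≤ ((m + 1 : ℕ) : ℝ) * π / n := by
        rw [le_div_iff₀ hn0]
        push_cast
        linarith
      have h5 : cos (((m + 1 : ℕ) : ℝ) * π / n) ≤ cos θ := by
        refine cos_le_cos_of_nonneg_of_le_pi hθ.1.le ?_ h4
        rw [div_le_iff₀ hn0]
        have h6 : ((m + 1 : ℕ) : ℝ) ≤ n := by exact_mod_cast h0.le
        nlinarith [pi_pos]
      linarith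
    · have h3 : m + 1 = n := by omega
      rw [h3]
      exact pk_le _ _ _ _

theorem pk_cont_eval (hEx : Ex) (hCp : Cp) {n : ℕ} (hn : 3 ≤ n) {y : ℝ}
    (hy : y ∈ Icc (-1 : ℝ) 1) : ContinuousOn (fun κ => (Zc n κ).eval y) (Icc (-1 : ℝ) 1) := by
  have key : ∀ κ ∈ Icc (-1 : ℝ) 1, ∀ κ' ∈ Icc (-1 : ℝ) 1, κ' < κ →
      |(Zc n κ).eval y - (Zc n κ').eval y| ≤ (2 ^ (n - 1) * 2 ^ n) * (κ - κ') := by
    intro κ hκ κ' hκ' h
    have hM := mem_c (hEx n κ hn hκ)
    have hM' := mem_c (hEx n κ' hn hκ')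
    obtain ⟨⟨ζ, hζ, hE⟩, -⟩ := hCp n κ κ' _ _ _ _ hn h hM hM'
    have h1 : (om n ζ).eval y = ∏ i ∈ Finset.range n, (y - ζ i) := by
      unfold om
      rw [eval_prod]
      exact Finset.prod_congr rfl fun i _ => by rw [eval_sub, eval_X, eval_C]
    have h2 : |∏ i ∈ Finset.range n, (y - ζ i)| ≤ 2 ^ n := by
      rw [Finset.abs_prod]
      refine (Finset.prod_le_prod (fun i _ => abs_nonneg _) (g := fun _ => (2 : ℝ))
        fun i hi => ?_).trans (by rw [Finset.prod_const, Finset.card_range])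
      have hi' := Finset.mem_range.1 hi
      have h3 := (hM.mem i hi').1
      have h4 := (hM'.mem i hi').2
      have h5 := hζ i hi'
      rw [abs_le]
      constructor
      · linarith [hy.1, h5.2]
      · linarith [hy.2, h5.1]
    have h3 : 0 < (κ - κ') * 2 ^ (n - 1) := mul_pos (sub_pos.2 h) (by positivity)
    rw [← eval_sub, hE, eval_mul, eval_C, h1, abs_mul, abs_of_pos h3]
    calc (κ - κ') * 2 ^ (n - 1) * |∏ i ∈ Finset.range n, (y - ζ i)|
        ≤ (κ - κ') * 2 ^ (n - 1) * 2 ^ n := mul_le_mul_of_nonneg_left h2 h3.le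
      _ = (2 ^ (n - 1) * 2 ^ n) * (κ - κ') := by ring
  refine LipschitzOnWith.continuousOn (K := ⟨2 ^ (n - 1) * 2 ^ n, by positivity⟩)
    (LipschitzOnWith.of_dist_le_mul fun κ hκ κ' hκ' => ?_)
  rw [Real.dist_eq, Real.dist_eq]
  show |(Zc n κ).eval y - (Zc n κ').eval y| ≤ (2 ^ (n - 1) * 2 ^ n) * |κ - κ'|
  rcases lt_trichotomy κ κ' with h | h | h
  · rw [abs_sub_comm, abs_sub_comm κ κ', abs_of_pos (sub_pos.2 h)]
    exact key κ' hκ' κ hκ h
  · rw [h, sub_self, sub_self, abs_zero, mul_zero]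
  · rw [abs_of_pos (sub_pos.2 h)]
    exact key κ hκ κ' hκ' h

open Filter Topology in
theorem pk (hEx : Ex) (hUn : Un) (hCp : Cp) (_hCt : Ct) (hNk : Nk) (_hNl : Nl) (hPt : Pt)
    (hSp : Sp) : Pk := by
  intro n θ hn hθ
  have hθ' : θ ∈ Icc 0 π := Ioo_subset_Icc_self hθ
  have h1 := pk_one hUn hPt hSp hn hEx hθ
  have h2 := pk_neg_one hUn hPt hSp hn hEx hθ
  have hM : ∀ κ ∈ Icc (-1 : ℝ) 1, Mem n κ (Zc n κ) (xc n κ) := fun κ hκ =>
    mem_c (hEx n κ hn hκ)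
  have hanti : StrictAntiOn (fun κ => Ph n κ θ) (Icc (-1 : ℝ) 1) := fun κ' hκ' κ hκ h =>
    pk_mono hCp hPt hn h (hM κ hκ) (hM κ' hκ') hθ
  refine ⟨hanti, fun κ₀ hκ₀ => ?_, h1, h2⟩
  have hpi := pi_pos
  have hn0 : (0 : ℝ) < n := by exact_mod_cast (by omega : 0 < n)
  have hlow : ∀ κ ∈ Icc (-1 : ℝ) 1, 0 < Ph n κ θ := by
    intro κ hκ
    have h3 : Ph n 1 θ ≤ Ph n κ θ := hanti.antitoneOn hκ ⟨by norm_num, le_rfl⟩ hκ.2
    rw [h1] at h3
    exact (mul_pos hn0 hθ.1).trans_le h3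
  have hupp : ∀ κ ∈ Icc (-1 : ℝ) 1, Ph n κ θ < (n + 1) * π := by
    intro κ hκ
    have h3 : Ph n κ θ ≤ Ph n (-1) θ := hanti.antitoneOn ⟨le_rfl, by norm_num⟩ hκ hκ.1
    rw [h2] at h3
    have h4 : n * θ < n * π := mul_lt_mul_of_pos_left hθ.2 hn0
    linarith
  -- no jumps over multiples of `π`
  have hup : ∀ m : ℕ, Ph n κ₀ θ < m * π → ∀ᶠ κ in 𝓝[Icc (-1 : ℝ) 1] κ₀, Ph n κ θ < m * π := by
    intro m hm
    rcases Nat.eq_zero_or_pos m with h0 | h0
    · rw [h0, Nat.cast_zero, zero_mul] at hm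
      exact absurd (hlow κ₀ hκ₀) (not_lt.2 hm.le)
    rcases Nat.lt_or_ge n m with h3 | h3
    · have h4 : ((n : ℝ) + 1) * π ≤ m * π :=
        mul_le_mul_of_nonneg_right (by exact_mod_cast h3) hpi.le
      filter_upwards [self_mem_nhdsWithin] with κ hκ
      exact (hupp κ hκ).trans_le h4
    · have h4 : ((n : ℝ) - (n - m : ℕ)) = m := by
        rw [Nat.cast_sub h3]
        ring
      have h5 := (pk_gt hPt hn (hM κ₀ hκ₀) hθ' (show n - m < n by omega)).1
        (by rw [h4]; exact hm)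
      have h6 := (hNk n hn (n - m) (by omega) κ₀ hκ₀).eventually_lt_const h5
      filter_upwards [self_mem_nhdsWithin, h6] with κ hκ h7
      have h8 := (pk_gt hPt hn (hM κ hκ) hθ' (show n - m < n by omega)).2 h7
      rw [h4] at h8
      exact h8
  have hlo : ∀ m : ℕ, m * π < Ph n κ₀ θ → ∀ᶠ κ in 𝓝[Icc (-1 : ℝ) 1] κ₀, m * π < Ph n κ θ := by
    intro m hm
    rcases Nat.eq_zero_or_pos m with h0 | h0
    · filter_upwards [self_mem_nhdsWithin] with κ hκ
      rw [h0, Nat.cast_zero, zero_mul]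
      exact hlow κ hκ
    rcases Nat.lt_or_ge n m with h3 | h3
    · have h4 : ((n : ℝ) + 1) * π ≤ m * π :=
        mul_le_mul_of_nonneg_right (by exact_mod_cast h3) hpi.le
      exact absurd (hupp κ₀ hκ₀) (not_lt.2 (h4.trans hm.le))
    · have h4 : ((n : ℝ) - (n - m : ℕ)) = m := by
        rw [Nat.cast_sub h3]
        ring
      have h5 := (pk_lt hPt hn (hM κ₀ hκ₀) hθ' (show n - m < n by omega)).1
        (by rw [h4]; exact hm)
      have h6 := (hNk n hn (n - m) (by omega) κ₀ hκ₀).eventually_const_lt h5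
      filter_upwards [self_mem_nhdsWithin, h6] with κ hκ h7
      have h8 := (pk_lt hPt hn (hM κ hκ) hθ' (show n - m < n by omega)).2 h7
      rw [h4] at h8
      exact h8
  have hg := pk_cont_eval hEx hCp hn (y := cos θ) ⟨neg_one_le_cos θ, cos_le_one θ⟩ κ₀ hκ₀
  have hcos : ∀ κ ∈ Icc (-1 : ℝ) 1, cos (Ph n κ θ) = (Zc n κ).eval (cos θ) := fun κ hκ =>
    (hPt n κ _ _ hn (hM κ hκ)).2.2.1 θ hθ'
  have hfl0 : 0 ≤ Ph n κ₀ θ / π := div_nonneg (hlow κ₀ hκ₀).le hpi.le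
  obtain ⟨k, hk⟩ : ∃ k : ℕ, k = ⌊Ph n κ₀ θ / π⌋₊ := ⟨_, rfl⟩
  have h3 := Nat.floor_le hfl0
  have h4 := Nat.lt_floor_add_one (Ph n κ₀ θ / π)
  rw [← hk] at h3 h4
  rw [le_div_iff₀ hpi] at h3
  rw [div_lt_iff₀ hpi] at h4
  have hF : ContinuousWithinAt (fun κ => arccos ((-1) ^ k * (Zc n κ).eval (cos θ)))
      (Icc (-1 : ℝ) 1) κ₀ :=
    continuous_arccos.continuousAt.comp_continuousWithinAt (hg.const_mul _)
  have hup' := hup (k + 1) (by push_cast; exact h4)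
  rcases h3.lt_or_eq with h5 | h5
  · -- inside an interval
    have hlo' := hlo k h5
    have hev : ∀ κ ∈ Icc (-1 : ℝ) 1, k * π < Ph n κ θ → Ph n κ θ < (k + 1 : ℕ) * π →
        Ph n κ θ = k * π + arccos ((-1) ^ k * (Zc n κ).eval (cos θ)) := by
      intro κ hκ h6 h7
      push_cast at h7
      rw [← hcos κ hκ, ← Real.cos_sub_nat_mul_pi, arccos_cos (by linarith) (by linarith)]
      ring
    refine (hF.const_add (k * π)).congr_of_eventuallyEq ?_
      (hev κ₀ hκ₀ h5 (by push_cast; exact h4))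
    filter_upwards [self_mem_nhdsWithin, hup', hlo'] with κ hκ h6 h7
    exact hev κ hκ h7 h6
  · -- at a multiple of `π`
    have hk1 : 1 ≤ k := by
      rcases Nat.eq_zero_or_pos k with h6 | h6
      · rw [h6, Nat.cast_zero, zero_mul] at h5
        exact absurd (hlow κ₀ hκ₀) (by rw [← h5]; exact lt_irrefl _)
      · exact h6
    have hcast : ((k - 1 : ℕ) : ℝ) = k - 1 := by
      rw [Nat.cast_sub hk1, Nat.cast_one]
    have hlo' := hlo (k - 1) (by rw [hcast]; linarith)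
    have hev : ∀ κ ∈ Icc (-1 : ℝ) 1, (k - 1 : ℕ) * π < Ph n κ θ → Ph n κ θ < (k + 1 : ℕ) * π →
        |Ph n κ θ - k * π| = arccos ((-1) ^ k * (Zc n κ).eval (cos θ)) := by
      intro κ hκ h6 h7
      rw [hcast] at h6
      push_cast at h7
      rw [← hcos κ hκ, ← Real.cos_sub_nat_mul_pi, ← cos_abs, arccos_cos (abs_nonneg _)]
      rw [abs_le]
      constructor <;> linarith
    have h6 : arccos ((-1) ^ k * (Zc n κ₀).eval (cos θ)) = 0 := by
      rw [← hev κ₀ hκ₀ (by rw [hcast]; linarith) (by push_cast; exact h4), ← h5, sub_self,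
        abs_zero]
    have hT : Tendsto (fun κ => |Ph n κ θ - k * π|) (𝓝[Icc (-1 : ℝ) 1] κ₀) (𝓝 0) := by
      have h7 : Tendsto (fun κ => arccos ((-1) ^ k * (Zc n κ).eval (cos θ)))
          (𝓝[Icc (-1 : ℝ) 1] κ₀) (𝓝 0) := by
        have h8 := hF.tendsto
        rwa [h6] at h8
      refine h7.congr' ?_
      filter_upwards [self_mem_nhdsWithin, hup', hlo'] with κ hκ h8 h9
      exact (hev κ hκ h9 h8).symm
    have hT2 : Tendsto (fun κ => Ph n κ θ - k * π) (𝓝[Icc (-1 : ℝ) 1] κ₀) (𝓝 0) :=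
      (tendsto_zero_iff_abs_tendsto_zero _).2 hT
    have hT3 := hT2.add_const (k * π)
    rw [zero_add] at hT3
    show Tendsto (fun κ => Ph n κ θ) (𝓝[Icc (-1 : ℝ) 1] κ₀) (𝓝 (Ph n κ₀ θ))
    rw [← h5]
    exact hT3.congr fun κ => by ring

end Pool.Agent.Helper40.TV
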