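import Pool.Agent.Helper40.TV.St1

set_option autoImplicit false

namespace Pool.Agent.Helper40.TV

open Polynomial Set Real
open Pool.Agent.Helper40.AS (Bdd)

noncomputable section

/-- Bernstein-Szego for algebraic polynomials -/
theorem pl_bs {n : ℕ} (hn : 1 ≤ n) {P : ℝ[X]} (hdeg : P.natDegree ≤ n) (hb : Bdd P) (θ : ℝ) :
    (sin θ * P.derivative.eval (cos θ)) ^ 2 + (n : ℝ) ^ 2 * P.eval (cos θ) ^ 2 ≤ (n : ℝ) ^ 2 := by
  have hf' : ∀ θ : ℝ, HasDerivAt (fun θ => -(sin θ * P.derivative.eval (cos θ)))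
      (sin θ ^ 2 * P.derivative.derivative.eval (cos θ) -
        cos θ * P.derivative.eval (cos θ)) θ := by
    intro θ
    have h1 := (P.derivative.hasDerivAt (cos θ)).comp θ (hasDerivAt_cos θ)
    have h2 := ((hasDerivAt_sin θ).mul h1).neg
    refine (h2.congr_deriv ?_)
    simp only [Function.comp_apply]
    ring
  have hbs := Arc.bs_both hn (Arc.FF_natDegree n P) (fun θ => Arc.FF_eval hdeg θ)
    (AS.eval_cos_deriv P) hf' (fun θ => hb _ ⟨neg_one_le_cos θ, cos_le_one θ⟩) θ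
  have h1 := hbs.1
  nlinarith [h1]

theorem pl_ne {n : ℕ} {κ : ℝ} {Z : ℝ[X]} {x : ℕ → ℝ} (hn : 3 ≤ n)
    (h : Mem n κ Z x) : Z ^ 2 - 1 ≠ 0 := by
  intro h0
  have h1 : (Z - 1) * (Z + 1) = 0 := by
    rw [← h0]
    ring
  have h2 := h.val 0 (by omega)
  have h3 := h.val 1 (by omega)
  have h4 : n - 0 = (n - 1) + 1 := by omega
  rw [h4, pow_succ] at h2
  have h5 : (-1 : ℝ) ^ (n - 1) ≠ 0 := pow_ne_zero _ (by norm_num)
  rcases mul_eq_zero.1 h1 with h6 | h6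
  · have h7 : Z = 1 := sub_eq_zero.1 h6
    rw [h7, eval_one] at h2 h3
    rw [← h3] at h2
    norm_num at h2
  · have h7 : Z = -1 := eq_neg_of_add_eq_zero_left h6
    rw [h7, eval_neg, eval_one] at h2 h3
    rw [← h3] at h2
    norm_num at h2

theorem pl_fin {n : ℕ} {κ : ℝ} {Z : ℝ[X]} {x : ℕ → ℝ} (hn : 3 ≤ n)
    (h : Mem n κ Z x) : {t : ℝ | t ∈ Icc 0 π ∧ Z.eval (cos t) ^ 2 = 1}.Finite := by
  apply Set.Finite.of_finite_image (f := cos)
  · refine ((Z ^ 2 - 1).roots.toFinset.finite_toSet).subset ?_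
    rintro _ ⟨t, ht, rfl⟩
    rw [Finset.mem_coe, Multiset.mem_toFinset, mem_roots (pl_ne hn h), IsRoot.def, eval_sub,
      eval_pow, eval_one, ht.2, sub_self]
  · intro s hs t ht hst
    exact injOn_cos hs.1 ht.1 hst

theorem pl (hPt : Pt) (hPd : Pd) (hMo : Mo) : Pl := by
  intro n κ Z x hn h θ hθ η hη hle
  obtain ⟨h1, -, -, -⟩ := hPt n κ Z x hn h
  have hn0 : (0 : ℝ) ≤ n := Nat.cast_nonneg n
  have key := hMo (fun t => n * t - ph n Z x t)
    (fun t => n - |Z.derivative.eval (cos t)| * sin t / √(1 - Z.eval (cos t) ^ 2))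
    {t : ℝ | t ∈ Icc 0 π ∧ Z.eval (cos t) ^ 2 = 1} θ η hle (pl_fin hn h) ?_ ?_
  · linarith
  · apply ContinuousOn.sub (by fun_prop)
    exact h1.mono (Icc_subset_Icc hθ.1 hη.2)
  · intro t ht hnS
    have ht0 : t ∈ Ioo 0 π := ⟨lt_of_le_of_lt hθ.1 ht.1, lt_of_lt_of_le ht.2 hη.2⟩
    have ht1 : Z.eval (cos t) ^ 2 ≠ 1 := fun h0 => hnS ⟨⟨ht0.1.le, ht0.2.le⟩, h0⟩
    have hd := hPd n κ Z x t hn h ht0 ht1
    refine ⟨?_, ?_⟩
    · have h2 : HasDerivAt (fun t : ℝ => (n : ℝ) * t) n t := by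
        simpa using (hasDerivAt_id t).const_mul (n : ℝ)
      exact h2.sub hd
    · have hb := h.bdd (cos t) ⟨neg_one_le_cos t, cos_le_one t⟩
      have h3 : Z.eval (cos t) ^ 2 < 1 := by
        have h4 : Z.eval (cos t) ^ 2 ≤ 1 := by
          rw [← sq_abs]
          nlinarith [abs_nonneg (Z.eval (cos t))]
        exact lt_of_le_of_ne h4 ht1
      have h5 : 0 < √(1 - Z.eval (cos t) ^ 2) := Real.sqrt_pos.2 (by linarith)
      have hs : 0 ≤ sin t := (sin_pos_of_mem_Ioo ht0).le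
      rw [sub_nonneg, div_le_iff₀ h5]
      have h6 := pl_bs (by omega : 1 ≤ n) h.deg h.bdd t
      have h7 : |Z.derivative.eval (cos t)| * sin t = |sin t * Z.derivative.eval (cos t)| := by
        rw [abs_mul, abs_of_nonneg hs, mul_comm]
      rw [h7]
      apply abs_le_of_sq_le_sq _ (by positivity)
      have h8 : √(1 - Z.eval (cos t) ^ 2) ^ 2 = 1 - Z.eval (cos t) ^ 2 :=
        Real.sq_sqrt (by linarith)
      have h9 : ((n : ℝ) * √(1 - Z.eval (cos t) ^ 2)) ^ 2 =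
          (n : ℝ) ^ 2 * (1 - Z.eval (cos t) ^ 2) := by
        rw [mul_pow, h8]
      rw [h9]
      linarith [h6]

end

end Pool.Agent.Helper40.TV
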