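import Pool.Agent.Helper40.TV.St1

/-!
Derivative of the phase in the parameter.
-/

set_option autoImplicit false

namespace Pool.Agent.Helper40.TV

open Polynomial Set Real
open Pool.Agent.Helper40.AS (Bdd)

theorem pq_om (n : ℕ) (x : ℕ → ℝ) (y : ℝ) :
    (om n x).eval y = ∏ i ∈ Finset.range n, (y - x i) := by
  simp [om, eval_prod]

theorem pq_sign (n : ℕ) (x : ℕ → ℝ) (y : ℝ) :
    (om n x).eval y = (-1) ^ cnt n x y * |(om n x).eval y| := by
  classical
  have h2 : ∏ i ∈ Finset.range n, (y - x i) =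
      ∏ i ∈ Finset.range n, ((if y < x i then (-1 : ℝ) else 1) * |y - x i|) := by
    apply Finset.prod_congr rfl
    intro i _
    split_ifs with h
    · rw [abs_of_neg (by linarith)]
      ring
    · rw [abs_of_nonneg (by linarith)]
      ring
  have h3 : ∏ i ∈ Finset.range n, (if y < x i then (-1 : ℝ) else 1) = (-1) ^ cnt n x y := by
    rw [Finset.prod_ite, Finset.prod_const, Finset.prod_const, one_pow, mul_one]
    unfold cnt
    congr
  rw [pq_om, Finset.abs_prod, h2, Finset.prod_mul_distrib, h3]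

theorem pq_sq (m : ℕ) : ((-1 : ℝ) ^ m) ^ 2 = 1 := by
  rw [← pow_mul, mul_comm, pow_mul]
  norm_num

theorem pq (hEx : Ex) (_hUn : Un) (_hCp : Cp) (hCt : Ct) (hDk : Dk) (hPk : Pk) (hPt : Pt) : Pq := by
  intro n θ hn hθ
  obtain ⟨hanti, hcont, _, _⟩ := hPk n θ hn hθ
  have hθ' : θ ∈ Icc 0 π := ⟨hθ.1.le, hθ.2.le⟩
  have hy1 : cos θ < 1 := by
    have := cos_lt_cos_of_nonneg_of_le_pi le_rfl hθ.2.le hθ.1
    rwa [cos_zero] at this
  have hy2 : -1 < cos θ := by
    have := cos_lt_cos_of_nonneg_of_le_pi hθ.1.le le_rfl hθ.2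
    rwa [cos_pi] at this
  refine ⟨fun κ hκ hz => ?_, ?_⟩
  · have hκ' : κ ∈ Icc (-1 : ℝ) 1 := ⟨hκ.1.le, hκ.2.le⟩
    have M := mem_c (hEx n κ hn hκ')
    have hb : |(Zc n κ).eval (cos θ)| ≤ 1 := M.bdd _ ⟨hy2.le, hy1.le⟩
    obtain ⟨z, hzdef⟩ : ∃ z, z = (Zc n κ).eval (cos θ) := ⟨_, rfl⟩
    rw [← hzdef] at hz hb
    have hz1 : |z| < 1 := by
      rcases lt_or_eq_of_le hb with h | h
      · exact h
      · exfalso
        apply hz
        rw [← sq_abs, h, one_pow]
    obtain ⟨N, hN⟩ : ∃ N, N = cnt n (xc n κ) (cos θ) := ⟨_, rfl⟩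
    have hu : |(-1 : ℝ) ^ N * z| < 1 := by
      rw [abs_mul, abs_pow, abs_neg, abs_one, one_pow, one_mul]
      exact hz1
    have hu1 : -1 < (-1 : ℝ) ^ N * z := (abs_lt.1 hu).1
    have hu2 : (-1 : ℝ) ^ N * z < 1 := (abs_lt.1 hu).2
    have hf : Ph n κ θ = π * N + arccos ((-1) ^ N * z) := by
      rw [hN, hzdef]
      rfl
    have ha1 : 0 < arccos ((-1) ^ N * z) := arccos_pos.2 hu2
    have ha2 : arccos ((-1) ^ N * z) < π := by
      rcases lt_or_eq_of_le (arccos_le_pi ((-1) ^ N * z)) with h | h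
      · exact h
      · exfalso
        rw [arccos_eq_pi] at h
        linarith
    have hcat : ContinuousAt (fun k => Ph n k θ) κ :=
      hcont.continuousAt (Icc_mem_nhds hκ.1 hκ.2)
    have e1 : ∀ᶠ k in nhds κ, π * N < Ph n k θ :=
      hcat.eventually (lt_mem_nhds (by show π * N < Ph n κ θ; rw [hf]; linarith))
    have e2 : ∀ᶠ k in nhds κ, Ph n k θ < π * N + π :=
      hcat.eventually (gt_mem_nhds (by show Ph n κ θ < π * N + π; rw [hf]; linarith))
    have heq : (fun k => Ph n k θ) =ᶠ[nhds κ]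
        fun k => π * N + arccos ((-1) ^ N * (Zc n k).eval (cos θ)) := by
      filter_upwards [e1, e2] with k h1 h2
      have hk : Ph n k θ = π * cnt n (xc n k) (cos θ) +
        arccos ((-1) ^ cnt n (xc n k) (cos θ) * (Zc n k).eval (cos θ)) := rfl
      have h3 := arccos_nonneg ((-1) ^ cnt n (xc n k) (cos θ) * (Zc n k).eval (cos θ))
      have h4 := arccos_le_pi ((-1) ^ cnt n (xc n k) (cos θ) * (Zc n k).eval (cos θ))
      have h5 : cnt n (xc n k) (cos θ) = N := by
        have h6 : (cnt n (xc n k) (cos θ) : ℝ) < N + 1 := by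
          by_contra hcon
          rw [not_lt] at hcon
          have := mul_le_mul_of_nonneg_left hcon pi_pos.le
          linarith
        have h7 : (N : ℝ) < cnt n (xc n k) (cos θ) + 1 := by
          by_contra hcon
          rw [not_lt] at hcon
          have := mul_le_mul_of_nonneg_left hcon pi_pos.le
          linarith
        have h8 : cnt n (xc n k) (cos θ) < N + 1 := by exact_mod_cast h6
        have h9 : N < cnt n (xc n k) (cos θ) + 1 := by exact_mod_cast h7
        omega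
      rw [hk, h5]
    have hd := (hDk n κ (cos θ) hn hκ).const_mul ((-1 : ℝ) ^ N)
    have ha : HasDerivAt arccos (-(1 / √(1 - ((-1) ^ N * z) ^ 2)))
        ((-1) ^ N * (Zc n κ).eval (cos θ)) := by
      rw [← hzdef]
      exact hasDerivAt_arccos (by linarith) (by linarith)
    have hc := (ha.comp κ hd).const_add (π * N)
    refine (hc.congr_of_eventuallyEq heq).congr_deriv ?_
    have hs := pq_sign n (xc n κ) (cos θ)
    rw [← hN] at hs
    unfold wk
    rw [← hzdef, mul_pow, pq_sq, one_mul]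
    have hkey : (-1 : ℝ) ^ N * (om n (xc n κ)).eval (cos θ) = |(om n (xc n κ)).eval (cos θ)| := by
      conv_lhs => rw [hs]
      rw [← mul_assoc, ← sq, pq_sq, one_mul]
    have : -(1 / √(1 - z ^ 2)) * ((-1) ^ N * (2 ^ (n - 1) * (om n (xc n κ)).eval (cos θ))) =
        -(2 ^ (n - 1) * ((-1) ^ N * (om n (xc n κ)).eval (cos θ)) / √(1 - z ^ 2)) := by
      ring
    rw [this, hkey]
  · have hinj : InjOn (fun κ => Ph n κ θ)
        {κ : ℝ | κ ∈ Icc (-1 : ℝ) 1 ∧ (Zc n κ).eval (cos θ) ^ 2 = 1} := by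
      intro a ha b hb hab
      exact hanti.injOn ha.1 hb.1 hab
    refine Set.Finite.of_finite_image ?_ hinj
    refine Set.Finite.subset (Set.Finite.image (fun i : ℕ => ((n : ℝ) - i) * π)
      (Finset.range n).finite_toSet) ?_
    rintro _ ⟨κ, ⟨hκ, hz⟩, rfl⟩
    have M := mem_c (hEx n κ hn hκ)
    have habs : |(Zc n κ).eval (cos θ)| = 1 := by
      rw [← sq_abs] at hz
      have h0 := abs_nonneg ((Zc n κ).eval (cos θ))
      nlinarith
    rcases hCt n κ _ _ (cos θ) hn M ⟨hy2.le, hy1.le⟩ habs with ⟨i, hi, hx⟩ | ⟨h, _⟩ | ⟨h, _⟩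
    · refine ⟨i, Finset.mem_coe.2 (Finset.mem_range.2 hi), ?_⟩
      have h1 := (hPt n κ _ _ hn M).2.2.2 i hi
      rw [← hx, arccos_cos hθ.1.le hθ.2.le] at h1
      exact h1.symm
    · exact absurd h hy1.ne
    · exact absurd h hy2.ne'

end Pool.Agent.Helper40.TV
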