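import Pool.Agent.Helper40.TV.St3

/-!
Project TV, piece Pr: two critical points, up-jump of the label.
-/

set_option autoImplicit false

namespace Pool.Agent.Helper40.TV

open Polynomial Set Real
open Pool.Agent.Helper40.AS (Bdd)

noncomputable section

theorem pr (_hV1 : V1) (hW1 : W1) : Pr := by
  intro n Th Z F K L L' t t' k P hK hKn ht htt' hnt' hL hL' hLL' hP hB hd hd'
  have hn3 : (3 : ℝ) ≤ n := by exact_mod_cast F.n3
  have hn0 : (0 : ℝ) < n := by linarith
  have hπ := pi_gt_three
  have ht'1 : t' < 1 := by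
    by_contra hcon
    push Not at hcon
    have : (n : ℝ) * 1 ≤ n * t' := mul_le_mul_of_nonneg_left hcon hn0.le
    linarith
  have hnt : n * t ≤ K := (mul_le_mul_of_nonneg_left htt'.le hn0.le).trans hnt'
  have hsub : Icc t t' ⊆ Icc 0 π := by
    intro s hs
    exact ⟨ht.le.trans hs.1, hs.2.trans (by linarith)⟩
  have hmt : t ∈ Icc 0 π := hsub (left_mem_Icc.2 htt'.le)
  have hmt' : t' ∈ Icc 0 π := hsub (right_mem_Icc.2 htt'.le)
  have i1 := F.inc L hmt hmt' htt'
  have i2 := F.inc L' hmt hmt' htt'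
  have hIVT := intermediate_value_Icc (f := fun s => Th L s + Th L' s) htt'.le
    (((F.cth L).mono hsub).add ((F.cth L').mono hsub))
  obtain ⟨s, hs, hs2⟩ := hIVT (show ((2 * k + 1) * π : ℝ) ∈
    Icc (Th L t + Th L' t) (Th L t' + Th L' t') from ⟨by rw [hL]; linarith, by rw [hL']; linarith⟩)
  simp only at hs2
  have hst : t < s := by
    rcases hs.1.lt_or_eq with h | h
    · exact h
    · exfalso
      rw [← h, hL] at hs2
      linarith
  have hst' : s < t' := by
    rcases hs.2.lt_or_eq with h | h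
    · exact h
    · exfalso
      rw [h, hL'] at hs2
      linarith
  have hms : s ∈ Icc 0 π := hsub hs
  have hmso : s ∈ Ioo 0 π := ⟨ht.trans hst, by linarith⟩
  have j1 := F.inc L hmt hms hst
  have j2 : Th L s < Th L' s := F.mono s hmso hLL'
  set φ := Th L s - k * π with hφ
  have hφ0 : 0 < φ := by rw [hφ]; linarith
  have hφ' : Th L' s - (k + 1) * π = -φ := by rw [hφ]; linarith
  have hdiff : Th L' s - Th L s = π - 2 * φ := by rw [hφ]; linarith
  have hφ1 : 0 < π - 2 * φ := by rw [← hdiff]; linarith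
  have a1 := F.lemA K L t s k P hK hKn ⟨ht, by linarith⟩ hnt hL hms
    (by rw [← hφ, abs_of_pos hφ0]; linarith) hP hB hd
  have a2 := F.lemA K L' t' s (k + 1) P hK hKn ⟨ht.trans htt', by linarith⟩ hnt'
    (by push_cast; exact hL') hms
    (by push_cast; rw [hφ', abs_neg, abs_of_pos hφ0]; linarith) hP hB hd'
  push_cast at a2
  rw [hφ', cos_neg] at a2
  rw [← hφ] at a1
  refine ⟨s, ⟨hst, hst'⟩, hs2, by rw [hdiff]; exact hφ1, by rw [hdiff]; linarith, ?_⟩
  have hc : cW (Th L' s - Th L s) = 2 * cos φ := by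
    rw [hdiff, hW1.2.2.2.1 _ hφ1.le (by linarith)]
    rw [show (π - 2 * φ) / 2 = π / 2 - φ by ring, sin_pi_div_two_sub]
  rw [hc]
  have htri : |P.eval (cos t') - P.eval (cos t)| ≤
      |P.eval (cos s) - P.eval (cos t')| + |P.eval (cos s) - P.eval (cos t)| := by
    have h1 := abs_sub_le (P.eval (cos t')) (P.eval (cos s)) (P.eval (cos t))
    rw [abs_sub_comm (P.eval (cos t')) (P.eval (cos s))] at h1
    exact h1
  linarith

end

end Pool.Agent.Helper40.TV
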