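import Pool.Agent.Helper40.TV.St1

/-!
The phase as a function of `θ`.
-/

set_option autoImplicit false

namespace Pool.Agent.Helper40.TV

open Polynomial Set Real Filter Topology
open Pool.Agent.Helper40.AS (Bdd)

theorem pt_lt {n : ℕ} {κ : ℝ} {Z : ℝ[X]} {x : ℕ → ℝ} (h : Mem n κ Z x) {i j : ℕ} (hij : i < j)
    (hj : j < n) : x i < x j := by
  induction j with
  | zero => omega
  | succ j ih =>
    have h1 := h.lt j hj
    rcases Nat.lt_or_ge i j with h2 | h2
    · exact (ih h2 (by omega)).trans h1
    · have h3 : i = j := by omega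
      rw [h3]
      exact h1

theorem pt_cnt_node {n : ℕ} {κ : ℝ} {Z : ℝ[X]} {x : ℕ → ℝ} (h : Mem n κ Z x) {i : ℕ}
    (hi : i < n) : cnt n x (x i) = n - 1 - i := by
  classical
  have h1 : ((Finset.range n).filter fun j => x i < x j) = Finset.Ioo i n := by
    ext j
    rw [Finset.mem_filter, Finset.mem_range, Finset.mem_Ioo]
    constructor
    · rintro ⟨h2, h3⟩
      refine ⟨?_, h2⟩
      by_contra h4
      rcases Nat.lt_or_ge j i with h5 | h5
      · exact absurd (pt_lt h h5 hi) (not_lt.2 h3.le)
      · have h6 : j = i := by omega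
        rw [h6] at h3
        exact lt_irrefl _ h3
    · rintro ⟨h2, h3⟩
      exact ⟨h3, pt_lt h h2 h3⟩
  have h2 : cnt n x (x i) = ((Finset.range n).filter fun j => x i < x j).card := by
    unfold cnt
    congr
  rw [h2, h1, Nat.card_Ioo]
  omega

theorem pt_cnt_mono (n : ℕ) (x : ℕ → ℝ) {y y' : ℝ} (h : y ≤ y') : cnt n x y' ≤ cnt n x y := by
  classical
  unfold cnt
  refine Finset.card_le_card fun i hi => ?_
  rw [Finset.mem_filter] at hi ⊢
  exact ⟨hi.1, h.trans_lt hi.2⟩

theorem pt_cnt_eq {n : ℕ} {x : ℕ → ℝ} {y y' : ℝ} (h : y ≤ y') (he : cnt n x y' = cnt n x y)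
    {i : ℕ} (hi : i < n) (h1 : y < x i) : y' < x i := by
  classical
  unfold cnt at he
  have h2 := Finset.eq_of_subset_of_card_le (s := (Finset.range n).filter fun i => y' < x i)
    (t := (Finset.range n).filter fun i => y < x i) (fun i hi => by
      rw [Finset.mem_filter] at hi ⊢
      exact ⟨hi.1, h.trans_lt hi.2⟩) (by
      convert he.ge)
  have h3 : i ∈ (Finset.range n).filter fun i => y < x i :=
    Finset.mem_filter.2 ⟨Finset.mem_range.2 hi, h1⟩
  rw [← h2] at h3
  exact (Finset.mem_filter.1 h3).2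

theorem pt_cos_mem {θ : ℝ} : cos θ ∈ Icc (-1 : ℝ) 1 := ⟨neg_one_le_cos θ, cos_le_one θ⟩

theorem pt_bd {n : ℕ} {κ : ℝ} {Z : ℝ[X]} {x : ℕ → ℝ} (h : Mem n κ Z x) (N : ℕ) (θ : ℝ) :
    -1 ≤ (-1) ^ N * Z.eval (cos θ) ∧ (-1) ^ N * Z.eval (cos θ) ≤ 1 := by
  have h1 := h.bdd (cos θ) pt_cos_mem
  have h2 : |(-1) ^ N * Z.eval (cos θ)| ≤ 1 := by
    rw [abs_mul, abs_pow, abs_neg, abs_one, one_pow, one_mul]
    exact h1
  exact abs_le.1 h2

theorem pt_cos {n : ℕ} {κ : ℝ} {Z : ℝ[X]} {x : ℕ → ℝ} (h : Mem n κ Z x) (θ : ℝ) :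
    cos (ph n Z x θ) = Z.eval (cos θ) := by
  obtain ⟨h1, h2⟩ := pt_bd h (cnt n x (cos θ)) θ
  unfold ph
  rw [mul_comm π, add_comm, cos_add_nat_mul_pi, cos_arccos h1 h2, ← mul_assoc, ← mul_pow]
  norm_num

theorem pt_node {n : ℕ} {κ : ℝ} {Z : ℝ[X]} {x : ℕ → ℝ} (h : Mem n κ Z x) {i : ℕ}
    (hi : i < n) : ph n Z x (arccos (x i)) = (n - i : ℝ) * π := by
  have h1 := h.mem i hi
  unfold ph
  rw [cos_arccos h1.1 h1.2, pt_cnt_node h hi, h.val i hi, ← pow_add]
  have h2 : n - 1 - i + (n - i) = 2 * (n - 1 - i) + 1 := by omega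
  rw [h2, pow_add, pow_mul]
  norm_num
  have h3 : ((n - 1 - i : ℕ) : ℝ) = n - 1 - i := by
    rw [Nat.cast_sub (by omega), Nat.cast_sub (by omega)]
    norm_num
  rw [h3]
  ring

/-- on a piece without nodes the signed polynomial increases -/
theorem pt_strictMonoOn (hAr : Ar) {n : ℕ} {κ : ℝ} {Z : ℝ[X]} {x : ℕ → ℝ} (hn : 3 ≤ n)
    (h : Mem n κ Z x) {y y' : ℝ} (hy : -1 ≤ y) (hyy : y < y') (hy' : y' ≤ 1)
    (he : cnt n x y' = cnt n x y) :
    (-1) ^ cnt n x y * Z.eval y < (-1) ^ cnt n x y * Z.eval y' := by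
  have h1 : StrictMonoOn (fun t => (-1) ^ cnt n x y * Z.eval t) (Icc y y') := by
    refine strictMonoOn_of_deriv_pos (convex_Icc _ _) ?_ fun t ht => ?_
    · exact (continuous_const.mul Z.continuous).continuousOn
    · rw [interior_Icc] at ht
      have h2 : deriv (fun t => (-1) ^ cnt n x y * Z.eval t) t =
          (-1) ^ cnt n x y * Z.derivative.eval t :=
        ((Z.hasDerivAt t).const_mul _).deriv
      rw [h2]
      have h3 : cnt n x t = cnt n x y := by
        apply le_antisymm (pt_cnt_mono n x ht.1.le)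
        rw [← he]
        exact pt_cnt_mono n x ht.2.le
      have h4 := (hAr n κ Z x t hn h ⟨by linarith [ht.1], by linarith [ht.2]⟩
        (fun i hi hti => by
          have h5 := pt_cnt_eq hyy.le he hi (by rw [← hti]; exact ht.1)
          rw [← hti] at h5
          exact absurd h5 (not_lt.2 ht.2.le))).1
      rw [h3] at h4
      exact h4
  exact h1 (left_mem_Icc.2 hyy.le) (right_mem_Icc.2 hyy.le) hyy

theorem pt_sq (N : ℕ) : ((-1 : ℝ) ^ N) * (-1) ^ N = 1 := by
  rw [← mul_pow]
  norm_num

theorem pt_mono (hCt : Ct) (hAr : Ar) {n : ℕ} {κ : ℝ} {Z : ℝ[X]} {x : ℕ → ℝ} (hn : 3 ≤ n)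
    (h : Mem n κ Z x) : StrictMonoOn (ph n Z x) (Icc 0 π) := by
  intro θ hθ η hη hlt
  have hcos : cos η < cos θ := strictAntiOn_cos hθ hη hlt
  have hle := pt_cnt_mono n x hcos.le
  have hb := pt_bd h (cnt n x (cos θ)) θ
  have hb' := pt_bd h (cnt n x (cos η)) η
  rcases hle.lt_or_eq with hN | hN
  · have h1 : ph n Z x θ ≤ π * (cnt n x (cos θ) + 1) := by
      unfold ph
      have := arccos_le_pi ((-1) ^ cnt n x (cos θ) * Z.eval (cos θ))
      linarith
    have h2 : π * cnt n x (cos η) ≤ ph n Z x η := by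
      unfold ph
      have := arccos_nonneg ((-1) ^ cnt n x (cos η) * Z.eval (cos η))
      linarith
    have h3 : (cnt n x (cos θ) + 1 : ℝ) ≤ cnt n x (cos η) := by exact_mod_cast hN
    have h4 : π * (cnt n x (cos θ) + 1) ≤ π * cnt n x (cos η) :=
      mul_le_mul_of_nonneg_left h3 pi_pos.le
    rcases (h1.trans (h4.trans h2)).lt_or_eq with h5 | h5
    · exact h5
    · exfalso
      have e1 : ph n Z x θ = π * (cnt n x (cos θ) + 1) := le_antisymm h1 (by linarith)
      have e2 : ph n Z x η = π * cnt n x (cos η) := le_antisymm (by linarith) h2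
      have e3 : (cnt n x (cos η) : ℝ) = cnt n x (cos θ) + 1 := by
        have h6 : π * (cnt n x (cos θ) + 1) = π * cnt n x (cos η) := by linarith
        exact (mul_left_cancel₀ pi_ne_zero h6).symm
      have e3' : cnt n x (cos η) = cnt n x (cos θ) + 1 := by exact_mod_cast e3
      have e4 : Z.eval (cos θ) = -(-1) ^ cnt n x (cos θ) := by
        rw [← pt_cos h θ, e1, mul_comm]
        have := cos_add_nat_mul_pi 0 (cnt n x (cos θ) + 1)
        rw [zero_add, cos_zero, mul_one] at this
        push_cast at this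
        rw [this, pow_succ]
        ring
      have e5 : Z.eval (cos η) = (-1) ^ cnt n x (cos η) := by
        rw [← pt_cos h η, e2, mul_comm]
        have := cos_add_nat_mul_pi 0 (cnt n x (cos η))
        rw [zero_add, cos_zero, mul_one] at this
        exact this
      have a4 : |Z.eval (cos θ)| = 1 := by
        rw [e4, abs_neg, abs_pow, abs_neg, abs_one, one_pow]
      have a5 : |Z.eval (cos η)| = 1 := by
        rw [e5, abs_pow, abs_neg, abs_one, one_pow]
      have c4 := hCt n κ Z x (cos θ) hn h pt_cos_mem a4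
      have c5 := hCt n κ Z x (cos η) hn h pt_cos_mem a5
      rcases c4 with ⟨j, hj, hj'⟩ | ⟨hj, hj'⟩ | ⟨hj, -⟩
      · have n4 : cnt n x (cos θ) = n - 1 - j := by rw [hj', pt_cnt_node h hj]
        rcases c5 with ⟨i, hi, hi'⟩ | ⟨hi, -⟩ | ⟨hi, hi'⟩
        · have n5 : cnt n x (cos η) = n - 1 - i := by rw [hi', pt_cnt_node h hi]
          rw [n5] at e5
          rw [hi', h.val i hi] at e5
          have h7 : n - i = (n - 1 - i) + 1 := by omega
          rw [h7, pow_succ] at e5
          have h8 : ((-1 : ℝ) ^ (n - 1 - i)) ≠ 0 := pow_ne_zero _ (by norm_num)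
          apply h8
          linarith
        · linarith [cos_le_one θ]
        · rw [hi] at e5
          rw [hi'] at e5
          -- all nodes are counted
          have h9 : cnt n x (cos η) = n := by
            by_contra h10
            have h11 : cnt n x (cos η) < n := by
              have : cnt n x (cos η) ≤ n := by
                unfold cnt
                refine (Finset.card_filter_le _ _).trans ?_
                rw [Finset.card_range]
              omega
            -- some node equals -1
            have h12 : ∃ i < n, x i ≤ cos η := by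
              by_contra h13
              push Not at h13
              apply h10
              unfold cnt
              rw [Finset.filter_true_of_mem, Finset.card_range]
              intro i hi
              exact h13 i (Finset.mem_range.1 hi)
            obtain ⟨i, hi2, hi3⟩ := h12
            have h14 : x i = -1 := by
              rw [hi] at hi3
              exact le_antisymm hi3 (h.mem i hi2).1
            have h15 : i = 0 := by
              by_contra h16
              have := pt_lt h (Nat.pos_of_ne_zero h16) hi2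
              rw [h14] at this
              exact absurd this (not_lt.2 (h.mem 0 (by omega)).1)
            have h17 := h.val i hi2
            rw [h14, hi', h15, Nat.sub_zero, pow_succ] at h17
            have h8 : ((-1 : ℝ) ^ n) ≠ 0 := pow_ne_zero _ (by norm_num)
            apply h8
            linarith
          rw [hi] at h9
          rw [h9, pow_succ] at e5
          have h8 : ((-1 : ℝ) ^ n) ≠ 0 := pow_ne_zero _ (by norm_num)
          apply h8
          linarith
      · have n4 : cnt n x (cos θ) = 0 := by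
          unfold cnt
          rw [Finset.card_eq_zero, Finset.filter_eq_empty_iff]
          intro i hi
          rw [hj]
          exact not_lt.2 (h.mem i (Finset.mem_range.1 hi)).2
        rw [n4, hj, hj', pow_zero] at e4
        norm_num at e4
      · linarith [neg_one_le_cos η]
  · have h1 := pt_strictMonoOn hAr hn h (neg_one_le_cos η) hcos (cos_le_one θ) hN
    unfold ph
    rw [hN]
    have h2 := strictAntiOn_arccos (show _ ∈ Icc (-1 : ℝ) 1 from hb') (by rw [← hN]; exact hb) h1
    linarith

/-- the number of nodes near a point -/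
theorem pt_cnt_near {n : ℕ} {κ : ℝ} {Z : ℝ[X]} {x : ℕ → ℝ} (h : Mem n κ Z x) (θ₀ : ℝ) :
    ∀ᶠ θ in 𝓝 θ₀, cnt n x (cos θ) = cnt n x (cos θ₀) ∨
      ∃ j < n, x j = cos θ₀ ∧ cnt n x (cos θ) = cnt n x (cos θ₀) + 1 := by
  classical
  have h1 : ∀ᶠ θ in 𝓝 θ₀, ∀ i ∈ Finset.range n, x i ≠ cos θ₀ → (cos θ < x i ↔ cos θ₀ < x i) := by
    rw [Finset.eventually_all]
    intro i _
    by_cases hi : x i = cos θ₀
    · exact Eventually.of_forall fun θ h => absurd hi h
    · rcases lt_or_gt_of_ne hi with h2 | h2
      · have h3 : ∀ᶠ θ in 𝓝 θ₀, x i < cos θ := continuous_cos.continuousAt.eventually_const_lt h2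
        filter_upwards [h3] with θ hθ _
        exact ⟨fun h4 => absurd h4 (not_lt.2 hθ.le), fun h4 => absurd h4 (not_lt.2 h2.le)⟩
      · have h3 : ∀ᶠ θ in 𝓝 θ₀, cos θ < x i := continuous_cos.continuousAt.eventually_lt_const h2
        filter_upwards [h3] with θ hθ _
        exact ⟨fun _ => h2, fun _ => hθ⟩
  filter_upwards [h1] with θ hθ
  by_cases hj : ∃ j < n, x j = cos θ₀
  · obtain ⟨j, hj, hj'⟩ := hj
    by_cases hlt : cos θ < x j
    · right
      refine ⟨j, hj, hj', ?_⟩
      have h2 : ((Finset.range n).filter fun i => cos θ < x i) =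
          insert j ((Finset.range n).filter fun i => cos θ₀ < x i) := by
        ext i
        rw [Finset.mem_insert, Finset.mem_filter, Finset.mem_filter]
        constructor
        · rintro ⟨h3, h4⟩
          by_cases h5 : i = j
          · exact Or.inl h5
          · right
            refine ⟨h3, (hθ i h3 ?_).1 h4⟩
            intro h6
            rcases Nat.lt_or_gt_of_ne h5 with h7 | h7
            · have := pt_lt h h7 hj
              rw [h6, hj'] at this
              exact lt_irrefl _ this
            · have := pt_lt h h7 (Finset.mem_range.1 h3)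
              rw [h6, hj'] at this
              exact lt_irrefl _ this
        · rintro (rfl | ⟨h3, h4⟩)
          · exact ⟨Finset.mem_range.2 hj, hlt⟩
          · exact ⟨h3, (hθ i h3 h4.ne').2 h4⟩
      unfold cnt
      rw [h2, Finset.card_insert_of_notMem]
      rw [Finset.mem_filter, not_and]
      intro _
      rw [hj']
      exact lt_irrefl _
    · left
      unfold cnt
      congr 1
      ext i
      rw [Finset.mem_filter, Finset.mem_filter]
      refine and_congr_right fun h3 => ?_
      by_cases h5 : x i = cos θ₀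
      · have h6 : i = j := by
          by_contra h6
          rcases Nat.lt_or_gt_of_ne h6 with h7 | h7
          · have := pt_lt h h7 hj
            rw [h5, hj'] at this
            exact lt_irrefl _ this
          · have := pt_lt h h7 (Finset.mem_range.1 h3)
            rw [h5, hj'] at this
            exact lt_irrefl _ this
        rw [h6]
        constructor
        · intro h7
          exact absurd h7 hlt
        · intro h7
          rw [hj'] at h7
          exact absurd h7 (lt_irrefl _)
      · exact hθ i h3 h5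
  · left
    push Not at hj
    unfold cnt
    congr 1
    ext i
    rw [Finset.mem_filter, Finset.mem_filter]
    exact and_congr_right fun h3 => hθ i h3 (hj i (Finset.mem_range.1 h3))

theorem pt_cont {n : ℕ} {κ : ℝ} {Z : ℝ[X]} {x : ℕ → ℝ} (h : Mem n κ Z x) :
    Continuous (ph n Z x) := by
  rw [continuous_iff_continuousAt]
  intro θ₀
  let G : ℕ → ℝ → ℝ := fun N θ => π * N + arccos ((-1) ^ N * Z.eval (cos θ))
  have hG : ∀ N, Continuous (G N) := fun N => continuous_const.add
    (continuous_arccos.comp (continuous_const.mul (Z.continuous.comp continuous_cos)))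
  have hph : ∀ θ, ph n Z x θ = G (cnt n x (cos θ)) θ := fun _ => rfl
  by_cases hj : ∃ j < n, x j = cos θ₀
  · obtain ⟨j, hj, hj'⟩ := hj
    have hc : cnt n x (cos θ₀) = n - 1 - j := by rw [← hj', pt_cnt_node h hj]
    have h1 : G (cnt n x (cos θ₀) + 1) θ₀ = G (cnt n x (cos θ₀)) θ₀ := by
      simp only [G]
      rw [hc, ← hj', h.val j hj, ← pow_add, ← pow_add]
      have h2 : n - 1 - j + (n - j) = 2 * (n - 1 - j) + 1 := by omega
      have h3 : n - 1 - j + 1 + (n - j) = 2 * (n - j) := by omega
      rw [h2, h3, pow_add, pow_mul, pow_mul]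
      norm_num
      ring
    refine tendsto_nhds.2 fun U hU hθU => ?_
    have h2 : ∀ᶠ θ in 𝓝 θ₀, G (cnt n x (cos θ₀)) θ ∈ U :=
      (hG _).continuousAt.eventually (hU.mem_nhds hθU)
    have h3 : ∀ᶠ θ in 𝓝 θ₀, G (cnt n x (cos θ₀) + 1) θ ∈ U := by
      refine (hG _).continuousAt.eventually (hU.mem_nhds ?_)
      rw [h1]
      exact hθU
    filter_upwards [pt_cnt_near h θ₀, h2, h3] with θ h4 h5 h6
    change ph n Z x θ ∈ U
    rw [hph]
    rcases h4 with h4 | ⟨_, _, _, h4⟩
    · rw [h4]
      exact h5
    · rw [h4]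
      exact h6
  · refine ((hG (cnt n x (cos θ₀))).continuousAt (x := θ₀)).congr ?_
    filter_upwards [pt_cnt_near h θ₀] with θ h4
    rw [hph]
    rcases h4 with h4 | ⟨j, hj1, hj2, _⟩
    · rw [h4]
    · exact absurd ⟨j, hj1, hj2⟩ hj

theorem pt (hCt : Ct) (hAr : Ar) : Pt := fun _ _ _ _ hn h =>
  ⟨(pt_cont h).continuousOn, pt_mono hCt hAr hn h, fun θ _ => pt_cos h θ, fun _ hi => pt_node h hi⟩

end Pool.Agent.Helper40.TV
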