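import Pool.Agent.Helper40.TV.St1

/-!
Project TV, piece Rh: comparison of the densities for different parameters.
-/

set_option autoImplicit false

namespace Pool.Agent.Helper40.TV

open Polynomial Set Real
open Pool.Agent.Helper40.AS (Bdd)

/-- the density for a positive parameter -/
theorem rh_pos {n : ℕ} {κ α β γ θ : ℝ} {Z : ℝ[X]} {x : ℕ → ℝ} (hκ : 0 < κ) (hb : Bdd Z)
    (hA : Aux n κ Z x α β γ) (hθ : θ ∈ Ioo 0 π) (hZ : Z.eval (cos θ) ^ 2 ≠ 1) :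
    2 ^ (n - 1) * |(om n x).eval (cos θ)| / √(1 - Z.eval (cos θ) ^ 2) *
      √((1 - cos θ * α⁻¹) * (1 - cos θ * β⁻¹)) * (κ * √(α * β)) = sin θ := by
  have hα : 1 ≤ α := hA.g1.trans hA.ga
  have hβ : 1 ≤ β := hα.trans hA.ab
  have hs : sin θ = √(1 - cos θ ^ 2) := sin_eq_sqrt_one_sub_cos_sq hθ.1.le hθ.2.le
  have h1 : cos θ ∈ Icc (-1 : ℝ) 1 := ⟨neg_one_le_cos θ, cos_le_one θ⟩
  have h2 := hb (cos θ) h1
  have h3 : 0 < 1 - Z.eval (cos θ) ^ 2 := by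
    have h4 : Z.eval (cos θ) ^ 2 ≤ 1 := (sq_le_one_iff_abs_le_one _).2 h2
    rcases h4.lt_or_eq with h5 | h5
    · linarith
    · exact absurd h5 hZ
  have h5 : 0 < √(1 - Z.eval (cos θ) ^ 2) := Real.sqrt_pos.2 h3
  have h6 := congrArg (Polynomial.eval (cos θ)) hA.id1
  simp only [eval_mul, eval_sub, eval_one, eval_pow, eval_X, eval_C] at h6
  have h7 : √((1 - cos θ * α⁻¹) * (1 - cos θ * β⁻¹)) * √(α * β) =
      √((α - cos θ) * (β - cos θ)) := by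
    rw [← Real.sqrt_mul]
    · congr 1
      field_simp
    · have e1 : cos θ * α⁻¹ ≤ 1 := by
        rw [← div_eq_mul_inv, div_le_one (by linarith)]
        linarith [h1.2]
      have e2 : cos θ * β⁻¹ ≤ 1 := by
        rw [← div_eq_mul_inv, div_le_one (by linarith)]
        linarith [h1.2]
      exact mul_nonneg (by linarith) (by linarith)
  have h8 : 2 ^ (n - 1) * |(om n x).eval (cos θ)| * κ * √((α - cos θ) * (β - cos θ)) =
      √(1 - cos θ ^ 2) * √(1 - Z.eval (cos θ) ^ 2) := by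
    rw [← Real.sqrt_mul (by nlinarith [h1.1, h1.2]), h6]
    have e1 : 4 ^ (n - 1) * κ ^ 2 * (om n x).eval (cos θ) ^ 2 * ((α - cos θ) * (β - cos θ)) =
        (2 ^ (n - 1) * |(om n x).eval (cos θ)| * κ) ^ 2 * ((α - cos θ) * (β - cos θ)) := by
      have e0 : (4 : ℝ) ^ (n - 1) = (2 ^ (n - 1)) ^ 2 := by
        rw [← pow_mul, mul_comm, pow_mul]
        norm_num
      rw [e0, mul_pow, mul_pow, sq_abs]
      ring
    rw [e1, Real.sqrt_mul (sq_nonneg _), Real.sqrt_sq (by positivity)]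
  rw [hs]
  calc _ = (2 ^ (n - 1) * |(om n x).eval (cos θ)| * κ *
        (√((1 - cos θ * α⁻¹) * (1 - cos θ * β⁻¹)) * √(α * β))) /
          √(1 - Z.eval (cos θ) ^ 2) := by ring
    _ = _ := by
      rw [h7, h8, mul_div_assoc, div_self h5.ne', mul_one]

/-- the inverses of the outer roots -/
def RhD (n : ℕ) (κ u w : ℝ) : Prop :=
  (0 < κ ∧ ∃ α β γ, Aux n κ (Zc n κ) (xc n κ) α β γ ∧ u = α⁻¹ ∧ w = β⁻¹) ∨
  (κ < 0 ∧ ∃ α β γ, Aux n (-κ) (Zc n (-κ)) (xc n (-κ)) α β γ ∧ u = -α⁻¹ ∧ w = -β⁻¹) ∨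
  (κ = 0 ∧ u = 0 ∧ w = 0)

theorem rh_ex (hEx : Ex) (hAx : Ax) {n : ℕ} {κ : ℝ} (hn : 3 ≤ n) (hκ : κ ∈ Icc (-1 : ℝ) 1) :
    ∃ u w, RhD n κ u w := by
  rcases lt_trichotomy κ 0 with h | h | h
  · have h1 := mem_c (hEx n (-κ) hn ⟨by linarith [hκ.2], by linarith [hκ.1]⟩)
    obtain ⟨α, β, γ, h2⟩ := hAx n (-κ) _ _ hn (by linarith) h1
    exact ⟨_, _, Or.inr (Or.inl ⟨h, α, β, γ, h2, rfl, rfl⟩)⟩
  · exact ⟨0, 0, Or.inr (Or.inr ⟨h, rfl, rfl⟩)⟩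
  · have h1 := mem_c (hEx n κ hn hκ)
    obtain ⟨α, β, γ, h2⟩ := hAx n κ _ _ hn h h1
    exact ⟨_, _, Or.inl ⟨h, α, β, γ, h2, rfl, rfl⟩⟩

theorem rh_inv {α : ℝ} (h : 1 ≤ α) : 0 < α⁻¹ ∧ α⁻¹ ≤ 1 :=
  ⟨inv_pos.2 (by linarith), inv_le_one_of_one_le₀ h⟩

theorem rh_bd {n : ℕ} {κ u w : ℝ} (h : RhD n κ u w) : |u| ≤ 1 ∧ |w| ≤ 1 := by
  rcases h with ⟨-, α, β, γ, hA, rfl, rfl⟩ | ⟨-, α, β, γ, hA, rfl, rfl⟩ | ⟨-, rfl, rfl⟩
  · have hα : 1 ≤ α := hA.g1.trans hA.ga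
    have hβ : 1 ≤ β := hα.trans hA.ab
    have h1 := rh_inv hα
    have h2 := rh_inv hβ
    rw [abs_of_pos h1.1, abs_of_pos h2.1]
    exact ⟨h1.2, h2.2⟩
  · have hα : 1 ≤ α := hA.g1.trans hA.ga
    have hβ : 1 ≤ β := hα.trans hA.ab
    have h1 := rh_inv hα
    have h2 := rh_inv hβ
    rw [abs_neg, abs_neg, abs_of_pos h1.1, abs_of_pos h2.1]
    exact ⟨h1.2, h2.2⟩
  · simp

theorem rh_mono (hEx : Ex) (hAm : Am) {n : ℕ} {κ κ' u w u' w' : ℝ} (hn : 3 ≤ n)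
    (hκ : κ ∈ Icc (-1 : ℝ) 1) (hκ' : κ' ∈ Icc (-1 : ℝ) 1) (hlt : κ' < κ)
    (h : RhD n κ u w) (h' : RhD n κ' u' w') : u' ≤ u ∧ w' ≤ w := by
  rcases h with ⟨h0, α, β, γ, hA, rfl, rfl⟩ | ⟨h0, α, β, γ, hA, rfl, rfl⟩ | ⟨h0, rfl, rfl⟩
  · have hα : 1 ≤ α := hA.g1.trans hA.ga
    have hβ : 1 ≤ β := hα.trans hA.ab
    have i1 := rh_inv hα
    have i2 := rh_inv hβ
    rcases h' with ⟨h0', α', β', γ', hA', rfl, rfl⟩ | ⟨h0', α', β', γ', hA', rfl, rfl⟩ |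
      ⟨h0', rfl, rfl⟩
    · obtain ⟨h1, h2⟩ := hAm n κ κ' α β γ α' β' γ' _ _ _ _ hn h0' hlt (mem_c (hEx n κ hn hκ))
        (mem_c (hEx n κ' hn hκ')) hA hA'
      exact ⟨inv_anti₀ (by linarith) h1, inv_anti₀ (by linarith) h2.le⟩
    · have hα' : 1 ≤ α' := hA'.g1.trans hA'.ga
      have hβ' : 1 ≤ β' := hα'.trans hA'.ab
      have i1' := rh_inv hα'
      have i2' := rh_inv hβ'
      exact ⟨by linarith [i1.1, i1'.1], by linarith [i2.1, i2'.1]⟩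
    · exact ⟨i1.1.le, i2.1.le⟩
  · have hα : 1 ≤ α := hA.g1.trans hA.ga
    have hβ : 1 ≤ β := hα.trans hA.ab
    rcases h' with ⟨h0', -⟩ | ⟨h0', α', β', γ', hA', rfl, rfl⟩ | ⟨h0', -⟩
    · linarith
    · have hα' : 1 ≤ α' := hA'.g1.trans hA'.ga
      have hβ' : 1 ≤ β' := hα'.trans hA'.ab
      obtain ⟨h1, h2⟩ := hAm n (-κ') (-κ) α' β' γ' α β γ _ _ _ _ hn (by linarith) (by linarith)
        (mem_c (hEx n (-κ') hn ⟨by linarith [hκ'.2], by linarith [hκ'.1]⟩))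
        (mem_c (hEx n (-κ) hn ⟨by linarith [hκ.2], by linarith [hκ.1]⟩)) hA' hA
      have j1 := inv_anti₀ (by linarith) h1
      have j2 := inv_anti₀ (by linarith) h2.le
      exact ⟨by linarith, by linarith⟩
    · linarith
  · rcases h' with ⟨h0', -⟩ | ⟨h0', α', β', γ', hA', rfl, rfl⟩ | ⟨h0', -⟩
    · linarith
    · have hα' : 1 ≤ α' := hA'.g1.trans hA'.ga
      have hβ' : 1 ≤ β' := hα'.trans hA'.ab
      have i1' := rh_inv hα'
      have i2' := rh_inv hβ'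
      exact ⟨by linarith [i1'.1], by linarith [i2'.1]⟩
    · linarith

/-- the density -/
theorem rh_wk (hEx : Ex) (hSc : Sc) {n : ℕ} {κ u w : ℝ} (hn : 3 ≤ n)
    (hκ : κ ∈ Icc (-1 : ℝ) 1) (h0 : κ ≠ 0) (h : RhD n κ u w) : ∃ c : ℝ, 0 < c ∧
    ∀ θ ∈ Ioo 0 π, (Zc n κ).eval (cos θ) ^ 2 ≠ 1 →
      wk n κ θ * √((1 - cos θ * u) * (1 - cos θ * w)) * c = sin θ := by
  rcases h with ⟨h1, α, β, γ, hA, rfl, rfl⟩ | ⟨h1, α, β, γ, hA, rfl, rfl⟩ | ⟨h1, -⟩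
  · have hα : 1 ≤ α := hA.g1.trans hA.ga
    have hβ : 1 ≤ β := hα.trans hA.ab
    refine ⟨κ * √(α * β), mul_pos h1 (Real.sqrt_pos.2 (by nlinarith)), ?_⟩
    intro θ hθ hZ
    exact rh_pos h1 (mem_c (hEx n κ hn hκ)).bdd hA hθ hZ
  · have hα : 1 ≤ α := hA.g1.trans hA.ga
    have hβ : 1 ≤ β := hα.trans hA.ab
    have hκ' : -κ ∈ Icc (-1 : ℝ) 1 := ⟨by linarith [hκ.2], by linarith [hκ.1]⟩
    refine ⟨-κ * √(α * β), mul_pos (by linarith) (Real.sqrt_pos.2 (by nlinarith)), ?_⟩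
    intro θ hθ hZ
    obtain ⟨s1, -, -, s2, -⟩ := hSc n (-κ) hn hκ'
    rw [neg_neg] at s1 s2
    have hc : cos (π - θ) = -cos θ := cos_pi_sub θ
    have hZ' : (Zc n (-κ)).eval (cos (π - θ)) ^ 2 ≠ 1 := by
      intro h2
      apply hZ
      rw [s1, hc] at *
      simp only [eval_mul, eval_C, eval_comp, eval_neg, eval_X]
      rw [mul_pow, h2, ← pow_mul, mul_one, mul_comm, pow_mul]
      norm_num
    have h2 := rh_pos (θ := π - θ) (by linarith : 0 < -κ) (mem_c (hEx n (-κ) hn hκ')).bdd hA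
      ⟨by linarith [hθ.2], by linarith [hθ.1]⟩ hZ'
    rw [s2 θ]
    have h3 : wk n (-κ) (π - θ) = 2 ^ (n - 1) * |(om n (xc n (-κ))).eval (cos (π - θ))| /
      √(1 - (Zc n (-κ)).eval (cos (π - θ)) ^ 2) := rfl
    rw [h3]
    rw [sin_pi_sub] at h2
    have e1 : 1 - cos (π - θ) * α⁻¹ = 1 - cos θ * -α⁻¹ := by rw [hc]; ring
    have e2 : 1 - cos (π - θ) * β⁻¹ = 1 - cos θ * -β⁻¹ := by rw [hc]; ring
    rw [e1, e2] at h2
    exact h2
  · exact absurd h1 h0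

theorem rh_p {x u : ℝ} (hx : |x| < 1) (hu : |u| ≤ 1) : 0 < 1 - x * u := by
  have h1 : |x * u| < 1 := by
    rw [abs_mul]
    calc |x| * |u| ≤ |x| * 1 := mul_le_mul_of_nonneg_left hu (abs_nonneg x)
      _ < 1 := by linarith
  have := (abs_lt.1 h1).2
  linarith

theorem rh_cmp {x y u u' : ℝ} (h : y ≤ x) (h' : u' ≤ u) :
    (1 - x * u) * (1 - y * u') ≤ (1 - x * u') * (1 - y * u) := by
  nlinarith [mul_nonneg (sub_nonneg.2 h) (sub_nonneg.2 h')]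

/-- comparison of the two square roots -/
theorem rh_sq {x y u w u' w' : ℝ} (hx : |x| < 1) (hy : |y| < 1) (hu : |u| ≤ 1) (hw : |w| ≤ 1)
    (hu' : |u'| ≤ 1) (hw' : |w'| ≤ 1) (h : y ≤ x) (h1 : u' ≤ u) (h2 : w' ≤ w) :
    √((1 - x * u) * (1 - x * w)) * √((1 - y * u') * (1 - y * w')) ≤
      √((1 - x * u') * (1 - x * w')) * √((1 - y * u) * (1 - y * w)) := by
  have a1 := rh_p hx hu
  have a2 := rh_p hx hw
  have a3 := rh_p hx hu'
  have a4 := rh_p hx hw'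
  have b1 := rh_p hy hu
  have b2 := rh_p hy hw
  have b3 := rh_p hy hu'
  have b4 := rh_p hy hw'
  rw [← Real.sqrt_mul (by positivity), ← Real.sqrt_mul (by positivity)]
  apply Real.sqrt_le_sqrt
  have c1 := rh_cmp h h1
  have c2 := rh_cmp h h2
  calc (1 - x * u) * (1 - x * w) * ((1 - y * u') * (1 - y * w'))
      = ((1 - x * u) * (1 - y * u')) * ((1 - x * w) * (1 - y * w')) := by ring
    _ ≤ ((1 - x * u') * (1 - y * u)) * ((1 - x * w') * (1 - y * w)) :=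
        mul_le_mul c1 c2 (by positivity) (by positivity)
    _ = _ := by ring

theorem rh (hEx : Ex) (hAx : Ax) (hAm : Am) (hSc : Sc) : Rh := by
  intro n θ η κ₀ hn hθ hη hle hκ₀
  obtain ⟨u₀, w₀, h0⟩ := rh_ex hEx hAx hn hκ₀
  obtain ⟨bu₀, bw₀⟩ := rh_bd h0
  have hst : 0 < sin θ := sin_pos_of_mem_Ioo hθ
  have hsn : 0 < sin η := sin_pos_of_mem_Ioo hη
  have hx : |cos θ| < 1 := by
    rw [abs_lt]
    constructor
    · have := cos_lt_cos_of_nonneg_of_le_pi hθ.1.le le_rfl hθ.2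
      rwa [cos_pi] at this
    · have := cos_lt_cos_of_nonneg_of_le_pi le_rfl hθ.2.le hθ.1
      rwa [cos_zero] at this
  have hy : |cos η| < 1 := by
    rw [abs_lt]
    constructor
    · have := cos_lt_cos_of_nonneg_of_le_pi hη.1.le le_rfl hη.2
      rwa [cos_pi] at this
    · have := cos_lt_cos_of_nonneg_of_le_pi le_rfl hη.2.le hη.1
      rwa [cos_zero] at this
  have hyx : cos η ≤ cos θ := cos_le_cos_of_nonneg_of_le_pi hθ.1.le hη.2.le hle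
  set X0 := √((1 - cos θ * u₀) * (1 - cos θ * w₀)) with hX0
  set Y0 := √((1 - cos η * u₀) * (1 - cos η * w₀)) with hY0
  have pX0 : 0 < X0 := Real.sqrt_pos.2 (mul_pos (rh_p hx bu₀) (rh_p hx bw₀))
  have pY0 : 0 < Y0 := Real.sqrt_pos.2 (mul_pos (rh_p hy bu₀) (rh_p hy bw₀))
  refine ⟨sin η / sin θ * (X0 / Y0), by positivity, ?_, ?_⟩
  · intro k hk hk0 hZ1 hZ2
    have hk1 : k ∈ Icc (-1 : ℝ) 1 := ⟨by linarith [hk.1, hκ₀.1], hk.2.le⟩
    obtain ⟨u, w, h⟩ := rh_ex hEx hAx hn hk1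
    obtain ⟨bu, bw⟩ := rh_bd h
    obtain ⟨m1, m2⟩ := rh_mono hEx hAm hn hk1 hκ₀ hk.1 h h0
    obtain ⟨c, hc, h2⟩ := rh_wk hEx hSc hn hk1 hk0 h
    have e1 := h2 θ hθ hZ1
    have e2 := h2 η hη hZ2
    have h3 := rh_sq hx hy bu bw bu₀ bw₀ hyx m1 m2
    rw [← hX0, ← hY0] at h3
    set X := √((1 - cos θ * u) * (1 - cos θ * w)) with hX
    set Y := √((1 - cos η * u) * (1 - cos η * w)) with hY
    have pX : 0 < X := Real.sqrt_pos.2 (mul_pos (rh_p hx bu) (rh_p hx bw))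
    have pY : 0 < Y := Real.sqrt_pos.2 (mul_pos (rh_p hy bu) (rh_p hy bw))
    have f1 : wk n k θ = sin θ / (X * c) := by
      rw [eq_div_iff (by positivity), ← e1]; ring
    have f2 : wk n k η = sin η / (Y * c) := by
      rw [eq_div_iff (by positivity), ← e2]; ring
    rw [f1, f2]
    rw [show sin η / sin θ * (X0 / Y0) * (sin θ / (X * c)) = sin η * X0 / (Y0 * X * c) by
      field_simp]
    rw [div_le_div_iff₀ (by positivity) (by positivity)]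
    have h4 : 0 ≤ sin η * c := by positivity
    nlinarith [mul_le_mul_of_nonneg_left h3 h4]
  · intro k hk hk0 hZ1 hZ2
    have hk1 : k ∈ Icc (-1 : ℝ) 1 := ⟨hk.1.le, by linarith [hk.2, hκ₀.2]⟩
    obtain ⟨u, w, h⟩ := rh_ex hEx hAx hn hk1
    obtain ⟨bu, bw⟩ := rh_bd h
    obtain ⟨m1, m2⟩ := rh_mono hEx hAm hn hκ₀ hk1 hk.2 h0 h
    obtain ⟨c, hc, h2⟩ := rh_wk hEx hSc hn hk1 hk0 h
    have e1 := h2 θ hθ hZ1
    have e2 := h2 η hη hZ2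
    have h3 := rh_sq hx hy bu₀ bw₀ bu bw hyx m1 m2
    rw [← hX0, ← hY0] at h3
    set X := √((1 - cos θ * u) * (1 - cos θ * w)) with hX
    set Y := √((1 - cos η * u) * (1 - cos η * w)) with hY
    have pX : 0 < X := Real.sqrt_pos.2 (mul_pos (rh_p hx bu) (rh_p hx bw))
    have pY : 0 < Y := Real.sqrt_pos.2 (mul_pos (rh_p hy bu) (rh_p hy bw))
    have f1 : wk n k θ = sin θ / (X * c) := by
      rw [eq_div_iff (by positivity), ← e1]; ring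
    have f2 : wk n k η = sin η / (Y * c) := by
      rw [eq_div_iff (by positivity), ← e2]; ring
    rw [f1, f2]
    rw [show sin η / sin θ * (X0 / Y0) * (sin θ / (X * c)) = sin η * X0 / (Y0 * X * c) by
      field_simp]
    rw [div_le_div_iff₀ (by positivity) (by positivity)]
    have h4 : 0 ≤ sin η * c := by positivity
    nlinarith [mul_le_mul_of_nonneg_left h3 h4]

end Pool.Agent.Helper40.TV
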