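import Pool.Agent.Helper40.TV.St1

/-!
Comparison of the densities at different points.
-/

set_option autoImplicit false

namespace Pool.Agent.Helper40.TV

open Polynomial Set Real
open Pool.Agent.Helper40.AS (Bdd)

theorem rt_nn (n : ℕ) (k θ : ℝ) : 0 ≤ wk n k θ := by
  unfold wk
  positivity

theorem rt_cos {θ : ℝ} (h : θ ∈ Ioo 0 π) : cos θ ∈ Ioo (-1 : ℝ) 1 := by
  constructor
  · rw [← cos_pi]
    exact cos_lt_cos_of_nonneg_of_le_pi h.1.le le_rfl h.2
  · rw [← cos_zero]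
    exact cos_lt_cos_of_nonneg_of_le_pi le_rfl h.2.le h.1

theorem rt_tp {θ : ℝ} (h : θ ∈ Ioo 0 π) : 0 < tan (θ / 2) :=
  tan_pos_of_pos_of_lt_pi_div_two (by linarith [h.1]) (by linarith [h.2])

theorem rt_tan {θ : ℝ} (h : θ ∈ Ioo 0 π) :
    tan (θ / 2) ^ 2 * (1 + cos θ) = 1 - cos θ := by
  have h1 : cos θ = 2 * cos (θ / 2) ^ 2 - 1 := by
    rw [← cos_two_mul]; ring_nf
  have h2 : sin (θ / 2) ^ 2 + cos (θ / 2) ^ 2 = 1 := sin_sq_add_cos_sq _
  have hc : 0 < cos (θ / 2) :=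
    cos_pos_of_mem_Ioo ⟨by linarith [h.1, pi_pos], by linarith [h.2]⟩
  rw [h1, tan_eq_sin_div_cos]
  field_simp
  nlinarith [h2]

/-- the square of the density -/
theorem rt_sq (hEx : Ex) (hAx : Ax) {n : ℕ} {k : ℝ} (hn : 3 ≤ n) (hk : 0 < k) (hk1 : k ≤ 1) :
    ∃ α β : ℝ, 1 ≤ α ∧ α ≤ β ∧ ∀ θ ∈ Ioo 0 π, (Zc n k).eval (cos θ) ^ 2 ≠ 1 →
      wk n k θ ^ 2 * (k ^ 2 * ((α - cos θ) * (β - cos θ))) = 1 - cos θ ^ 2 := by
  have hM := mem_c (hEx n k hn ⟨by linarith, hk1⟩)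
  obtain ⟨α, β, γ, hA⟩ := hAx n k (Zc n k) (xc n k) hn hk hM
  refine ⟨α, β, hA.g1.trans hA.ga, hA.ab, fun θ hθ hZ => ?_⟩
  have hb := hM.bdd
  have hc := rt_cos hθ
  have hZ1 : (Zc n k).eval (cos θ) ^ 2 < 1 := by
    have h1 : |(Zc n k).eval (cos θ)| ≤ 1 := hb _ ⟨hc.1.le, hc.2.le⟩
    have h2 : (Zc n k).eval (cos θ) ^ 2 ≤ 1 := by
      rw [← sq_abs]
      nlinarith [abs_nonneg ((Zc n k).eval (cos θ))]
    exact lt_of_le_of_ne h2 hZ
  have hid := congrArg (fun p : ℝ[X] => p.eval (cos θ)) hA.id1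
  simp only [eval_mul, eval_sub, eval_pow, eval_one, eval_X, eval_C] at hid
  have hpos : 0 < 1 - (Zc n k).eval (cos θ) ^ 2 := by linarith
  have hw : wk n k θ ^ 2 * (1 - (Zc n k).eval (cos θ) ^ 2) =
      4 ^ (n - 1) * (om n (xc n k)).eval (cos θ) ^ 2 := by
    unfold wk
    rw [div_pow, Real.sq_sqrt hpos.le, mul_pow, sq_abs, ← pow_mul, mul_comm (n - 1) 2, pow_mul]
    norm_num
    field_simp
  have h3 : (wk n k θ ^ 2 * (k ^ 2 * ((α - cos θ) * (β - cos θ))) - (1 - cos θ ^ 2)) *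
      (1 - (Zc n k).eval (cos θ) ^ 2) = 0 := by
    linear_combination (k ^ 2 * ((α - cos θ) * (β - cos θ))) * hw - hid
  rcases mul_eq_zero.1 h3 with h | h
  · linarith
  · exact absurd h hpos.ne'

theorem rt_pos (hEx : Ex) (hAx : Ax) {n : ℕ} {k θ η : ℝ} (hn : 3 ≤ n) (hk : 0 < k)
    (hk1 : k ≤ 1) (hθ : θ ∈ Ioo 0 π) (hη : η ∈ Ioo 0 π) (hle : θ ≤ η)
    (hZθ : (Zc n k).eval (cos θ) ^ 2 ≠ 1) (hZη : (Zc n k).eval (cos η) ^ 2 ≠ 1) :
    wk n k θ * tan (θ / 2) ≤ wk n k η * tan (η / 2) ∧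
      wk n k η * tan (θ / 2) ≤ wk n k θ * tan (η / 2) := by
  obtain ⟨α, β, h1, h2, hs⟩ := rt_sq hEx hAx hn hk hk1
  have ex := hs θ hθ hZθ
  have ey := hs η hη hZη
  have tx := rt_tan hθ
  have ty := rt_tan hη
  have hx := rt_cos hθ
  have hy := rt_cos hη
  have hxy : cos η ≤ cos θ := cos_le_cos_of_nonneg_of_le_pi hθ.1.le hη.2.le hle
  have px := rt_tp hθ
  have py := rt_tp hη
  have nx := rt_nn n k θ
  have ny := rt_nn n k η
  set x := cos θ
  set y := cos η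
  set u := wk n k θ
  set v := wk n k η
  set s := tan (θ / 2)
  set t := tan (η / 2)
  have ax : 0 < α - x := by linarith [hx.2]
  have bx : 0 < β - x := by linarith [hx.2]
  have ay : 0 < α - y := by linarith [hy.2]
  have by' : 0 < β - y := by linarith [hy.2]
  have hA : 0 < k ^ 2 * ((α - x) * (β - x)) := by positivity
  have hB : 0 < k ^ 2 * ((α - y) * (β - y)) := by positivity
  have x1 : 0 < 1 + x := by linarith [hx.1]
  have y1 : 0 < 1 + y := by linarith [hy.1]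
  have x2 : 0 < 1 - x := by linarith [hx.2]
  have y2 : 0 < 1 - y := by linarith [hy.2]
  have eu : u ^ 2 = (1 - x ^ 2) / (k ^ 2 * ((α - x) * (β - x))) := by
    rw [eq_div_iff hA.ne', ex]
  have ev : v ^ 2 = (1 - y ^ 2) / (k ^ 2 * ((α - y) * (β - y))) := by
    rw [eq_div_iff hB.ne', ey]
  have es : s ^ 2 = (1 - x) / (1 + x) := by
    rw [eq_div_iff x1.ne', tx]
  have et : t ^ 2 = (1 - y) / (1 + y) := by
    rw [eq_div_iff y1.ne', ty]
  constructor
  · refine le_of_sq_le_sq ?_ (by positivity)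
    have i1 : (1 - x) * (α - y) ≤ (1 - y) * (α - x) := by nlinarith
    have i2 : (1 - x) * (β - y) ≤ (1 - y) * (β - x) := by nlinarith
    have i3 : ((1 - x) * (α - y)) * ((1 - x) * (β - y)) ≤
        ((1 - y) * (α - x)) * ((1 - y) * (β - x)) :=
      mul_le_mul i1 i2 (by positivity) (by positivity)
    have e1 : (u * s) ^ 2 = (1 - x) ^ 2 / (k ^ 2 * ((α - x) * (β - x))) := by
      rw [mul_pow, eu, es]
      field_simp
      ring
    have e2 : (v * t) ^ 2 = (1 - y) ^ 2 / (k ^ 2 * ((α - y) * (β - y))) := by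
      rw [mul_pow, ev, et]
      field_simp
      ring
    rw [e1, e2, div_le_div_iff₀ hA hB]
    have := mul_le_mul_of_nonneg_left i3 (sq_nonneg k)
    linarith
  · refine le_of_sq_le_sq ?_ (by positivity)
    have i1 : (1 + y) * (α - x) ≤ (1 + x) * (α - y) := by nlinarith
    have i2 : (1 + y) * (β - x) ≤ (1 + x) * (β - y) := by nlinarith
    have i3 : ((1 + y) * (α - x)) * ((1 + y) * (β - x)) ≤
        ((1 + x) * (α - y)) * ((1 + x) * (β - y)) :=
      mul_le_mul i1 i2 (by positivity) (by positivity)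
    have e1 : (v * s) ^ 2 = ((1 - x) * (1 - y)) * (1 + y) /
        ((1 + x) * (k ^ 2 * ((α - y) * (β - y)))) := by
      rw [mul_pow, ev, es]
      field_simp
      ring
    have e2 : (u * t) ^ 2 = ((1 - x) * (1 - y)) * (1 + x) /
        ((1 + y) * (k ^ 2 * ((α - x) * (β - x)))) := by
      rw [mul_pow, eu, et]
      field_simp
      ring
    rw [e1, e2, div_le_div_iff₀ (by positivity) (by positivity)]
    have h0 : 0 ≤ k ^ 2 * ((1 - x) * (1 - y)) := by positivity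
    have := mul_le_mul_of_nonneg_left i3 h0
    linarith

theorem rt (hEx : Ex) (hAx : Ax) (hSc : Sc) : Rt := by
  intro n θ η k hn hθ hη hle hk hk0 hZθ hZη
  rcases lt_or_gt_of_ne hk0 with hneg | hpos
  · have hmem : -k ∈ Icc (-1 : ℝ) 1 := ⟨by linarith, by linarith [hk.1]⟩
    obtain ⟨hZ, -, -, hw, -⟩ := hSc n (-k) hn hmem
    rw [neg_neg] at hZ hw
    have hev : ∀ φ : ℝ, (Zc n k).eval (cos φ) ^ 2 = (Zc n (-k)).eval (cos (π - φ)) ^ 2 := by
      intro φ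
      rw [hZ, cos_pi_sub]
      simp only [eval_mul, eval_C, eval_comp, eval_neg, eval_X, mul_pow]
      rw [← pow_mul, mul_comm (n + 1) 2, pow_mul]
      norm_num
    rw [hev] at hZθ hZη
    have hθ' : π - θ ∈ Ioo 0 π := ⟨by linarith [hθ.2], by linarith [hθ.1]⟩
    have hη' : π - η ∈ Ioo 0 π := ⟨by linarith [hη.2], by linarith [hη.1]⟩
    have key := rt_pos hEx hAx hn (neg_pos.2 hneg) hmem.2 hη' hθ' (by linarith) hZη hZθ
    rw [← hw, ← hw] at key
    have e : ∀ φ : ℝ, tan ((π - φ) / 2) = (tan (φ / 2))⁻¹ := by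
      intro φ
      rw [← tan_pi_div_two_sub]
      congr 1
      ring
    rw [e, e] at key
    have px := rt_tp hθ
    have py := rt_tp hη
    obtain ⟨k1, k2⟩ := key
    rw [← div_eq_mul_inv, ← div_eq_mul_inv] at k1 k2
    rw [div_le_div_iff₀ py px] at k1
    rw [div_le_div_iff₀ py px] at k2
    exact ⟨k2, k1⟩
  · exact rt_pos hEx hAx hn hpos hk.2.le hθ hη hle hZθ hZη

end Pool.Agent.Helper40.TV
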