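import Pool.Agent.Helper40.TV.St1

/-!
Reflection of the chosen members and of the phases.
-/

set_option autoImplicit false

namespace Pool.Agent.Helper40.TV

open Polynomial Set Real
open Pool.Agent.Helper40.AS (Bdd)

noncomputable section

theorem sc_lt {n : ℕ} {x : ℕ → ℝ} (h : ∀ i, i + 1 < n → x i < x (i + 1)) {i j : ℕ} (hij : i < j)
    (hj : j < n) : x i < x j := by
  induction j with
  | zero => omega
  | succ j ih =>
    rcases Nat.lt_succ_iff_lt_or_eq.mp hij with h1 | h1
    · exact (ih h1 (by omega)).trans (h j hj)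
    · subst h1
      exact h i hj

theorem sc_cnt {n : ℕ} {x x' : ℕ → ℝ} (h : ∀ i < n, x' i = -x (n - 1 - i)) (y : ℝ) :
    cnt n x' y = ((Finset.range n).filter fun j => x j < -y).card := by
  classical
  unfold cnt
  rw [Finset.card_filter, Finset.card_filter, ← Finset.sum_range_reflect]
  refine Finset.sum_congr rfl fun i hi => ?_
  rw [Finset.mem_range] at hi
  have h1 : (y < x' (n - 1 - i)) ↔ x i < -y := by
    rw [h (n - 1 - i) (by omega)]
    have h2 : n - 1 - (n - 1 - i) = i := by omega
    rw [h2]
    constructor <;> intro h3 <;> linarith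
  simp only [h1]

theorem sc_card {n : ℕ} {x : ℕ → ℝ} {z : ℝ} (h : ∀ j < n, x j ≠ z) :
    ((Finset.range n).filter fun j => x j < z).card + cnt n x z = n := by
  classical
  have h1 := Finset.card_filter_add_card_filter_not (s := Finset.range n) fun j => x j < z
  rw [Finset.card_range] at h1
  have h2 : ((Finset.range n).filter fun j => ¬ x j < z) =
      (Finset.range n).filter fun j => z < x j := by
    refine Finset.filter_congr fun j hj => ?_
    rw [Finset.mem_range] at hj
    constructor
    · intro h3
      exact lt_of_le_of_ne (not_lt.mp h3) (h j hj).symm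
    · intro h3
      exact not_lt.mpr h3.le
  rw [h2] at h1
  unfold cnt
  convert h1

theorem sc_card_node {n : ℕ} {x : ℕ → ℝ} (h : ∀ i, i + 1 < n → x i < x (i + 1)) {j : ℕ}
    (hj : j < n) : ((Finset.range n).filter fun i => x i < x j).card = j ∧
      cnt n x (x j) + j + 1 = n := by
  classical
  constructor
  · have h1 : ((Finset.range n).filter fun i => x i < x j) = Finset.range j := by
      ext i
      rw [Finset.mem_filter, Finset.mem_range, Finset.mem_range]
      constructor
      · rintro ⟨h2, h3⟩
        by_contra h4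
        rcases (not_lt.mp h4).eq_or_lt with h5 | h5
        · rw [h5] at h3
          exact lt_irrefl _ h3
        · exact absurd (sc_lt h h5 h2) (not_lt.mpr h3.le)
      · intro h2
        exact ⟨by omega, sc_lt h h2 hj⟩
    rw [h1, Finset.card_range]
  · have h1 : ((Finset.range n).filter fun i => x j < x i) = Finset.Ico (j + 1) n := by
      ext i
      rw [Finset.mem_filter, Finset.mem_range, Finset.mem_Ico]
      constructor
      · rintro ⟨h2, h3⟩
        refine ⟨?_, h2⟩
        by_contra h4
        rcases (Nat.le_of_lt_succ (not_le.mp h4)).eq_or_lt with h5 | h5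
        · rw [h5] at h3
          exact lt_irrefl _ h3
        · exact absurd (sc_lt h h5 hj) (not_lt.mpr h3.le)
      · rintro ⟨h2, h3⟩
        exact ⟨h3, sc_lt h h2 h3⟩
    have h2 : cnt n x (x j) = (Finset.Ico (j + 1) n).card := by
      rw [← h1]
      unfold cnt
      convert rfl
    rw [h2, Nat.card_Ico]
    omega

/-- Reflection of the chosen members and of the phases. -/
theorem sc (hEx : Ex) (hUn : Un) (hSy : Sy) : Sc := by
  classical
  intro n κ hn hκ
  have hκ' : -κ ∈ Icc (-1 : ℝ) 1 := ⟨by linarith [hκ.2], by linarith [hκ.1]⟩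
  have M := mem_c (hEx n κ hn hκ)
  have M' := mem_c (hEx n (-κ) hn hκ')
  obtain ⟨h1, h2⟩ := hUn n (-κ) _ _ _ _ hn M' (hSy n κ _ _ hn M)
  have he : ∀ y : ℝ, (Zc n (-κ)).eval y = (-1) ^ (n + 1) * (Zc n κ).eval (-y) := by
    intro y
    rw [h1]
    simp [eval_comp]
  have hsq : ∀ y : ℝ, (Zc n (-κ)).eval y ^ 2 = (Zc n κ).eval (-y) ^ 2 := by
    intro y
    rw [he, mul_pow, ← pow_mul, mul_comm (n + 1) 2, pow_mul]
    norm_num
  refine ⟨h1, h2, ?_, ?_, ?_⟩
  · intro θ _
    unfold Ph ph
    rw [Real.cos_pi_sub, sc_cnt h2, he]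
    set y := cos θ with hy
    by_cases hN : ∀ j < n, xc n κ j ≠ -y
    · have h3 := sc_card hN
      set A := ((Finset.range n).filter fun j => xc n κ j < -y).card with hA
      set N := cnt n (xc n κ) (-y) with hNdef
      have h4 : (A : ℝ) + N = n := by exact_mod_cast h3
      have h5 : (-1 : ℝ) ^ A * ((-1) ^ (n + 1) * (Zc n κ).eval (-y)) =
          -((-1) ^ N * (Zc n κ).eval (-y)) := by
        have h6 : A + (n + 1) = 2 * A + (N + 1) := by omega
        rw [← mul_assoc, ← pow_add, h6, pow_add, pow_mul, neg_one_sq, one_pow, one_mul, pow_succ]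
        ring
      rw [h5, Real.arccos_neg, ← h4]
      ring
    · push Not at hN
      obtain ⟨j, hj, hjy⟩ := hN
      rw [← hjy]
      obtain ⟨h3, h4⟩ := sc_card_node M.lt hj
      have h5 : ((cnt n (xc n κ) (xc n κ j) : ℕ) : ℝ) + j + 1 = n := by exact_mod_cast h4
      rw [h3, M.val j hj]
      set N := cnt n (xc n κ) (xc n κ j) with hNdef
      have h6 : (-1 : ℝ) ^ j * ((-1) ^ (n + 1) * (-1) ^ (n - j)) = -1 := by
        rw [← pow_add, ← pow_add]
        have : j + (n + 1 + (n - j)) = 2 * n + 1 := by omega
        rw [this, pow_succ, pow_mul]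
        norm_num
      have h7 : (-1 : ℝ) ^ N * (-1) ^ (n - j) = -1 := by
        rw [← pow_add]
        have : N + (n - j) = 2 * N + 1 := by omega
        rw [this, pow_succ, pow_mul]
        norm_num
      rw [h6, h7, Real.arccos_neg_one, ← h5]
      ring
  · intro θ
    unfold wk
    rw [Real.cos_pi_sub, hsq]
    congr 2
    unfold om
    rw [eval_prod, eval_prod, Finset.abs_prod, Finset.abs_prod,
      ← Finset.prod_range_reflect]
    refine Finset.prod_congr rfl fun i hi => ?_
    rw [Finset.mem_range] at hi
    rw [h2 (n - 1 - i) (by omega)]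
    have h3 : n - 1 - (n - 1 - i) = i := by omega
    rw [h3]
    simp only [eval_sub, eval_X, eval_C]
    rw [← abs_neg]
    congr 1
    ring
  · intro θ
    unfold dk
    rw [Real.cos_pi_sub, Real.sin_pi_sub, hsq, h1]
    congr 2
    rw [derivative_mul, derivative_C, derivative_comp]
    simp only [zero_mul, zero_add, derivative_neg, derivative_X, eval_mul, eval_C, eval_comp,
      eval_neg, eval_X, eval_one, abs_mul, abs_neg, abs_pow, abs_one, one_pow, one_mul]

end

end Pool.Agent.Helper40.TV
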