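import Pool.Agent.Helper40.TV.St1

/-!
Chebyshev polynomials as members of the family.
-/

set_option autoImplicit false

namespace Pool.Agent.Helper40.TV

open Polynomial Set Real
open Pool.Agent.Helper40.AS (Bdd)

theorem sp_bdd (n : ℤ) : Bdd (Polynomial.Chebyshev.T ℝ n) := fun _ hx =>
  Polynomial.Chebyshev.abs_eval_T_real_le_one n (abs_le.2 ⟨hx.1, hx.2⟩)

theorem sp_bddn (n : ℤ) : Bdd (-Polynomial.Chebyshev.T ℝ n) := fun x hx => by
  rw [eval_neg, abs_neg]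
  exact sp_bdd n x hx

theorem sp_val (m j : ℕ) (hm : 0 < m) (t : ℝ) (ht : t = (j : ℝ)) :
    (Polynomial.Chebyshev.T ℝ m).eval (cos (t * π / m)) = (-1) ^ j := by
  have hm' : (m : ℝ) ≠ 0 := by exact_mod_cast hm.ne'
  subst ht
  rw [Polynomial.Chebyshev.T_real_cos]
  have h : ((m : ℤ) : ℝ) * ((j : ℝ) * π / m) = (j : ℝ) * π := by
    push_cast
    field_simp
  rw [h, Real.cos_nat_mul_pi]

theorem sp_lt (m : ℕ) (hm : 0 < m) (s t : ℝ) (h0 : 0 ≤ s) (h : s < t) (h1 : t ≤ m) :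
    cos (t * π / m) < cos (s * π / m) := by
  have hm' : (0 : ℝ) < m := by exact_mod_cast hm
  have hp := Real.pi_pos
  have e1 : s * π / m < t * π / m := by gcongr
  have e2 : 0 ≤ s * π / m := by positivity
  have e3 : t * π / m ≤ π := by
    rw [div_le_iff₀ hm']
    nlinarith
  exact Real.strictAntiOn_cos ⟨e2, by linarith⟩ ⟨by linarith, e3⟩ e1

theorem sp_mem (t : ℝ) : cos t ∈ Icc (-1 : ℝ) 1 := ⟨Real.neg_one_le_cos t, Real.cos_le_one t⟩

theorem sp_deg (m : ℕ) : (Polynomial.Chebyshev.T ℝ (m : ℤ)).natDegree = m := by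
  rw [Polynomial.Chebyshev.natDegree_T]
  simp

theorem sp_lead (m : ℕ) : (Polynomial.Chebyshev.T ℝ (m : ℤ)).coeff m = 2 ^ (m - 1) := by
  have h := Polynomial.Chebyshev.leadingCoeff_T (R := ℝ) (m : ℤ)
  rw [leadingCoeff, sp_deg] at h
  rw [h]
  simp

theorem sp_neg (n i : ℕ) (hi : i < n) : -((-1 : ℝ) ^ (n - 1 - i)) = (-1) ^ (n - i) := by
  have h : n - i = (n - 1 - i) + 1 := by omega
  rw [h, pow_succ]
  ring

theorem sp : Sp := by
  intro n hn
  have hnn : (3 : ℝ) ≤ n := by exact_mod_cast hn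
  have hc : (((n - 1 : ℕ) : ℝ)) = (n : ℝ) - 1 := by
    rw [Nat.cast_sub (by omega)]
    simp
  refine ⟨⟨?_, sp_bdd _, ?_, ?_, fun i _ => sp_mem _, ?_⟩,
    ⟨?_, sp_bddn _, ?_, ?_, fun i _ => sp_mem _, ?_⟩,
    ⟨?_, sp_bddn _, ?_, ?_, fun i _ => sp_mem _, ?_⟩⟩
  · exact (sp_deg n).le
  · rw [sp_lead, one_mul]
  · intro i hi
    have hi' : (i : ℝ) + 1 + 1 ≤ n := by exact_mod_cast hi
    have h0 : (0 : ℝ) ≤ i := Nat.cast_nonneg i
    refine sp_lt n (by omega) _ _ ?_ ?_ ?_ <;> push_cast <;> linarith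
  · intro i hi
    refine sp_val n (n - i) (by omega) _ ?_
    rw [Nat.cast_sub hi.le]
  · rw [natDegree_neg]
    exact (sp_deg n).le
  · rw [coeff_neg, sp_lead]
    ring
  · intro i hi
    have hi' : (i : ℝ) + 1 + 1 ≤ n := by exact_mod_cast hi
    have h0 : (0 : ℝ) ≤ i := Nat.cast_nonneg i
    refine sp_lt n (by omega) _ _ ?_ ?_ ?_ <;> push_cast <;> linarith
  · intro i hi
    rw [eval_neg, sp_val n (n - 1 - i) (by omega), sp_neg n i hi]
    rw [Nat.cast_sub (by omega), hc]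
  · rw [natDegree_neg, sp_deg]
    omega
  · rw [coeff_neg, coeff_eq_zero_of_natDegree_lt]
    · ring
    · rw [sp_deg]
      omega
  · intro i hi
    have hi' : (i : ℝ) + 1 + 1 ≤ n := by exact_mod_cast hi
    have h0 : (0 : ℝ) ≤ i := Nat.cast_nonneg i
    show cos (((n : ℝ) - 1 - i) * π / ((n : ℝ) - 1)) <
      cos (((n : ℝ) - 1 - ((i + 1 : ℕ) : ℝ)) * π / ((n : ℝ) - 1))
    rw [← hc]
    refine sp_lt (n - 1) (by omega) _ _ ?_ ?_ ?_
    · push_cast
      rw [hc]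
      linarith
    · push_cast
      linarith
    · linarith
  · intro i hi
    show (-Polynomial.Chebyshev.T ℝ ((n - 1 : ℕ) : ℤ)).eval
      (cos (((n : ℝ) - 1 - i) * π / ((n : ℝ) - 1))) = _
    rw [← hc, eval_neg, sp_val (n - 1) (n - 1 - i) (by omega), sp_neg n i hi]
    rw [Nat.cast_sub (by omega : i ≤ n - 1)]

end Pool.Agent.Helper40.TV
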