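import Pool.Agent.Helper40.TV.St1

/-!
Stretched Chebyshev polynomials are members of the family.
-/

set_option autoImplicit false

namespace Pool.Agent.Helper40.TV

open Polynomial Set Real
open Pool.Agent.Helper40.AS (Bdd)

theorem ss_deg (l : ℝ) (hl : l ≠ 0) : (C l * (X + 1) - 1 : ℝ[X]).natDegree = 1 ∧
    (C l * (X + 1) - 1 : ℝ[X]).leadingCoeff = l := by
  have h : (C l * (X + 1) - 1 : ℝ[X]) = C l * X + C (l - 1) := by
    rw [C_sub, C_1]; ring
  rw [h]
  exact ⟨natDegree_linear hl, leadingCoeff_linear hl⟩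

theorem ss : Ss := by
  intro n l hn hl hl1
  have hn0 : (0 : ℝ) < n := by
    have : 0 < n := by omega
    exact_mod_cast this
  have hπ := Real.pi_pos
  have hn1 : (1 : ℝ) < n := by
    have : 1 < n := by omega
    exact_mod_cast this
  have hπn : π / n < π := by
    rw [div_lt_iff₀ hn0]; nlinarith
  have hcos : -1 < cos (π / n) := by
    rw [← cos_pi]
    exact cos_lt_cos_of_nonneg_of_le_pi (by positivity) le_rfl hπn
  have hl0 : 0 < l := by linarith
  have hφ : ∀ i < n, 0 < ((n : ℝ) - i) * π / n ∧ ((n : ℝ) - i) * π / n ≤ π ∧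
      π / n ≤ ((n : ℝ) - i) * π / n := by
    intro i hi
    have h1 : (1 : ℝ) ≤ (n : ℝ) - i := by
      have : i + 1 ≤ n := hi
      have : ((i + 1 : ℕ) : ℝ) ≤ n := by exact_mod_cast this
      push_cast at this; linarith
    have h2 : (0 : ℝ) ≤ i := Nat.cast_nonneg i
    refine ⟨by positivity, ?_, ?_⟩
    · rw [div_le_iff₀ hn0]; nlinarith
    · exact div_le_div_of_nonneg_right (by nlinarith) hn0.le
  obtain ⟨hd, hlc⟩ := ss_deg l hl0.ne'
  refine ⟨?_, ?_, ?_, ?_, ?_, ?_⟩
  · rw [natDegree_comp, hd, Chebyshev.natDegree_T]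
    simp
  · intro x hx
    rw [eval_comp]
    apply Chebyshev.abs_eval_T_real_le_one
    simp only [eval_sub, eval_mul, eval_C, eval_add, eval_X, eval_one]
    rw [abs_le]
    have h1 : 0 ≤ l * (x + 1) := mul_nonneg hl0.le (by linarith [hx.1])
    have h2 : l * (x + 1) ≤ 1 * 2 := mul_le_mul hl1 (by linarith [hx.2]) (by linarith [hx.1]) (by norm_num)
    constructor <;> linarith
  · have h := coeff_comp_degree_mul_degree (p := Chebyshev.T ℝ n) (q := (C l * (X + 1) - 1 : ℝ[X]))
      (by rw [hd]; norm_num)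
    rw [hd, hlc, Chebyshev.natDegree_T, Chebyshev.leadingCoeff_T] at h
    simp only [Int.natAbs_natCast, mul_one] at h
    rw [h]; ring
  · intro i hi
    have h := hφ i (by omega)
    have h' := hφ (i + 1) hi
    have hc : cos (((n : ℝ) - i) * π / n) < cos (((n : ℝ) - (i + 1 : ℕ)) * π / n) := by
      apply cos_lt_cos_of_nonneg_of_le_pi h'.1.le h.2.1
      apply div_lt_div_of_pos_right _ hn0
      push_cast
      nlinarith
    have := div_lt_div_of_pos_right (show 1 + cos (((n : ℝ) - i) * π / n) <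
      1 + cos (((n : ℝ) - (i + 1 : ℕ)) * π / n) by linarith) hl0
    simpa using this
  · intro i hi
    have h := hφ i hi
    have h1 : -1 ≤ cos (((n : ℝ) - i) * π / n) := neg_one_le_cos _
    have h2 : cos (((n : ℝ) - i) * π / n) ≤ cos (π / n) :=
      cos_le_cos_of_nonneg_of_le_pi (by positivity) h.2.1 h.2.2
    constructor
    · have : 0 ≤ (1 + cos (((n : ℝ) - i) * π / n)) / l := div_nonneg (by linarith) hl0.le
      simpa using this
    · have : (1 + cos (((n : ℝ) - i) * π / n)) / l ≤ 2 := by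
        rw [div_le_iff₀ hl0]; linarith
      show (1 + cos (((n : ℝ) - i) * π / n)) / l - 1 ≤ 1
      linarith
  · intro i hi
    rw [eval_comp]
    simp only [eval_sub, eval_mul, eval_C, eval_add, eval_X, eval_one]
    have h1 : l * ((1 + cos (((n : ℝ) - i) * π / n)) / l - 1 + 1) - 1 =
        cos (((n : ℝ) - i) * π / n) := by
      field_simp
      ring
    rw [h1, Chebyshev.T_real_cos]
    have h2 : ((n : ℤ) : ℝ) * (((n : ℝ) - i) * π / n) = ((n - i : ℕ) : ℝ) * π := by
      rw [Nat.cast_sub hi.le]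
      push_cast
      field_simp
    rw [h2, cos_nat_mul_pi]

end Pool.Agent.Helper40.TV
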