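import Pool.Agent.Helper40.TV.St3

/-!
The length of a chain of critical points, with the loss at one of its points.
-/

set_option autoImplicit false

namespace Pool.Agent.Helper40.TV

open Polynomial Set Real
open Pool.Agent.Helper40.AS (Bdd)

theorem su_nu_nonneg (K : ℝ) (n : ℕ) (s t : ℝ) : 0 ≤ nu K n s t := by
  unfold nu
  rw [sub_nonneg, exp_le_one_iff, neg_nonpos]
  positivity

theorem su_nu {K e : ℝ} (_hK : 0 < K) (he : 0 < e) {n : ℕ} {s t : ℝ}
    (h : e ≤ (n : ℝ) ^ 2 * |cos s - cos t|) :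
    1 - exp (-(2 * e ^ 2 / (K + 7) ^ 4)) ≤ nu K n s t := by
  unfold nu
  have h1 : e ^ 2 ≤ ((n : ℝ) ^ 2 * (cos s - cos t)) ^ 2 := by
    rw [← sq_abs ((n : ℝ) ^ 2 * (cos s - cos t)), abs_mul, abs_of_nonneg (sq_nonneg (n : ℝ))]
    exact pow_le_pow_left₀ he.le h 2
  have h2 : 2 * e ^ 2 / (K + 7) ^ 4 ≤
      2 * ((n : ℝ) ^ 2 * (cos s - cos t)) ^ 2 / (K + 7) ^ 4 := by
    apply div_le_div_of_nonneg_right _ (by positivity)
    linarith
  have h3 := exp_le_exp.2 (neg_le_neg h2)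
  linarith

/-- points at distance at least `d / (2 n)` -/
theorem su_cos {d : ℝ} (hd : 0 < d) {n : ℕ} (hn : 0 < n) {s t : ℝ} (hs : 0 ≤ s)
    (ht : t ≤ π / 2) (h : d / 2 ≤ n * (t - s)) : d ^ 2 / 32 ≤ (n : ℝ) ^ 2 * (cos s - cos t) := by
  have hn0 : (0 : ℝ) < n := by exact_mod_cast hn
  have hst : s < t := by
    by_contra hc
    have h1 : (n : ℝ) * (t - s) ≤ 0 :=
      mul_nonpos_of_nonneg_of_nonpos hn0.le (by linarith [not_lt.1 hc])
    linarith
  have hpi := pi_pos
  have hpi4 := pi_le_four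
  have hsin : ∀ x : ℝ, 0 ≤ x → x ≤ π / 2 → x / 2 ≤ sin x := by
    intro x hx hx'
    refine le_trans ?_ (mul_le_sin hx hx')
    have h1 : 1 / 2 ≤ 2 / π := by
      rw [le_div_iff₀ hpi]
      linarith
    calc x / 2 = 1 / 2 * x := by ring
      _ ≤ 2 / π * x := mul_le_mul_of_nonneg_right h1 hx
  have h1 := hsin ((s + t) / 2) (by linarith) (by linarith)
  have h2 := hsin ((t - s) / 2) (by linarith) (by linarith)
  have h3 : cos s - cos t = 2 * (sin ((s + t) / 2) * sin ((t - s) / 2)) := by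
    rw [cos_sub_cos]
    have h4 : (s - t) / 2 = -((t - s) / 2) := by ring
    rw [h4, sin_neg]
    ring
  have h5 : d / 8 ≤ n * sin ((s + t) / 2) := by
    have h6 : d / 2 ≤ n * t := by
      have h7 : (0 : ℝ) ≤ n * s := mul_nonneg hn0.le hs
      linarith
    have h8 : (n : ℝ) * ((s + t) / 2 / 2) ≤ n * sin ((s + t) / 2) :=
      mul_le_mul_of_nonneg_left h1 hn0.le
    have h9 : (0 : ℝ) ≤ n * s := mul_nonneg hn0.le hs
    linarith
  have h6 : d / 8 ≤ n * sin ((t - s) / 2) := by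
    have h8 : (n : ℝ) * ((t - s) / 2 / 2) ≤ n * sin ((t - s) / 2) :=
      mul_le_mul_of_nonneg_left h2 hn0.le
    linarith
  have h7 : d / 8 * (d / 8) ≤ n * sin ((s + t) / 2) * (n * sin ((t - s) / 2)) :=
    mul_le_mul h5 h6 (by positivity) (by linarith)
  rw [h3]
  calc d ^ 2 / 32 = 2 * (d / 8 * (d / 8)) := by ring
    _ ≤ 2 * (n * sin ((s + t) / 2) * (n * sin ((t - s) / 2))) := by linarith
    _ = (n : ℝ) ^ 2 * (2 * (sin ((s + t) / 2) * sin ((t - s) / 2))) := by ring

theorem su (_hV1 : V1) (hW1 : W1) (hCd : Cd) (hNu : Nu) : Su := by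
  intro K δ d hK hδ hd
  obtain ⟨cN, hcN, nN, hN⟩ := hNu K δ hK hδ
  set c1 : ℝ := 1 - exp (-(2 * (d ^ 2 / 32) ^ 2 / (K + 7) ^ 4)) with hc1
  have hc1p : 0 < c1 := by
    rw [hc1, sub_pos, exp_lt_one_iff, neg_lt_zero]
    positivity
  refine ⟨min (min cN 1) c1, lt_min (lt_min hcN one_pos) hc1p, max nN ⌈K + 7⌉₊, ?_⟩
  intro n hn Th Z hF τ τ' P m θ hτ hτK hdτ hdeg hbdd hθ hδθ hcrit
  have hnN : nN ≤ n := (le_max_left _ _).trans hn
  have hnK : K + 7 ≤ n := (Nat.le_ceil _).trans (by exact_mod_cast (le_max_right _ _).trans hn)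
  have hn0 : (0 : ℝ) < n := by linarith
  have hn0' : 0 < n := by exact_mod_cast hn0
  have hpi := pi_gt_three
  have hττ : τ < τ' := by
    by_contra hc
    have h1 : (n : ℝ) * (τ' - τ) ≤ 0 :=
      mul_nonpos_of_nonneg_of_nonpos hn0.le (by linarith [not_lt.1 hc])
    linarith
  have hτ1 : τ' < 1 := by
    by_contra hc
    have h1 : (n : ℝ) * 1 ≤ n * τ' := mul_le_mul_of_nonneg_left (not_lt.1 hc) hn0.le
    linarith
  have hθlt : ∀ i < m, θ i < θ (i + 1) := by
    intro i hi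
    by_contra hc
    have h1 := hθ i hi.le
    have h2 := hθ (i + 1) hi
    have h3 : cos (θ i) ≤ cos (θ (i + 1)) :=
      cos_le_cos_of_nonneg_of_le_pi (by linarith [h2.1]) (by linarith [h1.2]) (not_lt.1 hc)
    have h4 : (n : ℝ) ^ 2 * (cos (θ i) - cos (θ (i + 1))) ≤ 0 :=
      mul_nonpos_of_nonneg_of_nonpos (by positivity) (by linarith)
    linarith [hδθ i hi]
  obtain ⟨L, s, hL, hs, hmeet, hpair, hE', hE, L', hL'⟩ := hCd n Th Z hF K τ τ' P m θ hK.le hnK
    hτ hττ.le hτK hdeg hbdd hθ hθlt hcrit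
  refine ⟨L', fun i hi => ?_⟩
  set p : ℕ → ℝ := fun j => P.eval (cos (θ j)) with hp
  have hple : ∀ j, |p j| ≤ 1 := fun j => hbdd _ ⟨neg_one_le_cos _, cos_le_one _⟩
  -- the pairs
  have hpr : ∀ j < m, |p (j + 1) - p j| ≤ 2 - cW (Th (L (j + 1)) (s j) - Th (L j) (s j)) -
      min cN 1 * ((1 - |p j|) + (1 - |p (j + 1)|)) := by
    intro j hj
    have h0 : 0 ≤ (1 - |p j|) + (1 - |p (j + 1)|) := by linarith [hple j, hple (j + 1)]
    rcases lt_or_ge (L j) (L (j + 1)) with h | h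
    · have h1 := hpair j hj h
      have h2 := hN n hnN Th Z hF (L j) (L (j + 1)) (θ j) (θ (j + 1)) (s j) (j : ℤ)
        (hτ.trans_le (hθ j hj.le).1) (hθlt j hj)
        ((mul_le_mul_of_nonneg_left (hθ (j + 1) hj).2 hn0.le).trans hτK) (hδθ j hj)
        (by rw [hL j hj.le]; push_cast; rfl) (by rw [hL (j + 1) hj]; push_cast; rfl) h (hs j hj)
        (by rw [hmeet j hj h]; push_cast; rfl)
      obtain ⟨-, -, h3, h4, -⟩ := h2
      have h5 : min cN 1 * (1 - |p j|) ≤ nu K n (s j) (θ j) * (1 - |p j|) :=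
        mul_le_mul_of_nonneg_right ((min_le_left _ _).trans h3) (by linarith [hple j])
      have h6 : min cN 1 * (1 - |p (j + 1)|) ≤ nu K n (s j) (θ (j + 1)) * (1 - |p (j + 1)|) :=
        mul_le_mul_of_nonneg_right ((min_le_left _ _).trans h4) (by linarith [hple (j + 1)])
      have h7 : |p (j + 1) - p j| + nu K n (s j) (θ j) * (1 - |p j|) +
        nu K n (s j) (θ (j + 1)) * (1 - |p (j + 1)|) ≤
        2 - cW (Th (L (j + 1)) (s j) - Th (L j) (s j)) := h1
      linarith
    · have hsj : s j ∈ Ioo 0 π := by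
        have h1 := hs j hj
        have h2 := hθ j hj.le
        have h3 := hθ (j + 1) hj
        exact ⟨by linarith [h1.1, h2.1], by linarith [h1.2, h3.2]⟩
      have h1 : Th (L (j + 1)) (s j) ≤ Th (L j) (s j) := (hF.mono (s j) hsj).monotone h
      rw [hW1.2.2.1 _ (by linarith)]
      have h2 : |p (j + 1) - p j| ≤ |p (j + 1)| + |p j| := abs_sub _ _
      have h3 : min cN 1 * ((1 - |p j|) + (1 - |p (j + 1)|)) ≤
          1 * ((1 - |p j|) + (1 - |p (j + 1)|)) :=
        mul_le_mul_of_nonneg_right (min_le_right _ _) h0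
      linarith
  have hmin0 : 0 ≤ min cN 1 := (lt_min hcN one_pos).le
  have hsum : ∑ j ∈ Finset.range m, |p (j + 1) - p j| ≤
      2 * m - ∑ j ∈ Finset.range m, cW (Th (L (j + 1)) (s j) - Th (L j) (s j)) -
      ∑ j ∈ Finset.range m, min cN 1 * ((1 - |p j|) + (1 - |p (j + 1)|)) := by
    have h1 : ∑ j ∈ Finset.range m, |p (j + 1) - p j| ≤
        ∑ j ∈ Finset.range m, (2 - cW (Th (L (j + 1)) (s j) - Th (L j) (s j)) -
          min cN 1 * ((1 - |p j|) + (1 - |p (j + 1)|))) :=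
      Finset.sum_le_sum fun j hj => hpr j (Finset.mem_range.1 hj)
    rw [Finset.sum_sub_distrib, Finset.sum_sub_distrib, Finset.sum_const, Finset.card_range,
      nsmul_eq_mul] at h1
    linarith
  have hloss : min (min cN 1) c1 * (1 - |p i|) ≤ nu K n τ' (θ m) * (1 - |p m|) +
      nu K n τ (θ 0) * (1 - |p 0|) +
      ∑ j ∈ Finset.range m, min cN 1 * ((1 - |p j|) + (1 - |p (j + 1)|)) := by
    have hm0 : 0 ≤ nu K n τ' (θ m) * (1 - |p m|) :=
      mul_nonneg (su_nu_nonneg _ _ _ _) (by linarith [hple m])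
    have h00 : 0 ≤ nu K n τ (θ 0) * (1 - |p 0|) :=
      mul_nonneg (su_nu_nonneg _ _ _ _) (by linarith [hple 0])
    have hj0 : ∀ j ∈ Finset.range m, 0 ≤ min cN 1 * ((1 - |p j|) + (1 - |p (j + 1)|)) :=
      fun j _ => mul_nonneg hmin0 (by linarith [hple j, hple (j + 1)])
    have hi1 : min (min cN 1) c1 * (1 - |p i|) ≤ min cN 1 * (1 - |p i|) :=
      mul_le_mul_of_nonneg_right (min_le_left _ _) (by linarith [hple i])
    rcases Nat.eq_zero_or_pos m with h0 | h0
    · have hi0 : i = 0 := by omega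
      subst h0
      subst hi0
      rw [Finset.range_zero, Finset.sum_empty, add_zero]
      have hsum1 : c1 ≤ nu K n τ' (θ 0) ∨ c1 ≤ nu K n τ (θ 0) := by
        have hθ0 := hθ 0 le_rfl
        rcases le_or_gt (d / 2) (n * (τ' - θ 0)) with h1 | h1
        · left
          refine su_nu hK (by positivity) ?_
          rw [abs_sub_comm]
          exact (su_cos hd hn0' (by linarith [hθ0.1]) (by linarith) h1).trans
            (mul_le_mul_of_nonneg_left (le_abs_self _) (by positivity))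
        · right
          refine su_nu hK (by positivity) ?_
          have h2 : d / 2 ≤ n * (θ 0 - τ) := by
            have h3 : (n : ℝ) * (τ' - τ) = n * (τ' - θ 0) + n * (θ 0 - τ) := by ring
            linarith
          exact (su_cos hd hn0' hτ.le (by linarith [hθ0.2]) h2).trans
            (mul_le_mul_of_nonneg_left (le_abs_self _) (by positivity))
      have h2 : min (min cN 1) c1 * (1 - |p 0|) ≤ c1 * (1 - |p 0|) :=
        mul_le_mul_of_nonneg_right (min_le_right _ _) (by linarith [hple 0])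
      rcases hsum1 with h1 | h1
      · have h3 : c1 * (1 - |p 0|) ≤ nu K n τ' (θ 0) * (1 - |p 0|) :=
          mul_le_mul_of_nonneg_right h1 (by linarith [hple 0])
        linarith
      · have h3 : c1 * (1 - |p 0|) ≤ nu K n τ (θ 0) * (1 - |p 0|) :=
          mul_le_mul_of_nonneg_right h1 (by linarith [hple 0])
        linarith
    · rcases Nat.lt_or_ge i m with h1 | h1
      · have h2 := Finset.single_le_sum hj0 (Finset.mem_range.2 h1)
        have h3 : 0 ≤ min cN 1 * (1 - |p (i + 1)|) :=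
          mul_nonneg hmin0 (by linarith [hple (i + 1)])
        have h4 : min cN 1 * ((1 - |p i|) + (1 - |p (i + 1)|)) =
          min cN 1 * (1 - |p i|) + min cN 1 * (1 - |p (i + 1)|) := by ring
        linarith
      · have hi' : i = m := by omega
        subst hi'
        have h2 := Finset.single_le_sum hj0 (Finset.mem_range.2 (show i - 1 < i by omega))
        have h5 : i - 1 + 1 = i := by omega
        simp only [h5] at h2
        have h3 : 0 ≤ min cN 1 * (1 - |p (i - 1)|) :=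
          mul_nonneg hmin0 (by linarith [hple (i - 1)])
        have h4 : min cN 1 * ((1 - |p (i - 1)|) + (1 - |p i|)) =
          min cN 1 * (1 - |p (i - 1)|) + min cN 1 * (1 - |p i|) := by ring
        linarith
  unfold pV at hL'
  have hE1 : |P.eval (cos τ') - p m| + nu K n τ' (θ m) * (1 - |p m|) ≤
      vv (Th (L m) τ') - 2 * m := hE'
  have hE2 : |P.eval (cos τ) - p 0| + nu K n τ (θ 0) * (1 - |p 0|) ≤ -vv (Th (L 0) τ) := hE
  show |P.eval (cos τ) - p 0| + ∑ j ∈ Finset.range m, |p (j + 1) - p j| +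
    |P.eval (cos τ') - p m| + min (min cN 1) c1 * (1 - |p i|) ≤ vv (Th L' τ') - vv (Th L' τ)
  linarith

end Pool.Agent.Helper40.TV
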