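import Pool.Agent.Helper40.TV.St1

/-!
Reflection of the members of the family of polynomials with `n` alternation points.
-/

set_option autoImplicit false

namespace Pool.Agent.Helper40.TV

open Polynomial Set Real
open Pool.Agent.Helper40.AS (Bdd)

theorem sy_eval (m : ℕ) (Z : ℝ[X]) (y : ℝ) :
    (C ((-1 : ℝ) ^ m) * Z.comp (-X)).eval y = (-1) ^ m * Z.eval (-y) := by
  rw [eval_mul, eval_C, eval_comp, eval_neg, eval_X]

theorem sy_comp (Z : ℝ[X]) : Z.comp (-X) = Z.comp (C (-1) * X) := by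
  congr 1
  rw [C_neg, C_1, neg_one_mul]

theorem sy_deg (m : ℕ) (Z : ℝ[X]) : (C ((-1 : ℝ) ^ m) * Z.comp (-X)).natDegree ≤ Z.natDegree := by
  refine (natDegree_C_mul_le _ _).trans ?_
  rw [natDegree_comp, natDegree_neg, natDegree_X, mul_one]

theorem sy_pow (m k : ℕ) (h : Even (m + k)) : ((-1 : ℝ) ^ m) = (-1) ^ k := by
  rcases Nat.even_or_odd m with hm | hm
  · have hk : Even k := (Nat.even_add.1 h).1 hm
    rw [hm.neg_one_pow, hk.neg_one_pow]
  · have hk : Odd k := by
      rw [← Nat.not_even_iff_odd] at hm ⊢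
      exact fun hk => hm ((Nat.even_add.1 h).2 hk)
    rw [hm.neg_one_pow, hk.neg_one_pow]

theorem sy : Sy := by
  intro n κ Z x hn hM
  refine ⟨(sy_deg _ _).trans hM.deg, fun y hy => ?_, ?_, fun i hi => ?_, fun i hi => ?_,
    fun i hi => ?_⟩
  · rw [sy_eval, abs_mul, abs_pow, abs_neg, abs_one, one_pow, one_mul]
    exact hM.bdd _ ⟨by linarith [hy.2], by linarith [hy.1]⟩
  · rw [coeff_C_mul, sy_comp, comp_C_mul_X_coeff, hM.lead, ← mul_assoc, mul_comm, ← mul_assoc,
      ← mul_assoc, ← pow_add]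
    have h : ((-1 : ℝ) ^ (n + (n + 1))) = -1 := by
      have h1 : Odd (n + (n + 1)) := ⟨n, by ring⟩
      exact h1.neg_one_pow
    rw [h]
    ring
  · have h1 : n - 1 - i = (n - 1 - (i + 1)) + 1 := by omega
    have h2 := hM.lt (n - 1 - (i + 1)) (by omega)
    show -x (n - 1 - i) < -x (n - 1 - (i + 1))
    rw [h1]
    linarith
  · have h := hM.mem (n - 1 - i) (by omega)
    exact ⟨by linarith [h.2], by linarith [h.1]⟩
  · rw [sy_eval, neg_neg, hM.val (n - 1 - i) (by omega), ← pow_add]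
    exact sy_pow _ _ ⟨n + 1, by omega⟩

end Pool.Agent.Helper40.TV
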