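import Pool.Agent.Helper40.TV.St1
import Pool.Agent.Helper40.TV.St3

set_option autoImplicit false

namespace Pool.Agent.Helper40.TV

open Polynomial Set Real
open Pool.Agent.Helper40.AS (Bdd)

noncomputable section

lemma tv0_min (f : ℕ → ℝ) (hf : ∀ j, 0 < f j) (J : ℕ) : ∃ c : ℝ, 0 < c ∧ ∀ j ≤ J, c ≤ f j := by
  induction J with
  | zero => exact ⟨f 0, hf 0, fun j hj => by rw [Nat.le_zero.1 hj]⟩
  | succ J ih =>
    obtain ⟨c, hc, h⟩ := ih
    refine ⟨min c (f (J + 1)), lt_min hc (hf _), fun j hj => ?_⟩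
    rcases Nat.lt_or_ge j (J + 1) with h1 | h1
    · exact (min_le_left _ _).trans (h j (by omega))
    · have : j = J + 1 := by omega
      rw [this]
      exact min_le_right _ _

lemma tv0_max (f : ℕ → ℕ) (J : ℕ) : ∃ N : ℕ, ∀ j ≤ J, f j ≤ N := by
  induction J with
  | zero => exact ⟨f 0, fun j hj => by rw [Nat.le_zero.1 hj]⟩
  | succ J ih =>
    obtain ⟨N, h⟩ := ih
    refine ⟨max N (f (J + 1)), fun j hj => ?_⟩
    rcases Nat.lt_or_ge j (J + 1) with h1 | h1
    · exact (h j (by omega)).trans (le_max_left _ _)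
    · have : j = J + 1 := by omega
      rw [this]
      exact le_max_right _ _

theorem tv0 (hFamE : FamE) (hV1 : V1) (hNf : Nf) (hCh : Ch) (hVh : Vh) : TV0 := by
  intro K d hK hd
  have hNf' := fun j : ℕ => hNf K d (1 / ((j : ℝ) + 1)) hK hd (by positivity)
  choose hh cc hhp ccp nn hNf'' using hNf'
  set e : ℝ := min d π with he
  have he0 : 0 < e := lt_min hd pi_pos
  have hepi : e ≤ π := min_le_right _ _
  have hc0 : 0 < 1 - cos (e / 2) := by
    have : cos (e / 2) < cos 0 := cos_lt_cos_of_nonneg_of_le_pi le_rfl (by linarith) (by linarith)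
    rw [cos_zero] at this
    linarith
  obtain ⟨J, n1, hCh⟩ := hCh (K ^ 2 / 2 + 1) (1 - cos (e / 2)) (fun j => hh j / 2)
    (by positivity) hc0 (fun j => half_pos (hhp j))
  obtain ⟨c, hc, hcJ⟩ := tv0_min cc ccp J
  obtain ⟨hm, hhm, hhJ⟩ := tv0_min hh hhp J
  obtain ⟨N, hN⟩ := tv0_max nn J
  refine ⟨c, min (hm / 2) (1 - cos (e / 2)), hc, lt_min (half_pos hhm) hc0,
    max (max n1 3) (max N (⌈K⌉₊ + 1)), ?_⟩
  intro n hn a b t P ha hab hb hKn hdn hdeg hbdd hmax ht ht0
  have hn1 : n1 ≤ n := (le_max_left _ _).trans ((le_max_left _ _).trans hn)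
  have hn3 : 3 ≤ n := (le_max_right _ _).trans ((le_max_left _ _).trans hn)
  have hnN : N ≤ n := (le_max_left _ _).trans ((le_max_right _ _).trans hn)
  have hnK : ⌈K⌉₊ + 1 ≤ n := (le_max_right _ _).trans ((le_max_right _ _).trans hn)
  have hnr : (0 : ℝ) < n := by
    have : 0 < n := by omega
    exact_mod_cast this
  have hKn' : K + 1 ≤ n := by
    have h1 : ((⌈K⌉₊ + 1 : ℕ) : ℝ) ≤ n := by exact_mod_cast hnK
    push_cast at h1
    have := Nat.le_ceil K
    linarith
  have F := hFamE n hn3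
  have hcb : cos (arccos b) = b := cos_arccos (by linarith) hb.le
  have hca : cos (arccos a) = a := cos_arccos ha (by linarith)
  have hτ0 : 0 < arccos b := arccos_pos.2 hb
  have hττ : arccos b ≤ arccos a := arccos_le_arccos hab.le
  have hτ'1 : arccos a < 1 := by
    by_contra hcon
    push Not at hcon
    nlinarith
  have hpi := pi_gt_three
  have hτ'm : arccos a ∈ Ioo 0 π := ⟨by linarith, by linarith⟩
  have hτm : arccos b ∈ Ioo 0 π := ⟨hτ0, by linarith⟩
  have hvar : ∀ L, Vp (ZL n L) a b = vv (Th n L (arccos a)) - vv (Th n L (arccos b)) := by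
    intro L
    have h1 := hVh n (Th n) (ZL n) F L (arccos b) (arccos a) (arccos_nonneg b) hττ (arccos_le_pi a)
    rwa [hcb, hca] at h1
  obtain ⟨vc, vm, -, -, -, -, -, -, vlow⟩ := hV1
  have hVpP : 1 - cos (e / 2) ≤ Vp P a b := by
    have h1 := hmax (ZL n 0) (F.deg 0) (F.bdd 0)
    rw [hvar 0, F.zero _ hτ'm, F.zero _ hτm] at h1
    have h2 := vlow (n * arccos b) (n * arccos b + e) (by linarith) (by linarith)
    have h3 : vv (n * arccos b + e) ≤ vv (n * arccos a) := by
      apply vm.monotone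
      have : e ≤ d := min_le_left _ _
      nlinarith
    have h4 : (n * arccos b + e - n * arccos b) / 2 = e / 2 := by ring
    rw [h4] at h2
    have h5 := min_le_right (hm / 2) (1 - cos (e / 2))
    linarith
  have hKa : (n : ℝ) ^ 2 * (1 - a) ≤ K ^ 2 / 2 + 1 := by
    have h1 := one_sub_sq_div_two_le_cos (x := arccos a)
    rw [hca] at h1
    have h2 : (n * arccos a) ^ 2 ≤ K ^ 2 :=
      pow_le_pow_left₀ (mul_nonneg hnr.le (arccos_nonneg a)) hKn 2
    nlinarith [mul_le_mul_of_nonneg_left (show 1 - a ≤ arccos a ^ 2 / 2 by linarith)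
      (sq_nonneg (n : ℝ))]
  obtain ⟨j, hj, m, x, hx, hsep, ⟨i0, hi0, hxi⟩, hsum⟩ :=
    hCh n hn1 a b t P ha hab hb.le hKa hdeg hbdd hVpP ht ht0
  have hmem : ∀ i ≤ m, -1 ≤ x i ∧ x i ≤ 1 := fun i hi =>
    ⟨ha.trans (hx i hi).1.1, (hx i hi).1.2.trans hb.le⟩
  have hcos : ∀ i ≤ m, cos (arccos (x i)) = x i := fun i hi =>
    cos_arccos (hmem i hi).1 (hmem i hi).2
  have h3 : ∑ j ∈ Finset.range m, |P.eval (cos (arccos (x (j + 1)))) -
      P.eval (cos (arccos (x j)))| = ∑ j ∈ Finset.range m, |P.eval (x (j + 1)) - P.eval (x j)| := by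
    refine Finset.sum_congr rfl fun j hj => ?_
    have hj' := Finset.mem_range.1 hj
    rw [hcos j hj'.le, hcos (j + 1) hj']
  have hfin := hNf'' j n ((hN j hj).trans hnN) (Th n) (ZL n) F (arccos b) (arccos a) P m
    (fun i => arccos (x i)) hτ0 hKn hdn hdeg hbdd
    (fun i hi => ⟨arccos_le_arccos (hx i hi).1.2, arccos_le_arccos (hx i hi).1.1⟩)
    (fun i hi => by
      rw [hcos i hi.le, hcos (i + 1) hi]
      exact hsep i hi)
    (fun i hi => by
      rw [hcos i hi]
      exact (hx i hi).2)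
    (fun L => by
      rw [hcb, hca, hcos 0 (Nat.zero_le _), hcos m le_rfl, h3, ← hvar L]
      have h1 := hmax (ZL n L) (F.deg L) (F.bdd L)
      have h2 := hhJ j hj
      have h4 := min_le_left (hm / 2) (1 - cos (e / 2))
      linarith) i0 hi0
  rw [hcos i0 hi0, hxi] at hfin
  exact (mul_le_mul_of_nonneg_right (hcJ j hj) (by positivity)).trans hfin

end

end Pool.Agent.Helper40.TV
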