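import Pool.Agent.Helper40.TV.St1
import Pool.Agent.Helper40.TV.St3

set_option autoImplicit false

namespace Pool.Agent.Helper40.TV

open Polynomial Set Real
open Pool.Agent.Helper40.AS (Bdd)

noncomputable section

theorem tv1 (hFamE : FamE) (hSu : Su) (hCn : Cn) (hVh : Vh) : TV1 := by
  intro K d h c hK hd hh hc
  obtain ⟨δ, hδ, hCn⟩ := hCn h c hh hc
  obtain ⟨c', hc', n1, hSu⟩ := hSu K δ d hK hδ hd
  refine ⟨c', hc', max n1 3, ?_⟩
  intro n hn a b t P ha hab hb hKn hdn hdeg hbdd hnd ht ht0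
  have hn1 : n1 ≤ n := le_trans (le_max_left _ _) hn
  have hn3 : 3 ≤ n := le_trans (le_max_right _ _) hn
  obtain ⟨m, x, hx, hsep, ⟨i0, hi0, hxi⟩, hsum⟩ :=
    hCn n a b t P (by omega) ha hab hb.le hdeg hbdd hnd ht ht0
  have F := hFamE n hn3
  have hmem : ∀ i ≤ m, -1 ≤ x i ∧ x i ≤ 1 := fun i hi =>
    ⟨ha.trans (hx i hi).1.1, (hx i hi).1.2.trans hb.le⟩
  have hcos : ∀ i ≤ m, cos (arccos (x i)) = x i := fun i hi =>
    cos_arccos (hmem i hi).1 (hmem i hi).2
  have hcb : cos (arccos b) = b := cos_arccos (by linarith) hb.le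
  have hca : cos (arccos a) = a := cos_arccos ha (by linarith)
  obtain ⟨L, hL⟩ := hSu n hn1 (Th n) (ZL n) F (arccos b) (arccos a) P m (fun i => arccos (x i))
    (arccos_pos.2 hb) hKn hdn hdeg hbdd
    (fun i hi => ⟨arccos_le_arccos (hx i hi).1.2, arccos_le_arccos (hx i hi).1.1⟩)
    (fun i hi => by
      rw [hcos i hi.le, hcos (i + 1) hi]
      exact hsep i hi)
    (fun i hi => by
      rw [hcos i hi]
      exact (hx i hi).2)
  refine ⟨ZL n L, F.deg L, F.bdd L, ?_⟩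
  have h1 := hVh n (Th n) (ZL n) F L (arccos b) (arccos a) (arccos_nonneg b)
    (arccos_le_arccos hab.le) (arccos_le_pi a)
  rw [hcb, hca] at h1
  have h2 := hL i0 hi0
  rw [hcb, hca, hcos 0 (Nat.zero_le _), hcos m le_rfl, hcos i0 hi0, hxi] at h2
  have h3 : ∑ j ∈ Finset.range m, |P.eval (cos (arccos (x (j + 1)))) -
      P.eval (cos (arccos (x j)))| = ∑ j ∈ Finset.range m, |P.eval (x (j + 1)) - P.eval (x j)| := by
    refine Finset.sum_congr rfl fun j hj => ?_
    have hj' := Finset.mem_range.1 hj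
    rw [hcos j hj'.le, hcos (j + 1) hj']
  rw [h3] at h2
  rw [h1, hsum]
  exact h2

end

end Pool.Agent.Helper40.TV
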