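import Pool.Agent.Helper40.TV.St1
import Pool.Agent.Helper40.TV.St3

/-!
Piece TV2: nearly maximal polynomials are non-degenerate (from TV0 and B1).
-/

set_option autoImplicit false

namespace Pool.Agent.Helper40.TV

open Polynomial Set Real
open Pool.Agent.Helper40.AS (Bdd)

/-- comparison of variations -/
theorem tv2_Vp (P Q : ℝ[X]) {a b B : ℝ} (hab : a ≤ b)
    (h : ∀ x ∈ Icc a b, |Q.derivative.eval x - P.derivative.eval x| ≤ B) :
    Vp P a b ≤ Vp Q a b + B * (b - a) := by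
  unfold Vp
  have hP : IntervalIntegrable (fun x => |P.derivative.eval x|) MeasureTheory.volume a b :=
    (P.derivative.continuous.abs).intervalIntegrable _ _
  have hQ : IntervalIntegrable (fun x => |Q.derivative.eval x|) MeasureTheory.volume a b :=
    (Q.derivative.continuous.abs).intervalIntegrable _ _
  have hB : IntervalIntegrable (fun _ : ℝ => B) MeasureTheory.volume a b :=
    continuous_const.intervalIntegrable _ _
  have h1 : ∫ x in a..b, |P.derivative.eval x| ≤ ∫ x in a..b, (|Q.derivative.eval x| + B) := by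
    apply intervalIntegral.integral_mono_on hab hP (hQ.add hB)
    intro x hx
    have h2 := h x hx
    have h3 := abs_sub_abs_le_abs_sub (P.derivative.eval x) (Q.derivative.eval x)
    rw [abs_sub_comm] at h3
    linarith
  rw [intervalIntegral.integral_add hQ hB, intervalIntegral.integral_const, smul_eq_mul] at h1
  linarith [mul_comm B (b - a)]

/-- the window is short -/
theorem tv2_win {n : ℕ} {a K : ℝ} (ha : -1 ≤ a) (ha1 : a ≤ 1) (h : n * arccos a ≤ K) :
    (n : ℝ) ^ 2 * (1 - a) ≤ K ^ 2 / 2 := by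
  have h1 : 1 - a ≤ arccos a ^ 2 / 2 := by
    have h2 := Real.one_sub_sq_div_two_le_cos (x := arccos a)
    rw [cos_arccos ha ha1] at h2
    linarith
  have h3 : 0 ≤ (n : ℝ) * arccos a := mul_nonneg (Nat.cast_nonneg _) (arccos_nonneg a)
  have h4 : ((n : ℝ) * arccos a) ^ 2 ≤ K ^ 2 := pow_le_pow_left₀ h3 h 2
  have h5 : (n : ℝ) ^ 2 * (1 - a) ≤ (n : ℝ) ^ 2 * (arccos a ^ 2 / 2) :=
    mul_le_mul_of_nonneg_left h1 (sq_nonneg _)
  nlinarith

theorem tv2 (hTV0 : TV0) (hTy : Ty) (hB1 : B1) : TV2 := by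
  have _ := hTy
  intro K d hK hd
  obtain ⟨c0, h0, hc0, hh0, n0, H0⟩ := hTV0 K d hK hd
  obtain ⟨M, hM, n1, H1⟩ := hB1 (K ^ 2 / 2) (by positivity)
  set h := min (h0 / (1 + M * (K ^ 2 / 2))) (c0 / (2 * M)) with hh
  have hpos : 0 < h := lt_min (by positivity) (by positivity)
  have hle1 : h * (1 + M * (K ^ 2 / 2)) ≤ h0 :=
    (le_div_iff₀ (by positivity)).1 (min_le_left _ _)
  have hle2 : h * (2 * M) ≤ c0 := (le_div_iff₀ (by positivity)).1 (min_le_right _ _)
  refine ⟨c0 / 2, h, by positivity, hpos, max n0 n1, ?_⟩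
  intro n hn a b t P ha hab hb hna hda hdeg hbdd hmax ht hPt
  have hn0 : n0 ≤ n := le_trans (le_max_left _ _) hn
  have hn1 : n1 ≤ n := le_trans (le_max_right _ _) hn
  have ha1 : a ≤ 1 := by linarith
  have hwin := tv2_win ha ha1 hna
  have ht1 : t ∈ Icc (-1 : ℝ) 1 := ⟨ha.trans ht.1, ht.2.trans hb.le⟩
  have hnn : (0 : ℝ) ≤ (n : ℝ) ^ 2 := sq_nonneg _
  have htw : (n : ℝ) ^ 2 * (1 - t) ≤ K ^ 2 / 2 := by
    refine le_trans (mul_le_mul_of_nonneg_left ?_ hnn) hwin
    linarith [ht.1]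
  obtain ⟨Q, hQd, hQb, hQt, hQ⟩ := H1 n hn1 t h P ht1 htw hdeg hbdd hpos.le hPt
  have hV : Vp P a b ≤ Vp Q a b + M * h * (n : ℝ) ^ 2 * (b - a) := by
    apply tv2_Vp P Q hab.le
    intro x hx
    exact (hQ x ⟨ha.trans hx.1, hx.2.trans hb.le⟩).2.1
  have hV2 : M * h * (n : ℝ) ^ 2 * (b - a) ≤ M * h * (K ^ 2 / 2) := by
    have h3 : (n : ℝ) ^ 2 * (b - a) ≤ K ^ 2 / 2 := by
      refine le_trans (mul_le_mul_of_nonneg_left ?_ hnn) hwin
      linarith
    rw [mul_assoc (M * h)]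
    exact mul_le_mul_of_nonneg_left h3 (by positivity)
  have h5 := H0 n hn0 a b t Q ha hab hb hna hda hQd hQb (by
    intro R hR hRb
    have h6 := hmax R hR hRb
    have h7 : h * (1 + M * (K ^ 2 / 2)) = h + M * h * (K ^ 2 / 2) := by ring
    linarith) ht hQt
  have h8 := (hQ t ht1).2.2
  have h9 : |Q.derivative.derivative.eval t| ≤
      |P.derivative.derivative.eval t| + M * h * (n : ℝ) ^ 4 := by
    have h10 := abs_sub_abs_le_abs_sub (Q.derivative.derivative.eval t)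
      (P.derivative.derivative.eval t)
    linarith
  have h11 : M * h * (n : ℝ) ^ 4 ≤ c0 / 2 * (n : ℝ) ^ 4 := by
    apply mul_le_mul_of_nonneg_right _ (by positivity)
    linarith
  have h12 : c0 * (n : ℝ) ^ 4 = c0 / 2 * (n : ℝ) ^ 4 + c0 / 2 * (n : ℝ) ^ 4 := by ring
  linarith

end Pool.Agent.Helper40.TV
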