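import Pool.Agent.Helper40.TV.St2

/-!
Piece Tb: the basic inequality.
-/

set_option autoImplicit false

namespace Pool.Agent.Helper40.TV

open Set Real

theorem tb_E {a b k : ℝ} (ha : 0 < a) (hb : 0 < b) (h : 2 * a + b ≤ π)
    (hk : sin a ≤ k * sin (a + b)) :
    0 ≤ (1 - k) * a * sin a + k * b * sin b - k * (1 - k) * (a + b) * sin (a + b) := by
  have hS : 0 < sin (a + b) := sin_pos_of_pos_of_lt_pi (by linarith) (by linarith)
  have hA : 0 < sin a := sin_pos_of_pos_of_lt_pi ha (by linarith)
  have hB : 0 < sin b := sin_pos_of_pos_of_lt_pi hb (by linarith)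
  have ha2 : a < π / 2 := by linarith
  have hca : 0 < cos a := cos_pos_of_mem_Ioo ⟨by linarith, ha2⟩
  have hadd : sin (a + b) = sin a * cos b + cos a * sin b := sin_add a b
  have hcb : cos b ≤ 1 := cos_le_one b
  have hca1 : cos a ≤ 1 := cos_le_one a
  have h1 : 0 ≤ sin a + sin b - sin (a + b) := by
    rw [hadd]; nlinarith
  have htan : a * cos a ≤ sin a := by
    have h2 := (Real.le_tan ha.le ha2)
    rw [tan_eq_sin_div_cos, le_div_iff₀ hca] at h2
    exact h2
  have hsb : sin b ≤ b := sin_le hb.le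
  have h2 : 0 ≤ (a + 2 * b) * sin a + b * sin b - (a + b) * sin (a + b) := by
    have h3 : (a + b) * sin (a + b) ≤ (a + b) * (sin a + cos a * sin b) := by
      apply mul_le_mul_of_nonneg_left _ (by linarith)
      rw [hadd]; nlinarith
    have h4 : a * cos a * sin b ≤ sin a * b :=
      mul_le_mul htan hsb hB.le hA.le
    nlinarith [mul_pos hb hB]
  have key : sin (a + b) * ((1 - k) * a * sin a + k * b * sin b -
      k * (1 - k) * (a + b) * sin (a + b)) =
      b * sin a * (sin a + sin b - sin (a + b)) +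
      (k * sin (a + b) - sin a) * ((a + 2 * b) * sin a + b * sin b - (a + b) * sin (a + b)) +
      (k * sin (a + b) - sin a) ^ 2 * (a + b) := by ring
  have h5 : 0 ≤ sin (a + b) * ((1 - k) * a * sin a + k * b * sin b -
      k * (1 - k) * (a + b) * sin (a + b)) := by
    rw [key]
    have e1 : 0 ≤ b * sin a * (sin a + sin b - sin (a + b)) := by positivity
    have e2 : 0 ≤ (k * sin (a + b) - sin a) *
        ((a + 2 * b) * sin a + b * sin b - (a + b) * sin (a + b)) :=
      mul_nonneg (by linarith) h2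
    have e3 : 0 ≤ (k * sin (a + b) - sin a) ^ 2 * (a + b) := by positivity
    linarith
  exact nonneg_of_mul_nonneg_right h5 hS

theorem tb_w {t x : ℝ} (ht0 : 0 ≤ t) (ht1 : t ≤ 1) (hx0 : 0 ≤ x) (hx : x ≤ π) :
    0 ≤ t * cos (t * x) * sin x - sin (t * x) * cos x := by
  have hd : ∀ y : ℝ, HasDerivAt (fun y : ℝ => t * cos (t * y) * sin y - sin (t * y) * cos y)
      ((1 - t ^ 2) * sin (t * y) * sin y) y := by
    intro y
    have h1 : HasDerivAt (fun y : ℝ => t * y) t y := by simpa using (hasDerivAt_id y).const_mul t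
    have h2 := ((h1.cos.const_mul t).mul (hasDerivAt_sin y)).sub (h1.sin.mul (hasDerivAt_cos y))
    refine h2.congr_deriv ?_
    ring
  have hmono : MonotoneOn (fun y : ℝ => t * cos (t * y) * sin y - sin (t * y) * cos y)
      (Icc 0 π) := by
    apply monotoneOn_of_deriv_nonneg (convex_Icc 0 π)
    · exact fun y _ => (hd y).continuousAt.continuousWithinAt
    · exact fun y _ => (hd y).differentiableAt.differentiableWithinAt
    · intro y hy
      rw [interior_Icc] at hy
      rw [(hd y).deriv]
      have h1 : 0 ≤ sin (t * y) := by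
        apply sin_nonneg_of_nonneg_of_le_pi
        · exact mul_nonneg ht0 hy.1.le
        · nlinarith [hy.1, hy.2]
      have h2 : 0 ≤ sin y := sin_nonneg_of_nonneg_of_le_pi hy.1.le hy.2.le
      have h3 : 0 ≤ 1 - t ^ 2 := by nlinarith
      positivity
  have h := hmono (left_mem_Icc.2 pi_pos.le) (⟨hx0, hx⟩ : x ∈ Icc 0 π) hx0
  simpa using h

theorem tb_k {t r s : ℝ} (ht0 : 0 ≤ t) (ht1 : t ≤ 1) (hr : 0 < r) (hrs : r ≤ s) (hs : s < π) :
    sin (t * r) * sin s ≤ sin r * sin (t * s) := by
  have hd : ∀ y ∈ Ioo (0 : ℝ) π, HasDerivAt (fun y : ℝ => sin (t * y) / sin y)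
      ((t * cos (t * y) * sin y - sin (t * y) * cos y) / sin y ^ 2) y := by
    intro y hy
    have hsy : 0 < sin y := sin_pos_of_pos_of_lt_pi hy.1 hy.2
    have h1 : HasDerivAt (fun y : ℝ => t * y) t y := by simpa using (hasDerivAt_id y).const_mul t
    have h2 := h1.sin.div (hasDerivAt_sin y) hsy.ne'
    refine h2.congr_deriv ?_
    ring
  have hmono : MonotoneOn (fun y : ℝ => sin (t * y) / sin y) (Ioo 0 π) := by
    apply monotoneOn_of_deriv_nonneg (convex_Ioo 0 π)
    · exact fun y hy => (hd y hy).continuousAt.continuousWithinAt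
    · intro y hy
      rw [interior_Ioo] at hy
      exact (hd y hy).differentiableAt.differentiableWithinAt
    · intro y hy
      rw [interior_Ioo] at hy
      rw [(hd y hy).deriv]
      exact div_nonneg (tb_w ht0 ht1 hy.1.le hy.2.le) (sq_nonneg _)
  have h := hmono (⟨hr, by linarith⟩ : r ∈ Ioo 0 π) (⟨by linarith, hs⟩ : s ∈ Ioo 0 π) hrs
  simp only at h
  have hsr : 0 < sin r := sin_pos_of_pos_of_lt_pi hr (by linarith)
  have hss : 0 < sin s := sin_pos_of_pos_of_lt_pi (by linarith) hs
  rw [div_le_div_iff₀ hsr hss] at h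
  linarith

theorem tb_R2 {x y : ℝ} (hs : sin (x + y) ≠ 0) (hc : cos (x + y) ≠ 0) :
    2 * (1 - sin (2 * x) / sin (2 * (x + y))) * (1 - cos (2 * x)) +
      2 * (sin (2 * x) / sin (2 * (x + y))) * (1 - cos (2 * y)) -
      2 * (sin (2 * x) / sin (2 * (x + y))) * (1 - sin (2 * x) / sin (2 * (x + y))) *
        (1 - cos (2 * (x + y))) =
      (2 * sin x * sin y / cos (x + y)) ^ 2 := by
  have hk : sin (2 * x) / sin (2 * (x + y)) = sin x * cos x / (sin (x + y) * cos (x + y)) := by
    rw [sin_two_mul, sin_two_mul]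
    field_simp
  rw [hk]
  have e1 : 1 - cos (2 * x) = 2 * sin x ^ 2 := by rw [cos_two_mul, cos_sq']; ring
  have e2 : 1 - cos (2 * y) = 2 * sin y ^ 2 := by rw [cos_two_mul, cos_sq']; ring
  have e3 : 1 - cos (2 * (x + y)) = 2 * sin (x + y) ^ 2 := by rw [cos_two_mul, cos_sq']; ring
  rw [e1, e2, e3]
  have h1 : cos (x + y) * sin x - cos x * sin (x + y) = -sin y := by
    have := sin_sub x (x + y)
    rw [show x - (x + y) = -y by ring, sin_neg] at this
    linarith
  have h2 : sin (x + y) * cos (x + y) - sin x * cos x =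
      (cos (x + y) * cos x - sin (x + y) * sin x) * sin y := by
    have p1 := sin_sq_add_cos_sq x
    have p2 := sin_sq_add_cos_sq (x + y)
    have e4 : sin y = cos x * sin (x + y) - cos (x + y) * sin x := by linarith
    rw [e4]
    linear_combination (-(sin (x + y) * cos (x + y))) * p1 + (sin x * cos x) * p2
  generalize sin (x + y) = s at *
  generalize cos (x + y) = c at *
  generalize sin x = X at *
  generalize cos x = Y at *
  generalize sin y = Z at *
  have h3 : s * c * (s * c) ≠ 0 := by positivity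
  have key : (s * c - X * Y) * c * X ^ 2 + X * Y * c * Z ^ 2 -
      X * Y * (s * c - X * Y) * s = X ^ 2 * Z ^ 2 * s := by
    rw [h2]
    linear_combination (X * Z * (c * Y - s * X)) * h1
  field_simp
  linear_combination key

theorem tb_R1 {r q t k : ℝ} (hr : 0 < r) (hq : 0 < q) (h : 2 * r + q ≤ π) (ht0 : 0 ≤ t)
    (ht1 : t ≤ 1) (hk : k = sin r / sin (r + q)) :
    2 * (1 - k) * (1 - cos (t * r)) + 2 * k * (1 - cos (t * q)) -
      2 * k * (1 - k) * (1 - cos (t * (r + q))) ≤
    2 * (1 - k) * (1 - cos r) + 2 * k * (1 - cos q) - 2 * k * (1 - k) * (1 - cos (r + q)) := by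
  have hS : 0 < sin (r + q) := sin_pos_of_pos_of_lt_pi (by linarith) (by linarith)
  have hd : ∀ y : ℝ, HasDerivAt (fun y : ℝ => 2 * (1 - k) * (1 - cos (y * r)) +
      2 * k * (1 - cos (y * q)) - 2 * k * (1 - k) * (1 - cos (y * (r + q))))
      (2 * ((1 - k) * r * sin (y * r) + k * q * sin (y * q) -
        k * (1 - k) * (r + q) * sin (y * (r + q)))) y := by
    intro y
    have h1 : ∀ c : ℝ, HasDerivAt (fun y : ℝ => 1 - cos (y * c)) (c * sin (y * c)) y := by
      intro c
      have h0 : HasDerivAt (fun y : ℝ => y * c) c y := by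
        simpa using (hasDerivAt_id y).mul_const c
      refine (h0.cos.const_sub 1).congr_deriv ?_
      ring
    have h2 := (((h1 r).const_mul (2 * (1 - k))).add ((h1 q).const_mul (2 * k))).sub
      ((h1 (r + q)).const_mul (2 * k * (1 - k)))
    refine h2.congr_deriv ?_
    ring
  have hmono : MonotoneOn (fun y : ℝ => 2 * (1 - k) * (1 - cos (y * r)) +
      2 * k * (1 - cos (y * q)) - 2 * k * (1 - k) * (1 - cos (y * (r + q)))) (Icc 0 1) := by
    apply monotoneOn_of_deriv_nonneg (convex_Icc 0 1)
    · exact fun y _ => (hd y).continuousAt.continuousWithinAt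
    · exact fun y _ => (hd y).differentiableAt.differentiableWithinAt
    · intro y hy
      rw [interior_Icc] at hy
      rw [(hd y).deriv]
      have hy0 := hy.1
      have hE := tb_E (a := y * r) (b := y * q) (k := k) (mul_pos hy0 hr) (mul_pos hy0 hq)
        (by nlinarith [hy.2]) (by
          have h3 := tb_k (t := y) (r := r) (s := r + q) hy0.le hy.2.le hr (by linarith)
            (by linarith)
          rw [hk, div_mul_eq_mul_div, le_div_iff₀ hS, ← mul_add]
          exact h3)
      rw [← mul_add] at hE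
      have h4 : y * (2 * ((1 - k) * r * sin (y * r) + k * q * sin (y * q) -
        k * (1 - k) * (r + q) * sin (y * (r + q)))) = 2 * ((1 - k) * (y * r) * sin (y * r) +
        k * (y * q) * sin (y * q) - k * (1 - k) * (y * (r + q)) * sin (y * (r + q))) := by ring
      have h5 : 0 ≤ y * (2 * ((1 - k) * r * sin (y * r) + k * q * sin (y * q) -
        k * (1 - k) * (r + q) * sin (y * (r + q)))) := by rw [h4]; linarith
      exact nonneg_of_mul_nonneg_right h5 hy0
  have h6 := hmono (⟨ht0, ht1⟩ : t ∈ Icc (0 : ℝ) 1) (right_mem_Icc.2 zero_le_one) ht1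
  simpa using h6

/-- case (i) -/
theorem tb_i {a b k M : ℝ} (hM : 0 ≤ M)
    (hR : 2 * (1 - k) * (1 - cos a) + 2 * k * (1 - cos b) -
      2 * k * (1 - k) * (1 - cos (a + b)) ≤ M ^ 2) (v : ℝ) :
    |cos v - (1 - k) * cos (v + a) - k * cos (v - b)| ≤ M := by
  apply abs_le_of_sq_le_sq _ hM
  have e : cos v - (1 - k) * cos (v + a) - k * cos (v - b) =
      cos v * (1 - (1 - k) * cos a - k * cos b) + sin v * ((1 - k) * sin a - k * sin b) := by
    rw [cos_add, cos_sub]; ring
  rw [e]
  refine le_trans ?_ hR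
  have p1 := sin_sq_add_cos_sq v
  have p2 := sin_sq_add_cos_sq a
  have p3 := sin_sq_add_cos_sq b
  have h1 : 2 * (1 - k) * (1 - cos a) + 2 * k * (1 - cos b) -
      2 * k * (1 - k) * (1 - cos (a + b)) = (1 - (1 - k) * cos a - k * cos b) ^ 2 +
      ((1 - k) * sin a - k * sin b) ^ 2 := by
    rw [cos_add]
    linear_combination (-(1 - k) ^ 2) * p2 + (-k ^ 2) * p3
  rw [h1]
  have h2 : (cos v * (1 - (1 - k) * cos a - k * cos b) +
      sin v * ((1 - k) * sin a - k * sin b)) ^ 2 +
      (sin v * (1 - (1 - k) * cos a - k * cos b) -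
      cos v * ((1 - k) * sin a - k * sin b)) ^ 2 =
      (1 - (1 - k) * cos a - k * cos b) ^ 2 + ((1 - k) * sin a - k * sin b) ^ 2 := by
    linear_combination ((1 - (1 - k) * cos a - k * cos b) ^ 2 +
      ((1 - k) * sin a - k * sin b) ^ 2) * p1
  nlinarith [sq_nonneg (sin v * (1 - (1 - k) * cos a - k * cos b) -
      cos v * ((1 - k) * sin a - k * sin b))]

/-- case (ii) -/
theorem tb_ii {a b k M y : ℝ} (ha : 0 < a) (hb : 0 < b) (h : 2 * a + b ≤ π)
    (hk : sin a ≤ k * sin (a + b)) (hk0 : 0 ≤ k) (hk1 : k ≤ 1) (hM : 0 ≤ M)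
    (hR : 2 * (1 - k) * (1 - cos a) + 2 * k * (1 - cos b) -
      2 * k * (1 - k) * (1 - cos (a + b)) ≤ M ^ 2) (hy0 : 0 ≤ y) (hy : y ≤ a) :
    -M ≤ (1 - k) * (2 - cos (a - y) - cos y) - k * (cos y - cos (y + b)) := by
  have h1 := (abs_le.1 (tb_i hM hR (-a))).2
  have e1 : cos (-a) - (1 - k) * cos (-a + a) - k * cos (-a - b) =
      cos a - (1 - k) - k * cos (a + b) := by
    rw [cos_neg, show -a + a = 0 by ring, show -a - b = -(a + b) by ring, cos_neg, cos_zero]
    ring
  rw [e1] at h1
  -- the difference to the value at `y = a`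
  have s1 : 0 ≤ sin ((a - y) / 2) := sin_nonneg_of_nonneg_of_le_pi (by linarith) (by linarith)
  have c1 : 0 ≤ cos (a / 2) := cos_nonneg_of_mem_Icc ⟨by linarith, by linarith⟩
  have s2 : 0 ≤ sin (b / 2) := sin_nonneg_of_nonneg_of_le_pi (by linarith) (by linarith)
  have c2 : cos ((2 * a + b) / 2) ≤ cos ((a + y + b) / 2) :=
    cos_le_cos_of_nonneg_of_le_pi (by linarith) (by linarith) (by linarith)
  have s3 : sin (y / 2) ≤ sin (a / 2) :=
    sin_le_sin_of_le_of_le_pi_div_two (by linarith) (by linarith) (by linarith)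
  have d1 : 1 - cos (a - y) - cos y + cos a =
      -(4 * sin ((a - y) / 2) * cos (a / 2) * sin (y / 2)) := by
    have q1 : cos (a - y) = 1 - 2 * sin ((a - y) / 2) ^ 2 := by
      rw [show a - y = 2 * ((a - y) / 2) by ring, cos_two_mul, cos_sq']
      rw [show 2 * ((a - y) / 2) / 2 = (a - y) / 2 by ring]
      ring
    have q2 : cos a - cos y = -2 * sin ((a + y) / 2) * sin ((a - y) / 2) := cos_sub_cos a y
    have q3 : sin ((a - y) / 2) - sin ((a + y) / 2) = -2 * (cos (a / 2) * sin (y / 2)) := by
      rw [sin_sub_sin]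
      rw [show ((a - y) / 2 - (a + y) / 2) / 2 = -(y / 2) by ring,
        show ((a - y) / 2 + (a + y) / 2) / 2 = a / 2 by ring, sin_neg]
      ring
    linear_combination -q1 + q2 + 2 * sin ((a - y) / 2) * q3
  have d2 : cos y - cos a - cos (y + b) + cos (a + b) =
      -(4 * sin ((a - y) / 2) * cos ((a + y + b) / 2) * sin (b / 2)) := by
    have q2 : cos a - cos y = -2 * sin ((a + y) / 2) * sin ((a - y) / 2) := cos_sub_cos a y
    have q4 : cos (a + b) - cos (y + b) = -2 * sin ((a + b + (y + b)) / 2) *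
        sin ((a + b - (y + b)) / 2) := cos_sub_cos (a + b) (y + b)
    rw [show (a + b - (y + b)) / 2 = (a - y) / 2 by ring] at q4
    have q3 : sin ((a + y) / 2) - sin ((a + b + (y + b)) / 2) =
        -2 * (cos ((a + y + b) / 2) * sin (b / 2)) := by
      rw [sin_sub_sin]
      rw [show ((a + y) / 2 - (a + b + (y + b)) / 2) / 2 = -(b / 2) by ring,
        show ((a + y) / 2 + (a + b + (y + b)) / 2) / 2 = (a + y + b) / 2 by ring, sin_neg]
      ring
    linear_combination -q2 + q4 + 2 * sin ((a - y) / 2) * q3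
  have d3 : 2 * (cos ((2 * a + b) / 2) * sin (b / 2)) = sin (a + b) - sin a := by
    rw [sin_sub_sin]
    rw [show (a + b - a) / 2 = b / 2 by ring, show (a + b + a) / 2 = (2 * a + b) / 2 by ring]
    ring
  have d4 : 2 * (cos (a / 2) * sin (a / 2)) = sin a := by
    have := sin_two_mul (a / 2)
    rw [show 2 * (a / 2) = a by ring] at this
    linarith
  have d5 : (1 - k) * (cos (a / 2) * sin (y / 2)) ≤
      k * (cos ((a + y + b) / 2) * sin (b / 2)) := by
    have t1 : cos (a / 2) * sin (y / 2) ≤ cos (a / 2) * sin (a / 2) :=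
      mul_le_mul_of_nonneg_left s3 c1
    have t2 : cos ((2 * a + b) / 2) * sin (b / 2) ≤ cos ((a + y + b) / 2) * sin (b / 2) :=
      mul_le_mul_of_nonneg_right c2 s2
    have t3 := mul_le_mul_of_nonneg_left t1 (show 0 ≤ 1 - k by linarith)
    have t4 := mul_le_mul_of_nonneg_left t2 hk0
    nlinarith
  have d6 : (1 - k) * (2 - cos (a - y) - cos y) - k * (cos y - cos (y + b)) -
      (-(cos a - (1 - k) - k * cos (a + b))) =
      4 * sin ((a - y) / 2) * (k * (cos ((a + y + b) / 2) * sin (b / 2)) -
        (1 - k) * (cos (a / 2) * sin (y / 2))) := by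
    linear_combination (1 - k) * d1 - k * d2
  have d7 : 0 ≤ 4 * sin ((a - y) / 2) * (k * (cos ((a + y + b) / 2) * sin (b / 2)) -
        (1 - k) * (cos (a / 2) * sin (y / 2))) :=
    mul_nonneg (by positivity) (by linarith)
  linarith

/-- case (iii) -/
theorem tb_iii {a b k M v : ℝ} (ha : 0 < a) (hb : 0 < b) (h : 2 * a + b ≤ π)
    (hk : sin a ≤ k * sin (a + b)) (hk0 : 0 ≤ k) (hk1 : k ≤ 1) (hM : 0 ≤ M)
    (hR : 2 * (1 - k) * (1 - cos a) + 2 * k * (1 - cos b) -
      2 * k * (1 - k) * (1 - cos (a + b)) ≤ M ^ 2) (hv0 : 0 ≤ v) (hv : v ≤ b) :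
    -M ≤ (1 - k) * (cos v - cos (v + a)) - k * (2 - cos v - cos (v - b)) := by
  set A := (1 - k) * (1 - cos a) + k * (1 + cos b) with hA
  set B := (1 - k) * sin a + k * sin b with hB
  have hsa : 0 < sin a := sin_pos_of_pos_of_lt_pi ha (by linarith)
  have hsb : 0 < sin b := sin_pos_of_pos_of_lt_pi hb (by linarith)
  have hA0 : 0 ≤ A := by
    have := cos_le_one a
    have := neg_one_le_cos b
    have t1 : 0 ≤ (1 - k) * (1 - cos a) := mul_nonneg (by linarith) (by linarith)
    have t2 : 0 ≤ k * (1 + cos b) := mul_nonneg hk0 (by linarith)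
    linarith
  have hB0 : 0 ≤ B := by
    have t1 : 0 ≤ (1 - k) * sin a := mul_nonneg (by linarith) hsa.le
    have t2 : 0 ≤ k * sin b := mul_nonneg hk0 hsb.le
    linarith
  have e : ∀ w : ℝ, (1 - k) * (cos w - cos (w + a)) - k * (2 - cos w - cos (w - b)) =
      A * cos w + B * sin w - 2 * k := by
    intro w
    rw [hA, hB, cos_add, cos_sub]; ring
  -- values at the end points
  have f0 : -M ≤ A * cos 0 + B * sin 0 - 2 * k := by
    rw [← e 0]
    have := tb_ii ha hb h hk hk0 hk1 hM hR le_rfl ha.le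
    rw [cos_zero, sub_zero, zero_add] at this
    rw [cos_zero, zero_add, zero_sub, cos_neg]
    linarith
  have fb : -M ≤ A * cos b + B * sin b - 2 * k := by
    rw [← e b]
    have := (abs_le.1 (tb_i hM hR b)).1
    rw [sub_self, cos_zero] at *
    linarith
  rw [e v]
  rcases hv0.eq_or_lt with h0 | h0
  · rw [← h0]; exact f0
  have sw : 0 < sin (v / 2) := sin_pos_of_pos_of_lt_pi (by linarith) (by linarith)
  rcases le_or_gt (A * sin (v / 2)) (B * cos (v / 2)) with hc | hc
  · -- increasing part
    have g : A * cos v + B * sin v - (A * cos 0 + B * sin 0) =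
        2 * sin (v / 2) * (B * cos (v / 2) - A * sin (v / 2)) := by
      have q1 : cos v = 1 - 2 * sin (v / 2) ^ 2 := by
        have := cos_two_mul (v / 2)
        rw [show 2 * (v / 2) = v by ring, cos_sq'] at this
        linarith
      have q2 : sin v = 2 * sin (v / 2) * cos (v / 2) := by
        have := sin_two_mul (v / 2)
        rwa [show 2 * (v / 2) = v by ring] at this
      rw [cos_zero, sin_zero, q1, q2]; ring
    have g2 : 0 ≤ 2 * sin (v / 2) * (B * cos (v / 2) - A * sin (v / 2)) :=
      mul_nonneg (by positivity) (by linarith)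
    linarith
  · -- decreasing part
    have g : A * cos v + B * sin v - (A * cos b + B * sin b) =
        2 * sin ((b - v) / 2) * (A * sin ((b + v) / 2) - B * cos ((b + v) / 2)) := by
      have q1 := cos_sub_cos v b
      have q2 := sin_sub_sin v b
      rw [show (v + b) / 2 = (b + v) / 2 by ring,
        show (v - b) / 2 = -((b - v) / 2) by ring, sin_neg] at q1 q2
      linear_combination A * q1 + B * q2
    have g1 : 0 ≤ sin ((b - v) / 2) := sin_nonneg_of_nonneg_of_le_pi (by linarith) (by linarith)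
    have g2 : 0 ≤ sin ((b + v) / 2) := sin_nonneg_of_nonneg_of_le_pi (by linarith) (by linarith)
    have g3 : 0 ≤ sin (b / 2) := sin_nonneg_of_nonneg_of_le_pi (by linarith) (by linarith)
    have g4 : 0 ≤ A * sin ((b + v) / 2) - B * cos ((b + v) / 2) := by
      have t1 : sin (v / 2) * (A * sin ((b + v) / 2) - B * cos ((b + v) / 2)) =
          (A * sin (v / 2) - B * cos (v / 2)) * sin ((b + v) / 2) + B * sin (b / 2) := by
        have q := sin_sub ((b + v) / 2) (v / 2)
        rw [show (b + v) / 2 - v / 2 = b / 2 by ring] at q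
        rw [q]; ring
      have t2 : 0 ≤ sin (v / 2) * (A * sin ((b + v) / 2) - B * cos ((b + v) / 2)) := by
        rw [t1]
        have := mul_nonneg (show 0 ≤ A * sin (v / 2) - B * cos (v / 2) by linarith) g2
        have := mul_nonneg hB0 g3
        linarith
      exact nonneg_of_mul_nonneg_right t2 sw
    have g5 : 0 ≤ 2 * sin ((b - v) / 2) * (A * sin ((b + v) / 2) - B * cos ((b + v) / 2)) :=
      mul_nonneg (by positivity) g4
    linarith

theorem tb (hV1 : V1) : Tb := by
  intro r q t u hr hq hrq ht0 ht1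
  obtain ⟨-, -, -, -, hform, -, -, -, -⟩ := hV1
  have hsr : 0 < sin r := sin_pos_of_pos_of_lt_pi hr (by linarith)
  have hS : 0 < sin (r + q) := sin_pos_of_pos_of_lt_pi (by linarith) (by linarith)
  have hle : sin r ≤ sin (r + q) := by
    rcases le_total (r + q) (π / 2) with h1 | h1
    · exact sin_le_sin_of_le_of_le_pi_div_two (by linarith) h1 (by linarith)
    · rw [← sin_pi_sub (r + q)]
      exact sin_le_sin_of_le_of_le_pi_div_two (by linarith) (by linarith) (by linarith)
  set k := sin r / sin (r + q) with hk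
  have hk0 : 0 < k := div_pos hsr hS
  have hk1 : k ≤ 1 := (div_le_one hS).2 hle
  have hc : 0 < cos ((r + q) / 2) := cos_pos_of_mem_Ioo ⟨by linarith, by linarith⟩
  have hs : 0 < sin ((r + q) / 2) := sin_pos_of_pos_of_lt_pi (by linarith) (by linarith)
  have hs1 : 0 < sin (r / 2) := sin_pos_of_pos_of_lt_pi (by linarith) (by linarith)
  have hs2 : 0 < sin (q / 2) := sin_pos_of_pos_of_lt_pi (by linarith) (by linarith)
  set M := 2 * sin (r / 2) * sin (q / 2) / cos ((r + q) / 2) with hM
  have hM0 : 0 ≤ M := by positivity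
  rcases ht0.eq_or_lt with h0 | h0
  · rw [← h0]
    simp only [zero_mul, add_zero, sub_zero, sub_self, mul_zero]
    linarith
  have ha : 0 < t * r := mul_pos h0 hr
  have hb : 0 < t * q := mul_pos h0 hq
  have h2 : 2 * (t * r) + t * q ≤ π := by nlinarith
  have hkt : sin (t * r) ≤ k * sin (t * r + t * q) := by
    have h3 := tb_k (t := t) (r := r) (s := r + q) h0.le ht1 hr (by linarith) (by linarith)
    rw [hk, div_mul_eq_mul_div, le_div_iff₀ hS, ← mul_add]
    exact h3
  have hR : 2 * (1 - k) * (1 - cos (t * r)) + 2 * k * (1 - cos (t * q)) -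
      2 * k * (1 - k) * (1 - cos (t * r + t * q)) ≤ M ^ 2 := by
    have h3 := tb_R1 hr hq hrq h0.le ht1 hk
    have h4 := tb_R2 (x := r / 2) (y := q / 2)
      (by rw [show r / 2 + q / 2 = (r + q) / 2 by ring]; exact hs.ne')
      (by rw [show r / 2 + q / 2 = (r + q) / 2 by ring]; exact hc.ne')
    rw [show r / 2 + q / 2 = (r + q) / 2 by ring, show 2 * ((r + q) / 2) = r + q by ring,
      show 2 * (r / 2) = r by ring, show 2 * (q / 2) = q by ring, ← hk, ← hM] at h4
    rw [← h4, ← mul_add]
    exact h3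
  set a := t * r with ha'
  set b := t * q with hb'
  -- the multiple of `π` below `u`
  set n : ℤ := ⌊u / π⌋ with hn
  have hp := pi_pos
  have hn1 : n * π ≤ u := by
    have := Int.floor_le (u / π)
    rwa [le_div_iff₀ hp] at this
  have hn2 : u < (n + 1) * π := by
    have := Int.lt_floor_add_one (u / π)
    rwa [div_lt_iff₀ hp] at this
  have hu := hform n u hn1 hn2.le
  rcases le_or_gt (n * π) (u - b) with h5 | h5
  · have hub := hform n (u - b) h5 (by linarith)
    rcases le_or_gt (u + a) ((n + 1) * π) with h6 | h6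
    · -- no multiple inside
      have hua := hform n (u + a) (by linarith) h6
      rw [hu, hub, hua]
      have h7 := (abs_le.1 (tb_i hM0 hR (u - n * π))).1
      rw [show u + a - n * π = u - n * π + a by ring, show u - b - n * π = u - n * π - b by ring]
      linarith
    · -- the multiple is in `[u, u + a]`
      have hua := hform (n + 1) (u + a) (by push_cast; linarith) (by push_cast; linarith)
      rw [hu, hub, hua]
      have h7 := tb_ii (y := (n + 1) * π - u) ha hb h2 hkt hk0.le hk1 hM0 hR (by linarith)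
        (by linarith)
      have e1 : cos ((n + 1) * π - u) = -cos (u - n * π) := by
        rw [show (n + 1) * π - u = π - (u - n * π) by ring, cos_pi_sub]
      have e2 : cos ((n + 1) * π - u + b) = -cos (u - b - n * π) := by
        rw [show (n + 1) * π - u + b = π - (u - b - n * π) by ring, cos_pi_sub]
      have e3 : cos (a - ((n + 1) * π - u)) = cos (u + a - (n + 1) * π) := by
        congr 1; ring
      rw [e1, e2, e3] at h7
      push_cast
      linarith
  · -- the multiple is in `[u - b, u]`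
    have hub := hform (n - 1) (u - b) (by push_cast; linarith) (by push_cast; linarith)
    have hua := hform n (u + a) (by linarith) (by linarith)
    rw [hu, hub, hua]
    have h7 := tb_iii (v := u - n * π) ha hb h2 hkt hk0.le hk1 hM0 hR (by linarith) (by linarith)
    have e1 : cos (u - b - ((n - 1 : ℤ) : ℝ) * π) = -cos (u - n * π - b) := by
      push_cast
      rw [show u - b - (n - 1) * π = u - n * π - b + π by ring, cos_add_pi]
    rw [e1, show u + a - n * π = u - n * π + a by ring]
    push_cast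
    linarith

end Pool.Agent.Helper40.TV
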