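import Pool.Agent.Helper40.TV.St1

/-! Project TV, piece `Tp`: total positivity. -/

set_option autoImplicit false

namespace Pool.Agent.Helper40.TV

open Polynomial Set Real
open Pool.Agent.Helper40.AS (Bdd)

theorem tp_wk_nonneg (n : ℕ) (κ θ : ℝ) : 0 ≤ wk n κ θ := by
  unfold wk
  positivity

theorem tp_nonneg (hIn : In) {n : ℕ} {θ κ κ' : ℝ} (hn : 3 ≤ n) (hθ : θ ∈ Ioo 0 π)
    (h1 : -1 ≤ κ') (h2 : κ' ≤ κ) (h3 : κ ≤ 1) : 0 ≤ Ph n κ' θ - Ph n κ θ := by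
  have h := hIn n θ θ κ κ' 0 1 hn hθ hθ h1 h2 h3 (by
    intro k _ _ _ _
    rw [zero_mul, one_mul]
    exact tp_wk_nonneg n k θ)
  linarith

theorem tp (hIn : In) (hRh : Rh) : Tp := by
  intro n θ η κ κ' κ'' hn hθ hη hθη h1 h2 h3 h4
  obtain ⟨ρ, hρ, hA, hB⟩ := hRh n θ η κ' hn hθ hη hθη ⟨h1.trans h2, h3.trans h4⟩
  have e1 : 1 * (Ph n κ' η - Ph n κ η) ≤ ρ * (Ph n κ' θ - Ph n κ θ) :=
    hIn n η θ κ κ' 1 ρ hn hη hθ (h1.trans h2) h3 h4 (by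
      intro k hk hk0 ha hb
      rw [one_mul]
      exact hA k ⟨hk.1, lt_of_lt_of_le hk.2 h4⟩ hk0 hb ha)
  have e2 : ρ * (Ph n κ'' θ - Ph n κ' θ) ≤ 1 * (Ph n κ'' η - Ph n κ' η) :=
    hIn n θ η κ' κ'' ρ 1 hn hθ hη h1 h2 (h3.trans h4) (by
      intro k hk hk0 ha hb
      rw [one_mul]
      exact hB k ⟨lt_of_le_of_lt h1 hk.1, hk.2⟩ hk0 ha hb)
  have p1 := tp_nonneg hIn hn hθ h1 h2 (h3.trans h4)
  have p2 := tp_nonneg hIn hn hθ (h1.trans h2) h3 h4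
  calc (Ph n κ'' θ - Ph n κ' θ) * (Ph n κ' η - Ph n κ η)
      ≤ (Ph n κ'' θ - Ph n κ' θ) * (ρ * (Ph n κ' θ - Ph n κ θ)) :=
        mul_le_mul_of_nonneg_left (by linarith) p1
    _ = (ρ * (Ph n κ'' θ - Ph n κ' θ)) * (Ph n κ' θ - Ph n κ θ) := by ring
    _ ≤ (Ph n κ'' η - Ph n κ' η) * (Ph n κ' θ - Ph n κ θ) :=
        mul_le_mul_of_nonneg_right (by linarith) p2

end Pool.Agent.Helper40.TV
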