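import Pool.Agent.Helper40.TV.St3
import Pool.Agent.Helper10.AL.P.A1
import Pool.Agent.Helper10.AL.P.A2
import Pool.Agent.Helper10.AL.P.Mk

/-! Project TV, piece `Ty`: Markov and Taylor. -/

set_option autoImplicit false

namespace Pool.Agent.Helper40.TV

open Polynomial Set Real
open Pool.Agent.Helper40.AS (Bdd)

theorem ty_mono (q : ℝ[X]) (h : ∀ y ∈ Icc (-1 : ℝ) 1, 0 ≤ q.derivative.eval y) {x t : ℝ}
    (hx : x ∈ Icc (-1 : ℝ) 1) (ht : t ∈ Icc (-1 : ℝ) 1) (hxt : x ≤ t) :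
    q.eval x ≤ q.eval t := by
  have hm : MonotoneOn (fun y => q.eval y) (Icc (-1 : ℝ) 1) := by
    refine monotoneOn_of_deriv_nonneg (convex_Icc _ _) q.continuous.continuousOn
      q.differentiable.differentiableOn ?_
    intro y hy
    rw [interior_Icc] at hy
    rw [Polynomial.deriv]
    exact h y ⟨hy.1.le, hy.2.le⟩
  exact hm hx ht hxt

theorem ty_taylor3 (p : ℝ[X]) (M : ℝ)
    (h : ∀ x ∈ Icc (-1 : ℝ) 1, ∀ y ∈ Icc (-1 : ℝ) 1, |p.derivative.eval y -
      p.derivative.eval x - p.derivative.derivative.eval x * (y - x)| ≤ 3 * M * (y - x) ^ 2)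
    {x t : ℝ} (hx : x ∈ Icc (-1 : ℝ) 1) (ht : t ∈ Icc (-1 : ℝ) 1) :
    |p.eval t - p.eval x - p.derivative.eval x * (t - x)
      - p.derivative.derivative.eval x * (t - x) ^ 2 / 2| ≤ M * |t - x| ^ 3 := by
  set q : ℝ → ℝ[X] := fun s => C M * (X - C x) ^ 3 -
      C s * (p - C (p.eval x) - C (p.derivative.eval x) * (X - C x) -
        C (p.derivative.derivative.eval x / 2) * (X - C x) ^ 2) with hq
  have hqe : ∀ s y, (q s).eval y = M * (y - x) ^ 3 - s * (p.eval y - p.eval x -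
      p.derivative.eval x * (y - x) - p.derivative.derivative.eval x * (y - x) ^ 2 / 2) := by
    intro s y
    simp only [hq, eval_sub, eval_mul, eval_C, eval_pow, eval_X]
    ring
  have hqd : ∀ s : ℝ, |s| = 1 → ∀ y ∈ Icc (-1 : ℝ) 1, 0 ≤ (q s).derivative.eval y := by
    intro s hs y hy
    have h1 : (q s).derivative.eval y = 3 * M * (y - x) ^ 2 - s * (p.derivative.eval y -
        p.derivative.eval x - p.derivative.derivative.eval x * (y - x)) := by
      simp [hq, derivative_pow]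
      ring
    rw [h1]
    have h2 := h x hx y hy
    have h3 : |s * (p.derivative.eval y - p.derivative.eval x -
        p.derivative.derivative.eval x * (y - x))| ≤ 3 * M * (y - x) ^ 2 := by
      rw [abs_mul, hs, one_mul]; exact h2
    have h4 := abs_le.1 h3
    linarith [h4.2]
  have hx0 : ∀ s, (q s).eval x = 0 := by
    intro s
    rw [hqe]
    ring
  have e1 : |(1 : ℝ)| = 1 := abs_one
  have e2 : |(-1 : ℝ)| = 1 := by rw [abs_neg, abs_one]
  rcases le_total x t with hxt | hxt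
  · have h1 := ty_mono (q 1) (hqd 1 e1) hx ht hxt
    have h2 := ty_mono (q (-1)) (hqd (-1) e2) hx ht hxt
    rw [hx0, hqe] at h1 h2
    rw [abs_of_nonneg (by linarith : 0 ≤ t - x), abs_le]
    constructor <;> linarith
  · have h1 := ty_mono (q 1) (hqd 1 e1) ht hx hxt
    have h2 := ty_mono (q (-1)) (hqd (-1) e2) ht hx hxt
    rw [hx0, hqe] at h1 h2
    have h3 : |t - x| ^ 3 = -(t - x) ^ 3 := by
      rw [abs_of_nonpos (by linarith : t - x ≤ 0)]
      ring
    rw [h3, abs_le]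
    constructor <;> linarith

theorem ty : Ty := by
  intro n P hn hd hB
  have hMk := (Helper10.AL.mk (Helper10.AL.a2 Helper10.AL.a1) n P hn hd hB).1
  have h1 : ∀ x ∈ Icc (-1 : ℝ) 1, |P.derivative.eval x| ≤ 2 * (n : ℝ) ^ 2 := by
    intro x hx
    have := hMk 1 x hx
    simpa using this
  have h2 : ∀ x ∈ Icc (-1 : ℝ) 1, |P.derivative.derivative.eval x| ≤ 4 * (n : ℝ) ^ 4 := by
    intro x hx
    have h := hMk 2 x hx
    have e : (2 * (n : ℝ) ^ 2) ^ 2 = 4 * (n : ℝ) ^ 4 := by ring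
    rw [e] at h
    exact h
  have h3 : ∀ x ∈ Icc (-1 : ℝ) 1,
      |P.derivative.derivative.derivative.eval x| ≤ 8 * (n : ℝ) ^ 6 := by
    intro x hx
    have h := hMk 3 x hx
    have e : (2 * (n : ℝ) ^ 2) ^ 3 = 8 * (n : ℝ) ^ 6 := by ring
    rw [e] at h
    exact h
  have h4 : ∀ x ∈ Icc (-1 : ℝ) 1, ∀ y ∈ Icc (-1 : ℝ) 1, |P.derivative.eval y -
      P.derivative.eval x - P.derivative.derivative.eval x * (y - x)| ≤
      4 * (n : ℝ) ^ 6 * (y - x) ^ 2 := by
    intro x hx y hy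
    have h := Helper10.AL.mk_taylor P.derivative (8 * (n : ℝ) ^ 6) h3 hx hy
    have e : 8 * (n : ℝ) ^ 6 / 2 * (y - x) ^ 2 = 4 * (n : ℝ) ^ 6 * (y - x) ^ 2 := by ring
    rw [e] at h
    exact h
  refine ⟨h1, h2, ?_, h4, ?_⟩
  · intro x hx y hy
    exact Helper10.AL.mk_mvt P.derivative.derivative _ h3 hy hx
  · intro x hx y hy
    have h5 := ty_taylor3 P (4 / 3 * (n : ℝ) ^ 6) (by
      intro x hx y hy
      have h := h4 x hx y hy
      have e : 3 * (4 / 3 * (n : ℝ) ^ 6) * (y - x) ^ 2 = 4 * (n : ℝ) ^ 6 * (y - x) ^ 2 := by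
        ring
      rw [e]
      exact h) hx hy
    refine h5.trans ?_
    apply mul_le_mul_of_nonneg_right _ (by positivity)
    have : 0 ≤ (n : ℝ) ^ 6 := by positivity
    linarith

end Pool.Agent.Helper40.TV
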