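import Pool.Agent.Helper40.TV.St1

set_option autoImplicit false

namespace Pool.Agent.Helper40.TV

open Polynomial Set Real
open Pool.Agent.Helper40.AS (Bdd)

noncomputable section

theorem un_lt {n : ℕ} {κ : ℝ} {Z : ℝ[X]} {x : ℕ → ℝ} (h : Mem n κ Z x) {i j : ℕ}
    (hij : i < j) (hj : j < n) : x i < x j := by
  induction j with
  | zero => omega
  | succ j ih =>
    rcases Nat.lt_succ_iff_lt_or_eq.1 hij with h1 | h1
    · exact (ih h1 (by omega)).trans (h.lt j hj)
    · rw [h1]
      exact h.lt j hj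

theorem un_prod {n : ℕ} {κ : ℝ} {Z : ℝ[X]} {x : ℕ → ℝ} (h : Mem n κ Z x) {i : ℕ}
    (hi : i < n) : 0 < (-1 : ℝ) ^ (n - 1 - i) * ∏ j ∈ (Finset.range n).erase i, (x i - x j) := by
  have h1 : (Finset.range n).erase i = Finset.range i ∪ Finset.Ico (i + 1) n := by
    ext j
    simp only [Finset.mem_erase, Finset.mem_range, Finset.mem_union, Finset.mem_Ico]
    omega
  have h2 : Disjoint (Finset.range i) (Finset.Ico (i + 1) n) := by
    rw [Finset.disjoint_left]
    intro j h3 h4
    simp only [Finset.mem_range, Finset.mem_Ico] at h3 h4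
    omega
  rw [h1, Finset.prod_union h2]
  have h3 : 0 < ∏ j ∈ Finset.range i, (x i - x j) := by
    apply Finset.prod_pos
    intro j hj
    rw [Finset.mem_range] at hj
    exact sub_pos.2 (un_lt h hj hi)
  have h4 : ∏ j ∈ Finset.Ico (i + 1) n, (x i - x j) =
      (-1 : ℝ) ^ (n - 1 - i) * ∏ j ∈ Finset.Ico (i + 1) n, (x j - x i) := by
    have h5 : ∀ j ∈ Finset.Ico (i + 1) n, x i - x j = (-1) * (x j - x i) := by
      intro j _
      ring
    rw [Finset.prod_congr rfl h5, Finset.prod_mul_distrib, Finset.prod_const, Nat.card_Ico]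
    congr 2
    omega
  have h6 : 0 < ∏ j ∈ Finset.Ico (i + 1) n, (x j - x i) := by
    apply Finset.prod_pos
    intro j hj
    rw [Finset.mem_Ico] at hj
    exact sub_pos.2 (un_lt h (by omega) hj.2)
  rw [h4]
  have h7 : (-1 : ℝ) ^ (n - 1 - i) * (-1 : ℝ) ^ (n - 1 - i) = 1 := by
    rw [← mul_pow]
    norm_num
  have h8 : (-1 : ℝ) ^ (n - 1 - i) * ((∏ j ∈ Finset.range i, (x i - x j)) *
      ((-1 : ℝ) ^ (n - 1 - i) * ∏ j ∈ Finset.Ico (i + 1) n, (x j - x i))) =
      ((-1 : ℝ) ^ (n - 1 - i) * (-1 : ℝ) ^ (n - 1 - i)) *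
      ((∏ j ∈ Finset.range i, (x i - x j)) * ∏ j ∈ Finset.Ico (i + 1) n, (x j - x i)) := by ring
  rw [h8, h7, one_mul]
  exact mul_pos h3 h6

theorem un_inj {n : ℕ} {κ : ℝ} {Z : ℝ[X]} {x : ℕ → ℝ} (h : Mem n κ Z x) :
    Set.InjOn x (Finset.range n : Finset ℕ) := by
  intro i hi j hj hij
  simp only [Finset.coe_range, mem_Iio] at hi hj
  rcases lt_trichotomy i j with h1 | h1 | h1
  · exact absurd hij (un_lt h h1 hj).ne
  · exact h1
  · exact absurd hij (un_lt h h1 hi).ne'

theorem un_deg {n : ℕ} {κ : ℝ} {Z Z' : ℝ[X]} {x x' : ℕ → ℝ} (hn : 3 ≤ n)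
    (h : Mem n κ Z x) (h' : Mem n κ Z' x') : (Z' - Z).degree < n := by
  rw [degree_lt_iff_coeff_zero]
  intro m hm
  rcases eq_or_lt_of_le hm with h1 | h1
  · rw [← h1, coeff_sub, h.lead, h'.lead, sub_self]
  · exact coeff_eq_zero_of_natDegree_lt (lt_of_le_of_lt (natDegree_sub_le _ _)
      (lt_of_le_of_lt (max_le h'.deg h.deg) h1))

theorem un_coeff {n : ℕ} {κ : ℝ} {Z Z' : ℝ[X]} {x x' : ℕ → ℝ} (hn : 3 ≤ n)
    (h : Mem n κ Z x) (h' : Mem n κ Z' x') : 0 ≤ (Z' - Z).coeff (n - 1) ∧
      ((Z' - Z).coeff (n - 1) = 0 → ∀ i < n, (Z' - Z).eval (x i) = 0) := by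
  have hd : (Z' - Z).degree < (Finset.range n).card := by
    rw [Finset.card_range]
    exact un_deg hn h h'
  have h1 := Lagrange.coeff_eq_sum (un_inj h) hd
  rw [Finset.card_range] at h1
  have hterm : ∀ i ∈ Finset.range n, 0 ≤ (Z' - Z).eval (x i) /
      ∏ j ∈ (Finset.range n).erase i, (x i - x j) := by
    intro i hi
    rw [Finset.mem_range] at hi
    have h2 := un_prod h hi
    have h3 : (-1 : ℝ) ^ (n - i) * (Z' - Z).eval (x i) ≤ 0 := by
      rw [eval_sub, h.val i hi, mul_sub, ← mul_pow]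
      have h4 : |(-1 : ℝ) ^ (n - i) * Z'.eval (x i)| ≤ 1 := by
        rw [abs_mul, abs_pow, abs_neg, abs_one, one_pow, one_mul]
        exact h'.bdd _ (h.mem i hi)
      have h5 := le_of_abs_le h4
      have h6 : ((-1 : ℝ) * -1) ^ (n - i) = 1 := by norm_num
      rw [h6]
      linarith
    have h7 : (-1 : ℝ) ^ (n - i) = -(-1 : ℝ) ^ (n - 1 - i) := by
      have h8 : n - i = (n - 1 - i) + 1 := by omega
      rw [h8, pow_succ]
      ring
    rw [h7] at h3
    have h9 : (-1 : ℝ) ^ (n - 1 - i) * (-1 : ℝ) ^ (n - 1 - i) = 1 := by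
      rw [← mul_pow]
      norm_num
    have h10 : (Z' - Z).eval (x i) / ∏ j ∈ (Finset.range n).erase i, (x i - x j) =
        ((-1 : ℝ) ^ (n - 1 - i) * (Z' - Z).eval (x i)) /
        ((-1 : ℝ) ^ (n - 1 - i) * ∏ j ∈ (Finset.range n).erase i, (x i - x j)) := by
      rw [mul_div_mul_left]
      intro h11
      rw [h11] at h9
      norm_num at h9
    rw [h10]
    apply div_nonneg _ h2.le
    linarith
  refine ⟨by rw [h1]; exact Finset.sum_nonneg hterm, ?_⟩
  intro h0 i hi
  rw [h1, Finset.sum_eq_zero_iff_of_nonneg hterm] at h0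
  have h2 := h0 i (Finset.mem_range.2 hi)
  rcases div_eq_zero_iff.1 h2 with h3 | h3
  · exact h3
  · have h4 := un_prod h hi
    rw [h3, mul_zero] at h4
    exact absurd h4 (lt_irrefl _)

theorem un_poly {n : ℕ} {κ : ℝ} {Z Z' : ℝ[X]} {x x' : ℕ → ℝ} (hn : 3 ≤ n)
    (h : Mem n κ Z x) (h' : Mem n κ Z' x') : Z = Z' := by
  obtain ⟨h1, h2⟩ := un_coeff hn h h'
  obtain ⟨h3, -⟩ := un_coeff hn h' h
  have h4 : (Z' - Z).coeff (n - 1) = 0 := by
    rw [coeff_sub] at h1 h3 ⊢
    linarith
  have h5 := h2 h4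
  have h6 : Z' - Z = 0 := by
    have hd : (Z' - Z).degree < (Finset.range n).card := by
      rw [Finset.card_range]
      exact un_deg hn h h'
    exact Polynomial.eq_zero_of_degree_lt_of_eval_index_eq_zero (Finset.range n) (un_inj h) hd
      (fun i hi => h5 i (Finset.mem_range.1 hi))
  exact (sub_eq_zero.1 h6).symm

/-- a member is not constant -/
theorem un_der {n : ℕ} {κ : ℝ} {Z : ℝ[X]} {x : ℕ → ℝ} (hn : 3 ≤ n)
    (h : Mem n κ Z x) : Z.derivative ≠ 0 := by
  intro h0
  have h1 := natDegree_eq_zero_of_derivative_eq_zero h0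
  obtain ⟨c, hc⟩ := natDegree_eq_zero.1 h1
  have h2 := h.val 0 (by omega)
  have h3 := h.val 1 (by omega)
  rw [← hc, eval_C] at h2 h3
  have h4 : n - 0 = (n - 1) + 1 := by omega
  rw [h4, pow_succ] at h2
  rw [h3] at h2
  have h5 : (-1 : ℝ) ^ (n - 1) ≠ 0 := pow_ne_zero _ (by norm_num)
  apply h5
  linarith

/-- too many critical points -/
theorem un_many {n : ℕ} {κ : ℝ} {Z : ℝ[X]} {x : ℕ → ℝ} (hn : 3 ≤ n)
    (h : Mem n κ Z x) (y : ℕ → ℝ) (hy : ∀ j, j + 1 < n → y j < y (j + 1))
    (hz : ∀ j < n, Z.derivative.eval (y j) = 0) : False := by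
  have hlt : ∀ i j, i < j → j < n → y i < y j := by
    intro i j
    induction j with
    | zero => omega
    | succ j ih =>
      intro hij hj
      rcases Nat.lt_succ_iff_lt_or_eq.1 hij with h1 | h1
      · exact (ih h1 (by omega)).trans (hy j hj)
      · rw [h1]
        exact hy j hj
  have hinj : Set.InjOn y (Finset.range n : Finset ℕ) := by
    intro i hi j hj hij
    simp only [Finset.coe_range, mem_Iio] at hi hj
    rcases lt_trichotomy i j with h1 | h1 | h1
    · exact absurd hij (hlt i j h1 hj).ne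
    · exact h1
    · exact absurd hij (hlt j i h1 hi).ne'
  apply un_der hn h
  apply Polynomial.eq_zero_of_degree_lt_of_eval_index_eq_zero (Finset.range n) hinj
  · rw [Finset.card_range]
    have h1 := natDegree_derivative_le Z
    have h2 := h.deg
    exact lt_of_le_of_lt degree_le_natDegree (by exact_mod_cast (by omega : Z.derivative.natDegree < n))
  · intro i hi
    exact hz i (Finset.mem_range.1 hi)

theorem un_abs {n : ℕ} {κ : ℝ} {Z : ℝ[X]} {x : ℕ → ℝ} (h : Mem n κ Z x) {i : ℕ}
    (hi : i < n) : |Z.eval (x i)| = 1 := by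
  rw [h.val i hi, abs_pow, abs_neg, abs_one, one_pow]

/-- the nodes: the largest index with different nodes cannot exist -/
theorem un_node {n : ℕ} {κ : ℝ} {Z : ℝ[X]} {x x' : ℕ → ℝ} (hn : 3 ≤ n)
    (h : Mem n κ Z x) (h' : Mem n κ Z x') {i : ℕ} (hi : i < n)
    (hup : ∀ j, i < j → j < n → x j = x' j) (hlt : x i < x' i) : False := by
  -- Rolle
  obtain ⟨z, hz, hz0⟩ : ∃ z ∈ Ioo (x i) (x' i), Z.derivative.eval z = 0 := by
    obtain ⟨z, hz, hz1⟩ := exists_hasDerivAt_eq_zero hlt (Z.continuous.continuousOn)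
      (by rw [h.val i hi, h'.val i hi]) (fun y _ => Z.hasDerivAt y)
    exact ⟨z, hz, hz1⟩
  have hmi := h.mem i hi
  have hmi' := h'.mem i hi
  -- interior nodes
  have hint : ∀ j, 1 ≤ j → j < n → j + 1 < n ∨ j ≤ i → Z.derivative.eval (x j) = 0 := by
    intro j h1 h2 h3
    apply Pool.Agent.Helper40.AS.contact_int h.bdd _ (un_abs h h2)
    refine ⟨lt_of_le_of_lt (h.mem 0 (by omega)).1 (un_lt h (by omega) h2), ?_⟩
    rcases h3 with h3 | h3
    · exact lt_of_lt_of_le (h.lt j h3) (h.mem _ h3).2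
    · rcases eq_or_lt_of_le h3 with h4 | h4
      · rw [h4]
        exact lt_of_lt_of_le hlt hmi'.2
      · exact lt_of_lt_of_le (un_lt h h4 hi) hmi.2
  have hint' : i + 1 < n → Z.derivative.eval (x' i) = 0 := by
    intro h1
    apply Pool.Agent.Helper40.AS.contact_int h.bdd _ (un_abs h' hi)
    exact ⟨lt_of_le_of_lt hmi.1 hlt, lt_of_lt_of_le (h'.lt i h1) (h'.mem _ h1).2⟩
  apply un_many hn h (fun j => if j < i then x (j + 1) else if j = i then z else
    if j = i + 1 then x' i else x (j - 1))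
  · intro j hj
    rcases lt_trichotomy (j + 1) i with h1 | h1 | h1
    · rw [if_pos (by omega), if_pos h1]
      exact h.lt _ (by omega)
    · rw [if_pos (by omega), if_neg (by omega), if_pos h1, h1]
      exact hz.1
    · rcases lt_trichotomy j (i + 1) with h2 | h2 | h2
      · have h3 : j = i := by omega
        rw [if_neg (by omega), if_pos h3, if_neg (by omega), if_neg (by omega), if_pos (by omega)]
        exact hz.2
      · rw [if_neg (by omega), if_neg (by omega), if_pos h2, if_neg (by omega), if_neg (by omega),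
          if_neg (by omega)]
        have h3 : j + 1 - 1 = i + 1 := by omega
        rw [h3, hup (i + 1) (by omega) (by omega)]
        exact h'.lt i (by omega)
      · rw [if_neg (by omega), if_neg (by omega), if_neg (by omega), if_neg (by omega),
          if_neg (by omega), if_neg (by omega)]
        exact un_lt h (by omega) (by omega)
  · intro j hj
    rcases lt_trichotomy j i with h1 | h1 | h1
    · simp only [if_pos h1]
      exact hint (j + 1) (by omega) (by omega) (by omega)
    · simp only [if_neg (show ¬ j < i by omega), if_pos h1]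
      exact hz0
    · rcases eq_or_ne j (i + 1) with h2 | h2
      · simp only [if_neg (show ¬ j < i by omega), if_neg (show ¬ j = i by omega), if_pos h2]
        exact hint' (by omega)
      · simp only [if_neg (show ¬ j < i by omega), if_neg (show ¬ j = i by omega), if_neg h2]
        exact hint (j - 1) (by omega) (by omega) (by omega)

theorem un : Un := by
  intro n κ Z Z' x x' hn h h'
  have hZ := un_poly hn h h'
  refine ⟨hZ, ?_⟩
  subst hZ
  by_contra hcon
  push Not at hcon
  -- largest index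
  classical
  have hne : ((Finset.range n).filter fun i => x i ≠ x' i).Nonempty := by
    obtain ⟨i, hi, hi'⟩ := hcon
    exact ⟨i, by simp [hi, hi']⟩
  set S := (Finset.range n).filter fun i => x i ≠ x' i with hS
  have hmax := S.max'_mem hne
  set i := S.max' hne with hidef
  rw [hS, Finset.mem_filter, Finset.mem_range] at hmax
  have hup : ∀ j, i < j → j < n → x j = x' j := by
    intro j h1 h2
    by_contra h3
    have h4 : j ∈ S := by
      rw [hS, Finset.mem_filter, Finset.mem_range]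
      exact ⟨h2, h3⟩
    have h5 := S.le_max' j h4
    omega
  rcases lt_or_gt_of_ne hmax.2 with h1 | h1
  · exact un_node hn h h' hmax.1 hup h1
  · exact un_node hn h' h hmax.1 (fun j a b => (hup j a b).symm) h1

end

end Pool.Agent.Helper40.TV
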