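import Pool.Agent.Helper40.TV.St2

/-! Project TV, piece `W1`: facts on `cW`. -/

set_option autoImplicit false

namespace Pool.Agent.Helper40.TV

open Set Real

theorem w1_per (hV1 : V1) (k : ℕ) (y : ℝ) : vv (y + k * π) = vv y + 2 * k := by
  obtain ⟨-, -, -, hper, -⟩ := hV1
  induction k with
  | zero => simp
  | succ k ih =>
    have h : y + ((k + 1 : ℕ) : ℝ) * π = (y + k * π) + π := by push_cast; ring
    rw [h, hper, ih]
    push_cast
    ring

/-- the value of `cW` in terms of quotient and remainder -/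
theorem w1_val {d : ℝ} (hd : 0 ≤ d) : ∃ (k : ℕ) (e : ℝ), 0 ≤ e ∧ e < π ∧ d = e + k * π ∧
    cW d = 2 * k + 2 * sin (e / 2) := by
  have hπ := Real.pi_pos
  rcases hd.eq_or_lt with h0 | h0
  · refine ⟨0, 0, le_refl _, hπ, ?_, ?_⟩
    · rw [← h0]; simp
    · rw [← h0]; simp [cW]
  · have hf : 0 ≤ ⌊d / π⌋ := Int.floor_nonneg.2 (by positivity)
    obtain ⟨k, hk⟩ := Int.eq_ofNat_of_zero_le hf
    have hk' : (⌊d / π⌋ : ℝ) = (k : ℝ) := by rw [hk]; simp
    have h1 : (k : ℝ) ≤ d / π := by rw [← hk']; exact Int.floor_le _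
    have h2 : d / π < k + 1 := by rw [← hk']; exact Int.lt_floor_add_one _
    rw [le_div_iff₀ hπ] at h1
    rw [div_lt_iff₀ hπ] at h2
    refine ⟨k, d - π * k, by linarith [mul_comm π (k : ℝ)],
      by nlinarith [mul_comm π (k : ℝ)], by ring, ?_⟩
    unfold cW
    rw [if_neg (not_le.2 h0), hk']

theorem w1_le (hV1 : V1) {d : ℝ} (hd : 0 ≤ d) (u : ℝ) : vv (u + d) - vv u ≤ cW d := by
  obtain ⟨k, e, he0, heπ, hde, hc⟩ := w1_val hd
  have hper := w1_per hV1 k (u + e)
  obtain ⟨-, -, -, -, -, -, -, hup, -⟩ := hV1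
  have h1 := hup u (u + e) (by linarith) (by linarith)
  have h2 : u + d = u + e + k * π := by rw [hde]; ring
  have h3 : u + e - u = e := by ring
  rw [h3] at h1
  rw [h2, hper, hc]
  linarith

theorem w1_mid (hV1 : V1) {e : ℝ} (he0 : 0 ≤ e) (heπ : e ≤ π) :
    vv ((π - e) / 2 + e) - vv ((π - e) / 2) = 2 * sin (e / 2) := by
  obtain ⟨-, -, -, -, hex, -⟩ := hV1
  have h1 := hex 0 ((π - e) / 2 + e) (by push_cast; linarith) (by push_cast; linarith)
  have h2 := hex 0 ((π - e) / 2) (by push_cast; linarith) (by push_cast; linarith)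
  rw [h1, h2]
  have e1 : (π - e) / 2 + e - ((0 : ℤ) : ℝ) * π = e / 2 + π / 2 := by push_cast; ring
  have e2 : (π - e) / 2 - ((0 : ℤ) : ℝ) * π = π / 2 - e / 2 := by push_cast; ring
  rw [e1, e2, cos_add_pi_div_two, cos_pi_div_two_sub]
  ring

theorem w1_max (hV1 : V1) {d : ℝ} (hd : 0 ≤ d) : ∃ u, vv (u + d) - vv u = cW d := by
  obtain ⟨k, e, he0, heπ, hde, hc⟩ := w1_val hd
  refine ⟨(π - e) / 2, ?_⟩
  have hper := w1_per hV1 k ((π - e) / 2 + e)
  have hm := w1_mid hV1 he0 heπ.le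
  have h2 : (π - e) / 2 + d = (π - e) / 2 + e + k * π := by rw [hde]; ring
  rw [h2, hper, hc]
  linarith

theorem w1 (hV1 : V1) : W1 := by
  have hmono : ∀ {x y : ℝ}, x ≤ y → vv x ≤ vv y := fun h => hV1.2.1.monotone h
  have hper := hV1.2.2.2.1
  have hup := hV1.2.2.2.2.2.2.2.1
  have hneg : ∀ d ≤ 0, cW d = 0 := by
    intro d hd
    unfold cW
    rw [if_pos hd]
  have hnn : ∀ d, 0 ≤ cW d := by
    intro d
    rcases le_total d 0 with h | h
    · rw [hneg d h]
    · have h1 := w1_le hV1 h 0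
      have h2 : vv 0 ≤ vv (0 + d) := hmono (by linarith)
      linarith
  refine ⟨?_, hnn, hneg, ?_, ?_, ?_, ?_⟩
  · intro d d' hdd
    rcases le_total d 0 with h | h
    · rw [hneg d h]; exact hnn d'
    · obtain ⟨u, hu⟩ := w1_max hV1 h
      rw [← hu]
      have h1 := w1_le hV1 (h.trans hdd) u
      have h2 : vv (u + d) ≤ vv (u + d') := hmono (by linarith)
      linarith
  · intro d h0 h1
    apply le_antisymm
    · obtain ⟨u, hu⟩ := w1_max hV1 h0
      rw [← hu]
      have h2 := hup u (u + d) (by linarith) (by linarith)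
      have h3 : u + d - u = d := by ring
      rwa [h3] at h2
    · rw [← w1_mid hV1 h0 h1]
      exact w1_le hV1 h0 _
  · intro d h0
    have hd' : 0 ≤ d + π := by linarith [Real.pi_pos]
    apply le_antisymm
    · obtain ⟨u, hu⟩ := w1_max hV1 hd'
      rw [← hu]
      have h2 := w1_le hV1 h0 u
      have h3 : u + (d + π) = (u + d) + π := by ring
      rw [h3, hper]
      linarith
    · obtain ⟨u, hu⟩ := w1_max hV1 h0
      rw [← hu]
      have h2 := w1_le hV1 hd' u
      have h3 : u + (d + π) = (u + d) + π := by ring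
      rw [h3, hper] at h2
      linarith
  · intro d e hd he
    obtain ⟨u, hu⟩ := w1_max hV1 (add_nonneg hd he)
    rw [← hu]
    have h1 := w1_le hV1 hd u
    have h2 := w1_le hV1 he (u + d)
    have h3 : u + (d + e) = u + d + e := by ring
    rw [h3]
    linarith
  · intro x y hxy
    have h1 := w1_le hV1 (sub_nonneg.2 hxy) x
    have h2 : x + (y - x) = y := by ring
    rwa [h2] at h1

end Pool.Agent.Helper40.TV
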