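import Pool.Agent.Helper40.TV.St3

/-! Project TV, piece `Z2`: second derivatives of the members at their nodes. -/

set_option autoImplicit false

namespace Pool.Agent.Helper40.TV

open Polynomial Set Real Filter Topology
open Pool.Agent.Helper40.AS (Bdd)

/-- second order division at a critical point -/
theorem z2_div (P : ℝ[X]) (c : ℝ) (h : P.derivative.eval c = 0) :
    ∃ B : ℝ[X], (∀ x, P.eval x - P.eval c = (x - c) ^ 2 * B.eval x) ∧
      P.derivative.derivative.eval c = 2 * B.eval c := by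
  have h1 : (X - C c) ∣ (P - C (P.eval c)) := by
    rw [dvd_iff_isRoot]
    simp
  obtain ⟨A, hA⟩ := h1
  have hP : P = C (P.eval c) + (X - C c) * A := by rw [← hA]; ring
  have hd : P.derivative = A + (X - C c) * A.derivative := by
    conv_lhs => rw [hP]
    simp only [derivative_add, derivative_C, derivative_mul, derivative_sub, derivative_X]
    ring
  have hA0 : A.eval c = 0 := by
    have h2 := h
    rw [hd] at h2
    simpa using h2
  have h3 : (X - C c) ∣ A := dvd_iff_isRoot.2 hA0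
  obtain ⟨B, hB⟩ := h3
  refine ⟨B, ?_, ?_⟩
  · intro x
    have h4 : (P - C (P.eval c)).eval x = ((X - C c) * A).eval x := by rw [hA]
    rw [hB] at h4
    simp only [eval_sub, eval_C, eval_mul, eval_X] at h4
    rw [h4]
    ring
  · rw [hd, hB]
    simp only [derivative_add, derivative_mul, derivative_sub, derivative_X, derivative_C,
      eval_add, eval_mul, eval_sub, eval_X, eval_C, eval_one, sub_self, eval_zero]
    ring

/-- the phase near a node -/
theorem z2_cos (k : ℤ) (y : ℝ) : |cos y - cos (k * π)| = 1 - cos (y - k * π) := by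
  have h1 : cos y = cos (k * π) * cos (y - k * π) := by
    have h2 : y = k * π + (y - k * π) := by ring
    conv_lhs => rw [h2]
    rw [cos_add, sin_int_mul_pi]
    ring
  have h3 : |cos (k * π)| = 1 := by
    have := cos_sq_add_sin_sq ((k : ℝ) * π)
    rw [sin_int_mul_pi] at this
    have h4 : cos (k * π) ^ 2 = 1 := by linarith
    rw [← sq_eq_sq₀ (abs_nonneg _) zero_le_one, sq_abs, h4, one_pow]
  rw [h1]
  have h5 : cos (k * π) * cos (y - k * π) - cos (k * π) =
      cos (k * π) * (-(1 - cos (y - k * π))) := by ring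
  rw [h5, abs_mul, h3, one_mul, abs_neg, abs_of_nonneg]
  linarith [cos_le_one (y - k * π)]

/-- the stretched Chebyshev polynomial with a contact point at `cos t` -/
theorem z2_Q {n : ℕ} (hn : 1 ≤ n) {K t : ℝ} (hK : 0 < K) (hKn : K + 7 ≤ n) (ht : 0 < t)
    (htK : n * t ≤ K) : ∃ Q : ℝ[X], Q.natDegree ≤ n ∧ Bdd Q ∧ Q.derivative.eval (cos t) = 0 ∧
      1 / (4 * (K + π) ^ 2) * (n : ℝ) ^ 4 ≤ |Q.derivative.derivative.eval (cos t)| := by
  have hπ := Real.pi_pos
  have hπ4 := Real.pi_lt_four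
  have hn0 : (0 : ℝ) < n := by exact_mod_cast hn
  set j : ℕ := ⌈n * t / π⌉₊ with hj
  have hj1 : n * t / π ≤ j := Nat.le_ceil _
  have hj2 : (j : ℝ) < n * t / π + 1 := Nat.ceil_lt_add_one (by positivity)
  rw [div_le_iff₀ hπ] at hj1
  have hj3 : (j : ℝ) * π < n * t + π := by
    have h1 := mul_lt_mul_of_pos_right hj2 hπ
    have h2 : (n * t / π + 1) * π = n * t + π := by field_simp
    linarith
  set φ : ℝ := j * π / n with hφ
  have hφn : n * φ = j * π := by rw [hφ]; field_simp
  have htφ : t ≤ φ := by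
    rw [hφ, le_div_iff₀ hn0]; linarith
  have hφ0 : 0 < φ := lt_of_lt_of_le ht htφ
  have hφK : φ ≤ (K + π) / n := by
    rw [hφ, div_le_div_iff_of_pos_right hn0]; linarith
  have hφ1 : φ < 1 := by
    refine lt_of_le_of_lt hφK ?_
    rw [div_lt_one hn0]; linarith
  have hφπ : φ < π := by linarith [Real.pi_gt_three]
  have hcφ : 0 ≤ cos φ := cos_nonneg_of_neg_pi_div_two_le_of_le (by linarith)
    (by linarith [Real.pi_gt_three])
  have hct : cos φ ≤ cos t := cos_le_cos_of_nonneg_of_le_pi ht.le hφπ.le htφ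
  have h1t : 0 < 1 + cos t := by linarith
  set l : ℝ := (1 + cos φ) / (1 + cos t) with hl
  have hl1 : l ≤ 1 := by rw [hl, div_le_one h1t]; linarith
  have hl2 : 1 / 2 ≤ l := by
    rw [hl, div_le_div_iff₀ (by norm_num) h1t]
    linarith [cos_le_one t]
  have hlt : l * (cos t + 1) - 1 = cos φ := by
    rw [hl]; field_simp; ring
  set q : ℝ[X] := C l * (X + 1) - 1 with hq
  have hqe : ∀ x, q.eval x = l * (x + 1) - 1 := by
    intro x; rw [hq]; simp
  have hqd : q.derivative = C l := by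
    rw [hq]; simp
  set T : ℝ[X] := Polynomial.Chebyshev.T ℝ n with hT
  have hs : 0 < sin φ := sin_pos_of_pos_of_lt_pi hφ0 hφπ
  have hT1 : T.derivative.eval (cos φ) = 0 := by
    rw [hT, Polynomial.Chebyshev.T_derivative_eq_U]
    have h1 := Polynomial.Chebyshev.U_real_cos φ ((n : ℤ) - 1)
    have h2 : sin ((((n : ℤ) - 1 : ℤ) + 1 : ℝ) * φ) = 0 := by
      have h3 : (((n : ℤ) - 1 : ℤ) + 1 : ℝ) * φ = j * π := by
        push_cast
        rw [← hφn]; ring
      rw [h3]
      exact sin_nat_mul_pi j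
    rw [h2] at h1
    have h4 := (mul_eq_zero.1 h1).resolve_right hs.ne'
    rw [eval_mul, h4, mul_zero]
  have hT2 : |T.derivative.derivative.eval (cos φ)| * sin φ ^ 2 = n ^ 2 := by
    have h1 := congrArg (eval (cos φ))
      (Polynomial.Chebyshev.one_sub_X_sq_mul_derivative_derivative_T_eq_poly_in_T (R := ℝ) n)
    rw [Function.iterate_succ, Function.iterate_one, Function.comp_apply] at h1
    simp only [eval_mul, eval_sub, eval_one, eval_pow, eval_X] at h1
    rw [← hT, hT1, hT] at h1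
    rw [Polynomial.Chebyshev.T_real_cos] at h1
    have h2 : 1 - cos φ ^ 2 = sin φ ^ 2 := by linarith [sin_sq_add_cos_sq φ]
    rw [h2, ← hT] at h1
    have h3 : ((n : ℤ) : ℝ) * φ = j * π := by push_cast; exact hφn
    rw [h3] at h1
    have h4 : |cos (j * π)| = 1 := by
      have := cos_sq_add_sin_sq ((j : ℝ) * π)
      rw [sin_nat_mul_pi] at this
      have h4 : cos (j * π) ^ 2 = 1 := by linarith
      rw [← sq_eq_sq₀ (abs_nonneg _) zero_le_one, sq_abs, h4, one_pow]
    have h5 : |sin φ ^ 2 * T.derivative.derivative.eval (cos φ)| = n ^ 2 := by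
      rw [h1]
      simp [abs_mul, h4]
    rw [abs_mul, abs_of_nonneg (sq_nonneg _)] at h5
    linarith
  refine ⟨T.comp q, ?_, ?_, ?_, ?_⟩
  · refine natDegree_comp_le.trans ?_
    have h1 : T.natDegree = n := by
      rw [hT, Polynomial.Chebyshev.natDegree_T]; simp
    have h2 : q.natDegree ≤ 1 := by
      rw [hq]; compute_degree
    rw [h1]
    calc n * q.natDegree ≤ n * 1 := Nat.mul_le_mul_left _ h2
      _ = n := mul_one _
  · intro x hx
    rw [eval_comp, hqe]
    apply Polynomial.Chebyshev.abs_eval_T_real_le_one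
    rw [abs_le]
    constructor
    · nlinarith [hx.1]
    · nlinarith [hx.1, hx.2]
  · rw [derivative_comp, hqd, eval_mul, eval_comp, hqe, hlt, hT1, mul_zero]
  · have h1 : (T.comp q).derivative.derivative.eval (cos t) =
        l ^ 2 * T.derivative.derivative.eval (cos φ) := by
      rw [derivative_comp, hqd, derivative_mul, derivative_C, zero_mul, zero_add,
        derivative_comp, hqd, eval_mul, eval_mul, eval_comp, hqe, hlt, eval_C]
      ring
    rw [h1, abs_mul, abs_of_nonneg (sq_nonneg _)]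
    have h2 : sin φ ^ 2 ≤ φ ^ 2 := by
      have := sin_le hφ0.le
      nlinarith
    have h3 : φ ^ 2 * n ^ 2 ≤ (K + π) ^ 2 := by
      rw [le_div_iff₀ hn0] at hφK
      have h4 : 0 ≤ φ * n := by positivity
      nlinarith
    have hA : 0 ≤ |T.derivative.derivative.eval (cos φ)| := abs_nonneg _
    set A := |T.derivative.derivative.eval (cos φ)| with hAdef
    have h5 : (n : ℝ) ^ 4 ≤ A * (K + π) ^ 2 := by
      have h6 : (n : ℝ) ^ 2 ≤ A * φ ^ 2 := by
        rw [← hT2]; exact mul_le_mul_of_nonneg_left h2 hA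
      calc (n : ℝ) ^ 4 = (n : ℝ) ^ 2 * (n : ℝ) ^ 2 := by ring
        _ ≤ (A * φ ^ 2) * (n : ℝ) ^ 2 := mul_le_mul_of_nonneg_right h6 (by positivity)
        _ = A * (φ ^ 2 * n ^ 2) := by ring
        _ ≤ A * (K + π) ^ 2 := mul_le_mul_of_nonneg_left h3 hA
    have hKπ : 0 < (K + π) ^ 2 := by positivity
    have h7 : 1 / (4 * (K + π) ^ 2) * (n : ℝ) ^ 4 ≤ 1 / 4 * A := by
      rw [div_mul_eq_mul_div, one_mul, div_le_iff₀ (by positivity)]
      nlinarith
    have h8 : (1 / 4 : ℝ) ≤ l ^ 2 := by nlinarith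
    exact h7.trans (mul_le_mul_of_nonneg_right h8 hA)

theorem z2 : Z2 := by
  intro K hK
  have hπ := Real.pi_pos
  refine ⟨1 / (4 * (K + π) ^ 2), by positivity, ⌈K + 7⌉₊, ?_⟩
  intro n hn Th Z F L t k ht htK hTh
  have hKn : K + 7 ≤ n := (Nat.le_ceil _).trans (by exact_mod_cast hn)
  have hn0 : (0 : ℝ) < n := by linarith
  have hn1 : 1 ≤ n := by exact_mod_cast hn0
  have ht1 : t < 1 := by
    by_contra hcon
    push Not at hcon
    nlinarith
  have htπ : t < π := by linarith [Real.pi_gt_three]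
  have htI : t ∈ Ioo 0 π := ⟨ht, htπ⟩
  obtain ⟨Q, hQd, hQb, hQ1, hQ2⟩ := z2_Q hn1 hK hKn ht htK
  refine hQ2.trans ?_
  have hcI : cos t ∈ Ioo (-1 : ℝ) 1 := by
    constructor
    · have := cos_lt_cos_of_nonneg_of_le_pi ht.le le_rfl htπ
      rwa [cos_pi] at this
    · have := cos_lt_cos_of_nonneg_of_le_pi (le_refl 0) htπ.le ht
      rwa [cos_zero] at this
  have hZt : |(Z L).eval (cos t)| = 1 := by
    rw [F.ev L t ⟨ht.le, htπ.le⟩, hTh]
    have := cos_sq_add_sin_sq ((k : ℝ) * π)
    rw [sin_int_mul_pi] at this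
    have h4 : cos (k * π) ^ 2 = 1 := by linarith
    rw [← sq_eq_sq₀ (abs_nonneg _) zero_le_one, sq_abs, h4, one_pow]
  have hZ1 : (Z L).derivative.eval (cos t) = 0 := AS.contact_int (F.bdd L) hcI hZt
  obtain ⟨A, hA, hA2⟩ := z2_div Q (cos t) hQ1
  obtain ⟨B, hB, hB2⟩ := z2_div (Z L) (cos t) hZ1
  have hkey : |A.eval (cos t)| ≤ |B.eval (cos t)| := by
    have hcA : Tendsto (fun s => |A.eval (cos s)|) (𝓝[≠] t) (𝓝 |A.eval (cos t)|) := by
      have : Continuous fun s : ℝ => |A.eval (cos s)| :=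
        (A.continuous.comp continuous_cos).abs
      exact (this.tendsto t).mono_left nhdsWithin_le_nhds
    have hcB : Tendsto (fun s => |B.eval (cos s)|) (𝓝[≠] t) (𝓝 |B.eval (cos t)|) := by
      have : Continuous fun s : ℝ => |B.eval (cos s)| :=
        (B.continuous.comp continuous_cos).abs
      exact (this.tendsto t).mono_left nhdsWithin_le_nhds
    refine le_of_tendsto_of_tendsto hcA hcB ?_
    have hcont : ContinuousAt (Th L) t :=
      (F.cth L).continuousAt (Icc_mem_nhds ht htπ)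
    have hev1 : ∀ᶠ s in 𝓝 t, |Th L s - k * π| ≤ π := by
      have h1 : Tendsto (fun s => |Th L s - k * π|) (𝓝 t) (𝓝 |Th L t - k * π|) :=
        (hcont.sub continuousAt_const).abs
      rw [hTh, sub_self, abs_zero] at h1
      filter_upwards [h1.eventually (Iio_mem_nhds hπ)] with s hs
      exact le_of_lt hs
    have hev2 : ∀ᶠ s in 𝓝 t, s ∈ Ioo 0 π := Ioo_mem_nhds ht htπ
    filter_upwards [hev1.filter_mono nhdsWithin_le_nhds, hev2.filter_mono nhdsWithin_le_nhds,
      self_mem_nhdsWithin] with s hs1 hs2 hs3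
    have hsI : s ∈ Icc 0 π := ⟨hs2.1.le, hs2.2.le⟩
    have h1 := F.lemA K L t s k Q hK.le hKn htI htK hTh hsI hs1 hQd hQb hQ1
    have h2 : 0 ≤ nu K n s t * (1 - |Q.eval (cos t)|) := by
      apply mul_nonneg
      · unfold nu
        have : exp (-(2 * ((n : ℝ) ^ 2 * (cos s - cos t)) ^ 2 / (K + 7) ^ 4)) ≤ 1 := by
          rw [exp_le_one_iff]
          have : 0 ≤ 2 * ((n : ℝ) ^ 2 * (cos s - cos t)) ^ 2 / (K + 7) ^ 4 := by positivity
          linarith
        linarith
      · linarith [hQb (cos t) ⟨hcI.1.le, hcI.2.le⟩]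
    have h3 : |(Z L).eval (cos s) - (Z L).eval (cos t)| = 1 - cos (Th L s - k * π) := by
      rw [F.ev L s hsI, F.ev L t ⟨ht.le, htπ.le⟩, hTh]
      exact z2_cos k _
    have h4 : |Q.eval (cos s) - Q.eval (cos t)| ≤ |(Z L).eval (cos s) - (Z L).eval (cos t)| := by
      rw [h3]; linarith
    rw [hA, hB, abs_mul, abs_mul] at h4
    have hne : cos s - cos t ≠ 0 := by
      intro h0
      exact hs3 (injOn_cos hsI ⟨ht.le, htπ.le⟩ (by linarith))
    have hpos : 0 < |(cos s - cos t) ^ 2| := by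
      rw [abs_of_nonneg (sq_nonneg _)]; positivity
    exact le_of_mul_le_mul_left h4 hpos
  rw [hA2, hB2, abs_mul, abs_mul]
  exact mul_le_mul_of_nonneg_left hkey (abs_nonneg _)

end Pool.Agent.Helper40.TV
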