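import Pool.Agent.Helper40.TV.St1

/-! Project TV, piece `Cm`: comparison of the differences of phases at different points. -/

set_option autoImplicit false

namespace Pool.Agent.Helper40.TV

open Polynomial Set Real
open Pool.Agent.Helper40.AS (Bdd)

theorem cm (hIn : In) (hRt : Rt) : Cm := by
  intro n θ η κ κ' hn hθ hη hθη h1 h2 h3
  constructor
  · rw [mul_comm _ (tan (θ / 2)), mul_comm _ (tan (η / 2))]
    apply hIn n θ η κ κ' _ _ hn hθ hη h1 h2 h3
    intro k hk hk0 e1 e2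
    have hk1 : k ∈ Ioo (-1 : ℝ) 1 := ⟨lt_of_le_of_lt h1 hk.1, lt_of_lt_of_le hk.2 h3⟩
    have h := (hRt n θ η k hn hθ hη hθη hk1 hk0 e1 e2).1
    linarith [mul_comm (wk n k θ) (tan (θ / 2)), mul_comm (wk n k η) (tan (η / 2))]
  · rw [mul_comm _ (tan (θ / 2)), mul_comm _ (tan (η / 2))]
    apply hIn n η θ κ κ' _ _ hn hη hθ h1 h2 h3
    intro k hk hk0 e1 e2
    have hk1 : k ∈ Ioo (-1 : ℝ) 1 := ⟨lt_of_le_of_lt h1 hk.1, lt_of_lt_of_le hk.2 h3⟩
    have h := (hRt n θ η k hn hθ hη hθη hk1 hk0 e2 e1).2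
    linarith [mul_comm (wk n k η) (tan (θ / 2)), mul_comm (wk n k θ) (tan (η / 2))]

end Pool.Agent.Helper40.TV
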