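import Pool.Agent.Helper40.TV.St1

set_option autoImplicit false

namespace Pool.Agent.Helper40.TV

open Polynomial Set Real
open Pool.Agent.Helper40.AS (Bdd)

noncomputable section

theorem ex (hEx1 : Ex1) (hEx2 : Ex2) : Ex := by
  intro n κ hn hκ
  obtain ⟨Z, h1, h2, h3, h4⟩ := hEx1 n κ hn hκ
  obtain ⟨x, hx⟩ := hEx2 n κ Z hn h1 h2 h3 h4
  exact ⟨Z, x, hx⟩

theorem famE (hLb : Lb) (hLt : Lt) (hLh : Lh) (hLl : Ll) (hLm : Lm) : FamE := by
  intro n hn
  obtain ⟨b1, b2, b3, b4, b5, b6, b7, b8, b9, b10⟩ := hLb n hn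
  exact {
    n3 := hn
    deg := b1
    bdd := b2
    ev := b3
    unit := b4
    zero := b5
    mono := b6
    cont := b7
    inc := b8
    cth := b9
    lip := b10
    tp := hLt n hn
    hill := hLh n hn
    cm1 := fun A B hAB θ hθ η hη h => (hLl n hn A B hAB θ hθ η hη h).1
    cm2 := fun A B hAB θ hθ η hη h => (hLl n hn A B hAB θ hθ η hη h).2
    lemA := hLm n hn }

end

end Pool.Agent.Helper40.TV
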