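import Pool.Agent.Helper40.TV.St1

/-!
Continuity of the nodes of the polynomials with `n` alternation points.
-/

set_option autoImplicit false

namespace Pool.Agent.Helper40.TV

open Polynomial Set Real Filter Topology
open Pool.Agent.Helper40.AS (Bdd)

theorem nk_om {n : ℕ} {ζ : ℕ → ℝ} (h : ∀ i < n, ζ i ∈ Icc (-1 : ℝ) 1) {x : ℝ}
    (hx : x ∈ Icc (-1 : ℝ) 1) : |(om n ζ).eval x| ≤ 2 ^ n := by
  unfold om
  rw [eval_prod, Finset.abs_prod]
  calc ∏ i ∈ Finset.range n, |(X - C (ζ i)).eval x| ≤ ∏ _i ∈ Finset.range n, (2 : ℝ) := by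
        refine Finset.prod_le_prod (fun i _ => abs_nonneg _) fun i hi => ?_
        obtain ⟨h1, h2⟩ := h i (Finset.mem_range.1 hi)
        rw [eval_sub, eval_X, eval_C, abs_le]
        constructor <;> linarith [hx.1, hx.2]
    _ = 2 ^ n := by rw [Finset.prod_const, Finset.card_range]

theorem nk_diff1 (hCp : Cp) {n : ℕ} (hn : 3 ≤ n) {κ κ' : ℝ} {Z Z' : ℝ[X]} {x x' : ℕ → ℝ}
    (hM : Mem n κ Z x) (hM' : Mem n κ' Z' x') (h : κ' < κ) {t : ℝ} (ht : t ∈ Icc (-1 : ℝ) 1) :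
    |Z.eval t - Z'.eval t| ≤ |κ - κ'| * (2 ^ (n - 1) * 2 ^ n) := by
  obtain ⟨⟨ζ, hζ, hE⟩, -⟩ := hCp n κ κ' Z Z' x x' hn h hM hM'
  have h1 : Z.eval t - Z'.eval t = (κ - κ') * 2 ^ (n - 1) * (om n ζ).eval t := by
    rw [← eval_sub, hE, eval_mul, eval_C]
  have h2 : |(om n ζ).eval t| ≤ 2 ^ n := nk_om (fun i hi =>
    ⟨(hM.mem i hi).1.trans (hζ i hi).1, (hζ i hi).2.trans (hM'.mem i hi).2⟩) ht
  rw [h1, abs_mul, abs_mul, abs_of_pos (show (0 : ℝ) < 2 ^ (n - 1) by positivity), mul_assoc]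
  exact mul_le_mul_of_nonneg_left (mul_le_mul_of_nonneg_left h2 (by positivity)) (abs_nonneg _)

theorem nk_diff (hCp : Cp) {n : ℕ} (hn : 3 ≤ n) {κ κ' : ℝ} {t : ℝ}
    (hM : Mem n κ (Zc n κ) (xc n κ)) (hM' : Mem n κ' (Zc n κ') (xc n κ'))
    (ht : t ∈ Icc (-1 : ℝ) 1) :
    |(Zc n κ).eval t - (Zc n κ').eval t| ≤ |κ - κ'| * (2 ^ (n - 1) * 2 ^ n) := by
  rcases lt_trichotomy κ' κ with h | h | h
  · exact nk_diff1 hCp hn hM hM' h ht
  · rw [h, sub_self, sub_self, abs_zero, zero_mul]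
  · rw [abs_sub_comm, abs_sub_comm κ κ']
    exact nk_diff1 hCp hn hM' hM h ht

theorem nk_val_ne (m : ℕ) : (-1 : ℝ) ^ (m + 1) ≠ (-1) ^ m := by
  rw [pow_succ]
  intro h
  have h1 : ((-1 : ℝ) ^ m) ≠ 0 := by positivity
  have h2 : ((-1 : ℝ) ^ m) * ((-1 : ℝ) ^ m) = 1 := by
    rw [← mul_pow]
    norm_num
  have h3 : (-1 : ℝ) ^ m = 0 := by linarith
  exact h1 h3

theorem nk (hEx : Ex) (hUn : Un) (hCp : Cp) : Nk := by
  intro n hn i hi κ₀ hκ₀
  have hmem : ∀ κ ∈ Icc (-1 : ℝ) 1, Mem n κ (Zc n κ) (xc n κ) := fun κ hκ =>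
    mem_c (hEx n κ hn hκ)
  have hM0 := hmem κ₀ hκ₀
  show Tendsto (fun κ => xc n κ i) (𝓝[Icc (-1 : ℝ) 1] κ₀) (𝓝 (xc n κ₀ i))
  rw [tendsto_iff_seq_tendsto]
  intro u hu
  refine tendsto_of_subseq_tendsto fun ns hns => ?_
  obtain ⟨hu1, hu2⟩ := tendsto_nhdsWithin_iff.1 (hu.comp hns)
  set v : ℕ → Fin n → ℝ := fun m j => xc n (u (ns m)) j with hv
  have hcomp : IsCompact (Set.pi univ fun _ : Fin n => Icc (-1 : ℝ) 1) :=
    isCompact_univ_pi fun _ => isCompact_Icc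
  obtain ⟨a, ha, φ, hφ, hlim⟩ := hcomp.tendsto_subseq' (x := v) (by
    refine Eventually.frequently ?_
    filter_upwards [hu2] with m hm
    intro j _
    exact (hmem _ hm).mem j j.2)
  have hlimj : ∀ j : Fin n, Tendsto (fun m => xc n (u (ns (φ m))) j) atTop (𝓝 (a j)) := fun j =>
    (tendsto_pi_nhds.1 hlim) j
  have hκlim : Tendsto (fun m => u (ns (φ m))) atTop (𝓝 κ₀) := hu1.comp hφ.tendsto_atTop
  have hκev : ∀ᶠ m in atTop, u (ns (φ m)) ∈ Icc (-1 : ℝ) 1 := hφ.tendsto_atTop.eventually hu2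
  -- the values of the limit polynomial at the limits of the nodes
  have hval : ∀ j : Fin n, (Zc n κ₀).eval (a j) = (-1) ^ (n - (j : ℕ)) := by
    intro j
    have h1 : Tendsto (fun m => (Zc n κ₀).eval (xc n (u (ns (φ m))) j)) atTop
        (𝓝 ((Zc n κ₀).eval (a j))) := ((Zc n κ₀).continuous.tendsto _).comp (hlimj j)
    have h2 : Tendsto (fun m => (Zc n κ₀).eval (xc n (u (ns (φ m))) j)) atTop
        (𝓝 ((-1) ^ (n - (j : ℕ)))) := by
      rw [tendsto_iff_dist_tendsto_zero]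
      have h3 : Tendsto (fun m => |u (ns (φ m)) - κ₀| * (2 ^ (n - 1) * 2 ^ n)) atTop (𝓝 0) := by
        have h4 : Tendsto (fun m => |u (ns (φ m)) - κ₀|) atTop (𝓝 0) := by
          have := (hκlim.sub_const κ₀).abs
          simpa using this
        simpa using h4.mul_const ((2 : ℝ) ^ (n - 1) * 2 ^ n)
      refine squeeze_zero' (Eventually.of_forall fun _ => dist_nonneg) ?_ h3
      filter_upwards [hκev] with m hm
      have hMm := hmem _ hm
      rw [Real.dist_eq, ← hMm.val j j.2, abs_sub_comm]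
      exact nk_diff hCp hn hMm hM0 (hMm.mem j j.2)
    exact tendsto_nhds_unique h1 h2
  set y : ℕ → ℝ := fun j => if h : j < n then a ⟨j, h⟩ else 0 with hy
  have hyj : ∀ j (h : j < n), y j = a ⟨j, h⟩ := fun j h => by
    simp only [hy, dif_pos h]
  have hMy : Mem n κ₀ (Zc n κ₀) y :=
    { deg := hM0.deg
      bdd := hM0.bdd
      lead := hM0.lead
      lt := by
        intro j hj
        have hj0 : j < n := by omega
        rw [hyj j hj0, hyj (j + 1) hj]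
        refine lt_of_le_of_ne ?_ ?_
        · refine le_of_tendsto_of_tendsto (hlimj ⟨j, hj0⟩) (hlimj ⟨j + 1, hj⟩) ?_
          filter_upwards [hκev] with m hm
          exact ((hmem _ hm).lt j hj).le
        · intro h
          have h1 := hval ⟨j, hj0⟩
          have h2 := hval ⟨j + 1, hj⟩
          rw [h, h2] at h1
          have e : n - j = (n - (j + 1)) + 1 := by omega
          simp only at h1
          rw [e] at h1
          exact nk_val_ne _ h1.symm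
      mem := by
        intro j hj
        rw [hyj j hj]
        exact ha ⟨j, hj⟩ (mem_univ _)
      val := by
        intro j hj
        rw [hyj j hj]
        exact hval ⟨j, hj⟩ }
  have huniq := (hUn n κ₀ _ _ _ _ hn hM0 hMy).2 i hi
  refine ⟨φ, ?_⟩
  rw [huniq, hyj i hi]
  exact hlimj ⟨i, hi⟩

end Pool.Agent.Helper40.TV
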