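import Pool.Agent.Helper40.TV.St1

/-!
Location of the roots of a polynomial from its signs at `n` points.
-/

set_option autoImplicit false

namespace Pool.Agent.Helper40.TV

open Polynomial Set Real

theorem rc_om_succ (n : ℕ) (x : ℕ → ℝ) : om (n + 1) x = om n x * (X - C (x n)) := by
  unfold om
  rw [Finset.prod_range_succ]

theorem rc_om_congr (n : ℕ) (x x' : ℕ → ℝ) (h : ∀ i < n, x i = x' i) : om n x = om n x' := by
  unfold om
  exact Finset.prod_congr rfl fun i hi => by rw [h i (Finset.mem_range.1 hi)]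

theorem rc_root (n : ℕ) (x : ℕ → ℝ) (y : ℝ) : (om n x).eval y = 0 ↔ ∃ i < n, y = x i := by
  unfold om
  rw [eval_prod, Finset.prod_eq_zero_iff]
  constructor
  · rintro ⟨i, hi, h⟩
    refine ⟨i, Finset.mem_range.1 hi, ?_⟩
    rw [eval_sub, eval_X, eval_C] at h
    linarith
  · rintro ⟨i, hi, h⟩
    refine ⟨i, Finset.mem_range.2 hi, ?_⟩
    rw [eval_sub, eval_X, eval_C, h, sub_self]

theorem rc_mono (n : ℕ) (x : ℕ → ℝ) (h : ∀ i, i + 1 < n → x i ≤ x (i + 1)) :
    ∀ j < n, ∀ i ≤ j, x i ≤ x j := by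
  intro j
  induction j with
  | zero =>
    intro _ i hi
    have : i = 0 := by omega
    rw [this]
  | succ j ih =>
    intro hj i hi
    rcases Nat.lt_or_ge i (j + 1) with h1 | h1
    · exact (ih (by omega) i (by omega)).trans (h j hj)
    · have : i = j + 1 := by omega
      rw [this]

theorem rc_ne (n : ℕ) (x : ℕ → ℝ) : om n x ≠ 0 := by
  unfold om
  exact Finset.prod_ne_zero_iff.2 fun i _ => X_sub_C_ne_zero _

theorem rc_uniq : ∀ (n : ℕ) (x x' : ℕ → ℝ), (∀ i, i + 1 < n → x i ≤ x (i + 1)) →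
    (∀ i, i + 1 < n → x' i ≤ x' (i + 1)) → om n x = om n x' → ∀ i < n, x i = x' i := by
  intro n
  induction n with
  | zero =>
    intro _ _ _ _ _ i hi
    omega
  | succ n ih =>
    intro x x' hx hx' h
    have key : ∀ (z z' : ℕ → ℝ), (∀ i, i + 1 < n + 1 → z' i ≤ z' (i + 1)) →
        om (n + 1) z = om (n + 1) z' → z n ≤ z' n := by
      intro z z' hz' hh
      have h1 : (om (n + 1) z').eval (z n) = 0 := by
        rw [← hh]
        exact (rc_root _ _ _).2 ⟨n, by omega, rfl⟩
      obtain ⟨j, hj, h2⟩ := (rc_root _ _ _).1 h1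
      rw [h2]
      exact rc_mono (n + 1) z' hz' n (by omega) j (by omega)
    have he : x n = x' n := le_antisymm (key x x' hx' h) (key x' x hx h.symm)
    have h3 : om n x = om n x' := by
      rw [rc_om_succ, rc_om_succ, he] at h
      exact mul_right_cancel₀ (X_sub_C_ne_zero _) h
    intro i hi
    rcases Nat.lt_or_ge i n with h1 | h1
    · exact ih x x' (fun i hi => hx i (by omega)) (fun i hi => hx' i (by omega)) h3 i h1
    · have : i = n := by omega
      rw [this, he]

/-- there is a root to the right of a point where the polynomial is not positive -/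
theorem rc_ex (n : ℕ) (E : ℝ[X]) (h : E.natDegree = n + 1) (hc : 0 < E.leadingCoeff) (a : ℝ)
    (ha : E.eval a ≤ 0) : ∃ r, a ≤ r ∧ E.eval r = 0 := by
  have hd : 0 < E.degree := by
    rw [← natDegree_pos_iff_degree_pos]
    omega
  have ht := Polynomial.tendsto_atTop_of_leadingCoeff_nonneg E hd hc.le
  obtain ⟨b, hb1, hb2⟩ := ((ht.eventually (Filter.eventually_ge_atTop 0)).and
    (Filter.eventually_ge_atTop a)).exists
  have hi := intermediate_value_Icc (f := fun x => E.eval x) hb2 E.continuous.continuousOn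
  obtain ⟨r, hr, hr2⟩ := hi ⟨ha, hb1⟩
  exact ⟨r, hr.1, hr2⟩

theorem rc_A : ∀ (n : ℕ) (E : ℝ[X]) (c : ℝ) (y : ℕ → ℝ), E.natDegree ≤ n → E.coeff n = c →
    0 < c → (∀ i, i + 1 < n → y i < y (i + 1)) →
    (∀ i < n, 0 ≤ (-1) ^ (n - i) * E.eval (y i)) →
    ∃ ζ : ℕ → ℝ, (∀ i, i + 1 < n → ζ i ≤ ζ (i + 1)) ∧ (∀ i < n, y i ≤ ζ i) ∧
      E = C c * om n ζ := by
  intro n
  induction n with
  | zero =>
    intro E c y hE hc _ _ _
    refine ⟨y, fun i hi => by omega, fun i hi => by omega, ?_⟩
    have h : om 0 y = 1 := by simp [om]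
    rw [h, mul_one, ← hc]
    exact eq_C_of_natDegree_le_zero hE
  | succ n ih =>
    intro E c y hE hc hc0 hy hs
    have hnd : E.natDegree = n + 1 :=
      natDegree_eq_of_le_of_coeff_ne_zero hE (by rw [hc]; exact hc0.ne')
    have hlc : E.leadingCoeff = c := by rw [leadingCoeff, hnd, hc]
    have hE0 : E ≠ 0 := by
      intro h
      rw [h] at hlc
      simp at hlc
      linarith
    have h1 : E.eval (y n) ≤ 0 := by
      have h := hs n (by omega)
      have e : n + 1 - n = 1 := by omega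
      rw [e] at h
      linarith
    obtain ⟨r0, hr0, hr0'⟩ := rc_ex n E hnd (by rw [hlc]; exact hc0) _ h1
    have hne : E.roots.toFinset.Nonempty := ⟨r0, by
      rw [Multiset.mem_toFinset, mem_roots hE0]
      exact hr0'⟩
    obtain ⟨r, hr, hmax⟩ := Finset.exists_max_image E.roots.toFinset id hne
    rw [Multiset.mem_toFinset, mem_roots hE0] at hr
    have hmax' : ∀ z, E.eval z = 0 → z ≤ r := by
      intro z hz
      refine hmax z ?_
      rw [Multiset.mem_toFinset, mem_roots hE0]
      exact hz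
    obtain ⟨E1, hE1⟩ := dvd_iff_isRoot.2 hr
    have hE10 : E1 ≠ 0 := by
      intro h
      rw [h, mul_zero] at hE1
      exact hE0 hE1
    have hnd1 : E1.natDegree = n := by
      have h := hnd
      rw [hE1, natDegree_mul (X_sub_C_ne_zero _) hE10, natDegree_X_sub_C] at h
      omega
    have hlc1 : E1.coeff n = c := by
      have h := hlc
      rw [hE1, leadingCoeff_mul, leadingCoeff_X_sub_C, one_mul, leadingCoeff, hnd1] at h
      exact h
    have hyr : y n ≤ r := hr0.trans (hmax' _ hr0')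
    have hyn : ∀ i < n, y i < y n := by
      intro i hi
      have h2 := rc_mono (n + 1) y (fun i hi => (hy i hi).le) n (by omega) (i + 1) (by omega)
      exact lt_of_lt_of_le (hy i (by omega)) h2
    obtain ⟨ζ, hζ1, hζ2, hζ3⟩ := ih E1 c y hnd1.le hlc1 hc0 (fun i hi => hy i (by omega)) (by
      intro i hi
      have h := hs i (by omega)
      have e : n + 1 - i = (n - i) + 1 := by omega
      rw [hE1, eval_mul, eval_sub, eval_X, eval_C, e, pow_succ] at h
      have h5 : 0 < r - y i := by linarith [hyn i hi]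
      have h6 : 0 ≤ (r - y i) * ((-1) ^ (n - i) * E1.eval (y i)) := by
        calc (0 : ℝ) ≤ _ := h
          _ = _ := by ring
      exact nonneg_of_mul_nonneg_right h6 h5)
    refine ⟨fun i => if i < n then ζ i else r, ?_, ?_, ?_⟩
    · intro i hi
      show (if i < n then ζ i else r) ≤ (if i + 1 < n then ζ (i + 1) else r)
      rw [if_pos (by omega : i < n)]
      by_cases h : i + 1 < n
      · rw [if_pos h]
        exact hζ1 i h
      · rw [if_neg h]
        apply hmax'
        rw [hE1, eval_mul, hζ3, eval_mul, (rc_root n ζ (ζ i)).2 ⟨i, by omega, rfl⟩]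
        ring
    · intro i hi
      show y i ≤ (if i < n then ζ i else r)
      by_cases h : i < n
      · rw [if_pos h]
        exact hζ2 i h
      · rw [if_neg h]
        have : i = n := by omega
        rw [this]
        exact hyr
    · rw [rc_om_succ]
      have h7 : om n (fun i => if i < n then ζ i else r) = om n ζ :=
        rc_om_congr _ _ _ fun i hi => if_pos hi
      rw [h7]
      show E = C c * (om n ζ * (X - C (if n < n then ζ n else r)))
      rw [if_neg (lt_irrefl n), ← mul_assoc, ← hζ3, hE1, mul_comm]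

theorem rc_pow (n i : ℕ) (hi : i < n) : ((-1 : ℝ) ^ (n - i) * (-1) ^ n) = (-1) ^ i := by
  rw [← pow_add]
  have h : n - i + n = 2 * (n - i) + i := by omega
  rw [h, pow_add, pow_mul]
  norm_num

theorem rc_B (n : ℕ) (E : ℝ[X]) (c : ℝ) (y : ℕ → ℝ) (hE : E.natDegree ≤ n) (hc : E.coeff n = c)
    (hc0 : 0 < c) (hy : ∀ i, i + 1 < n → y i < y (i + 1))
    (hs : ∀ i < n, (-1) ^ (n - i) * E.eval (y i) ≤ 0) :
    ∃ ζ : ℕ → ℝ, (∀ i, i + 1 < n → ζ i ≤ ζ (i + 1)) ∧ (∀ i < n, ζ i ≤ y i) ∧
      E = C c * om n ζ := by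
  have hev : ∀ x : ℝ, (C ((-1 : ℝ) ^ n) * E.comp (-X)).eval x = (-1) ^ n * E.eval (-x) := by
    intro x
    rw [eval_mul, eval_C, eval_comp, eval_neg, eval_X]
  have hcomp : E.comp (-X) = E.comp (C (-1) * X) := by
    congr 1
    rw [C_neg, C_1, neg_one_mul]
  obtain ⟨η, h1, h2, h3⟩ := rc_A n (C ((-1 : ℝ) ^ n) * E.comp (-X)) c (fun i => -y (n - 1 - i))
    (by
      refine (natDegree_C_mul_le _ _).trans ?_
      rw [natDegree_comp, natDegree_neg, natDegree_X, mul_one]
      exact hE)
    (by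
      rw [coeff_C_mul, hcomp, comp_C_mul_X_coeff, hc, mul_comm, mul_assoc, ← pow_add]
      have h : ((-1 : ℝ) ^ (n + n)) = 1 := (Even.add_self n).neg_one_pow
      rw [h, mul_one])
    hc0
    (by
      intro i hi
      have h1 : n - 1 - i = (n - 1 - (i + 1)) + 1 := by omega
      have h2 := hy (n - 1 - (i + 1)) (by omega)
      show -y (n - 1 - i) < -y (n - 1 - (i + 1))
      rw [h1]
      linarith)
    (by
      intro i hi
      rw [hev, neg_neg, ← mul_assoc, rc_pow n i hi]
      have h := hs (n - 1 - i) (by omega)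
      have e : n - (n - 1 - i) = i + 1 := by omega
      rw [e, pow_succ] at h
      linarith)
  refine ⟨fun i => -η (n - 1 - i), ?_, ?_, ?_⟩
  · intro i hi
    have h4 : n - 1 - i = (n - 1 - (i + 1)) + 1 := by omega
    have h5 := h1 (n - 1 - (i + 1)) (by omega)
    show -η (n - 1 - i) ≤ -η (n - 1 - (i + 1))
    rw [h4]
    linarith
  · intro i hi
    have h4 := h2 (n - 1 - i) (by omega)
    have h5 : n - 1 - (n - 1 - i) = i := by omega
    show -η (n - 1 - i) ≤ y i
    have h6 : -y (n - 1 - (n - 1 - i)) ≤ η (n - 1 - i) := h4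
    rw [h5] at h6
    linarith
  · refine Polynomial.funext fun x => ?_
    have h4 := hev (-x)
    rw [h3, neg_neg] at h4
    have h5 : ((-1 : ℝ) ^ n) * ((-1) ^ n) = 1 := by
      rw [← pow_add]
      exact (Even.add_self n).neg_one_pow
    have h6 : E.eval x = (-1) ^ n * (C c * om n η).eval (-x) := by
      rw [h4, ← mul_assoc, h5, one_mul]
    rw [h6, eval_mul, eval_C]
    have h7 : (om n fun i => -η (n - 1 - i)).eval x = (-1) ^ n * (om n η).eval (-x) := by
      unfold om
      rw [eval_prod, eval_prod, ← Finset.prod_range_reflect]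
      have h8 : ((-1 : ℝ) ^ n) = ∏ _j ∈ Finset.range n, (-1 : ℝ) := by
        rw [Finset.prod_const, Finset.card_range]
      rw [h8, ← Finset.prod_mul_distrib]
      refine Finset.prod_congr rfl fun j hj => ?_
      have hj' := Finset.mem_range.1 hj
      have h9 : n - 1 - (n - 1 - j) = j := by omega
      rw [eval_sub, eval_sub, eval_X, eval_X, eval_C, eval_C]
      show x - -η (n - 1 - (n - 1 - j)) = _
      rw [h9]
      ring
    rw [eval_mul, eval_C, h7]
    ring

theorem rc : Rc := by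
  intro n E c y y' hE hc hc0 hy hy' hs hs'
  obtain ⟨ζ, h1, h2, h3⟩ := rc_A n E c y hE hc hc0 hy hs
  obtain ⟨ζ', h1', h2', h3'⟩ := rc_B n E c y' hE hc hc0 hy' hs'
  have h4 : om n ζ = om n ζ' := by
    have h5 : C c * om n ζ = C c * om n ζ' := by rw [← h3, ← h3']
    exact mul_left_cancel₀ (C_ne_zero.2 hc0.ne') h5
  have h6 := rc_uniq n ζ ζ' h1 h1' h4
  exact ⟨ζ, fun i hi => ⟨h2 i hi, by rw [h6 i hi]; exact h2' i hi⟩, h3⟩

end Pool.Agent.Helper40.TV
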