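import Pool.Agent.Helper40.TV.St2

/-! Project TV, piece V1: facts on the primitive of the absolute value of the sine. -/

open Real MeasureTheory Set Filter

noncomputable section

namespace Pool.Agent.Helper40.TV

theorem v1_int (a b : ℝ) : IntervalIntegrable (fun t => |Real.sin t|) volume a b :=
  Real.continuous_sin.abs.intervalIntegrable a b

theorem v1_sub (x y : ℝ) : vv y - vv x = ∫ t in x..y, |Real.sin t| :=
  intervalIntegral.integral_interval_sub_left (v1_int 0 y) (v1_int 0 x)

theorem v1_cont : Continuous vv :=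
  intervalIntegral.continuous_primitive v1_int 0

theorem v1_zero : vv 0 = 0 := intervalIntegral.integral_same

theorem v1_base (s : ℝ) (h0 : 0 ≤ s) (h1 : s ≤ π) : vv s = 1 - Real.cos s := by
  have h2 : ∫ t in (0 : ℝ)..s, |Real.sin t| = ∫ t in (0 : ℝ)..s, Real.sin t := by
    refine intervalIntegral.integral_congr fun t ht => ?_
    rw [Set.uIcc_of_le h0] at ht
    exact abs_of_nonneg (Real.sin_nonneg_of_nonneg_of_le_pi ht.1 (ht.2.trans h1))
  change ∫ t in (0 : ℝ)..s, |Real.sin t| = _
  rw [h2, integral_sin, Real.cos_zero]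

theorem v1_per : Function.Periodic (fun t => |Real.sin t|) π := by
  intro t
  simp only [Real.sin_add_pi, abs_neg]

theorem v1_add_pi (y : ℝ) : vv (y + π) = vv y + 2 := by
  have h1 : vv (y + π) - vv y = 2 := by
    rw [v1_sub, v1_per.intervalIntegral_add_eq y 0, zero_add]
    have h2 := v1_base π Real.pi_pos.le le_rfl
    rw [Real.cos_pi] at h2
    change vv π = 2
    rw [h2]
    norm_num
  linarith

theorem v1_add_int (k : ℤ) (y : ℝ) : vv (y + k * π) = vv y + 2 * k := by
  induction k using Int.induction_on with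
  | zero => simp
  | succ n ih =>
    have h1 : y + ((n + 1 : ℤ) : ℝ) * π = y + (n : ℤ) * π + π := by
      push_cast
      ring
    rw [h1, v1_add_pi, ih]
    push_cast
    ring
  | pred n ih =>
    have h1 : y + ((-n : ℤ) : ℝ) * π = y + ((-n - 1 : ℤ) : ℝ) * π + π := by
      push_cast
      ring
    rw [h1, v1_add_pi] at ih
    push_cast at ih ⊢
    linarith

theorem v1_formula (k : ℤ) (y : ℝ) (h0 : k * π ≤ y) (h1 : y ≤ (k + 1) * π) :
    vv y = 2 * k + 1 - Real.cos (y - k * π) := by
  have h2 := v1_add_int k (y - k * π)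
  rw [sub_add_cancel, v1_base (y - k * π) (by linarith) (by linarith)] at h2
  linarith

theorem v1_neg (y : ℝ) : vv (-y) = -vv y := by
  have h1 := intervalIntegral.integral_comp_neg (a := 0) (b := y) (fun t => |Real.sin t|)
  simp only [Real.sin_neg, abs_neg, neg_zero] at h1
  change ∫ t in (0 : ℝ)..(-y), |Real.sin t| = -∫ t in (0 : ℝ)..y, |Real.sin t|
  rw [h1, intervalIntegral.integral_symm]

theorem v1_mono {x y : ℝ} (h : x ≤ y) : vv x ≤ vv y := by
  have h1 := v1_sub x y
  have h2 : 0 ≤ ∫ t in x..y, |Real.sin t| :=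
    intervalIntegral.integral_nonneg h fun t _ => abs_nonneg _
  linarith

theorem v1_lip (x y : ℝ) (h : x ≤ y) : vv y - vv x ≤ y - x := by
  rw [v1_sub]
  have h1 : ∫ t in x..y, |Real.sin t| ≤ ∫ _ in x..y, (1 : ℝ) :=
    intervalIntegral.integral_mono_on h (v1_int x y) intervalIntegrable_const
      fun t _ => Real.abs_sin_le_one t
  rw [intervalIntegral.integral_const, smul_eq_mul, mul_one] at h1
  exact h1

theorem v1_two (x y : ℝ) (h : x ≤ y) (h' : y ≤ x + π) :
    vv y - vv x ≤ 2 * Real.sin ((y - x) / 2) ∧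
      2 * (1 - Real.cos ((y - x) / 2)) ≤ vv y - vv x := by
  have hpi := Real.pi_pos
  set k : ℤ := ⌊x / π⌋ with hk
  have hk1 : (k : ℝ) * π ≤ x := by
    have := Int.floor_le (x / π)
    rwa [le_div_iff₀ hpi] at this
  have hk2 : x < ((k : ℝ) + 1) * π := by
    have := Int.lt_floor_add_one (x / π)
    rwa [div_lt_iff₀ hpi] at this
  have hx := v1_formula k x hk1 hk2.le
  have hs0 : 0 ≤ Real.sin ((y - x) / 2) :=
    Real.sin_nonneg_of_nonneg_of_le_pi (by linarith) (by linarith)
  have hs1 : Real.sin ((y - x) / 2) ≤ 1 := Real.sin_le_one _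
  have hc0 : 0 ≤ Real.cos ((y - x) / 2) :=
    Real.cos_nonneg_of_mem_Icc ⟨by linarith, by linarith⟩
  have hc1 : Real.cos ((y - x) / 2) ≤ 1 := Real.cos_le_one _
  have hsc := Real.sin_sq_add_cos_sq ((y - x) / 2)
  by_cases hy : y ≤ ((k : ℝ) + 1) * π
  · have hy' := v1_formula k y (hk1.trans h) hy
    have e1 : vv y - vv x = 2 * Real.sin ((x + y) / 2 - k * π) * Real.sin ((y - x) / 2) := by
      rw [hx, hy']
      have e2 := Real.cos_sub_cos (x - k * π) (y - k * π)
      have e3 : (x - k * π + (y - k * π)) / 2 = (x + y) / 2 - k * π := by ring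
      have e4 : (x - k * π - (y - k * π)) / 2 = -((y - x) / 2) := by ring
      rw [e3, e4, Real.sin_neg] at e2
      linarith
    have e5 : Real.sin ((x + y) / 2 - k * π) ≤ 1 := Real.sin_le_one _
    have e6 : Real.sin ((y - x) / 2) ≤ Real.sin ((x + y) / 2 - k * π) := by
      have e7 := Real.sin_sub_sin ((x + y) / 2 - k * π) ((y - x) / 2)
      have e8 : ((x + y) / 2 - k * π - (y - x) / 2) / 2 = (x - k * π) / 2 := by ring
      have e9 : ((x + y) / 2 - k * π + (y - x) / 2) / 2 = (y - k * π) / 2 := by ring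
      rw [e8, e9] at e7
      have e10 : 0 ≤ Real.sin ((x - k * π) / 2) :=
        Real.sin_nonneg_of_nonneg_of_le_pi (by linarith) (by linarith)
      have e11 : 0 ≤ Real.cos ((y - k * π) / 2) :=
        Real.cos_nonneg_of_mem_Icc ⟨by linarith, by linarith⟩
      nlinarith [mul_nonneg e10 e11]
    rw [e1]
    constructor
    · nlinarith
    · nlinarith [mul_nonneg hs0 (sub_nonneg.2 e6)]
  · push Not at hy
    have hy' := v1_formula (k + 1) y (by push_cast; exact hy.le) (by push_cast; linarith)
    push_cast at hy'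
    have e1 : vv y - vv x = 2 - 2 * Real.cos ((y - x) / 2) *
        Real.cos ((x + y) / 2 - (k + 1) * π) := by
      rw [hx, hy']
      have e2 := Real.cos_add_cos (y - (k + 1) * π) (x - (k + 1) * π)
      have e3 : (y - (k + 1) * π + (x - (k + 1) * π)) / 2 = (x + y) / 2 - (k + 1) * π := by ring
      have e4 : (y - (k + 1) * π - (x - (k + 1) * π)) / 2 = (y - x) / 2 := by ring
      have e5 : Real.cos (x - k * π) = -Real.cos (x - (k + 1) * π) := by
        have e6 : x - k * π = x - (k + 1) * π + π := by ring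
        rw [e6, Real.cos_add_pi]
      rw [e3, e4] at e2
      rw [e5]
      linarith
    have e7 : Real.cos ((x + y) / 2 - (k + 1) * π) ≤ 1 := Real.cos_le_one _
    have e8 : Real.cos ((y - x) / 2) ≤ Real.cos ((x + y) / 2 - (k + 1) * π) := by
      rw [← Real.cos_abs ((x + y) / 2 - (k + 1) * π)]
      refine Real.cos_le_cos_of_nonneg_of_le_pi (abs_nonneg _) (by linarith) ?_
      rw [abs_le]
      constructor <;> linarith
    rw [e1]
    constructor
    · nlinarith [mul_nonneg hc0 (sub_nonneg.2 e8)]
    · nlinarith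

theorem v1_strict : StrictMono vv := by
  intro x y h
  have hpi := Real.pi_pos
  have h1 : x < min y (x + π) := lt_min h (by linarith)
  have h2 := (v1_two x (min y (x + π)) h1.le (min_le_right _ _)).2
  have h3 := v1_mono (min_le_left y (x + π))
  have h4 : Real.cos ((min y (x + π) - x) / 2) < 1 := by
    rw [← Real.cos_zero]
    refine Real.cos_lt_cos_of_nonneg_of_le_pi le_rfl ?_ (by linarith)
    have := min_le_right y (x + π)
    linarith
  linarith

theorem v1 : V1 :=
  ⟨v1_cont, v1_strict, v1_zero, v1_add_pi, v1_formula, v1_neg, v1_lip,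
    fun x y h h' => (v1_two x y h h').1, fun x y h h' => (v1_two x y h h').2⟩

end Pool.Agent.Helper40.TV
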