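import Pool.Agent.Helper40.TV.St3

/-!
The variation of a member is the variation of the cosine of its phase.
-/

set_option autoImplicit false

namespace Pool.Agent.Helper40.TV

open Polynomial Set Real

/-- `|P'|` is interval integrable -/
theorem vh_int (P : ℝ[X]) (a b : ℝ) :
    IntervalIntegrable (fun x => |P.derivative.eval x|) MeasureTheory.volume a b :=
  (P.derivative.continuous.abs).intervalIntegrable a b

/-- additivity of the variation -/
theorem vh_add (P : ℝ[X]) (a b c : ℝ) : Vp P a b + Vp P b c = Vp P a c :=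
  intervalIntegral.integral_add_adjacent_intervals (vh_int P a b) (vh_int P b c)

/-- variation of a polynomial with a monotone multiple -/
theorem vh_mono (P : ℝ[X]) (s a b : ℝ) (hs : |s| = 1) (hab : a ≤ b)
    (h : MonotoneOn (fun x => s * P.eval x) (Icc a b)) :
    Vp P a b = s * (P.eval b - P.eval a) := by
  have hd : ∀ x ∈ Ioo a b, 0 ≤ s * P.derivative.eval x := by
    intro x hx
    have h1 : HasDerivAt (fun x => s * P.eval x) (s * P.derivative.eval x) x :=
      (P.hasDerivAt x).const_mul s
    have h2 : 0 ≤ derivWithin (fun x => s * P.eval x) (Icc a b) x := h.derivWithin_nonneg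
    have h3 : derivWithin (fun x => s * P.eval x) (Icc a b) x = s * P.derivative.eval x := by
      rw [derivWithin_of_mem_nhds (Icc_mem_nhds hx.1 hx.2)]
      exact h1.deriv
    rw [h3] at h2
    exact h2
  have h4 : Vp P a b = ∫ x in a..b, s * P.derivative.eval x := by
    unfold Vp
    apply intervalIntegral.integral_congr_Ioo_of_le hab
    intro x hx
    have h5 := hd x hx
    simp only
    rw [← abs_of_nonneg h5, abs_mul, hs, one_mul]
  rw [h4]
  have h6 : ∫ x in a..b, s * P.derivative.eval x = s * P.eval b - s * P.eval a := by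
    apply intervalIntegral.integral_eq_sub_of_hasDerivAt
    · intro x _
      exact (P.hasDerivAt x).const_mul s
    · exact (continuous_const.mul P.derivative.continuous).intervalIntegrable a b
  rw [h6]
  ring

theorem vh (hV1 : V1) : Vh := by
  obtain ⟨-, -, -, -, hvv, -⟩ := hV1
  intro n Th Z F L
  -- one piece
  have piece : ∀ (k : ℤ) (τ τ' : ℝ), 0 ≤ τ → τ ≤ τ' → τ' ≤ π → k * π ≤ Th L τ →
      Th L τ' ≤ (k + 1) * π → Vp (Z L) (cos τ') (cos τ) = vv (Th L τ') - vv (Th L τ) := by
    intro k τ τ' h0 h1 h2 h3 h4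
    have hτ : τ ∈ Icc 0 π := ⟨h0, h1.trans h2⟩
    have hτ' : τ' ∈ Icc 0 π := ⟨h0.trans h1, h2⟩
    have hm := F.inc L
    have h5 : Th L τ ≤ Th L τ' := hm.monotoneOn hτ hτ' h1
    have hc : cos τ' ≤ cos τ := cos_le_cos_of_nonneg_of_le_pi h0 h2 h1
    have hval : ∀ θ ∈ Icc 0 π, cos (Th L θ - k * π) = cos (k * π) * (Z L).eval (cos θ) := by
      intro θ hθ
      rw [F.ev L θ hθ, cos_sub]
      have : sin ((k : ℝ) * π) = 0 := sin_int_mul_pi k
      rw [this]
      ring
    have hsg : |cos ((k : ℝ) * π)| = 1 := abs_cos_int_mul_pi k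
    have hmon : MonotoneOn (fun x => cos ((k : ℝ) * π) * (Z L).eval x)
        (Icc (cos τ') (cos τ)) := by
      intro x hx y hy hxy
      have hx1 : -1 ≤ x := (neg_one_le_cos _).trans hx.1
      have hx2 : x ≤ 1 := hx.2.trans (cos_le_one _)
      have hy1 : -1 ≤ y := (neg_one_le_cos _).trans hy.1
      have hy2 : y ≤ 1 := hy.2.trans (cos_le_one _)
      have ex : cos (arccos x) = x := cos_arccos hx1 hx2
      have ey : cos (arccos y) = y := cos_arccos hy1 hy2
      have mx : arccos x ∈ Icc 0 π := ⟨arccos_nonneg _, arccos_le_pi _⟩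
      have my : arccos y ∈ Icc 0 π := ⟨arccos_nonneg _, arccos_le_pi _⟩
      have le1 : arccos y ≤ arccos x := arccos_le_arccos hxy
      have le2 : τ ≤ arccos y := by
        have := arccos_le_arccos hy.2
        rwa [arccos_cos h0 (h1.trans h2)] at this
      have le3 : arccos x ≤ τ' := by
        have := arccos_le_arccos hx.1
        rwa [arccos_cos (h0.trans h1) h2] at this
      have t1 : Th L τ ≤ Th L (arccos y) := hm.monotoneOn hτ my le2
      have t2 : Th L (arccos y) ≤ Th L (arccos x) := hm.monotoneOn my mx le1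
      have t3 : Th L (arccos x) ≤ Th L τ' := hm.monotoneOn mx hτ' le3
      have key : cos (Th L (arccos x) - k * π) ≤ cos (Th L (arccos y) - k * π) :=
        cos_le_cos_of_nonneg_of_le_pi (by linarith) (by linarith) (by linarith)
      rw [hval _ mx, hval _ my, ex, ey] at key
      exact key
    rw [vh_mono (Z L) _ _ _ hsg hc hmon, mul_sub, ← hval _ hτ, ← hval _ hτ',
      hvv k _ h3 (h5.trans h4), hvv k _ (h3.trans h5) h4]
    ring
  have main : ∀ (N : ℕ) (k : ℤ) (τ τ' : ℝ), 0 ≤ τ → τ ≤ τ' → τ' ≤ π → k * π ≤ Th L τ →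
      Th L τ' ≤ (k + N) * π → Vp (Z L) (cos τ') (cos τ) = vv (Th L τ') - vv (Th L τ) := by
    intro N
    induction N with
    | zero =>
      intro k τ τ' h0 h1 h2 h3 h4
      have hτ : τ ∈ Icc 0 π := ⟨h0, h1.trans h2⟩
      have hτ' : τ' ∈ Icc 0 π := ⟨h0.trans h1, h2⟩
      have h5 : τ = τ' := by
        rcases lt_or_eq_of_le h1 with h | h
        · have := F.inc L hτ hτ' h
          push_cast at h4
          rw [add_zero] at h4
          linarith
        · exact h
      rw [h5]
      unfold Vp
      simp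
    | succ N ih =>
      intro k τ τ' h0 h1 h2 h3 h4
      have hτ : τ ∈ Icc 0 π := ⟨h0, h1.trans h2⟩
      have hτ' : τ' ∈ Icc 0 π := ⟨h0.trans h1, h2⟩
      push_cast at h4
      rcases le_or_gt (Th L τ') ((k + 1) * π) with h | h
      · exact piece k τ τ' h0 h1 h2 h3 h
      · rcases le_or_gt ((k + 1) * π) (Th L τ) with h' | h'
        · apply ih (k + 1) τ τ' h0 h1 h2
          · push_cast
            exact h'
          · push_cast
            calc Th L τ' ≤ (k + (N + 1)) * π := h4
              _ = _ := by ring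
        · have hivt := intermediate_value_Icc h1
            ((F.cth L).mono (Icc_subset_Icc h0 h2))
          obtain ⟨σ, hσ, e⟩ := hivt ⟨h'.le, h.le⟩
          have e1 := piece k τ σ h0 hσ.1 (hσ.2.trans h2) h3 e.le
          have e2 := ih (k + 1) σ τ' (h0.trans hσ.1) hσ.2 h2
            (by push_cast; exact e.ge)
            (by
              push_cast
              calc Th L τ' ≤ (k + (N + 1)) * π := h4
                _ = _ := by ring)
          rw [← vh_add (Z L) (cos τ') (cos σ) (cos τ), e1, e2]
          ring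
  intro τ τ' h0 h1 h2
  obtain ⟨k, hk⟩ : ∃ k : ℤ, k * π ≤ Th L τ := by
    refine ⟨⌊Th L τ / π⌋, ?_⟩
    have := Int.floor_le (Th L τ / π)
    rwa [le_div_iff₀ pi_pos] at this
  obtain ⟨N, hN⟩ : ∃ N : ℕ, Th L τ' ≤ (k + N) * π := by
    obtain ⟨N, hN⟩ := exists_nat_ge (Th L τ' / π - k)
    refine ⟨N, ?_⟩
    have : Th L τ' / π ≤ k + N := by linarith
    rwa [div_le_iff₀ pi_pos] at this
  exact main N k τ τ' h0 h1 h2 hk hN

end Pool.Agent.Helper40.TV
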